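import Mathlib
import Pool.Agent.Lib.MP_ae5b4e_an_hopf.Plane
import Pool.Agent.Lib.MP_ae5b4e_an_RG.LSys
import Pool.Agent.Lib.MP_ae5b4e_an_RG.Defs

/-!
# MP_ae5b4e_an, project NC (curves near the circle): definitions

Text: `/team-store/POR_NC_h73.md`.  The curve is seen in `ℂ × ℝ`: the point `(w, z)` and its
derivative `(w1, z1)` in the angle `φ = 2 π x`; on the circle `w = e 1 x`, `z = 1`, `w1 = i e 1 x`,
`z1 = 0`.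
-/

noncomputable section

namespace Pool.Agent.MP_ae5b4e_an_NC

open Real Set Filter Topology MeasureTheory intervalIntegral
open scoped ContDiff
open Pool.Agent.MP_ae5b4e_an_hopf
open Pool.Agent.MP_ae5b4e_an_RG

/-- first jet of a curve in `ℂ × ℝ` -/
@[ext] structure Jet where
  w : ℂ
  z : ℝ
  w1 : ℂ
  z1 : ℝ

/-- the parameters of the forms -/
@[ext] structure Par where
  q : ℂ
  c3 : ℂ
  c4 : ℂ

/-- the size of the quartic form -/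
def Par.c (θ : Par) : ℝ := ‖θ.c3‖ + ‖θ.c4‖

/-- the two small quantities: `E = c (|c4| + |q| |c3|) + c ^ 3` -/
def Par.E (θ : Par) : ℝ := θ.c * (‖θ.c4‖ + ‖θ.q‖ * ‖θ.c3‖) + θ.c ^ 3

def Q1 (w : ℂ) (z : ℝ) : ℝ := Complex.normSq w - z ^ 2

def Q2 (θ : Par) (w : ℂ) (z : ℝ) : ℝ := z ^ 2 + (θ.q * w ^ 2).re

def G (θ : Par) (w : ℂ) (z : ℝ) : ℝ := (θ.c3 * (w ^ 3 * z) + θ.c4 * w ^ 4).re

/-- the function on the projective plane -/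
def Psi (θ : Par) (w : ℂ) (z : ℝ) : ℝ := Q1 w z / Q2 θ w z + G θ w z / Q2 θ w z ^ 2

namespace Jet

variable (θ : Par) (J : Jet)

/-- `Q2` at the point -/
def al : ℝ := J.z ^ 2 + (θ.q * J.w ^ 2).re

/-- the derivative of `al` -/
def al1 : ℝ := 2 * (J.z * J.z1) + 2 * (θ.q * (J.w * J.w1)).re

def ka : ℝ := J.al1 θ / (2 * J.al θ)

/-- the tangent vector which is orthogonal to the point -/
def wT : ℂ := J.w1 - (J.ka θ : ℂ) * J.w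

def zT : ℝ := J.z1 - J.ka θ * J.z

def la : ℝ := (J.zT θ ^ 2 + (θ.q * J.wT θ ^ 2).re) / J.al θ

def b1 : ℝ := 2 * ((starRingEnd ℂ) J.w * J.wT θ).re - 2 * (J.z * J.zT θ)

def b2 : ℝ := Complex.normSq (J.wT θ) - J.zT θ ^ 2

/-- the coefficients of `G` on the tangent line -/
def g0 : ℝ := (θ.c3 * (J.w ^ 3 * J.z) + θ.c4 * J.w ^ 4).re

def g1 : ℝ := (θ.c3 * (3 * (J.w ^ 2 * J.wT θ * J.z) + J.w ^ 3 * J.zT θ) +
  θ.c4 * (4 * (J.w ^ 3 * J.wT θ))).re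

def g2 : ℝ := (θ.c3 * (3 * (J.w * J.wT θ ^ 2 * J.z) + 3 * (J.w ^ 2 * J.wT θ * J.zT θ)) +
  θ.c4 * (6 * (J.w ^ 2 * J.wT θ ^ 2))).re

def g3 : ℝ := (θ.c3 * (J.wT θ ^ 3 * J.z + 3 * (J.w * J.wT θ ^ 2 * J.zT θ)) +
  θ.c4 * (4 * (J.w * J.wT θ ^ 3))).re

def g4 : ℝ := (θ.c3 * (J.wT θ ^ 3 * J.zT θ) + θ.c4 * J.wT θ ^ 4).re

/-- the two defects and the other coefficients of `Psi` on the tangent line -/
def e0 : ℝ := J.b1 θ / J.al θ + J.g1 θ / J.al θ ^ 2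

def psi2 : ℝ := (J.b2 θ - J.la θ * (Q1 J.w J.z)) / J.al θ +
  (J.g2 θ - 2 * (J.la θ * J.g0 θ)) / J.al θ ^ 2

def G3 : ℝ := (J.g3 θ - J.la θ * J.g1 θ) / J.al θ ^ 2

def G4 : ℝ := (J.g4 θ - J.la θ * J.g2 θ + J.la θ ^ 2 * J.g0 θ) / J.al θ ^ 2

def e1 : ℝ := J.G3 θ - J.la θ * J.e0 θ - 2 * (J.ka θ * J.psi2 θ) + J.ka θ ^ 2 * J.e0 θ

def mu : ℝ := J.la θ + J.ka θ ^ 2

/-- `Q2` of `(w, z) + τ (w1, z1)`, divided by `al` -/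
def D (τ : ℝ) : ℝ := (1 + J.ka θ * τ) ^ 2 + J.la θ * τ ^ 2

/-- the product `D τ * D (-τ)` as a function of `t = τ ^ 2` -/
def DD (t : ℝ) : ℝ := 1 + 2 * ((J.la θ - J.ka θ ^ 2) * t) + J.mu θ ^ 2 * t ^ 2

def n0 (t : ℝ) : ℝ := 1 + (4 * J.la θ - 4 * J.ka θ ^ 2) * t +
  (5 * J.la θ ^ 2 - 2 * (J.ka θ ^ 2 * J.la θ) + J.ka θ ^ 4) * t ^ 2 +
  (2 * J.la θ ^ 3 - 2 * (J.ka θ ^ 2 * J.la θ ^ 2) - 2 * (J.ka θ ^ 4 * J.la θ) +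
    2 * J.ka θ ^ 6) * t ^ 3

def n1 (t : ℝ) : ℝ := 1 + (2 * J.la θ + 2 * J.ka θ ^ 2) * t +
  (J.la θ ^ 2 - 2 * (J.ka θ ^ 2 * J.la θ) - 3 * J.ka θ ^ 4) * t ^ 2

/-- the two source functions -/
def y1 : ℝ := J.ka θ ^ 3 * J.psi2 θ

def y2 : ℝ := J.ka θ * J.G4 θ

/-- the odd part of `Psi` on the tangent line, divided by `τ`, as a function of `t = τ ^ 2` -/
def Phi (t : ℝ) : ℝ := (J.e0 θ * J.n0 θ t + J.e1 θ * (t * J.n1 θ t) +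
  8 * (J.y1 θ * (t ^ 2 * (1 - J.mu θ * t))) - 4 * (J.y2 θ * (t ^ 2 * (1 + J.mu θ * t)))) /
    J.DD θ t ^ 2

/-- the difference of the values of a function at the two points of the tangent line -/
def od (Ψ : ℂ → ℝ → ℝ) (τ : ℝ) : ℝ :=
  Ψ (J.w + τ * J.w1) (J.z + τ * J.z1) - Ψ (J.w - τ * J.w1) (J.z - τ * J.z1)

end Jet

/-- the jet of the circle -/
def J0 (x : ℝ) : Jet := ⟨e 1 x, 1, Complex.I * e 1 x, 0⟩

/-- the jet of a curve in `ℝ³` (of period one, scaled) -/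
def jet (P : ℝ → Fin 3 → ℝ) (x : ℝ) : Jet :=
  ⟨2 * π * ((P x 0 : ℂ) + P x 1 * Complex.I), 2 * π * P x 2,
    (deriv P x 0 : ℂ) + deriv P x 1 * Complex.I, deriv P x 2⟩

/-- changes of the frame -/
@[ext] structure Frm where
  s : ℂ
  x : ℂ
  y : ℂ

def Frm.act (g : Frm) (J : Jet) : Jet :=
  ⟨J.w + g.s * (starRingEnd ℂ) J.w + g.x * J.z, J.z + ((starRingEnd ℂ) g.y * J.w).re,
    J.w1 + g.s * (starRingEnd ℂ) J.w1 + g.x * J.z1, J.z1 + ((starRingEnd ℂ) g.y * J.w1).re⟩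

/-- the curve `J` has the tau-values `τ` along the closed curve `L` of `p/q`-periodic points: the
sums over the polygons vanish for all functions on the projective plane -/
structure Lw (J : ℝ → Jet) (p q : ℕ) (L τ : ℝ → ℝ) : Prop where
  contL : Continuous L
  contτ : Continuous τ
  perL : ∀ x, L (x + 1) = L x + 1
  perτ : Function.Periodic τ 1
  sum : ∀ Ψ : ℂ → ℝ → ℝ, (∀ (w : ℂ) (z c : ℝ), c ≠ 0 → Ψ (c * w) (c * z) = Ψ w z) →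
    ∀ x, ∑ j ∈ Finset.range q, (J (L (x + j * ((p:ℝ) / q)))).od Ψ (τ (x + j * ((p:ℝ) / q))) = 0

/-- closeness of a leaf to the leaf of the circle -/
structure Cls (ε : ℝ) (p q : ℕ) (L τ : ℝ → ℝ) : Prop where
  near : ∀ x, |L x - x| ≤ ε
  tau : ∀ x, |τ x - Real.tan (π * ((p:ℝ) / q))| ≤ ε

/-- `f = ∑ a_k e_k` with `|a_k| ≤ B / ((1 + |k|) ^ b exp (ρ |k|))` -/
def WB (ρ : ℝ) (b : ℕ) (B : ℝ) (f : ℝ → ℂ) : Prop :=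
  ∃ a : ℤ → ℂ, (∀ k, ‖a k‖ ≤ B / ((1 + |(k:ℝ)|) ^ b * Real.exp (ρ * |(k:ℝ)|))) ∧
    ∀ x, HasSum (fun k => a k * e k x) (f x)

/-- real functions -/
def WR (ρ : ℝ) (b : ℕ) (B : ℝ) (f : ℝ → ℝ) : Prop := WB ρ b B (fun x => (f x : ℂ))

/-- the curve is close to the circle -/
structure Near (ρ ε : ℝ) (J : ℝ → Jet) : Prop where
  w : WB ρ 2 ε (fun x => (J x).w - e 1 x)
  z : WR ρ 2 ε (fun x => (J x).z - 1)
  w1 : WB ρ 2 ε (fun x => (J x).w1 - Complex.I * e 1 x)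
  z1 : WR ρ 2 ε (fun x => (J x).z1)
  dw : ∀ x, HasDerivAt (fun x => (J x).w) (2 * π * (J x).w1) x
  dz : ∀ x, HasDerivAt (fun x => (J x).z) (2 * π * (J x).z1) x

/-- a leaf with small rotation number -/
def Big (ρ A1 : ℝ) (p q : ℕ) (L τ : ℝ → ℝ) : Prop :=
  ∀ N : ℕ, ∃ η, etam ρ N p q ≤ η ∧ η ≤ 2 * etam ρ N p q ∧ η ≤ 1 ∧
    NB ρ N η (A1 * ((p:ℝ) / q) ^ 2) (fun x => ((L x - x : ℝ) : ℂ)) ∧
    NB ρ N η (A1 * ((p:ℝ) / q) ^ 2) (fun x => ((τ x / (π * ((p:ℝ) / q)) - 1 : ℝ) : ℂ))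

/-- all the leaves which are used -/
structure Leaves (ρ A1 ε : ℝ) (q0 n1 : ℕ) (J : ℝ → Jet) : Prop where
  two : ∀ p q : ℕ, PQ p q → 5 * p ≤ 2 * q → ∃ L τ : ℝ → ℝ, Lw J p q L τ ∧
    (q ≤ n1 → Cls ε p q L τ) ∧ (q0 ≤ q → Big ρ A1 p q L τ)
  three : ∀ q : ℕ, q = 7 ∨ q = 8 → ∃ L τ : ℝ → ℝ, Lw J 3 q L τ ∧ Cls ε 3 q L τ

/-- the parameters are small -/
structure Par.Small (ε : ℝ) (θ : Par) : Prop where
  q : ‖θ.q‖ ≤ ε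
  c3 : ‖θ.c3‖ ≤ ε
  c4 : ‖θ.c4‖ ≤ ε

/-- the twelve conditions -/
structure Cond (J : ℝ → Jet) (θ : Par) : Prop where
  a1 : rc (fun x => (J x).e0 θ) 1 = 0
  a2 : rc (fun x => (J x).e0 θ) 2 = 0
  b1 : rc (fun x => (J x).e1 θ) 1 = 0
  b2 : rc (fun x => (J x).e1 θ) 2 = 0
  b3 : rc (fun x => (J x).e1 θ) 3 = 0
  b4 : rc (fun x => (J x).e1 θ) 4 = 0

/-- the weighted bound of the defects -/
def XB (ρ X : ℝ) (J : ℝ → Jet) (θ : Par) : Prop :=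
  WR ρ 4 X (fun x => (J x).e0 θ) ∧ WR ρ 2 X (fun x => (J x).e1 θ)

/-- the weighted bound of the sources -/
def YB (ρ Y : ℝ) (J : ℝ → Jet) (θ : Par) : Prop :=
  WR ρ 2 Y (fun x => (J x).y1 θ) ∧ WR ρ 2 Y (fun x => (J x).y2 θ)

/-- a normalized solution near the circle -/
structure NS (ε : ℝ) (P : ℝ → Fin 3 → ℝ) (U : ℝ → ℝ → ℝ) (r m : ℝ → ℝ) : Prop where
  sys : LSys 1 P U (fun _ => 0)
  wr : ∀ x, Wr P x = 1
  sr : ContDiff ℝ ∞ r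
  sm : ContDiff ℝ ∞ m
  pr : Function.Periodic r 1
  pm : Function.Periodic m 1
  ode : ∀ x, deriv (deriv (deriv P)) x = -(r x) • deriv P x - m x • P x
  r0 : ∀ x, |r x - 4 * π ^ 2| ≤ ε
  r1 : ∀ x, |deriv r x| ≤ ε
  r2 : ∀ x, |deriv (deriv r) x| ≤ ε
  r3 : ∀ x, |deriv (deriv (deriv r)) x| ≤ ε
  m0 : ∀ x, |m x| ≤ ε
  m1 : ∀ x, |deriv m x| ≤ ε
  m2 : ∀ x, |deriv (deriv m) x| ≤ ε
  step : ∃ δ : ℝ, 3 / 7 < δ ∧ ∃ c ∈ Ioo (0:ℝ) 1, ∀ t, t + δ ≤ nxt P 1 U c t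

end Pool.Agent.MP_ae5b4e_an_NC
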