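import Mathlib
import Pool.Agent.Lib.MP_ae5b4e_an_NC.Def
import Pool.Agent.Lib.MP_ae5b4e_an_RG.Bda

/-!
# MP_ae5b4e_an, project NC: a frame in which the curve is near the circle

`NS` is invariant under linear maps of determinant one; after such a map the curve has the same
`P, P', P''` at `0` as the circle, and is near the circle by Gronwall.
-/

noncomputable section

namespace Pool.Agent.MP_ae5b4e_an_NC

open Real Set Filter Topology MeasureTheory intervalIntegral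
open scoped ContDiff Matrix
open Pool.Agent.MP_ae5b4e_an_hopf
open Pool.Agent.MP_ae5b4e_an_RG

variable {P : ℝ → Fin 3 → ℝ} {U : ℝ → ℝ → ℝ} {r m : ℝ → ℝ} {ε : ℝ}

lemma det3_mulVec (M : Matrix (Fin 3) (Fin 3) ℝ) (a b c : Fin 3 → ℝ) :
    det3 (M *ᵥ a) (M *ᵥ b) (M *ᵥ c) = M.det * det3 a b c := by
  simp only [det3, Matrix.mulVec, dotProduct, Fin.sum_univ_three, Matrix.det_fin_three]
  ring

/-- the derivative of `M *ᵥ P` -/
lemma hasDerivAt_mulVec (M : Matrix (Fin 3) (Fin 3) ℝ) {Q : ℝ → Fin 3 → ℝ} {Q' : Fin 3 → ℝ}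
    {x : ℝ} (h : HasDerivAt Q Q' x) : HasDerivAt (fun x => M *ᵥ Q x) (M *ᵥ Q') x :=
  (M.mulVecLin.toContinuousLinearMap).hasFDerivAt.comp_hasDerivAt x h

lemma contDiff_mulVec (M : Matrix (Fin 3) (Fin 3) ℝ) {Q : ℝ → Fin 3 → ℝ} (h : ContDiff ℝ ∞ Q) :
    ContDiff ℝ ∞ (fun x => M *ᵥ Q x) :=
  (M.mulVecLin.toContinuousLinearMap).contDiff.comp h

section map

variable (M : Matrix (Fin 3) (Fin 3) ℝ) (h : Curve 1 P)
include h

lemma deriv_mv : deriv (fun x => M *ᵥ P x) = fun x => M *ᵥ deriv P x :=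
  funext fun x => (hasDerivAt_mulVec M (h.hd0 x)).deriv

lemma deriv2_mv : deriv (deriv (fun x => M *ᵥ P x)) = fun x => M *ᵥ deriv (deriv P) x := by
  rw [deriv_mv M h]
  exact funext fun x => (hasDerivAt_mulVec M (h.hd1 x)).deriv

lemma deriv3_mv : deriv (deriv (deriv (fun x => M *ᵥ P x))) =
    fun x => M *ᵥ deriv (deriv (deriv P)) x := by
  rw [deriv2_mv M h]
  exact funext fun x => (hasDerivAt_mulVec M (h.hd2 x)).deriv

lemma dd_mv (hM : M.det = 1) (x y : ℝ) : dd (fun x => M *ᵥ P x) x y = dd P x y := by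
  unfold dd
  rw [deriv_mv M h, det3_mulVec, hM, one_mul]

lemma ddx_mv (hM : M.det = 1) (x y : ℝ) : ddx (fun x => M *ᵥ P x) x y = ddx P x y := by
  unfold ddx
  rw [deriv_mv M h, det3_mulVec, hM, one_mul]

lemma Wr_mv (hM : M.det = 1) (x : ℝ) : Wr (fun x => M *ᵥ P x) x = Wr P x := by
  unfold Wr
  rw [deriv2_mv M h, deriv_mv M h, det3_mulVec, hM, one_mul]

lemma L1_mv (hM : M.det = 1) (x y : ℝ) : L1 (fun x => M *ᵥ P x) x y = L1 P x y := by
  unfold L1
  rw [dd_mv M h hM, ddx_mv M h hM]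

lemma curve_mv (hM : M.det = 1) : Curve 1 (fun x => M *ᵥ P x) where
  T_pos := one_pos
  smooth := contDiff_mulVec M h.smooth
  per t := by simp only [h.per]
  pos t s h1 h2 := by
    rw [dd_mv M h hM]
    exact h.pos t s h1 h2
  Wr_pos t := by
    rw [Wr_mv M h hM]
    exact h.Wr_pos t

lemma nx_mv (hM : M.det = 1) (t u : ℝ) : nx (fun x => M *ᵥ P x) 1 t u = nx P 1 t u := by
  obtain ⟨a1, a2, a3⟩ := h.nx_spec t u
  exact (curve_mv M h hM).nx_unique a1 a2 (by rw [L1_mv M h hM, a3])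

end map

lemma LSys.mv (M : Matrix (Fin 3) (Fin 3) ℝ) (hM : M.det = 1) {κ : ℝ → ℝ} (h : LSys 1 P U κ) :
    LSys 1 (fun x => M *ᵥ P x) U κ where
  curve := curve_mv M h.curve hM
  cont := h.cont
  per := h.per
  anti := h.anti
  lim0 := h.lim0
  smooth_κ := h.smooth_κ
  feq c hc t s h1 h2 h3 := by
    rw [L1_mv M h.curve hM] at h3 ⊢
    exact h.feq c hc t s h1 h2 h3

/-- linear maps of determinant one -/
theorem NS.mv (M : Matrix (Fin 3) (Fin 3) ℝ) (hM : M.det = 1) (h : NS ε P U r m) :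
    NS ε (fun x => M *ᵥ P x) U r m where
  sys := LSys.mv M hM h.sys
  wr x := by rw [Wr_mv M h.sys.curve hM, h.wr]
  sr := h.sr
  sm := h.sm
  pr := h.pr
  pm := h.pm
  ode x := by
    rw [deriv3_mv M h.sys.curve, deriv_mv M h.sys.curve]
    simp only
    rw [h.ode x, Matrix.mulVec_sub, Matrix.mulVec_smul, Matrix.mulVec_smul]
  r0 := h.r0
  r1 := h.r1
  r2 := h.r2
  r3 := h.r3
  m0 := h.m0
  m1 := h.m1
  m2 := h.m2
  step := by
    obtain ⟨δ, hδ, c, hc, hs⟩ := h.step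
    refine ⟨δ, hδ, c, hc, fun t => ?_⟩
    unfold nxt
    rw [nx_mv M h.sys.curve hM]
    exact hs t

/-- the circle -/
def Pc (x : ℝ) : Fin 3 → ℝ :=
  ![Real.cos (2 * π * x) / (2 * π), Real.sin (2 * π * x) / (2 * π), 1 / (2 * π)]

def Pc1 (x : ℝ) : Fin 3 → ℝ := ![-Real.sin (2 * π * x), Real.cos (2 * π * x), 0]

def Pc2 (x : ℝ) : Fin 3 → ℝ := ![-(2 * π * Real.cos (2 * π * x)), -(2 * π * Real.sin (2 * π * x)), 0]

lemma hd_lin (x : ℝ) : HasDerivAt (fun x : ℝ => 2 * π * x) (2 * π) x := by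
  simpa using (hasDerivAt_id x).const_mul (2 * π)

lemma hd_Pc (x : ℝ) : HasDerivAt Pc (Pc1 x) x := by
  rw [hasDerivAt_pi]
  intro i
  have hc := ((Real.hasDerivAt_cos _).comp x (hd_lin x)).div_const (2 * π)
  have hs := ((Real.hasDerivAt_sin _).comp x (hd_lin x)).div_const (2 * π)
  have hπ := Real.pi_pos
  fin_cases i
  · refine hc.congr_deriv ?_
    simp [Pc1]
    field_simp
  · refine hs.congr_deriv ?_
    simp [Pc1]
  · exact hasDerivAt_const x _

lemma hd_Pc1 (x : ℝ) : HasDerivAt Pc1 (Pc2 x) x := by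
  rw [hasDerivAt_pi]
  intro i
  have hc := (Real.hasDerivAt_cos _).comp x (hd_lin x)
  have hs := ((Real.hasDerivAt_sin _).comp x (hd_lin x)).neg
  fin_cases i
  · refine hs.congr_deriv ?_
    simp [Pc2]
    ring
  · refine hc.congr_deriv ?_
    simp [Pc2]
    ring
  · exact hasDerivAt_const x _

lemma hd_Pc2 (x : ℝ) : HasDerivAt Pc2 (-(4 * π ^ 2) • Pc1 x) x := by
  rw [hasDerivAt_pi]
  intro i
  have hc := (((Real.hasDerivAt_cos _).comp x (hd_lin x)).const_mul (2 * π)).neg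
  have hs := (((Real.hasDerivAt_sin _).comp x (hd_lin x)).const_mul (2 * π)).neg
  fin_cases i
  · refine hc.congr_deriv ?_
    simp [Pc1]
    ring
  · refine hs.congr_deriv ?_
    simp [Pc1]
    ring
  · refine (hasDerivAt_const x (0:ℝ)).congr_deriv ?_
    simp [Pc1]

lemma det_Pc : det3 (Pc 0) (Pc1 0) (Pc2 0) = 1 := by
  have hπ := Real.pi_pos
  simp [det3, Pc, Pc1, Pc2]
  field_simp

/-- three vectors of determinant one can be mapped to the vectors of the circle -/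
lemma exists_mat {a b c : Fin 3 → ℝ} (h : det3 a b c = 1) :
    ∃ M : Matrix (Fin 3) (Fin 3) ℝ, M.det = 1 ∧ M *ᵥ a = Pc 0 ∧ M *ᵥ b = Pc1 0 ∧
      M *ᵥ c = Pc2 0 := by
  set A : Matrix (Fin 3) (Fin 3) ℝ := Matrix.of fun i j => (![a, b, c] j) i with hA
  set B : Matrix (Fin 3) (Fin 3) ℝ := Matrix.of fun i j => (![Pc 0, Pc1 0, Pc2 0] j) i with hB
  have hcol : ∀ (a b c : Fin 3 → ℝ) (j : Fin 3),
      (Matrix.of fun i j => (![a, b, c] j) i : Matrix (Fin 3) (Fin 3) ℝ) *ᵥ (Pi.single j 1) =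
        ![a, b, c] j := by
    intro a b c j
    rw [Matrix.mulVec_single_one]
    rfl
  have hdet : ∀ a b c : Fin 3 → ℝ,
      (Matrix.of fun i j => (![a, b, c] j) i : Matrix (Fin 3) (Fin 3) ℝ).det = det3 a b c := by
    intro a b c
    rw [Matrix.det_fin_three]
    simp [det3]
    ring
  have hAd : A.det = 1 := by rw [hA, hdet, h]
  have hBd : B.det = 1 := by rw [hB, hdet, det_Pc]
  have hAu : IsUnit A.det := by
    rw [hAd]
    exact isUnit_one
  refine ⟨B * A⁻¹, ?_, ?_, ?_, ?_⟩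
  · rw [Matrix.det_mul, Matrix.det_nonsing_inv, hAd, hBd]
    simp
  · have h1 := hcol a b c 0
    have h2 := hcol (Pc 0) (Pc1 0) (Pc2 0) 0
    have e1 : a = A *ᵥ Pi.single 0 1 := h1.symm
    rw [e1, Matrix.mulVec_mulVec, Matrix.mul_assoc, Matrix.nonsing_inv_mul _ hAu, Matrix.mul_one]
    exact h2
  · have h1 := hcol a b c 1
    have h2 := hcol (Pc 0) (Pc1 0) (Pc2 0) 1
    have e1 : b = A *ᵥ Pi.single 1 1 := h1.symm
    rw [e1, Matrix.mulVec_mulVec, Matrix.mul_assoc, Matrix.nonsing_inv_mul _ hAu, Matrix.mul_one]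
    exact h2
  · have h1 := hcol a b c 2
    have h2 := hcol (Pc 0) (Pc1 0) (Pc2 0) 2
    have e1 : c = A *ᵥ Pi.single 2 1 := h1.symm
    rw [e1, Matrix.mulVec_mulVec, Matrix.mul_assoc, Matrix.nonsing_inv_mul _ hAu, Matrix.mul_one]
    exact h2

lemma norm_Pc (x : ℝ) : ‖Pc x‖ ≤ 1 := by
  have hπ := Real.pi_gt_three
  rw [pi_norm_le_iff_of_nonneg zero_le_one]
  intro i
  fin_cases i
  · show ‖Real.cos (2 * π * x) / (2 * π)‖ ≤ 1
    rw [Real.norm_eq_abs, abs_div, abs_of_pos (by positivity : 0 < 2 * π),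
      div_le_one (by positivity)]
    have := Real.abs_cos_le_one (2 * π * x)
    linarith
  · show ‖Real.sin (2 * π * x) / (2 * π)‖ ≤ 1
    rw [Real.norm_eq_abs, abs_div, abs_of_pos (by positivity : 0 < 2 * π),
      div_le_one (by positivity)]
    have := Real.abs_sin_le_one (2 * π * x)
    linarith
  · show ‖1 / (2 * π)‖ ≤ 1
    rw [Real.norm_eq_abs, abs_div, abs_of_pos (by positivity : 0 < 2 * π),
      div_le_one (by positivity), abs_one]
    linarith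

lemma norm_Pc1 (x : ℝ) : ‖Pc1 x‖ ≤ 1 := by
  rw [pi_norm_le_iff_of_nonneg zero_le_one]
  intro i
  fin_cases i
  · show ‖-Real.sin (2 * π * x)‖ ≤ 1
    rw [norm_neg]
    exact Real.abs_sin_le_one _
  · exact Real.abs_cos_le_one _
  · simp [Pc1]

lemma Pc_per (x : ℝ) : Pc (x + 1) = Pc x ∧ Pc1 (x + 1) = Pc1 x := by
  have h1 : 2 * π * (x + 1) = 2 * π * x + 2 * π := by ring
  constructor
  · unfold Pc
    rw [h1, Real.cos_add_two_pi, Real.sin_add_two_pi]
  · unfold Pc1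
    rw [h1, Real.cos_add_two_pi, Real.sin_add_two_pi]

/-- Gronwall -/
lemma near_circle (h : NS ε P U r m) (hε : ε ≤ 1) (h0 : P 0 = Pc 0) (h1 : deriv P 0 = Pc1 0)
    (h2 : deriv (deriv P) 0 = Pc2 0) (x : ℝ) :
    ‖P x - Pc x‖ ≤ Real.exp 42 * ε ∧ ‖deriv P x - Pc1 x‖ ≤ Real.exp 42 * ε := by
  have hε0 : 0 ≤ ε := (abs_nonneg _).trans (h.m0 0)
  -- reduction to `[0, 1)`
  wlog hx : x ∈ Ico (0:ℝ) 1 generalizing x
  · have hper : Function.Periodic (fun x => (P x - Pc x, deriv P x - Pc1 x)) 1 := by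
      intro x
      simp only [h.sys.curve.per, h.sys.curve.per1, (Pc_per x).1, (Pc_per x).2]
    obtain ⟨y, hy, hy'⟩ := hper.exists_mem_Ico₀ one_pos x
    have k := this y hy
    have e1 : P x - Pc x = P y - Pc y := congrArg Prod.fst hy'
    have e2 : deriv P x - Pc1 x = deriv P y - Pc1 y := congrArg Prod.snd hy'
    rw [e1, e2]
    exact k
  set f : ℝ → (Fin 3 → ℝ) × (Fin 3 → ℝ) × (Fin 3 → ℝ) := fun t =>
    (P t - Pc t, deriv P t - Pc1 t, deriv (deriv P) t - Pc2 t) with hf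
  set f' : ℝ → (Fin 3 → ℝ) × (Fin 3 → ℝ) × (Fin 3 → ℝ) := fun t =>
    (deriv P t - Pc1 t, deriv (deriv P) t - Pc2 t,
      deriv (deriv (deriv P)) t - (-(4 * π ^ 2) • Pc1 t)) with hf'
  have hd : ∀ t, HasDerivAt f (f' t) t := fun t =>
    ((h.sys.curve.hd0 t).sub (hd_Pc t)).prodMk
      (((h.sys.curve.hd1 t).sub (hd_Pc1 t)).prodMk ((h.sys.curve.hd2 t).sub (hd_Pc2 t)))
  have hπ2 : π ^ 2 < 10 := by
    have := Real.pi_lt_d2
    have := Real.pi_pos
    nlinarith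
  have hbound : ∀ t, ‖f' t‖ ≤ 42 * ‖f t‖ + 2 * ε := by
    intro t
    have n1 : ‖P t - Pc t‖ ≤ ‖f t‖ := norm_fst_le (f t)
    have n2 : ‖deriv P t - Pc1 t‖ ≤ ‖f t‖ := (norm_fst_le (f t).2).trans (norm_snd_le (f t))
    have n3 : ‖deriv (deriv P) t - Pc2 t‖ ≤ ‖f t‖ :=
      (norm_snd_le (f t).2).trans (norm_snd_le (f t))
    have hf0 : 0 ≤ ‖f t‖ := norm_nonneg _
    rw [norm_prod_le_iff, norm_prod_le_iff]
    refine ⟨n2.trans (by linarith), n3.trans (by linarith), ?_⟩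
    show ‖deriv (deriv (deriv P)) t - (-(4 * π ^ 2) • Pc1 t)‖ ≤ 42 * ‖f t‖ + 2 * ε
    have e1 : deriv (deriv (deriv P)) t - (-(4 * π ^ 2) • Pc1 t) =
        -(r t) • (deriv P t - Pc1 t) - m t • (P t - Pc t) -
        (r t - 4 * π ^ 2) • Pc1 t - m t • Pc t := by
      rw [h.ode t]
      module
    rw [e1]
    have r1 : |r t| ≤ 41 := by
      have := abs_le.1 (h.r0 t)
      have hp : 0 ≤ π ^ 2 := by positivity
      rw [abs_le]
      constructor <;> linarith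
    have k1 : ‖-(r t) • (deriv P t - Pc1 t)‖ ≤ 41 * ‖f t‖ := by
      rw [norm_smul, norm_neg, Real.norm_eq_abs]
      exact mul_le_mul r1 n2 (norm_nonneg _) (by norm_num)
    have k2 : ‖m t • (P t - Pc t)‖ ≤ 1 * ‖f t‖ := by
      rw [norm_smul, Real.norm_eq_abs]
      exact mul_le_mul ((h.m0 t).trans hε) n1 (norm_nonneg _) zero_le_one
    have k3 : ‖(r t - 4 * π ^ 2) • Pc1 t‖ ≤ ε * 1 := by
      rw [norm_smul, Real.norm_eq_abs]
      exact mul_le_mul (h.r0 t) (norm_Pc1 t) (norm_nonneg _) hε0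
    have k4 : ‖m t • Pc t‖ ≤ ε * 1 := by
      rw [norm_smul, Real.norm_eq_abs]
      exact mul_le_mul (h.m0 t) (norm_Pc t) (norm_nonneg _) hε0
    refine (norm_sub_le _ _).trans ?_
    refine (add_le_add (norm_sub_le _ _) le_rfl).trans ?_
    refine (add_le_add (add_le_add (norm_sub_le _ _) le_rfl) le_rfl).trans ?_
    linarith
  have hf0 : f 0 = 0 := by
    simp only [hf, h0, h1, h2, sub_self]
    rfl
  have hG := norm_le_gronwallBound_of_norm_deriv_right_le (f := f) (f' := f') (δ := 0) (K := 42)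
    (ε := 2 * ε) (a := 0) (b := 1) (fun t _ => (hd t).continuousAt.continuousWithinAt)
    (fun t _ => (hd t).hasDerivWithinAt) (by rw [hf0, norm_zero]) (fun t _ => hbound t) x
    ⟨hx.1, hx.2.le⟩
  rw [gronwallBound_of_K_ne_0 (by norm_num)] at hG
  simp only at hG
  have hexp : Real.exp (42 * (x - 0)) ≤ Real.exp 42 := by
    refine Real.exp_le_exp.2 ?_
    linarith [hx.2]
  have hfin : ‖f x‖ ≤ Real.exp 42 * ε := by
    refine hG.trans ?_
    have h3 : 0 ≤ Real.exp 42 * ε := by positivity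
    have h4 : Real.exp (42 * (x - 0)) * ε ≤ Real.exp 42 * ε := mul_le_mul_of_nonneg_right hexp hε0
    have h5 : 0 * Real.exp (42 * (x - 0)) + 2 * ε / 42 * (Real.exp (42 * (x - 0)) - 1) =
        (Real.exp (42 * (x - 0)) * ε) / 21 - ε / 21 := by ring
    rw [h5]
    linarith
  exact ⟨(norm_fst_le (f x)).trans hfin,
    ((norm_fst_le (f x).2).trans (norm_snd_le (f x))).trans hfin⟩

lemma e_one_eq (x : ℝ) : e 1 x = (Real.cos (2 * π * x) : ℂ) + Real.sin (2 * π * x) * Complex.I := by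
  unfold e
  rw [show (2 * π * Complex.I * ((1:ℤ) : ℂ) * x : ℂ) = ((2 * π * x : ℝ) : ℂ) * Complex.I by
    push_cast
    ring, Complex.exp_mul_I]
  push_cast
  rfl

/-- the jet of a curve which is near the circle -/
lemma jet_near {x δ : ℝ} (h0 : ‖P x - Pc x‖ ≤ δ) (h1 : ‖deriv P x - Pc1 x‖ ≤ δ) :
    ‖(jet P x).w - e 1 x‖ ≤ 14 * δ ∧ |(jet P x).z - 1| ≤ 14 * δ ∧
      ‖(jet P x).w1 - Complex.I * e 1 x‖ ≤ 14 * δ ∧ |(jet P x).z1| ≤ 14 * δ := by
  have hδ : 0 ≤ δ := (norm_nonneg _).trans h0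
  have hπ := Real.pi_pos
  have hπ3 := Real.pi_lt_d2
  have c0 : |P x 0 - Real.cos (2 * π * x) / (2 * π)| ≤ δ := (norm_le_pi_norm (P x - Pc x) 0).trans h0
  have c1 : |P x 1 - Real.sin (2 * π * x) / (2 * π)| ≤ δ := (norm_le_pi_norm (P x - Pc x) 1).trans h0
  have c2 : |P x 2 - 1 / (2 * π)| ≤ δ := (norm_le_pi_norm (P x - Pc x) 2).trans h0
  have d0 : |deriv P x 0 - -Real.sin (2 * π * x)| ≤ δ :=
    (norm_le_pi_norm (deriv P x - Pc1 x) 0).trans h1
  have d1 : |deriv P x 1 - Real.cos (2 * π * x)| ≤ δ :=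
    (norm_le_pi_norm (deriv P x - Pc1 x) 1).trans h1
  have d2 : |deriv P x 2 - 0| ≤ δ := (norm_le_pi_norm (deriv P x - Pc1 x) 2).trans h1
  have hcpl : ∀ a b : ℝ, ‖(a : ℂ) + b * Complex.I‖ ≤ |a| + |b| := by
    intro a b
    refine (norm_add_le _ _).trans ?_
    rw [norm_mul, Complex.norm_I, mul_one, Complex.norm_real, Complex.norm_real]
    rfl
  refine ⟨?_, ?_, ?_, ?_⟩
  · have e1 : (jet P x).w - e 1 x = 2 * π *
        (((P x 0 - Real.cos (2 * π * x) / (2 * π) : ℝ) : ℂ) +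
          ((P x 1 - Real.sin (2 * π * x) / (2 * π) : ℝ) : ℂ) * Complex.I) := by
      rw [e_one_eq]
      have hπc : (π : ℂ) ≠ 0 := by exact_mod_cast hπ.ne'
      simp only [jet]
      push_cast
      field_simp
      ring
    rw [e1, norm_mul]
    have e2 : ‖(2 * π : ℂ)‖ = 2 * π := by
      rw [norm_mul, Complex.norm_real, Real.norm_of_nonneg hπ.le]
      simp
    rw [e2]
    have e3 := hcpl (P x 0 - Real.cos (2 * π * x) / (2 * π))
      (P x 1 - Real.sin (2 * π * x) / (2 * π))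
    have e4 := mul_le_mul_of_nonneg_left (e3.trans (add_le_add c0 c1))
      (by positivity : 0 ≤ 2 * π)
    refine e4.trans ?_
    nlinarith
  · have e1 : (jet P x).z - 1 = 2 * π * (P x 2 - 1 / (2 * π)) := by
      simp only [jet]
      field_simp
    rw [e1, abs_mul, abs_of_pos (by positivity : 0 < 2 * π)]
    have e4 := mul_le_mul_of_nonneg_left c2 (by positivity : 0 ≤ 2 * π)
    refine e4.trans ?_
    nlinarith
  · have e1 : (jet P x).w1 - Complex.I * e 1 x =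
        (((deriv P x 0 - -Real.sin (2 * π * x) : ℝ) : ℂ) +
          ((deriv P x 1 - Real.cos (2 * π * x) : ℝ) : ℂ) * Complex.I) := by
      rw [e_one_eq]
      simp only [jet]
      push_cast
      linear_combination (-(Complex.sin (2 * π * x))) * Complex.I_mul_I
    rw [e1]
    have e3 := hcpl (deriv P x 0 - -Real.sin (2 * π * x)) (deriv P x 1 - Real.cos (2 * π * x))
    linarith
  · rw [sub_zero] at d2
    exact d2.trans (by linarith)

/-- THE FRAME: after a linear map of determinant one the curve is near the circle. -/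
theorem fra (h : NS ε P U r m) (hε : ε ≤ 1) : ∃ M : Matrix (Fin 3) (Fin 3) ℝ, M.det = 1 ∧
    NS ε (fun x => M *ᵥ P x) U r m ∧
    (fun x => M *ᵥ P x) 0 = Pc 0 ∧
    deriv (fun x => M *ᵥ P x) 0 = Pc1 0 ∧ deriv (deriv (fun x => M *ᵥ P x)) 0 = Pc2 0 ∧
    ∀ x, ‖(jet (fun x => M *ᵥ P x) x).w - e 1 x‖ ≤ 14 * Real.exp 42 * ε ∧
      |(jet (fun x => M *ᵥ P x) x).z - 1| ≤ 14 * Real.exp 42 * ε ∧
      ‖(jet (fun x => M *ᵥ P x) x).w1 - Complex.I * e 1 x‖ ≤ 14 * Real.exp 42 * ε ∧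
      |(jet (fun x => M *ᵥ P x) x).z1| ≤ 14 * Real.exp 42 * ε := by
  obtain ⟨M, hM, a0, a1, a2⟩ := exists_mat (h.wr 0)
  have b1 : deriv (fun x => M *ᵥ P x) 0 = Pc1 0 := by
    rw [deriv_mv M h.sys.curve]
    exact a1
  have b2 : deriv (deriv (fun x => M *ᵥ P x)) 0 = Pc2 0 := by
    rw [deriv2_mv M h.sys.curve]
    exact a2
  refine ⟨M, hM, h.mv M hM, a0, b1, b2, fun x => ?_⟩
  obtain ⟨k0, k1⟩ := near_circle (h.mv M hM) hε a0 b1 b2 x
  have := jet_near k0 k1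
  simpa only [mul_assoc] using this

end Pool.Agent.MP_ae5b4e_an_NC
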