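import Mathlib
import Pool.Agent.Lib.MP_ae5b4e_an_NC.Def
import Pool.Agent.Lib.MP_ae5b4e_an_RG.DecS
import Pool.Agent.Lib.MP_ae5b4e_an_RG.Bda
import Pool.Agent.Lib.MP_ae5b4e_an_RG.Wt

/-!
# MP_ae5b4e_an, project NC: exponential decay of the Fourier coefficients of the solutions

If the coefficients of `f''' = - r f' - m f` satisfy `‖r_k‖, ‖m_k‖ ≤ A / V_2(k)` then the periodic
solutions satisfy `‖f_k‖ ≤ C sup |f| / V_3(k)`, `C` depends only on `ρ` and `A`.

PROOF.  If `‖f_k‖ ≤ B / V_3(k)` for all `k` then `(2 π |k|) ^ 3 ‖f_k‖ ≤ (24 π + 12) A B / V_2(k)` by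
`conv_le`, so `‖f_k‖ ≤ B / 2 / V_3(k)` for `|k| ≥ K0`, and `‖f_k‖ ≤ sup |f|` is used for the
others.  Iterate.
-/

noncomputable section

namespace Pool.Agent.MP_ae5b4e_an_NC

open Real Set Filter Topology MeasureTheory intervalIntegral
open scoped ContDiff
open Pool.Agent.MP_ae5b4e_an_RG

lemma rc_norm_le {f : ℝ → ℝ} {K : ℝ} (hK : ∀ x, |f x| ≤ K) (k : ℤ) : ‖rc f k‖ ≤ K := by
  unfold rc fc
  refine (intervalIntegral.norm_integral_le_of_norm_le_const (C := K) ?_).trans ?_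
  · intro x _
    rw [norm_mul, Complex.norm_real, Real.norm_eq_abs]
    have h1 : ‖e (-k) x‖ = 1 := by
      unfold e
      rw [show (2 * π * Complex.I * ((-k : ℤ) : ℂ) * (x:ℂ)) =
        ((2 * π * (-k : ℤ) * x : ℝ) : ℂ) * Complex.I by push_cast; ring]
      exact Complex.norm_exp_ofReal_mul_I _
    rw [h1, mul_one]
    exact hK x
  · simp

/-- coefficients of a product, with the weights `V_2` -/
lemma rc_mul_le {ρ : ℝ} {N : ℕ} (hρ : 0 ≤ ρ) {R S : ℝ → ℝ} (hR : ContDiff ℝ ∞ R)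
    (pR : Function.Periodic R 1) (hS : ContDiff ℝ ∞ S) (pS : Function.Periodic S 1) {A B : ℝ}
    (hA : ∀ k, ‖rc R k‖ ≤ A / V ρ N 2 k) (hB : ∀ k, ‖rc S k‖ ≤ B / V ρ N 2 k) (k : ℤ) :
    ‖rc (fun x => R x * S x) k‖ ≤ 12 * A * B / V ρ N 2 k := by
  have h1 := rc_mul hR pR hS pS k
  have hA0 : 0 ≤ A := by
    have := (norm_nonneg _).trans (hA 0)
    rwa [V_zero, div_one] at this
  have hB0 : 0 ≤ B := by
    have := (norm_nonneg _).trans (hB 0)
    rwa [V_zero, div_one] at this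
  have hs := summable_conv (N := N) hρ k
  have h2 : ∀ l : ℤ, ‖rc R l * rc S (k - l)‖ ≤
      A * B * (1 / V ρ N 2 l * (1 / V ρ N 2 (k - l))) := by
    intro l
    rw [norm_mul]
    have e1 : A * B * (1 / V ρ N 2 l * (1 / V ρ N 2 (k - l))) =
        (A / V ρ N 2 l) * (B / V ρ N 2 (k - l)) := by ring
    rw [e1]
    have := V_pos ρ N 2 l
    exact mul_le_mul (hA l) (hB _) (norm_nonneg _) (by positivity)
  have h3 := tsum_of_norm_bounded (hs.mul_left (A * B)).hasSum h2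
  rw [h1.tsum_eq, tsum_mul_left] at h3
  refine h3.trans ?_
  have h4 := mul_le_mul_of_nonneg_left (conv_le (N := N) hρ k) (mul_nonneg hA0 hB0)
  refine h4.trans (le_of_eq ?_)
  ring

/-- one step of the bootstrap -/
lemma ode_step {ρ : ℝ} {N : ℕ} (hρ : 0 ≤ ρ) {r m f : ℝ → ℝ} (hr : ContDiff ℝ ∞ r)
    (hm : ContDiff ℝ ∞ m) (hf : ContDiff ℝ ∞ f) (pr : Function.Periodic r 1)
    (pm : Function.Periodic m 1) (pf : Function.Periodic f 1) {A B : ℝ}
    (hAr : ∀ k, ‖rc r k‖ ≤ A / V ρ N 2 k) (hAm : ∀ k, ‖rc m k‖ ≤ A / V ρ N 2 k)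
    (hode : ∀ x, deriv (deriv (deriv f)) x = -(r x) * deriv f x - m x * f x)
    (hB : ∀ k, ‖rc f k‖ ≤ B / V ρ N 3 k) (k : ℤ) :
    (2 * π * |(k:ℝ)|) ^ 3 * ‖rc f k‖ ≤ (24 * π + 12) * A * B / V ρ N 2 k := by
  have hf1 : ContDiff ℝ ∞ (deriv f) := (contDiff_infty_iff_deriv.1 hf).2
  have hf2 : ContDiff ℝ ∞ (deriv (deriv f)) := (contDiff_infty_iff_deriv.1 hf1).2
  have pd : ∀ {g : ℝ → ℝ}, Function.Periodic g 1 → Function.Periodic (deriv g) 1 := by
    intro g pg x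
    have h1 : (fun y => g (y + 1)) = g := funext pg
    have h2 := deriv_comp_add_const g 1 x
    rw [h1] at h2
    exact h2.symm
  have e1 := rc_deriv hf pf
  have e3 : rc (deriv (deriv (deriv f))) k = (2 * π * Complex.I * k) ^ 3 * rc f k := by
    rw [rc_deriv hf2 (pd (pd pf)), rc_deriv hf1 (pd pf), e1]
    ring
  have hB0 : 0 ≤ B := by
    have := (norm_nonneg _).trans (hB 0)
    rwa [V_zero, div_one] at this
  have hB1 : ∀ l, ‖rc (deriv f) l‖ ≤ 2 * π * B / V ρ N 2 l := by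
    intro l
    rw [e1, norm_mul]
    have h1 : ‖(2 * π * Complex.I * (l : ℂ) : ℂ)‖ = 2 * π * |(l:ℝ)| := by
      rw [norm_mul, norm_mul, norm_mul, Complex.norm_I, Complex.norm_intCast, Complex.norm_real,
        Real.norm_of_nonneg Real.pi_pos.le]
      simp
    rw [h1]
    have hV := V_pos ρ N 2 l
    have h2 := hB l
    rw [V_succ] at h2
    have h3 : (1 + |(l:ℝ)|) * ‖rc f l‖ ≤ B / V ρ N 2 l := by
      rw [le_div_iff₀ hV]
      rw [le_div_iff₀ (by positivity)] at h2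
      linarith
    have h4 : |(l:ℝ)| * ‖rc f l‖ ≤ B / V ρ N 2 l := by
      have := norm_nonneg (rc f l)
      nlinarith
    calc 2 * π * |(l:ℝ)| * ‖rc f l‖ = 2 * π * (|(l:ℝ)| * ‖rc f l‖) := by ring
      _ ≤ 2 * π * (B / V ρ N 2 l) := mul_le_mul_of_nonneg_left h4 (by positivity)
      _ = 2 * π * B / V ρ N 2 l := by ring
  have hB2 : ∀ l, ‖rc f l‖ ≤ B / V ρ N 2 l := fun l =>
    (hB l).trans (div_le_div_of_nonneg_left hB0 (V_pos _ _ _ _) (V_mono (by norm_num) l))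
  have k1 := rc_mul_le hρ hr pr hf1 (pd pf) hAr hB1 k
  have k2 := rc_mul_le hρ hm pm hf pf hAm hB2 k
  have e4 : rc (deriv (deriv (deriv f))) k =
      -(rc (fun x => r x * deriv f x) k + rc (fun x => m x * f x) k) := by
    have c1 : Continuous fun x : ℝ => ((r x * deriv f x : ℝ) : ℂ) * e (-k) x :=
      (Complex.continuous_ofReal.comp (hr.continuous.mul hf1.continuous)).mul (continuous_e (-k))
    have c2 : Continuous fun x : ℝ => ((m x * f x : ℝ) : ℂ) * e (-k) x :=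
      (Complex.continuous_ofReal.comp (hm.continuous.mul hf.continuous)).mul (continuous_e (-k))
    unfold rc fc
    rw [← intervalIntegral.integral_add (c1.intervalIntegrable _ _) (c2.intervalIntegrable _ _),
      ← intervalIntegral.integral_neg]
    refine intervalIntegral.integral_congr fun x _ => ?_
    simp only [hode x]
    push_cast
    ring
  have e5 : (2 * π * |(k:ℝ)|) ^ 3 * ‖rc f k‖ = ‖rc (deriv (deriv (deriv f))) k‖ := by
    rw [e3, norm_mul, norm_pow]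
    have h1 : ‖(2 * π * Complex.I * (k : ℂ) : ℂ)‖ = 2 * π * |(k:ℝ)| := by
      rw [norm_mul, norm_mul, norm_mul, Complex.norm_I, Complex.norm_intCast, Complex.norm_real,
        Real.norm_of_nonneg Real.pi_pos.le]
      simp
    rw [h1]
  rw [e5, e4, norm_neg]
  refine (norm_add_le _ _).trans ?_
  have : (24 * π + 12) * A * B / V ρ N 2 k =
      12 * A * (2 * π * B) / V ρ N 2 k + 12 * A * B / V ρ N 2 k := by ring
  rw [this]
  exact add_le_add k1 k2

/-- the decay of the coefficients of the solutions -/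
theorem ode_decay {ρ A : ℝ} (hρ : 0 ≤ ρ) (hA : 0 ≤ A) : ∃ C : ℝ, 0 < C ∧
    ∀ (N : ℕ) (r m f : ℝ → ℝ), ContDiff ℝ ∞ r → ContDiff ℝ ∞ m → ContDiff ℝ ∞ f →
      Function.Periodic r 1 → Function.Periodic m 1 → Function.Periodic f 1 →
      (∀ k, ‖rc r k‖ ≤ A / V ρ N 2 k) → (∀ k, ‖rc m k‖ ≤ A / V ρ N 2 k) →
      (∀ x, deriv (deriv (deriv f)) x = -(r x) * deriv f x - m x * f x) →
      ∀ K : ℝ, (∀ x, |f x| ≤ K) → ∀ k, ‖rc f k‖ ≤ C * K / V ρ N 3 k := by
  obtain ⟨Q, hQ⟩ := exists_nat_gt ((24 * π + 12) * A)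
  set Q1 : ℕ := Q + 1 with hQ1
  refine ⟨2 * ((1 + (Q1:ℝ)) ^ 3 * Real.exp (ρ * Q1)), by positivity, ?_⟩
  intro N r m f hr hm hf pr pm pf hAr hAm hode K hK
  set C1 : ℝ := (1 + (Q1:ℝ)) ^ 3 * Real.exp (ρ * Q1) with hC1
  have hK0 : 0 ≤ K := (abs_nonneg _).trans (hK 0)
  have hC1p : 0 < C1 := by positivity
  -- one step
  have step : ∀ B, (∀ k, ‖rc f k‖ ≤ B / V ρ N 3 k) →
      ∀ k, ‖rc f k‖ ≤ (C1 * K + B / 2) / V ρ N 3 k := by
    intro B hB k
    have hB0 : 0 ≤ B := by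
      have := (norm_nonneg _).trans (hB 0)
      rwa [V_zero, div_one] at this
    have hV2 := V_pos ρ N 2 k
    have hV3 := V_pos ρ N 3 k
    rcases lt_or_ge |(k:ℝ)| (Q1:ℝ) with hk | hk
    · have h1 := rc_norm_le hK k
      have h2 : V ρ N 3 k ≤ C1 := by
        rw [hC1]
        unfold V w
        refine mul_le_mul ?_ ?_ (Real.exp_pos _).le (by positivity)
        · exact pow_le_pow_left₀ (by positivity) (by linarith) 3
        · refine Real.exp_le_exp.2 (mul_le_mul_of_nonneg_left ?_ hρ)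
          exact (min_le_left _ _).trans hk.le
      rw [le_div_iff₀ hV3]
      calc ‖rc f k‖ * V ρ N 3 k ≤ K * C1 := mul_le_mul h1 h2 hV3.le hK0
        _ ≤ C1 * K + B / 2 := by linarith
    · have h1 := ode_step hρ hr hm hf pr pm pf hAr hAm hode hB k
      have hk1 : (1:ℝ) ≤ |(k:ℝ)| := by
        refine le_trans ?_ hk
        rw [hQ1]
        push_cast
        linarith [(Nat.cast_nonneg Q : (0:ℝ) ≤ Q)]
      rw [le_div_iff₀ hV2] at h1
      rw [le_div_iff₀ hV3, V_succ]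
      have h3 : (24 * π + 12) * A ≤ |(k:ℝ)| := by
        refine le_trans hQ.le (le_trans ?_ hk)
        rw [hQ1]
        push_cast
        linarith
      set n : ℝ := |(k:ℝ)| with hn
      set a : ℝ := ‖rc f k‖ * V ρ N 2 k with ha
      have ha0 : 0 ≤ a := by positivity
      have h4 : (2 * π * n) ^ 3 * a ≤ n * B := by
        calc (2 * π * n) ^ 3 * a = (2 * π * n) ^ 3 * ‖rc f k‖ * V ρ N 2 k := by rw [ha]; ring
          _ ≤ (24 * π + 12) * A * B := h1
          _ ≤ n * B := mul_le_mul_of_nonneg_right h3 hB0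
      have hπ := Real.pi_gt_three
      have h5 : 4 * n ^ 2 ≤ (2 * π) ^ 3 * n ^ 2 := by
        have : (4:ℝ) ≤ (2 * π) ^ 3 := by nlinarith [sq_nonneg π]
        nlinarith [sq_nonneg n]
      have h6 : 4 * n ^ 3 * a ≤ n * B := by
        refine le_trans ?_ h4
        have : 4 * n ^ 3 ≤ (2 * π * n) ^ 3 := by nlinarith
        exact mul_le_mul_of_nonneg_right this ha0
      have h7 : 4 * n ^ 2 * a ≤ B := by
        have hn0 : 0 < n := by linarith
        have : n * (4 * n ^ 2 * a) ≤ n * B := by nlinarith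
        exact le_of_mul_le_mul_left this hn0
      have h8 : (1 + n) * a ≤ B / 2 := by
        have : (1 + n) ≤ 2 * n ^ 2 := by nlinarith
        nlinarith
      calc ‖rc f k‖ * ((1 + n) * V ρ N 2 k) = (1 + n) * a := by rw [ha]; ring
        _ ≤ B / 2 := h8
        _ ≤ C1 * K + B / 2 := by have := mul_nonneg hC1p.le hK0; linarith
  -- a priori
  obtain ⟨A0, hA0, hdec⟩ := dec_of_contDiff hf pf
  have start : ∀ k, ‖rc f k‖ ≤ (A0 * Real.exp (ρ * N)) / V ρ N 3 k := by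
    intro k
    have h1 := Dec.rc_le (le_refl 0) hdec k
    refine h1.trans ?_
    rw [div_le_div_iff₀ (V_pos _ _ _ _) (V_pos _ _ _ _)]
    unfold V w
    rw [zero_mul, Real.exp_zero, mul_one]
    have h2 : Real.exp (ρ * min |(k:ℝ)| (N:ℝ)) ≤ Real.exp (ρ * N) :=
      Real.exp_le_exp.2 (mul_le_mul_of_nonneg_left (min_le_right _ _) hρ)
    calc A0 * ((1 + |(k:ℝ)|) ^ 3 * Real.exp (ρ * min |(k:ℝ)| (N:ℝ))) ≤
        A0 * ((1 + |(k:ℝ)|) ^ 3 * Real.exp (ρ * N)) := by gcongr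
      _ = A0 * Real.exp (ρ * N) * (1 + |(k:ℝ)|) ^ 3 := by ring
  set B0 : ℝ := A0 * Real.exp (ρ * N) with hB0
  have hB00 : 0 ≤ B0 := by positivity
  have iter : ∀ n : ℕ, ∀ k, ‖rc f k‖ ≤ (2 * (C1 * K) + B0 / 2 ^ n) / V ρ N 3 k := by
    intro n
    induction n with
    | zero =>
      intro k
      refine (start k).trans (div_le_div_of_nonneg_right ?_ (V_pos _ _ _ _).le)
      have := mul_nonneg hC1p.le hK0
      simp only [pow_zero, div_one]
      linarith
    | succ n ih =>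
      intro k
      refine (step _ ih k).trans (div_le_div_of_nonneg_right (le_of_eq ?_) (V_pos _ _ _ _).le)
      rw [pow_succ]
      ring
  intro k
  have hlim : Tendsto (fun n : ℕ => (2 * (C1 * K) + B0 / 2 ^ n) / V ρ N 3 k) atTop
      (𝓝 ((2 * (C1 * K) + 0) / V ρ N 3 k)) := by
    refine Tendsto.div_const (Tendsto.const_add _ ?_) _
    have h1 : Tendsto (fun n : ℕ => B0 * (1 / 2 : ℝ) ^ n) atTop (𝓝 (B0 * 0)) :=
      (tendsto_pow_atTop_nhds_zero_of_lt_one (by norm_num) (by norm_num)).const_mul B0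
    rw [mul_zero] at h1
    refine h1.congr fun n => ?_
    rw [div_pow, one_pow]
    ring
  have h2 := ge_of_tendsto' hlim (fun n => iter n k)
  rw [add_zero] at h2
  refine h2.trans (le_of_eq ?_)
  ring

end Pool.Agent.MP_ae5b4e_an_NC
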