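import Mathlib
import Pool.Agent.Lib.MP_ae5b4e_an_RIG.GGeo
import Pool.Agent.Lib.MP_ae5b4e_an_NC.Def
import Pool.Agent.Lib.MP_ae5b4e_an_NC.GPer

/-!
# MP_ae5b4e_an, project NC: every curve of `p / q`-periodic points is a `Leaf`, uniform constants

The proof of `RIG/GGeo.lean` for a given `PLeaf`.
-/

noncomputable section

namespace Pool.Agent.MP_ae5b4e_an_NC

open Real Set Filter Topology MeasureTheory intervalIntegral
open scoped ContDiff
open Pool.Agent.MP_ae5b4e_an_hopf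
open Pool.Agent.MP_ae5b4e_an_RG
open Pool.Agent.MP_ae5b4e_an_RIG (taylor_unif pleaf_small_unif Bnd)

/-- the data along one curve of periodic points -/
private lemma orb_of_pleaf {P : ℝ → Fin 3 → ℝ} {U : ℝ → ℝ → ℝ} (h : LSys 1 P U (fun _ => 0))
    (hW : ∀ x, Wr P x = 1) {r m R1 R2 : ℝ → ℝ} (hr : Continuous r) (hm : Continuous m)
    (hode : ∀ x, deriv (deriv (deriv P)) x = -(r x) • deriv P x - m x • P x)
    (hR1 : ∀ x, HasDerivAt R1 (m x) x) (hR2 : ∀ x, R2 x = r x - R1 x) {p q : ℕ}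
    (hpq : PQ p q) {L : ℝ → ℝ}
    (hL : PLeaf 1 (nxt P 1 U) p q L) {ε : ℝ} (hε : ε < 1)
    (hs : ∀ x, L (x + (p:ℝ) / q) - L x ≤ ε) (x : ℝ) :
    ∃ ρm ρp : ℝ, Rel R1 R2 (L (x - (p:ℝ) / q)) (L x - L (x - (p:ℝ) / q)) ρm ∧
      Rel R1 R2 (L (x + (p:ℝ) / q)) (-(L (x + (p:ℝ) / q) - L x)) ρp ∧
      (L (x + (p:ℝ) / q) - L x) - (L x - L (x - (p:ℝ) / q)) =
      ((L x - L (x - (p:ℝ) / q)) * ρp - (L (x + (p:ℝ) / q) - L x) * ρm) / 2 := by
  have hω : 0 < (p:ℝ) / q := by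
    have h1 : 0 < p := by rcases hpq.1 with h | h <;> omega
    have h2 : 0 < q := by have := hpq.2.1; omega
    have : (0:ℝ) < p := by exact_mod_cast h1
    have : (0:ℝ) < q := by exact_mod_cast h2
    positivity
  obtain ⟨c, hc, e1, e2⟩ := hL.com x
  rw [mul_one] at e1 e2
  have k1 := h.law hc (L (x - (p:ℝ) / q))
  rw [e1, e2] at k1
  have hm0 : 0 < L x - L (x - (p:ℝ) / q) := by
    have := hL.mono (show x - (p:ℝ) / q < x by linarith)
    linarith
  have hp0 : 0 < L (x + (p:ℝ) / q) - L x := by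
    have := hL.mono (show x < x + (p:ℝ) / q by linarith)
    linarith
  have hm1 : L x - L (x - (p:ℝ) / q) ≤ ε := by
    have := hs (x - (p:ℝ) / q)
    rwa [sub_add_cancel] at this
  have hp1 := hs x
  have r1 := rel_L1 h.curve hW hr hm hode hR1 hR2 (a := L (x - (p:ℝ) / q))
    (d := L x - L (x - (p:ℝ) / q)) hm0.ne' (by rw [abs_of_pos hm0]; linarith)
  have r2 := rel_L1 h.curve hW hr hm hode hR1 hR2 (a := L (x + (p:ℝ) / q))
    (d := -(L (x + (p:ℝ) / q) - L x)) (by linarith [hp0] : _ < (0:ℝ)).ne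
    (by rw [abs_neg, abs_of_pos hp0]; linarith)
  rw [add_sub_cancel] at r1
  rw [show L (x + (p:ℝ) / q) + -(L (x + (p:ℝ) / q) - L x) = L x by ring] at r2
  refine ⟨_, _, r1, r2, ?_⟩
  have k2 : L1 P (L x) (L (x + (p:ℝ) / q)) = -L1 P (L x) (L (x - (p:ℝ) / q)) := by
    linarith
  rw [k2]
  ring

/-- Every curve of periodic points with a large denominator is a `Leaf`, with uniform constants;
the mean value of `m` is zero. -/
theorem geo_leaf (K δ : ℝ) (hK : 0 ≤ K) (hδ : 0 < δ) :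
    ∃ (Cs : ℝ) (q0 : ℕ), 0 ≤ Cs ∧ ∀ (P : ℝ → Fin 3 → ℝ) (U : ℝ → ℝ → ℝ) (r m : ℝ → ℝ),
      LSys 1 P U (fun _ => 0) → (∀ x, Wr P x = 1) → ContDiff ℝ ∞ r → ContDiff ℝ ∞ m →
      Function.Periodic r 1 → Function.Periodic m 1 →
      (∀ x, deriv (deriv (deriv P)) x = -(r x) • deriv P x - m x • P x) → Bnd K r m →
      (∃ c ∈ Ioo (0:ℝ) 1, ∀ t, t + δ ≤ nxt P 1 U c t) →
      (∫ x in (0:ℝ)..1, m x = 0) ∧ ∀ R1 R2 : ℝ → ℝ, (∀ x, HasDerivAt R1 (m x) x) →
        (∀ x, R2 x = r x - R1 x) → ∀ p q : ℕ, PQ p q → q0 ≤ q → ∀ L : ℝ → ℝ,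
          PLeaf 1 (nxt P 1 U) p q L → Leaf R1 R2 p q Cs (fun x => L x - x) := by
  obtain ⟨C, d0, hC, hd0, -, htay⟩ := taylor_unif K hK
  obtain ⟨ε0, K', hε0, hK', hap⟩ := apriori (2 * K) C (by positivity) hC.le
  have hε : 0 < min ε0 (min d0 (1 / 2)) := lt_min hε0 (lt_min hd0 (by norm_num))
  obtain ⟨q1, hq1⟩ := pleaf_small_unif K (min ε0 (min d0 (1 / 2))) hK hε
  obtain ⟨q2, hq2⟩ := exists_nat_gt (2 / δ)
  refine ⟨K', max (max q1 q2) 2, hK'.le, ?_⟩
  rintro P U r m h hW hr hm pr pm hode hB ⟨c₀, hc₀, hstep⟩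
  have hr1 : ContDiff ℝ ∞ (deriv r) := (contDiff_infty_iff_deriv.1 hr).2
  set b : ℝ → ℝ := fun x => deriv r x / 10 + m x / 20 with hb
  have hb0 : ∀ x, |b x| ≤ 2 * K := by
    intro x
    have h1 := abs_le.1 (hB.r1 x)
    have h2 := abs_le.1 (hB.m0 x)
    simp only [hb]
    rw [abs_le]
    constructor <;> linarith
  have hr0 : ∀ x, |r x| ≤ 2 * K := fun x => (hB.r0 x).trans (by linarith)
  have hlip : ∀ x y, |r x - r y| ≤ 2 * K * |x - y| := by
    intro x y
    have h1 := Convex.norm_image_sub_le_of_norm_deriv_le (𝕜 := ℝ) (f := r) (s := univ) (x := y)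
      (y := x) (C := K) (fun z _ => (hr.differentiable (by simp)) z)
      (fun z _ => hB.r1 z) convex_univ (mem_univ _) (mem_univ _)
    have h2 : |r x - r y| ≤ K * |x - y| := by simpa [Real.norm_eq_abs] using h1
    exact h2.trans (mul_le_mul_of_nonneg_right (by linarith) (abs_nonneg _))
  -- everything along one curve
  have key : ∀ R1 R2 : ℝ → ℝ, (∀ x, HasDerivAt R1 (m x) x) → (∀ x, R2 x = r x - R1 x) →
      ∀ p q : ℕ, PQ p q → max q1 q2 ≤ q → ∀ L : ℝ → ℝ, PLeaf 1 (nxt P 1 U) p q L →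
      Orb p q L r b C ∧ Apr p q L K' ∧
      ∀ x, ∃ ρm ρp : ℝ, Rel R1 R2 (L (x - (p:ℝ) / q)) (L x - L (x - (p:ℝ) / q)) ρm ∧
      Rel R1 R2 (L (x + (p:ℝ) / q)) (-(L (x + (p:ℝ) / q) - L x)) ρp ∧
      (L (x + (p:ℝ) / q) - L x) - (L x - L (x - (p:ℝ) / q)) =
      ((L x - L (x - (p:ℝ) / q)) * ρp - (L (x + (p:ℝ) / q) - L x) * ρm) / 2 := by
    intro R1 R2 hR1 hR2 p q hpq hq L hL
    have hs : ∀ x, L (x + (p:ℝ) / q) - L x ≤ min ε0 (min d0 (1 / 2)) :=
      hq1 P U r m R1 R2 h hW hr hm hode hB hR1 hR2 p q L hpq ((le_max_left _ _).trans hq) hL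
    have hω : 0 < (p:ℝ) / q := by
      have h1 : 0 < p := by rcases hpq.1 with h | h <;> omega
      have h2 : 0 < q := by have := hpq.2.1; omega
      have : (0:ℝ) < p := by exact_mod_cast h1
      have : (0:ℝ) < q := by exact_mod_cast h2
      positivity
    have hrel := orb_of_pleaf h hW hr.continuous hm.continuous hode hR1 hR2 hpq hL
      (ε := 1 / 2) (by norm_num)
      (fun x => (hs x).trans ((min_le_right _ _).trans (min_le_right _ _)))
    have htay' := htay r m R1 R2 hr hm hB.r0 hB.m0 hB.m1 hB.r2 hR1 hR2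
    have horb : Orb p q L r b C := by
      refine ⟨hL.cont, hL.mono, hL.per, ?_, ?_⟩
      · intro x
        have := hL.orb x
        simpa only [mul_one] using this
      · intro x
        obtain ⟨ρm, ρp, h1, h2, h3⟩ := hrel x
        have hm0 : 0 < L x - L (x - (p:ℝ) / q) := by
          have := hL.mono (show x - (p:ℝ) / q < x by linarith)
          linarith
        have hp0 : 0 < L (x + (p:ℝ) / q) - L x := by
          have := hL.mono (show x < x + (p:ℝ) / q by linarith)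
          linarith
        have hm1 : L x - L (x - (p:ℝ) / q) ≤ min ε0 (min d0 (1 / 2)) := by
          have := hs (x - (p:ℝ) / q)
          rwa [sub_add_cancel] at this
        have t1 := htay' _ _ _ (by
          rw [abs_of_pos hm0]
          exact hm1.trans ((min_le_right _ _).trans (min_le_left _ _))) h1
        have t2 := htay' _ _ _ (by
          rw [abs_neg, abs_of_pos hp0]
          exact (hs x).trans ((min_le_right _ _).trans (min_le_left _ _))) h2
        refine ⟨ρm, ρp, t1, ?_, h3⟩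
        have e1 : ρp + r (L (x + (p:ℝ) / q)) / 6 * (L (x + (p:ℝ) / q) - L x) ^ 2 -
            b (L (x + (p:ℝ) / q)) * (L (x + (p:ℝ) / q) - L x) ^ 3 =
            ρp + r (L (x + (p:ℝ) / q)) / 6 * (-(L (x + (p:ℝ) / q) - L x)) ^ 2 +
            (deriv r (L (x + (p:ℝ) / q)) / 10 + m (L (x + (p:ℝ) / q)) / 20) *
              (-(L (x + (p:ℝ) / q) - L x)) ^ 3 := by
          simp only [hb]
          ring
        rw [e1]
        refine t2.trans (le_of_eq ?_)
        ring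
    exact ⟨horb, hap p q L r b hpq hr0 hlip hb0 horb
      (fun x => (hs x).trans (min_le_left _ _)), hrel⟩
  refine ⟨?_, ?_⟩
  · refine int_m_zero hr hm pr pm (C := C) (K := K') (q0 := max (max q1 q2) 2) hC.le hK'.le ?_
    intro q hq
    have hq2' : 2 / δ < q := lt_of_lt_of_le hq2
      (by exact_mod_cast (le_max_right q1 q2).trans ((le_max_left _ _).trans hq))
    have hqd : ((1:ℕ) : ℝ) * 1 < q * δ := by
      rw [div_lt_iff₀ hδ] at hq2'
      push_cast
      linarith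
    have hq1' : 1 ≤ q := by
      have := (le_max_right (max q1 q2) 2).trans hq
      omega
    obtain ⟨L, hL⟩ := exists_pleaf h.tmap hc₀ hstep (le_refl 1) hq1' hqd
    obtain ⟨h1, h2, -⟩ := key (fun x => ∫ t in (0:ℝ)..x, m t)
      (fun x => r x - ∫ t in (0:ℝ)..x, m t) (contDiff_prim hm).2 (fun x => rfl) 1 q
      ⟨Or.inl rfl, (le_max_right _ _).trans hq, Nat.coprime_one_left q⟩
      ((le_max_left _ _).trans hq) L hL
    exact ⟨L, h1, h2⟩
  intro R1 R2 hR1 hR2 p q hpq hq L hL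
  obtain ⟨h1, h2, h3⟩ := key R1 R2 hR1 hR2 p q hpq ((le_max_left _ _).trans hq) L hL
  refine ⟨h1.cont.sub continuous_id, ?_, h1.orb, h2.near, ?_, ?_⟩
  · intro x
    simp only [h1.per x]
    ring
  · intro x
    have := h2.step x
    have e : L (x + (p:ℝ) / q) - (x + (p:ℝ) / q) - (L x - x) =
        L (x + (p:ℝ) / q) - L x - (p:ℝ) / q := by ring
    simp only [e]
    exact this
  · intro x
    obtain ⟨ρm, ρp, k1, k2, k3⟩ := h3 x
    refine ⟨ρm, ρp, ?_, ?_, ?_⟩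
    · have e1 : x - (p:ℝ) / q + (L (x - (p:ℝ) / q) - (x - (p:ℝ) / q)) = L (x - (p:ℝ) / q) := by
        ring
      have e2 : (p:ℝ) / q + (L x - x) - (L (x - (p:ℝ) / q) - (x - (p:ℝ) / q)) =
          L x - L (x - (p:ℝ) / q) := by ring
      simp only [e1, e2]
      exact k1
    · have e1 : x + (p:ℝ) / q + (L (x + (p:ℝ) / q) - (x + (p:ℝ) / q)) = L (x + (p:ℝ) / q) := by
        ring
      have e2 : -((p:ℝ) / q + (L (x + (p:ℝ) / q) - (x + (p:ℝ) / q)) - (L x - x)) =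
          -(L (x + (p:ℝ) / q) - L x) := by ring
      simp only [e1, e2]
      exact k2
    · have e1 : (p:ℝ) / q + (L x - x) - (L (x - (p:ℝ) / q) - (x - (p:ℝ) / q)) =
          L x - L (x - (p:ℝ) / q) := by ring
      have e2 : (p:ℝ) / q + (L (x + (p:ℝ) / q) - (x + (p:ℝ) / q)) - (L x - x) =
          L (x + (p:ℝ) / q) - L x := by ring
      have e3 : L (x + (p:ℝ) / q) - (x + (p:ℝ) / q) - 2 * (L x - x) +
          (L (x - (p:ℝ) / q) - (x - (p:ℝ) / q)) =
          (L (x + (p:ℝ) / q) - L x) - (L x - L (x - (p:ℝ) / q)) := by ring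
      simp only [e1, e2, e3]
      exact k3

end Pool.Agent.MP_ae5b4e_an_NC
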