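import Mathlib
import Pool.Agent.Lib.MP_ae5b4e_an_NC.Def

/-!
# MP_ae5b4e_an, project NC: the exact identity

PROOF of `od_eq`.  Put `A = 1 + ka τ`.  `w + τ w1 = A w + τ wT`, `z + τ z1 = A z + τ zT`.
(1) `Q2 (w + τ w1, z + τ z1) = al D(τ)`: because `2 (z zT + (q w wT).re) = al1 - 2 ka al = 0`.
(2) `Q1 (w + τ w1, z + τ z1) = A² Q1(w,z) + A τ b1 + τ² b2`.
(3) `G (w + τ w1, z + τ z1) = g0 A⁴ + g1 A³ τ + g2 A² τ² + g3 A τ³ + g4 τ⁴` (real part of the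
    binomial expansion of `(A w + τ wT)³ (A z + τ zT)` and `(A w + τ wT)⁴`).
(4) with `al ≠ 0` and `D(τ), D(-τ) ≠ 0`, `D τ * D (-τ) = DD (τ²)`, and everything is a rational
    identity in the real variables `ka, la, al, Q1, b1, b2, g0 .. g4, τ`: eliminate `b1`, `b2`, `g3`,
    `g4` by the definitions of `e0`, `psi2`, `G3`, `G4`, then `field_simp; ring`.
-/

noncomputable section

namespace Pool.Agent.MP_ae5b4e_an_NC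

open Real Set Filter Topology

variable (θ : Par) (J : Jet)

/-- (K) -/
theorem Jet.ka_psi2 : 2 * (J.ka θ * J.psi2 θ) =
    J.G3 θ - J.e1 θ + (J.ka θ ^ 2 - J.la θ) * J.e0 θ := by
  unfold Jet.e1
  ring

theorem Jet.two_al_ka (hal : J.al θ ≠ 0) : J.al1 θ = 2 * J.al θ * J.ka θ := by
  unfold Jet.ka
  field_simp

theorem Jet.la_al (hal : J.al θ ≠ 0) :
    J.la θ * J.al θ = J.zT θ ^ 2 + (θ.q * J.wT θ ^ 2).re := by
  unfold Jet.la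
  field_simp

theorem Jet.w_line (τ : ℝ) :
    J.w + τ * J.w1 = ((1 + J.ka θ * τ : ℝ) : ℂ) * J.w + (τ : ℂ) * J.wT θ := by
  unfold Jet.wT
  push_cast
  ring

theorem Jet.z_line (τ : ℝ) :
    J.z + τ * J.z1 = (1 + J.ka θ * τ) * J.z + τ * J.zT θ := by
  unfold Jet.zT
  ring

theorem Jet.Q2_line (hal : J.al θ ≠ 0) (τ : ℝ) :
    Q2 θ (J.w + τ * J.w1) (J.z + τ * J.z1) = J.al θ * J.D θ τ := by
  have h1 := J.two_al_ka θ hal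
  have h2 := J.la_al θ hal
  have h3 : J.al θ = J.z ^ 2 + (θ.q * J.w ^ 2).re := rfl
  have h4 : J.al1 θ = 2 * (J.z * J.z1) + 2 * (θ.q * (J.w * J.w1)).re := rfl
  have h5 : J.zT θ = J.z1 - J.ka θ * J.z := rfl
  have h6 : J.wT θ = J.w1 - (J.ka θ : ℂ) * J.w := rfl
  rw [h5, h6] at h2
  have e1 : θ.q * (J.w + τ * J.w1) ^ 2 = θ.q * J.w ^ 2 + ((2 * τ : ℝ) : ℂ) *
      (θ.q * (J.w * J.w1)) + ((τ ^ 2 : ℝ) : ℂ) * (θ.q * J.w1 ^ 2) := by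
    push_cast
    ring
  have e2 : θ.q * (J.w1 - (J.ka θ : ℂ) * J.w) ^ 2 = θ.q * J.w1 ^ 2 +
      ((-(2 * J.ka θ) : ℝ) : ℂ) * (θ.q * (J.w * J.w1)) +
      ((J.ka θ ^ 2 : ℝ) : ℂ) * (θ.q * J.w ^ 2) := by
    push_cast
    ring
  rw [e2] at h2
  unfold Q2 Jet.D
  rw [e1]
  simp only [Complex.add_re, Complex.re_ofReal_mul] at h2 ⊢
  have h7 : (θ.q * J.w ^ 2).re = J.al θ - J.z ^ 2 := by rw [h3]; ring
  have h8 : (θ.q * (J.w * J.w1)).re = J.al θ * J.ka θ - J.z * J.z1 := by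
    have : 2 * (J.z * J.z1) + 2 * (θ.q * (J.w * J.w1)).re = 2 * J.al θ * J.ka θ := by
      rw [← h4, h1]
    linarith
  rw [h7, h8] at h2 ⊢
  linear_combination (-(τ ^ 2)) * h2

theorem Jet.Q1_line (τ : ℝ) :
    Q1 (J.w + τ * J.w1) (J.z + τ * J.z1) = (1 + J.ka θ * τ) ^ 2 * Q1 J.w J.z +
      (1 + J.ka θ * τ) * τ * J.b1 θ + τ ^ 2 * J.b2 θ := by
  rw [J.w_line θ τ, J.z_line θ τ]
  unfold Q1 Jet.b1 Jet.b2
  simp only [Complex.normSq_apply, Complex.add_re, Complex.add_im, Complex.mul_re,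
    Complex.mul_im, Complex.ofReal_re, Complex.ofReal_im, Complex.conj_re, Complex.conj_im]
  ring

theorem Jet.G_line (τ : ℝ) :
    G θ (J.w + τ * J.w1) (J.z + τ * J.z1) = J.g0 θ * (1 + J.ka θ * τ) ^ 4 +
      J.g1 θ * (1 + J.ka θ * τ) ^ 3 * τ + J.g2 θ * (1 + J.ka θ * τ) ^ 2 * τ ^ 2 +
      J.g3 θ * (1 + J.ka θ * τ) * τ ^ 3 + J.g4 θ * τ ^ 4 := by
  rw [J.w_line θ τ, J.z_line θ τ]
  set A : ℝ := 1 + J.ka θ * τ with hA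
  clear_value A
  unfold G Jet.g0 Jet.g1 Jet.g2 Jet.g3 Jet.g4
  have e1 : θ.c3 * (((A : ℂ) * J.w + (τ : ℂ) * J.wT θ) ^ 3 * ((A * J.z + τ * J.zT θ : ℝ) : ℂ)) +
      θ.c4 * ((A : ℂ) * J.w + (τ : ℂ) * J.wT θ) ^ 4 =
      ((A ^ 4 : ℝ) : ℂ) * (θ.c3 * (J.w ^ 3 * J.z) + θ.c4 * J.w ^ 4) +
      ((A ^ 3 * τ : ℝ) : ℂ) * (θ.c3 * (3 * (J.w ^ 2 * J.wT θ * J.z) + J.w ^ 3 * J.zT θ) +
        θ.c4 * (4 * (J.w ^ 3 * J.wT θ))) +
      ((A ^ 2 * τ ^ 2 : ℝ) : ℂ) * (θ.c3 * (3 * (J.w * J.wT θ ^ 2 * J.z) +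
        3 * (J.w ^ 2 * J.wT θ * J.zT θ)) + θ.c4 * (6 * (J.w ^ 2 * J.wT θ ^ 2))) +
      ((A * τ ^ 3 : ℝ) : ℂ) * (θ.c3 * (J.wT θ ^ 3 * J.z + 3 * (J.w * J.wT θ ^ 2 * J.zT θ)) +
        θ.c4 * (4 * (J.w * J.wT θ ^ 3))) +
      ((τ ^ 4 : ℝ) : ℂ) * (θ.c3 * (J.wT θ ^ 3 * J.zT θ) + θ.c4 * J.wT θ ^ 4) := by
    push_cast
    ring
  rw [e1, Complex.add_re, Complex.add_re, Complex.add_re, Complex.add_re,
    Complex.re_ofReal_mul, Complex.re_ofReal_mul, Complex.re_ofReal_mul,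
    Complex.re_ofReal_mul, Complex.re_ofReal_mul]
  ring

/-- the function `Psi` on the tangent line -/
theorem Jet.Psi_line (hal : J.al θ ≠ 0) {τ : ℝ} (h : J.D θ τ ≠ 0) :
    Psi θ (J.w + τ * J.w1) (J.z + τ * J.z1) = Q1 J.w J.z / J.al θ + J.g0 θ / J.al θ ^ 2 +
      ((1 + J.ka θ * τ) * τ * J.e0 θ + τ ^ 2 * J.psi2 θ) / J.D θ τ +
      ((1 + J.ka θ * τ) * τ ^ 3 * J.G3 θ + τ ^ 4 * J.G4 θ) / J.D θ τ ^ 2 := by
  unfold Psi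
  rw [J.Q2_line θ hal, J.Q1_line θ, J.G_line θ]
  have hD : (1 + J.ka θ * τ) ^ 2 = J.D θ τ - J.la θ * τ ^ 2 := by
    unfold Jet.D
    ring
  unfold Jet.e0 Jet.psi2 Jet.G3 Jet.G4
  generalize J.D θ τ = D at *
  generalize 1 + J.ka θ * τ = A at *
  generalize J.al θ = al at *
  generalize Q1 J.w J.z = Q at *
  generalize J.g0 θ = g0 at *
  generalize J.g1 θ = g1 at *
  generalize J.g2 θ = g2 at *
  generalize J.g3 θ = g3 at *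
  generalize J.g4 θ = g4 at *
  generalize J.b1 θ = b1 at *
  generalize J.b2 θ = b2 at *
  generalize J.la θ = la at *
  have h4 : A ^ 4 = (D - la * τ ^ 2) ^ 2 := by rw [← hD]; ring
  have h3 : A ^ 3 = A * (D - la * τ ^ 2) := by rw [← hD]; ring
  rw [h4, h3, hD]
  field_simp
  ring

theorem Jet.D_mul (τ : ℝ) : J.D θ τ * J.D θ (-τ) = J.DD θ (τ ^ 2) := by
  unfold Jet.D Jet.DD Jet.mu
  ring

/-- (I) -/
theorem Jet.od_eq (hal : J.al θ ≠ 0) {τ : ℝ} (h : J.DD θ (τ ^ 2) ≠ 0) :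
    J.od (Psi θ) τ = 2 * τ * J.Phi θ (τ ^ 2) := by
  have hm := J.D_mul θ τ
  have hp : J.D θ τ ≠ 0 := fun h0 => h (by rw [← hm, h0, zero_mul])
  have hn : J.D θ (-τ) ≠ 0 := fun h0 => h (by rw [← hm, h0, mul_zero])
  have e1 := J.Psi_line θ hal hp
  have e2 := J.Psi_line θ hal hn
  have e3 : J.w - τ * J.w1 = J.w + ((-τ : ℝ) : ℂ) * J.w1 := by
    push_cast
    ring
  have e4 : J.z - τ * J.z1 = J.z + (-τ) * J.z1 := by ring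
  unfold Jet.od
  rw [e3, e4, e1, e2]
  have hG : J.G3 θ = J.e1 θ + J.la θ * J.e0 θ + 2 * (J.ka θ * J.psi2 θ) -
      J.ka θ ^ 2 * J.e0 θ := by
    unfold Jet.e1
    ring
  unfold Jet.Phi Jet.y1 Jet.y2
  rw [← hm, hG]
  have hD1 : J.D θ τ = (1 + J.ka θ * τ) ^ 2 + J.la θ * τ ^ 2 := rfl
  have hD2 : J.D θ (-τ) = (1 - J.ka θ * τ) ^ 2 + J.la θ * τ ^ 2 := by
    unfold Jet.D
    ring
  have hn0 : J.n0 θ (τ ^ 2) = 1 + (4 * J.la θ - 4 * J.ka θ ^ 2) * τ ^ 2 +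
      (5 * J.la θ ^ 2 - 2 * (J.ka θ ^ 2 * J.la θ) + J.ka θ ^ 4) * τ ^ 4 +
      (2 * J.la θ ^ 3 - 2 * (J.ka θ ^ 2 * J.la θ ^ 2) - 2 * (J.ka θ ^ 4 * J.la θ) +
        2 * J.ka θ ^ 6) * τ ^ 6 := by
    unfold Jet.n0
    ring
  have hn1 : J.n1 θ (τ ^ 2) = 1 + (2 * J.la θ + 2 * J.ka θ ^ 2) * τ ^ 2 +
      (J.la θ ^ 2 - 2 * (J.ka θ ^ 2 * J.la θ) - 3 * J.ka θ ^ 4) * τ ^ 4 := by
    unfold Jet.n1
    ring
  have hmu : J.mu θ = J.la θ + J.ka θ ^ 2 := rfl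
  rw [hn0, hn1, hmu]
  clear e1 e2 e3 e4 hm hn0 hn1 hmu hG h
  generalize J.e0 θ = e0 at *
  generalize J.e1 θ = e1 at *
  generalize J.psi2 θ = p2 at *
  generalize J.G4 θ = G4 at *
  generalize J.D θ τ = D1 at *
  generalize J.D θ (-τ) = D2 at *
  generalize J.ka θ = k at *
  generalize J.la θ = l at *
  rw [show (1 + k * -τ) = 1 - k * τ by ring]
  field_simp
  subst hD1 hD2
  ring

end Pool.Agent.MP_ae5b4e_an_NC
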