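import Mathlib
import Pool.Agent.Lib.MP_ae5b4e_an_hopf.Plane

/-!
# MP_ae5b4e_an, project NC (near-circle): the logarithmic derivative `L1` is near the one of a circle

`ct s = 2 π cot (π s)` is `L1` for the circle (`r = 4 π ^ 2`, `m = 0`).
-/

noncomputable section

namespace Pool.Agent.MP_ae5b4e_an_NC

open Real Set Filter Topology
open scoped ContDiff
open Pool.Agent.MP_ae5b4e_an_hopf

/-- the value `2 π cot (π s)` of `L1` for the circle -/
def ct (s : ℝ) : ℝ := 2 * π * (Real.cos (π * s) / Real.sin (π * s))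

lemma ct_neg (s : ℝ) : ct (-s) = -ct s := by
  unfold ct
  rw [mul_neg, Real.cos_neg, Real.sin_neg, div_neg]
  ring

lemma ct_sub_one (s : ℝ) : ct (s - 1) = ct s := by
  unfold ct
  rw [mul_sub, mul_one, Real.cos_sub_pi, Real.sin_sub_pi, neg_div_neg_eq]

lemma ct_add_one (s : ℝ) : ct (s + 1) = ct s := by
  have := ct_sub_one (s + 1)
  rw [add_sub_cancel_right] at this
  exact this.symm

lemma sin_pos_of {s : ℝ} (h0 : 0 < s) (h1 : s < 1) : 0 < Real.sin (π * s) :=
  Real.sin_pos_of_pos_of_lt_pi (by positivity) (by nlinarith [Real.pi_pos])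

lemma hasDerivAt_ct {s : ℝ} (hs : Real.sin (π * s) ≠ 0) :
    HasDerivAt ct (-(2 * π ^ 2 / Real.sin (π * s) ^ 2)) s := by
  have h1 : HasDerivAt (fun s : ℝ => π * s) π s := by
    simpa using (hasDerivAt_id s).const_mul π
  have hc := (Real.hasDerivAt_cos (π * s)).comp s h1
  have hsn := (Real.hasDerivAt_sin (π * s)).comp s h1
  have h2 := (hc.div hsn hs).const_mul (2 * π)
  refine h2.congr_deriv ?_
  simp only [Function.comp]
  have e : Real.cos (π * s) ^ 2 = 1 - Real.sin (π * s) ^ 2 := by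
    have := Real.sin_sq_add_cos_sq (π * s)
    linarith
  field_simp
  rw [e]
  ring

/-- `ct` expands distances on `(0, 1)`. -/
lemma ct_expand {a b : ℝ} (ha0 : 0 < a) (ha1 : a < 1) (hb0 : 0 < b) (hb1 : b < 1) :
    2 * π ^ 2 * |a - b| ≤ |ct a - ct b| := by
  wlog hab : a ≤ b generalizing a b
  · have := this hb0 hb1 ha0 ha1 (le_of_not_ge hab)
    rwa [abs_sub_comm b a, abs_sub_comm (ct b) (ct a)] at this
  rcases hab.eq_or_lt with rfl | hab
  · simp
  have hd : ∀ s ∈ Ioo (0:ℝ) 1, HasDerivAt ct (-(2 * π ^ 2 / Real.sin (π * s) ^ 2)) s :=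
    fun s hs => hasDerivAt_ct (sin_pos_of hs.1 hs.2).ne'
  obtain ⟨ξ, hξ, he⟩ := exists_hasDerivAt_eq_slope ct
    (fun s => -(2 * π ^ 2 / Real.sin (π * s) ^ 2)) hab
    (fun s hs => (hd s ⟨ha0.trans_le hs.1, hs.2.trans_lt hb1⟩).continuousAt.continuousWithinAt)
    (fun s hs => hd s ⟨ha0.trans hs.1, hs.2.trans hb1⟩)
  have hξs := sin_pos_of (ha0.trans hξ.1) (hξ.2.trans hb1)
  have h1 : 2 * π ^ 2 ≤ 2 * π ^ 2 / Real.sin (π * ξ) ^ 2 := by
    rw [le_div_iff₀ (by positivity)]
    have : Real.sin (π * ξ) ^ 2 ≤ 1 := by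
      have := Real.sin_sq_le_one (π * ξ)
      exact this
    have h2 : 0 ≤ 2 * π ^ 2 := by positivity
    nlinarith
  have hba : 0 < b - a := by linarith
  have h2 : ct a - ct b = 2 * π ^ 2 / Real.sin (π * ξ) ^ 2 * (b - a) := by
    rw [eq_div_iff hba.ne'] at he
    linarith
  rw [h2, abs_sub_comm, abs_of_pos hba, abs_of_nonneg (by positivity)]
  exact mul_le_mul_of_nonneg_right h1 hba.le

/-- `ct` is Lipschitz away from `0` and `1`. -/
lemma ct_lip {a b δ : ℝ} (hδ : 0 < δ) (ha0 : δ ≤ a) (ha1 : a ≤ 1 - δ) (hb0 : δ ≤ b)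
    (hb1 : b ≤ 1 - δ) : |ct a - ct b| ≤ π ^ 2 / (2 * δ ^ 2) * |a - b| := by
  have hsin : ∀ s ∈ Icc δ (1 - δ), 2 * δ ≤ Real.sin (π * s) := by
    intro s hs
    rcases le_total s (1 / 2) with h | h
    · have h1 := Real.mul_le_sin (x := π * s) (by nlinarith [Real.pi_pos, hs.1])
        (by nlinarith [Real.pi_pos])
      have h2 : 2 / π * (π * s) = 2 * s := by field_simp
      rw [h2] at h1
      linarith [hs.1]
    · have h1 := Real.mul_le_sin (x := π * (1 - s)) (by nlinarith [Real.pi_pos, hs.2])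
        (by nlinarith [Real.pi_pos])
      have h2 : 2 / π * (π * (1 - s)) = 2 * (1 - s) := by field_simp
      have h3 : Real.sin (π * (1 - s)) = Real.sin (π * s) := by
        rw [mul_sub, mul_one, Real.sin_pi_sub]
      rw [h2, h3] at h1
      linarith [hs.2]
  have h := Convex.norm_image_sub_le_of_norm_hasDerivWithin_le (f := ct)
    (f' := fun s => -(2 * π ^ 2 / Real.sin (π * s) ^ 2)) (s := Icc δ (1 - δ)) (x := b) (y := a)
    (C := π ^ 2 / (2 * δ ^ 2)) (fun s hs => ?_) (fun s hs => ?_) (convex_Icc _ _)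
    ⟨hb0, hb1⟩ ⟨ha0, ha1⟩
  · simpa [Real.norm_eq_abs] using h
  · have := hsin s hs
    exact (hasDerivAt_ct (by linarith : 0 < Real.sin (π * s)).ne').hasDerivWithinAt
  · have h1 := hsin s hs
    rw [Real.norm_eq_abs, abs_neg, abs_of_nonneg (by positivity)]
    have h2 : 0 < Real.sin (π * s) := by linarith
    rw [div_le_div_iff₀ (by positivity) (by positivity)]
    have h3 : (2 * δ) ^ 2 ≤ Real.sin (π * s) ^ 2 := pow_le_pow_left₀ (by positivity) h1 2
    have h4 : 0 ≤ π ^ 2 := by positivity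
    nlinarith

/-- the abstract form: a solution of `g''' + R g' + M g = 0`, `g 0 = g' 0 = 0`, `g'' 0 = 1` -/
lemma ode_close {g0 g1 g2 R M : ℝ → ℝ} {ε : ℝ} (hε1 : ε ≤ 1)
    (h0 : ∀ s, HasDerivAt g0 (g1 s) s) (h1 : ∀ s, HasDerivAt g1 (g2 s) s)
    (h2 : ∀ s, HasDerivAt g2 (-(R s) * g1 s - M s * g0 s) s)
    (hR : ∀ s, |R s - 4 * π ^ 2| ≤ ε) (hM : ∀ s, |M s| ≤ ε)
    (z0 : g0 0 = 0) (z1 : g1 0 = 0) (z2 : g2 0 = 1) {x : ℝ} (hx0 : 0 < x) (hx1 : x ≤ 1 / 2) :
    |g1 x - Real.sin (2 * π * x) / (2 * π)| ≤ ε * x ^ 2 / 4 ∧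
      |g0 x - (1 - Real.cos (2 * π * x)) / (4 * π ^ 2)| ≤ ε * x ^ 3 / 12 ∧
      |g1 x / g0 x - ct x| ≤ 3 * ε := by
  have hε0 : 0 ≤ ε := (abs_nonneg _).trans (hM 0)
  have hπ := Real.pi_pos
  have hπ3 := Real.pi_gt_three
  have hs1 : ∀ u : ℝ, |Real.sin (2 * π * u) / (2 * π)| ≤ |u| := by
    intro u
    rw [abs_div, abs_of_pos (by positivity : 0 < 2 * π), div_le_iff₀ (by positivity)]
    have := Real.abs_sin_le_abs (x := 2 * π * u)
    rw [abs_mul, abs_of_pos (by positivity : 0 < 2 * π)] at this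
    linarith
  -- the variation of constants formula as a bound
  have key : ∀ y : ℝ, 0 ≤ y → y ≤ 1 / 2 → ∀ B : ℝ,
      (∀ t ∈ Icc 0 y, |-(R t - 4 * π ^ 2) * g1 t - M t * g0 t| ≤ B) →
      |g1 y - Real.sin (2 * π * y) / (2 * π)| ≤ B * y ^ 2 / 2 := by
    intro y hy0 hy1 B hB
    have hB0 : 0 ≤ B := (abs_nonneg _).trans (hB 0 ⟨le_refl _, hy0⟩)
    set F : ℝ → ℝ := fun t => g2 t * (Real.sin (2 * π * (y - t)) / (2 * π)) +
      g1 t * Real.cos (2 * π * (y - t)) - Real.sin (2 * π * y) / (2 * π) with hF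
    have hlin : ∀ t, HasDerivAt (fun t : ℝ => 2 * π * (y - t)) (-(2 * π)) t := by
      intro t
      have := ((hasDerivAt_id t).const_sub y).const_mul (2 * π)
      simpa using this
    have hFd : ∀ t, HasDerivAt F ((-(R t - 4 * π ^ 2) * g1 t - M t * g0 t) *
        (Real.sin (2 * π * (y - t)) / (2 * π))) t := by
      intro t
      have d1 := ((Real.hasDerivAt_sin _).comp t (hlin t)).div_const (2 * π)
      have d2 := (Real.hasDerivAt_cos _).comp t (hlin t)
      have d3 := (((h2 t).mul d1).add ((h1 t).mul d2)).sub_const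
        (Real.sin (2 * π * y) / (2 * π))
      refine d3.congr_deriv ?_
      simp only [Function.comp]
      field_simp
      ring
    have hb := image_norm_le_of_norm_deriv_right_le_deriv_boundary (f := F)
      (f' := fun t => (-(R t - 4 * π ^ 2) * g1 t - M t * g0 t) *
        (Real.sin (2 * π * (y - t)) / (2 * π))) (a := 0) (b := y)
      (fun t _ => (hFd t).continuousAt.continuousWithinAt)
      (fun t _ => (hFd t).hasDerivWithinAt)
      (B := fun t => B * (y * t - t ^ 2 / 2)) (B' := fun t => B * (y - t)) ?_ ?_ ?_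
      (x := y) ⟨hy0, le_refl _⟩
    · have e1 : F y = g1 y - Real.sin (2 * π * y) / (2 * π) := by
        simp [hF]
      rw [e1, Real.norm_eq_abs] at hb
      refine hb.trans (le_of_eq ?_)
      ring
    · have e1 : F 0 = 0 := by
        simp [hF, z1, z2]
      rw [e1]
      simp
    · intro t
      have e1 : HasDerivAt (fun t : ℝ => y * t - t ^ 2 / 2) (y - t) t := by
        have a1 := (hasDerivAt_id t).const_mul y
        have a2 := (hasDerivAt_pow 2 t).div_const 2
        refine (a1.sub a2).congr_deriv ?_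
        norm_num
      exact e1.const_mul B
    · intro t ht
      rw [norm_mul, Real.norm_eq_abs, Real.norm_eq_abs]
      have e1 := hB t ⟨ht.1, ht.2.le⟩
      have e2 := hs1 (y - t)
      rw [abs_of_nonneg (by linarith [ht.2] : (0:ℝ) ≤ y - t)] at e2
      exact mul_le_mul e1 e2 (abs_nonneg _) hB0
  -- a priori bound
  have c1 : Continuous g1 := continuous_iff_continuousAt.2 fun t => (h1 t).continuousAt
  obtain ⟨x0, hx0m, hmax⟩ := (isCompact_Icc (a := (0:ℝ)) (b := 1 / 2)).exists_isMaxOn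
    (nonempty_Icc.2 (by norm_num)) (continuous_abs.comp c1).continuousOn
  set M1 : ℝ := |g1 x0| with hM1
  have hM10 : 0 ≤ M1 := abs_nonneg _
  have hg1 : ∀ t ∈ Icc (0:ℝ) (1 / 2), |g1 t| ≤ M1 := fun t ht => hmax ht
  have hg0 : ∀ t ∈ Icc (0:ℝ) (1 / 2), |g0 t| ≤ M1 * t := by
    intro t ht
    have := image_norm_le_of_norm_deriv_right_le_deriv_boundary (f := g0)
      (f' := g1) (a := 0) (b := 1 / 2)
      (fun t _ => (h0 t).continuousAt.continuousWithinAt)
      (fun t _ => (h0 t).hasDerivWithinAt)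
      (B := fun t => M1 * t) (B' := fun _ => M1) (by simp [z0])
      (fun t => by simpa using (hasDerivAt_id t).const_mul M1)
      (fun t ht => hg1 t ⟨ht.1, ht.2.le⟩) (x := t) ht
    exact this
  have hg : ∀ t ∈ Icc (0:ℝ) (1 / 2), |-(R t - 4 * π ^ 2) * g1 t - M t * g0 t| ≤
      ε * (3 / 2 * M1) := by
    intro t ht
    refine (abs_sub _ _).trans ?_
    rw [abs_mul, abs_mul, abs_neg]
    have e1 : |R t - 4 * π ^ 2| * |g1 t| ≤ ε * M1 :=
      mul_le_mul (hR t) (hg1 t ht) (abs_nonneg _) hε0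
    have e2 : |M t| * |g0 t| ≤ ε * (M1 * (1 / 2)) := by
      refine mul_le_mul (hM t) ((hg0 t ht).trans ?_) (abs_nonneg _) hε0
      exact mul_le_mul_of_nonneg_left ht.2 hM10
    linarith
  have hM4 : M1 ≤ 1 / 4 := by
    have k := key x0 hx0m.1 hx0m.2 _ (fun t ht => hg t ⟨ht.1, ht.2.trans hx0m.2⟩)
    have k1 : |Real.sin (2 * π * x0) / (2 * π)| ≤ 1 / 6 := by
      rw [abs_div, abs_of_pos (by positivity : 0 < 2 * π), div_le_iff₀ (by positivity)]
      have := Real.abs_sin_le_one (2 * π * x0)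
      nlinarith
    have k2 : M1 ≤ |g1 x0 - Real.sin (2 * π * x0) / (2 * π)| +
        |Real.sin (2 * π * x0) / (2 * π)| := by
      have := abs_add_le (g1 x0 - Real.sin (2 * π * x0) / (2 * π))
        (Real.sin (2 * π * x0) / (2 * π))
      rw [sub_add_cancel] at this
      exact this
    have k3 : ε * (3 / 2 * M1) * x0 ^ 2 / 2 ≤ 3 / 16 * M1 := by
      have a1 : x0 ^ 2 ≤ 1 / 4 := by nlinarith [hx0m.1, hx0m.2]
      have a2 : ε * (3 / 2 * M1) ≤ 3 / 2 * M1 := by nlinarith
      have a3 : ε * (3 / 2 * M1) * x0 ^ 2 ≤ 3 / 2 * M1 * (1 / 4) :=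
        mul_le_mul a2 a1 (sq_nonneg _) (by positivity)
      linarith
    linarith
  have hg' : ∀ t ∈ Icc (0:ℝ) (1 / 2), |-(R t - 4 * π ^ 2) * g1 t - M t * g0 t| ≤ ε / 2 := by
    intro t ht
    refine (hg t ht).trans ?_
    nlinarith
  have hE : ∀ t ∈ Icc (0:ℝ) (1 / 2), |g1 t - Real.sin (2 * π * t) / (2 * π)| ≤ ε * t ^ 2 / 4 := by
    intro t ht
    have k := key t ht.1 ht.2 _ (fun s hs => hg' s ⟨hs.1, hs.2.trans ht.2⟩)
    refine k.trans (le_of_eq ?_)
    ring
  have hH : ∀ t ∈ Icc (0:ℝ) (1 / 2),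
      |g0 t - (1 - Real.cos (2 * π * t)) / (4 * π ^ 2)| ≤ ε * t ^ 3 / 12 := by
    intro t ht
    have hlin : ∀ t, HasDerivAt (fun t : ℝ => 2 * π * t) (2 * π) t := by
      intro t
      simpa using (hasDerivAt_id t).const_mul (2 * π)
    have hd : ∀ t, HasDerivAt (fun t => g0 t - (1 - Real.cos (2 * π * t)) / (4 * π ^ 2))
        (g1 t - Real.sin (2 * π * t) / (2 * π)) t := by
      intro t
      have d1 := (((Real.hasDerivAt_cos _).comp t (hlin t)).const_sub 1).div_const (4 * π ^ 2)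
      refine ((h0 t).sub d1).congr_deriv ?_
      field_simp
      ring
    have := image_norm_le_of_norm_deriv_right_le_deriv_boundary
      (f := fun t => g0 t - (1 - Real.cos (2 * π * t)) / (4 * π ^ 2))
      (f' := fun t => g1 t - Real.sin (2 * π * t) / (2 * π)) (a := 0) (b := 1 / 2)
      (fun t _ => (hd t).continuousAt.continuousWithinAt)
      (fun t _ => (hd t).hasDerivWithinAt)
      (B := fun t => ε * t ^ 3 / 12) (B' := fun t => ε * t ^ 2 / 4) (by simp [z0])
      (fun t => by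
        refine (((hasDerivAt_pow 3 t).const_mul ε).div_const 12).congr_deriv ?_
        push_cast
        ring)
      (fun t ht => hE t ⟨ht.1, ht.2.le⟩) (x := t) ht
    exact this
  have hxm : x ∈ Icc (0:ℝ) (1 / 2) := ⟨hx0.le, hx1⟩
  refine ⟨hE x hxm, hH x hxm, ?_⟩
  -- the quotient
  have e1 := hE x hxm
  have e2 := hH x hxm
  set S : ℝ := Real.sin (π * x) with hS
  set C : ℝ := Real.cos (π * x) with hC
  have hSC : S ^ 2 + C ^ 2 = 1 := Real.sin_sq_add_cos_sq _
  have hs2 : Real.sin (2 * π * x) = 2 * S * C := by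
    rw [show 2 * π * x = 2 * (π * x) by ring, Real.sin_two_mul]
  have hc2 : Real.cos (2 * π * x) = 1 - 2 * S ^ 2 := by
    rw [show 2 * π * x = 2 * (π * x) by ring, Real.cos_two_mul]
    linarith
  have hSx : 2 * x ≤ S := by
    have h1 := Real.mul_le_sin (x := π * x) (by positivity) (by nlinarith)
    have h2 : 2 / π * (π * x) = 2 * x := by field_simp
    rwa [h2] at h1
  have hS0 : 0 < S := by linarith
  have hC0 : 0 ≤ C := Real.cos_nonneg_of_mem_Icc ⟨by nlinarith, by nlinarith⟩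
  rw [hs2] at e1
  rw [hc2] at e2
  have hG0 : (1 - (1 - 2 * S ^ 2)) / (4 * π ^ 2) = S ^ 2 / (2 * π ^ 2) := by
    field_simp
    ring
  have hG1 : 2 * S * C / (2 * π) = S * C / π := by
    field_simp
  rw [hG0] at e2
  rw [hG1] at e1
  -- `π ^ 2 < 10`
  have hπ2 : π ^ 2 < 10 := by
    have := Real.pi_lt_d2
    nlinarith
  have hGlow : 1 / 5 * x ^ 2 ≤ S ^ 2 / (2 * π ^ 2) := by
    rw [le_div_iff₀ (by positivity)]
    have a1 : (2 * x) ^ 2 ≤ S ^ 2 := pow_le_pow_left₀ (by positivity) hSx 2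
    nlinarith [sq_nonneg x]
  have hg0low : 3 / 20 * x ^ 2 ≤ g0 x := by
    have a1 := (abs_le.1 e2).1
    have a2 : ε * x ^ 3 / 12 ≤ 1 / 24 * x ^ 2 := by
      have b1 : ε * x ^ 3 ≤ x ^ 3 := by
        have : 0 ≤ x ^ 3 := by positivity
        nlinarith
      have b2 : x ^ 3 ≤ 1 / 2 * x ^ 2 := by
        have : x ^ 3 = x * x ^ 2 := by ring
        rw [this]
        exact mul_le_mul_of_nonneg_right hx1 (sq_nonneg _)
      linarith
    nlinarith [sq_nonneg x]
  have hx2 : 0 < x ^ 2 := by positivity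
  have hg0pos : 0 < g0 x := by nlinarith
  -- the identity
  have hct : ct x = 2 * π * (C / S) := rfl
  have hid : g1 x / g0 x - ct x = (g1 x - S * C / π) / g0 x -
      ct x * (g0 x - S ^ 2 / (2 * π ^ 2)) / g0 x := by
    rw [hct]
    field_simp
    ring
  rw [hid]
  have hctb : |ct x| ≤ 2 / x := by
    rw [hct, abs_of_nonneg (by positivity), le_div_iff₀ hx0]
    -- `π x C ≤ S`
    have a1 : π * x * C ≤ S := by
      have hlt : π * x ≤ π / 2 := by nlinarith
      rcases hlt.lt_or_eq with hl | hl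
      · have := Real.le_tan (by positivity : 0 ≤ π * x) hl
        rw [Real.tan_eq_sin_div_cos] at this
        have hCp : 0 < C := Real.cos_pos_of_mem_Ioo ⟨by nlinarith, hl⟩
        rwa [le_div_iff₀ hCp] at this
      · have : C = 0 := by
          rw [hC, hl, Real.cos_pi_div_two]
        rw [this]
        simp [hS0.le]
    have : 2 * π * (C / S) * x = 2 * ((π * x * C) / S) := by ring
    rw [this]
    have : (π * x * C) / S ≤ 1 := (div_le_one hS0).2 a1
    linarith
  refine (abs_sub _ _).trans ?_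
  rw [abs_div, abs_div, abs_mul, abs_of_pos hg0pos]
  have t1 : |g1 x - S * C / π| / g0 x ≤ 5 / 3 * ε := by
    rw [div_le_iff₀ hg0pos]
    have : 5 / 3 * ε * (3 / 20 * x ^ 2) ≤ 5 / 3 * ε * g0 x :=
      mul_le_mul_of_nonneg_left hg0low (by positivity)
    linarith
  have t2 : |ct x| * |g0 x - S ^ 2 / (2 * π ^ 2)| / g0 x ≤ 10 / 9 * ε := by
    rw [div_le_iff₀ hg0pos]
    have b1 : |ct x| * |g0 x - S ^ 2 / (2 * π ^ 2)| ≤ 2 / x * (ε * x ^ 3 / 12) :=
      mul_le_mul hctb e2 (abs_nonneg _) (by positivity)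
    have b2 : 2 / x * (ε * x ^ 3 / 12) = 10 / 9 * ε * (3 / 20 * x ^ 2) := by
      field_simp
      ring
    have b3 : 10 / 9 * ε * (3 / 20 * x ^ 2) ≤ 10 / 9 * ε * g0 x :=
      mul_le_mul_of_nonneg_left hg0low (by positivity)
    linarith
  linarith

section curve

variable {P : ℝ → Fin 3 → ℝ} {r m : ℝ → ℝ} {ε : ℝ}

lemma hasDerivAt_ddxx (h : Curve 1 P)
    (hode : ∀ x, deriv (deriv (deriv P)) x = -(r x) • deriv P x - m x • P x) (x y : ℝ) :
    HasDerivAt (fun x => ddxx P x y) (-(r x) * ddx P x y - m x * dd P x y) x := by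
  refine (hasDerivAt_det3 (h.hd2 x) (hasDerivAt_const x (P y))
    (hasDerivAt_const x (deriv P y))).congr_deriv ?_
  rw [hode x]
  unfold ddx dd det3
  simp
  ring

lemma L1_close_half (h : Curve 1 P) (hW : ∀ x, Wr P x = 1)
    (hode : ∀ x, deriv (deriv (deriv P)) x = -(r x) • deriv P x - m x • P x) (hε : ε ≤ 1)
    (hr : ∀ x, |r x - 4 * π ^ 2| ≤ ε) (hm : ∀ x, |m x| ≤ ε) {x y : ℝ} (hxy : x ≠ y)
    (hxy1 : |x - y| ≤ 1 / 2) : |L1 P x y - ct (x - y)| ≤ 3 * ε := by
  have z0 : dd P y y = 0 := by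
    unfold dd
    exact det3_self_left _ _
  have z1 : ddx P y y = 0 := by
    unfold ddx
    exact det3_self_outer _ _
  have z2 : ddxx P y y = 1 := by
    rw [← hW y]
    unfold ddxx Wr
    exact det3_cycle _ _ _
  rcases lt_or_gt_of_ne hxy with hlt | hlt
  · -- `x < y`
    have hs : 0 < y - x := by linarith
    have hs1 : y - x ≤ 1 / 2 := by
      rw [abs_sub_comm, abs_of_pos hs] at hxy1
      exact hxy1
    have hin : ∀ s : ℝ, HasDerivAt (fun s : ℝ => y - s) (-1) s := fun s => by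
      simpa using (hasDerivAt_id s).const_sub y
    have k := (ode_close (g0 := fun s => dd P (y - s) y) (g1 := fun s => -ddx P (y - s) y)
      (g2 := fun s => ddxx P (y - s) y) (R := fun s => r (y - s)) (M := fun s => -m (y - s))
      (ε := ε) hε
      (fun s => by
        refine ((h.hasDerivAt_dd_left (y - s) y).comp s (hin s)).congr_deriv ?_
        ring)
      (fun s => by
        refine (((h.hasDerivAt_ddx_left (y - s) y).comp s (hin s)).neg).congr_deriv ?_
        ring)
      (fun s => by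
        refine ((hasDerivAt_ddxx h hode (y - s) y).comp s (hin s)).congr_deriv ?_
        ring)
      (fun s => hr _) (fun s => by rw [abs_neg]; exact hm _)
      (by simp [z0]) (by simp [z1]) (by simp [z2]) hs hs1).2.2
    simp only [sub_sub_cancel] at k
    have e1 : -ddx P x y / dd P x y = -L1 P x y := by
      unfold L1
      rw [neg_div]
    have e2 : ct (x - y) = -ct (y - x) := by
      rw [← ct_neg]
      congr 1
      ring
    rw [e2]
    rw [e1] at k
    rw [← abs_neg]
    refine le_trans (le_of_eq ?_) k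
    congr 1
    ring
  · have hs : 0 < x - y := by linarith
    have hs1 : x - y ≤ 1 / 2 := by
      rw [abs_of_pos hs] at hxy1
      exact hxy1
    have hin : ∀ s : ℝ, HasDerivAt (fun s : ℝ => y + s) 1 s := fun s => by
      simpa using (hasDerivAt_id s).const_add y
    have k := (ode_close (g0 := fun s => dd P (y + s) y) (g1 := fun s => ddx P (y + s) y)
      (g2 := fun s => ddxx P (y + s) y) (R := fun s => r (y + s)) (M := fun s => m (y + s))
      (ε := ε) hε
      (fun s => by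
        refine ((h.hasDerivAt_dd_left (y + s) y).comp s (hin s)).congr_deriv ?_
        ring)
      (fun s => by
        refine ((h.hasDerivAt_ddx_left (y + s) y).comp s (hin s)).congr_deriv ?_
        ring)
      (fun s => by
        refine ((hasDerivAt_ddxx h hode (y + s) y).comp s (hin s)).congr_deriv ?_
        ring)
      (fun s => hr _) (fun s => hm _)
      (by simp [z0]) (by simp [z1]) (by simp [z2]) hs hs1).2.2
    simp only [add_sub_cancel] at k
    exact k

/-- `L1` is near its value for the circle. -/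
theorem L1_close (h : Curve 1 P) (hW : ∀ x, Wr P x = 1)
    (hode : ∀ x, deriv (deriv (deriv P)) x = -(r x) • deriv P x - m x • P x) (hε : ε ≤ 1)
    (hr : ∀ x, |r x - 4 * π ^ 2| ≤ ε) (hm : ∀ x, |m x| ≤ ε) {x y : ℝ} (hxy : x ≠ y)
    (hxy1 : |x - y| < 1) : |L1 P x y - ct (x - y)| ≤ 3 * ε := by
  rcases le_or_gt |x - y| (1 / 2) with h1 | h1
  · exact L1_close_half h hW hode hε hr hm hxy h1
  · rw [abs_lt] at hxy1
    rcases lt_or_gt_of_ne hxy with hlt | hlt
    · -- `x < y`: replace `y` by `y - 1`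
      have h2 : 1 / 2 < y - x := by
        rw [abs_sub_comm, abs_of_pos (by linarith)] at h1
        exact h1
      have k := L1_close_half h hW hode hε hr hm (x := x) (y := y - 1)
        (by intro he; linarith [hxy1.1]) (by rw [abs_le]; constructor <;> linarith [hxy1.1])
      have e1 : L1 P x (y - 1) = L1 P x y := by
        have := h.L1_per_right x (y - 1)
        rw [sub_add_cancel] at this
        exact this.symm
      have e2 : ct (x - (y - 1)) = ct (x - y) := by
        rw [show x - (y - 1) = (x - y) + 1 by ring, ct_add_one]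
      rwa [e1, e2] at k
    · have h2 : 1 / 2 < x - y := by
        rw [abs_of_pos (by linarith)] at h1
        exact h1
      have k := L1_close_half h hW hode hε hr hm (x := x) (y := y + 1)
        (by intro he; linarith [hxy1.2]) (by rw [abs_le]; constructor <;> linarith [hxy1.2])
      have e1 : L1 P x (y + 1) = L1 P x y := h.L1_per_right x y
      have e2 : ct (x - (y + 1)) = ct (x - y) := by
        rw [show x - (y + 1) = (x - y) - 1 by ring, ct_sub_one]
      rwa [e1, e2] at k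

end curve

end Pool.Agent.MP_ae5b4e_an_NC
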