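import Mathlib
import Pool.Agent.Lib.MP_ae5b4e_an_RG.LSys
import Pool.Agent.Lib.MP_ae5b4e_an_NC.L1close

/-!
# MP_ae5b4e_an, project NC (near-circle): the curves of periodic points are near those of a circle

For `|r - 4 π ^ 2| ≤ ε`, `|m| ≤ ε` the curve `L` of `p / q`-periodic points satisfies
`|L x - x| ≤ q ^ 2 ε / 12`, `|L (x + p / q) - L x - p / q| ≤ q ε / 6`, and the coordinate
`u x = - L1 P (L x) (L (x + p / q))` of the leaf is near `2 π cot (π p / q)`.
-/

noncomputable section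

namespace Pool.Agent.MP_ae5b4e_an_NC

open Real Set Filter Topology
open scoped ContDiff
open Pool.Agent.MP_ae5b4e_an_hopf Pool.Agent.MP_ae5b4e_an_RG

variable {P : ℝ → Fin 3 → ℝ} {V : ℝ → ℝ → ℝ} {L r m : ℝ → ℝ} {ε : ℝ} {p q : ℕ}

lemma sum_range_le (q : ℕ) : (∑ j ∈ Finset.range q, (j:ℝ)) ≤ (q:ℝ) ^ 2 / 2 := by
  induction q with
  | zero => simp
  | succ n ih =>
    rw [Finset.sum_range_succ]
    push_cast
    nlinarith

/-- the law of the tangency points along a curve of periodic points -/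
theorem leaf_law (h : LSys 1 P V (fun _ => 0)) (hL : PLeaf 1 (nxt P 1 V) p q L) (x : ℝ) :
    L x < L (x + (p:ℝ) / q) ∧ L (x + (p:ℝ) / q) < L x + 1 ∧
    L1 P (L x) (L (x + (p:ℝ) / q)) + L1 P (L x) (L (x - (p:ℝ) / q)) = 0 ∧
    ∃ c ∈ Ioo (0:ℝ) 1, V c (L x) = -L1 P (L x) (L (x + (p:ℝ) / q)) := by
  obtain ⟨c, hc, e1, e2⟩ := hL.com x
  rw [mul_one] at e1 e2
  have k1 := h.law hc (L (x - (p:ℝ) / q))
  rw [e1, e2] at k1
  obtain ⟨a1, a2, a3⟩ := h.nxt_spec c (L x)
  rw [e2] at a1 a2 a3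
  refine ⟨a1, a2, by linarith, c, hc, ?_⟩
  rw [a3, neg_neg]

lemma leaf_per_nat (hL : PLeaf 1 (nxt P 1 V) p q L) (n : ℕ) (x : ℝ) : L (x + n) = L x + n := by
  induction n with
  | zero => simp
  | succ n ih =>
    have e1 : x + ((n + 1 : ℕ) : ℝ) = (x + n) + 1 := by push_cast; ring
    rw [e1, hL.per, ih]
    push_cast
    ring

/-- the rotation number is less than one -/
lemma leaf_lt (h : LSys 1 P V (fun _ => 0)) (hq : 1 ≤ q) (hL : PLeaf 1 (nxt P 1 V) p q L) :
    p < q := by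
  have hq0 : (0:ℝ) < q := by exact_mod_cast hq
  have h1 := (leaf_law h hL 0).2.1
  have h2 : L (0 + 1) = L 0 + 1 := hL.per 0
  have h3 : (p:ℝ) / q < 1 := by
    by_contra hcon
    rw [not_lt] at hcon
    have h5 := hL.mono.monotone (show (0:ℝ) + 1 ≤ 0 + (p:ℝ) / q by linarith)
    rw [h2] at h5
    exact absurd (h5.trans_lt h1) (lt_irrefl _)
  rw [div_lt_one hq0] at h3
  exact_mod_cast h3

/-- the distances of two neighbouring tangency points are almost constant along an orbit -/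
lemma leaf_step (h : LSys 1 P V (fun _ => 0)) (hW : ∀ x, Wr P x = 1)
    (hode : ∀ x, deriv (deriv (deriv P)) x = -(r x) • deriv P x - m x • P x) (hε : ε ≤ 1)
    (hr : ∀ x, |r x - 4 * π ^ 2| ≤ ε) (hm : ∀ x, |m x| ≤ ε)
    (hL : PLeaf 1 (nxt P 1 V) p q L) (x : ℝ) :
    |(L (x + (p:ℝ) / q) - L x) - (L x - L (x - (p:ℝ) / q))| ≤ ε / 3 := by
  have hε0 : 0 ≤ ε := (abs_nonneg _).trans (hm 0)
  obtain ⟨a1, a2, a3, -⟩ := leaf_law h hL x
  obtain ⟨b1, b2, -, -⟩ := leaf_law h hL (x - (p:ℝ) / q)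
  rw [sub_add_cancel] at b1 b2
  have k1 := L1_close h.curve hW hode hε hr hm (x := L x) (y := L (x + (p:ℝ) / q)) a1.ne
    (by rw [abs_lt]; constructor <;> linarith)
  have k2 := L1_close h.curve hW hode hε hr hm (x := L x) (y := L (x - (p:ℝ) / q)) b1.ne'
    (by rw [abs_lt]; constructor <;> linarith)
  have e1 : ct (L x - L (x + (p:ℝ) / q)) = -ct (L (x + (p:ℝ) / q) - L x) := by
    rw [← ct_neg, neg_sub]
  rw [e1] at k1
  have k3 : |ct (L (x + (p:ℝ) / q) - L x) - ct (L x - L (x - (p:ℝ) / q))| ≤ 6 * ε := by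
    have e2 : ct (L (x + (p:ℝ) / q) - L x) - ct (L x - L (x - (p:ℝ) / q)) =
        (L1 P (L x) (L (x + (p:ℝ) / q)) - -ct (L (x + (p:ℝ) / q) - L x)) +
        (L1 P (L x) (L (x - (p:ℝ) / q)) - ct (L x - L (x - (p:ℝ) / q))) := by
      linarith
    rw [e2]
    refine (abs_add_le _ _).trans ?_
    linarith
  have k4 := ct_expand (a := L (x + (p:ℝ) / q) - L x) (b := L x - L (x - (p:ℝ) / q))
    (by linarith) (by linarith) (by linarith) (by linarith)
  have hπ3 := Real.pi_gt_three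
  have k5 : 18 * |(L (x + (p:ℝ) / q) - L x) - (L x - L (x - (p:ℝ) / q))| ≤
      2 * π ^ 2 * |(L (x + (p:ℝ) / q) - L x) - (L x - L (x - (p:ℝ) / q))| := by
    refine mul_le_mul_of_nonneg_right ?_ (abs_nonneg _)
    nlinarith
  linarith

/-- the distances of two neighbouring tangency points -/
theorem leaf_gap (h : LSys 1 P V (fun _ => 0)) (hW : ∀ x, Wr P x = 1)
    (hode : ∀ x, deriv (deriv (deriv P)) x = -(r x) • deriv P x - m x • P x) (hε : ε ≤ 1)
    (hr : ∀ x, |r x - 4 * π ^ 2| ≤ ε) (hm : ∀ x, |m x| ≤ ε) (hq : 1 ≤ q)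
    (hL : PLeaf 1 (nxt P 1 V) p q L) (x : ℝ) :
    |L (x + (p:ℝ) / q) - L x - (p:ℝ) / q| ≤ q * ε / 6 := by
  have hε0 : 0 ≤ ε := (abs_nonneg _).trans (hm 0)
  have hq0 : (0:ℝ) < q := by exact_mod_cast hq
  set om : ℝ := (p:ℝ) / q with hom
  set D : ℝ → ℝ := fun y => L (y + om) - L y with hD
  have hstep : ∀ y, |D (y + om) - D y| ≤ ε / 3 := by
    intro y
    have := leaf_step h hW hode hε hr hm hL (y + om)
    rw [add_sub_cancel_right] at this
    exact this
  have hj : ∀ j : ℕ, |D (x + j * om) - D x| ≤ j * (ε / 3) := by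
    intro j
    induction j with
    | zero => simp
    | succ j ih =>
      have e1 : x + ((j + 1 : ℕ) : ℝ) * om = (x + j * om) + om := by push_cast; ring
      rw [e1]
      have h1 := hstep (x + j * om)
      have h2 : D (x + j * om + om) - D x = (D (x + j * om + om) - D (x + j * om)) +
          (D (x + j * om) - D x) := by ring
      rw [h2]
      refine (abs_add_le _ _).trans ?_
      push_cast
      linarith
  have htel : ∀ n : ℕ, ∑ j ∈ Finset.range n, D (x + j * om) = L (x + n * om) - L x := by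
    intro n
    induction n with
    | zero => simp
    | succ n ih =>
      rw [Finset.sum_range_succ, ih]
      simp only [hD]
      have e1 : x + ((n + 1 : ℕ) : ℝ) * om = (x + n * om) + om := by push_cast; ring
      rw [e1]
      ring
  have hqom : (q:ℝ) * om = p := by
    rw [hom]
    field_simp
  have hsum : ∑ j ∈ Finset.range q, D (x + j * om) = p := by
    rw [htel, hqom, leaf_per_nat hL]
    ring
  have h1 : (q:ℝ) * (D x - om) = -∑ j ∈ Finset.range q, (D (x + j * om) - D x) := by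
    rw [Finset.sum_sub_distrib, hsum]
    simp
    linarith
  have h2 : |(q:ℝ) * (D x - om)| ≤ q * (q * ε / 6) := by
    rw [h1, abs_neg]
    refine (Finset.abs_sum_le_sum_abs _ _).trans ?_
    refine (Finset.sum_le_sum fun j _ => hj j).trans ?_
    rw [← Finset.sum_mul]
    have h3 := sum_range_le q
    have h8 := mul_le_mul_of_nonneg_right h3 (by positivity : (0:ℝ) ≤ ε / 3)
    refine h8.trans (le_of_eq ?_)
    ring
  rw [abs_mul, abs_of_pos hq0] at h2
  exact le_of_mul_le_mul_left h2 hq0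

/-- the adapted parameter is near the normal parameter -/
theorem leaf_near (h : LSys 1 P V (fun _ => 0)) (hW : ∀ x, Wr P x = 1)
    (hode : ∀ x, deriv (deriv (deriv P)) x = -(r x) • deriv P x - m x • P x) (hε : ε ≤ 1)
    (hr : ∀ x, |r x - 4 * π ^ 2| ≤ ε) (hm : ∀ x, |m x| ≤ ε) (hq : 1 ≤ q)
    (hL : PLeaf 1 (nxt P 1 V) p q L) (x : ℝ) :
    |L x - x| ≤ q ^ 2 * ε / 12 := by
  have hε0 : 0 ≤ ε := (abs_nonneg _).trans (hm 0)
  have hq0 : (0:ℝ) < q := by exact_mod_cast hq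
  have horb := hL.orb x
  simp only [mul_one] at horb
  set om : ℝ := (p:ℝ) / q with hom
  have hj : ∀ j : ℕ, |(L (x + j * om) - (x + j * om)) - (L x - x)| ≤ j * (q * ε / 6) := by
    intro j
    induction j with
    | zero => simp
    | succ j ih =>
      have e1 : x + ((j + 1 : ℕ) : ℝ) * om = (x + j * om) + om := by push_cast; ring
      rw [e1]
      have h1 := leaf_gap h hW hode hε hr hm hq hL (x + j * om)
      have h2 : (L (x + j * om + om) - (x + j * om + om)) - (L x - x) =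
          (L (x + j * om + om) - L (x + j * om) - om) +
          ((L (x + j * om) - (x + j * om)) - (L x - x)) := by ring
      rw [h2]
      refine (abs_add_le _ _).trans ?_
      push_cast
      linarith
  have h1 : (q:ℝ) * (L x - x) =
      -∑ j ∈ Finset.range q, ((L (x + j * om) - (x + j * om)) - (L x - x)) := by
    rw [Finset.sum_sub_distrib, horb]
    simp
    ring
  have h2 : |(q:ℝ) * (L x - x)| ≤ q * (q ^ 2 * ε / 12) := by
    rw [h1, abs_neg]
    refine (Finset.abs_sum_le_sum_abs _ _).trans ?_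
    refine (Finset.sum_le_sum fun j _ => hj j).trans ?_
    rw [← Finset.sum_mul]
    have h3 := sum_range_le q
    have h8 := mul_le_mul_of_nonneg_right h3 (by positivity : (0:ℝ) ≤ q * ε / 6)
    refine h8.trans (le_of_eq ?_)
    ring
  rw [abs_mul, abs_of_pos hq0] at h2
  exact le_of_mul_le_mul_left h2 hq0

/-- the coordinate of the leaf is near its value for the circle -/
theorem leaf_u (h : LSys 1 P V (fun _ => 0)) (hW : ∀ x, Wr P x = 1)
    (hode : ∀ x, deriv (deriv (deriv P)) x = -(r x) • deriv P x - m x • P x)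
    (hr : ∀ x, |r x - 4 * π ^ 2| ≤ ε) (hm : ∀ x, |m x| ≤ ε) (hp : 1 ≤ p) (hq : 1 ≤ q)
    (hqε : (q:ℝ) ^ 2 * ε ≤ 1) (hL : PLeaf 1 (nxt P 1 V) p q L) (x : ℝ) :
    |-L1 P (L x) (L (x + (p:ℝ) / q)) - ct ((p:ℝ) / q)| ≤ 7 * q ^ 3 * ε := by
  have hε0 : 0 ≤ ε := (abs_nonneg _).trans (hm 0)
  have hq1 : (1:ℝ) ≤ q := by exact_mod_cast hq
  have hq0 : (0:ℝ) < q := by linarith
  have hp1 : (1:ℝ) ≤ p := by exact_mod_cast hp
  have hε : ε ≤ 1 := by
    have : (1:ℝ) ≤ q ^ 2 := by nlinarith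
    nlinarith
  have hpq : (p:ℝ) + 1 ≤ q := by exact_mod_cast leaf_lt h hq hL
  obtain ⟨a1, a2, a3, -⟩ := leaf_law h hL x
  have k1 := L1_close h.curve hW hode hε hr hm (x := L x) (y := L (x + (p:ℝ) / q)) a1.ne
    (by rw [abs_lt]; constructor <;> linarith)
  have e1 : ct (L x - L (x + (p:ℝ) / q)) = -ct (L (x + (p:ℝ) / q) - L x) := by
    rw [← ct_neg, neg_sub]
  rw [e1] at k1
  have k2 := leaf_gap h hW hode hε hr hm hq hL x
  set om : ℝ := (p:ℝ) / q with hom
  have homq : om * q = p := by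
    rw [hom]
    field_simp
  set δ : ℝ := 1 / (2 * q) with hδ
  have hδ0 : 0 < δ := by positivity
  have hδq : δ * q = 1 / 2 := by
    rw [hδ]
    field_simp
  have hom0 : 2 * δ ≤ om := by
    have : 2 * δ * q ≤ om * q := by
      rw [homq]
      linarith
    exact le_of_mul_le_mul_right this hq0
  have hom1 : om ≤ 1 - 2 * δ := by
    have : om * q ≤ (1 - 2 * δ) * q := by
      rw [homq]
      linarith
    exact le_of_mul_le_mul_right this hq0
  have hqε' : (q:ℝ) * ε / 6 ≤ δ := by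
    have : (q:ℝ) * ε / 6 * q ≤ δ * q := by
      rw [hδq]
      nlinarith
    exact le_of_mul_le_mul_right this hq0
  have k2' := abs_le.1 k2
  have k3 := ct_lip (a := L (x + om) - L x) (b := om) hδ0 (by linarith) (by linarith)
    (by linarith) (by linarith)
  have hδ2 : π ^ 2 / (2 * δ ^ 2) = 2 * π ^ 2 * q ^ 2 := by
    rw [hδ]
    field_simp
  rw [hδ2] at k3
  have hπ2 : π ^ 2 < 10 := by
    have := Real.pi_lt_d2
    have := Real.pi_pos
    nlinarith
  have k4 : 2 * π ^ 2 * q ^ 2 * |L (x + om) - L x - om| ≤ 4 * q ^ 3 * ε := by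
    have b1 : 2 * π ^ 2 * q ^ 2 * |L (x + om) - L x - om| ≤ 2 * π ^ 2 * q ^ 2 * (q * ε / 6) :=
      mul_le_mul_of_nonneg_left k2 (by positivity)
    have b2 : 2 * π ^ 2 * q ^ 2 * (q * ε / 6) = π ^ 2 * (q ^ 3 * ε / 3) := by ring
    have b3 : π ^ 2 * (q ^ 3 * ε / 3) ≤ 10 * (q ^ 3 * ε / 3) :=
      mul_le_mul_of_nonneg_right hπ2.le (by positivity)
    have b4 : 0 ≤ q ^ 3 * ε := by positivity
    linarith
  have e2 : -L1 P (L x) (L (x + om)) - ct om = -(L1 P (L x) (L (x + om)) - -ct (L (x + om) - L x)) +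
      (ct (L (x + om) - L x) - ct om) := by ring
  rw [e2]
  refine (abs_add_le _ _).trans ?_
  rw [abs_neg]
  have b5 : ε ≤ q ^ 3 * ε := by
    have : (1:ℝ) ≤ q ^ 3 := one_le_pow₀ hq1
    nlinarith
  linarith

end Pool.Agent.MP_ae5b4e_an_NC
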