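import Mathlib
import Pool.Agent.Lib.MP_ae5b4e_an_NC.Def
import Pool.Agent.Lib.MP_ae5b4e_an_NC.Alg
import Pool.Agent.Lib.MP_ae5b4e_an_NC.Leaf0
import Pool.Agent.Lib.MP_ae5b4e_an_RG.Bda

/-!
# MP_ae5b4e_an, project NC: telescoping sums over the polygons

`lw_of_pleaf`: the curve `L` of `p/q`-periodic points of a normalized solution `P` has the law `Lw`
with `τ = tauL P L (p/q)`.  `Lw.act`: change of the frame.  `Lw.fc_zero`: the Fourier coefficients
of `τ Phi` whose numbers are divisible by `q` vanish.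
-/

noncomputable section

namespace Pool.Agent.MP_ae5b4e_an_NC

open Real Set Filter Topology MeasureTheory intervalIntegral
open scoped ContDiff
open Pool.Agent.MP_ae5b4e_an_hopf
open Pool.Agent.MP_ae5b4e_an_RG

/-- the tau-value of the leaf `L` with the rotation number `om`: the vertices of the polygon on the
tangent line at `L x` are `2 π P ± tauL P'` -/
def tauL (P : ℝ → Fin 3 → ℝ) (L : ℝ → ℝ) (om x : ℝ) : ℝ := -(2 * π) / L1 P (L x) (L (x + om))

/-- the intersection of two tangent lines -/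
theorem line_inter (A A' B B' : Fin 3 → ℝ) (i : Fin 3) :
    det3 A B B' * A' i - det3 A' B B' * A i = det3 B' A A' * B i - det3 B A A' * B' i := by
  unfold det3
  fin_cases i <;> simp <;> ring

variable {P : ℝ → Fin 3 → ℝ} {U : ℝ → ℝ → ℝ} {p q : ℕ} {L : ℝ → ℝ}

theorem L1_leaf_ne (h : LSys 1 P U (fun _ => 0)) (hpq : q ≠ 2 * p) (hq : 0 < q)
    (hL : PLeaf 1 (nxt P 1 U) p q L) (x : ℝ) : L1 P (L x) (L (x + (p:ℝ) / q)) ≠ 0 := by
  intro h0
  obtain ⟨a1, a2, a3, -⟩ := leaf_law h hL x
  obtain ⟨b1, b2, -, -⟩ := leaf_law h hL (x - (p:ℝ) / q)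
  rw [sub_add_cancel] at b1 b2
  rw [h0, zero_add] at a3
  rw [← h.curve.L1_per_right] at a3
  have h1 := (h.curve.strictMono_L1 (L x)).injOn
    (show L (x - (p:ℝ) / q) + 1 ∈ Ioo (L x) (L x + 1) from ⟨by linarith, by linarith⟩)
    (show L (x + (p:ℝ) / q) ∈ Ioo (L x) (L x + 1) from ⟨a1, a2⟩) (a3.trans h0.symm)
  rw [← hL.per] at h1
  have h2 := hL.mono.injective h1
  have hq0 : (0:ℝ) < q := by exact_mod_cast hq
  have h3 : 2 * ((p:ℝ) / q) = 1 := by linarith
  field_simp at h3
  apply hpq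
  exact_mod_cast h3.symm

/-- the vertex of the polygon between two consecutive tangency points -/
theorem vertex (h : LSys 1 P U (fun _ => 0)) (hpq : q ≠ 2 * p) (hq : 0 < q)
    (hL : PLeaf 1 (nxt P 1 U) p q L) (x : ℝ) : ∃ c : ℝ, c ≠ 0 ∧ ∀ i,
      2 * π * P (L x) i + tauL P L ((p:ℝ) / q) x * deriv P (L x) i =
        c * (2 * π * P (L (x + (p:ℝ) / q)) i -
          tauL P L ((p:ℝ) / q) (x + (p:ℝ) / q) * deriv P (L (x + (p:ℝ) / q)) i) := by
  obtain ⟨a1, a2, -, -⟩ := leaf_law h hL x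
  obtain ⟨-, -, a3, -⟩ := leaf_law h hL (x + (p:ℝ) / q)
  rw [add_sub_cancel_right] at a3
  have hn1 := L1_leaf_ne h hpq hq hL x
  have hn2 := L1_leaf_ne h hpq hq hL (x + (p:ℝ) / q)
  have hd1 : 0 < dd P (L x) (L (x + (p:ℝ) / q)) := h.curve.pos _ _ a1 a2
  have hd2 : 0 < dd P (L (x + (p:ℝ) / q)) (L x) := h.curve.dd_pos a1.ne' (by
    rw [abs_lt]
    constructor <;> linarith)
  have hl : L1 P (L x) (L (x + (p:ℝ) / q)) * dd P (L x) (L (x + (p:ℝ) / q)) =
      ddx P (L x) (L (x + (p:ℝ) / q)) := div_mul_cancel₀ _ hd1.ne'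
  have hl' : L1 P (L (x + (p:ℝ) / q)) (L x) * dd P (L (x + (p:ℝ) / q)) (L x) =
      ddx P (L (x + (p:ℝ) / q)) (L x) := div_mul_cancel₀ _ hd2.ne'
  have hid : ∀ i, dd P (L x) (L (x + (p:ℝ) / q)) * deriv P (L x) i -
      ddx P (L x) (L (x + (p:ℝ) / q)) * P (L x) i =
      ddx P (L (x + (p:ℝ) / q)) (L x) * P (L (x + (p:ℝ) / q)) i -
        dd P (L (x + (p:ℝ) / q)) (L x) * deriv P (L (x + (p:ℝ) / q)) i := fun i =>
    line_inter (P (L x)) (deriv P (L x)) (P (L (x + (p:ℝ) / q))) (deriv P (L (x + (p:ℝ) / q))) i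
  have a4 : L1 P (L (x + (p:ℝ) / q)) (L x) =
      -L1 P (L (x + (p:ℝ) / q)) (L (x + (p:ℝ) / q + (p:ℝ) / q)) := by linarith
  rw [← hl, ← hl', a4] at hid
  unfold tauL
  generalize L1 P (L x) (L (x + (p:ℝ) / q)) = l at *
  generalize L1 P (L (x + (p:ℝ) / q)) (L (x + (p:ℝ) / q + (p:ℝ) / q)) = l' at *
  generalize dd P (L x) (L (x + (p:ℝ) / q)) = d at *
  generalize dd P (L (x + (p:ℝ) / q)) (L x) = d' at *
  refine ⟨d' * l' / (d * l), div_ne_zero (mul_ne_zero hd2.ne' hn2) (mul_ne_zero hd1.ne' hn1),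
    fun i => ?_⟩
  have h1 := hid i
  generalize P (L x) i = u0 at *
  generalize deriv P (L x) i = u1 at *
  generalize P (L (x + (p:ℝ) / q)) i = w0 at *
  generalize deriv P (L (x + (p:ℝ) / q)) i = w1 at *
  field_simp
  linear_combination (-1 : ℝ) * h1

theorem periodic_tauL (h : LSys 1 P U (fun _ => 0)) (hL : PLeaf 1 (nxt P 1 U) p q L) (om : ℝ) :
    Function.Periodic (tauL P L om) 1 := by
  intro x
  unfold tauL
  rw [show x + 1 + om = (x + om) + 1 by ring, hL.per, hL.per, h.curve.L1_per_left,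
    h.curve.L1_per_right]

theorem continuous_tauL (h : LSys 1 P U (fun _ => 0)) (hpq : q ≠ 2 * p) (hq : 0 < q)
    (hL : PLeaf 1 (nxt P 1 U) p q L) : Continuous (tauL P L ((p:ℝ) / q)) := by
  have c0 : Continuous P := h.curve.smooth.continuous
  have c1 : Continuous (deriv P) := h.curve.smooth1.continuous
  have cL := hL.cont
  have cL' : Continuous fun x => L (x + (p:ℝ) / q) := cL.comp (continuous_id.add continuous_const)
  have cd : ∀ {f g k : ℝ → Fin 3 → ℝ}, Continuous f → Continuous g → Continuous k →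
      Continuous fun x => det3 (f x) (g x) (k x) := by
    intro f g k hf hg hk
    unfold det3
    have hf' := fun i => (continuous_apply i).comp hf
    have hg' := fun i => (continuous_apply i).comp hg
    have hk' := fun i => (continuous_apply i).comp hk
    simp only [Function.comp_def] at hf' hg' hk'
    exact (((hf' 0).mul (((hg' 1).mul (hk' 2)).sub ((hg' 2).mul (hk' 1)))).sub
      ((hf' 1).mul (((hg' 0).mul (hk' 2)).sub ((hg' 2).mul (hk' 0))))).add
      ((hf' 2).mul (((hg' 0).mul (hk' 1)).sub ((hg' 1).mul (hk' 0))))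
  refine continuous_const.div ?_ fun x => L1_leaf_ne h hpq hq hL x
  refine Continuous.div ?_ ?_ fun x => ?_
  · exact cd (c1.comp cL) (c0.comp cL') (c1.comp cL')
  · exact cd (c0.comp cL) (c0.comp cL') (c1.comp cL')
  · obtain ⟨a1, a2, -, -⟩ := leaf_law h hL x
    exact (h.curve.pos _ _ a1 a2).ne'

theorem jet_per (h : LSys 1 P U (fun _ => 0)) (x : ℝ) : jet P (x + 1) = jet P x := by
  unfold jet
  rw [h.curve.per, h.curve.per1]

theorem jet_per_nat (h : LSys 1 P U (fun _ => 0)) (n : ℕ) (x : ℝ) : jet P (x + n) = jet P x := by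
  induction n with
  | zero => simp
  | succ n ih =>
    rw [show x + ((n + 1 : ℕ) : ℝ) = (x + n) + 1 by push_cast; ring, jet_per h, ih]

/-- The law of the leaf of rotation number `p/q`, for all functions of degree zero. -/
theorem lw_of_pleaf (h : LSys 1 P U (fun _ => 0)) (hpq : q ≠ 2 * p) (hq : 0 < q)
    (hL : PLeaf 1 (nxt P 1 U) p q L) : Lw (jet P) p q L (tauL P L ((p:ℝ) / q)) where
  contL := hL.cont
  contτ := continuous_tauL h hpq hq hL
  perL := hL.per
  perτ := periodic_tauL h hL _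
  sum := by
    intro Ψ hΨ x
    obtain ⟨F, hF⟩ : ∃ F : ℝ → ℝ, F = fun x => Ψ ((jet P (L x)).w - tauL P L ((p:ℝ) / q) x *
      (jet P (L x)).w1) ((jet P (L x)).z - tauL P L ((p:ℝ) / q) x * (jet P (L x)).z1) := ⟨_, rfl⟩
    have key : ∀ x, Ψ ((jet P (L x)).w + tauL P L ((p:ℝ) / q) x * (jet P (L x)).w1)
        ((jet P (L x)).z + tauL P L ((p:ℝ) / q) x * (jet P (L x)).z1) = F (x + (p:ℝ) / q) := by
      intro x
      obtain ⟨c, hc, hv⟩ := vertex h hpq hq hL x
      rw [hF]
      refine Eq.trans ?_ (hΨ _ _ c hc)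
      congr 1
      · unfold jet
        simp only
        have h0 : ((2 * π * P (L x) 0 + tauL P L ((p:ℝ) / q) x * deriv P (L x) 0 : ℝ) : ℂ) =
          ((c * (2 * π * P (L (x + (p:ℝ) / q)) 0 - tauL P L ((p:ℝ) / q) (x + (p:ℝ) / q) *
            deriv P (L (x + (p:ℝ) / q)) 0) : ℝ) : ℂ) := by rw [hv 0]
        have h1 : ((2 * π * P (L x) 1 + tauL P L ((p:ℝ) / q) x * deriv P (L x) 1 : ℝ) : ℂ) =
          ((c * (2 * π * P (L (x + (p:ℝ) / q)) 1 - tauL P L ((p:ℝ) / q) (x + (p:ℝ) / q) *
            deriv P (L (x + (p:ℝ) / q)) 1) : ℝ) : ℂ) := by rw [hv 1]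
        push_cast at h0 h1
        linear_combination h0 + Complex.I * h1
      · unfold jet
        simp only
        exact hv 2
    have hq0 : (0:ℝ) < q := by exact_mod_cast hq
    have hsum : ∀ j : ℕ, (jet P (L (x + j * ((p:ℝ) / q)))).od Ψ
        (tauL P L ((p:ℝ) / q) (x + j * ((p:ℝ) / q))) =
        F (x + ((j + 1 : ℕ) : ℝ) * ((p:ℝ) / q)) - F (x + (j : ℝ) * ((p:ℝ) / q)) := by
      intro j
      rw [show x + ((j + 1 : ℕ) : ℝ) * ((p:ℝ) / q) = (x + j * ((p:ℝ) / q)) + (p:ℝ) / q by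
        push_cast; ring, ← key, hF]
      rfl
    rw [Finset.sum_congr rfl fun j _ => hsum j]
    rw [Finset.sum_range_sub (fun j : ℕ => F (x + (j : ℝ) * ((p:ℝ) / q)))]
    have h1 : x + (q:ℝ) * ((p:ℝ) / q) = x + p := by
      field_simp
    rw [h1]
    have h2 : F (x + p) = F x := by
      rw [hF]
      have h3 : L (x + p) = L x + p := leaf_per_nat hL p x
      have h4 : tauL P L ((p:ℝ) / q) (x + p) = tauL P L ((p:ℝ) / q) x :=
        by
        have h5 := (periodic_tauL h hL ((p:ℝ) / q)).nat_mul p x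
        rwa [mul_one] at h5
      simp only [h3, h4, jet_per_nat h]
    rw [h2]
    simp

/-! ## change of the frame -/

theorem Frm.od_act (g : Frm) (J : Jet) (Ψ : ℂ → ℝ → ℝ) (τ : ℝ) :
    (g.act J).od Ψ τ = J.od (fun w z => Ψ (w + g.s * (starRingEnd ℂ) w + g.x * z)
      (z + ((starRingEnd ℂ) g.y * w).re)) τ := by
  unfold Jet.od Frm.act
  simp only
  congr 1
  · congr 1
    · simp only [map_add, map_mul, Complex.conj_ofReal]
      push_cast
      ring
    · rw [show (starRingEnd ℂ) g.y * (J.w + τ * J.w1) = (starRingEnd ℂ) g.y * J.w +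
        τ * ((starRingEnd ℂ) g.y * J.w1) by ring, Complex.add_re, Complex.re_ofReal_mul]
      ring
  · congr 1
    · simp only [map_sub, map_mul, Complex.conj_ofReal]
      push_cast
      ring
    · rw [show (starRingEnd ℂ) g.y * (J.w - τ * J.w1) = (starRingEnd ℂ) g.y * J.w -
        τ * ((starRingEnd ℂ) g.y * J.w1) by ring, Complex.sub_re, Complex.re_ofReal_mul]
      ring

theorem Lw.act {J : ℝ → Jet} {p q : ℕ} {L τ : ℝ → ℝ} (h : Lw J p q L τ) (g : Frm) :
    Lw (fun x => g.act (J x)) p q L τ where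
  contL := h.contL
  contτ := h.contτ
  perL := h.perL
  perτ := h.perτ
  sum := by
    intro Ψ hΨ x
    have h1 := h.sum (fun w z => Ψ (w + g.s * (starRingEnd ℂ) w + g.x * z)
      (z + ((starRingEnd ℂ) g.y * w).re)) (by
        intro w z c hc
        rw [← hΨ (w + g.s * (starRingEnd ℂ) w + g.x * z) (z + ((starRingEnd ℂ) g.y * w).re) c hc]
        congr 1
        · simp only [map_mul, Complex.conj_ofReal]
          push_cast
          ring
        · rw [show (starRingEnd ℂ) g.y * (c * w) = c * ((starRingEnd ℂ) g.y * w) by ring,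
            Complex.re_ofReal_mul]
          ring) x
    rw [← h1]
    exact Finset.sum_congr rfl fun j _ => g.od_act _ _ _

/-! ## Fourier coefficients -/

private theorem Tel_shift {f : ℝ → ℂ} (hp : Function.Periodic f 1) (y : ℝ) (k : ℤ) :
    fc (fun x => f (x + y)) k = e k y * fc f k := by
  unfold fc
  have h1 : ∀ x, f (x + y) * e (-k) x = e k y * (f (x + y) * e (-k) (x + y)) := by
    intro x
    have h2 : e (-k) (x + y) = e (-k) x * e (-k) y := e_shift _ _ _
    have h3 : e k y * e (-k) y = 1 := by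
      rw [← e_add, add_neg_cancel, e_zero]
    rw [h2]
    linear_combination (-(f (x + y) * e (-k) x)) * h3
  simp only [h1]
  rw [intervalIntegral.integral_const_mul]
  congr 1
  have h4 : ∫ x in (0:ℝ)..1, f (x + y) * e (-k) (x + y) =
      ∫ x in (0 + y)..(1 + y), f x * e (-k) x :=
    intervalIntegral.integral_comp_add_right (fun x => f x * e (-k) x) y
  rw [h4, zero_add, add_comm (1:ℝ) y]
  have h5 : Function.Periodic (fun x => f x * e (-k) x) 1 := hp.mul (periodic_e (-k))
  have h6 := h5.intervalIntegral_add_eq y 0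
  rw [zero_add] at h6
  exact h6

/-- If the sums over the orbits of the rotation by `p/q` vanish, then the Fourier coefficients whose
numbers are divisible by `q` vanish. -/
theorem fc_zero_of_sum {f : ℝ → ℂ} (hf : Continuous f) (hp : Function.Periodic f 1) {p q : ℕ}
    (hq : 0 < q) (hs : ∀ x, ∑ j ∈ Finset.range q, f (x + j * ((p:ℝ) / q)) = 0) {n : ℤ}
    (hn : (q:ℤ) ∣ n) : fc f n = 0 := by
  obtain ⟨m, rfl⟩ := hn
  have hq0 : (q:ℝ) ≠ 0 := by
    have : (0:ℝ) < q := by exact_mod_cast hq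
    exact this.ne'
  have h1 : ∀ j : ℕ, fc (fun x => f (x + j * ((p:ℝ) / q))) ((q:ℤ) * m) = fc f ((q:ℤ) * m) := by
    intro j
    rw [Tel_shift hp]
    have h2 : e ((q:ℤ) * m) ((j:ℝ) * ((p:ℝ) / q)) = e (m * j * p) 1 := by
      unfold e
      congr 1
      have hq1 : (q:ℂ) ≠ 0 := by exact_mod_cast hq.ne'
      push_cast
      field_simp
    have h3 : e (m * j * p) 1 = 1 := by
      have := e_int (m * j * p) 1
      simpa using this
    rw [h2, h3, one_mul]
  have h2 : ∑ j ∈ Finset.range q, fc (fun x => f (x + j * ((p:ℝ) / q))) ((q:ℤ) * m) = 0 := by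
    unfold fc
    rw [← intervalIntegral.integral_finsetSum]
    · have h3 : ∀ x : ℝ, ∑ j ∈ Finset.range q, f (x + j * ((p:ℝ) / q)) * e (-((q:ℤ) * m)) x = 0 := by
        intro x
        rw [← Finset.sum_mul, hs, zero_mul]
      simp only [h3]
      simp
    · intro j _
      refine Continuous.intervalIntegrable ?_ _ _
      exact (hf.comp (continuous_id.add continuous_const)).mul (continuous_e _)
  rw [Finset.sum_congr rfl fun j _ => h1 j, Finset.sum_const, Finset.card_range, nsmul_eq_mul] at h2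
  rcases mul_eq_zero.1 h2 with h3 | h3
  · exact absurd (by exact_mod_cast h3) hq.ne'
  · exact h3

/-- `Psi` has degree zero -/
theorem Psi_smul (θ : Par) (w : ℂ) (z c : ℝ) (hc : c ≠ 0) : Psi θ (c * w) (c * z) = Psi θ w z := by
  have h1 : Q1 (c * w) (c * z) = c ^ 2 * Q1 w z := by
    unfold Q1
    rw [map_mul, Complex.normSq_ofReal]
    ring
  have h2 : Q2 θ (c * w) (c * z) = c ^ 2 * Q2 θ w z := by
    unfold Q2
    rw [show θ.q * (c * w) ^ 2 = ((c ^ 2 : ℝ) : ℂ) * (θ.q * w ^ 2) by push_cast; ring,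
      Complex.re_ofReal_mul]
    ring
  have h3 : G θ (c * w) (c * z) = c ^ 4 * G θ w z := by
    unfold G
    rw [show θ.c3 * ((c * w) ^ 3 * ((c * z : ℝ) : ℂ)) + θ.c4 * (c * w) ^ 4 =
      ((c ^ 4 : ℝ) : ℂ) * (θ.c3 * (w ^ 3 * z) + θ.c4 * w ^ 4) by push_cast; ring,
      Complex.re_ofReal_mul]
  unfold Psi
  rw [h1, h2, h3]
  have hc2 : c ^ 2 ≠ 0 := pow_ne_zero _ hc
  congr 1
  · exact mul_div_mul_left _ _ hc2
  · rw [mul_pow, show c ^ 4 = (c ^ 2) ^ 2 by ring]
    exact mul_div_mul_left _ _ (pow_ne_zero _ hc2)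

/-- The law (Law) of the text. -/
theorem Lw.fc_zero {J : ℝ → Jet} {θ : Par} {p q : ℕ} {L τ : ℝ → ℝ} (h : Lw J p q L τ)
    (hq : 0 < q) (hJ : ∀ x, J (x + 1) = J x) (cw : Continuous fun x => (J x).w)
    (cz : Continuous fun x => (J x).z) (cw1 : Continuous fun x => (J x).w1)
    (cz1 : Continuous fun x => (J x).z1) (hal : ∀ x, (J x).al θ ≠ 0)
    (hDD : ∀ x, (J (L x)).DD θ (τ x ^ 2) ≠ 0) {n : ℤ} (hn : (q:ℤ) ∣ n) :
    fc (fun x => ((τ x * (J (L x)).Phi θ (τ x ^ 2) : ℝ) : ℂ)) n = 0 := by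
  refine fc_zero_of_sum (p := p) (q := q) (Complex.continuous_ofReal.comp ?_) ?_ hq ?_ hn
  · have k1 : Continuous fun x => (J x).al θ := by
      unfold Jet.al
      fun_prop
    have k2 : Continuous fun x => (J x).al1 θ := by
      unfold Jet.al1
      fun_prop
    have k3 : Continuous fun x => (J x).ka θ := by
      unfold Jet.ka
      exact k2.div (continuous_const.mul k1) fun x => mul_ne_zero two_ne_zero (hal x)
    have k4 : Continuous fun x => (J x).wT θ := by
      unfold Jet.wT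
      exact cw1.sub ((Complex.continuous_ofReal.comp k3).mul cw)
    have k5 : Continuous fun x => (J x).zT θ := by
      unfold Jet.zT
      exact cz1.sub (k3.mul cz)
    have k6 : Continuous fun x => (J x).la θ := by
      unfold Jet.la
      refine Continuous.div ?_ k1 hal
      fun_prop
    have k7 : Continuous fun x => (J x).b1 θ := by
      unfold Jet.b1
      fun_prop
    have k8 : Continuous fun x => (J x).b2 θ := by
      unfold Jet.b2
      exact (Complex.continuous_normSq.comp k4).sub (k5.pow 2)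
    have g0 : Continuous fun x => (J x).g0 θ := by
      unfold Jet.g0
      fun_prop
    have g1 : Continuous fun x => (J x).g1 θ := by
      unfold Jet.g1
      fun_prop
    have g2 : Continuous fun x => (J x).g2 θ := by
      unfold Jet.g2
      fun_prop
    have g3 : Continuous fun x => (J x).g3 θ := by
      unfold Jet.g3
      fun_prop
    have g4 : Continuous fun x => (J x).g4 θ := by
      unfold Jet.g4
      fun_prop
    have hal2 : ∀ x, (J x).al θ ^ 2 ≠ 0 := fun x => pow_ne_zero _ (hal x)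
    have m0 : Continuous fun x => (J x).e0 θ := by
      unfold Jet.e0
      exact (k7.div k1 hal).add (g1.div (k1.pow 2) hal2)
    have q1 : Continuous fun x => Q1 (J x).w (J x).z := by
      unfold Q1
      exact (Complex.continuous_normSq.comp cw).sub (cz.pow 2)
    have m2 : Continuous fun x => (J x).psi2 θ := by
      unfold Jet.psi2
      exact ((k8.sub (k6.mul q1)).div k1 hal).add
        ((g2.sub (continuous_const.mul (k6.mul g0))).div (k1.pow 2) hal2)
    have m3 : Continuous fun x => (J x).G3 θ := by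
      unfold Jet.G3
      exact (g3.sub (k6.mul g1)).div (k1.pow 2) hal2
    have m4 : Continuous fun x => (J x).G4 θ := by
      unfold Jet.G4
      exact ((g4.sub (k6.mul g2)).add ((k6.pow 2).mul g0)).div (k1.pow 2) hal2
    have m1 : Continuous fun x => (J x).e1 θ := by
      unfold Jet.e1
      fun_prop
    have y1 : Continuous fun x => (J x).y1 θ := by
      unfold Jet.y1
      fun_prop
    have y2 : Continuous fun x => (J x).y2 θ := by
      unfold Jet.y2
      fun_prop
    have cL := h.contL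
    have cτ := h.contτ
    have k3' := k3.comp cL
    have k6' := k6.comp cL
    have m0' := m0.comp cL
    have m1' := m1.comp cL
    have y1' := y1.comp cL
    have y2' := y2.comp cL
    simp only [Function.comp_def] at k3' k6' m0' m1' y1' y2'
    refine cτ.mul ?_
    unfold Jet.Phi
    refine Continuous.div ?_ ?_ fun x => pow_ne_zero _ (hDD x)
    · unfold Jet.n0 Jet.n1 Jet.mu
      fun_prop
    · unfold Jet.DD Jet.mu
      fun_prop
  · intro x
    simp only [Function.comp_apply, h.perL, h.perτ x, hJ]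
  · intro x
    have h1 := h.sum (Psi θ) (Psi_smul θ) x
    have h2 : ∀ j : ℕ, (J (L (x + j * ((p:ℝ) / q)))).od (Psi θ) (τ (x + j * ((p:ℝ) / q))) =
        2 * (τ (x + j * ((p:ℝ) / q)) * (J (L (x + j * ((p:ℝ) / q)))).Phi θ
          (τ (x + j * ((p:ℝ) / q)) ^ 2)) := by
      intro j
      rw [Jet.od_eq θ _ (hal _) (hDD _)]
      ring
    rw [Finset.sum_congr rfl fun j _ => h2 j, ← Finset.mul_sum] at h1
    have h3 := (mul_eq_zero.1 h1).resolve_left two_ne_zero
    simp only [Function.comp_apply]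
    rw [← Complex.ofReal_sum, h3, Complex.ofReal_zero]

end Pool.Agent.MP_ae5b4e_an_NC
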