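import Mathlib
import Pool.Agent.Lib.MP_ae5b4e_an_NC.Def
import Pool.Agent.Lib.MP_ae5b4e_an_NC.Alg
import Pool.Agent.Lib.MP_ae5b4e_an_RIG.GDef

/-!
# MP_ae5b4e_an, project NC: curves without defects are conics

If `c3 = c4 = 0` and the defects `e0`, `e1` vanish, then `Q1` and `Q2` are constant along the
curve, so it lies on a cone.
-/

noncomputable section

namespace Pool.Agent.MP_ae5b4e_an_NC

open Real Set Filter Topology MeasureTheory intervalIntegral
open scoped ContDiff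
open Pool.Agent.MP_ae5b4e_an_hopf
open Pool.Agent.MP_ae5b4e_an_RG

/-- without quartic form and defects `Q2` and `Q1` have the derivative zero -/
theorem Jet.flat {θ : Par} {J : Jet} (h3 : θ.c3 = 0) (h4 : θ.c4 = 0) (hal : J.al θ ≠ 0)
    (hpsi : J.psi2 θ ≠ 0) (e0 : J.e0 θ = 0) (e1 : J.e1 θ = 0) :
    J.al1 θ = 0 ∧ ((starRingEnd ℂ) J.w * J.w1).re - J.z * J.z1 = 0 := by
  have hg1 : J.g1 θ = 0 := by unfold Jet.g1; simp [h3, h4]
  have hg3 : J.g3 θ = 0 := by unfold Jet.g3; simp [h3, h4]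
  have hG3 : J.G3 θ = 0 := by unfold Jet.G3; simp [hg1, hg3]
  have hK := J.ka_psi2 θ
  rw [hG3, e0, e1] at hK
  have hka : J.ka θ = 0 := by
    have h1 : J.ka θ * J.psi2 θ = 0 := by linarith
    exact (mul_eq_zero.1 h1).resolve_right hpsi
  have hal1 : J.al1 θ = 0 := by
    unfold Jet.ka at hka
    rcases div_eq_zero_iff.1 hka with h1 | h1
    · exact h1
    · exact absurd h1 (mul_ne_zero two_ne_zero hal)
  refine ⟨hal1, ?_⟩
  have hb1 : J.b1 θ = 0 := by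
    unfold Jet.e0 at e0
    rw [hg1, zero_div, add_zero] at e0
    rcases div_eq_zero_iff.1 e0 with h1 | h1
    · exact h1
    · exact absurd h1 hal
  unfold Jet.b1 Jet.wT Jet.zT at hb1
  rw [hka] at hb1
  simp only [Complex.ofReal_zero, zero_mul, sub_zero] at hb1
  linarith

/-- the values of `Q2` and `Q1` are constant -/
theorem const_of_flat {θ : Par} {J : ℝ → Jet} (h3 : θ.c3 = 0) (h4 : θ.c4 = 0)
    (hal : ∀ x, (J x).al θ ≠ 0) (hpsi : ∀ x, (J x).psi2 θ ≠ 0) (e0 : ∀ x, (J x).e0 θ = 0)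
    (e1 : ∀ x, (J x).e1 θ = 0)
    (dw : ∀ x, HasDerivAt (fun x => (J x).w) (2 * π * (J x).w1) x)
    (dz : ∀ x, HasDerivAt (fun x => (J x).z) (2 * π * (J x).z1) x) :
    ∃ k1 k2 : ℝ, k2 ≠ 0 ∧ (∀ x, Q1 (J x).w (J x).z = k1) ∧ ∀ x, Q2 θ (J x).w (J x).z = k2 := by
  have hre : ∀ {f : ℝ → ℂ} {f' : ℂ} {x : ℝ}, HasDerivAt f f' x →
      HasDerivAt (fun x => (f x).re) f'.re x := fun {f f' x} h =>
    (Complex.reCLM.hasFDerivAt.comp_hasDerivAt x h)
  have d2 : ∀ x, HasDerivAt (fun x => Q2 θ (J x).w (J x).z) 0 x := by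
    intro x
    have k1 := ((dz x).pow 2).add (hre (((dw x).pow 2).const_mul θ.q))
    refine k1.congr_deriv ?_
    have k2 := ((J x).flat h3 h4 (hal x) (hpsi x) (e0 x) (e1 x)).1
    unfold Jet.al1 at k2
    rw [show θ.q * (((2 : ℕ) : ℂ) * (J x).w ^ (2 - 1) * (2 * π * (J x).w1)) =
      ((4 * π : ℝ) : ℂ) * (θ.q * ((J x).w * (J x).w1)) by push_cast; ring, Complex.re_ofReal_mul]
    rw [show (2 - 1 : ℕ) = 1 from rfl, pow_one]
    push_cast
    linear_combination (2 * π) * k2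
  have d1 : ∀ x, HasDerivAt (fun x => Q1 (J x).w (J x).z) 0 x := by
    intro x
    have k1 := (((hre (dw x)).pow 2).add ((Complex.imCLM.hasFDerivAt.comp_hasDerivAt x
      (dw x)).pow 2)).sub ((dz x).pow 2)
    have k3 : (fun x => Q1 (J x).w (J x).z) = ((fun x => (J x).w.re) ^ 2 +
        (⇑Complex.imCLM ∘ fun x => (J x).w) ^ 2 - (fun x => (J x).z) ^ 2) := by
      funext x
      simp only [Q1, Complex.normSq_apply, Pi.sub_apply, Pi.add_apply, Pi.pow_apply,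
        Function.comp_apply, Complex.imCLM_apply]
      ring
    rw [k3]
    refine k1.congr_deriv ?_
    have k2 := ((J x).flat h3 h4 (hal x) (hpsi x) (e0 x) (e1 x)).2
    rw [Complex.mul_re, Complex.conj_re, Complex.conj_im] at k2
    have e1 : (2 * π * (J x).w1 : ℂ).re = 2 * π * (J x).w1.re := by
      rw [show (2 * π * (J x).w1 : ℂ) = ((2 * π : ℝ) : ℂ) * (J x).w1 by push_cast; ring,
        Complex.re_ofReal_mul]
    have e2 : (2 * π * (J x).w1 : ℂ).im = 2 * π * (J x).w1.im := by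
      rw [show (2 * π * (J x).w1 : ℂ) = ((2 * π : ℝ) : ℂ) * (J x).w1 by push_cast; ring,
        Complex.im_ofReal_mul]
    simp only [Complex.imCLM_apply, e1, e2, Function.comp_apply]
    norm_num
    linear_combination (4 * π) * k2
  have c1 := is_const_of_deriv_eq_zero (fun x => (d1 x).differentiableAt) fun x => (d1 x).deriv
  have c2 := is_const_of_deriv_eq_zero (fun x => (d2 x).differentiableAt) fun x => (d2 x).deriv
  exact ⟨_, _, hal 0, fun x => c1 x 0, fun x => c2 x 0⟩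

/-- the change of the frame as a linear map -/
def Frm.lin (g : Frm) : (Fin 3 → ℝ) →ₗ[ℝ] ℂ × ℝ where
  toFun v := (2 * π * ((v 0 : ℂ) + v 1 * Complex.I) +
      g.s * (starRingEnd ℂ) (2 * π * ((v 0 : ℂ) + v 1 * Complex.I)) + g.x * (2 * π * v 2 : ℝ),
    2 * π * v 2 + ((starRingEnd ℂ) g.y * (2 * π * ((v 0 : ℂ) + v 1 * Complex.I))).re)
  map_add' v v' := by
    ext1
    · simp only [Pi.add_apply, Complex.ofReal_add, map_mul, map_add, Prod.mk_add_mk]
      push_cast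
      ring
    · simp only [Pi.add_apply, Complex.ofReal_add, Prod.mk_add_mk]
      rw [show (starRingEnd ℂ) g.y * (2 * π * ((v 0 : ℂ) + v' 0 + (v 1 + v' 1) * Complex.I)) =
        (starRingEnd ℂ) g.y * (2 * π * ((v 0 : ℂ) + v 1 * Complex.I)) +
        (starRingEnd ℂ) g.y * (2 * π * ((v' 0 : ℂ) + v' 1 * Complex.I)) by ring, Complex.add_re]
      ring
  map_smul' c v := by
    ext1
    · simp only [Pi.smul_apply, smul_eq_mul, Complex.ofReal_mul, map_mul, map_add,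
        Complex.conj_ofReal, RingHom.id_apply, Prod.smul_mk, Complex.real_smul]
      push_cast
      ring
    · simp only [Pi.smul_apply, smul_eq_mul, Complex.ofReal_mul, RingHom.id_apply, Prod.smul_mk]
      rw [show (starRingEnd ℂ) g.y * (2 * π * ((c : ℂ) * v 0 + c * v 1 * Complex.I)) =
        (c : ℂ) * ((starRingEnd ℂ) g.y * (2 * π * ((v 0 : ℂ) + v 1 * Complex.I))) by ring,
        Complex.re_ofReal_mul]
      ring

theorem Frm.lin_jet (g : Frm) (P : ℝ → Fin 3 → ℝ) (x : ℝ) :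
    g.lin (P x) = ((g.act (jet P x)).w, (g.act (jet P x)).z) := by
  unfold Frm.act jet
  rfl

theorem Frm.lin_injective (g : Frm) (hg : ‖g.s‖ + ‖g.x‖ * ‖g.y‖ < 1) :
    Function.Injective g.lin := by
  rw [← LinearMap.ker_eq_bot, LinearMap.ker_eq_bot']
  intro v hv
  have h1 := congrArg Prod.fst hv
  have h2 := congrArg Prod.snd hv
  obtain ⟨w, hw⟩ : ∃ w : ℂ, w = 2 * π * ((v 0 : ℂ) + v 1 * Complex.I) := ⟨_, rfl⟩
  obtain ⟨z, hz⟩ : ∃ z : ℝ, z = 2 * π * v 2 := ⟨_, rfl⟩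
  change 2 * π * ((v 0 : ℂ) + v 1 * Complex.I) +
      g.s * (starRingEnd ℂ) (2 * π * ((v 0 : ℂ) + v 1 * Complex.I)) + g.x * (2 * π * v 2 : ℝ) =
      0 at h1
  change 2 * π * v 2 + ((starRingEnd ℂ) g.y * (2 * π * ((v 0 : ℂ) + v 1 * Complex.I))).re =
    0 at h2
  rw [← hw, ← hz] at h1 h2
  have k1 : |z| ≤ ‖g.y‖ * ‖w‖ := by
    have : z = -((starRingEnd ℂ) g.y * w).re := by linarith
    rw [this, abs_neg]
    refine (Complex.abs_re_le_norm _).trans ?_
    rw [norm_mul, Complex.norm_conj]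
  have k2 : ‖w‖ ≤ ‖g.s‖ * ‖w‖ + ‖g.x‖ * |z| := by
    have : w = -(g.s * (starRingEnd ℂ) w + g.x * (z : ℝ)) := by linear_combination h1
    calc ‖w‖ = ‖-(g.s * (starRingEnd ℂ) w + g.x * (z : ℝ))‖ := by rw [← this]
      _ ≤ _ := by
        rw [norm_neg]
        refine (norm_add_le _ _).trans ?_
        rw [norm_mul, norm_mul, Complex.norm_conj, Complex.norm_real, Real.norm_eq_abs]
  have k3 : ‖w‖ ≤ (‖g.s‖ + ‖g.x‖ * ‖g.y‖) * ‖w‖ := by
    have := mul_le_mul_of_nonneg_left k1 (norm_nonneg g.x)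
    nlinarith
  have k4 : ‖w‖ = 0 := by
    by_contra hne
    have : 0 < ‖w‖ := lt_of_le_of_ne (norm_nonneg _) (Ne.symm hne)
    nlinarith
  have k5 : z = 0 := by
    rw [k4, mul_zero] at k1
    exact abs_nonpos_iff.1 k1
  have hπ : (2 * π : ℝ) ≠ 0 := by positivity
  have k6 : w = 0 := norm_eq_zero.1 k4
  rw [hw] at k6
  have hπ' : (2 * π : ℂ) ≠ 0 := by exact_mod_cast hπ
  have k7 := (mul_eq_zero.1 k6).resolve_left hπ'
  have k8 := congrArg Complex.re k7
  have k9 := congrArg Complex.im k7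
  simp at k8 k9
  have k10 := (mul_eq_zero.1 (hz.symm.trans k5)).resolve_left hπ
  funext i
  fin_cases i
  · exact k8
  · exact k9
  · exact k10

theorem Frm.lin_surjective (g : Frm) (hg : ‖g.s‖ + ‖g.x‖ * ‖g.y‖ < 1) :
    Function.Surjective g.lin := by
  have h1 : Module.finrank ℝ (Fin 3 → ℝ) = Module.finrank ℝ (ℂ × ℝ) := by
    rw [Module.finrank_prod, Complex.finrank_real_complex, Module.finrank_self,
      Module.finrank_fin_fun]
  exact (LinearMap.injective_iff_surjective_of_finrank_eq_finrank h1).1 (g.lin_injective hg)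

/-- A curve whose jet (in some frame) has constant `Q1` and `Q2` lies on a cone. -/
theorem cone_of_const {g : Frm} (hg : ‖g.s‖ + ‖g.x‖ * ‖g.y‖ < 1) {θ : Par}
    {P : ℝ → Fin 3 → ℝ} {k1 k2 : ℝ} (hk : k2 ≠ 0)
    (h1 : ∀ x, Q1 (g.act (jet P x)).w (g.act (jet P x)).z = k1)
    (h2 : ∀ x, Q2 θ (g.act (jet P x)).w (g.act (jet P x)).z = k2) :
    ∃ C : QuadraticForm ℝ (Fin 3 → ℝ), C ≠ 0 ∧ ∀ x, C (P x) = 0 := by
  obtain ⟨a, ha⟩ : ∃ a : (Fin 3 → ℝ) →ₗ[ℝ] ℝ, ∀ v, a v = (g.lin v).1.re :=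
    ⟨(Complex.reLm.comp (LinearMap.fst ℝ ℂ ℝ)).comp g.lin, fun v => rfl⟩
  obtain ⟨b, hb⟩ : ∃ b : (Fin 3 → ℝ) →ₗ[ℝ] ℝ, ∀ v, b v = (g.lin v).1.im :=
    ⟨(Complex.imLm.comp (LinearMap.fst ℝ ℂ ℝ)).comp g.lin, fun v => rfl⟩
  obtain ⟨c, hc⟩ : ∃ c : (Fin 3 → ℝ) →ₗ[ℝ] ℝ, ∀ v, c v = (g.lin v).2 :=
    ⟨(LinearMap.snd ℝ ℂ ℝ).comp g.lin, fun v => rfl⟩
  obtain ⟨C, hC⟩ : ∃ C : QuadraticForm ℝ (Fin 3 → ℝ), ∀ v, C v =
      k2 * Q1 (g.lin v).1 (g.lin v).2 - k1 * Q2 θ (g.lin v).1 (g.lin v).2 := by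
    refine ⟨k2 • (QuadraticMap.linMulLin a a + QuadraticMap.linMulLin b b -
      QuadraticMap.linMulLin c c) - k1 • (QuadraticMap.linMulLin c c +
      θ.q.re • (QuadraticMap.linMulLin a a - QuadraticMap.linMulLin b b) -
      (2 * θ.q.im) • QuadraticMap.linMulLin a b), fun v => ?_⟩
    simp only [sub_apply, add_apply, smul_apply,
      QuadraticMap.linMulLin_apply, ha, hb, hc, smul_eq_mul, Q1, Q2, Complex.normSq_apply]
    simp only [pow_two, Complex.mul_re, Complex.mul_im]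
    ring
  refine ⟨C, fun h0 => hk ?_, fun x => ?_⟩
  · obtain ⟨v1, hv1⟩ := g.lin_surjective hg (1, 0)
    obtain ⟨v2, hv2⟩ := g.lin_surjective hg (Complex.I, 0)
    have e1 := hC v1
    have e2 := hC v2
    rw [h0, hv1] at e1
    rw [h0, hv2] at e2
    simp [Q1, Q2] at e1 e2
    linarith
  · rw [hC, g.lin_jet]
    simp only [h1, h2]
    ring

theorem jet_dw {P : ℝ → Fin 3 → ℝ} {x : ℝ} (h : HasDerivAt P (deriv P x) x) :
    HasDerivAt (fun x => (jet P x).w) (2 * π * (jet P x).w1) x := by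
  rw [hasDerivAt_pi] at h
  unfold jet
  simp only
  have h0 := (h 0).ofReal_comp
  have h1 := ((h 1).ofReal_comp).mul_const Complex.I
  exact (h0.add h1).const_mul (2 * π : ℂ)

theorem jet_dz {P : ℝ → Fin 3 → ℝ} {x : ℝ} (h : HasDerivAt P (deriv P x) x) :
    HasDerivAt (fun x => (jet P x).z) (2 * π * (jet P x).z1) x := by
  rw [hasDerivAt_pi] at h
  unfold jet
  simp only
  exact (h 2).const_mul (2 * π : ℝ)

theorem Frm.act_dw (g : Frm) {J : ℝ → Jet} {x : ℝ}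
    (dw : HasDerivAt (fun x => (J x).w) (2 * π * (J x).w1) x)
    (dz : HasDerivAt (fun x => (J x).z) (2 * π * (J x).z1) x) :
    HasDerivAt (fun x => (g.act (J x)).w) (2 * π * (g.act (J x)).w1) x := by
  unfold Frm.act
  simp only
  have h1 : HasDerivAt (fun x => (starRingEnd ℂ) (J x).w)
      ((starRingEnd ℂ) (2 * π * (J x).w1)) x :=
    Complex.conjCLE.toContinuousLinearMap.hasFDerivAt.comp_hasDerivAt x dw
  refine ((dw.add (h1.const_mul g.s)).add ((dz.ofReal_comp).const_mul g.x)).congr_deriv ?_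
  rw [map_mul, map_mul, Complex.conj_ofReal, map_ofNat]
  push_cast
  ring

theorem Frm.act_dz (g : Frm) {J : ℝ → Jet} {x : ℝ}
    (dw : HasDerivAt (fun x => (J x).w) (2 * π * (J x).w1) x)
    (dz : HasDerivAt (fun x => (J x).z) (2 * π * (J x).z1) x) :
    HasDerivAt (fun x => (g.act (J x)).z) (2 * π * (g.act (J x)).z1) x := by
  unfold Frm.act
  simp only
  have h1 : HasDerivAt (fun x => ((starRingEnd ℂ) g.y * (J x).w).re)
      ((starRingEnd ℂ) g.y * (2 * π * (J x).w1)).re x :=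
    Complex.reCLM.hasFDerivAt.comp_hasDerivAt x (dw.const_mul _)
  refine (dz.add h1).congr_deriv ?_
  rw [show (starRingEnd ℂ) g.y * (2 * π * (J x).w1) =
    ((2 * π : ℝ) : ℂ) * ((starRingEnd ℂ) g.y * (J x).w1) by push_cast; ring,
    Complex.re_ofReal_mul]
  ring

/-- the conclusion: no defects, no quartic form -/
theorem cone_of_flat {g : Frm} (hg : ‖g.s‖ + ‖g.x‖ * ‖g.y‖ < 1) {θ : Par}
    {P : ℝ → Fin 3 → ℝ} (h3 : θ.c3 = 0) (h4 : θ.c4 = 0)
    (hal : ∀ x, (g.act (jet P x)).al θ ≠ 0) (hpsi : ∀ x, (g.act (jet P x)).psi2 θ ≠ 0)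
    (e0 : ∀ x, (g.act (jet P x)).e0 θ = 0) (e1 : ∀ x, (g.act (jet P x)).e1 θ = 0)
    (dw : ∀ x, HasDerivAt (fun x => (g.act (jet P x)).w) (2 * π * (g.act (jet P x)).w1) x)
    (dz : ∀ x, HasDerivAt (fun x => (g.act (jet P x)).z) (2 * π * (g.act (jet P x)).z1) x) :
    ∃ C : QuadraticForm ℝ (Fin 3 → ℝ), C ≠ 0 ∧ ∀ x, C (P x) = 0 := by
  obtain ⟨k1, k2, hk, c1, c2⟩ := const_of_flat h3 h4 hal hpsi e0 e1 dw dz
  exact cone_of_const hg hk c1 c2

open Pool.Agent.MP_ae5b4e_an_RIG in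
/-- from the normalized lift back to the curve -/
theorem cone_curve {γ : ConvexCurve} {κ σ lam r m : ℝ → ℝ} (hN : Normal γ κ σ lam r m)
    {C : QuadraticForm ℝ (Fin 3 → ℝ)} (h : ∀ x, C (lift γ σ lam x) = 0) (t : ℝ) :
    C (γ.Γ t) = 0 := by
  have hcont : Continuous σ := hN.smooth_σ.continuous
  have hn : ∀ (n : ℕ) (x : ℝ), σ (x + n) = σ x + n * γ.T := by
    intro n
    induction n with
    | zero => simp
    | succ n ih =>
      intro x
      rw [show x + ((n + 1 : ℕ) : ℝ) = (x + n) + 1 by push_cast; ring, hN.per_σ, ih]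
      push_cast
      ring
  have hn' : ∀ (n : ℕ) (x : ℝ), σ (x - n) = σ x - n * γ.T := by
    intro n x
    have := hn n (x - n)
    rw [sub_add_cancel] at this
    linarith
  have hT : 0 < γ.T := γ.T_pos
  obtain ⟨n, hn1⟩ := exists_nat_gt (|t - σ 0| / γ.T)
  have hn2 : |t - σ 0| < n * γ.T := by
    rwa [div_lt_iff₀ hT] at hn1
  rw [abs_lt] at hn2
  have h1 := intermediate_value_Icc (show (0:ℝ) - n ≤ 0 + n by
    have : (0:ℝ) ≤ n := Nat.cast_nonneg n
    linarith) hcont.continuousOn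
  obtain ⟨x, -, hx⟩ := h1 (show t ∈ Icc (σ (0 - n)) (σ (0 + n)) by
    rw [hn, hn']
    constructor <;> linarith)
  have h2 := h x
  unfold lift at h2
  rw [QuadraticMap.map_smul, hx, smul_eq_mul] at h2
  have h3 := (hN.pos_lam x).ne'
  rcases mul_eq_zero.1 h2 with h4 | h4
  · exact absurd h4 (mul_ne_zero h3 h3)
  · exact h4

end Pool.Agent.MP_ae5b4e_an_NC
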