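import Mathlib
import Pool.Agent.Lib.MP_ae5b4e_an_NC.Def
import Pool.Agent.Lib.MP_ae5b4e_an_NC.End
import Pool.Agent.Lib.MP_ae5b4e_an_RIG.GGau

/-!
# MP_ae5b4e_an, project NC: from a solution of the problem to the normalized structure
-/

noncomputable section

namespace Pool.Agent.MP_ae5b4e_an_NC

open Real Set Filter Topology MeasureTheory intervalIntegral
open scoped ContDiff
open Pool.Agent.MP_ae5b4e_an_hopf
open Pool.Agent.MP_ae5b4e_an_RG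
open Pool.Agent.MP_ae5b4e_an_RIG

/-- the normal coefficients are close to those of the circle -/
structure NearCoef (ε : ℝ) (r m : ℝ → ℝ) : Prop where
  r0 : ∀ x, |r x - 4 * π ^ 2| ≤ ε
  r1 : ∀ x, |deriv r x| ≤ ε
  r2 : ∀ x, |deriv (deriv r) x| ≤ ε
  r3 : ∀ x, |deriv (deriv (deriv r)) x| ≤ ε
  m0 : ∀ x, |m x| ≤ ε
  m1 : ∀ x, |deriv m x| ≤ ε
  m2 : ∀ x, |deriv (deriv m) x| ≤ ε

/-- A solution whose normal form is close to that of the circle. -/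
theorem ns_of_sol {γ : ConvexCurve} {U : ℝ → ℝ → ℝ} {κ σ lam r m : ℝ → ℝ} {δ ε : ℝ}
    (h : Sol γ U κ) (hN : Normal γ κ σ lam r m) (hδ : 3 / 7 < δ) (hR : Reach γ U σ δ)
    (hc : NearCoef ε r m) : NS ε (lift γ σ lam) (rU κ σ U) r m where
  sys := hN.lsys h
  wr := hN.wr
  sr := hN.smooth_r
  sm := hN.smooth_m
  pr := hN.per_r
  pm := hN.per_m
  ode := hN.ode
  r0 := hc.r0
  r1 := hc.r1
  r2 := hc.r2
  r3 := hc.r3
  m0 := hc.m0
  m1 := hc.m1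
  m2 := hc.m2
  step := ⟨δ, hδ, hN.step h hR⟩

open Matrix in
/-- change of the linear frame -/
theorem cone_frame {γ : ConvexCurve} {κ σ lam r m : ℝ → ℝ} (hN : Normal γ κ σ lam r m)
    {M : Matrix (Fin 3) (Fin 3) ℝ} (hM : M.det = 1) {C : QuadraticForm ℝ (Fin 3 → ℝ)}
    (hC : C ≠ 0) (h : ∀ x, C (M *ᵥ lift γ σ lam x) = 0) :
    ∃ C' : QuadraticForm ℝ (Fin 3 → ℝ), C' ≠ 0 ∧ ∀ t, C' (γ.Γ t) = 0 := by
  refine ⟨C.comp M.toLin', fun h0 => hC ?_, cone_curve hN fun x => ?_⟩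
  · ext v
    have h1 := congrArg (fun Q : QuadraticForm ℝ (Fin 3 → ℝ) => Q (M⁻¹ *ᵥ v)) h0
    simp only [QuadraticMap.comp_apply, Matrix.toLin'_apply, Matrix.mulVec_mulVec] at h1
    rw [Matrix.mul_nonsing_inv _ (by rw [hM]; exact isUnit_one), Matrix.one_mulVec] at h1
    rw [h1]
    simp
  · rw [QuadraticMap.comp_apply, Matrix.toLin'_apply]
    exact h x

open Matrix in
/-- the end of the proof: a frame in which there are no defects and no quartic form -/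
theorem cone_of_frame {γ : ConvexCurve} {κ σ lam r m : ℝ → ℝ} (hN : Normal γ κ σ lam r m)
    {M : Matrix (Fin 3) (Fin 3) ℝ} (hM : M.det = 1)
    (hP : ∀ x, DifferentiableAt ℝ (fun x => M *ᵥ lift γ σ lam x) x) {g : Frm}
    (hg : ‖g.s‖ + ‖g.x‖ * ‖g.y‖ < 1) {θ : Par} (h3 : θ.c3 = 0) (h4 : θ.c4 = 0)
    (hal : ∀ x, (g.act (jet (fun x => M *ᵥ lift γ σ lam x) x)).al θ ≠ 0)
    (hpsi : ∀ x, (g.act (jet (fun x => M *ᵥ lift γ σ lam x) x)).psi2 θ ≠ 0)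
    (e0 : ∀ x, (g.act (jet (fun x => M *ᵥ lift γ σ lam x) x)).e0 θ = 0)
    (e1 : ∀ x, (g.act (jet (fun x => M *ᵥ lift γ σ lam x) x)).e1 θ = 0) :
    ∃ C : QuadraticForm ℝ (Fin 3 → ℝ), C ≠ 0 ∧ ∀ t, C (γ.Γ t) = 0 := by
  obtain ⟨C, hC, hC'⟩ := cone_of_flat hg h3 h4 hal hpsi e0 e1
    (fun x => g.act_dw (jet_dw (hP x).hasDerivAt) (jet_dz (hP x).hasDerivAt))
    fun x => g.act_dz (jet_dw (hP x).hasDerivAt) (jet_dz (hP x).hasDerivAt)
  exact cone_frame hN hM hC hC'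

end Pool.Agent.MP_ae5b4e_an_NC
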