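import Mathlib
import Pool.Agent.Lib.MP_ae5b4e_an_NC.Top
import Pool.Agent.Lib.MP_ae5b4e_an_LOC.AnaB

/-!
# MP_ae5b4e_an, project NC: closeness of the coefficients without derivatives

For a solution the coefficients `r`, `m` decay exponentially; so a small deviation from the circle
in the sup norm gives a small deviation of the derivatives.
-/

noncomputable section

namespace Pool.Agent.MP_ae5b4e_an_NC

open Real Set Filter Topology MeasureTheory intervalIntegral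
open scoped ContDiff
open Pool.Agent.MP_ae5b4e_an_hopf
open Pool.Agent.MP_ae5b4e_an_RG
open Pool.Agent.MP_ae5b4e_an_RIG

private lemma CirA_per_deriv {g : ℝ → ℝ} (hg : Function.Periodic g 1) :
    Function.Periodic (deriv g) 1 := by
  intro x
  have h1 : (fun y => g (y + 1)) = g := funext fun y => hg y
  have h2 := deriv_comp_add_const (f := g) (1 : ℝ) x
  rw [h1] at h2
  exact h2.symm

private lemma CirA_smooth {g : ℝ → ℝ} (hg : ContDiff ℝ ∞ g) : ContDiff ℝ ∞ (deriv g) :=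
  (contDiff_infty_iff_deriv.1 hg).2

private lemma CirA_abs_le {g : ℝ → ℝ} (hg : ContDiff ℝ ∞ g) (pg : Function.Periodic g 1) {M s : ℝ}
    {b : ℤ → ℝ} (hb : HasSum b s) (h : ∀ k, ‖rc g k‖ ≤ M * b k) (x : ℝ) : |g x| ≤ M * s := by
  obtain ⟨A0, -, hA⟩ := dec_of_contDiff hg pg
  have e1 := Dec.hasSum_rc (le_refl 0) hA x
  have e2 := HasSum.norm_le_of_bounded e1 (hb.mul_left M) (fun k => by
    rw [norm_mul, norm_e, mul_one]
    exact h k)
  rwa [Complex.norm_real, Real.norm_eq_abs] at e2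

private lemma CirA_two_pi (k : ℤ) : ‖(2 * π * Complex.I * (k : ℂ) : ℂ)‖ ≤ 7 * |(k:ℝ)| := by
  rw [norm_mul, norm_mul, norm_mul, Complex.norm_I, Complex.norm_intCast, Complex.norm_real,
    Real.norm_of_nonneg Real.pi_pos.le]
  simp only [Complex.norm_ofNat, mul_one]
  have := Real.pi_lt_d2
  have := abs_nonneg (k:ℝ)
  nlinarith

/-- smallness of the derivatives from the smallness in the sup norm and the decay -/
theorem deriv_small {ρ B : ℝ} (hρ : 0 < ρ) (hB : 0 ≤ B) : ∃ C : ℝ, 0 < C ∧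
    ∀ (ε c : ℝ) (f : ℝ → ℝ), 0 ≤ ε → ContDiff ℝ ∞ f → Function.Periodic f 1 →
      (∀ x, |f x - c| ≤ ε) → (∀ k : ℤ, ‖rc f k‖ ≤ B * Real.exp (-(ρ * |(k:ℝ)|))) →
      ∀ x, |deriv f x| ≤ C * √ε ∧ |deriv (deriv f) x| ≤ C * √ε ∧
        |deriv (deriv (deriv f)) x| ≤ C * √ε := by
  set c1 : ℝ := max 1 (84 / ρ) with hc1
  have hc11 : 1 ≤ c1 := le_max_left _ _
  have hc10 : 0 < c1 := by linarith
  have hpoly : ∀ n : ℝ, 0 ≤ n → (1 + 7 * n) ^ 3 ≤ c1 ^ 3 * Real.exp (ρ / 4 * n) := by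
    intro n hn
    have h5 : 1 + 7 * n ≤ c1 * Real.exp (ρ / 12 * n) := by
      have h6 := Real.add_one_le_exp (ρ / 12 * n)
      have h7 : 84 / ρ ≤ c1 := le_max_right _ _
      have h8 : 7 * n ≤ c1 * (ρ / 12 * n) := by
        have h9 : 84 / ρ * (ρ / 12 * n) = 7 * n := by field_simp; ring
        calc 7 * n = 84 / ρ * (ρ / 12 * n) := h9.symm
          _ ≤ c1 * (ρ / 12 * n) := mul_le_mul_of_nonneg_right h7 (by positivity)
      calc 1 + 7 * n ≤ c1 * 1 + c1 * (ρ / 12 * n) := by linarith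
        _ = c1 * (ρ / 12 * n + 1) := by ring
        _ ≤ c1 * Real.exp (ρ / 12 * n) := mul_le_mul_of_nonneg_left h6 hc10.le
    have h6 : Real.exp (ρ / 4 * n) = Real.exp (ρ / 12 * n) ^ 3 := by
      rw [← Real.exp_nat_mul]
      congr 1
      push_cast
      ring
    rw [h6, ← mul_pow]
    exact pow_le_pow_left₀ (by positivity) h5 3
  -- the sum
  have hsum : Summable fun k : ℤ => Real.exp (-(ρ / 4 * |(k:ℝ)|)) := by
    have h1 : Real.exp (-(ρ / 4)) < 1 := by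
      rw [Real.exp_lt_one_iff]
      linarith
    have h2 : Summable fun n : ℕ => Real.exp (-(ρ / 4)) ^ n :=
      summable_geometric_of_lt_one (Real.exp_pos _).le h1
    refine Summable.of_nat_of_neg ?_ ?_
    · refine h2.congr fun n => ?_
      rw [← Real.exp_nat_mul, Int.cast_natCast, abs_of_nonneg (Nat.cast_nonneg n)]
      congr 1
      ring
    · refine h2.congr fun n => ?_
      rw [← Real.exp_nat_mul, Int.cast_neg, Int.cast_natCast, abs_neg,
        abs_of_nonneg (Nat.cast_nonneg n)]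
      congr 1
      ring
  obtain ⟨s, hs⟩ := hsum
  have hs0 : 0 ≤ s := hs.nonneg fun k => (Real.exp_pos _).le
  refine ⟨c1 ^ 3 * √B * s + 1, by positivity, ?_⟩
  intro ε c f hε sf pf hf hdec x
  -- the coefficients
  have hk : ∀ k : ℤ, k ≠ 0 → ‖rc f k‖ ≤ √ε * √B * Real.exp (-(ρ / 2 * |(k:ℝ)|)) := by
    intro k hk0
    have e1 : ‖rc f k‖ ≤ ε := by
      have e2 : rc (deriv f) k = 2 * π * Complex.I * k * rc (fun x => f x - c) k := by
        have e3 := rc_deriv (R := fun x => f x - c) (sf.sub contDiff_const) (fun x => by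
          show f (x + 1) - c = f x - c
          rw [pf]) k
        have e4 : deriv (fun x => f x - c) = deriv f := by
          funext y
          exact deriv_sub_const c
        rw [e4] at e3
        exact e3
      rw [rc_deriv sf pf k] at e2
      have hne : (2 * π * Complex.I * (k : ℂ) : ℂ) ≠ 0 := by
        refine mul_ne_zero (mul_ne_zero (mul_ne_zero two_ne_zero
          (Complex.ofReal_ne_zero.2 Real.pi_ne_zero)) Complex.I_ne_zero) (Int.cast_ne_zero.2 hk0)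
      rw [mul_left_cancel₀ hne e2]
      exact rc_norm_le hf k
    have e2 : ‖rc f k‖ ^ 2 ≤ (√ε * √B * Real.exp (-(ρ / 2 * |(k:ℝ)|))) ^ 2 := by
      have e3 : Real.exp (-(ρ * |(k:ℝ)|)) = Real.exp (-(ρ / 2 * |(k:ℝ)|)) ^ 2 := by
        rw [← Real.exp_nat_mul]
        congr 1
        push_cast
        ring
      rw [mul_pow, mul_pow, Real.sq_sqrt hε, Real.sq_sqrt hB, ← e3, sq, mul_assoc]
      exact mul_le_mul e1 (hdec k) (norm_nonneg _) hε
    exact le_of_sq_le_sq e2 (by positivity)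
  have hj : ∀ (k : ℤ) (j : ℕ), 1 ≤ j → j ≤ 3 → (7 * |(k:ℝ)|) ^ j * ‖rc f k‖ ≤
      (c1 ^ 3 * √B * √ε) * Real.exp (-(ρ / 4 * |(k:ℝ)|)) := by
    intro k j hj1 hj3
    rcases eq_or_ne k 0 with rfl | hk0
    · rw [Int.cast_zero, abs_zero, mul_zero, zero_pow (by omega), zero_mul]
      positivity
    have hn := abs_nonneg (k:ℝ)
    have e1 : (7 * |(k:ℝ)|) ^ j ≤ (1 + 7 * |(k:ℝ)|) ^ 3 :=
      calc (7 * |(k:ℝ)|) ^ j ≤ (1 + 7 * |(k:ℝ)|) ^ j :=
            pow_le_pow_left₀ (by positivity) (by linarith) j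
        _ ≤ (1 + 7 * |(k:ℝ)|) ^ 3 := pow_le_pow_right₀ (by linarith) hj3
    calc (7 * |(k:ℝ)|) ^ j * ‖rc f k‖ ≤
          (c1 ^ 3 * Real.exp (ρ / 4 * |(k:ℝ)|)) * (√ε * √B * Real.exp (-(ρ / 2 * |(k:ℝ)|))) :=
          mul_le_mul (e1.trans (hpoly _ hn)) (hk k hk0) (norm_nonneg _) (by positivity)
      _ = (c1 ^ 3 * √B * √ε) *
          (Real.exp (ρ / 4 * |(k:ℝ)|) * Real.exp (-(ρ / 2 * |(k:ℝ)|))) := by ring
      _ = _ := by
        rw [← Real.exp_add]
        congr 2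
        ring
  have s1 := CirA_smooth sf
  have s2 := CirA_smooth s1
  have s3 := CirA_smooth s2
  have p1 := CirA_per_deriv pf
  have p2 := CirA_per_deriv p1
  have p3 := CirA_per_deriv p2
  have n1 : ∀ k, ‖rc (deriv f) k‖ ≤ 7 * |(k:ℝ)| * ‖rc f k‖ := by
    intro k
    rw [rc_deriv sf pf k, norm_mul]
    exact mul_le_mul_of_nonneg_right (CirA_two_pi k) (norm_nonneg _)
  have n2 : ∀ k, ‖rc (deriv (deriv f)) k‖ ≤ (7 * |(k:ℝ)|) ^ 2 * ‖rc f k‖ := by
    intro k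
    rw [rc_deriv s1 p1 k, norm_mul]
    refine (mul_le_mul (CirA_two_pi k) (n1 k) (norm_nonneg _) (by positivity)).trans (le_of_eq ?_)
    ring
  have n3 : ∀ k, ‖rc (deriv (deriv (deriv f))) k‖ ≤ (7 * |(k:ℝ)|) ^ 3 * ‖rc f k‖ := by
    intro k
    rw [rc_deriv s2 p2 k, norm_mul]
    refine (mul_le_mul (CirA_two_pi k) (n2 k) (norm_nonneg _) (by positivity)).trans (le_of_eq ?_)
    ring
  have hfin : c1 ^ 3 * √B * √ε * s ≤ (c1 ^ 3 * √B * s + 1) * √ε := by
    have := Real.sqrt_nonneg ε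
    nlinarith
  refine ⟨?_, ?_, ?_⟩
  · refine (CirA_abs_le s1 p1 hs (fun k => (n1 k).trans ?_) x).trans hfin
    have := hj k 1 le_rfl (by norm_num)
    rwa [pow_one] at this
  · exact (CirA_abs_le s2 p2 hs (fun k => (n2 k).trans (hj k 2 (by norm_num) (by norm_num))) x).trans
      hfin
  · exact (CirA_abs_le s3 p3 hs (fun k => (n3 k).trans (hj k 3 (by norm_num) (by norm_num))) x).trans
      hfin

private lemma CirA_of_all_N {ρ a B : ℝ} {k : ℤ} (h : ∀ N : ℕ, a ≤ B / V ρ N 2 k) (hB : 0 ≤ B) :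
    a ≤ B * Real.exp (-(ρ * |(k:ℝ)|)) := by
  obtain ⟨N, hN⟩ := exists_nat_ge |(k:ℝ)|
  refine (h N).trans ?_
  unfold V w
  rw [min_eq_left hN, Real.exp_neg, div_eq_mul_inv]
  refine mul_le_mul_of_nonneg_left ?_ hB
  refine inv_anti₀ (Real.exp_pos _) ?_
  have h1 : (1:ℝ) ≤ (1 + |(k:ℝ)|) ^ 2 := one_le_pow₀ (by linarith [abs_nonneg (k:ℝ)])
  exact le_mul_of_one_le_left (Real.exp_pos _).le h1

/-- a solution near the circle in the sup norm is near the circle with the derivatives -/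
theorem nearCoef_of_close {K δ ε1 : ℝ} (hδ : 0 < δ) (hε1 : 0 < ε1) : ∃ ε : ℝ, 0 < ε ∧
    ∀ (γ : ConvexCurve) (U : ℝ → ℝ → ℝ) (κ σ lam r m : ℝ → ℝ), Sol γ U κ →
      Normal γ κ σ lam r m → Bnd K r m → Reach γ U σ δ → (∀ x, |r x - 4 * π ^ 2| ≤ ε) →
      (∀ x, |m x| ≤ ε) → NearCoef ε1 r m := by
  rcases lt_or_ge K 0 with hK | hK
  · refine ⟨1, one_pos, fun γ U κ σ lam r m _ _ hB _ _ _ => ?_⟩
    have := hB.r0 0
    have := abs_nonneg (r 0)
    linarith
  obtain ⟨ρ, A, hρ, hA, H⟩ := Pool.Agent.MP_ae5b4e_an_LOC.rm_decay_bg K δ hK hδ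
  obtain ⟨C, hC, HC⟩ := deriv_small (B := 7 * A) hρ (by positivity)
  set ε : ℝ := min ε1 ((ε1 / C) ^ 2) with hε
  have hε0 : 0 < ε := lt_min hε1 (by positivity)
  have hεC : C * √ε ≤ ε1 := by
    have h1 : √ε ≤ ε1 / C := by
      rw [Real.sqrt_le_left (by positivity)]
      exact min_le_right _ _
    calc C * √ε ≤ C * (ε1 / C) := mul_le_mul_of_nonneg_left h1 hC.le
      _ = ε1 := by field_simp
  refine ⟨ε, hε0, fun γ U κ σ lam r m h hN hB hR hr hm => ?_⟩
  obtain ⟨-, -, hdec⟩ := H (lift γ σ lam) (rU κ σ U) r m (hN.lsys h) hN.wr hN.smooth_r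
    hN.smooth_m hN.per_r hN.per_m hN.ode hB (hN.step h hR)
  have d1 : ∀ k : ℤ, ‖rc r k‖ ≤ 7 * A * Real.exp (-(ρ * |(k:ℝ)|)) := fun k =>
    CirA_of_all_N (fun N => (hdec N k).1) (by positivity)
  have d2 : ∀ k : ℤ, ‖rc m k‖ ≤ 7 * A * Real.exp (-(ρ * |(k:ℝ)|)) := fun k =>
    CirA_of_all_N (fun N => (hdec N k).2) (by positivity)
  have R := HC ε (4 * π ^ 2) r hε0.le hN.smooth_r hN.per_r hr d1
  have M := HC ε 0 m hε0.le hN.smooth_m hN.per_m (fun x => by rw [sub_zero]; exact hm x) d2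
  exact ⟨fun x => (hr x).trans (min_le_left _ _), fun x => (R x).1.trans hεC,
    fun x => (R x).2.1.trans hεC, fun x => (R x).2.2.trans hεC,
    fun x => (hm x).trans (min_le_left _ _), fun x => (M x).1.trans hεC,
    fun x => (M x).2.1.trans hεC⟩

end Pool.Agent.MP_ae5b4e_an_NC
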