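import Mathlib
import Pool.Agent.Lib.MP_ae5b4e_an_RG.Ell
import Pool.Agent.Lib.MP_ae5b4e_an_RG.DecS
import Pool.Agent.Lib.MP_ae5b4e_an_RIG.GGau

/-!
# MP_ae5b4e_an, project NC: the normal coefficients of a conic

`m = r' / 2` for a conic; if in addition `r` is constant, then `r = 4 π ^ 2` and `m = 0`.
-/

noncomputable section

namespace Pool.Agent.MP_ae5b4e_an_NC

open Real Set Filter Topology MeasureTheory intervalIntegral
open scoped ContDiff
open Pool.Agent.MP_ae5b4e_an_hopf
open Pool.Agent.MP_ae5b4e_an_RG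
open Pool.Agent.MP_ae5b4e_an_RIG

/-- derivative of the polar form along two curves -/
theorem hasDerivAt_polar (E : QuadraticForm ℝ (Fin 3 → ℝ)) {u v : ℝ → Fin 3 → ℝ}
    {u' v' : Fin 3 → ℝ} {x : ℝ} (hu : HasDerivAt u u' x) (hv : HasDerivAt v v' x) :
    HasDerivAt (fun x => QuadraticMap.polar E (u x) (v x))
      (QuadraticMap.polar E u' (v x) + QuadraticMap.polar E (u x) v') x := by
  let L := (QuadraticMap.polarBilin E).toContinuousBilinearMap
  have h1 : HasDerivAt (fun x => L (u x)) (L u') x := L.hasFDerivAt.comp_hasDerivAt x hu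
  exact h1.clm_apply hv

private lemma CirB_comb {P P1 P2 : Fin 3 → ℝ} (h : det3 P P1 P2 = 1) (v : Fin 3 → ℝ) :
    v = det3 v P1 P2 • P + det3 P v P2 • P1 + det3 P P1 v • P2 := by
  have key : ∀ i, det3 P P1 P2 * v i =
      det3 v P1 P2 * P i + det3 P v P2 * P1 i + det3 P P1 v * P2 i := by
    intro i
    fin_cases i <;> simp only [det3] <;> simp <;> ring
  funext i
  have := key i
  rw [h, one_mul] at this
  simpa using this

/-- a quadratic form which vanishes on a basis, together with the polar form, is zero -/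
private lemma CirB_zero {E : QuadraticForm ℝ (Fin 3 → ℝ)} {P P1 P2 : Fin 3 → ℝ}
    (h : det3 P P1 P2 = 1) (h00 : E P = 0) (h11 : E P1 = 0) (h22 : E P2 = 0)
    (h01 : QuadraticMap.polar E P P1 = 0) (h02 : QuadraticMap.polar E P P2 = 0)
    (h12 : QuadraticMap.polar E P1 P2 = 0) : E = 0 := by
  ext v
  rw [CirB_comb h v]
  set a := det3 v P1 P2
  set b := det3 P v P2
  set c := det3 P P1 v
  have e1 : ∀ x y, E (x + y) = E x + E y + QuadraticMap.polar E x y := by
    intro x y
    unfold QuadraticMap.polar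
    ring
  rw [e1, e1, QuadraticMap.map_smul, QuadraticMap.map_smul, QuadraticMap.map_smul,
    QuadraticMap.polar_add_left, QuadraticMap.polar_smul_left, QuadraticMap.polar_smul_right,
    QuadraticMap.polar_smul_left, QuadraticMap.polar_smul_right, QuadraticMap.polar_smul_left,
    QuadraticMap.polar_smul_right, h00, h11, h22, h01, h02, h12]
  simp

/-- the normal coefficients of a conic satisfy `m = r' / 2` -/
theorem conic_coef {P : ℝ → Fin 3 → ℝ} (h : Curve 1 P) (hW : ∀ x, Wr P x = 1) {r m : ℝ → ℝ}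
    (sr : ContDiff ℝ ∞ r)
    (hode : ∀ x, deriv (deriv (deriv P)) x = -(r x) • deriv P x - m x • P x)
    {E : QuadraticForm ℝ (Fin 3 → ℝ)} (hE : E ≠ 0) (hE0 : ∀ x, E (P x) = 0) (x : ℝ) :
    m x = deriv r x / 2 := by
  have d0 := h.hd0
  have d1 := h.hd1
  have d2 := h.hd2
  have b00 : ∀ x, QuadraticMap.polar E (P x) (P x) = 0 := by
    intro x
    rw [QuadraticMap.polar_self, hE0 x, smul_zero]
  have b01 : ∀ x, QuadraticMap.polar E (P x) (deriv P x) = 0 := by
    intro x
    have e1 := hasDerivAt_polar E (d0 x) (d0 x)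
    rw [show (fun x => QuadraticMap.polar E (P x) (P x)) = fun _ => 0 from funext b00] at e1
    have e2 := e1.unique (hasDerivAt_const x 0)
    rw [QuadraticMap.polar_comm E (deriv P x)] at e2
    linarith
  have b02 : ∀ x, QuadraticMap.polar E (P x) (deriv (deriv P) x) =
      -QuadraticMap.polar E (deriv P x) (deriv P x) := by
    intro x
    have e1 := hasDerivAt_polar E (d0 x) (d1 x)
    rw [show (fun x => QuadraticMap.polar E (P x) (deriv P x)) = fun _ => 0 from funext b01] at e1
    have e2 := e1.unique (hasDerivAt_const x 0)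
    linarith
  have b3 : ∀ (u : Fin 3 → ℝ) x, QuadraticMap.polar E u (deriv (deriv (deriv P)) x) =
      -(r x) * QuadraticMap.polar E u (deriv P x) - m x * QuadraticMap.polar E u (P x) := by
    intro u x
    rw [hode x, QuadraticMap.polar_sub_right, QuadraticMap.polar_smul_right,
      QuadraticMap.polar_smul_right, smul_eq_mul, smul_eq_mul]
  have b12 : ∀ x, QuadraticMap.polar E (deriv P x) (deriv (deriv P) x) = 0 := by
    intro x
    have e1 := (hasDerivAt_polar E (d0 x) (d2 x)).add (hasDerivAt_polar E (d1 x) (d1 x))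
    have e3 : ((fun x => QuadraticMap.polar E (P x) (deriv (deriv P) x)) +
        fun x => QuadraticMap.polar E (deriv P x) (deriv P x)) = fun _ => 0 := by
      funext y
      simp only [Pi.add_apply]
      rw [b02 y]
      ring
    rw [e3] at e1
    have e2 := e1.unique (hasDerivAt_const x 0)
    rw [b3, b00, b01, QuadraticMap.polar_comm E (deriv (deriv P) x)] at e2
    linarith
  have b22 : ∀ x, QuadraticMap.polar E (deriv (deriv P) x) (deriv (deriv P) x) =
      r x * QuadraticMap.polar E (deriv P x) (deriv P x) := by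
    intro x
    have e1 := hasDerivAt_polar E (d1 x) (d2 x)
    rw [show (fun x => QuadraticMap.polar E (deriv P x) (deriv (deriv P) x)) = fun _ => 0 from
      funext b12] at e1
    have e2 := e1.unique (hasDerivAt_const x 0)
    rw [b3, QuadraticMap.polar_comm E (deriv P x) (P x), b01] at e2
    linarith
  have hq : ∀ x, QuadraticMap.polar E (deriv P x) (deriv P x) ≠ 0 := by
    intro x hx
    refine hE (CirB_zero (hW x) (hE0 x) ?_ ?_ (b01 x) ?_ (b12 x))
    · have := QuadraticMap.polar_self E (deriv P x)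
      rw [hx] at this
      simpa using this.symm
    · have := QuadraticMap.polar_self E (deriv (deriv P) x)
      rw [b22, hx] at this
      simpa using this.symm
    · rw [b02, hx, neg_zero]
  have e1 := hasDerivAt_polar E (d2 x) (d2 x)
  have hr : HasDerivAt r (deriv r x) x := (sr.differentiable (by norm_num) x).hasDerivAt
  have e2 := hr.mul (hasDerivAt_polar E (d1 x) (d1 x))
  rw [show (fun x => QuadraticMap.polar E (deriv (deriv P) x) (deriv (deriv P) x)) =
    fun x => r x * QuadraticMap.polar E (deriv P x) (deriv P x) from funext b22] at e1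
  have e3 := e1.unique e2
  rw [QuadraticMap.polar_comm E (deriv (deriv (deriv P)) x), b3,
    QuadraticMap.polar_comm E (deriv (deriv P) x) (deriv P x), b12,
    QuadraticMap.polar_comm E (deriv (deriv P) x) (P x), b02] at e3
  have e4 : (2 * m x - deriv r x) * QuadraticMap.polar E (deriv P x) (deriv P x) = 0 := by
    linear_combination e3
  have e5 := (mul_eq_zero.1 e4).resolve_right (hq x)
  linarith

private lemma CirB_e_shift {n : ℕ} (hn : 0 < n) {k : ℤ} (hk : (n : ℤ) ∣ k) (x : ℝ) :
    e k (x + 1 / n) = e k x := by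
  obtain ⟨l, rfl⟩ := hk
  unfold e
  have hnC : (n : ℂ) ≠ 0 := Nat.cast_ne_zero.2 hn.ne'
  have h1 : (2 * π * Complex.I * ((n * l : ℤ) : ℂ) * ((x + 1 / n : ℝ) : ℂ) : ℂ) =
      2 * π * Complex.I * ((n * l : ℤ) : ℂ) * (x : ℂ) + (l : ℂ) * (2 * π * Complex.I) := by
    push_cast
    field_simp
  rw [h1, Complex.exp_add, Complex.exp_int_mul_two_pi_mul_I, mul_one]

/-- a closed convex curve with `P''' = - r P'`, `r` constant, has `r = 4 π ^ 2` -/
theorem const_period {P : ℝ → Fin 3 → ℝ} (h : Curve 1 P) {r : ℝ}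
    (hode : ∀ x, deriv (deriv (deriv P)) x = -r • deriv P x) : r = 4 * π ^ 2 := by
  have hpi : (π : ℂ) ≠ 0 := Complex.ofReal_ne_zero.2 Real.pi_ne_zero
  have sP : ∀ i, ContDiff ℝ ∞ (fun x => P x i) := fun i => (contDiff_pi.1 h.smooth) i
  have pP : ∀ i, Function.Periodic (fun x => P x i) 1 := fun i x => by
    show P (x + 1) i = P x i
    rw [h.per]
  have s1 : ∀ i, deriv (fun x => P x i) = fun x => deriv P x i := fun i =>
    funext fun x => (hasDerivAt_pi.1 (h.hd0 x) i).deriv
  have s2 : ∀ i, deriv (fun x => deriv P x i) = fun x => deriv (deriv P) x i := fun i =>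
    funext fun x => (hasDerivAt_pi.1 (h.hd1 x) i).deriv
  have s3 : ∀ i, deriv (fun x => deriv (deriv P) x i) = fun x => deriv (deriv (deriv P)) x i :=
    fun i => funext fun x => (hasDerivAt_pi.1 (h.hd2 x) i).deriv
  have sP1 : ∀ i, ContDiff ℝ ∞ (fun x => deriv P x i) := fun i => (contDiff_pi.1 h.smooth1) i
  have sP2 : ∀ i, ContDiff ℝ ∞ (fun x => deriv (deriv P) x i) := fun i =>
    (contDiff_pi.1 h.smooth2) i
  have pd : ∀ {g : ℝ → ℝ}, Function.Periodic g 1 → Function.Periodic (deriv g) 1 := by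
    intro g hg x
    have h1 : (fun y => g (y + 1)) = g := funext fun y => hg y
    have h2 := deriv_comp_add_const (f := g) (1 : ℝ) x
    rw [h1] at h2
    exact h2.symm
  have pP1 : ∀ i, Function.Periodic (fun x => deriv P x i) 1 := fun i => by
    rw [← s1 i]; exact pd (pP i)
  have pP2 : ∀ i, Function.Periodic (fun x => deriv (deriv P) x i) 1 := fun i => by
    rw [← s2 i]; exact pd (pP1 i)
  -- the equation for the coefficients
  have hco : ∀ i k, rc (fun x => P x i) k ≠ 0 → k = 0 ∨ r = 4 * π ^ 2 * (k:ℝ) ^ 2 := by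
    intro i k hk
    rcases eq_or_ne k 0 with h0 | h0
    · exact Or.inl h0
    right
    have e1 := rc_deriv (sP i) (pP i) k
    rw [s1 i] at e1
    have e2 := rc_deriv (sP1 i) (pP1 i) k
    rw [s2 i, e1] at e2
    have e3 := rc_deriv (sP2 i) (pP2 i) k
    rw [s3 i, e2] at e3
    have e4 : rc (fun x => deriv (deriv (deriv P)) x i) k =
        -(r : ℂ) * rc (fun x => deriv P x i) k := by
      unfold rc fc
      rw [← intervalIntegral.integral_const_mul]
      refine intervalIntegral.integral_congr fun x _ => ?_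
      simp only
      rw [hode x]
      simp only [Pi.smul_apply, smul_eq_mul]
      push_cast
      ring
    rw [e4, e1] at e3
    have hkC : (k : ℂ) ≠ 0 := Int.cast_ne_zero.2 h0
    have e5 : ((r : ℂ) - 4 * π ^ 2 * (k:ℂ) ^ 2) *
        (2 * π * Complex.I * k * rc (fun x => P x i) k) = 0 := by
      linear_combination -e3 -
        8 * π ^ 3 * (k:ℂ) ^ 3 * rc (fun x => P x i) k * Complex.I * Complex.I_sq
    have e6 : (2 * π * Complex.I * k * rc (fun x => P x i) k : ℂ) ≠ 0 := by
      refine mul_ne_zero (mul_ne_zero (mul_ne_zero (mul_ne_zero two_ne_zero hpi)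
        Complex.I_ne_zero) hkC) hk
    have e7 := sub_eq_zero.1 ((mul_eq_zero.1 e5).resolve_right e6)
    exact_mod_cast e7
  by_contra hr
  -- the curve has a smaller period
  obtain ⟨n, hn2, hn⟩ : ∃ n : ℕ, 2 ≤ n ∧ ∀ i k, rc (fun x => P x i) k ≠ 0 → (n : ℤ) ∣ k := by
    by_cases hex : ∃ (i : Fin 3) (k : ℤ), k ≠ 0 ∧ rc (fun x => P x i) k ≠ 0
    · obtain ⟨i, k, hk0, hk⟩ := hex
      have h1 := (hco i k hk).resolve_left hk0
      refine ⟨k.natAbs, ?_, fun j l hl => ?_⟩
      · by_contra hlt
        have h2 : k.natAbs = 1 := by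
          have : k.natAbs ≠ 0 := Int.natAbs_ne_zero.2 hk0
          omega
        have h3 : (k:ℝ) ^ 2 = 1 := by
          have h4 : k ^ 2 = 1 := by
            rw [← Int.natAbs_sq, h2]
            norm_num
          exact_mod_cast h4
        rw [h3, mul_one] at h1
        exact hr h1
      · rcases hco j l hl with h2 | h2
        · rw [h2]
          exact dvd_zero _
        · have h3 : (k:ℝ) ^ 2 = (l:ℝ) ^ 2 := by
            have h4 : 4 * π ^ 2 * (k:ℝ) ^ 2 = 4 * π ^ 2 * (l:ℝ) ^ 2 := by rw [← h1, ← h2]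
            have h5 : (4 * π ^ 2 : ℝ) ≠ 0 := by positivity
            exact mul_left_cancel₀ h5 h4
          have h4 : k ^ 2 = l ^ 2 := by exact_mod_cast h3
          rw [Int.natCast_natAbs]
          rcases sq_eq_sq_iff_eq_or_eq_neg.1 h4 with h5 | h5
          · rw [h5]
            exact (abs_dvd l l).2 dvd_rfl
          · rw [h5, abs_neg]
            exact (abs_dvd l l).2 dvd_rfl
    · push Not at hex
      refine ⟨2, le_rfl, fun i k hk => ?_⟩
      by_cases hk0 : k = 0
      · rw [hk0]
        exact dvd_zero _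
      · exact absurd (hex i k hk0) hk
  have hn0 : 0 < n := by omega
  have hshift : ∀ x, P (x + 1 / n) = P x := by
    intro x
    funext i
    obtain ⟨A0, -, hA⟩ := dec_of_contDiff (sP i) (pP i)
    have e1 := Dec.hasSum_rc (le_refl 0) hA (x + 1 / n)
    have e2 := Dec.hasSum_rc (le_refl 0) hA x
    have e3 : (fun k => rc (fun x => P x i) k * e k (x + 1 / n)) =
        fun k => rc (fun x => P x i) k * e k x := by
      funext k
      by_cases hk : rc (fun x => P x i) k = 0
      · rw [hk, zero_mul, zero_mul]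
      · rw [CirB_e_shift hn0 (hn i k hk)]
    rw [e3] at e1
    exact_mod_cast e1.unique e2
  have hnR : (2:ℝ) ≤ n := by exact_mod_cast hn2
  have hpos := h.pos 0 (0 + 1 / n) (by
    have : (0:ℝ) < 1 / n := by positivity
    linarith) (by
    rw [zero_add, zero_add, div_lt_one (by positivity)]
    linarith)
  unfold dd at hpos
  rw [hshift 0, det3_self_left] at hpos
  exact lt_irrefl _ hpos

/-- a pencil whose first normal coefficient is constant -/
theorem const_pencil {γ : ConvexCurve} {U : ℝ → ℝ → ℝ} {κ σ lam r m : ℝ → ℝ} (h : Sol γ U κ)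
    (hN : Normal γ κ σ lam r m) (hP : Pencil γ U) (hc : ∀ x, r x = r 0) :
    (∀ x, r x = 4 * π ^ 2) ∧ ∀ x, m x = 0 := by
  obtain ⟨Q, E, hE, htr, -⟩ := hP
  have hcur : Curve 1 (lift γ σ lam) := (hN.lsys h).curve
  have hE1 : E ≠ 0 := by
    rintro rfl
    have h1 := hE.radical_eq_bot
    have h2 : (![1, 0, 0] : Fin 3 → ℝ) ∈ (0 : QuadraticForm ℝ (Fin 3 → ℝ)).radical := by
      rw [QuadraticMap.mem_radical_iff']
      exact ⟨by simp, fun y => by simp⟩
    rw [h1, Submodule.mem_bot] at h2
    have h3 := congrFun h2 0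
    simp at h3
  have hEΓ : ∀ t, E (γ.Γ t) = 0 := by
    intro t
    have h1 : Projectivization.mk ℝ ![γ.x t, γ.y t, 1] (γ.avec_ne t) ∈ γ.trace := ⟨t, rfl⟩
    rw [htr, Pool.Agent.MP_ae5b4e_an_MET.mem_conic] at h1
    exact h1
  have hE0 : ∀ x, E (lift γ σ lam x) = 0 := by
    intro x
    unfold lift
    rw [QuadraticMap.map_smul, hEΓ, smul_zero]
  have hm : ∀ x, m x = 0 := by
    intro x
    rw [conic_coef hcur hN.wr hN.smooth_r hN.ode hE1 hE0 x]
    have : r = fun _ => r 0 := funext hc
    rw [this]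
    simp
  refine ⟨fun x => ?_, hm⟩
  rw [hc x]
  refine const_period hcur fun y => ?_
  rw [hN.ode y, hm y, hc y, zero_smul, sub_zero]

end Pool.Agent.MP_ae5b4e_an_NC
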