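import Mathlib
import Pool.Agent.Lib.MP_ae5b4e_an_NC.AnaF
import Pool.Agent.Lib.MP_ae5b4e_an_NC.Fra
import Pool.Agent.Lib.MP_ae5b4e_an_RIG.CCor
import Pool.Agent.Lib.MP_ae5b4e_an_RIG.GGeo
import Pool.Agent.Lib.MP_ae5b4e_an_RIG.GMod

/-!
# MP_ae5b4e_an, project NC: the curve is close to the circle in an analytic norm

`rm_decay`: the Fourier coefficients of `r`, `m` decay exponentially, with absolute constants;
`ana`: in a suitable frame the curve is `C √ε`-close to the circle in an analytic norm.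

PROOF of `ana`.  `exists_frame`: the frame in which `P 0`, `P' 0`, `P'' 0` are those of the circle.
Then `|P - Pc|, |P' - Pc'| ≤ e ^ 42 ε` (`near_circle`) and `‖rc P k‖, ‖rc Pc k‖ ≤ C e^{-ρ|k|}`
(`ode_decay`); so `‖rc (P - Pc) k‖ ≤ C √ε e^{-ρ|k|/2} ≤ C' √ε / ((1 + |k|) ^ 3 e^{ρ|k|/4})`.
-/

noncomputable section

namespace Pool.Agent.MP_ae5b4e_an_NC

open Real Set Filter Topology MeasureTheory intervalIntegral Matrix
open scoped ContDiff
open Pool.Agent.MP_ae5b4e_an_hopf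
open Pool.Agent.MP_ae5b4e_an_RG
open Pool.Agent.MP_ae5b4e_an_RIG

private lemma abs_r_le {r ε : ℝ} (h1 : ε ≤ 1) (h : |r - 4 * π ^ 2| ≤ ε) : |r| ≤ 41 := by
  have hp := Real.pi_gt_d2
  have hp' := Real.pi_lt_d2
  have h2 := abs_le.1 h
  rw [abs_le]
  constructor <;> nlinarith

lemma NS.bnd {ε : ℝ} {P : ℝ → Fin 3 → ℝ} {U : ℝ → ℝ → ℝ} {r m : ℝ → ℝ} (h : NS ε P U r m)
    (h1 : ε ≤ 1) : Bnd 41 r m where
  r0 x := abs_r_le h1 (h.r0 x)
  r1 x := (h.r1 x).trans (by linarith)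
  r2 x := (h.r2 x).trans (by linarith)
  r3 x := (h.r3 x).trans (by linarith)
  m0 x := (h.m0 x).trans (by linarith)
  m1 x := (h.m1 x).trans (by linarith)
  m2 x := (h.m2 x).trans (by linarith)

/-- the functions `prm m`, `r - prm m` of the solutions near the circle: uniform data -/
theorem data_NS : ∃ (Cs : ℝ) (q0 : ℕ), 0 ≤ Cs ∧ ∀ (ε : ℝ) (P : ℝ → Fin 3 → ℝ) (U : ℝ → ℝ → ℝ)
    (r m : ℝ → ℝ), ε ≤ 1 → NS ε P U r m → (∫ x in (0:ℝ)..1, m x = 0) ∧ Dec 0 0 (2 * 41) (prm m) ∧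
      Dec 0 0 (2 * 41) (fun x => r x - prm m x) ∧
      ∀ p q : ℕ, PQ p q → q0 ≤ q → ∃ u, Leaf (prm m) (fun x => r x - prm m x) p q Cs u := by
  obtain ⟨Cs, q0, hCs, H⟩ := geo_unif 41 (3 / 7) (by norm_num) (by norm_num)
  refine ⟨Cs, q0, hCs, ?_⟩
  intro ε P U r m h1 h
  have hB := h.bnd h1
  obtain ⟨δ, hδ, c, hc, hst⟩ := h.step
  obtain ⟨h0, hL⟩ := H P U r m h.sys h.wr h.sr h.sm h.pr h.pm h.ode hB
    ⟨c, hc, fun t => le_trans (by linarith) (hst t)⟩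
  have hd := dec h.sr h.sm h.pr h.pm h0 hB
  exact ⟨h0, hd.1, hd.2, hL _ _ (hasDerivAt_prm h.sm) (fun _ => rfl)⟩

/-- the decay of the coefficients of `r` and `m` -/
theorem rm_decay : ∃ ρ A : ℝ, 0 < ρ ∧ 1 ≤ A ∧ ∀ (ε : ℝ) (P : ℝ → Fin 3 → ℝ) (U : ℝ → ℝ → ℝ)
    (r m : ℝ → ℝ), ε ≤ 1 → NS ε P U r m →
      (∀ N : ℕ, Dec ρ N A (prm m) ∧ Dec ρ N A (fun x => r x - prm m x)) ∧
      ∀ (N : ℕ) (k : ℤ), ‖rc r k‖ ≤ 7 * A / V ρ N 2 k ∧ ‖rc m k‖ ≤ 7 * A / V ρ N 2 k := by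
  obtain ⟨Cs, q0, hCs, H⟩ := data_NS
  obtain ⟨ρ, A, hρ, hA, HA⟩ := core_unif (2 * 41) Cs q0 (by norm_num) hCs
  refine ⟨ρ, A, hρ, hA, ?_⟩
  intro ε P U r m h1 h
  obtain ⟨h0, hd1, hd2, hL⟩ := H ε P U r m h1 h
  have hdec := HA _ _ hd1 hd2 hL
  refine ⟨hdec, ?_⟩
  intro N k
  obtain ⟨k1, k2⟩ := hdec N
  have e1 := Dec.rc_le hρ.le k1 k
  have e2 := Dec.rc_le hρ.le k2 k
  have hV2 := V_pos ρ N 2 k
  have hV3 := V_pos ρ N 3 k
  have hk := abs_nonneg (k:ℝ)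
  have e3 : (1 + |(k:ℝ)|) * ‖rc (prm m) k‖ ≤ A / V ρ N 2 k := by
    rw [le_div_iff₀ hV2]
    rw [V_succ, le_div_iff₀ (by positivity)] at e1
    linarith
  have e4 : (1 + |(k:ℝ)|) * ‖rc (fun x => r x - prm m x) k‖ ≤ A / V ρ N 2 k := by
    rw [le_div_iff₀ hV2]
    rw [V_succ, le_div_iff₀ (by positivity)] at e2
    linarith
  have n1 := norm_nonneg (rc (prm m) k)
  have n2 := norm_nonneg (rc (fun x => r x - prm m x) k)
  have hAV : 0 ≤ A / V ρ N 2 k := by positivity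
  constructor
  · have e5 := rc_sub_prm h.sr h.sm k
    have e6 : rc r k = rc (fun x => r x - prm m x) k + rc (prm m) k := by
      rw [e5]
      ring
    rw [e6]
    refine (norm_add_le _ _).trans ?_
    have e7 : 7 * A / V ρ N 2 k = 7 * (A / V ρ N 2 k) := by ring
    rw [e7]
    nlinarith
  · rw [rc_eq_prm h.sm h.pm h0 k, norm_mul]
    have e5 : ‖(2 * π * Complex.I * (k : ℂ) : ℂ)‖ = 2 * π * |(k:ℝ)| := by
      rw [norm_mul, norm_mul, norm_mul, Complex.norm_I, Complex.norm_intCast, Complex.norm_real,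
        Real.norm_of_nonneg Real.pi_pos.le]
      simp
    rw [e5]
    have hp := Real.pi_lt_d2
    have hp0 := Real.pi_pos
    have e6 : |(k:ℝ)| * ‖rc (prm m) k‖ ≤ A / V ρ N 2 k := by nlinarith
    calc 2 * π * |(k:ℝ)| * ‖rc (prm m) k‖ = 2 * π * (|(k:ℝ)| * ‖rc (prm m) k‖) := by ring
      _ ≤ 7 * (A / V ρ N 2 k) := mul_le_mul (by linarith) e6 (by positivity) (by norm_num)
      _ = 7 * A / V ρ N 2 k := by ring

/-! ### the weighted representation of smooth functions -/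

private lemma WB.add' {ρ B B' : ℝ} {b : ℕ} {f g : ℝ → ℂ} (h : WB ρ b B f) (h' : WB ρ b B' g) :
    WB ρ b (B + B') (fun x => f x + g x) := by
  obtain ⟨a, ha, hs⟩ := h
  obtain ⟨a', ha', hs'⟩ := h'
  refine ⟨fun k => a k + a' k, fun k => ?_, fun x => ?_⟩
  · refine (norm_add_le _ _).trans ?_
    rw [add_div]
    exact add_le_add (ha k) (ha' k)
  · simpa only [add_mul] using (hs x).add (hs' x)

private lemma WB.cmul' {ρ B : ℝ} {b : ℕ} {f : ℝ → ℂ} (c : ℂ) (h : WB ρ b B f) :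
    WB ρ b (‖c‖ * B) (fun x => c * f x) := by
  obtain ⟨a, ha, hs⟩ := h
  refine ⟨fun k => c * a k, fun k => ?_, fun x => ?_⟩
  · rw [norm_mul, mul_div_assoc]
    exact mul_le_mul_of_nonneg_left (ha k) (norm_nonneg c)
  · simpa only [mul_assoc] using (hs x).mul_left c

private lemma WB.mono' {ρ B B' : ℝ} {b : ℕ} {f : ℝ → ℂ} (h : WB ρ b B f) (hB : B ≤ B') :
    WB ρ b B' f := by
  obtain ⟨a, ha, hs⟩ := h
  exact ⟨a, fun k => (ha k).trans (div_le_div_of_nonneg_right hB (by positivity)), hs⟩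

private lemma WR_of_rc {ρ B : ℝ} {b : ℕ} {f : ℝ → ℝ} (hf : ContDiff ℝ ∞ f)
    (pf : Function.Periodic f 1)
    (h : ∀ k, ‖rc f k‖ ≤ B / ((1 + |(k:ℝ)|) ^ b * Real.exp (ρ * |(k:ℝ)|))) : WR ρ b B f := by
  obtain ⟨A0, hA0, hdec⟩ := dec_of_contDiff hf pf
  exact ⟨rc f, h, fun x => Dec.hasSum_rc (le_refl 0) hdec x⟩

/-- the interpolation between the smallness and the decay -/
private lemma interp {ρ : ℝ} (hρ : 0 < ρ) : ∃ C : ℝ, 0 < C ∧ ∀ (a ε B n : ℝ), 0 ≤ a → 0 ≤ ε →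
    0 ≤ B → 0 ≤ n → a ≤ B * ε → a ≤ B * Real.exp (-(ρ * n)) →
    a ≤ C * B * √ε / ((1 + n) ^ 3 * Real.exp (ρ / 4 * n)) := by
  set c : ℝ := max 1 (12 / ρ) with hc
  have hc1 : 1 ≤ c := le_max_left _ _
  have hc0 : 0 < c := by linarith
  refine ⟨c ^ 3, by positivity, ?_⟩
  intro a ε B n ha hε hB hn h1 h2
  -- `a ≤ B √ε exp (-ρ n / 2)`
  have h3 : a ≤ B * (√ε * Real.exp (-(ρ / 2 * n))) := by
    have e1 : Real.exp (-(ρ * n)) = Real.exp (-(ρ / 2 * n)) ^ 2 := by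
      rw [← Real.exp_nat_mul]
      congr 1
      push_cast
      ring
    have e2 : a ^ 2 ≤ (B * (√ε * Real.exp (-(ρ / 2 * n)))) ^ 2 := by
      have e3 : (B * (√ε * Real.exp (-(ρ / 2 * n)))) ^ 2 =
          (B * ε) * (B * Real.exp (-(ρ * n))) := by
        rw [e1, mul_pow, mul_pow, Real.sq_sqrt hε]
        ring
      rw [e3, sq]
      exact mul_le_mul h1 h2 ha (by positivity)
    exact le_of_sq_le_sq e2 (by positivity)
  have h4 : (1 + n) ^ 3 ≤ c ^ 3 * Real.exp (ρ / 4 * n) := by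
    have h5 : 1 + n ≤ c * Real.exp (ρ / 12 * n) := by
      have h6 := Real.add_one_le_exp (ρ / 12 * n)
      have h7 : 12 / ρ ≤ c := le_max_right _ _
      have h8 : n ≤ c * (ρ / 12 * n) := by
        have h9 : 12 / ρ * (ρ / 12 * n) = n := by field_simp
        calc n = 12 / ρ * (ρ / 12 * n) := h9.symm
          _ ≤ c * (ρ / 12 * n) := mul_le_mul_of_nonneg_right h7 (by positivity)
      calc 1 + n ≤ c * 1 + c * (ρ / 12 * n) := by linarith
        _ = c * (ρ / 12 * n + 1) := by ring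
        _ ≤ c * Real.exp (ρ / 12 * n) := mul_le_mul_of_nonneg_left h6 hc0.le
    have h6 : Real.exp (ρ / 4 * n) = Real.exp (ρ / 12 * n) ^ 3 := by
      rw [← Real.exp_nat_mul]
      congr 1
      push_cast
      ring
    rw [h6, ← mul_pow]
    exact pow_le_pow_left₀ (by positivity) h5 3
  rw [le_div_iff₀ (by positivity)]
  have h5 : Real.exp (-(ρ / 2 * n)) * Real.exp (ρ / 4 * n) * Real.exp (ρ / 4 * n) = 1 := by
    rw [← Real.exp_add, ← Real.exp_add, ← Real.exp_zero]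
    congr 1
    ring
  calc a * ((1 + n) ^ 3 * Real.exp (ρ / 4 * n)) ≤
      (B * (√ε * Real.exp (-(ρ / 2 * n)))) *
        ((c ^ 3 * Real.exp (ρ / 4 * n)) * Real.exp (ρ / 4 * n)) := by gcongr
    _ = c ^ 3 * B * √ε *
        (Real.exp (-(ρ / 2 * n)) * Real.exp (ρ / 4 * n) * Real.exp (ρ / 4 * n)) := by ring
    _ = c ^ 3 * B * √ε := by rw [h5, mul_one]

private lemma of_all_N {ρ a B : ℝ} {k : ℤ} (h : ∀ N : ℕ, a ≤ B / V ρ N 3 k) (hρ : 0 ≤ ρ)
    (hB : 0 ≤ B) : a ≤ B * Real.exp (-(ρ * |(k:ℝ)|)) := by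
  obtain ⟨N, hN⟩ := exists_nat_ge |(k:ℝ)|
  refine (h N).trans ?_
  unfold V w
  rw [min_eq_left hN, Real.exp_neg, div_eq_mul_inv]
  refine mul_le_mul_of_nonneg_left ?_ hB
  refine inv_anti₀ (Real.exp_pos _) ?_
  have h1 : (1:ℝ) ≤ (1 + |(k:ℝ)|) ^ 3 := one_le_pow₀ (by linarith [abs_nonneg (k:ℝ)])
  exact le_mul_of_one_le_left (Real.exp_pos _).le h1

private lemma rc_const' (c : ℝ) {ρ A : ℝ} (N : ℕ) (k : ℤ) (h : |c| ≤ A) (hA : 0 ≤ A) :
    ‖rc (fun _ => c) k‖ ≤ A / V ρ N 2 k := by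
  have h1 : rc (fun _ => c) k = (c : ℂ) * (if -k = 0 then 1 else 0) := by
    unfold rc fc
    rw [intervalIntegral.integral_const_mul, integral_e]
  rw [h1]
  rcases eq_or_ne k 0 with rfl | hk
  · rw [V_zero]
    simpa using h
  · rw [if_neg (by simpa using hk), mul_zero, norm_zero]
    have := V_pos ρ N 2 k
    positivity

private lemma rc_sub' {f g : ℝ → ℝ} (hf : Continuous f) (hg : Continuous g) (k : ℤ) :
    rc (fun x => f x - g x) k = rc f k - rc g k := by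
  have c1 : Continuous fun x : ℝ => ((f x : ℝ) : ℂ) * e (-k) x :=
    (Complex.continuous_ofReal.comp hf).mul (continuous_e (-k))
  have c2 : Continuous fun x : ℝ => ((g x : ℝ) : ℂ) * e (-k) x :=
    (Complex.continuous_ofReal.comp hg).mul (continuous_e (-k))
  unfold rc fc
  rw [← intervalIntegral.integral_sub (c1.intervalIntegrable _ _) (c2.intervalIntegrable _ _)]
  refine intervalIntegral.integral_congr fun x _ => ?_
  push_cast
  ring

private lemma hdP {P : ℝ → Fin 3 → ℝ} (h : ContDiff ℝ ∞ P) (x : ℝ) (i : Fin 3) :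
    HasDerivAt (fun x => P x i) (deriv P x i) x :=
  hasDerivAt_pi.1 ((h.differentiable (by norm_num) x).hasDerivAt) i

private lemma deriv_comp3 {P : ℝ → Fin 3 → ℝ} (h : ContDiff ℝ ∞ P) (i : Fin 3) :
    deriv (fun x => P x i) = fun x => deriv P x i :=
  funext fun x => (hdP h x i).deriv

private lemma contDiff_deriv3 {P : ℝ → Fin 3 → ℝ} (h : ContDiff ℝ ∞ P) :
    ContDiff ℝ ∞ (deriv P) := (contDiff_infty_iff_deriv.1 h).2

private lemma contDiff_Pc : ContDiff ℝ ∞ Pc := by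
  rw [contDiff_pi]
  intro i
  fin_cases i
  · show ContDiff ℝ ∞ fun x => Real.cos (2 * π * x) / (2 * π)
    fun_prop
  · show ContDiff ℝ ∞ fun x => Real.sin (2 * π * x) / (2 * π)
    fun_prop
  · exact contDiff_const

private lemma deriv_Pc : deriv Pc = Pc1 := funext fun x => (hd_Pc x).deriv

private lemma deriv_Pc1 : deriv Pc1 = Pc2 := funext fun x => (hd_Pc1 x).deriv

private lemma ode_comp3 {P : ℝ → Fin 3 → ℝ} {r m : ℝ → ℝ} (h : ContDiff ℝ ∞ P)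
    (hode : ∀ x, deriv (deriv (deriv P)) x = -(r x) • deriv P x - m x • P x) (i : Fin 3) (x : ℝ) :
    deriv (deriv (deriv (fun x => P x i))) x =
      -(r x) * deriv (fun x => P x i) x - m x * P x i := by
  rw [deriv_comp3 h, deriv_comp3 (contDiff_deriv3 h),
    deriv_comp3 (contDiff_deriv3 (contDiff_deriv3 h))]
  simp only [hode x, Pi.sub_apply, Pi.smul_apply, smul_eq_mul]

/-- the differences of the components -/
private theorem ana_comp {ρ A : ℝ} (hρ : 0 < ρ) (hA : 0 ≤ A) : ∃ C : ℝ, 0 < C ∧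
    ∀ (ε : ℝ) (P : ℝ → Fin 3 → ℝ) (U : ℝ → ℝ → ℝ) (r m : ℝ → ℝ), ε ≤ 1 → NS ε P U r m →
      (∀ (N : ℕ) (k : ℤ), ‖rc r k‖ ≤ A / V ρ N 2 k) →
      (∀ (N : ℕ) (k : ℤ), ‖rc m k‖ ≤ A / V ρ N 2 k) →
      P 0 = Pc 0 → deriv P 0 = Pc1 0 → deriv (deriv P) 0 = Pc2 0 → ∀ i : Fin 3,
      WR (ρ / 4) 2 (C * √ε) (fun x => P x i - Pc x i) ∧
      WR (ρ / 4) 2 (C * √ε) (fun x => deriv P x i - Pc1 x i) := by
  set A' : ℝ := max A (4 * π ^ 2) with hA'
  have hA'0 : 0 ≤ A' := hA.trans (le_max_left _ _)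
  obtain ⟨C1, hC1, H1⟩ := ode_decay hρ.le hA'0
  obtain ⟨C2, hC2, H2⟩ := interp hρ
  set E : ℝ := Real.exp 42 with hE
  have hE0 : 0 < E := Real.exp_pos _
  set B : ℝ := C1 * (E + 1) + C1 + E with hB
  have hB0 : 0 < B := by positivity
  refine ⟨7 * (C2 * B), by positivity, ?_⟩
  intro ε P U r m hε1 h hr hm i0 i1 i2 i
  have hε0 : 0 ≤ ε := (abs_nonneg _).trans (h.m0 0)
  have hP := h.sys.curve.smooth
  have hnear := near_circle h hε1 i0 i1 i2
  have hcomp : ∀ (v : Fin 3 → ℝ), |v i| ≤ ‖v‖ := fun v => norm_le_pi_norm v i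
  have hD0 : ∀ x, |P x i - Pc x i| ≤ E * ε := fun x =>
    (hcomp (P x - Pc x)).trans (hnear x).1
  have hf : ContDiff ℝ ∞ (fun x => P x i) := (contDiff_pi.1 hP) i
  have hg : ContDiff ℝ ∞ (fun x => Pc x i) := (contDiff_pi.1 contDiff_Pc) i
  have pf : Function.Periodic (fun x => P x i) 1 := fun x => by
    show P (x + 1) i = P x i
    rw [h.sys.curve.per]
  have pg : Function.Periodic (fun x => Pc x i) 1 := fun x => by
    show Pc (x + 1) i = Pc x i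
    rw [(Pc_per x).1]
  have hP1 : ∀ x, |P x i| ≤ E + 1 := by
    intro x
    have k1 := abs_le.1 (hD0 x)
    have k2 := abs_le.1 ((hcomp (Pc x)).trans (norm_Pc x))
    have k3 : E * ε ≤ E := by nlinarith
    rw [abs_le]
    constructor <;> linarith [k1.1, k1.2, k2.1, k2.2]
  -- decay
  have mono : ∀ (N : ℕ) (k : ℤ), A / V ρ N 2 k ≤ A' / V ρ N 2 k := fun N k =>
    div_le_div_of_nonneg_right (le_max_left _ _) (V_pos _ _ _ _).le
  have d1 : ∀ k, ‖rc (fun x => P x i) k‖ ≤ C1 * (E + 1) * Real.exp (-(ρ * |(k:ℝ)|)) := by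
    intro k
    refine of_all_N (fun N => ?_) hρ.le (by positivity)
    exact H1 N r m _ h.sr h.sm hf h.pr h.pm pf (fun k => (hr N k).trans (mono N k))
      (fun k => (hm N k).trans (mono N k)) (ode_comp3 hP h.ode i) _ hP1 k
  have d2 : ∀ k, ‖rc (fun x => Pc x i) k‖ ≤ C1 * 1 * Real.exp (-(ρ * |(k:ℝ)|)) := by
    intro k
    refine of_all_N (fun N => ?_) hρ.le (by positivity)
    refine H1 N (fun _ => 4 * π ^ 2) (fun _ => 0) _ contDiff_const contDiff_const hg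
      (fun _ => rfl) (fun _ => rfl) pg (fun k => rc_const' _ N k ?_ hA'0)
      (fun k => rc_const' _ N k ?_ hA'0) ?_ 1 (fun x => (hcomp (Pc x)).trans (norm_Pc x)) k
    · rw [abs_of_nonneg (by positivity)]
      exact le_max_right _ _
    · rw [abs_zero]
      exact hA'0
    · refine ode_comp3 contDiff_Pc (fun x => ?_) i
      rw [deriv_Pc, deriv_Pc1, (hd_Pc2 x).deriv, zero_smul, sub_zero]
  have hk : ∀ k : ℤ, ‖rc (fun x => P x i - Pc x i) k‖ ≤
      C2 * B * √ε / ((1 + |(k:ℝ)|) ^ 3 * Real.exp (ρ / 4 * |(k:ℝ)|)) := by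
    intro k
    refine H2 _ ε B _ (norm_nonneg _) hε0 hB0.le (abs_nonneg _) ?_ ?_
    · refine (rc_norm_le hD0 k).trans (mul_le_mul_of_nonneg_right ?_ hε0)
      rw [hB]
      have : 0 ≤ C1 * (E + 1) + C1 := by positivity
      linarith
    · rw [rc_sub' hf.continuous hg.continuous]
      refine (norm_sub_le _ _).trans ((add_le_add (d1 k) (d2 k)).trans ?_)
      have hx := Real.exp_pos (-(ρ * |(k:ℝ)|))
      rw [← add_mul]
      refine mul_le_mul_of_nonneg_right ?_ hx.le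
      rw [hB]
      linarith
  have hsub : ContDiff ℝ ∞ (fun x => P x i - Pc x i) := hf.sub hg
  have psub : Function.Periodic (fun x => P x i - Pc x i) 1 := fun x => by
    show P (x + 1) i - Pc (x + 1) i = P x i - Pc x i
    rw [h.sys.curve.per, (Pc_per x).1]
  have hsE : 0 ≤ C2 * B * √ε := by positivity
  have hderiv : deriv (fun x => P x i - Pc x i) = fun x => deriv P x i - Pc1 x i := by
    funext x
    have := (hdP hP x i).sub (hdP contDiff_Pc x i)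
    rw [deriv_Pc] at this
    exact this.deriv
  constructor
  · refine WR_of_rc hsub psub fun k => (hk k).trans ?_
    have hn := abs_nonneg (k:ℝ)
    have hx := Real.exp_pos (ρ / 4 * |(k:ℝ)|)
    rw [div_le_div_iff₀ (by positivity) (by positivity)]
    have e1 : (1 + |(k:ℝ)|) ^ 2 ≤ (1 + |(k:ℝ)|) ^ 3 := pow_le_pow_right₀ (by linarith) (by norm_num)
    calc C2 * B * √ε * ((1 + |(k:ℝ)|) ^ 2 * Real.exp (ρ / 4 * |(k:ℝ)|)) ≤
        C2 * B * √ε * ((1 + |(k:ℝ)|) ^ 3 * Real.exp (ρ / 4 * |(k:ℝ)|)) := by gcongr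
      _ ≤ 7 * (C2 * B) * √ε * ((1 + |(k:ℝ)|) ^ 3 * Real.exp (ρ / 4 * |(k:ℝ)|)) := by
        refine mul_le_mul_of_nonneg_right ?_ (by positivity)
        linarith
  · have hs1 : ContDiff ℝ ∞ (fun x => deriv P x i - Pc1 x i) := by
      rw [← hderiv]
      exact (contDiff_infty_iff_deriv.1 hsub).2
    have ps1 : Function.Periodic (fun x => deriv P x i - Pc1 x i) 1 := by
      rw [← hderiv]
      intro x
      have e1 : (fun y => (fun x => P x i - Pc x i) (y + 1)) = fun x => P x i - Pc x i :=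
        funext psub
      have e2 := deriv_comp_add_const (fun x => P x i - Pc x i) 1 x
      rw [e1] at e2
      exact e2.symm
    refine WR_of_rc hs1 ps1 fun k => ?_
    rw [← hderiv, rc_deriv hsub psub k, norm_mul]
    have e5 : ‖(2 * π * Complex.I * (k : ℂ) : ℂ)‖ = 2 * π * |(k:ℝ)| := by
      rw [norm_mul, norm_mul, norm_mul, Complex.norm_I, Complex.norm_intCast, Complex.norm_real,
        Real.norm_of_nonneg Real.pi_pos.le]
      simp
    rw [e5]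
    have hn := abs_nonneg (k:ℝ)
    have hx := Real.exp_pos (ρ / 4 * |(k:ℝ)|)
    have k1 := hk k
    rw [le_div_iff₀ (by positivity)] at k1 ⊢
    have hp := Real.pi_lt_d2
    have hp0 := Real.pi_pos
    have k2 : 0 ≤ ‖rc (fun x => P x i - Pc x i) k‖ := norm_nonneg _
    calc 2 * π * |(k:ℝ)| * ‖rc (fun x => P x i - Pc x i) k‖ *
          ((1 + |(k:ℝ)|) ^ 2 * Real.exp (ρ / 4 * |(k:ℝ)|)) ≤
        7 * (1 + |(k:ℝ)|) * ‖rc (fun x => P x i - Pc x i) k‖ *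
          ((1 + |(k:ℝ)|) ^ 2 * Real.exp (ρ / 4 * |(k:ℝ)|)) := by
          refine mul_le_mul_of_nonneg_right (mul_le_mul_of_nonneg_right ?_ k2) (by positivity)
          nlinarith
      _ = 7 * (‖rc (fun x => P x i - Pc x i) k‖ *
          ((1 + |(k:ℝ)|) ^ 3 * Real.exp (ρ / 4 * |(k:ℝ)|))) := by ring
      _ ≤ 7 * (C2 * B * √ε) := by linarith
      _ = 7 * (C2 * B) * √ε := by ring

/-- the curve is close to the circle in an analytic norm, for given decay of `r`, `m` -/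
theorem ana_of_decay {ρ A : ℝ} (hρ : 0 < ρ) (hA : 0 ≤ A) : ∃ C : ℝ, 0 < C ∧
    ∀ (ε : ℝ) (P : ℝ → Fin 3 → ℝ) (U : ℝ → ℝ → ℝ) (r m : ℝ → ℝ), ε ≤ 1 → NS ε P U r m →
      (∀ (N : ℕ) (k : ℤ), ‖rc r k‖ ≤ A / V ρ N 2 k) →
      (∀ (N : ℕ) (k : ℤ), ‖rc m k‖ ≤ A / V ρ N 2 k) →
      ∃ M : Matrix (Fin 3) (Fin 3) ℝ, M.det = 1 ∧ NS ε (fun x => M *ᵥ P x) U r m ∧
        Near (ρ / 4) (C * √ε) (jet (fun x => M *ᵥ P x)) := by
  obtain ⟨C, hC, H⟩ := ana_comp hρ hA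
  refine ⟨14 * C, by positivity, ?_⟩
  intro ε P U r m hε1 h hr hm
  have hε0 : 0 ≤ ε := (abs_nonneg _).trans (h.m0 0)
  obtain ⟨M, hM, hN, i0, i1, i2, -⟩ := fra h hε1
  refine ⟨M, hM, hN, ?_⟩
  set R : ℝ → Fin 3 → ℝ := fun x => M *ᵥ P x with hR
  have hP : ContDiff ℝ ∞ R := hN.sys.curve.smooth
  have key := H ε R U r m hε1 hN hr hm i0 i1 i2
  have hp := Real.pi_pos
  have hp2 := Real.pi_lt_d2
  have hCE : 0 ≤ C * √ε := by positivity
  have n2π : ‖(2 * π : ℂ)‖ ≤ 7 := by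
    rw [norm_mul, Complex.norm_real, Real.norm_of_nonneg hp.le]
    norm_num
    linarith
  have hw : ∀ {f : ℝ → ℝ}, WR (ρ / 4) 2 (C * √ε) f → WB (ρ / 4) 2 (C * √ε)
      (fun x => ((f x : ℝ) : ℂ)) := fun h => h
  have hwI : ∀ {f : ℝ → ℝ}, WR (ρ / 4) 2 (C * √ε) f → WB (ρ / 4) 2 (C * √ε)
      (fun x => Complex.I * ((f x : ℝ) : ℂ)) := fun {f} h => by
    have := WB.cmul' Complex.I (hw h)
    rwa [Complex.norm_I, one_mul] at this
  refine ⟨?_, ?_, ?_, ?_, ?_, ?_⟩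
  · have h1 := WB.cmul' (2 * π : ℂ) ((hw (key 0).1).add' (hwI (key 1).1))
    have e1 : (fun x => (jet R x).w - e 1 x) = fun x => (2 * π : ℂ) *
        (((R x 0 - Pc x 0 : ℝ) : ℂ) + Complex.I * ((R x 1 - Pc x 1 : ℝ) : ℂ)) := by
      funext x
      have hpc : (π : ℂ) ≠ 0 := by exact_mod_cast hp.ne'
      rw [e_one_eq]
      simp only [jet, Pc, Matrix.cons_val]
      push_cast
      field_simp
      ring
    rw [e1]
    refine h1.mono' ?_
    calc ‖(2 * π : ℂ)‖ * (C * √ε + C * √ε) ≤ 7 * (C * √ε + C * √ε) :=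
        mul_le_mul_of_nonneg_right n2π (by positivity)
      _ = 14 * C * √ε := by ring
  · have h1 := WB.cmul' (2 * π : ℂ) (hw (key 2).1)
    have e1 : (fun x => (((jet R x).z - 1 : ℝ) : ℂ)) = fun x => (2 * π : ℂ) *
        ((R x 2 - Pc x 2 : ℝ) : ℂ) := by
      funext x
      have hpc : (π : ℂ) ≠ 0 := by exact_mod_cast hp.ne'
      simp only [jet, Pc, Matrix.cons_val]
      push_cast
      field_simp
    unfold WR
    rw [e1]
    refine h1.mono' ?_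
    calc ‖(2 * π : ℂ)‖ * (C * √ε) ≤ 7 * (C * √ε) :=
        mul_le_mul_of_nonneg_right n2π (by positivity)
      _ ≤ 14 * C * √ε := by linarith
  · have h1 := (hw (key 0).2).add' (hwI (key 1).2)
    have e1 : (fun x => (jet R x).w1 - Complex.I * e 1 x) = fun x =>
        (((deriv R x 0 - Pc1 x 0 : ℝ) : ℂ) + Complex.I * ((deriv R x 1 - Pc1 x 1 : ℝ) : ℂ)) := by
      funext x
      rw [e_one_eq]
      simp only [jet, Pc1, Matrix.cons_val]
      push_cast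
      linear_combination (-(Complex.sin (2 * π * x))) * Complex.I_sq
    rw [e1]
    exact h1.mono' (by linarith)
  · have h1 := hw (key 2).2
    have e1 : (fun x => (((jet R x).z1 : ℝ) : ℂ)) = fun x =>
        ((deriv R x 2 - Pc1 x 2 : ℝ) : ℂ) := by
      funext x
      simp only [jet, Pc1, Matrix.cons_val]
      push_cast
      ring
    unfold WR
    rw [e1]
    exact h1.mono' (by linarith)
  · intro x
    have h0 := (hdP hP x 0).ofReal_comp
    have h1 := (hdP hP x 1).ofReal_comp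
    have h2 := (h0.add (h1.mul_const Complex.I)).const_mul (2 * π : ℂ)
    refine h2.congr_deriv ?_
    simp only [jet]
  · intro x
    have h0 := (hdP hP x 2).const_mul (2 * π)
    exact h0

/-- the curve is close to the circle in an analytic norm -/
theorem ana : ∃ ρ > 0, ∃ C > 0, ∀ ε : ℝ, 0 ≤ ε → ε ≤ 1 → ∀ (P : ℝ → Fin 3 → ℝ)
    (U : ℝ → ℝ → ℝ) (r m : ℝ → ℝ), NS ε P U r m →
      ∃ M : Matrix (Fin 3) (Fin 3) ℝ, M.det = 1 ∧ NS ε (fun x => M *ᵥ P x) U r m ∧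
        Near ρ (C * √ε) (jet (fun x => M *ᵥ P x)) := by
  obtain ⟨ρ, A, hρ, hA, H⟩ := rm_decay
  obtain ⟨C, hC, H2⟩ := ana_of_decay hρ (A := 7 * A) (by linarith)
  refine ⟨ρ / 4, by positivity, C, hC, ?_⟩
  intro ε _ hε1 P U r m h
  obtain ⟨-, h2⟩ := H ε P U r m hε1 h
  exact H2 ε P U r m hε1 h (fun N k => (h2 N k).1) (fun N k => (h2 N k).2)

end Pool.Agent.MP_ae5b4e_an_NC
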