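import Mathlib
import Pool.Agent.Lib.MP_ae5b4e_an_NC.Def
import Pool.Agent.Lib.MP_ae5b4e_an_RG.Bda

/-!
# MP_ae5b4e_an, project NC: the twelve conditions, smoothness and linearization at the circle
-/

noncomputable section

namespace Pool.Agent.MP_ae5b4e_an_NC

open Real Set Filter Topology MeasureTheory intervalIntegral
open Pool.Agent.MP_ae5b4e_an_RG

/-- coordinates of jets -/
abbrev JF := ℂ × ℝ × ℂ × ℝ

/-- coordinates of the parameters -/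
abbrev PE := Fin 6 → ℂ

def toJ (j : JF) : Jet := ⟨j.1, j.2.1, j.2.2.1, j.2.2.2⟩

def toFr (p : PE) : Frm := ⟨p 0, p 1, p 2⟩

def toPa (p : PE) : Par := ⟨p 3, p 4, p 5⟩

def aJ (z : JF × PE) : Jet := (toFr z.2).act (toJ z.1)

def cf (z : JF × PE) : ℝ × ℝ := ((aJ z).e0 (toPa z.2), (aJ z).e1 (toPa z.2))

/-- where everything is smooth -/
def UU : Set (JF × PE) := {z | (aJ z).al (toPa z.2) ≠ 0}

section smooth

variable {X : Type*} [NormedAddCommGroup X] [NormedSpace ℝ X] {s : Set X} {f : X → ℂ}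

lemma cd_re (hf : ContDiffOn ℝ 1 f s) : ContDiffOn ℝ 1 (fun x => (f x).re) s :=
  Complex.reCLM.contDiff.comp_contDiffOn hf

lemma cd_im (hf : ContDiffOn ℝ 1 f s) : ContDiffOn ℝ 1 (fun x => (f x).im) s :=
  Complex.imCLM.contDiff.comp_contDiffOn hf

lemma cd_conj (hf : ContDiffOn ℝ 1 f s) :
    ContDiffOn ℝ 1 (fun x => (starRingEnd ℂ) (f x)) s :=
  Complex.conjCLE.contDiff.comp_contDiffOn hf

lemma cd_ofReal {g : X → ℝ} (hg : ContDiffOn ℝ 1 g s) :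
    ContDiffOn ℝ 1 (fun x => (g x : ℂ)) s :=
  Complex.ofRealCLM.contDiff.comp_contDiffOn hg

lemma cd_normSq (hf : ContDiffOn ℝ 1 f s) :
    ContDiffOn ℝ 1 (fun x => Complex.normSq (f x)) s := by
  simp only [Complex.normSq_apply]
  exact ((cd_re hf).mul (cd_re hf)).add ((cd_im hf).mul (cd_im hf))

lemma cd_p (i : Fin 6) (S : Set (JF × PE)) : ContDiffOn ℝ 1 (fun z : JF × PE => z.2 i) S :=
  ((contDiff_apply ℝ ℂ i).comp contDiff_snd).contDiffOn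

variable (S : Set (JF × PE))

lemma cd_jw : ContDiffOn ℝ 1 (fun z : JF × PE => z.1.1) S := by fun_prop
lemma cd_jz : ContDiffOn ℝ 1 (fun z : JF × PE => z.1.2.1) S := by fun_prop
lemma cd_jw1 : ContDiffOn ℝ 1 (fun z : JF × PE => z.1.2.2.1) S := by fun_prop
lemma cd_jz1 : ContDiffOn ℝ 1 (fun z : JF × PE => z.1.2.2.2) S := by fun_prop

lemma cd_w : ContDiffOn ℝ 1 (fun z => (aJ z).w) S :=
  ((cd_jw S).add ((cd_p 0 S).mul (cd_conj (cd_jw S)))).add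
    ((cd_p 1 S).mul (cd_ofReal (cd_jz S)))

lemma cd_z : ContDiffOn ℝ 1 (fun z => (aJ z).z) S :=
  (cd_jz S).add (cd_re ((cd_conj (cd_p 2 S)).mul (cd_jw S)))

lemma cd_w1 : ContDiffOn ℝ 1 (fun z => (aJ z).w1) S :=
  ((cd_jw1 S).add ((cd_p 0 S).mul (cd_conj (cd_jw1 S)))).add
    ((cd_p 1 S).mul (cd_ofReal (cd_jz1 S)))

lemma cd_z1 : ContDiffOn ℝ 1 (fun z => (aJ z).z1) S :=
  (cd_jz1 S).add (cd_re ((cd_conj (cd_p 2 S)).mul (cd_jw1 S)))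

lemma cd_al : ContDiffOn ℝ 1 (fun z => (aJ z).al (toPa z.2)) S :=
  ((cd_z S).pow 2).add (cd_re ((cd_p 3 S).mul ((cd_w S).pow 2)))

lemma isOpen_UU : IsOpen UU := by
  have h : Continuous (fun z => (aJ z).al (toPa z.2)) :=
    continuousOn_univ.1 (cd_al univ).continuousOn
  exact isOpen_ne.preimage h

lemma cd_al1 : ContDiffOn ℝ 1 (fun z => (aJ z).al1 (toPa z.2)) S :=
  (contDiffOn_const.mul ((cd_z S).mul (cd_z1 S))).add
    (contDiffOn_const.mul (cd_re ((cd_p 3 S).mul ((cd_w S).mul (cd_w1 S)))))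

lemma cd_ka : ContDiffOn ℝ 1 (fun z => (aJ z).ka (toPa z.2)) UU :=
  (cd_al1 UU).div (contDiffOn_const.mul (cd_al UU)) fun _ hz => mul_ne_zero two_ne_zero hz

lemma cd_wT : ContDiffOn ℝ 1 (fun z => (aJ z).wT (toPa z.2)) UU :=
  (cd_w1 UU).sub ((cd_ofReal cd_ka).mul (cd_w UU))

lemma cd_zT : ContDiffOn ℝ 1 (fun z => (aJ z).zT (toPa z.2)) UU :=
  (cd_z1 UU).sub (cd_ka.mul (cd_z UU))

lemma cd_la : ContDiffOn ℝ 1 (fun z => (aJ z).la (toPa z.2)) UU :=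
  ((cd_zT.pow 2).add (cd_re ((cd_p 3 UU).mul (cd_wT.pow 2)))).div (cd_al UU) fun _ hz => hz

lemma cd_b1 : ContDiffOn ℝ 1 (fun z => (aJ z).b1 (toPa z.2)) UU :=
  (contDiffOn_const.mul (cd_re ((cd_conj (cd_w UU)).mul cd_wT))).sub
    (contDiffOn_const.mul ((cd_z UU).mul cd_zT))

lemma cd_b2 : ContDiffOn ℝ 1 (fun z => (aJ z).b2 (toPa z.2)) UU :=
  (cd_normSq cd_wT).sub (cd_zT.pow 2)

lemma cd_g0 : ContDiffOn ℝ 1 (fun z => (aJ z).g0 (toPa z.2)) UU :=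
  cd_re (((cd_p 4 UU).mul (((cd_w UU).pow 3).mul (cd_ofReal (cd_z UU)))).add
    ((cd_p 5 UU).mul ((cd_w UU).pow 4)))

lemma cd_g1 : ContDiffOn ℝ 1 (fun z => (aJ z).g1 (toPa z.2)) UU :=
  cd_re (((cd_p 4 UU).mul ((contDiffOn_const.mul
    ((((cd_w UU).pow 2).mul cd_wT).mul (cd_ofReal (cd_z UU)))).add
      (((cd_w UU).pow 3).mul (cd_ofReal cd_zT)))).add
    ((cd_p 5 UU).mul (contDiffOn_const.mul (((cd_w UU).pow 3).mul cd_wT))))

lemma cd_g2 : ContDiffOn ℝ 1 (fun z => (aJ z).g2 (toPa z.2)) UU :=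
  cd_re (((cd_p 4 UU).mul ((contDiffOn_const.mul
    (((cd_w UU).mul (cd_wT.pow 2)).mul (cd_ofReal (cd_z UU)))).add
      (contDiffOn_const.mul ((((cd_w UU).pow 2).mul cd_wT).mul (cd_ofReal cd_zT))))).add
    ((cd_p 5 UU).mul (contDiffOn_const.mul (((cd_w UU).pow 2).mul (cd_wT.pow 2)))))

lemma cd_g3 : ContDiffOn ℝ 1 (fun z => (aJ z).g3 (toPa z.2)) UU :=
  cd_re (((cd_p 4 UU).mul (((cd_wT.pow 3).mul (cd_ofReal (cd_z UU))).add
      (contDiffOn_const.mul (((cd_w UU).mul (cd_wT.pow 2)).mul (cd_ofReal cd_zT))))).add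
    ((cd_p 5 UU).mul (contDiffOn_const.mul ((cd_w UU).mul (cd_wT.pow 3)))))

lemma cd_e0 : ContDiffOn ℝ 1 (fun z => (aJ z).e0 (toPa z.2)) UU :=
  (cd_b1.div (cd_al UU) fun _ hz => hz).add
    (cd_g1.div ((cd_al UU).pow 2) fun _ hz => pow_ne_zero 2 hz)

lemma cd_psi2 : ContDiffOn ℝ 1 (fun z => (aJ z).psi2 (toPa z.2)) UU := by
  have hQ : ContDiffOn ℝ 1 (fun z => Q1 (aJ z).w (aJ z).z) UU :=
    (cd_normSq (cd_w UU)).sub ((cd_z UU).pow 2)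
  exact ((cd_b2.sub (cd_la.mul hQ)).div (cd_al UU) fun _ hz => hz).add
    ((cd_g2.sub (contDiffOn_const.mul (cd_la.mul cd_g0))).div ((cd_al UU).pow 2)
      fun _ hz => pow_ne_zero 2 hz)

lemma cd_G3 : ContDiffOn ℝ 1 (fun z => (aJ z).G3 (toPa z.2)) UU :=
  (cd_g3.sub (cd_la.mul cd_g1)).div ((cd_al UU).pow 2) fun _ hz => pow_ne_zero 2 hz

lemma cd_e1 : ContDiffOn ℝ 1 (fun z => (aJ z).e1 (toPa z.2)) UU :=
  ((cd_G3.sub (cd_la.mul cd_e0)).sub (contDiffOn_const.mul (cd_ka.mul cd_psi2))).add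
    ((cd_ka.pow 2).mul cd_e0)

lemma cd_cf : ContDiffOn ℝ 1 cf UU := cd_e0.prodMk cd_e1

end smooth

end Pool.Agent.MP_ae5b4e_an_NC
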