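import Mathlib
import Pool.Agent.Lib.MP_ae5b4e_an_NC.ConA

/-!
# MP_ae5b4e_an, project NC: the linearization of the defects at the circle
-/

noncomputable section

namespace Pool.Agent.MP_ae5b4e_an_NC

open Real Set Filter Topology MeasureTheory intervalIntegral
open Pool.Agent.MP_ae5b4e_an_RG

section gen

lemma hd_re {f : ℝ → ℂ} {f' : ℂ} {t : ℝ} (h : HasDerivAt f f' t) :
    HasDerivAt (fun s => (f s).re) f'.re t :=
  Complex.reCLM.hasFDerivAt.comp_hasDerivAt t h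

lemma hd_conj {f : ℝ → ℂ} {f' : ℂ} {t : ℝ} (h : HasDerivAt f f' t) :
    HasDerivAt (fun s => (starRingEnd ℂ) (f s)) ((starRingEnd ℂ) f') t :=
  Complex.conjCLE.hasFDerivAt.comp_hasDerivAt t h

lemma hd_ofReal {f : ℝ → ℝ} {f' : ℝ} {t : ℝ} (h : HasDerivAt f f' t) :
    HasDerivAt (fun s => (f s : ℂ)) (f' : ℂ) t :=
  Complex.ofRealCLM.hasFDerivAt.comp_hasDerivAt t h

/-- a path of jets and parameters which starts at the circle -/
structure Pth (J : ℝ → Jet) (θ : ℝ → Par) (E w' w1' q' c3' c4' : ℂ) (z' z1' : ℝ) : Prop where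
  hE : Complex.normSq E = 1
  w0 : (J 0).w = E
  z0 : (J 0).z = 1
  w10 : (J 0).w1 = Complex.I * E
  z10 : (J 0).z1 = 0
  q0 : (θ 0).q = 0
  c30 : (θ 0).c3 = 0
  c40 : (θ 0).c4 = 0
  w : HasDerivAt (fun t => (J t).w) w' 0
  z : HasDerivAt (fun t => (J t).z) z' 0
  w1 : HasDerivAt (fun t => (J t).w1) w1' 0
  z1 : HasDerivAt (fun t => (J t).z1) z1' 0
  q : HasDerivAt (fun t => (θ t).q) q' 0
  c3 : HasDerivAt (fun t => (θ t).c3) c3' 0
  c4 : HasDerivAt (fun t => (θ t).c4) c4' 0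

variable {J : ℝ → Jet} {θ : ℝ → Par} {E w' w1' q' c3' c4' : ℂ} {z' z1' : ℝ}

namespace Pth

variable (h : Pth J θ E w' w1' q' c3' c4' z' z1')
include h

lemma v_al : (J 0).al (θ 0) = 1 := by
  simp [Jet.al, h.z0, h.q0]

lemma v_al1 : (J 0).al1 (θ 0) = 0 := by
  simp [Jet.al1, h.z0, h.z10, h.q0]

lemma v_ka : (J 0).ka (θ 0) = 0 := by
  simp [Jet.ka, h.v_al1]

lemma v_wT : (J 0).wT (θ 0) = Complex.I * E := by
  simp [Jet.wT, h.v_ka, h.w10]

lemma v_zT : (J 0).zT (θ 0) = 0 := by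
  simp [Jet.zT, h.v_ka, h.z10]

lemma v_la : (J 0).la (θ 0) = 0 := by
  simp [Jet.la, h.v_zT, h.q0]

omit h in
lemma hreal (E : ℂ) : ((starRingEnd ℂ) E * (Complex.I * E)).re = 0 := by
  simp [Complex.mul_re, Complex.mul_im]
  ring

lemma v_b1 : (J 0).b1 (θ 0) = 0 := by
  rw [Jet.b1, h.w0, h.v_wT, h.v_zT, hreal]
  simp

lemma v_b2 : (J 0).b2 (θ 0) = 1 := by
  simp [Jet.b2, h.v_wT, h.v_zT, h.hE]

lemma v_g0 : (J 0).g0 (θ 0) = 0 := by simp [Jet.g0, h.c30, h.c40]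
lemma v_g1 : (J 0).g1 (θ 0) = 0 := by simp [Jet.g1, h.c30, h.c40]
lemma v_g2 : (J 0).g2 (θ 0) = 0 := by simp [Jet.g2, h.c30, h.c40]
lemma v_g3 : (J 0).g3 (θ 0) = 0 := by simp [Jet.g3, h.c30, h.c40]
lemma v_e0 : (J 0).e0 (θ 0) = 0 := by simp [Jet.e0, h.v_b1, h.v_g1]
lemma v_psi2 : (J 0).psi2 (θ 0) = 1 := by
  simp [Jet.psi2, h.v_b2, h.v_la, h.v_al, h.v_g2]
lemma v_G3 : (J 0).G3 (θ 0) = 0 := by simp [Jet.G3, h.v_g3, h.v_g1]
lemma v_e1 : (J 0).e1 (θ 0) = 0 := by simp [Jet.e1, h.v_G3, h.v_e0, h.v_ka]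

/-- the derivative of `ka` -/
def K (E q' : ℂ) (z1' : ℝ) : ℝ := z1' + (q' * (E * (Complex.I * E))).re

lemma d_al : HasDerivAt (fun t => (J t).al (θ t)) (2 * z' + (q' * E ^ 2).re) 0 := by
  refine ((h.z.pow 2).add (hd_re (h.q.mul (h.w.pow 2)))).congr_deriv ?_
  simp [h.z0, h.q0, h.w0]

lemma d_al1 : HasDerivAt (fun t => (J t).al1 (θ t))
    (2 * z1' + 2 * (q' * (E * (Complex.I * E))).re) 0 := by
  refine (((h.z.mul h.z1).const_mul 2).add
    ((hd_re (h.q.mul (h.w.mul h.w1))).const_mul 2)).congr_deriv ?_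
  simp [h.z0, h.z10, h.q0, h.w0, h.w10]

lemma d_ka : HasDerivAt (fun t => (J t).ka (θ t)) (K E q' z1') 0 := by
  refine (h.d_al1.div (h.d_al.const_mul 2) (by simp [h.v_al])).congr_deriv ?_
  rw [h.v_al, h.v_al1, K]
  ring

lemma d_wT : HasDerivAt (fun t => (J t).wT (θ t)) (w1' - K E q' z1' * E) 0 := by
  refine (h.w1.sub ((hd_ofReal h.d_ka).mul h.w)).congr_deriv ?_
  simp [h.v_ka, h.w0]

lemma d_zT : HasDerivAt (fun t => (J t).zT (θ t)) (z1' - K E q' z1') 0 := by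
  refine (h.z1.sub (h.d_ka.mul h.z)).congr_deriv ?_
  simp [h.v_ka, h.z0]

lemma d_la : ∃ l, HasDerivAt (fun t => (J t).la (θ t)) l 0 :=
  ⟨_, ((h.d_zT.pow 2).add (hd_re (h.q.mul (h.d_wT.pow 2)))).div h.d_al
    (by simp [h.v_al])⟩

lemma d_b1 : HasDerivAt (fun t => (J t).b1 (θ t))
    (2 * ((starRingEnd ℂ) w' * (Complex.I * E) +
      (starRingEnd ℂ) E * (w1' - K E q' z1' * E)).re - 2 * (z1' - K E q' z1')) 0 := by
  refine (((hd_re ((hd_conj h.w).mul h.d_wT)).const_mul 2).sub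
    ((h.z.mul h.d_zT).const_mul 2)).congr_deriv ?_
  simp only [h.w0, h.v_wT, h.v_zT, h.z0]
  ring

lemma d_g0 : ∃ l, HasDerivAt (fun t => (J t).g0 (θ t)) l 0 :=
  ⟨_, hd_re ((h.c3.mul ((h.w.pow 3).mul (hd_ofReal h.z))).add (h.c4.mul (h.w.pow 4)))⟩

lemma d_g1 : HasDerivAt (fun t => (J t).g1 (θ t))
    (c3' * (3 * (E ^ 2 * (Complex.I * E))) + c4' * (4 * (E ^ 3 * (Complex.I * E)))).re 0 := by
  refine (hd_re ((h.c3.mul ((((((h.w.pow 2).mul h.d_wT).mul (hd_ofReal h.z))).const_mul 3).add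
    ((h.w.pow 3).mul (hd_ofReal h.d_zT)))).add
    (h.c4.mul (((h.w.pow 3).mul h.d_wT).const_mul 4)))).congr_deriv ?_
  simp [h.c30, h.c40, h.w0, h.v_wT, h.v_zT, h.z0]

lemma d_g2 : ∃ l, HasDerivAt (fun t => (J t).g2 (θ t)) l 0 :=
  ⟨_, hd_re ((h.c3.mul (((((h.w.mul (h.d_wT.pow 2))).mul (hd_ofReal h.z)).const_mul 3).add
    ((((h.w.pow 2).mul h.d_wT).mul (hd_ofReal h.d_zT)).const_mul 3))).add
    (h.c4.mul (((h.w.pow 2).mul (h.d_wT.pow 2)).const_mul 6)))⟩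

lemma d_g3 : HasDerivAt (fun t => (J t).g3 (θ t))
    (c3' * (Complex.I * E) ^ 3 + c4' * (4 * (E * (Complex.I * E) ^ 3))).re 0 := by
  refine (hd_re ((h.c3.mul (((h.d_wT.pow 3).mul (hd_ofReal h.z)).add
      (((h.w.mul (h.d_wT.pow 2)).mul (hd_ofReal h.d_zT)).const_mul 3))).add
    (h.c4.mul ((h.w.mul (h.d_wT.pow 3)).const_mul 4)))).congr_deriv ?_
  simp [h.c30, h.c40, h.w0, h.v_wT, h.v_zT, h.z0]

lemma d_b2 : ∃ l, HasDerivAt (fun t => (J t).b2 (θ t)) l 0 := by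
  have h1 : HasDerivAt (fun t => ((J t).wT (θ t)).im)
      ((w1' - K E q' z1' * E).im) 0 := Complex.imCLM.hasFDerivAt.comp_hasDerivAt 0 h.d_wT
  have h2 := hd_re h.d_wT
  refine ⟨_, (((h2.mul h2).add (h1.mul h1)).sub (h.d_zT.pow 2)).congr_of_eventuallyEq
    (Eventually.of_forall fun t => ?_)⟩
  simp [Jet.b2, Complex.normSq_apply]

lemma d_Q1 : ∃ l, HasDerivAt (fun t => Q1 (J t).w (J t).z) l 0 := by
  have h1 : HasDerivAt (fun t => ((J t).w).im) w'.im 0 :=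
    Complex.imCLM.hasFDerivAt.comp_hasDerivAt 0 h.w
  have h2 := hd_re h.w
  refine ⟨_, (((h2.mul h2).add (h1.mul h1)).sub (h.z.pow 2)).congr_of_eventuallyEq
    (Eventually.of_forall fun t => ?_)⟩
  simp [Q1, Complex.normSq_apply]

lemma d_e0 : HasDerivAt (fun t => (J t).e0 (θ t))
    (2 * ((starRingEnd ℂ) w' * (Complex.I * E) +
      (starRingEnd ℂ) E * (w1' - K E q' z1' * E)).re - 2 * (z1' - K E q' z1') +
    (c3' * (3 * (E ^ 2 * (Complex.I * E))) + c4' * (4 * (E ^ 3 * (Complex.I * E)))).re) 0 := by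
  refine ((h.d_b1.div h.d_al (by simp [h.v_al])).add
    (h.d_g1.div (h.d_al.pow 2) (by simp [h.v_al]))).congr_deriv ?_
  simp only [Pi.pow_apply, h.v_al, h.v_b1, h.v_g1]
  ring

lemma d_psi2 : ∃ l, HasDerivAt (fun t => (J t).psi2 (θ t)) l 0 := by
  obtain ⟨l1, h1⟩ := h.d_b2
  obtain ⟨l2, h2⟩ := h.d_la
  obtain ⟨l3, h3⟩ := h.d_Q1
  obtain ⟨l4, h4⟩ := h.d_g2
  obtain ⟨l5, h5⟩ := h.d_g0
  exact ⟨_, ((h1.sub (h2.mul h3)).div h.d_al (by simp [h.v_al])).add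
    ((h4.sub ((h2.mul h5).const_mul 2)).div (h.d_al.pow 2) (by simp [h.v_al]))⟩

lemma d_G3 : HasDerivAt (fun t => (J t).G3 (θ t))
    (c3' * (Complex.I * E) ^ 3 + c4' * (4 * (E * (Complex.I * E) ^ 3))).re 0 := by
  obtain ⟨l2, h2⟩ := h.d_la
  refine ((h.d_g3.sub (h2.mul h.d_g1)).div (h.d_al.pow 2)
    (by simp [h.v_al])).congr_deriv ?_
  simp only [Pi.pow_apply, Pi.sub_apply, Pi.mul_apply, h.v_al, h.v_g3, h.v_la, h.v_g1]
  ring

lemma d_e1 : HasDerivAt (fun t => (J t).e1 (θ t))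
    ((c3' * (Complex.I * E) ^ 3 + c4' * (4 * (E * (Complex.I * E) ^ 3))).re -
      2 * K E q' z1') 0 := by
  obtain ⟨l2, h2⟩ := h.d_la
  obtain ⟨l6, h6⟩ := h.d_psi2
  refine (((h.d_G3.sub (h2.mul h.d_e0)).sub ((h.d_ka.mul h6).const_mul 2)).add
    ((h.d_ka.pow 2).mul h.d_e0)).congr_deriv ?_
  simp only [Pi.pow_apply, h.v_la, h.v_e0, h.v_ka, h.v_psi2]
  ring

end Pth

end gen

/-- the point of the circle -/
def jc (x : ℝ) : JF := (e 1 x, 1, Complex.I * e 1 x, 0)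

lemma normSq_e (x : ℝ) : Complex.normSq (e 1 x) = 1 := by
  rw [Complex.normSq_eq_norm_sq, norm_e]
  norm_num

lemma pth (x : ℝ) (p : PE) : Pth (fun t => aJ (jc x, t • p)) (fun t => toPa (t • p)) (e 1 x)
    (p 0 * (starRingEnd ℂ) (e 1 x) + p 1) (p 0 * (starRingEnd ℂ) (Complex.I * e 1 x))
    (p 3) (p 4) (p 5) ((starRingEnd ℂ) (p 2) * e 1 x).re
    ((starRingEnd ℂ) (p 2) * (Complex.I * e 1 x)).re := by
  have hc : ∀ i, HasDerivAt (fun t : ℝ => (t • p) i) (p i) 0 := by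
    intro i
    have h1 : HasDerivAt (fun t : ℝ => (t : ℂ) * p i) (1 * p i) 0 :=
      (hd_ofReal (hasDerivAt_id (0:ℝ))).mul_const (p i) |>.congr_deriv (by simp)
    rw [one_mul] at h1
    refine h1.congr_of_eventuallyEq (Eventually.of_forall fun t => ?_)
    simp
  refine ⟨normSq_e x, ?_, ?_, ?_, ?_, ?_, ?_, ?_, ?_, ?_, ?_, ?_, hc 3, hc 4, hc 5⟩
  · simp [aJ, toFr, toJ, Frm.act, jc]
  · simp [aJ, toFr, toJ, Frm.act, jc]
  · simp [aJ, toFr, toJ, Frm.act, jc]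
  · simp [aJ, toFr, toJ, Frm.act, jc]
  · simp [toPa]
  · simp [toPa]
  · simp [toPa]
  · refine ((((hc 0).mul_const ((starRingEnd ℂ) (e 1 x))).const_add (e 1 x)).add
      ((hc 1).mul_const (((1:ℝ) : ℂ)))).congr_deriv ?_
    simp
  · refine ((hd_re ((hd_conj (hc 2)).mul_const (e 1 x))).const_add (1:ℝ))
  · refine ((((hc 0).mul_const ((starRingEnd ℂ) (Complex.I * e 1 x))).const_add
      (Complex.I * e 1 x)).add ((hc 1).mul_const (((0:ℝ) : ℂ)))).congr_deriv ?_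
    simp
  · refine ((hd_re ((hd_conj (hc 2)).mul_const (Complex.I * e 1 x))).const_add (0:ℝ))

lemma mem_UU (x : ℝ) : (jc x, (0:PE)) ∈ UU := by
  have h := (pth x 0).v_al
  simp only [smul_zero] at h
  show (aJ (jc x, 0)).al (toPa 0) ≠ 0
  rw [h]
  norm_num

lemma cf_zero (x : ℝ) : cf (jc x, 0) = 0 := by
  have h1 := (pth x 0).v_e0
  have h2 := (pth x 0).v_e1
  simp only [smul_zero] at h1 h2
  exact Prod.ext h1 h2

/-- the linearization of `e0` -/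
def l0 (p : PE) (E : ℂ) : ℝ :=
  (4 * Complex.I * (starRingEnd ℂ) (p 0) * E ^ 2 +
    2 * Complex.I * ((starRingEnd ℂ) (p 1) - (starRingEnd ℂ) (p 2)) * E +
    3 * Complex.I * p 4 * E ^ 3 + 4 * Complex.I * p 5 * E ^ 4).re

/-- the linearization of `e1` -/
def l1 (p : PE) (E : ℂ) : ℝ :=
  (-(Complex.I * p 4 * E ^ 3) - 4 * Complex.I * p 5 * E ^ 4 -
    2 * Complex.I * (starRingEnd ℂ) (p 2) * E - 2 * Complex.I * p 3 * E ^ 2).re

lemma fderiv_cf (x : ℝ) (p : PE) :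
    fderiv ℝ cf (jc x, 0) (0, p) = (l0 p (e 1 x), l1 p (e 1 x)) := by
  have h1 : HasFDerivAt cf (fderiv ℝ cf (jc x, 0)) (jc x, 0) :=
    ((cd_cf.contDiffAt (isOpen_UU.mem_nhds (mem_UU x))).differentiableAt
      (by simp)).hasFDerivAt
  have h2 : HasDerivAt (fun t : ℝ => ((jc x, t • p) : JF × PE)) (0, p) 0 := by
    have h3 : HasDerivAt (fun t : ℝ => t • p) p 0 := by
      simpa using (hasDerivAt_id (0:ℝ)).smul_const p
    exact (hasDerivAt_const (0:ℝ) (jc x)).prodMk h3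
  have h4 : HasDerivAt (fun t : ℝ => cf (jc x, t • p)) (fderiv ℝ cf (jc x, 0) (0, p)) 0 := by
    have h5 : HasFDerivAt cf (fderiv ℝ cf (jc x, 0)) ((fun t : ℝ => ((jc x, t • p) : JF × PE)) 0) := by
      simpa using h1
    exact h5.comp_hasDerivAt (0:ℝ) h2
  have k := pth x p
  have h6 := k.d_e0.prodMk k.d_e1
  rw [h4.unique h6]
  have hEE : (e 1 x).re * (e 1 x).re + (e 1 x).im * (e 1 x).im = 1 := by
    rw [← Complex.normSq_apply, normSq_e]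
  set E := e 1 x with hE
  refine Prod.ext ?_ ?_
  · simp only [l0]
    set κ := Pth.K E (p 3) ((starRingEnd ℂ) (p 2) * (Complex.I * E)).re with hκ
    simp only [Complex.add_re, Complex.sub_re, Complex.mul_re, Complex.mul_im, Complex.I_re,
      Complex.I_im, Complex.conj_re, Complex.conj_im, Complex.ofReal_re, Complex.ofReal_im,
      pow_succ, pow_zero, one_mul, Complex.add_im, Complex.sub_im, Complex.re_ofNat,
      Complex.im_ofNat]
    linear_combination (-2 * κ) * hEE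
  · simp only [l1, Pth.K]
    simp only [Complex.add_re, Complex.sub_re, Complex.mul_re, Complex.mul_im, Complex.I_re,
      Complex.I_im, Complex.conj_re, Complex.conj_im, Complex.ofReal_re, Complex.ofReal_im,
      pow_succ, pow_zero, one_mul, Complex.add_im, Complex.sub_im, Complex.neg_re,
      Complex.neg_im, Complex.re_ofNat, Complex.im_ofNat]
    ring

end Pool.Agent.MP_ae5b4e_an_NC
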