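import Mathlib

/-!
# MP_ae5b4e_an, project NC (near-circle): adjusting finitely many Fourier modes

Abstract form of the contraction: `J` is a curve near `J0`, `f (J x, p)` are functions on the
circle that depend on finitely many parameters `p`, `w` are the weights of the modes; if the
linearization `A` of the modes at `J0`, `p = 0` is invertible then some `p`, `‖p‖ ≤ C ε`, makes all
the modes zero.
-/

noncomputable section

namespace Pool.Agent.MP_ae5b4e_an_NC

open Set Filter Topology MeasureTheory intervalIntegral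

theorem solve_modes {F E G : Type*} [NormedAddCommGroup F] [NormedSpace ℝ F]
    [FiniteDimensional ℝ F] [NormedAddCommGroup E] [NormedSpace ℝ E] [FiniteDimensional ℝ E]
    [Nontrivial E] [NormedAddCommGroup G] [NormedSpace ℝ G]
    {f : F × E → G} {U : Set (F × E)} (hU : IsOpen U) (hf : ContDiffOn ℝ 1 f U)
    {J0 : ℝ → F} (hJ0 : Continuous J0) (hmem : ∀ x ∈ Icc (0:ℝ) 1, (J0 x, (0:E)) ∈ U)
    (h0 : ∀ x ∈ Icc (0:ℝ) 1, f (J0 x, 0) = 0) {w : ℝ → G →L[ℝ] E} (hw : Continuous w)
    (A : E ≃L[ℝ] E)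
    (hA : ∀ p, A p = ∫ x in (0:ℝ)..1, w x (fderiv ℝ f (J0 x, 0) (0, p))) :
    ∃ C > 0, ∃ ε0 > 0, ∀ ε : ℝ, 0 ≤ ε → ε ≤ ε0 → ∀ J : ℝ → F, Continuous J →
      (∀ x ∈ Icc (0:ℝ) 1, ‖J x - J0 x‖ ≤ ε) →
      ∃ p : E, ‖p‖ ≤ C * ε ∧ (∀ x ∈ Icc (0:ℝ) 1, (J x, p) ∈ U) ∧
        ∫ x in (0:ℝ)..1, w x (f (J x, p)) = 0 := by
  have hFp : ProperSpace F := FiniteDimensional.proper ℝ F
  have hEp : ProperSpace E := FiniteDimensional.proper ℝ E
  have hEc : CompleteSpace E := FiniteDimensional.complete ℝ E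
  -- the compact set
  set K : Set (F × E) := (fun x => (J0 x, (0:E))) '' Icc (0:ℝ) 1 with hK
  have hKc : IsCompact K := isCompact_Icc.image (by fun_prop)
  have hKU : K ⊆ U := by
    rintro _ ⟨x, hx, rfl⟩
    exact hmem x hx
  obtain ⟨δ, hδ, hδU⟩ := hKc.exists_cthickening_subset_open hU hKU
  have hK'c : IsCompact (Metric.cthickening δ K) := hKc.cthickening
  have hfd : ContinuousOn (fderiv ℝ f) U := hf.continuousOn_fderiv_of_isOpen hU le_rfl
  -- constants
  obtain ⟨M, hM⟩ := hK'c.exists_bound_of_continuousOn (hfd.mono hδU)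
  obtain ⟨W, hW⟩ := (isCompact_Icc (a := (0:ℝ)) (b := 1)).exists_bound_of_continuousOn
    hw.continuousOn
  have h01 : (0:ℝ) ∈ Icc (0:ℝ) 1 := ⟨le_rfl, zero_le_one⟩
  have hW0 : 0 ≤ W := (norm_nonneg _).trans (hW 0 h01)
  have hM0 : 0 ≤ M := (norm_nonneg _).trans
    (hM (J0 0, 0) (Metric.self_subset_cthickening K ⟨0, h01, rfl⟩))
  have hAs : 0 < ‖(A.symm : E →L[ℝ] E)‖ := A.norm_symm_pos
  set N : ℝ := ‖(A.symm : E →L[ℝ] E)‖ with hN
  set c : ℝ := 1 / (2 * N * (W + 1)) with hc
  have hc0 : 0 < c := by positivity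
  have hunif := (hK'c.uniformContinuousOn_of_continuous (hfd.mono hδU))
  rw [Metric.uniformContinuousOn_iff] at hunif
  obtain ⟨ρ, hρ, hρu⟩ := hunif c hc0
  set R : ℝ := min δ ρ / 2 with hR
  have hR0 : 0 < R := by
    have : 0 < min δ ρ := lt_min hδ hρ
    positivity
  have hRδ : R < δ := by
    have : min δ ρ ≤ δ := min_le_left _ _
    have : 0 < min δ ρ := lt_min hδ hρ
    linarith
  have hRρ : R < ρ := by
    have : min δ ρ ≤ ρ := min_le_right _ _
    have : 0 < min δ ρ := lt_min hδ hρ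
    linarith
  -- points near `K`
  have hnear : ∀ x ∈ Icc (0:ℝ) 1, ∀ j : F, ∀ p : E, ‖j - J0 x‖ ≤ R → ‖p‖ ≤ R →
      (j, p) ∈ Metric.cthickening δ K ∧ dist (j, p) (J0 x, (0:E)) < ρ := by
    intro x hx j p hj hp
    have hd : dist (j, p) (J0 x, (0:E)) ≤ R := by
      rw [Prod.dist_eq]
      refine max_le ?_ ?_
      · simpa [dist_eq_norm] using hj
      · simpa [dist_eq_norm] using hp
    exact ⟨Metric.mem_cthickening_of_dist_le _ _ _ _ ⟨x, hx, rfl⟩ (hd.trans hRδ.le),
      hd.trans_lt hRρ⟩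
  refine ⟨2 * N * W * M + 1, by positivity, min R (R / (2 * N * W * M + 1)), by positivity, ?_⟩
  intro ε hε0 hε J hJ hJJ
  have hεR : ε ≤ R := hε.trans (min_le_left _ _)
  have hεR' : (2 * N * W * M + 1) * ε ≤ R := by
    have h1 := hε.trans (min_le_right _ _)
    rw [le_div_iff₀ (by positivity)] at h1
    linarith
  have hJR : ∀ x ∈ Icc (0:ℝ) 1, ‖J x - J0 x‖ ≤ R := fun x hx => (hJJ x hx).trans hεR
  set s : Set E := Metric.closedBall (0:E) R with hs
  have hsc : Convex ℝ s := convex_closedBall _ _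
  have hmem' : ∀ x ∈ Icc (0:ℝ) 1, ∀ p ∈ s, (J x, p) ∈ U := fun x hx p hp =>
    hδU (hnear x hx _ _ (hJR x hx) (mem_closedBall_zero_iff.1 hp)).1
  set Φ : E → E := fun p => ∫ x in (0:ℝ)..1, w x (f (J x, p)) with hΦ
  -- pointwise estimate
  have hpt : ∀ x ∈ Icc (0:ℝ) 1, ∀ p ∈ s, ∀ p' ∈ s,
      ‖f (J x, p) - f (J x, p') - fderiv ℝ f (J0 x, 0) (0, p - p')‖ ≤ c * ‖p - p'‖ := by
    intro x hx p hp p' hp'
    set T : E →L[ℝ] G := (fderiv ℝ f (J0 x, 0)).comp (ContinuousLinearMap.inr ℝ F E) with hT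
    have hder : ∀ z ∈ s, HasFDerivWithinAt (fun z => f (J x, z) - T z)
        ((fderiv ℝ f (J x, z)).comp (ContinuousLinearMap.inr ℝ F E) - T) s z := by
      intro z hz
      have h1 : HasFDerivAt f (fderiv ℝ f (J x, z)) (J x, z) :=
        ((hf.contDiffAt (hU.mem_nhds (hmem' x hx z hz))).differentiableAt
          (by simp)).hasFDerivAt
      have h2 : HasFDerivAt (fun z : E => (J x, z)) (ContinuousLinearMap.inr ℝ F E) z :=
        hasFDerivAt_prodMk_right (J x) z
      exact ((h1.comp z h2).sub T.hasFDerivAt).hasFDerivWithinAt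
    have hbd : ∀ z ∈ s, ‖(fderiv ℝ f (J x, z)).comp (ContinuousLinearMap.inr ℝ F E) - T‖ ≤ c := by
      intro z hz
      rw [hT, ← ContinuousLinearMap.sub_comp]
      refine (ContinuousLinearMap.opNorm_comp_le _ _).trans ?_
      have h1 := hnear x hx (J x) z (hJR x hx) (mem_closedBall_zero_iff.1 hz)
      have h2 := hρu (J x, z) h1.1 (J0 x, 0)
        (Metric.self_subset_cthickening K ⟨x, hx, rfl⟩) h1.2
      rw [dist_eq_norm] at h2
      have h3 : ‖ContinuousLinearMap.inr ℝ F E‖ ≤ 1 := ContinuousLinearMap.norm_inr_le_one ℝ F E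
      calc ‖fderiv ℝ f (J x, z) - fderiv ℝ f (J0 x, 0)‖ * ‖ContinuousLinearMap.inr ℝ F E‖
          ≤ c * 1 := mul_le_mul h2.le h3 (norm_nonneg _) hc0.le
        _ = c := mul_one c
    have := hsc.norm_image_sub_le_of_norm_hasFDerivWithin_le hder hbd hp' hp
    have e1 : f (J x, p) - f (J x, p') - fderiv ℝ f (J0 x, 0) (0, p - p') =
        (f (J x, p) - T p) - (f (J x, p') - T p') := by
      have : fderiv ℝ f (J0 x, 0) (0, p - p') = T p - T p' := by
        rw [← map_sub]
        rfl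
      rw [this]
      abel
    rw [e1]
    exact this
  -- continuity of the integrands
  have hcont : ∀ p ∈ s, ContinuousOn (fun x => w x (f (J x, p))) (Icc (0:ℝ) 1) := by
    intro p hp
    have h1 : ContinuousOn (fun x => f (J x, p)) (Icc (0:ℝ) 1) := by
      have h2 : ContinuousOn (fun x : ℝ => (J x, p)) (Icc (0:ℝ) 1) :=
        (hJ.prodMk continuous_const).continuousOn
      exact hf.continuousOn.comp h2 fun x hx => hmem' x hx p hp
    exact hw.continuousOn.clm_apply h1
  have hcontA : ∀ p, ContinuousOn (fun x => w x (fderiv ℝ f (J0 x, 0) (0, p)))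
      (Icc (0:ℝ) 1) := by
    intro p
    have h1 : ContinuousOn (fun x => fderiv ℝ f (J0 x, 0)) (Icc (0:ℝ) 1) := by
      have h2 : ContinuousOn (fun x : ℝ => (J0 x, (0:E))) (Icc (0:ℝ) 1) :=
        (hJ0.prodMk continuous_const).continuousOn
      exact hfd.comp h2 fun x hx => hmem x hx
    exact hw.continuousOn.clm_apply (h1.clm_apply continuousOn_const)
  have hint : ∀ {g : ℝ → E}, ContinuousOn g (Icc (0:ℝ) 1) → IntervalIntegrable g volume 0 1 := by
    intro g hg
    exact ContinuousOn.intervalIntegrable (by rwa [uIcc_of_le zero_le_one])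
  -- the integrated estimate
  have happ : ApproximatesLinearOn Φ (A : E →L[ℝ] E) s (Real.toNNReal (W * c)) := by
    intro p hp p' hp'
    have e1 : Φ p - Φ p' - (A : E →L[ℝ] E) (p - p') = ∫ x in (0:ℝ)..1,
        w x (f (J x, p) - f (J x, p') - fderiv ℝ f (J0 x, 0) (0, p - p')) := by
      have e2 : (A : E →L[ℝ] E) (p - p') = ∫ x in (0:ℝ)..1,
          w x (fderiv ℝ f (J0 x, 0) (0, p - p')) := hA (p - p')
      rw [e2]
      simp only [hΦ]
      rw [← intervalIntegral.integral_sub (hint (hcont p hp)) (hint (hcont p' hp')),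
        ← intervalIntegral.integral_sub
          (hint (show ContinuousOn (fun x => w x (f (J x, p)) - w x (f (J x, p'))) (Icc (0:ℝ) 1)
            from (hcont p hp).sub (hcont p' hp'))) (hint (hcontA _))]
      refine intervalIntegral.integral_congr fun x _ => ?_
      simp only [map_sub]
    rw [e1]
    have h1 := intervalIntegral.norm_integral_le_of_norm_le_const (a := 0) (b := 1)
      (C := W * (c * ‖p - p'‖))
      (f := fun x => w x (f (J x, p) - f (J x, p') - fderiv ℝ f (J0 x, 0) (0, p - p')))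
      fun x hx => by
        rw [uIoc_of_le zero_le_one] at hx
        have hx' : x ∈ Icc (0:ℝ) 1 := ⟨hx.1.le, hx.2⟩
        refine (ContinuousLinearMap.le_opNorm _ _).trans ?_
        exact mul_le_mul (hW x hx') (hpt x hx' p hp p' hp') (norm_nonneg _) hW0
    rw [sub_zero, abs_one, mul_one] at h1
    rw [Real.coe_toNNReal _ (by positivity)]
    linarith
  -- the value at zero
  have hzero : ‖Φ 0‖ ≤ W * (M * ε) := by
    have hz : (0:E) ∈ s := by
      rw [hs]
      exact Metric.mem_closedBall_self hR0.le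
    have h1 := intervalIntegral.norm_integral_le_of_norm_le_const (a := 0) (b := 1)
      (C := W * (M * ε)) (f := fun x => w x (f (J x, 0)))
      fun x hx => by
        rw [uIoc_of_le zero_le_one] at hx
        have hx' : x ∈ Icc (0:ℝ) 1 := ⟨hx.1.le, hx.2⟩
        refine (ContinuousLinearMap.le_opNorm _ _).trans ?_
        refine mul_le_mul (hW x hx') ?_ (norm_nonneg _) hW0
        -- `f` is Lipschitz in `j`
        set B : Set F := Metric.closedBall (J0 x) R with hB
        have hBm : ∀ j ∈ B, (j, (0:E)) ∈ Metric.cthickening δ K := fun j hj =>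
          (hnear x hx' j 0 (by rwa [hB, mem_closedBall_iff_norm] at hj) (by simpa using hR0.le)).1
        have hder : ∀ j ∈ B, HasFDerivWithinAt (fun j => f (j, (0:E)))
            ((fderiv ℝ f (j, 0)).comp (ContinuousLinearMap.inl ℝ F E)) B j := by
          intro j hj
          have h1 : HasFDerivAt f (fderiv ℝ f (j, 0)) (j, 0) :=
            ((hf.contDiffAt (hU.mem_nhds (hδU (hBm j hj)))).differentiableAt
              (by simp)).hasFDerivAt
          have h2 : HasFDerivAt (fun j : F => (j, (0:E))) (ContinuousLinearMap.inl ℝ F E) j :=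
            hasFDerivAt_prodMk_left j (0:E)
          exact (h1.comp j h2).hasFDerivWithinAt
        have hbd : ∀ j ∈ B, ‖(fderiv ℝ f (j, 0)).comp (ContinuousLinearMap.inl ℝ F E)‖ ≤ M := by
          intro j hj
          refine (ContinuousLinearMap.opNorm_comp_le _ _).trans ?_
          have h3 : ‖ContinuousLinearMap.inl ℝ F E‖ ≤ 1 :=
            ContinuousLinearMap.norm_inl_le_one ℝ F E
          calc ‖fderiv ℝ f (j, 0)‖ * ‖ContinuousLinearMap.inl ℝ F E‖
              ≤ M * 1 := mul_le_mul (hM _ (hBm j hj)) h3 (norm_nonneg _) hM0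
            _ = M := mul_one M
        have h4 := (convex_closedBall (J0 x) R).norm_image_sub_le_of_norm_hasFDerivWithin_le
          hder hbd (Metric.mem_closedBall_self hR0.le)
          (show J x ∈ B by rw [hB, mem_closedBall_iff_norm]; exact hJR x hx')
        rw [h0 x hx', sub_zero] at h4
        exact h4.trans (mul_le_mul_of_nonneg_left (hJJ x hx') hM0)
    rw [sub_zero, abs_one, mul_one] at h1
    exact h1
  -- surjectivity
  set R' : ℝ := 2 * N * W * M * ε with hR'
  have hR'0 : 0 ≤ R' := by positivity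
  have hR'R : R' ≤ R := by
    refine le_trans ?_ hεR'
    rw [hR']
    nlinarith
  have hsurj := happ.surjOn_closedBall_of_nonlinearRightInverse
    (A.toNonlinearRightInverse) (ε := R') (b := 0) hR'0
    (by rw [hs]; exact Metric.closedBall_subset_closedBall hR'R)
  have hnn : ((A.toNonlinearRightInverse).nnnorm : ℝ) = N := rfl
  rw [hnn, Real.coe_toNNReal _ (by positivity)] at hsurj
  have hWc : W * c ≤ N⁻¹ / 2 := by
    rw [hc]
    have h1 : W * (1 / (2 * N * (W + 1))) = (W / (W + 1)) * (N⁻¹ / 2) := by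
      field_simp
    rw [h1]
    have h2 : W / (W + 1) ≤ 1 := by
      rw [div_le_one (by positivity)]
      linarith
    have h3 : 0 ≤ N⁻¹ / 2 := by positivity
    nlinarith
  have hz0 : (0:E) ∈ Metric.closedBall (Φ 0) ((N⁻¹ - W * c) * R') := by
    rw [mem_closedBall_iff_norm, zero_sub, norm_neg]
    refine hzero.trans ?_
    have h1 : N⁻¹ / 2 * R' ≤ (N⁻¹ - W * c) * R' :=
      mul_le_mul_of_nonneg_right (by linarith) hR'0
    refine le_trans (le_of_eq ?_) h1
    rw [hR']
    field_simp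
  obtain ⟨p, hp, hp0⟩ := hsurj hz0
  have hpn : ‖p‖ ≤ R' := mem_closedBall_zero_iff.1 hp
  refine ⟨p, ?_, fun x hx => hmem' x hx p ?_, hp0⟩
  · refine hpn.trans ?_
    rw [hR']
    nlinarith
  · rw [hs]
    exact mem_closedBall_zero_iff.2 (hpn.trans hR'R)

end Pool.Agent.MP_ae5b4e_an_NC
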