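import Mathlib
import Pool.Agent.Lib.MP_ae5b4e_an_NC.Solve
import Pool.Agent.Lib.MP_ae5b4e_an_NC.ConB

/-!
# MP_ae5b4e_an, project NC: the choice of the frame and of the forms (section 4)

For a curve near the circle there are a frame `g` and parameters `θ` of the forms, of the size
`O(ε)`, for which the twelve conditions hold.
-/

noncomputable section

namespace Pool.Agent.MP_ae5b4e_an_NC

open Real Set Filter Topology MeasureTheory intervalIntegral
open Pool.Agent.MP_ae5b4e_an_RG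

lemma fc_ce (c : ℂ) (k n : ℤ) : fc (fun x => c * e k x) n = if k = n then c else 0 := by
  unfold fc
  have h : ∀ x, c * e k x * e (-n) x = c * e (k + -n) x := fun x => by
    rw [e_add]
    ring
  simp only [h]
  rw [intervalIntegral.integral_const_mul, integral_e]
  by_cases hk : k = n
  · rw [if_pos (by omega), if_pos hk, mul_one]
  · rw [if_neg (by omega), if_neg hk, mul_zero]

lemma fc_sum {m : ℕ} (c : Fin m → ℂ) (k : Fin m → ℤ) (n : ℤ) :
    fc (fun x => ∑ i, c i * e (k i) x) n = ∑ i, if k i = n then c i else 0 := by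
  have h : fc (fun x => ∑ i, c i * e (k i) x) n = ∑ i, fc (fun x => c i * e (k i) x) n := by
    unfold fc
    rw [← intervalIntegral.integral_finsetSum]
    · refine intervalIntegral.integral_congr fun x _ => ?_
      simp only [Finset.sum_mul]
    · intro i _
      exact ((continuous_const.mul (continuous_e _)).mul (continuous_e _)).intervalIntegrable _ _
  rw [h]
  exact Finset.sum_congr rfl fun i _ => fc_ce _ _ _

lemma e_pow (x : ℝ) (k : ℕ) : e 1 x ^ k = e k x := by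
  unfold e
  rw [← Complex.exp_nat_mul]
  congr 1
  push_cast
  ring

lemma e_conj (k : ℤ) (x : ℝ) : (starRingEnd ℂ) (e k x) = e (-k) x := by
  unfold e
  rw [← Complex.exp_conj]
  congr 1
  simp [map_ofNat]

/-- the Fourier coefficients of the real part of a trigonometric polynomial -/
lemma rc_poly (a1 a2 a3 a4 : ℂ) {n : ℤ} (hn : 0 < n) :
    fc (fun x => (((a1 * e 1 x + a2 * e 1 x ^ 2 + a3 * e 1 x ^ 3 + a4 * e 1 x ^ 4).re : ℝ) : ℂ)) n =
      (if n = 1 then a1 / 2 else 0) + (if n = 2 then a2 / 2 else 0) +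
      (if n = 3 then a3 / 2 else 0) + (if n = 4 then a4 / 2 else 0) := by
  have h : (fun x => (((a1 * e 1 x + a2 * e 1 x ^ 2 + a3 * e 1 x ^ 3 + a4 * e 1 x ^ 4).re : ℝ) : ℂ))
      = fun x => (a1 / 2 * e 1 x + a2 / 2 * e 2 x + (a3 / 2 * e 3 x + a4 / 2 * e 4 x)) +
        ((starRingEnd ℂ) a1 / 2 * e (-1) x + (starRingEnd ℂ) a2 / 2 * e (-2) x +
        ((starRingEnd ℂ) a3 / 2 * e (-3) x + (starRingEnd ℂ) a4 / 2 * e (-4) x)) := by
    funext x
    rw [Complex.re_eq_add_conj]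
    simp only [map_add, map_mul, map_pow, e_conj]
    have k2 : e 1 x ^ 2 = e 2 x := e_pow x 2
    have k3 : e 1 x ^ 3 = e 3 x := e_pow x 3
    have k4 : e 1 x ^ 4 = e 4 x := e_pow x 4
    have l2 : e (-1) x ^ 2 = e (-2) x := by
      rw [← e_conj, ← map_pow, k2, e_conj]
    have l3 : e (-1) x ^ 3 = e (-3) x := by
      rw [← e_conj, ← map_pow, k3, e_conj]
    have l4 : e (-1) x ^ 4 = e (-4) x := by
      rw [← e_conj, ← map_pow, k4, e_conj]
    rw [k2, k3, k4, l2, l3, l4]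
    ring
  have h' : (fun x => (a1 / 2 * e 1 x + a2 / 2 * e 2 x + (a3 / 2 * e 3 x + a4 / 2 * e 4 x)) +
        ((starRingEnd ℂ) a1 / 2 * e (-1) x + (starRingEnd ℂ) a2 / 2 * e (-2) x +
        ((starRingEnd ℂ) a3 / 2 * e (-3) x + (starRingEnd ℂ) a4 / 2 * e (-4) x))) =
      fun x => ∑ i : Fin 8, (![a1 / 2, a2 / 2, a3 / 2, a4 / 2, (starRingEnd ℂ) a1 / 2,
        (starRingEnd ℂ) a2 / 2, (starRingEnd ℂ) a3 / 2, (starRingEnd ℂ) a4 / 2] i) *
        e ((![1, 2, 3, 4, -1, -2, -3, -4] : Fin 8 → ℤ) i) x := by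
    funext x
    rw [Fin.sum_univ_eight]
    simp
    ring
  rw [h, h', fc_sum, Fin.sum_univ_eight]
  have z1 : ¬ ((-1 : ℤ) = n) := by omega
  have z2 : ¬ ((-2 : ℤ) = n) := by omega
  have z3 : ¬ ((-3 : ℤ) = n) := by omega
  have z4 : ¬ ((-4 : ℤ) = n) := by omega
  simp [z1, z2, z3, z4, eq_comm (a := n)]

/-- the linearization of the conditions -/
def AL : PE ≃ₗ[ℝ] PE where
  toFun p := ![Complex.I * ((starRingEnd ℂ) (p 1) - (starRingEnd ℂ) (p 2)),
    2 * Complex.I * (starRingEnd ℂ) (p 0), -(Complex.I * (starRingEnd ℂ) (p 2)),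
    -(Complex.I * p 3), -(Complex.I * p 4) / 2, -(2 * Complex.I * p 5)]
  map_add' p p' := by
    ext i
    fin_cases i <;> simp <;> ring
  map_smul' c p := by
    ext i
    fin_cases i <;> simp <;> ring
  invFun a := ![Complex.I * (starRingEnd ℂ) (a 1) / 2,
    Complex.I * (starRingEnd ℂ) (a 0) - Complex.I * (starRingEnd ℂ) (a 2),
    -(Complex.I * (starRingEnd ℂ) (a 2)), Complex.I * a 3, 2 * Complex.I * a 4,
    Complex.I * a 5 / 2]
  left_inv p := by
    have hI : Complex.I * Complex.I = -1 := Complex.I_mul_I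
    ext i
    fin_cases i
    · simp [map_ofNat]
      linear_combination (-(p 0)) * hI
    · simp [map_ofNat]
      linear_combination (-(p 1)) * hI
    · simp [map_ofNat]
      linear_combination (-(p 2)) * hI
    · simp [map_ofNat]
      linear_combination (-(p 3)) * hI
    · simp [map_ofNat]
      linear_combination (-(p 4)) * hI
    · simp [map_ofNat]
      linear_combination (-(p 5)) * hI
  right_inv a := by
    have hI : Complex.I * Complex.I = -1 := Complex.I_mul_I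
    ext i
    fin_cases i
    · simp [map_ofNat]
      linear_combination (-(a 0)) * hI
    · simp [map_ofNat]
      linear_combination (-(a 1)) * hI
    · simp [map_ofNat]
      linear_combination (-(a 2)) * hI
    · simp [map_ofNat]
      linear_combination (-(a 3)) * hI
    · simp [map_ofNat]
      linear_combination (-(a 4)) * hI
    · simp [map_ofNat]
      linear_combination (-(a 5)) * hI

def nn : Fin 6 → ℤ := ![1, 2, 1, 2, 3, 4]

def sel : Fin 6 → (ℝ × ℝ →L[ℝ] ℝ) :=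
  ![ContinuousLinearMap.fst ℝ ℝ ℝ, ContinuousLinearMap.fst ℝ ℝ ℝ, ContinuousLinearMap.snd ℝ ℝ ℝ,
    ContinuousLinearMap.snd ℝ ℝ ℝ, ContinuousLinearMap.snd ℝ ℝ ℝ, ContinuousLinearMap.snd ℝ ℝ ℝ]

/-- the weights of the modes -/
def ww (x : ℝ) : ℝ × ℝ →L[ℝ] PE :=
  ContinuousLinearMap.pi fun i => e (-(nn i)) x • (Complex.ofRealCLM.comp (sel i))

lemma ww_apply (x : ℝ) (a : ℝ × ℝ) (i : Fin 6) :
    ww x a i = e (-(nn i)) x * ((sel i a : ℝ) : ℂ) := rfl

lemma continuous_ww : Continuous ww := by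
  refine continuous_clm_apply.2 fun a => continuous_pi fun i => ?_
  simp only [ww_apply]
  exact (continuous_e _).mul continuous_const

lemma continuous_l0 (p : PE) : Continuous fun x => l0 p (e 1 x) := by
  have := continuous_e 1
  unfold l0
  exact Complex.continuous_re.comp (by fun_prop)

lemma continuous_l1 (p : PE) : Continuous fun x => l1 p (e 1 x) := by
  have := continuous_e 1
  unfold l1
  exact Complex.continuous_re.comp (by fun_prop)

lemma fc_l0 (p : PE) {n : ℤ} (hn : 0 < n) : fc (fun x => ((l0 p (e 1 x) : ℝ) : ℂ)) n =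
    (if n = 1 then Complex.I * ((starRingEnd ℂ) (p 1) - (starRingEnd ℂ) (p 2)) else 0) +
    (if n = 2 then 2 * Complex.I * (starRingEnd ℂ) (p 0) else 0) +
    (if n = 3 then 3 * Complex.I * p 4 / 2 else 0) +
    (if n = 4 then 2 * Complex.I * p 5 else 0) := by
  have h : (fun x => ((l0 p (e 1 x) : ℝ) : ℂ)) = fun x =>
      ((((2 * Complex.I * ((starRingEnd ℂ) (p 1) - (starRingEnd ℂ) (p 2))) * e 1 x +
        (4 * Complex.I * (starRingEnd ℂ) (p 0)) * e 1 x ^ 2 + (3 * Complex.I * p 4) * e 1 x ^ 3 +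
        (4 * Complex.I * p 5) * e 1 x ^ 4).re : ℝ) : ℂ) := by
    funext x
    unfold l0
    congr 2
    ring
  rw [h, rc_poly _ _ _ _ hn]
  split_ifs <;> ring

lemma fc_l1 (p : PE) {n : ℤ} (hn : 0 < n) : fc (fun x => ((l1 p (e 1 x) : ℝ) : ℂ)) n =
    (if n = 1 then -(Complex.I * (starRingEnd ℂ) (p 2)) else 0) +
    (if n = 2 then -(Complex.I * p 3) else 0) +
    (if n = 3 then -(Complex.I * p 4) / 2 else 0) +
    (if n = 4 then -(2 * Complex.I * p 5) else 0) := by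
  have h : (fun x => ((l1 p (e 1 x) : ℝ) : ℂ)) = fun x =>
      ((((-(2 * Complex.I * (starRingEnd ℂ) (p 2))) * e 1 x +
        (-(2 * Complex.I * p 3)) * e 1 x ^ 2 + (-(Complex.I * p 4)) * e 1 x ^ 3 +
        (-(4 * Complex.I * p 5)) * e 1 x ^ 4).re : ℝ) : ℂ) := by
    funext x
    unfold l1
    congr 2
    ring
  rw [h, rc_poly _ _ _ _ hn]
  split_ifs <;> ring

lemma AL_eq (p : PE) : (AL.toContinuousLinearEquiv : PE ≃L[ℝ] PE) p =
    ∫ x in (0:ℝ)..1, ww x (fderiv ℝ cf (jc x, 0) (0, p)) := by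
  have hc : Continuous fun x => ww x (l0 p (e 1 x), l1 p (e 1 x)) :=
    continuous_ww.clm_apply ((continuous_l0 p).prodMk (continuous_l1 p))
  simp only [fderiv_cf]
  funext i
  have h1 := ContinuousLinearMap.intervalIntegral_comp_comm (μ := volume) (a := 0) (b := 1)
    (ContinuousLinearMap.proj (R := ℝ) (φ := fun _ : Fin 6 => ℂ) i)
    (hc.intervalIntegrable 0 1)
  have h2 : (∫ x in (0:ℝ)..1, ww x (l0 p (e 1 x), l1 p (e 1 x))) i =
      ∫ x in (0:ℝ)..1, ww x (l0 p (e 1 x), l1 p (e 1 x)) i := h1.symm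
  rw [h2]
  simp only [ww_apply]
  have k0 : ∀ n : ℤ, (∫ x in (0:ℝ)..1, e (-n) x * ((l0 p (e 1 x) : ℝ) : ℂ)) =
      fc (fun x => ((l0 p (e 1 x) : ℝ) : ℂ)) n := fun n =>
    intervalIntegral.integral_congr fun x _ => mul_comm _ _
  have k1 : ∀ n : ℤ, (∫ x in (0:ℝ)..1, e (-n) x * ((l1 p (e 1 x) : ℝ) : ℂ)) =
      fc (fun x => ((l1 p (e 1 x) : ℝ) : ℂ)) n := fun n =>
    intervalIntegral.integral_congr fun x _ => mul_comm _ _
  fin_cases i
  · refine Eq.trans ?_ (k0 1).symm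
    rw [fc_l0 p (by norm_num)]
    simp [AL]
  · refine Eq.trans ?_ (k0 2).symm
    rw [fc_l0 p (by norm_num)]
    simp [AL]
  · refine Eq.trans ?_ (k1 1).symm
    rw [fc_l1 p (by norm_num)]
    simp [AL]
  · refine Eq.trans ?_ (k1 2).symm
    rw [fc_l1 p (by norm_num)]
    simp [AL]
  · refine Eq.trans ?_ (k1 3).symm
    rw [fc_l1 p (by norm_num)]
    simp [AL]
  · refine Eq.trans ?_ (k1 4).symm
    rw [fc_l1 p (by norm_num)]
    simp [AL]

/-- The frame and the forms. -/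
theorem con : ∃ C > 0, ∃ ε0 > 0, ∀ ε : ℝ, 0 ≤ ε → ε ≤ ε0 → ∀ J : ℝ → Jet,
    Continuous (fun x => (J x).w) → Continuous (fun x => (J x).z) →
    Continuous (fun x => (J x).w1) → Continuous (fun x => (J x).z1) →
    (∀ x ∈ Icc (0:ℝ) 1, ‖(J x).w - e 1 x‖ ≤ ε) → (∀ x ∈ Icc (0:ℝ) 1, |(J x).z - 1| ≤ ε) →
    (∀ x ∈ Icc (0:ℝ) 1, ‖(J x).w1 - Complex.I * e 1 x‖ ≤ ε) →
    (∀ x ∈ Icc (0:ℝ) 1, |(J x).z1| ≤ ε) →
    ∃ (g : Frm) (θ : Par), ‖g.s‖ ≤ C * ε ∧ ‖g.x‖ ≤ C * ε ∧ ‖g.y‖ ≤ C * ε ∧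
      θ.Small (C * ε) ∧ Cond (fun x => g.act (J x)) θ := by
  have hjc : Continuous jc := by
    have := continuous_e 1
    unfold jc
    fun_prop
  obtain ⟨C, hC, ε0, hε0, H⟩ := solve_modes (f := cf) isOpen_UU cd_cf hjc
    (fun x _ => mem_UU x) (fun x _ => cf_zero x) continuous_ww AL.toContinuousLinearEquiv AL_eq
  refine ⟨C, hC, ε0, hε0, fun ε h0 h1 J cw cz cw1 cz1 bw bz bw1 bz1 => ?_⟩
  set Jf : ℝ → JF := fun x => ((J x).w, (J x).z, (J x).w1, (J x).z1) with hJf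
  have hJc : Continuous Jf := cw.prodMk (cz.prodMk (cw1.prodMk cz1))
  obtain ⟨p, hp, hU, hz⟩ := H ε h0 h1 Jf hJc (fun x hx => by
    rw [norm_prod_le_iff, norm_prod_le_iff, norm_prod_le_iff]
    refine ⟨bw x hx, bz x hx, bw1 x hx, ?_⟩
    have := bz1 x hx
    simpa [hJf, jc] using this)
  have hpi : ∀ i, ‖p i‖ ≤ C * ε := fun i => (norm_le_pi_norm p i).trans hp
  refine ⟨toFr p, toPa p, hpi 0, hpi 1, hpi 2, ⟨hpi 3, hpi 4, hpi 5⟩, ?_⟩
  -- the modes
  have hcont : ContinuousOn (fun x => ww x (cf (Jf x, p))) (Icc (0:ℝ) 1) := by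
    have h2 : ContinuousOn (fun x => cf (Jf x, p)) (Icc (0:ℝ) 1) :=
      cd_cf.continuousOn.comp (hJc.prodMk continuous_const).continuousOn fun x hx => hU x hx
    exact continuous_ww.continuousOn.clm_apply h2
  have hint : IntervalIntegrable (fun x => ww x (cf (Jf x, p))) volume 0 1 :=
    ContinuousOn.intervalIntegrable (by rwa [uIcc_of_le zero_le_one])
  have hcomp : ∀ i, ∫ x in (0:ℝ)..1, ww x (cf (Jf x, p)) i = 0 := by
    intro i
    have h1 := ContinuousLinearMap.intervalIntegral_comp_comm (μ := volume) (a := 0) (b := 1)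
      (ContinuousLinearMap.proj (R := ℝ) (φ := fun _ : Fin 6 => ℂ) i) hint
    rw [hz] at h1
    exact h1
  have key0 : ∀ n : ℤ, (∫ x in (0:ℝ)..1, e (-n) x * (((aJ (Jf x, p)).e0 (toPa p) : ℝ) : ℂ)) =
      rc (fun x => ((toFr p).act (J x)).e0 (toPa p)) n := fun n =>
    intervalIntegral.integral_congr fun x _ => mul_comm _ _
  have key1 : ∀ n : ℤ, (∫ x in (0:ℝ)..1, e (-n) x * (((aJ (Jf x, p)).e1 (toPa p) : ℝ) : ℂ)) =
      rc (fun x => ((toFr p).act (J x)).e1 (toPa p)) n := fun n =>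
    intervalIntegral.integral_congr fun x _ => mul_comm _ _
  exact ⟨(key0 1).symm.trans (hcomp 0), (key0 2).symm.trans (hcomp 1),
    (key1 1).symm.trans (hcomp 2), (key1 2).symm.trans (hcomp 3),
    (key1 3).symm.trans (hcomp 4), (key1 4).symm.trans (hcomp 5)⟩

end Pool.Agent.MP_ae5b4e_an_NC
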