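import Mathlib
import Pool.Agent.Lib.MP_ae5b4e_an_RG.Bda
import Pool.Agent.Lib.MP_ae5b4e_an_NC.Tel

/-!
# MP_ae5b4e_an, project NC: the laws of finitely many leaves

Text: `/team-store/POR_NC_h73.md`, (5.4).
-/

noncomputable section

namespace Pool.Agent.MP_ae5b4e_an_NC

open Real Set Filter Topology MeasureTheory intervalIntegral
open Pool.Agent.MP_ae5b4e_an_hopf
open Pool.Agent.MP_ae5b4e_an_RG

private lemma wt_pos (ρ : ℝ) (b : ℕ) (k : ℤ) :
    0 < (1 + |(k:ℝ)|) ^ b * Real.exp (ρ * |(k:ℝ)|) := by positivity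

private lemma wb_nonneg {ρ : ℝ} {b : ℕ} {B : ℝ} {f : ℝ → ℂ} (h : WB ρ b B f) : 0 ≤ B := by
  obtain ⟨a, ha, -⟩ := h
  have h1 := (norm_nonneg (a 0)).trans (ha 0)
  by_contra hM
  rw [not_le] at hM
  have := div_neg_of_neg_of_pos hM (wt_pos ρ b 0)
  linarith

private lemma wb_bd {ρ : ℝ} (hρ : 0 ≤ ρ) {b : ℕ} (hb : 2 ≤ b) {B : ℝ} {f : ℝ → ℂ}
    (h : WB ρ b B f) : Bd 0 0 B f := by
  have hB := wb_nonneg h
  obtain ⟨a, ha, hs⟩ := h
  refine ⟨a, fun k => (ha k).trans ?_, hs⟩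
  apply div_le_div_of_nonneg_left hB (V_pos 0 0 2 k)
  unfold V w
  have h1 : (1:ℝ) ≤ 1 + |(k:ℝ)| := by linarith [abs_nonneg (k:ℝ)]
  apply mul_le_mul (pow_le_pow_right₀ h1 hb) _ (by positivity) (by positivity)
  apply Real.exp_le_exp.mpr
  rw [zero_mul]
  positivity

private lemma wb_mono {ρ : ℝ} {b b' : ℕ} (hb : b' ≤ b) {B : ℝ} {f : ℝ → ℂ}
    (h : WB ρ b B f) : WB ρ b' B f := by
  have hB := wb_nonneg h
  obtain ⟨a, ha, hs⟩ := h
  refine ⟨a, fun k => (ha k).trans ?_, hs⟩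
  apply div_le_div_of_nonneg_left hB (wt_pos ρ b' k)
  have h1 : (1:ℝ) ≤ 1 + |(k:ℝ)| := by linarith [abs_nonneg (k:ℝ)]
  exact mul_le_mul_of_nonneg_right (pow_le_pow_right₀ h1 hb) (Real.exp_pos _).le

private lemma e_sub (k : ℤ) (x y : ℝ) : ‖e k x - e k y‖ ≤ 2 * π * |(k:ℝ)| * |x - y| := by
  have h1 : e k x = e k y * e k (x - y) := by
    rw [← e_shift]
    congr 1
    ring
  have h2 : e k x - e k y = e k y * (e k (x - y) - 1) := by
    rw [h1]
    ring
  rw [h2, norm_mul, norm_e, one_mul]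
  have h3 : e k (x - y) = Complex.exp (Complex.I * ((2 * π * k * (x - y) : ℝ) : ℂ)) := by
    unfold e
    congr 1
    push_cast
    ring
  rw [h3]
  refine Real.norm_exp_I_mul_ofReal_sub_one_le.trans ?_
  rw [Real.norm_eq_abs, abs_mul, abs_mul, abs_mul, abs_of_pos Real.pi_pos, abs_of_pos two_pos]

private lemma wb_lip {ρ : ℝ} (hρ : 0 < ρ) {B : ℝ} {f : ℝ → ℂ} (h : WB ρ 2 B f) (x y : ℝ) :
    ‖f x - f y‖ ≤ 6 * π / min 1 ρ * B * |x - y| := by
  have hB := wb_nonneg h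
  obtain ⟨a, ha, hs⟩ := h
  have hm : 0 < min 1 ρ := lt_min one_pos hρ
  have h1 := (hs x).sub (hs y)
  have h2 := ((summable_V2 (ρ := 0) (N := 0) le_rfl).hasSum).mul_left
    (2 * π / min 1 ρ * B * |x - y|)
  refine (h1.norm_le_of_bounded h2 fun k => ?_).trans ?_
  · rw [← mul_sub, norm_mul]
    have h3 := e_sub k x y
    have h4 := ha k
    have h5 : Real.exp (ρ * |(k:ℝ)|) ≥ min 1 ρ * (1 + |(k:ℝ)|) := by
      have h6 := Real.add_one_le_exp (ρ * |(k:ℝ)|)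
      have h7 : min 1 ρ ≤ 1 := min_le_left _ _
      have h8 : min 1 ρ ≤ ρ := min_le_right _ _
      have h9 := abs_nonneg (k:ℝ)
      nlinarith
    have hV : V 0 0 2 k = (1 + |(k:ℝ)|) ^ 2 := by
      unfold V w
      rw [zero_mul, Real.exp_zero, mul_one]
    rw [hV]
    have hk : 0 < 1 + |(k:ℝ)| := by positivity
    calc ‖a k‖ * ‖e k x - e k y‖ ≤ B / ((1 + |(k:ℝ)|) ^ 2 * Real.exp (ρ * |(k:ℝ)|)) *
          (2 * π * |(k:ℝ)| * |x - y|) := mul_le_mul h4 h3 (norm_nonneg _) (by positivity)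
      _ ≤ B / ((1 + |(k:ℝ)|) ^ 2 * (min 1 ρ * (1 + |(k:ℝ)|))) *
          (2 * π * (1 + |(k:ℝ)|) * |x - y|) := by
        apply mul_le_mul _ _ (by positivity) (by positivity)
        · apply div_le_div_of_nonneg_left hB (by positivity)
          exact mul_le_mul_of_nonneg_left h5 (by positivity)
        · apply mul_le_mul_of_nonneg_right _ (abs_nonneg _)
          apply mul_le_mul_of_nonneg_left _ (by positivity)
          linarith
      _ = 2 * π / min 1 ρ * B * |x - y| * (1 / (1 + |(k:ℝ)|) ^ 2) := by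
        field_simp
  · have h3 := tsum_V2 (ρ := 0) (N := 0) le_rfl
    have h4 : 0 ≤ 2 * π / min 1 ρ * B * |x - y| := by positivity
    calc 2 * π / min 1 ρ * B * |x - y| * ∑' k : ℤ, 1 / V 0 0 2 k ≤
          2 * π / min 1 ρ * B * |x - y| * 3 := mul_le_mul_of_nonneg_left h3 h4
      _ = _ := by ring

/-- the difference of the coefficients of `A · f ∘ L` and of `a f` -/
private lemma mid_abs {ρ : ℝ} (hρ : 0 < ρ) {B : ℝ} {f : ℝ → ℝ} (hf : WR ρ 2 B f) {L A : ℝ → ℝ}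
    (hL : Continuous L) (hA : Continuous A) {ε δ a : ℝ}
    (hLx : ∀ x, |L x - x| ≤ ε) (hAa : ∀ x, |A x - a| ≤ δ) (n : ℤ) :
    ‖fc (fun x => ((A x * f (L x) : ℝ) : ℂ)) n - a * rc f n‖ ≤
      (3 * δ + |a| * (6 * π / min 1 ρ) * ε) * B := by
  have hbd := wb_bd hρ.le le_rfl hf
  have hB := wb_nonneg hf
  have hm : 0 < min 1 ρ := lt_min one_pos hρ
  have hfc : Continuous f := by
    have h1 := Complex.continuous_re.comp (hbd.continuous le_rfl)
    exact h1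
  have h1 : fc (fun x => ((A x * f (L x) : ℝ) : ℂ)) n - a * rc f n =
      ∫ x in (0:ℝ)..1, ((A x * f (L x) - a * f x : ℝ) : ℂ) * e (-n) x := by
    unfold rc fc
    rw [← intervalIntegral.integral_const_mul, ← intervalIntegral.integral_sub]
    · congr 1
      funext x
      push_cast
      ring
    · apply Continuous.intervalIntegrable
      exact (Complex.continuous_ofReal.comp (hA.mul (hfc.comp hL))).mul (continuous_e _)
    · apply Continuous.intervalIntegrable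
      exact continuous_const.mul ((Complex.continuous_ofReal.comp hfc).mul (continuous_e _))
  rw [h1]
  have h2 : ∀ x ∈ Set.uIoc (0:ℝ) 1, ‖((A x * f (L x) - a * f x : ℝ) : ℂ) * e (-n) x‖ ≤
      (3 * δ + |a| * (6 * π / min 1 ρ) * ε) * B := by
    intro x _
    rw [norm_mul, norm_e, mul_one, Complex.norm_real, Real.norm_eq_abs]
    have h3 : A x * f (L x) - a * f x = (A x - a) * f (L x) + a * (f (L x) - f x) := by ring
    rw [h3]
    have h4 := hbd.sup le_rfl (L x)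
    rw [Complex.norm_real, Real.norm_eq_abs] at h4
    have h5 := wb_lip hρ hf (L x) x
    rw [← Complex.ofReal_sub, Complex.norm_real, Real.norm_eq_abs] at h5
    have h6 : |f (L x) - f x| ≤ 6 * π / min 1 ρ * B * ε :=
      h5.trans (mul_le_mul_of_nonneg_left (hLx x) (by positivity))
    have hδ : 0 ≤ δ := (abs_nonneg _).trans (hAa x)
    calc |(A x - a) * f (L x) + a * (f (L x) - f x)| ≤
          |A x - a| * |f (L x)| + |a| * |f (L x) - f x| := by
          refine (abs_add_le _ _).trans ?_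
          rw [abs_mul, abs_mul]
      _ ≤ δ * (3 * B) + |a| * (6 * π / min 1 ρ * B * ε) := by
          apply add_le_add
          · exact mul_le_mul (hAa x) h4 (abs_nonneg _) hδ
          · exact mul_le_mul_of_nonneg_left h6 (abs_nonneg _)
      _ = _ := by ring
  have h3 := intervalIntegral.norm_integral_le_of_norm_le_const h2
  rw [sub_zero, abs_one, mul_one] at h3
  exact h3

/-- the circle: `|w| = 1` etc. -/
private lemma near_sup {ρ ε : ℝ} (hρ : 0 ≤ ρ) {J : ℝ → Jet} (h : Near ρ ε J) (x : ℝ) :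
    ‖(J x).w‖ ≤ 1 + 3 * ε ∧ |(J x).z - 1| ≤ 3 * ε ∧ ‖(J x).w1‖ ≤ 1 + 3 * ε ∧
      |(J x).z1| ≤ 3 * ε := by
  have h1 := (wb_bd hρ le_rfl h.w).sup le_rfl x
  have h2 := (wb_bd hρ le_rfl h.z).sup le_rfl x
  have h3 := (wb_bd hρ le_rfl h.w1).sup le_rfl x
  have h4 := (wb_bd hρ le_rfl h.z1).sup le_rfl x
  refine ⟨?_, ?_, ?_, ?_⟩
  · have h5 : (J x).w = ((J x).w - e 1 x) + e 1 x := by ring
    rw [h5]
    refine (norm_add_le _ _).trans ?_
    rw [norm_e]
    linarith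
  · rw [Complex.norm_real, Real.norm_eq_abs] at h2
    exact h2
  · have h5 : (J x).w1 = ((J x).w1 - Complex.I * e 1 x) + Complex.I * e 1 x := by ring
    rw [h5]
    refine (norm_add_le _ _).trans ?_
    rw [norm_mul, Complex.norm_I, norm_e]
    linarith
  · rw [Complex.norm_real, Real.norm_eq_abs] at h4
    exact h4

private lemma re_le {a b : ℂ} {x y : ℝ} (ha : ‖a‖ ≤ x) (hb : ‖b‖ ≤ y) :
    |(a * b).re| ≤ x * y := by
  refine (Complex.abs_re_le_norm _).trans ?_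
  rw [norm_mul]
  exact mul_le_mul ha hb (norm_nonneg _) ((norm_nonneg _).trans ha)

/-- pointwise bounds of the jet functions -/
private lemma jet_small {ε : ℝ} (hε : 0 ≤ ε) (hε1 : ε ≤ 1 / 100) {J : Jet} {θ : Par}
    (hw : ‖J.w‖ ≤ 1 + 3 * ε) (hz : |J.z - 1| ≤ 3 * ε) (hw1 : ‖J.w1‖ ≤ 1 + 3 * ε)
    (hz1 : |J.z1| ≤ 3 * ε) (hq : ‖θ.q‖ ≤ ε) :
    1 / 2 ≤ J.al θ ∧ |J.ka θ| ≤ 20 * ε ∧ |J.la θ| ≤ 20 * ε := by
  have hw' : ‖J.w‖ ≤ 103 / 100 := by linarith
  have hw1' : ‖J.w1‖ ≤ 103 / 100 := by linarith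
  have hz' := abs_le.1 hz
  have hz1' := abs_le.1 hz1
  have hww : ‖J.w ^ 2‖ ≤ 107 / 100 := by
    rw [norm_pow]
    nlinarith [norm_nonneg J.w]
  have hww1 : ‖J.w * J.w1‖ ≤ 107 / 100 := by
    rw [norm_mul]
    nlinarith [norm_nonneg J.w, norm_nonneg J.w1]
  have h1 := abs_le.1 (re_le hq hww)
  have h2 := abs_le.1 (re_le hq hww1)
  have hal : 9 / 10 ≤ J.al θ := by
    unfold Jet.al
    nlinarith
  have hal0 : 0 < J.al θ := by linarith
  have hal1 : |J.al1 θ| ≤ 10 * ε := by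
    unfold Jet.al1
    rw [abs_le]
    constructor
    · nlinarith
    · nlinarith
  have hka : |J.ka θ| ≤ 6 * ε := by
    unfold Jet.ka
    rw [abs_div, abs_of_pos (by linarith : 0 < 2 * J.al θ), div_le_iff₀ (by linarith)]
    nlinarith
  have hka' := abs_le.1 hka
  have hwT : ‖J.wT θ‖ ≤ 12 / 10 := by
    unfold Jet.wT
    refine (norm_sub_le _ _).trans ?_
    rw [norm_mul, Complex.norm_real, Real.norm_eq_abs]
    nlinarith [norm_nonneg J.w, abs_nonneg (J.ka θ)]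
  have hzT : |J.zT θ| ≤ 10 * ε := by
    unfold Jet.zT
    rw [abs_le]
    constructor
    · nlinarith
    · nlinarith
  have hzT' := abs_le.1 hzT
  have hwT2 : ‖J.wT θ ^ 2‖ ≤ 144 / 100 := by
    rw [norm_pow]
    nlinarith [norm_nonneg (J.wT θ)]
  have h3 := abs_le.1 (re_le hq hwT2)
  refine ⟨by linarith, by linarith, ?_⟩
  unfold Jet.la
  rw [abs_div, abs_of_pos hal0, div_le_iff₀ hal0]
  have h4 : |J.zT θ ^ 2 + (θ.q * J.wT θ ^ 2).re| ≤ 3 * ε := by
    rw [abs_le]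
    constructor
    · nlinarith [sq_nonneg (J.zT θ)]
    · have h5 : J.zT θ ^ 2 ≤ 100 * ε ^ 2 := by
        have := sq_le_sq' hzT'.1 hzT'.2
        nlinarith
      nlinarith
  nlinarith

/-- the denominators and the four weights as functions of `(τ, ka, la)` -/
private def mDD (v : ℝ × ℝ × ℝ) : ℝ := 1 + 2 * ((v.2.2 - v.2.1 ^ 2) * v.1 ^ 2) +
  (v.2.2 + v.2.1 ^ 2) ^ 2 * (v.1 ^ 2) ^ 2

private def mA0 (v : ℝ × ℝ × ℝ) : ℝ := v.1 * (1 + (4 * v.2.2 - 4 * v.2.1 ^ 2) * v.1 ^ 2 +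
  (5 * v.2.2 ^ 2 - 2 * (v.2.1 ^ 2 * v.2.2) + v.2.1 ^ 4) * (v.1 ^ 2) ^ 2 +
  (2 * v.2.2 ^ 3 - 2 * (v.2.1 ^ 2 * v.2.2 ^ 2) - 2 * (v.2.1 ^ 4 * v.2.2) +
    2 * v.2.1 ^ 6) * (v.1 ^ 2) ^ 3) / mDD v ^ 2

private def mA1 (v : ℝ × ℝ × ℝ) : ℝ := v.1 * (v.1 ^ 2 * (1 + (2 * v.2.2 + 2 * v.2.1 ^ 2) * v.1 ^ 2 +
  (v.2.2 ^ 2 - 2 * (v.2.1 ^ 2 * v.2.2) - 3 * v.2.1 ^ 4) * (v.1 ^ 2) ^ 2)) / mDD v ^ 2

private def mA2 (v : ℝ × ℝ × ℝ) : ℝ := v.1 * (8 * ((v.1 ^ 2) ^ 2 *
  (1 - (v.2.2 + v.2.1 ^ 2) * v.1 ^ 2))) / mDD v ^ 2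

private def mA3 (v : ℝ × ℝ × ℝ) : ℝ := v.1 * (-(4 * ((v.1 ^ 2) ^ 2 *
  (1 + (v.2.2 + v.2.1 ^ 2) * v.1 ^ 2)))) / mDD v ^ 2

private lemma mDD_circ (T : ℝ) : mDD (T, 0, 0) = 1 := by
  unfold mDD
  simp

private lemma mDD_cont : Continuous mDD := by
  unfold mDD
  fun_prop

private lemma mA_at (T : ℝ) : ContinuousAt mA0 (T, 0, 0) ∧ ContinuousAt mA1 (T, 0, 0) ∧
    ContinuousAt mA2 (T, 0, 0) ∧ ContinuousAt mA3 (T, 0, 0) := by
  have h1 : mDD (T, 0, 0) ^ 2 ≠ 0 := by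
    rw [mDD_circ]
    norm_num
  have h2 : ContinuousAt (fun v => mDD v ^ 2) (T, 0, 0) := (mDD_cont.pow 2).continuousAt
  refine ⟨?_, ?_, ?_, ?_⟩
  · unfold mA0
    exact ContinuousAt.div (by fun_prop) h2 h1
  · unfold mA1
    exact ContinuousAt.div (by fun_prop) h2 h1
  · unfold mA2
    exact ContinuousAt.div (by fun_prop) h2 h1
  · unfold mA3
    exact ContinuousAt.div (by fun_prop) h2 h1

private lemma mA_circ (T : ℝ) : mA0 (T, 0, 0) = T ∧ mA1 (T, 0, 0) = T ^ 3 ∧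
    mA2 (T, 0, 0) = 8 * T ^ 5 ∧ mA3 (T, 0, 0) = -(4 * T ^ 5) := by
  refine ⟨?_, ?_, ?_, ?_⟩
  · unfold mA0
    rw [mDD_circ]
    simp
  · unfold mA1
    rw [mDD_circ]
    simp
    ring
  · unfold mA2
    rw [mDD_circ]
    simp
    ring
  · unfold mA3
    rw [mDD_circ]
    simp
    ring

/-- near `(T, 0, 0)` everything is close -/
private lemma mA_near (T : ℝ) {δ : ℝ} (hδ : 0 < δ) : ∃ η > 0, ∀ v : ℝ × ℝ × ℝ, |v.1 - T| ≤ η →
    |v.2.1| ≤ η → |v.2.2| ≤ η → mDD v ≠ 0 ∧ |mA0 v - T| ≤ δ ∧ |mA1 v - T ^ 3| ≤ δ ∧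
      |mA2 v - 8 * T ^ 5| ≤ δ ∧ |mA3 v - (-(4 * T ^ 5))| ≤ δ := by
  obtain ⟨c0, c1, c2, c3⟩ := mA_at T
  obtain ⟨d0, d1, d2, d3⟩ := mA_circ T
  have cD : ContinuousAt mDD (T, 0, 0) := mDD_cont.continuousAt
  rw [Metric.continuousAt_iff] at c0 c1 c2 c3 cD
  obtain ⟨η0, h0, k0⟩ := c0 δ hδ
  obtain ⟨η1, h1, k1⟩ := c1 δ hδ
  obtain ⟨η2, h2, k2⟩ := c2 δ hδ
  obtain ⟨η3, h3, k3⟩ := c3 δ hδ
  obtain ⟨η4, h4, k4⟩ := cD 1 one_pos
  rw [d0] at k0
  rw [d1] at k1
  rw [d2] at k2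
  rw [d3] at k3
  rw [mDD_circ] at k4
  set η := min η0 (min η1 (min η2 (min η3 η4))) with hη
  have hη0 : 0 < η := lt_min h0 (lt_min h1 (lt_min h2 (lt_min h3 h4)))
  have e0 : η ≤ η0 := min_le_left _ _
  have e1 : η ≤ η1 := (min_le_right _ _).trans (min_le_left _ _)
  have e2 : η ≤ η2 := (min_le_right _ _).trans ((min_le_right _ _).trans (min_le_left _ _))
  have e3 : η ≤ η3 := (min_le_right _ _).trans ((min_le_right _ _).trans
    ((min_le_right _ _).trans (min_le_left _ _)))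
  have e4 : η ≤ η4 := (min_le_right _ _).trans ((min_le_right _ _).trans
    ((min_le_right _ _).trans (min_le_right _ _)))
  refine ⟨η / 2, by positivity, fun v a1 a2 a3 => ?_⟩
  have hd : dist v (T, 0, 0) < η := by
    rw [Prod.dist_eq, Prod.dist_eq]
    simp only [Real.dist_eq, sub_zero]
    have : max |v.1 - T| (max |v.2.1| |v.2.2|) ≤ η / 2 := max_le a1 (max_le a2 a3)
    linarith
  have j0 := k0 (hd.trans_le e0)
  have j1 := k1 (hd.trans_le e1)
  have j2 := k2 (hd.trans_le e2)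
  have j3 := k3 (hd.trans_le e3)
  have j4 := k4 (hd.trans_le e4)
  rw [Real.dist_eq] at j0 j1 j2 j3 j4
  refine ⟨?_, j0.le, j1.le, j2.le, j3.le⟩
  intro h
  rw [h, zero_sub, abs_neg, abs_one] at j4
  exact lt_irrefl _ j4

private lemma phi_split (θ : Par) (J : Jet) (τ : ℝ) : τ * J.Phi θ (τ ^ 2) =
    mA0 (τ, J.ka θ, J.la θ) * J.e0 θ + mA1 (τ, J.ka θ, J.la θ) * J.e1 θ +
      mA2 (τ, J.ka θ, J.la θ) * J.y1 θ + mA3 (τ, J.ka θ, J.la θ) * J.y2 θ := by
  have h : mDD (τ, J.ka θ, J.la θ) = J.DD θ (τ ^ 2) := by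
    unfold mDD Jet.DD Jet.mu
    ring
  unfold Jet.Phi Jet.n0 Jet.n1 mA0 mA1 mA2 mA3
  rw [h]
  unfold Jet.mu
  ring

private lemma near_cont {ρ ε : ℝ} (hρ : 0 ≤ ρ) {J : ℝ → Jet} (h : Near ρ ε J) :
    Continuous (fun x => (J x).w) ∧ Continuous (fun x => (J x).z) ∧
      Continuous (fun x => (J x).w1) ∧ Continuous (fun x => (J x).z1) := by
  have h1 := (wb_bd hρ le_rfl h.w).continuous le_rfl
  have h2 := (wb_bd hρ le_rfl h.z).continuous le_rfl
  have h3 := (wb_bd hρ le_rfl h.w1).continuous le_rfl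
  have h4 := (wb_bd hρ le_rfl h.z1).continuous le_rfl
  refine ⟨?_, ?_, ?_, ?_⟩
  · have h5 := h1.add (continuous_e 1)
    have h6 : (fun x => (J x).w - e 1 x + e 1 x) = fun x => (J x).w := by
      funext x
      ring
    rw [← h6]
    exact h5
  · have h5 := (Complex.continuous_re.comp h2).add (continuous_const (y := (1:ℝ)))
    have h6 : (fun x => (J x).z) = fun x => (Complex.re ∘ fun x => (((J x).z - 1 : ℝ) : ℂ)) x +
        1 := by
      funext x
      simp only [Function.comp_apply, Complex.ofReal_re]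
      ring
    rw [h6]
    exact h5
  · have h5 := h3.add (continuous_const.mul (continuous_e 1) :
      Continuous fun x => Complex.I * e 1 x)
    have h6 : (fun x => (J x).w1 - Complex.I * e 1 x + Complex.I * e 1 x) =
        fun x => (J x).w1 := by
      funext x
      ring
    rw [← h6]
    exact h5
  · exact Complex.continuous_re.comp h4

private lemma jet_cont {θ : Par} {J : ℝ → Jet} (c1 : Continuous (fun x => (J x).w))
    (c2 : Continuous (fun x => (J x).z)) (c3 : Continuous (fun x => (J x).w1))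
    (c4 : Continuous (fun x => (J x).z1)) (hal : ∀ x, (J x).al θ ≠ 0) :
    Continuous (fun x => (J x).ka θ) ∧ Continuous (fun x => (J x).la θ) := by
  have k1 : Continuous (fun x => (J x).al θ) := by
    unfold Jet.al
    exact (c2.pow 2).add (Complex.continuous_re.comp (continuous_const.mul (c1.pow 2)))
  have k2 : Continuous (fun x => (J x).al1 θ) := by
    unfold Jet.al1
    exact (continuous_const.mul (c2.mul c4)).add
      (continuous_const.mul (Complex.continuous_re.comp (continuous_const.mul (c1.mul c3))))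
  have k3 : Continuous (fun x => (J x).ka θ) := by
    unfold Jet.ka
    exact k2.div (continuous_const.mul k1) fun x => mul_ne_zero two_ne_zero (hal x)
  have k4 : Continuous (fun x => (J x).wT θ) := by
    unfold Jet.wT
    exact c3.sub ((Complex.continuous_ofReal.comp k3).mul c1)
  have k5 : Continuous (fun x => (J x).zT θ) := by
    unfold Jet.zT
    exact c4.sub (k3.mul c2)
  refine ⟨k3, ?_⟩
  unfold Jet.la
  exact ((k5.pow 2).add (Complex.continuous_re.comp (continuous_const.mul (k4.pow 2)))).div k1 hal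

private lemma mA_cont {v : ℝ → ℝ × ℝ × ℝ} (hv : Continuous v) (hD : ∀ x, mDD (v x) ≠ 0) :
    Continuous (fun x => mA0 (v x)) ∧ Continuous (fun x => mA1 (v x)) ∧
      Continuous (fun x => mA2 (v x)) ∧ Continuous (fun x => mA3 (v x)) := by
  have h2 : Continuous (fun x => mDD (v x) ^ 2) := (mDD_cont.comp hv).pow 2
  have h3 : ∀ x, mDD (v x) ^ 2 ≠ 0 := fun x => pow_ne_zero 2 (hD x)
  refine ⟨?_, ?_, ?_, ?_⟩
  · unfold mA0
    exact Continuous.div (by fun_prop) h2 h3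
  · unfold mA1
    exact Continuous.div (by fun_prop) h2 h3
  · unfold mA2
    exact Continuous.div (by fun_prop) h2 h3
  · unfold mA3
    exact Continuous.div (by fun_prop) h2 h3

private lemma near_per {ρ ε : ℝ} (hρ : 0 ≤ ρ) {J : ℝ → Jet} (h : Near ρ ε J) :
    Function.Periodic J 1 := by
  intro x
  have h1 := (wb_bd hρ le_rfl h.w).periodic x
  have h2 := (wb_bd hρ le_rfl h.z).periodic x
  have h3 := (wb_bd hρ le_rfl h.w1).periodic x
  have h4 := (wb_bd hρ le_rfl h.z1).periodic x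
  simp only [periodic_e 1 x, Complex.ofReal_inj] at h1 h2 h3 h4
  ext1
  · linear_combination h1
  · linarith
  · linear_combination h3
  · exact h4

private lemma fc_add4 {f0 f1 f2 f3 : ℝ → ℝ} (h0 : Continuous f0) (h1 : Continuous f1)
    (h2 : Continuous f2) (h3 : Continuous f3) (n : ℤ) :
    fc (fun x => ((f0 x + f1 x + f2 x + f3 x : ℝ) : ℂ)) n =
      fc (fun x => ((f0 x : ℝ) : ℂ)) n + fc (fun x => ((f1 x : ℝ) : ℂ)) n +
      fc (fun x => ((f2 x : ℝ) : ℂ)) n + fc (fun x => ((f3 x : ℝ) : ℂ)) n := by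
  unfold fc
  have i0 : ∀ {f : ℝ → ℝ}, Continuous f →
      IntervalIntegrable (fun x => ((f x : ℝ) : ℂ) * e (-n) x) volume 0 1 := fun hf =>
    ((Complex.continuous_ofReal.comp hf).mul (continuous_e (-n))).intervalIntegrable _ _
  rw [← intervalIntegral.integral_add (i0 h0) (i0 h1),
    ← intervalIntegral.integral_add ((i0 h0).add (i0 h1)) (i0 h2),
    ← intervalIntegral.integral_add (((i0 h0).add (i0 h1)).add (i0 h2)) (i0 h3)]
  congr 1
  funext x
  push_cast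
  ring

/-- MID: the law of one leaf, for a curve near the circle. -/
theorem mid {ρ : ℝ} (hρ : 0 < ρ) {p q : ℕ} (hp : 0 < p) (hpq : 2 * p < q) {d : ℝ} (hd : 0 < d) :
    ∃ ε0 > 0, ∀ (ε : ℝ) (J : ℝ → Jet) (θ : Par) (L τ : ℝ → ℝ) (X Y : ℝ), ε ≤ ε0 →
      Near ρ ε J → θ.Small ε → Lw J p q L τ → Cls ε p q L τ → XB ρ X J θ → YB ρ Y J θ →
      ∀ n : ℤ, (q:ℤ) ∣ n →
        ‖rc (fun x => (J x).e0 θ) n +
          (Real.tan (π * ((p:ℝ) / q)) ^ 2 : ℝ) * rc (fun x => (J x).e1 θ) n +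
          (8 * Real.tan (π * ((p:ℝ) / q)) ^ 4 : ℝ) * rc (fun x => (J x).y1 θ) n -
          (4 * Real.tan (π * ((p:ℝ) / q)) ^ 4 : ℝ) * rc (fun x => (J x).y2 θ) n‖ ≤
            d * (X + Y) := by
  have hq : 0 < q := by omega
  have hq0 : (0:ℝ) < q := by exact_mod_cast hq
  have hp0 : (0:ℝ) < p := by exact_mod_cast hp
  set T := Real.tan (π * ((p:ℝ) / q)) with hTd
  have hT : 0 < T := by
    apply Real.tan_pos_of_pos_of_lt_pi_div_two
    · positivity
    · have h1 : (p:ℝ) / q < 1 / 2 := by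
        rw [div_lt_div_iff₀ hq0 two_pos]
        have : ((2 * p : ℕ) : ℝ) < q := by exact_mod_cast hpq
        push_cast at this
        linarith
      nlinarith [Real.pi_pos]
  set K := 6 * π / min 1 ρ with hK
  have hm : 0 < min 1 ρ := lt_min one_pos hρ
  have hK0 : 0 < K := by positivity
  obtain ⟨η, hη, hnear⟩ := mA_near T (δ := d * T / 12) (by positivity)
  set S := T + T ^ 3 + 12 * T ^ 5 with hS
  have hS0 : 0 < S := by positivity
  refine ⟨min (1 / 100) (min (η / 20) (d * T / (2 * (K * S)))), by positivity, ?_⟩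
  intro ε J θ L τ X Y hε hN hθ hLw hCls hX hY n hn
  have hε1 : ε ≤ 1 / 100 := hε.trans (min_le_left _ _)
  have hε2 : ε ≤ η / 20 := hε.trans ((min_le_right _ _).trans (min_le_left _ _))
  have hε3 : ε ≤ d * T / (2 * (K * S)) := hε.trans ((min_le_right _ _).trans (min_le_right _ _))
  have hε0 : 0 ≤ ε := (norm_nonneg _).trans hθ.q
  have hsm : ∀ x, 1 / 2 ≤ (J x).al θ ∧ |(J x).ka θ| ≤ 20 * ε ∧ |(J x).la θ| ≤ 20 * ε := by
    intro x
    obtain ⟨a1, a2, a3, a4⟩ := near_sup hρ.le hN x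
    exact jet_small hε0 hε1 a1 a2 a3 a4 hθ.q
  have hal : ∀ x, (J x).al θ ≠ 0 := fun x => by
    have := (hsm x).1
    positivity
  obtain ⟨c1, c2, c3, c4⟩ := near_cont hρ.le hN
  obtain ⟨ck, cl⟩ := jet_cont (θ := θ) c1 c2 c3 c4 hal
  set v : ℝ → ℝ × ℝ × ℝ := fun x => (τ x, (J (L x)).ka θ, (J (L x)).la θ) with hv
  have hvc : Continuous v := hLw.contτ.prodMk ((ck.comp hLw.contL).prodMk (cl.comp hLw.contL))
  have hvn : ∀ x, mDD (v x) ≠ 0 ∧ |mA0 (v x) - T| ≤ d * T / 12 ∧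
      |mA1 (v x) - T ^ 3| ≤ d * T / 12 ∧ |mA2 (v x) - 8 * T ^ 5| ≤ d * T / 12 ∧
      |mA3 (v x) - (-(4 * T ^ 5))| ≤ d * T / 12 := by
    intro x
    apply hnear
    · refine (hCls.tau x).trans ?_
      linarith
    · refine (hsm (L x)).2.1.trans ?_
      linarith
    · refine (hsm (L x)).2.2.trans ?_
      linarith
  obtain ⟨m0, m1, m2, m3⟩ := mA_cont hvc (fun x => (hvn x).1)
  -- the four functions
  have X2 : WR ρ 2 X (fun x => (J x).e0 θ) := wb_mono (by norm_num) hX.1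
  have X0 := wb_nonneg X2
  have Y0 := wb_nonneg hY.1
  have cont : ∀ {B : ℝ} {f : ℝ → ℝ}, WR ρ 2 B f → Continuous f := fun hf =>
    Complex.continuous_re.comp ((wb_bd hρ.le le_rfl hf).continuous le_rfl)
  have g0 := mid_abs hρ X2 hLw.contL m0 hCls.near (fun x => (hvn x).2.1) n
  have g1 := mid_abs hρ hX.2 hLw.contL m1 hCls.near (fun x => (hvn x).2.2.1) n
  have g2 := mid_abs hρ hY.1 hLw.contL m2 hCls.near (fun x => (hvn x).2.2.2.1) n
  have g3 := mid_abs hρ hY.2 hLw.contL m3 hCls.near (fun x => (hvn x).2.2.2.2) n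
  have k0 : Continuous fun x => mA0 (v x) * (J (L x)).e0 θ :=
    m0.mul ((cont X2).comp hLw.contL)
  have k1 : Continuous fun x => mA1 (v x) * (J (L x)).e1 θ :=
    m1.mul ((cont hX.2).comp hLw.contL)
  have k2 : Continuous fun x => mA2 (v x) * (J (L x)).y1 θ :=
    m2.mul ((cont hY.1).comp hLw.contL)
  have k3 : Continuous fun x => mA3 (v x) * (J (L x)).y2 θ :=
    m3.mul ((cont hY.2).comp hLw.contL)
  have hsplit : (fun x => τ x * (J (L x)).Phi θ (τ x ^ 2)) = fun x =>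
      mA0 (v x) * (J (L x)).e0 θ + mA1 (v x) * (J (L x)).e1 θ +
        mA2 (v x) * (J (L x)).y1 θ + mA3 (v x) * (J (L x)).y2 θ := by
    funext x
    exact phi_split θ (J (L x)) (τ x)
  have hz := hLw.fc_zero hq (near_per hρ.le hN) c1 c2 c3 c4 hal (fun x => by
    have h1 := (hvn x).1
    have h2 : mDD (v x) = (J (L x)).DD θ (τ x ^ 2) := by
      unfold mDD Jet.DD Jet.mu
      simp only [hv]
    rwa [h2] at h1) hn
  have hz2 : fc (fun x => ((mA0 (v x) * (J (L x)).e0 θ : ℝ) : ℂ)) n +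
      fc (fun x => ((mA1 (v x) * (J (L x)).e1 θ : ℝ) : ℂ)) n +
      fc (fun x => ((mA2 (v x) * (J (L x)).y1 θ : ℝ) : ℂ)) n +
      fc (fun x => ((mA3 (v x) * (J (L x)).y2 θ : ℝ) : ℂ)) n = 0 := by
    rw [← fc_add4 k0 k1 k2 k3 n, ← hz]
    congr 1
    funext x
    exact congrArg (fun y : ℝ => (y : ℂ)) (congrFun hsplit x).symm
  -- the conclusion
  have hTc : (T:ℂ) ≠ 0 := by exact_mod_cast hT.ne'
  set r0 := rc (fun x => (J x).e0 θ) n with hr0
  set r1 := rc (fun x => (J x).e1 θ) n with hr1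
  set r2 := rc (fun x => (J x).y1 θ) n with hr2
  set r3 := rc (fun x => (J x).y2 θ) n with hr3
  set F0 := fc (fun x => ((mA0 (v x) * (J (L x)).e0 θ : ℝ) : ℂ)) n with hF0
  set F1 := fc (fun x => ((mA1 (v x) * (J (L x)).e1 θ : ℝ) : ℂ)) n with hF1
  set F2 := fc (fun x => ((mA2 (v x) * (J (L x)).y1 θ : ℝ) : ℂ)) n with hF2
  set F3 := fc (fun x => ((mA3 (v x) * (J (L x)).y2 θ : ℝ) : ℂ)) n with hF3
  have hid : (T:ℂ) * (r0 + (T ^ 2 : ℝ) * r1 + (8 * T ^ 4 : ℝ) * r2 - (4 * T ^ 4 : ℝ) * r3) =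
      -((F0 - (T:ℝ) * r0) + (F1 - (T ^ 3 : ℝ) * r1) + (F2 - (8 * T ^ 5 : ℝ) * r2) +
        (F3 - (-(4 * T ^ 5) : ℝ) * r3)) := by
    push_cast
    linear_combination hz2
  have hn1 : T * ‖r0 + (T ^ 2 : ℝ) * r1 + (8 * T ^ 4 : ℝ) * r2 - (4 * T ^ 4 : ℝ) * r3‖ ≤
      T * (d * (X + Y)) := by
    calc T * ‖r0 + (T ^ 2 : ℝ) * r1 + (8 * T ^ 4 : ℝ) * r2 - (4 * T ^ 4 : ℝ) * r3‖ =
          ‖(T:ℂ) * (r0 + (T ^ 2 : ℝ) * r1 + (8 * T ^ 4 : ℝ) * r2 - (4 * T ^ 4 : ℝ) * r3)‖ := by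
          rw [norm_mul, Complex.norm_real, Real.norm_eq_abs, abs_of_pos hT]
      _ ≤ ‖F0 - (T:ℝ) * r0‖ + ‖F1 - (T ^ 3 : ℝ) * r1‖ + ‖F2 - (8 * T ^ 5 : ℝ) * r2‖ +
          ‖F3 - (-(4 * T ^ 5) : ℝ) * r3‖ := by
          rw [hid, norm_neg]
          refine (norm_add_le _ _).trans (add_le_add_left ?_ _)
          refine (norm_add_le _ _).trans (add_le_add_left ?_ _)
          exact norm_add_le _ _
      _ ≤ (3 * (d * T / 12) + |T| * K * ε) * X + (3 * (d * T / 12) + |T ^ 3| * K * ε) * X +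
          (3 * (d * T / 12) + |8 * T ^ 5| * K * ε) * Y +
          (3 * (d * T / 12) + |-(4 * T ^ 5)| * K * ε) * Y :=
          add_le_add (add_le_add (add_le_add g0 g1) g2) g3
      _ = (d * T / 2 + (T + T ^ 3) * K * ε) * X + (d * T / 2 + 12 * T ^ 5 * K * ε) * Y := by
          rw [abs_neg, abs_of_pos hT, abs_of_pos (by positivity : 0 < T ^ 3),
            abs_of_pos (by positivity : 0 < 8 * T ^ 5),
            abs_of_pos (by positivity : 0 < 4 * T ^ 5)]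
          ring
      _ ≤ (d * T) * X + (d * T) * Y := by
          have h1 : S * K * ε ≤ d * T / 2 := by
            rw [le_div_iff₀ (by positivity)] at hε3
            nlinarith
          have h2 : (T + T ^ 3) * K * ε ≤ S * K * ε := by
            have : T + T ^ 3 ≤ S := by
              have : 0 ≤ 12 * T ^ 5 := by positivity
              linarith
            exact mul_le_mul_of_nonneg_right (mul_le_mul_of_nonneg_right this hK0.le) hε0
          have h3 : 12 * T ^ 5 * K * ε ≤ S * K * ε := by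
            have : 12 * T ^ 5 ≤ S := by
              have : 0 ≤ T + T ^ 3 := by positivity
              linarith
            exact mul_le_mul_of_nonneg_right (mul_le_mul_of_nonneg_right this hK0.le) hε0
          apply add_le_add
          · exact mul_le_mul_of_nonneg_right (by linarith) X0
          · exact mul_le_mul_of_nonneg_right (by linarith) Y0
      _ = T * (d * (X + Y)) := by ring
  exact le_of_mul_le_mul_left hn1 hT

end Pool.Agent.MP_ae5b4e_an_NC
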