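import Mathlib
import Pool.Agent.Lib.MP_ae5b4e_an_NC.Def

/-!
# MP_ae5b4e_an, project NC: the closing algebra

From the three laws for the modes 7, 8, 9 (second divided differences in `tan ^ 2`) and the leading
terms of the source: `c3 = c4 = 0`.
-/

noncomputable section

namespace Pool.Agent.MP_ae5b4e_an_NC

open Real Set Filter Topology

/-- the leading terms of the source `8 y1 - 4 y2` in the modes 7, 8, 9 -/
def lead (θ : Par) (n : ℕ) : ℂ :=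
  if n = 7 then Complex.I / 2 * (θ.c3 * θ.c4)
  else if n = 8 then Complex.I * (2 * θ.c4 ^ 2 - θ.q * θ.c3 ^ 2)
  else Complex.I / 8 * θ.c3 ^ 3

/-- second divided differences -/
private theorem dd2 {s1 s2 s3 : ℝ} (h12 : s1 ≠ s2) (h13 : s1 ≠ s3) (h23 : s2 ≠ s3) :
    ∃ K : ℝ, 0 ≤ K ∧ ∀ (a0 a1 y : ℂ) (d : ℝ), ‖a0 + s1 * a1 + s1 ^ 2 * y‖ ≤ d →
      ‖a0 + s2 * a1 + s2 ^ 2 * y‖ ≤ d → ‖a0 + s3 * a1 + s3 ^ 2 * y‖ ≤ d → ‖y‖ ≤ K * d := by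
  refine ⟨|1 / ((s1 - s2) * (s1 - s3))| + |1 / ((s2 - s1) * (s2 - s3))| +
    |1 / ((s3 - s1) * (s3 - s2))|, by positivity, fun a0 a1 y d h1 h2 h3 => ?_⟩
  have d12 : (s1 : ℂ) - s2 ≠ 0 := by
    rw [← Complex.ofReal_sub]
    exact_mod_cast sub_ne_zero.2 h12
  have d13 : (s1 : ℂ) - s3 ≠ 0 := by
    rw [← Complex.ofReal_sub]
    exact_mod_cast sub_ne_zero.2 h13
  have d23 : (s2 : ℂ) - s3 ≠ 0 := by
    rw [← Complex.ofReal_sub]
    exact_mod_cast sub_ne_zero.2 h23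
  have d21 : (s2 : ℂ) - s1 ≠ 0 := by
    intro h
    apply d12
    linear_combination -h
  have d31 : (s3 : ℂ) - s1 ≠ 0 := by
    intro h
    apply d13
    linear_combination -h
  have d32 : (s3 : ℂ) - s2 ≠ 0 := by
    intro h
    apply d23
    linear_combination -h
  have key : y = ((1 / ((s1 - s2) * (s1 - s3)) : ℝ) : ℂ) * (a0 + s1 * a1 + s1 ^ 2 * y) +
      ((1 / ((s2 - s1) * (s2 - s3)) : ℝ) : ℂ) * (a0 + s2 * a1 + s2 ^ 2 * y) +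
      ((1 / ((s3 - s1) * (s3 - s2)) : ℝ) : ℂ) * (a0 + s3 * a1 + s3 ^ 2 * y) := by
    push_cast
    field_simp
    ring
  have hn : ∀ (k : ℝ) (v : ℂ), ‖v‖ ≤ d → ‖(k : ℂ) * v‖ ≤ |k| * d := by
    intro k v hv
    rw [norm_mul, Complex.norm_real, Real.norm_eq_abs]
    exact mul_le_mul_of_nonneg_left hv (abs_nonneg _)
  calc ‖y‖ = ‖((1 / ((s1 - s2) * (s1 - s3)) : ℝ) : ℂ) * (a0 + s1 * a1 + s1 ^ 2 * y) +
      ((1 / ((s2 - s1) * (s2 - s3)) : ℝ) : ℂ) * (a0 + s2 * a1 + s2 ^ 2 * y) +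
      ((1 / ((s3 - s1) * (s3 - s2)) : ℝ) : ℂ) * (a0 + s3 * a1 + s3 ^ 2 * y)‖ := by rw [← key]
    _ ≤ _ := norm_add₃_le
    _ ≤ |1 / ((s1 - s2) * (s1 - s3))| * d + |1 / ((s2 - s1) * (s2 - s3))| * d +
        |1 / ((s3 - s1) * (s3 - s2))| * d :=
        add_le_add (add_le_add (hn _ _ h1) (hn _ _ h2)) (hn _ _ h3)
    _ = _ := by ring

/-- the elementary inequality -/
private theorem elem {a b s u : ℝ} (ha : 0 ≤ a) (hb : 0 ≤ b) (hs : 0 ≤ s) (ha1 : a ≤ 1)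
    (hb1 : b ≤ 1) (hs1 : s ≤ 1) (h1 : 2 * b ^ 2 - s * a ^ 2 ≤ u) (h2 : s * a ^ 2 - 2 * b ^ 2 ≤ u) :
    (a + b) * (b + s * a) + (a + b) ^ 3 ≤ 20 * (a * b) + 10 * u + 10 * a ^ 3 := by
  have hab : 0 ≤ a * b := mul_nonneg ha hb
  have hsab : s * (a * b) ≤ a * b := by nlinarith
  have hb3 : b ^ 3 ≤ b ^ 2 := by nlinarith [sq_nonneg b]
  have haab : a ^ 2 * b ≤ a * b := by nlinarith
  have habb : a * b ^ 2 ≤ a * b := by nlinarith
  have ha3 : 0 ≤ a ^ 3 := by positivity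
  have hsa : 0 ≤ s * a ^ 2 := by positivity
  have hb2 : 0 ≤ b ^ 2 := by positivity
  have hE : (a + b) * (b + s * a) + (a + b) ^ 3 =
      a * b + s * a ^ 2 + b ^ 2 + s * (a * b) + a ^ 3 + 3 * (a ^ 2 * b) + 3 * (a * b ^ 2) +
        b ^ 3 := by ring
  rw [hE]
  rcases le_total (s * a ^ 2) (b ^ 2) with h | h
  · nlinarith
  · rcases le_total (4 * b ^ 2) (s * a ^ 2) with h' | h'
    · nlinarith
    · have hba : b ≤ a := by
        by_contra hcon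
        rw [not_le] at hcon
        have : s * a ^ 2 < b ^ 2 := by
          have h3 : s * a ^ 2 ≤ a ^ 2 := by nlinarith [sq_nonneg a]
          have h4 : a ^ 2 < b ^ 2 := by nlinarith
          linarith
        linarith
      have h5 : b ^ 2 ≤ a * b := by nlinarith
      have h6 : 0 ≤ u := by
        by_contra hcon
        rw [not_le] at hcon
        linarith
      nlinarith

/-- the closing: `c3 = c4 = 0` -/
theorem clo : ∃ k : ℝ, 0 < k ∧ ∀ θ : Par, ‖θ.q‖ ≤ 1 → ‖θ.c3‖ ≤ 1 → ‖θ.c4‖ ≤ 1 →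
    (∀ n : ℕ, n = 7 ∨ n = 8 ∨ n = 9 → ∃ a0 a1 y : ℂ, (∀ P : ℕ, 1 ≤ P → P ≤ 3 →
      ‖a0 + (Real.tan (π * ((P:ℝ) / n)) : ℂ) ^ 2 * a1 +
        (Real.tan (π * ((P:ℝ) / n)) : ℂ) ^ 4 * y‖ ≤ k * θ.E) ∧ ‖y - lead θ n‖ ≤ k * θ.E) →
    θ.c3 = 0 ∧ θ.c4 = 0 := by
  -- the numbers `tan ^ 2` are distinct
  have htan : ∀ n : ℕ, n = 7 ∨ n = 8 ∨ n = 9 → ∀ P Q : ℕ, 1 ≤ P → P < Q → Q ≤ 3 →
      Real.tan (π * ((P:ℝ) / n)) ^ 2 ≠ Real.tan (π * ((Q:ℝ) / n)) ^ 2 := by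
    intro n hn P Q hP hPQ hQ
    have hn7 : (7:ℝ) ≤ n := by
      rcases hn with rfl | rfl | rfl <;> norm_num
    have hn0 : (0:ℝ) < n := by linarith
    have hpi := Real.pi_pos
    have hP0 : (0:ℝ) < P := by exact_mod_cast hP
    have hPQ' : (P:ℝ) < Q := by exact_mod_cast hPQ
    have hQ3 : (Q:ℝ) ≤ 3 := by exact_mod_cast hQ
    have h1 : 0 < π * ((P:ℝ) / n) := by positivity
    have h2 : π * ((P:ℝ) / n) < π * ((Q:ℝ) / n) :=
      mul_lt_mul_of_pos_left (div_lt_div_of_pos_right hPQ' hn0) hpi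
    have h3 : π * ((Q:ℝ) / n) < π / 2 := by
      rw [div_eq_mul_one_div π 2]
      refine mul_lt_mul_of_pos_left ?_ hpi
      rw [div_lt_div_iff₀ hn0 (by norm_num)]
      linarith
    have h4 : Real.tan (π * ((P:ℝ) / n)) < Real.tan (π * ((Q:ℝ) / n)) :=
      Real.tan_lt_tan_of_lt_of_lt_pi_div_two (by linarith) h3 h2
    have h5 : 0 < Real.tan (π * ((P:ℝ) / n)) :=
      Real.tan_pos_of_pos_of_lt_pi_div_two h1 (by linarith)
    have : Real.tan (π * ((P:ℝ) / n)) ^ 2 < Real.tan (π * ((Q:ℝ) / n)) ^ 2 := by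
      nlinarith
    exact this.ne
  have hK : ∀ n : ℕ, n = 7 ∨ n = 8 ∨ n = 9 → ∃ K : ℝ, 0 ≤ K ∧ ∀ (a0 a1 y : ℂ) (d : ℝ),
      (∀ P : ℕ, 1 ≤ P → P ≤ 3 → ‖a0 + (Real.tan (π * ((P:ℝ) / n)) : ℂ) ^ 2 * a1 +
        (Real.tan (π * ((P:ℝ) / n)) : ℂ) ^ 4 * y‖ ≤ d) → ‖y‖ ≤ K * d := by
    intro n hn
    obtain ⟨K, hK0, hK⟩ := dd2 (htan n hn 1 2 le_rfl (by norm_num) (by norm_num))
      (htan n hn 1 3 le_rfl (by norm_num) le_rfl) (htan n hn 2 3 (by norm_num) (by norm_num) le_rfl)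
    refine ⟨K, hK0, fun a0 a1 y d h => ?_⟩
    have hc : ∀ P : ℕ, 1 ≤ P → P ≤ 3 → ‖a0 + ((Real.tan (π * ((P:ℝ) / n)) ^ 2 : ℝ) : ℂ) * a1 +
        ((Real.tan (π * ((P:ℝ) / n)) ^ 2 : ℝ) : ℂ) ^ 2 * y‖ ≤ d := by
      intro P h1 h2
      have h3 := h P h1 h2
      have e1 : a0 + ((Real.tan (π * ((P:ℝ) / n)) ^ 2 : ℝ) : ℂ) * a1 +
          ((Real.tan (π * ((P:ℝ) / n)) ^ 2 : ℝ) : ℂ) ^ 2 * y =
          a0 + (Real.tan (π * ((P:ℝ) / n)) : ℂ) ^ 2 * a1 +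
            (Real.tan (π * ((P:ℝ) / n)) : ℂ) ^ 4 * y := by
        push_cast
        ring
      rwa [e1]
    exact hK a0 a1 y d (hc 1 le_rfl (by norm_num)) (hc 2 (by norm_num) (by norm_num))
      (hc 3 (by norm_num) le_rfl)
  obtain ⟨K7, hK70, hK7⟩ := hK 7 (by norm_num)
  obtain ⟨K8, hK80, hK8⟩ := hK 8 (by norm_num)
  obtain ⟨K9, hK90, hK9⟩ := hK 9 (by norm_num)
  set K : ℝ := 40 * (K7 + 1) + 10 * (K8 + 1) + 80 * (K9 + 1) with hKd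
  have hKpos : 0 < K := by positivity
  refine ⟨1 / (2 * K), by positivity, fun θ hq h3 h4 h => ?_⟩
  set k : ℝ := 1 / (2 * K) with hk
  have hk0 : 0 < k := by positivity
  have hl : ∀ n : ℕ, n = 7 ∨ n = 8 ∨ n = 9 → ∀ K' : ℝ, (∀ (a0 a1 y : ℂ) (d : ℝ),
      (∀ P : ℕ, 1 ≤ P → P ≤ 3 → ‖a0 + (Real.tan (π * ((P:ℝ) / n)) : ℂ) ^ 2 * a1 +
        (Real.tan (π * ((P:ℝ) / n)) : ℂ) ^ 4 * y‖ ≤ d) → ‖y‖ ≤ K' * d) →
      ‖lead θ n‖ ≤ (K' + 1) * (k * θ.E) := by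
    intro n hn K' hK'
    obtain ⟨a0, a1, y, hy, hy2⟩ := h n hn
    have h5 := hK' a0 a1 y _ hy
    calc ‖lead θ n‖ = ‖y - (y - lead θ n)‖ := by congr 1; ring
      _ ≤ ‖y‖ + ‖y - lead θ n‖ := norm_sub_le _ _
      _ ≤ K' * (k * θ.E) + k * θ.E := add_le_add h5 hy2
      _ = _ := by ring
  have l7 := hl 7 (by norm_num) K7 hK7
  have l8 := hl 8 (by norm_num) K8 hK8
  have l9 := hl 9 (by norm_num) K9 hK9
  set a : ℝ := ‖θ.c3‖ with ha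
  set b : ℝ := ‖θ.c4‖ with hb
  set s : ℝ := ‖θ.q‖ with hs
  have ha0 : 0 ≤ a := norm_nonneg _
  have hb0 : 0 ≤ b := norm_nonneg _
  have hs0 : 0 ≤ s := norm_nonneg _
  have n7 : ‖lead θ 7‖ = a * b / 2 := by
    simp only [lead, if_true, norm_mul, norm_div, Complex.norm_I, Complex.norm_ofNat]
    rw [← ha, ← hb]
    ring
  have n9 : ‖lead θ 9‖ = a ^ 3 / 8 := by
    have : lead θ 9 = Complex.I / 8 * θ.c3 ^ 3 := by
      unfold lead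
      norm_num
    rw [this]
    simp only [norm_mul, norm_div, Complex.norm_I, Complex.norm_ofNat, norm_pow]
    rw [← ha]
    ring
  have n8 : ‖lead θ 8‖ = ‖2 * θ.c4 ^ 2 - θ.q * θ.c3 ^ 2‖ := by
    have : lead θ 8 = Complex.I * (2 * θ.c4 ^ 2 - θ.q * θ.c3 ^ 2) := by
      unfold lead
      norm_num
    rw [this, norm_mul, Complex.norm_I, one_mul]
  have hu1 : 2 * b ^ 2 - s * a ^ 2 ≤ ‖lead θ 8‖ := by
    rw [n8]
    have := norm_sub_norm_le (2 * θ.c4 ^ 2) (θ.q * θ.c3 ^ 2)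
    simpa [norm_mul, norm_pow, ← ha, ← hb, ← hs] using this
  have hu2 : s * a ^ 2 - 2 * b ^ 2 ≤ ‖lead θ 8‖ := by
    rw [n8, norm_sub_rev]
    have := norm_sub_norm_le (θ.q * θ.c3 ^ 2) (2 * θ.c4 ^ 2)
    simpa [norm_mul, norm_pow, ← ha, ← hb, ← hs] using this
  have hel := elem ha0 hb0 hs0 h3 h4 hq hu1 hu2
  have hE : θ.E = (a + b) * (b + s * a) + (a + b) ^ 3 := rfl
  have hE0 : 0 ≤ θ.E := by
    rw [hE]
    positivity
  rw [← hE] at hel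
  rw [n7] at l7
  rw [n9] at l9
  have hfin : θ.E ≤ K * (k * θ.E) := by
    have e1 : K * (k * θ.E) = 20 * (2 * ((K7 + 1) * (k * θ.E))) + 10 * ((K8 + 1) * (k * θ.E)) +
        10 * (8 * ((K9 + 1) * (k * θ.E))) := by
      rw [hKd]
      ring
    rw [e1]
    linarith
  have hKk : K * (k * θ.E) = θ.E / 2 := by
    rw [hk]
    field_simp
  rw [hKk] at hfin
  have hEz : θ.E = 0 := by linarith
  have h6 : (a + b) ^ 3 ≤ 0 := by
    have : 0 ≤ (a + b) * (b + s * a) := by positivity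
    linarith [hE ▸ hEz]
  have h7 : a + b = 0 := by
    by_contra hne
    have : 0 < a + b := lt_of_le_of_ne (by positivity) (Ne.symm hne)
    have : 0 < (a + b) ^ 3 := by positivity
    linarith
  exact ⟨norm_eq_zero.1 (by linarith), norm_eq_zero.1 (by linarith)⟩

end Pool.Agent.MP_ae5b4e_an_NC
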