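import Mathlib
import Pool.Agent.Lib.MP_ae5b4e_an_NC.Def

/-!
# MP_ae5b4e_an, project NC: the leading terms of the source functions (pointwise)

A small calculus: `Ap s f f0` says that `f0` is bounded by a constant times the size `s` and that
`f - f0` is bounded by a constant times `δ s`, for all jets which are `δ`-close to the jet of the
circle at a point `u` of the unit circle.
-/

noncomputable section

namespace Pool.Agent.MP_ae5b4e_an_NC

open Real Set Filter Topology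

/-- the data: jet, parameters, point of the unit circle, closeness -/
structure Dat where
  J : Jet
  θ : Par
  u : ℂ
  δ : ℝ

/-- the admissible data -/
structure Adm (d : Dat) : Prop where
  δ0 : 0 ≤ d.δ
  δ1 : d.δ ≤ 1 / 100
  u : ‖d.u‖ = 1
  w : ‖d.J.w - d.u‖ ≤ d.δ
  z : |d.J.z - 1| ≤ d.δ
  w1 : ‖d.J.w1 - Complex.I * d.u‖ ≤ d.δ
  z1 : |d.J.z1| ≤ d.δ
  q : ‖d.θ.q‖ ≤ d.δ
  c3 : ‖d.θ.c3‖ ≤ d.δ
  c4 : ‖d.θ.c4‖ ≤ d.δ

/-- the calculus -/
def Ap {E : Type} [NormedRing E] (s : Dat → ℝ) (f f0 : Dat → E) : Prop :=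
  ∃ C : ℝ, 0 ≤ C ∧ ∃ r : ℝ, 0 < r ∧
    ∀ d, Adm d → d.δ ≤ r → ‖f0 d‖ ≤ C * s d ∧ ‖f d - f0 d‖ ≤ C * (d.δ * s d)

section calculus

variable {E : Type} [NormedRing E] {s t : Dat → ℝ} {f f0 g g0 : Dat → E}

theorem Ap.bound (h : Ap s f f0) : ∃ C : ℝ, 0 ≤ C ∧ ∃ r : ℝ, 0 < r ∧
    ∀ d, Adm d → d.δ ≤ r → ‖f d‖ ≤ C * s d := by
  obtain ⟨C, hC, r, hr, h⟩ := h
  refine ⟨2 * C, by positivity, r, hr, fun d hd hdr => ?_⟩
  obtain ⟨h1, h2⟩ := h d hd hdr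
  have hδ : d.δ ≤ 1 := hd.δ1.trans (by norm_num)
  have h0 : 0 ≤ C * s d := (norm_nonneg _).trans h1
  have h3 : C * (d.δ * s d) ≤ C * s d := by
    have : C * (d.δ * s d) = d.δ * (C * s d) := by ring
    rw [this]
    nlinarith
  calc ‖f d‖ = ‖(f d - f0 d) + f0 d‖ := by rw [sub_add_cancel]
    _ ≤ ‖f d - f0 d‖ + ‖f0 d‖ := norm_add_le _ _
    _ ≤ 2 * C * s d := by linarith

theorem Ap.mul (h : Ap s f f0) (k : Ap t g g0) :
    Ap (fun d => s d * t d) (fun d => f d * g d) (fun d => f0 d * g0 d) := by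
  obtain ⟨B, hB, r0, hr0, hb⟩ := h.bound
  obtain ⟨C, hC, r1, hr1, h⟩ := h
  obtain ⟨D, hD, r2, hr2, k⟩ := k
  refine ⟨C * D + B * D + C * D, by positivity, min r0 (min r1 r2), by positivity,
    fun d hd hdr => ?_⟩
  obtain ⟨h1, h2⟩ := h d hd (hdr.trans ((min_le_right _ _).trans (min_le_left _ _)))
  obtain ⟨k1, k2⟩ := k d hd (hdr.trans ((min_le_right _ _).trans (min_le_right _ _)))
  have hb1 := hb d hd (hdr.trans (min_le_left _ _))
  have hs0 : 0 ≤ C * s d := (norm_nonneg _).trans h1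
  have ht0 : 0 ≤ D * t d := (norm_nonneg _).trans k1
  have hs1 : 0 ≤ B * s d := (norm_nonneg _).trans hb1
  have hδ := hd.δ0
  constructor
  · have e1 : ‖f0 d * g0 d‖ ≤ (C * s d) * (D * t d) :=
      (norm_mul_le _ _).trans (mul_le_mul h1 k1 (norm_nonneg _) hs0)
    have e2 : 0 ≤ B * s d * (D * t d) := mul_nonneg hs1 ht0
    have e3 : 0 ≤ C * s d * (D * t d) := mul_nonneg hs0 ht0
    calc ‖f0 d * g0 d‖ ≤ (C * s d) * (D * t d) := e1
      _ ≤ (C * s d) * (D * t d) + B * s d * (D * t d) + C * s d * (D * t d) := by linarith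
      _ = _ := by ring
  · have e1 : f d * g d - f0 d * g0 d = f d * (g d - g0 d) + (f d - f0 d) * g0 d := by
      noncomm_ring
    have e2 : ‖f d * (g d - g0 d)‖ ≤ (B * s d) * (D * (d.δ * t d)) :=
      (norm_mul_le _ _).trans (mul_le_mul hb1 k2 (norm_nonneg _) hs1)
    have e3 : ‖(f d - f0 d) * g0 d‖ ≤ (C * (d.δ * s d)) * (D * t d) :=
      (norm_mul_le _ _).trans (mul_le_mul h2 k1 (norm_nonneg _) ((norm_nonneg _).trans h2))
    have e4 : 0 ≤ d.δ * (C * s d * (D * t d)) := mul_nonneg hδ (mul_nonneg hs0 ht0)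
    rw [e1]
    calc ‖f d * (g d - g0 d) + (f d - f0 d) * g0 d‖ ≤
        ‖f d * (g d - g0 d)‖ + ‖(f d - f0 d) * g0 d‖ := norm_add_le _ _
      _ ≤ (B * s d) * (D * (d.δ * t d)) + (C * (d.δ * s d)) * (D * t d) := add_le_add e2 e3
      _ ≤ (B * s d) * (D * (d.δ * t d)) + (C * (d.δ * s d)) * (D * t d) +
          d.δ * (C * s d * (D * t d)) := by linarith
      _ = _ := by ring

theorem Ap.add (h : Ap s f f0) (k : Ap s g g0) :
    Ap s (fun d => f d + g d) (fun d => f0 d + g0 d) := by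
  obtain ⟨C, hC, r1, hr1, h⟩ := h
  obtain ⟨D, hD, r2, hr2, k⟩ := k
  refine ⟨C + D, by positivity, min r1 r2, by positivity, fun d hd hdr => ?_⟩
  obtain ⟨h1, h2⟩ := h d hd (hdr.trans (min_le_left _ _))
  obtain ⟨k1, k2⟩ := k d hd (hdr.trans (min_le_right _ _))
  constructor
  · calc _ ≤ _ := norm_add_le _ _
      _ ≤ _ := add_le_add h1 k1
      _ = _ := by ring
  · have e1 : f d + g d - (f0 d + g0 d) = (f d - f0 d) + (g d - g0 d) := by abel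
    rw [e1]
    calc _ ≤ _ := norm_add_le _ _
      _ ≤ _ := add_le_add h2 k2
      _ = _ := by ring

theorem Ap.neg (h : Ap s f f0) : Ap s (fun d => -f d) (fun d => -f0 d) := by
  obtain ⟨C, hC, r, hr, h⟩ := h
  refine ⟨C, hC, r, hr, fun d hd hdr => ?_⟩
  obtain ⟨h1, h2⟩ := h d hd hdr
  constructor
  · rwa [norm_neg]
  · have e1 : -f d - -f0 d = -(f d - f0 d) := by abel
    rwa [e1, norm_neg]

theorem Ap.sub (h : Ap s f f0) (k : Ap s g g0) :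
    Ap s (fun d => f d - g d) (fun d => f0 d - g0 d) := by
  simpa [sub_eq_add_neg] using h.add k.neg

theorem Ap.mono (h : Ap s f f0) (hst : ∀ d, Adm d → s d ≤ t d) : Ap t f f0 := by
  obtain ⟨C, hC, r, hr, h⟩ := h
  refine ⟨C, hC, r, hr, fun d hd hdr => ?_⟩
  obtain ⟨h1, h2⟩ := h d hd hdr
  have := hst d hd
  have hδ := hd.δ0
  exact ⟨h1.trans (by gcongr), h2.trans (by gcongr)⟩

/-- terms of small size -/
theorem Ap.small (h : Ap s f f0) (ht : ∀ d, Adm d → 0 ≤ t d)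
    (hst : ∀ d, Adm d → s d ≤ d.δ * t d) : Ap t f (fun _ => 0) := by
  obtain ⟨B, hB, r, hr, hb⟩ := h.bound
  refine ⟨B, hB, r, hr, fun d hd hdr => ?_⟩
  have h1 := hb d hd hdr
  have h2 := hst d hd
  have h3 : B * s d ≤ B * (d.δ * t d) := by gcongr
  constructor
  · rw [norm_zero]
    exact mul_nonneg hB (ht d hd)
  · rw [sub_zero]
    exact h1.trans h3

theorem Ap.zero (ht : ∀ d, Adm d → 0 ≤ t d) : Ap t (fun _ => (0:E)) (fun _ => 0) := by
  refine ⟨1, zero_le_one, 1, one_pos, fun d hd _ => ?_⟩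
  have h1 := ht d hd
  have hδ := hd.δ0
  simp only [norm_zero, sub_zero, one_mul]
  exact ⟨h1, mul_nonneg hδ h1⟩

/-- exact terms -/
theorem Ap.self (ht : ∀ d, Adm d → 0 ≤ s d) (C : ℝ) (h : ∀ d, Adm d → ‖f d‖ ≤ C * s d) :
    Ap s f f := by
  refine ⟨max C 0, le_max_right _ _, 1, one_pos, fun d hd _ => ?_⟩
  have h1 := h d hd
  have h2 := ht d hd
  have hδ := hd.δ0
  have h3 : C * s d ≤ max C 0 * s d := mul_le_mul_of_nonneg_right (le_max_left _ _) h2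
  refine ⟨h1.trans h3, ?_⟩
  rw [sub_self, norm_zero]
  exact mul_nonneg (le_max_right _ _) (mul_nonneg hδ h2)

theorem Ap.congr (h : Ap s f f0) (h1 : ∀ d, Adm d → g d = f d)
    (h2 : ∀ d, Adm d → g0 d = f0 d) : Ap s g g0 := by
  obtain ⟨C, hC, r, hr, h⟩ := h
  refine ⟨C, hC, r, hr, fun d hd hdr => ?_⟩
  rw [h1 d hd, h2 d hd]
  exact h d hd hdr

theorem Ap.mul_one' (h : Ap s f f0) (k : Ap (fun _ => 1) g g0) :
    Ap s (fun d => f d * g d) (fun d => f0 d * g0 d) :=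
  (h.mul k).mono fun d _ => by simp

theorem Ap.scale {c : ℝ} (hc : 0 ≤ c) (h : Ap (fun d => c * s d) f f0) : Ap s f f0 := by
  obtain ⟨C, hC, r, hr, h⟩ := h
  refine ⟨C * c, by positivity, r, hr, fun d hd hdr => ?_⟩
  obtain ⟨h1, h2⟩ := h d hd hdr
  exact ⟨h1.trans (le_of_eq (by ring)), h2.trans (le_of_eq (by ring))⟩

theorem Ap.one_mul' (h : Ap (fun _ => 1) f f0) (k : Ap s g g0) :
    Ap s (fun d => f d * g d) (fun d => f0 d * g0 d) :=
  (h.mul k).mono fun d _ => by simp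

/-- inverses -/
theorem Ap.inv {f : Dat → ℝ} (h : Ap (fun _ => 1) f (fun _ => 1)) :
    Ap (fun _ => 1) (fun d => (f d)⁻¹) (fun _ => 1) ∧ ∃ r : ℝ, 0 < r ∧
      ∀ d, Adm d → d.δ ≤ r → 1 / 2 ≤ f d := by
  obtain ⟨C, hC, r, hr, h⟩ := h
  have key : ∀ d, Adm d → d.δ ≤ min r (1 / (2 * (C + 1))) → 1 / 2 ≤ f d := by
    intro d hd hdr
    obtain ⟨_, h2⟩ := h d hd (hdr.trans (min_le_left _ _))
    have h3 : d.δ ≤ 1 / (2 * (C + 1)) := hdr.trans (min_le_right _ _)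
    have h4 : C * (d.δ * 1) ≤ 1 / 2 := by
      rw [mul_one]
      calc C * d.δ ≤ (C + 1) * (1 / (2 * (C + 1))) :=
            mul_le_mul (by linarith) h3 hd.δ0 (by positivity)
        _ = 1 / 2 := by field_simp
    rw [Real.norm_eq_abs] at h2
    have := (abs_le.1 (h2.trans h4)).1
    linarith
  refine ⟨⟨2 * C + 1, by positivity, min r (1 / (2 * (C + 1))), by positivity,
    fun d hd hdr => ⟨by rw [norm_one]; linarith, ?_⟩⟩, _, by positivity, key⟩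
  obtain ⟨_, h2⟩ := h d hd (hdr.trans (min_le_left _ _))
  have h3 := key d hd hdr
  have h4 : f d ≠ 0 := by
    intro h5
    rw [h5] at h3
    norm_num at h3
  have h5 : (f d)⁻¹ - 1 = (1 - f d) * (f d)⁻¹ := by
    field_simp
  have h6 : (f d)⁻¹ ≤ 2 := by
    rw [inv_le_comm₀ (by linarith) (by norm_num)]
    linarith
  have h0 := hd.δ0
  rw [Real.norm_eq_abs] at h2
  rw [h5, norm_mul, Real.norm_eq_abs, Real.norm_eq_abs, abs_sub_comm,
    abs_of_pos (inv_pos.2 (by linarith : (0:ℝ) < f d))]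
  calc |f d - 1| * (f d)⁻¹ ≤ (C * (d.δ * 1)) * 2 :=
        mul_le_mul h2 h6 (inv_nonneg.2 (by linarith)) (by positivity)
    _ ≤ (2 * C + 1) * (d.δ * 1) := by nlinarith

end calculus

theorem Ap.const {E : Type} [NormedRing E] (c : E) :
    Ap (fun _ => 1) (fun _ => c) (fun _ => c) :=
  Ap.self (fun _ _ => zero_le_one) ‖c‖ (fun _ _ => by simp)

theorem Ap.cmul {E : Type} [NormedRing E] {s : Dat → ℝ} {f f0 : Dat → E} (c : E)
    (h : Ap s f f0) : Ap s (fun d => c * f d) (fun d => c * f0 d) :=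
  (Ap.const c).one_mul' h

theorem Ap.pow {E : Type} [NormedRing E] {f f0 : Dat → E} (h : Ap (fun _ => 1) f f0) (n : ℕ) :
    Ap (fun _ => 1) (fun d => f d ^ n) (fun d => f0 d ^ n) := by
  induction n with
  | zero => simpa using Ap.const (1:E)
  | succ n ih => simpa [pow_succ] using ih.mul_one' h

theorem Ap.re {s : Dat → ℝ} {f f0 : Dat → ℂ} (h : Ap s f f0) :
    Ap s (fun d => (f d).re) (fun d => (f0 d).re) := by
  obtain ⟨C, hC, r, hr, h⟩ := h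
  refine ⟨C, hC, r, hr, fun d hd hdr => ?_⟩
  obtain ⟨h1, h2⟩ := h d hd hdr
  constructor
  · exact (Complex.abs_re_le_norm _).trans h1
  · rw [← Complex.sub_re]
    exact (Complex.abs_re_le_norm _).trans h2

theorem Ap.ofReal {s : Dat → ℝ} {f f0 : Dat → ℝ} (h : Ap s f f0) :
    Ap s (fun d => ((f d : ℝ) : ℂ)) (fun d => ((f0 d : ℝ) : ℂ)) := by
  obtain ⟨C, hC, r, hr, h⟩ := h
  refine ⟨C, hC, r, hr, fun d hd hdr => ?_⟩
  obtain ⟨h1, h2⟩ := h d hd hdr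
  constructor
  · rwa [Complex.norm_real]
  · rwa [← Complex.ofReal_sub, Complex.norm_real]

theorem Ap.conj {s : Dat → ℝ} {f f0 : Dat → ℂ} (h : Ap s f f0) :
    Ap s (fun d => (starRingEnd ℂ) (f d)) (fun d => (starRingEnd ℂ) (f0 d)) := by
  obtain ⟨C, hC, r, hr, h⟩ := h
  refine ⟨C, hC, r, hr, fun d hd hdr => ?_⟩
  obtain ⟨h1, h2⟩ := h d hd hdr
  constructor
  · rwa [Complex.norm_conj]
  · rwa [← map_sub, Complex.norm_conj]

theorem Ap.normSq {f f0 : Dat → ℂ} (h : Ap (fun _ => 1) f f0) :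
    Ap (fun _ => 1) (fun d => Complex.normSq (f d)) (fun d => Complex.normSq (f0 d)) := by
  refine (h.conj.mul_one' h).re.congr (fun d _ => ?_) (fun d _ => ?_)
  · rw [← Complex.normSq_eq_conj_mul_self, Complex.ofReal_re]
  · rw [← Complex.normSq_eq_conj_mul_self, Complex.ofReal_re]

/-! ### The sizes -/

/-- `|q|` -/
def sq (d : Dat) : ℝ := ‖d.θ.q‖
/-- `|c3|` -/
def sa (d : Dat) : ℝ := ‖d.θ.c3‖
/-- `|c4|` -/
def sb (d : Dat) : ℝ := ‖d.θ.c4‖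
/-- `|c3| + |c4|` -/
def sc (d : Dat) : ℝ := d.θ.c
/-- `|c4| + |q| |c3|` -/
def st (d : Dat) : ℝ := ‖d.θ.c4‖ + ‖d.θ.q‖ * ‖d.θ.c3‖

theorem sa_le (d : Dat) : sa d ≤ sc d := by
  unfold sa sc Par.c
  linarith [norm_nonneg d.θ.c4]

theorem sb_le (d : Dat) : sb d ≤ sc d := by
  unfold sb sc Par.c
  linarith [norm_nonneg d.θ.c3]

theorem sq0 (d : Dat) : 0 ≤ sq d := norm_nonneg _
theorem sa0 (d : Dat) : 0 ≤ sa d := norm_nonneg _
theorem sb0 (d : Dat) : 0 ≤ sb d := norm_nonneg _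
theorem sc0 (d : Dat) : 0 ≤ sc d := (sa0 d).trans (sa_le d)
theorem st0 (d : Dat) : 0 ≤ st d := by unfold st; positivity

/-! ### The basic functions -/

theorem ap_w : Ap (fun _ => 1) (fun d => d.J.w) (fun d => d.u) :=
  ⟨1, zero_le_one, 1, one_pos, fun d hd _ => ⟨by rw [hd.u]; norm_num, by simpa using hd.w⟩⟩

theorem ap_w1 : Ap (fun _ => 1) (fun d => d.J.w1) (fun d => Complex.I * d.u) :=
  ⟨1, zero_le_one, 1, one_pos, fun d hd _ => ⟨by rw [norm_mul, hd.u, Complex.norm_I],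
    by simpa using hd.w1⟩⟩

theorem ap_z : Ap (fun _ => 1) (fun d => d.J.z) (fun _ => 1) :=
  ⟨1, zero_le_one, 1, one_pos, fun d hd _ => ⟨by norm_num, by simpa using hd.z⟩⟩

theorem ap_z1 : Ap (fun _ => 1) (fun d => d.J.z1) (fun _ => 0) :=
  ⟨1, zero_le_one, 1, one_pos, fun d hd _ => ⟨by norm_num, by simpa using hd.z1⟩⟩

theorem ap_q : Ap sq (fun d => d.θ.q) (fun d => d.θ.q) :=
  Ap.self (fun d _ => sq0 d) 1 (fun d _ => by simp [sq])

theorem ap_c3 : Ap sa (fun d => d.θ.c3) (fun d => d.θ.c3) :=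
  Ap.self (fun d _ => sa0 d) 1 (fun d _ => by simp [sa])

theorem ap_c4 : Ap sb (fun d => d.θ.c4) (fun d => d.θ.c4) :=
  Ap.self (fun d _ => sb0 d) 1 (fun d _ => by simp [sb])

theorem al_close {d : Dat} (hd : Adm d) : |d.J.al d.θ - 1| ≤ 4 * d.δ := by
  have h0 := hd.δ0
  have h1 := hd.δ1
  have hw : ‖d.J.w‖ ≤ 1 + d.δ := by
    calc ‖d.J.w‖ = ‖(d.J.w - d.u) + d.u‖ := by rw [sub_add_cancel]
      _ ≤ ‖d.J.w - d.u‖ + ‖d.u‖ := norm_add_le _ _
      _ ≤ 1 + d.δ := by linarith [hd.w, hd.u]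
  have hz := abs_le.1 hd.z
  have h2 : |(d.θ.q * d.J.w ^ 2).re| ≤ d.δ * (1 + d.δ) ^ 2 := by
    calc |(d.θ.q * d.J.w ^ 2).re| ≤ ‖d.θ.q * d.J.w ^ 2‖ := Complex.abs_re_le_norm _
      _ = ‖d.θ.q‖ * ‖d.J.w‖ ^ 2 := by rw [norm_mul, norm_pow]
      _ ≤ d.δ * (1 + d.δ) ^ 2 := mul_le_mul hd.q (by gcongr) (by positivity) h0
  have h3 := abs_le.1 h2
  unfold Jet.al
  have h5 : (1 + d.δ) ^ 2 ≤ 11 / 10 := by nlinarith
  have h4 : d.δ * (1 + d.δ) ^ 2 ≤ 11 / 10 * d.δ := by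
    have := mul_le_mul_of_nonneg_left h5 h0
    linarith
  rw [abs_le]
  constructor <;> nlinarith

theorem al_pos {d : Dat} (hd : Adm d) : 24 / 25 ≤ d.J.al d.θ := by
  have := abs_le.1 (al_close hd)
  have h1 := hd.δ1
  linarith

theorem ap_al : Ap (fun _ => 1) (fun d => d.J.al d.θ) (fun _ => 1) := by
  refine ⟨4, by norm_num, 1, one_pos, fun d hd _ => ⟨by norm_num, ?_⟩⟩
  have := al_close hd
  simpa using this

theorem ap_ial : Ap (fun _ => 1) (fun d => (d.J.al d.θ)⁻¹) (fun _ => 1) := ap_al.inv.1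

/-! ### `ka`, `wT`, `zT`, `la` -/

theorem ap_qw2 : Ap sq (fun d => (d.θ.q * d.J.w ^ 2).re) (fun d => (d.θ.q * d.u ^ 2).re) :=
  (ap_q.mul_one' (ap_w.pow 2)).re

theorem ap_qww1 : Ap sq (fun d => (d.θ.q * (d.J.w * d.J.w1)).re)
    (fun d => (d.θ.q * (d.u * (Complex.I * d.u))).re) :=
  (ap_q.mul_one' (ap_w.mul_one' ap_w1)).re

theorem sq_small {d : Dat} (hd : Adm d) : sq d ≤ d.δ * 1 := by
  simpa [sq] using hd.q

theorem sa_small {d : Dat} (hd : Adm d) : sa d ≤ d.δ * 1 := by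
  simpa [sa] using hd.c3

theorem sb_small {d : Dat} (hd : Adm d) : sb d ≤ d.δ * 1 := by
  simpa [sb] using hd.c4

theorem ap_ka : Ap (fun _ => 1) (fun d => d.J.ka d.θ) (fun _ => 0) := by
  have h1 : Ap (fun _ => 1) (fun d => d.J.z * d.J.z1) (fun _ => 1 * 0) := ap_z.mul_one' ap_z1
  have h2 : Ap (fun _ => 1) (fun d => (d.θ.q * (d.J.w * d.J.w1)).re) (fun _ => 0) :=
    ap_qww1.small (fun _ _ => zero_le_one) fun d hd => sq_small hd
  refine ((h1.add h2).mul_one' ap_ial).congr (fun d hd => ?_) (fun d hd => by ring)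
  have h3 : d.J.al d.θ ≠ 0 := by linarith [al_pos hd]
  unfold Jet.ka Jet.al1
  field_simp

theorem ap_wT : Ap (fun _ => 1) (fun d => d.J.wT d.θ) (fun d => Complex.I * d.u) := by
  refine (ap_w1.sub (ap_ka.ofReal.mul_one' ap_w)).congr (fun d _ => rfl) (fun d _ => by simp)

theorem zT_eq {d : Dat} (hd : Adm d) : d.J.zT d.θ = (d.J.z1 * (d.θ.q * d.J.w ^ 2).re -
    d.J.z * (d.θ.q * (d.J.w * d.J.w1)).re) * (d.J.al d.θ)⁻¹ := by
  have h3 : d.J.al d.θ ≠ 0 := by linarith [al_pos hd]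
  unfold Jet.zT Jet.ka Jet.al1
  field_simp
  unfold Jet.al
  ring

theorem ap_zT : Ap sq (fun d => d.J.zT d.θ)
    (fun d => -(d.θ.q * (d.u * (Complex.I * d.u))).re) := by
  refine (((ap_z1.one_mul' ap_qw2).sub (ap_z.one_mul' ap_qww1)).mul_one' ap_ial).congr
    (fun d hd => zT_eq hd) (fun d hd => by ring)

theorem ap_la : Ap sq (fun d => d.J.la d.θ) (fun d => -(d.θ.q * d.u ^ 2).re) := by
  have h1 : Ap sq (fun d => d.J.zT d.θ * d.J.zT d.θ) (fun _ => 0) :=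
    (ap_zT.mul ap_zT).small (fun d _ => sq0 d) fun d hd => by
      have := sq_small hd
      have h0 := sq0 d
      nlinarith
  have h2 := (ap_q.mul_one' (ap_wT.pow 2)).re
  refine ((h1.add h2).mul_one' ap_ial).congr (fun d hd => ?_) (fun d hd => ?_)
  · unfold Jet.la
    ring
  · have : (Complex.I * d.u) ^ 2 = -d.u ^ 2 := by
      rw [mul_pow, Complex.I_sq]
      ring
    rw [this]
    simp

/-! ### `psi2`, `G3`, `G4` -/

theorem ap_b1 : Ap (fun _ => 1) (fun d => d.J.b1 d.θ) (fun _ => 0) := by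
  have h1 : Ap (fun _ => 1) (fun d => 2 * ((starRingEnd ℂ) d.J.w * d.J.wT d.θ).re)
      (fun _ => 0) := by
    refine ((ap_w.conj.mul_one' ap_wT).re.cmul (2:ℝ)).congr (fun d _ => rfl) (fun d hd => ?_)
    have h2 : (starRingEnd ℂ) d.u * (Complex.I * d.u) = Complex.I := by
      have h3 : (starRingEnd ℂ) d.u * d.u = 1 := by
        rw [← Complex.normSq_eq_conj_mul_self, Complex.normSq_eq_norm_sq, hd.u]
        norm_num
      linear_combination Complex.I * h3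
    rw [h2, Complex.I_re]
    ring
  have h2 : Ap (fun _ => 1) (fun d => d.J.zT d.θ) (fun _ => 0) :=
    ap_zT.small (fun _ _ => zero_le_one) fun d hd => sq_small hd
  refine (h1.sub ((ap_z.mul_one' h2).cmul (2:ℝ))).congr (fun d _ => rfl) (fun d _ => by ring)

theorem ap_b2 : Ap (fun _ => 1) (fun d => d.J.b2 d.θ) (fun _ => 1) := by
  have h2 : Ap (fun _ => 1) (fun d => d.J.zT d.θ) (fun _ => 0) :=
    ap_zT.small (fun _ _ => zero_le_one) fun d hd => sq_small hd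
  refine (ap_wT.normSq.sub (h2.pow 2)).congr (fun d _ => rfl) (fun d hd => ?_)
  rw [Complex.normSq_mul, Complex.normSq_I, Complex.normSq_eq_norm_sq, hd.u]
  norm_num

theorem ap_Q1 : Ap (fun _ => 1) (fun d => Q1 d.J.w d.J.z) (fun _ => 0) := by
  refine (ap_w.normSq.sub (ap_z.pow 2)).congr (fun d _ => rfl) (fun d hd => ?_)
  rw [Complex.normSq_eq_norm_sq, hd.u]
  norm_num

theorem ap_la1 : Ap (fun _ => 1) (fun d => d.J.la d.θ) (fun _ => 0) :=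
  ap_la.small (fun _ _ => zero_le_one) fun _ hd => sq_small hd

theorem ap_zT1 : Ap (fun _ => 1) (fun d => d.J.zT d.θ) (fun _ => 0) :=
  ap_zT.small (fun _ _ => zero_le_one) fun _ hd => sq_small hd

/-- the `c3`-part and the `c4`-part of the coefficients of `G` -/
theorem ap_g0a : Ap sa (fun d => (d.θ.c3 * (d.J.w ^ 3 * d.J.z)).re)
    (fun d => (d.θ.c3 * (d.u ^ 3)).re) := by
  refine (ap_c3.mul_one' ((ap_w.pow 3).mul_one' ap_z.ofReal)).re.congr (fun d _ => rfl)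
    (fun d _ => by simp)

theorem ap_g0b : Ap sb (fun d => (d.θ.c4 * d.J.w ^ 4).re) (fun d => (d.θ.c4 * d.u ^ 4).re) :=
  (ap_c4.mul_one' (ap_w.pow 4)).re

theorem ap_g0 : Ap sc (fun d => d.J.g0 d.θ)
    (fun d => (d.θ.c3 * (d.u ^ 3)).re + (d.θ.c4 * d.u ^ 4).re) := by
  refine ((ap_g0a.mono fun d _ => sa_le d).add (ap_g0b.mono fun d _ => sb_le d)).congr
    (fun d _ => ?_) (fun d _ => rfl)
  unfold Jet.g0
  rw [Complex.add_re]

theorem ap_g1 : ∃ f0, Ap sc (fun d => d.J.g1 d.θ) f0 := by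
  have h1 := (ap_c3.mul_one' (((((ap_w.pow 2).mul_one' ap_wT).mul_one' ap_z.ofReal).cmul
    (3:ℂ)).add ((ap_w.pow 3).mul_one' ap_zT1.ofReal))).re
  have h2 := (ap_c4.mul_one' (((ap_w.pow 3).mul_one' ap_wT).cmul (4:ℂ))).re
  refine ⟨_, ((h1.mono fun d _ => sa_le d).add (h2.mono fun d _ => sb_le d)).congr
    (fun d _ => ?_) (fun d _ => rfl)⟩
  unfold Jet.g1
  rw [Complex.add_re]

theorem ap_g2a : Ap sa (fun d => (d.θ.c3 * (3 * (d.J.w * d.J.wT d.θ ^ 2 * d.J.z) +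
      3 * (d.J.w ^ 2 * d.J.wT d.θ * d.J.zT d.θ))).re)
    (fun d => (d.θ.c3 * (-3 * d.u ^ 3)).re) := by
  refine (ap_c3.mul_one' ((((ap_w.mul_one' (ap_wT.pow 2)).mul_one' ap_z.ofReal).cmul
    (3:ℂ)).add ((((ap_w.pow 2).mul_one' ap_wT).mul_one' ap_zT1.ofReal).cmul (3:ℂ)))).re.congr
    (fun d _ => rfl) (fun d _ => ?_)
  congr 2
  push_cast
  linear_combination (-3 * d.u ^ 3) * Complex.I_sq

theorem ap_g2b : Ap sb (fun d => (d.θ.c4 * (6 * (d.J.w ^ 2 * d.J.wT d.θ ^ 2))).re)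
    (fun d => (d.θ.c4 * (-6 * d.u ^ 4)).re) := by
  refine (ap_c4.mul_one' (((ap_w.pow 2).mul_one' (ap_wT.pow 2)).cmul (6:ℂ))).re.congr
    (fun d _ => rfl) (fun d _ => ?_)
  congr 2
  linear_combination (-6 * d.u ^ 4) * Complex.I_sq

theorem g2_split (d : Dat) : d.J.g2 d.θ = (d.θ.c3 * (3 * (d.J.w * d.J.wT d.θ ^ 2 * d.J.z) +
      3 * (d.J.w ^ 2 * d.J.wT d.θ * d.J.zT d.θ))).re +
    (d.θ.c4 * (6 * (d.J.w ^ 2 * d.J.wT d.θ ^ 2))).re := by
  unfold Jet.g2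
  rw [Complex.add_re]

theorem ap_g2 : ∃ f0, Ap sc (fun d => d.J.g2 d.θ) f0 :=
  ⟨_, ((ap_g2a.mono fun d _ => sa_le d).add (ap_g2b.mono fun d _ => sb_le d)).congr
    (fun d _ => g2_split d) (fun _ _ => rfl)⟩

/-- the leading part of `G3` -/
def L3 (θ : Par) (u : ℂ) : ℝ := (θ.c3 * (-Complex.I * u ^ 3) + θ.c4 * (-4 * Complex.I * u ^ 4)).re

theorem ap_g3 : Ap sc (fun d => d.J.g3 d.θ) (fun d => L3 d.θ d.u) := by
  have h1 := (ap_c3.mul_one' (((ap_wT.pow 3).mul_one' ap_z.ofReal).add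
    (((ap_w.mul_one' (ap_wT.pow 2)).mul_one' ap_zT1.ofReal).cmul (3:ℂ)))).re
  have h2 := (ap_c4.mul_one' ((ap_w.mul_one' (ap_wT.pow 3)).cmul (4:ℂ))).re
  refine ((h1.mono fun d _ => sa_le d).add (h2.mono fun d _ => sb_le d)).congr
    (fun d _ => ?_) (fun d _ => ?_)
  · unfold Jet.g3
    rw [Complex.add_re]
  · unfold L3
    rw [Complex.add_re]
    congr 3
    · push_cast
      linear_combination (-Complex.I * d.u ^ 3) * Complex.I_sq
    · linear_combination (-4 * Complex.I * d.u ^ 4) * Complex.I_sq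

theorem ap_G3 : Ap sc (fun d => d.J.G3 d.θ) (fun d => L3 d.θ d.u) := by
  obtain ⟨f1, h1⟩ := ap_g1
  have h2 : Ap sc (fun d => d.J.la d.θ * d.J.g1 d.θ) (fun _ => 0) := by
    refine (ap_la1.one_mul' h1).congr (fun d _ => rfl) (fun d _ => by ring)
  refine ((ap_g3.sub h2).mul_one' (ap_ial.pow 2)).congr (fun d _ => ?_) (fun d _ => by ring)
  unfold Jet.G3
  rw [div_eq_mul_inv, inv_pow]

theorem ap_psi2 : Ap (fun _ => 1) (fun d => d.J.psi2 d.θ) (fun _ => 1) := by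
  have h0 : ∀ f f0 : Dat → ℝ, Ap sc f f0 → Ap (fun _ => 1) f (fun _ => 0) := fun f f0 h =>
    (h.small (t := fun _ => 2 * 1) (fun _ _ => by norm_num) fun d hd => by
      unfold sc Par.c
      linarith [hd.c3, hd.c4]).scale (by norm_num)
  obtain ⟨f2, h2⟩ := ap_g2
  have hg2 := h0 _ _ h2
  have hg0 := h0 _ _ ap_g0
  refine (((ap_b2.sub (ap_la1.mul_one' ap_Q1)).mul_one' ap_ial).add
    ((hg2.sub ((ap_la1.mul_one' hg0).cmul (2:ℝ))).mul_one' (ap_ial.pow 2))).congr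
    (fun d _ => ?_) (fun d _ => by ring)
  unfold Jet.psi2
  rw [div_eq_mul_inv, div_eq_mul_inv, inv_pow]

/-- the leading part of `G4` -/
def L4 (θ : Par) (u : ℂ) : ℝ := (θ.c4 * u ^ 4).re +
  (θ.q * (Complex.I * u ^ 2)).re * (θ.c3 * (Complex.I * u ^ 3)).re -
    3 * ((θ.q * u ^ 2).re * (θ.c3 * u ^ 3).re)

theorem ap_G4 : Ap st (fun d => d.J.G4 d.θ) (fun d => L4 d.θ d.u) := by
  -- `c4`-part
  have hb : ∀ d : Dat, Adm d → sb d ≤ st d := fun d _ => by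
    unfold sb st
    have : 0 ≤ ‖d.θ.q‖ * ‖d.θ.c3‖ := by positivity
    linarith
  have hqa : ∀ d : Dat, Adm d → sq d * sa d ≤ st d := fun d _ => by
    unfold sq sa st
    have : 0 ≤ ‖d.θ.c4‖ := norm_nonneg _
    linarith
  have hqb : ∀ d : Dat, Adm d → sq d * sb d ≤ d.δ * st d := fun d hd => by
    have h1 := sq_small hd
    have h2 := hb d hd
    have h3 := sb0 d
    have h4 := hd.δ0
    nlinarith
  have hqqa : ∀ d : Dat, Adm d → sq d * (sq d * sa d) ≤ d.δ * st d := fun d hd => by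
    have h1 := sq_small hd
    have h2 := hqa d hd
    have h3 : 0 ≤ sq d * sa d := mul_nonneg (sq0 d) (sa0 d)
    have h4 := hd.δ0
    nlinarith
  have h4b : Ap st (fun d => (d.θ.c4 * d.J.wT d.θ ^ 4).re) (fun d => (d.θ.c4 * d.u ^ 4).re) := by
    refine ((ap_c4.mul_one' (ap_wT.pow 4)).re.mono hb).congr (fun d _ => rfl) (fun d _ => ?_)
    rw [mul_pow, Complex.I_pow_four, one_mul]
  have h4a : Ap st (fun d => (d.θ.c3 * (d.J.wT d.θ ^ 3 * d.J.zT d.θ)).re)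
      (fun d => (d.θ.q * (Complex.I * d.u ^ 2)).re * (d.θ.c3 * (Complex.I * d.u ^ 3)).re) := by
    have h1 := (ap_zT.mul (ap_c3.mul_one' (ap_wT.pow 3)).re).mono hqa
    refine h1.congr (fun d _ => ?_) (fun d _ => ?_)
    · rw [← mul_assoc, mul_comm, Complex.re_ofReal_mul]
    · have e1 : d.u * (Complex.I * d.u) = Complex.I * d.u ^ 2 := by ring
      have e2 : (Complex.I * d.u) ^ 3 = -(Complex.I * d.u ^ 3) := by
        linear_combination (Complex.I * d.u ^ 3) * Complex.I_sq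
      rw [e1, e2, mul_neg, Complex.neg_re]
      ring
  have h2a : Ap st (fun d => d.J.la d.θ * (d.θ.c3 * (3 * (d.J.w * d.J.wT d.θ ^ 2 * d.J.z) +
      3 * (d.J.w ^ 2 * d.J.wT d.θ * d.J.zT d.θ))).re)
      (fun d => 3 * ((d.θ.q * d.u ^ 2).re * (d.θ.c3 * d.u ^ 3).re)) := by
    refine ((ap_la.mul ap_g2a).mono hqa).congr (fun d _ => rfl) (fun d _ => ?_)
    have e1 : d.θ.c3 * (-3 * d.u ^ 3) = ((-3 : ℝ) : ℂ) * (d.θ.c3 * d.u ^ 3) := by
      push_cast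
      ring
    rw [e1, Complex.re_ofReal_mul]
    ring
  have h2b : Ap st (fun d => d.J.la d.θ * (d.θ.c4 * (6 * (d.J.w ^ 2 * d.J.wT d.θ ^ 2))).re)
      (fun _ => 0) :=
    (ap_la.mul ap_g2b).small (fun d _ => st0 d) hqb
  have h0a : Ap st (fun d => d.J.la d.θ ^ 2 * (d.θ.c3 * (d.J.w ^ 3 * d.J.z)).re)
      (fun _ => 0) := by
    refine ((ap_la.mul (ap_la.mul ap_g0a)).small (fun d _ => st0 d) hqqa).congr
      (fun d _ => by ring) (fun d _ => rfl)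
  have h0b : Ap st (fun d => d.J.la d.θ ^ 2 * (d.θ.c4 * d.J.w ^ 4).re) (fun _ => 0) := by
    refine ((ap_la1.one_mul' (ap_la.mul ap_g0b)).small (fun d _ => st0 d) hqb).congr
      (fun d _ => by ring) (fun d _ => rfl)
  refine (((((h4a.add h4b).sub (h2a.add h2b)).add (h0a.add h0b))).mul_one'
    (ap_ial.pow 2)).congr (fun d _ => ?_) (fun d _ => ?_)
  · unfold Jet.G4
    rw [g2_split]
    unfold Jet.g4 Jet.g0
    rw [Complex.add_re, Complex.add_re, div_eq_mul_inv, inv_pow]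
    ring
  · unfold L4
    ring

/-! ### The sources -/

/-- bounds of a product with a small factor: `E = c t + c ^ 3` -/
theorem E_eq (d : Dat) : d.θ.E = sc d * st d + sc d ^ 3 := rfl

theorem ap_e0 : Ap (fun _ => 1) (fun d => d.J.e0 d.θ) (fun _ => 0) := by
  obtain ⟨f1, h1⟩ := ap_g1
  have h2 : Ap (fun _ => 1) (fun d => d.J.g1 d.θ) (fun _ => 0) :=
    (h1.small (t := fun _ => 2 * 1) (fun _ _ => by norm_num) fun d hd => by
      unfold sc Par.c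
      linarith [hd.c3, hd.c4]).scale (by norm_num)
  refine ((ap_b1.mul_one' ap_ial).add (h2.mul_one' (ap_ial.pow 2))).congr (fun d _ => ?_)
    (fun d _ => by ring)
  unfold Jet.e0
  rw [div_eq_mul_inv, div_eq_mul_inv, inv_pow]

/-- the main part of `ka` -/
def kam (d : Dat) : ℝ := 1 / 2 * (d.J.G3 d.θ * (d.J.psi2 d.θ)⁻¹)

theorem ap_kam : Ap sc kam (fun d => L3 d.θ d.u / 2) := by
  refine ((ap_G3.mul_one' ap_psi2.inv.1).cmul (1 / 2 : ℝ)).congr (fun d _ => rfl)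
    (fun d _ => by ring)

/-- `ka` is the main part plus the defects -/
theorem ka_eq : ∃ r : ℝ, 0 < r ∧ ∀ d, Adm d → d.δ ≤ r → d.J.ka d.θ = kam d +
    1 / 2 * ((-d.J.e1 d.θ + (d.J.ka d.θ ^ 2 - d.J.la d.θ) * d.J.e0 d.θ) *
      (d.J.psi2 d.θ)⁻¹) := by
  obtain ⟨r, hr, h⟩ := ap_psi2.inv.2
  refine ⟨r, hr, fun d hd hdr => ?_⟩
  have h1 : d.J.psi2 d.θ ≠ 0 := by
    intro h2
    have := h d hd hdr
    rw [h2] at this
    norm_num at this
  unfold kam Jet.e1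
  field_simp
  ring

/-- the leading part of the source -/
def LY (θ : Par) (u : ℂ) : ℝ := 8 * (L3 θ u / 2) ^ 3 - 4 * (L3 θ u / 2 * L4 θ u)

/-- the difference of `ka` and its main part -/
theorem ka_kam : ∃ C : ℝ, 0 ≤ C ∧ ∃ r : ℝ, 0 < r ∧ ∀ d, Adm d → d.δ ≤ r →
    |d.J.ka d.θ - kam d| ≤ C * (|d.J.e0 d.θ| + |d.J.e1 d.θ|) := by
  obtain ⟨r1, hr1, h1⟩ := ka_eq
  obtain ⟨C2, hC2, r2, hr2, h2⟩ := (((ap_ka.pow 2).sub ap_la1).mul_one' ap_psi2.inv.1).bound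
  obtain ⟨C3, hC3, r3, hr3, h3⟩ := ap_psi2.inv.1.bound
  refine ⟨C2 + C3, by positivity, min r1 (min r2 r3), by positivity, fun d hd hdr => ?_⟩
  have e1 := h1 d hd (hdr.trans (min_le_left _ _))
  have e2 := h2 d hd (hdr.trans ((min_le_right _ _).trans (min_le_left _ _)))
  have e3 := h3 d hd (hdr.trans ((min_le_right _ _).trans (min_le_right _ _)))
  simp only [Real.norm_eq_abs, mul_one] at e2 e3
  have e4 : d.J.ka d.θ - kam d = 1 / 2 * (((d.J.ka d.θ ^ 2 - d.J.la d.θ) *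
      (d.J.psi2 d.θ)⁻¹) * d.J.e0 d.θ) - 1 / 2 * ((d.J.psi2 d.θ)⁻¹ * d.J.e1 d.θ) := by
    rw [sub_eq_iff_eq_add'.2 e1]
    ring
  have h5 : |((d.J.ka d.θ ^ 2 - d.J.la d.θ) * (d.J.psi2 d.θ)⁻¹) * d.J.e0 d.θ| ≤
      C2 * |d.J.e0 d.θ| := by
    rw [abs_mul]
    exact mul_le_mul_of_nonneg_right e2 (abs_nonneg _)
  have h6 : |(d.J.psi2 d.θ)⁻¹ * d.J.e1 d.θ| ≤ C3 * |d.J.e1 d.θ| := by
    rw [abs_mul]
    exact mul_le_mul_of_nonneg_right e3 (abs_nonneg _)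
  have h7 := abs_nonneg (d.J.e0 d.θ)
  have h8 := abs_nonneg (d.J.e1 d.θ)
  rw [e4]
  calc _ ≤ |1 / 2 * (((d.J.ka d.θ ^ 2 - d.J.la d.θ) * (d.J.psi2 d.θ)⁻¹) * d.J.e0 d.θ)| +
        |1 / 2 * ((d.J.psi2 d.θ)⁻¹ * d.J.e1 d.θ)| := abs_sub _ _
    _ = 1 / 2 * |((d.J.ka d.θ ^ 2 - d.J.la d.θ) * (d.J.psi2 d.θ)⁻¹) * d.J.e0 d.θ| +
        1 / 2 * |(d.J.psi2 d.θ)⁻¹ * d.J.e1 d.θ| := by
        rw [abs_mul, abs_mul (1 / 2 : ℝ) ((d.J.psi2 d.θ)⁻¹ * d.J.e1 d.θ),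
          abs_of_pos (by norm_num : (0:ℝ) < 1 / 2)]
    _ ≤ C2 * |d.J.e0 d.θ| + C3 * |d.J.e1 d.θ| := by
        have : 0 ≤ C2 * |d.J.e0 d.θ| := by positivity
        have : 0 ≤ C3 * |d.J.e1 d.θ| := by positivity
        linarith
    _ ≤ _ := by
        have : 0 ≤ C2 * |d.J.e1 d.θ| := by positivity
        have : 0 ≤ C3 * |d.J.e0 d.θ| := by positivity
        linarith

/-- POINTWISE RESULT: the source and its leading part -/
theorem src_pt : ∃ C : ℝ, 0 ≤ C ∧ ∃ r : ℝ, 0 < r ∧ ∀ d, Adm d → d.δ ≤ r →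
    |8 * d.J.y1 d.θ - 4 * d.J.y2 d.θ - LY d.θ d.u| ≤
      C * (d.δ * (d.θ.E + (|d.J.e0 d.θ| + |d.J.e1 d.θ|))) := by
  -- the main part
  have hm : Ap (fun d => d.θ.E) (fun d => 8 * (kam d ^ 3 * d.J.psi2 d.θ) -
      4 * (kam d * d.J.G4 d.θ)) (fun d => LY d.θ d.u) := by
    have h1 : Ap (fun d => d.θ.E) (fun d => kam d ^ 3 * d.J.psi2 d.θ)
        (fun d => (L3 d.θ d.u / 2) ^ 3) := by
      refine (((ap_kam.mul (ap_kam.mul ap_kam)).mul_one' ap_psi2).mono fun d _ => ?_).congr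
        (fun d _ => by ring) (fun d _ => by ring)
      rw [E_eq]
      have : 0 ≤ sc d * st d := mul_nonneg (sc0 d) (st0 d)
      linarith [show sc d * (sc d * sc d) = sc d ^ 3 by ring]
    have h2 : Ap (fun d => d.θ.E) (fun d => kam d * d.J.G4 d.θ)
        (fun d => L3 d.θ d.u / 2 * L4 d.θ d.u) := by
      refine (ap_kam.mul ap_G4).mono fun d _ => ?_
      rw [E_eq]
      have : 0 ≤ sc d ^ 3 := pow_nonneg (sc0 d) 3
      linarith
    exact (h1.cmul (8:ℝ)).sub (h2.cmul (4:ℝ))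
  obtain ⟨C1, hC1, r1, hr1, h1⟩ := hm
  obtain ⟨C2, hC2, r2, hr2, h2⟩ := ka_kam
  -- small factors: `ka`, `kam`, `G4` are `O(δ)`
  have s1 : Ap (fun _ => 1) kam (fun _ => 0) :=
    (ap_kam.small (t := fun _ => 2 * 1) (fun _ _ => by norm_num) fun d hd => by
      unfold sc Par.c
      linarith [hd.c3, hd.c4]).scale (by norm_num)
  have s2 : Ap (fun _ => 1) (fun d => d.J.G4 d.θ) (fun _ => 0) :=
    (ap_G4.small (t := fun _ => 2 * 1) (fun _ _ => by norm_num) fun d hd => by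
      unfold st
      have h3 := hd.c4
      have h4 := hd.q
      have h5 := hd.c3
      have h6 := hd.δ0
      have h7 := hd.δ1
      have h8 : ‖d.θ.q‖ * ‖d.θ.c3‖ ≤ d.δ * d.δ :=
        mul_le_mul h4 h5 (norm_nonneg _) h6
      nlinarith).scale (by norm_num)
  -- the cofactor of `ka - kam`
  have hc : Ap (fun _ => 1) (fun d => 8 * ((d.J.ka d.θ ^ 2 + d.J.ka d.θ * kam d + kam d ^ 2) *
      d.J.psi2 d.θ) - 4 * d.J.G4 d.θ) (fun _ => 0) := by
    refine ((((((ap_ka.pow 2).add (ap_ka.mul_one' s1)).add (s1.pow 2)).mul_one'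
      ap_psi2).cmul (8:ℝ)).sub (s2.cmul (4:ℝ))).congr (fun d _ => rfl) (fun d _ => by ring)
  obtain ⟨C3, hC3, r3, hr3, h3⟩ := hc
  refine ⟨C1 + C2 * C3, by positivity, min r1 (min r2 r3), by positivity, fun d hd hdr => ?_⟩
  have e1 := (h1 d hd (hdr.trans (min_le_left _ _))).2
  have e2 := h2 d hd (hdr.trans ((min_le_right _ _).trans (min_le_left _ _)))
  have e3 := (h3 d hd (hdr.trans ((min_le_right _ _).trans (min_le_right _ _)))).2
  simp only [Real.norm_eq_abs, sub_zero, mul_one] at e1 e3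
  have hX : 0 ≤ |d.J.e0 d.θ| + |d.J.e1 d.θ| := by positivity
  have hE : 0 ≤ d.θ.E := by
    rw [E_eq]
    exact add_nonneg (mul_nonneg (sc0 d) (st0 d)) (pow_nonneg (sc0 d) 3)
  have hδ := hd.δ0
  have e4 : 8 * d.J.y1 d.θ - 4 * d.J.y2 d.θ - LY d.θ d.u =
      (8 * (kam d ^ 3 * d.J.psi2 d.θ) - 4 * (kam d * d.J.G4 d.θ) - LY d.θ d.u) +
      (d.J.ka d.θ - kam d) * (8 * ((d.J.ka d.θ ^ 2 + d.J.ka d.θ * kam d + kam d ^ 2) *
      d.J.psi2 d.θ) - 4 * d.J.G4 d.θ) := by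
    unfold Jet.y1 Jet.y2
    ring
  have e5 : |(d.J.ka d.θ - kam d) * (8 * ((d.J.ka d.θ ^ 2 + d.J.ka d.θ * kam d + kam d ^ 2) *
      d.J.psi2 d.θ) - 4 * d.J.G4 d.θ)| ≤
      (C2 * (|d.J.e0 d.θ| + |d.J.e1 d.θ|)) * (C3 * d.δ) := by
    rw [abs_mul]
    exact mul_le_mul e2 e3 (abs_nonneg _) (by positivity)
  rw [e4]
  calc _ ≤ _ := abs_add_le _ _
    _ ≤ C1 * (d.δ * d.θ.E) + (C2 * (|d.J.e0 d.θ| + |d.J.e1 d.θ|)) * (C3 * d.δ) :=
        add_le_add e1 e5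
    _ ≤ _ := by
        have p1 : 0 ≤ C1 * d.δ * (|d.J.e0 d.θ| + |d.J.e1 d.θ|) := by positivity
        have p2 : 0 ≤ C2 * C3 * d.δ * d.θ.E := by positivity
        nlinarith

end Pool.Agent.MP_ae5b4e_an_NC
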