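import Mathlib
import Pool.Agent.Lib.MP_ae5b4e_an_NC.SrcP
import Pool.Agent.Lib.MP_ae5b4e_an_NC.Clo
import Pool.Agent.Lib.MP_ae5b4e_an_NC.Cnd

/-!
# MP_ae5b4e_an, project NC: the modes 7, 8, 9 of the source
-/

noncomputable section

namespace Pool.Agent.MP_ae5b4e_an_NC

open Real Set Filter Topology MeasureTheory intervalIntegral
open Pool.Agent.MP_ae5b4e_an_RG

private theorem re_e (c : ℂ) (k : ℤ) (x : ℝ) :
    (((c * e k x).re : ℝ) : ℂ) = c / 2 * e k x + (starRingEnd ℂ) c / 2 * e (-k) x := by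
  rw [Complex.re_eq_add_conj, map_mul, e_conj]
  ring

/-- the exponents and the coefficients of the leading part of `ka` -/
private def kk : Fin 4 → ℤ := ![3, -3, 4, -4]
private def ak (θ : Par) : Fin 4 → ℂ :=
  ![-Complex.I * θ.c3 / 4, Complex.I * (starRingEnd ℂ) θ.c3 / 4, -Complex.I * θ.c4,
    Complex.I * (starRingEnd ℂ) θ.c4]

/-- the exponents and the coefficients of the leading part of `G4` -/
private def ll : Fin 6 → ℤ := ![4, -4, 5, -5, 1, -1]
private def al4 (θ : Par) : Fin 6 → ℂ :=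
  ![θ.c4 / 2, (starRingEnd ℂ) θ.c4 / 2, -θ.q * θ.c3, -(starRingEnd ℂ) θ.q * (starRingEnd ℂ) θ.c3,
    -(starRingEnd ℂ) θ.q * θ.c3 / 2, -θ.q * (starRingEnd ℂ) θ.c3 / 2]

private theorem L3_sum (θ : Par) (x : ℝ) :
    ((L3 θ (e 1 x) / 2 : ℝ) : ℂ) = ∑ i, ak θ i * e (kk i) x := by
  have h : (L3 θ (e 1 x) : ℝ) = ((-Complex.I * θ.c3) * e 3 x).re +
      ((-4 * Complex.I * θ.c4) * e 4 x).re := by
    unfold L3
    rw [e_pow, e_pow, Complex.add_re]
    congr 2
    · push_cast
      ring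
    · push_cast
      ring
  rw [Complex.ofReal_div, h, Complex.ofReal_add, re_e, re_e]
  simp only [Fin.sum_univ_four, ak, kk, Matrix.cons_val_zero, Matrix.cons_val_one,
    Matrix.cons_val, map_mul, map_neg, Complex.conj_I, map_ofNat, Complex.ofReal_ofNat]
  ring

private theorem L4_sum (θ : Par) (x : ℝ) :
    ((L4 θ (e 1 x) : ℝ) : ℂ) = ∑ i, al4 θ i * e (ll i) x := by
  have h : (L4 θ (e 1 x) : ℝ) = (θ.c4 * e 4 x).re +
      ((θ.q * Complex.I) * e 2 x).re * ((θ.c3 * Complex.I) * e 3 x).re -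
      3 * ((θ.q * e 2 x).re * (θ.c3 * e 3 x).re) := by
    unfold L4
    rw [e_pow, e_pow, e_pow, ← mul_assoc, ← mul_assoc]
    push_cast
    ring
  have e5 : e 5 x = e 2 x * e 3 x := by rw [← e_add]; norm_num
  have e5' : e (-5) x = e (-2) x * e (-3) x := by rw [← e_add]; norm_num
  have e1 : e 1 x = e (-2) x * e 3 x := by rw [← e_add]; norm_num
  have e1' : e (-1) x = e 2 x * e (-3) x := by rw [← e_add]; norm_num
  rw [h]
  push_cast
  rw [re_e, re_e, re_e, re_e, re_e]
  simp only [Fin.sum_univ_six, al4, ll, Matrix.cons_val_zero, Matrix.cons_val_one,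
    Matrix.cons_val, map_mul, Complex.conj_I]
  rw [e5, e5', e1, e1']
  ring_nf
  rw [Complex.I_sq]
  ring

/-- products of trigonometric polynomials -/
private theorem fc_mul2 {m n : ℕ} (c : Fin m → ℂ) (k : Fin m → ℤ) (d : Fin n → ℂ)
    (l : Fin n → ℤ) (N : ℤ) :
    fc (fun x => (∑ i, c i * e (k i) x) * ∑ j, d j * e (l j) x) N =
      ∑ i, ∑ j, if k i + l j = N then c i * d j else 0 := by
  have h : (fun x => (∑ i, c i * e (k i) x) * ∑ j, d j * e (l j) x) =
      fun x => ∑ i, ∑ j, (c i * d j) * e (k i + l j) x := by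
    funext x
    rw [Finset.sum_mul_sum]
    refine Finset.sum_congr rfl fun i _ => Finset.sum_congr rfl fun j _ => ?_
    rw [e_add]
    ring
  rw [h]
  unfold fc
  have h2 : ∀ x, (∑ i, ∑ j, (c i * d j) * e (k i + l j) x) * e (-N) x =
      ∑ i, ∑ j, (c i * d j) * e (k i + l j) x * e (-N) x := fun x => by
    rw [Finset.sum_mul]
    exact Finset.sum_congr rfl fun i _ => by rw [Finset.sum_mul]
  simp only [h2]
  rw [intervalIntegral.integral_finsetSum]
  · refine Finset.sum_congr rfl fun i _ => ?_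
    rw [intervalIntegral.integral_finsetSum]
    · exact Finset.sum_congr rfl fun j _ => fc_ce _ _ _
    · intro j _
      exact ((continuous_const.mul (continuous_e _)).mul (continuous_e _)).intervalIntegrable _ _
  · intro i _
    exact (continuous_finsetSum _ fun j _ =>
      (continuous_const.mul (continuous_e _)).mul (continuous_e _)).intervalIntegrable _ _

private theorem fc_mul3 {m : ℕ} (c : Fin m → ℂ) (k : Fin m → ℤ) (N : ℤ) :
    fc (fun x => (∑ i, c i * e (k i) x) ^ 3) N =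
      ∑ i, ∑ j, ∑ l, if k i + k j + k l = N then c i * c j * c l else 0 := by
  have h : (fun x => (∑ i, c i * e (k i) x) ^ 3) =
      fun x => ∑ i, ∑ j, ∑ l, (c i * c j * c l) * e (k i + k j + k l) x := by
    funext x
    rw [pow_three, Finset.sum_mul_sum, Finset.sum_mul_sum]
    refine Finset.sum_congr rfl fun i _ => ?_
    rw [Finset.sum_congr rfl fun j _ => rfl]
    refine Finset.sum_congr rfl fun j _ => ?_
    rw [Finset.mul_sum]
    refine Finset.sum_congr rfl fun l _ => ?_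
    rw [e_add, e_add]
    ring
  rw [h]
  unfold fc
  have h2 : ∀ x, (∑ i, ∑ j, ∑ l, (c i * c j * c l) * e (k i + k j + k l) x) * e (-N) x =
      ∑ i, ∑ j, ∑ l, (c i * c j * c l) * e (k i + k j + k l) x * e (-N) x := fun x => by
    rw [Finset.sum_mul]
    refine Finset.sum_congr rfl fun i _ => ?_
    rw [Finset.sum_mul]
    exact Finset.sum_congr rfl fun j _ => by rw [Finset.sum_mul]
  simp only [h2]
  have hc : ∀ i j l, Continuous fun x => (c i * c j * c l) * e (k i + k j + k l) x * e (-N) x :=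
    fun i j l => (continuous_const.mul (continuous_e _)).mul (continuous_e _)
  rw [intervalIntegral.integral_finsetSum]
  · refine Finset.sum_congr rfl fun i _ => ?_
    rw [intervalIntegral.integral_finsetSum]
    · refine Finset.sum_congr rfl fun j _ => ?_
      rw [intervalIntegral.integral_finsetSum]
      · exact Finset.sum_congr rfl fun l _ => fc_ce _ _ _
      · intro l _
        exact (hc i j l).intervalIntegrable _ _
    · intro j _
      exact (continuous_finsetSum _ fun l _ => hc i j l).intervalIntegrable _ _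
  · intro i _
    exact (continuous_finsetSum _ fun j _ =>
      continuous_finsetSum _ fun l _ => hc i j l).intervalIntegrable _ _

private theorem continuous_L3 (θ : Par) : Continuous fun x => L3 θ (e 1 x) := by
  unfold L3
  have := continuous_e 1
  fun_prop

private theorem continuous_L4 (θ : Par) : Continuous fun x => L4 θ (e 1 x) := by
  unfold L4
  have := continuous_e 1
  fun_prop

private theorem continuous_LY (θ : Par) : Continuous fun x => LY θ (e 1 x) := by
  unfold LY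
  have h3 := continuous_L3 θ
  have h4 := continuous_L4 θ
  fun_prop

/-- the coefficients of the leading part of the source -/
private theorem LY_fc (θ : Par) (N : ℤ) : rc (fun x => LY θ (e 1 x)) N =
    8 * (∑ i, ∑ j, ∑ l, if kk i + kk j + kk l = N then ak θ i * ak θ j * ak θ l else 0) -
      4 * (∑ i, ∑ j, if kk i + ll j = N then ak θ i * al4 θ j else 0) := by
  rw [← fc_mul3, ← fc_mul2]
  unfold rc fc
  rw [← intervalIntegral.integral_const_mul, ← intervalIntegral.integral_const_mul,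
    ← intervalIntegral.integral_sub]
  · refine intervalIntegral.integral_congr fun x _ => ?_
    simp only
    rw [← L3_sum, ← L4_sum]
    unfold LY
    push_cast
    ring
  · simp only [← L3_sum]
    have h3 : Continuous fun x => ((L3 θ (e 1 x) / 2 : ℝ) : ℂ) :=
      Complex.continuous_ofReal.comp ((continuous_L3 θ).div_const 2)
    exact (continuous_const.mul ((h3.pow 3).mul (continuous_e _))).intervalIntegrable _ _
  · simp only [← L3_sum, ← L4_sum]
    have h3 : Continuous fun x => ((L3 θ (e 1 x) / 2 : ℝ) : ℂ) :=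
      Complex.continuous_ofReal.comp ((continuous_L3 θ).div_const 2)
    have h4 : Continuous fun x => ((L4 θ (e 1 x) : ℝ) : ℂ) :=
      Complex.continuous_ofReal.comp (continuous_L4 θ)
    exact (continuous_const.mul ((h3.mul h4).mul (continuous_e _))).intervalIntegrable _ _

private theorem LY_7 (θ : Par) : rc (fun x => LY θ (e 1 x)) 7 = lead θ 7 := by
  rw [LY_fc]
  simp [Fin.sum_univ_four, Fin.sum_univ_six, kk, ll, ak, al4, lead]
  ring

private theorem LY_8 (θ : Par) : rc (fun x => LY θ (e 1 x)) 8 = lead θ 8 := by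
  rw [LY_fc]
  simp [Fin.sum_univ_four, Fin.sum_univ_six, kk, ll, ak, al4, lead]
  ring

private theorem LY_9 (θ : Par) : rc (fun x => LY θ (e 1 x)) 9 =
    lead θ 9 - 4 * Complex.I * (θ.q * (θ.c3 * θ.c4)) := by
  rw [LY_fc]
  simp [Fin.sum_univ_four, Fin.sum_univ_six, kk, ll, ak, al4, lead]
  linear_combination (-Complex.I * θ.c3 ^ 3 / 8) * Complex.I_sq

private theorem LY_err (θ : Par) {δ : ℝ} (h : ‖θ.q‖ ≤ δ) {n : ℕ} (hn : n = 7 ∨ n = 8 ∨ n = 9) :
    ‖rc (fun x => LY θ (e 1 x)) n - lead θ n‖ ≤ 4 * (δ * θ.E) := by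
  have hE : ‖θ.c3‖ * ‖θ.c4‖ ≤ θ.E := by
    have h3 := norm_nonneg θ.c3
    have h4 := norm_nonneg θ.c4
    have hq := norm_nonneg θ.q
    have h5 : θ.E = (‖θ.c3‖ + ‖θ.c4‖) * (‖θ.c4‖ + ‖θ.q‖ * ‖θ.c3‖) +
      (‖θ.c3‖ + ‖θ.c4‖) ^ 3 := rfl
    have h6 : 0 ≤ (‖θ.c3‖ + ‖θ.c4‖) ^ 3 := by positivity
    have h7 : 0 ≤ ‖θ.q‖ * ‖θ.c3‖ * (‖θ.c3‖ + ‖θ.c4‖) := by positivity
    rw [h5]
    nlinarith [sq_nonneg ‖θ.c4‖]
  have hδ : 0 ≤ δ := (norm_nonneg _).trans h
  have hE0 : 0 ≤ θ.E := (by positivity : (0:ℝ) ≤ ‖θ.c3‖ * ‖θ.c4‖).trans hE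
  rcases hn with rfl | rfl | rfl
  · rw [show ((7:ℕ):ℤ) = 7 from rfl, LY_7, sub_self, norm_zero]
    positivity
  · rw [show ((8:ℕ):ℤ) = 8 from rfl, LY_8, sub_self, norm_zero]
    positivity
  · rw [show ((9:ℕ):ℤ) = 9 from rfl, LY_9]
    have e1 : lead θ 9 - 4 * Complex.I * (θ.q * (θ.c3 * θ.c4)) - lead θ 9 =
        -(4 * Complex.I * (θ.q * (θ.c3 * θ.c4))) := by ring
    rw [e1, norm_neg, norm_mul, norm_mul, norm_mul, norm_mul, Complex.norm_I, mul_one]
    rw [Complex.norm_ofNat]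
    have : ‖θ.q‖ * (‖θ.c3‖ * ‖θ.c4‖) ≤ δ * θ.E := mul_le_mul h hE (by positivity) hδ
    linarith

private theorem norm_e' (k : ℤ) (x : ℝ) : ‖e k x‖ = 1 := by
  unfold e
  rw [Complex.norm_exp]
  simp

/-- THE SOURCE: the modes 7, 8, 9 of `8 y1 - 4 y2` up to `O(δ (E + X))` -/
theorem src : ∃ C : ℝ, 0 ≤ C ∧ ∃ r : ℝ, 0 < r ∧ ∀ δ : ℝ, 0 ≤ δ → δ ≤ r →
    ∀ (J : ℝ → Jet) (θ : Par) (X : ℝ),
    Continuous (fun x => (J x).w) → Continuous (fun x => (J x).z) →
    Continuous (fun x => (J x).w1) → Continuous (fun x => (J x).z1) →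
    (∀ x, ‖(J x).w - e 1 x‖ ≤ δ) → (∀ x, |(J x).z - 1| ≤ δ) →
    (∀ x, ‖(J x).w1 - Complex.I * e 1 x‖ ≤ δ) → (∀ x, |(J x).z1| ≤ δ) → θ.Small δ →
    (∀ x, |(J x).e0 θ| ≤ X) → (∀ x, |(J x).e1 θ| ≤ X) →
    ∀ n : ℕ, n = 7 ∨ n = 8 ∨ n = 9 →
      ‖rc (fun x => 8 * (J x).y1 θ - 4 * (J x).y2 θ) n - lead θ n‖ ≤ C * (δ * (θ.E + X)) := by
  obtain ⟨C, hC, r, hr, h⟩ := src_pt
  refine ⟨2 * C + 4, by positivity, min r (1 / 100), by positivity, ?_⟩
  intro δ hδ hδr J θ X cw cz cw1 cz1 hw hz hw1 hz1 hθ h0 h1 n hn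
  have hδ1 : δ ≤ 1 / 100 := hδr.trans (min_le_right _ _)
  have hδ2 : δ ≤ r := hδr.trans (min_le_left _ _)
  have hX : 0 ≤ X := (abs_nonneg _).trans (h0 0)
  have adm : ∀ x, Adm ⟨J x, θ, e 1 x, δ⟩ := fun x =>
    ⟨hδ, hδ1, norm_e' 1 x, hw x, hz x, hw1 x, hz1 x, hθ.q, hθ.c3, hθ.c4⟩
  have hal : ∀ x, (J x).al θ ≠ 0 := fun x => by
    have := al_pos (adm x)
    simp only at this
    intro h'
    rw [h'] at this
    norm_num at this
  have hE : 0 ≤ θ.E := by
    have : θ.E = (‖θ.c3‖ + ‖θ.c4‖) * (‖θ.c4‖ + ‖θ.q‖ * ‖θ.c3‖) +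
      (‖θ.c3‖ + ‖θ.c4‖) ^ 3 := rfl
    rw [this]
    positivity
  -- continuity
  have cal : Continuous fun x => (J x).al θ := by
    unfold Jet.al
    fun_prop
  have cka : Continuous fun x => (J x).ka θ := by
    unfold Jet.ka Jet.al1
    exact Continuous.div (by fun_prop) (by fun_prop) fun x => mul_ne_zero two_ne_zero (hal x)
  have cwT : Continuous fun x => (J x).wT θ := by
    unfold Jet.wT
    fun_prop
  have czT : Continuous fun x => (J x).zT θ := by
    unfold Jet.zT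
    fun_prop
  have cla : Continuous fun x => (J x).la θ := by
    unfold Jet.la
    exact Continuous.div (by fun_prop) cal hal
  have hal2 : ∀ x, (J x).al θ ^ 2 ≠ 0 := fun x => pow_ne_zero 2 (hal x)
  have cg0 : Continuous fun x => (J x).g0 θ := by
    unfold Jet.g0
    fun_prop
  have cg2 : Continuous fun x => (J x).g2 θ := by
    unfold Jet.g2
    fun_prop
  have cg4 : Continuous fun x => (J x).g4 θ := by
    unfold Jet.g4
    fun_prop
  have cb2 : Continuous fun x => (J x).b2 θ := by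
    unfold Jet.b2
    exact (Complex.continuous_normSq.comp cwT).sub (czT.pow 2)
  have cQ1 : Continuous fun x => Q1 (J x).w (J x).z := by
    unfold Q1
    exact (Complex.continuous_normSq.comp cw).sub (cz.pow 2)
  have cpsi : Continuous fun x => (J x).psi2 θ := by
    unfold Jet.psi2
    exact ((cb2.sub (cla.mul cQ1)).div cal hal).add
      ((cg2.sub (continuous_const.mul (cla.mul cg0))).div (cal.pow 2) hal2)
  have cG4 : Continuous fun x => (J x).G4 θ := by
    unfold Jet.G4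
    exact (((cg4.sub (cla.mul cg2)).add ((cla.pow 2).mul cg0))).div (cal.pow 2) hal2
  have cy : Continuous fun x => 8 * (J x).y1 θ - 4 * (J x).y2 θ := by
    unfold Jet.y1 Jet.y2
    fun_prop
  have cL := continuous_LY θ
  -- the pointwise bound
  have hpt : ∀ x, |8 * (J x).y1 θ - 4 * (J x).y2 θ - LY θ (e 1 x)| ≤
      2 * C * (δ * (θ.E + X)) := by
    intro x
    have h2 := h ⟨J x, θ, e 1 x, δ⟩ (adm x) hδ2
    simp only at h2
    have h3 : δ * (θ.E + (|(J x).e0 θ| + |(J x).e1 θ|)) ≤ 2 * (δ * (θ.E + X)) := by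
      have h4 : |(J x).e0 θ| + |(J x).e1 θ| ≤ 2 * X := by linarith [h0 x, h1 x]
      have h5 : θ.E + (|(J x).e0 θ| + |(J x).e1 θ|) ≤ 2 * (θ.E + X) := by linarith
      calc _ ≤ δ * (2 * (θ.E + X)) := mul_le_mul_of_nonneg_left h5 hδ
        _ = _ := by ring
    calc _ ≤ _ := h2
      _ ≤ C * (2 * (δ * (θ.E + X))) := mul_le_mul_of_nonneg_left h3 hC
      _ = _ := by ring
  have hsub : rc (fun x => 8 * (J x).y1 θ - 4 * (J x).y2 θ) n - rc (fun x => LY θ (e 1 x)) n =
      ∫ x in (0:ℝ)..1, ((8 * (J x).y1 θ - 4 * (J x).y2 θ - LY θ (e 1 x) : ℝ) : ℂ) *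
        e (-n) x := by
    unfold rc fc
    rw [← intervalIntegral.integral_sub]
    · refine intervalIntegral.integral_congr fun x _ => ?_
      simp only
      push_cast
      ring
    · exact ((Complex.continuous_ofReal.comp cy).mul (continuous_e _)).intervalIntegrable _ _
    · exact ((Complex.continuous_ofReal.comp cL).mul (continuous_e _)).intervalIntegrable _ _
  have hnorm : ‖rc (fun x => 8 * (J x).y1 θ - 4 * (J x).y2 θ) n -
      rc (fun x => LY θ (e 1 x)) n‖ ≤ 2 * C * (δ * (θ.E + X)) := by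
    rw [hsub]
    have := intervalIntegral.norm_integral_le_of_norm_le_const (a := (0:ℝ)) (b := 1)
      (C := 2 * C * (δ * (θ.E + X))) (f := fun x =>
        ((8 * (J x).y1 θ - 4 * (J x).y2 θ - LY θ (e 1 x) : ℝ) : ℂ) * e (-n) x)
      (fun x _ => by
        rw [norm_mul, norm_e', mul_one, Complex.norm_real]
        exact hpt x)
    simpa using this
  have hlead := LY_err θ hθ.q hn
  calc _ = ‖(rc (fun x => 8 * (J x).y1 θ - 4 * (J x).y2 θ) n - rc (fun x => LY θ (e 1 x)) n) +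
        (rc (fun x => LY θ (e 1 x)) n - lead θ n)‖ := by
        congr 1
        ring
    _ ≤ _ := norm_add_le _ _
    _ ≤ 2 * C * (δ * (θ.E + X)) + 4 * (δ * θ.E) := add_le_add hnorm hlead
    _ ≤ _ := by
        have : 0 ≤ δ * X := mul_nonneg hδ hX
        nlinarith

end Pool.Agent.MP_ae5b4e_an_NC
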