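import Mathlib
import Pool.Agent.Lib.MP_ae5b4e_an_NC.Src
import Pool.Agent.Lib.MP_ae5b4e_an_NC.Mid

/-!
# MP_ae5b4e_an, project NC: the closing for a curve near the circle

If the defects and the sources are `O(E)` then `c3 = c4 = 0`.
-/

noncomputable section

namespace Pool.Agent.MP_ae5b4e_an_NC

open Real Set Filter Topology MeasureTheory intervalIntegral
open Pool.Agent.MP_ae5b4e_an_RG

private lemma wt_pos' (ρ : ℝ) (b : ℕ) (k : ℤ) :
    0 < (1 + |(k:ℝ)|) ^ b * Real.exp (ρ * |(k:ℝ)|) := by positivity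

private lemma wb_nonneg' {ρ : ℝ} {b : ℕ} {B : ℝ} {f : ℝ → ℂ} (h : WB ρ b B f) : 0 ≤ B := by
  obtain ⟨a, ha, -⟩ := h
  have h1 := (norm_nonneg (a 0)).trans (ha 0)
  by_contra hM
  rw [not_le] at hM
  have := div_neg_of_neg_of_pos hM (wt_pos' ρ b 0)
  linarith

private lemma wb_bd' {ρ : ℝ} (hρ : 0 ≤ ρ) {b : ℕ} (hb : 2 ≤ b) {B : ℝ} {f : ℝ → ℂ}
    (h : WB ρ b B f) : Bd 0 0 B f := by
  have hB := wb_nonneg' h
  obtain ⟨a, ha, hs⟩ := h
  refine ⟨a, fun k => (ha k).trans ?_, hs⟩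
  apply div_le_div_of_nonneg_left hB (V_pos 0 0 2 k)
  unfold V w
  have h1 : (1:ℝ) ≤ 1 + |(k:ℝ)| := by linarith [abs_nonneg (k:ℝ)]
  apply mul_le_mul (pow_le_pow_right₀ h1 hb) _ (by positivity) (by positivity)
  apply Real.exp_le_exp.mpr
  rw [zero_mul]
  positivity

private lemma near_cont' {ρ ε : ℝ} (hρ : 0 ≤ ρ) {J : ℝ → Jet} (h : Near ρ ε J) :
    Continuous (fun x => (J x).w) ∧ Continuous (fun x => (J x).z) ∧
      Continuous (fun x => (J x).w1) ∧ Continuous (fun x => (J x).z1) := by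
  have h1 := (wb_bd' hρ le_rfl h.w).continuous le_rfl
  have h2 := (wb_bd' hρ le_rfl h.z).continuous le_rfl
  have h3 := (wb_bd' hρ le_rfl h.w1).continuous le_rfl
  have h4 := (wb_bd' hρ le_rfl h.z1).continuous le_rfl
  refine ⟨?_, ?_, ?_, ?_⟩
  · have h5 := h1.add (continuous_e 1)
    have h6 : (fun x => (J x).w - e 1 x + e 1 x) = fun x => (J x).w := by
      funext x
      ring
    rw [← h6]
    exact h5
  · have h5 := (Complex.continuous_re.comp h2).add (continuous_const (y := (1:ℝ)))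
    have h6 : (fun x => (J x).z) = fun x => (Complex.re ∘ fun x => (((J x).z - 1 : ℝ) : ℂ)) x +
        1 := by
      funext x
      simp only [Function.comp_apply, Complex.ofReal_re]
      ring
    rw [h6]
    exact h5
  · have h5 := h3.add (continuous_const.mul (continuous_e 1) :
      Continuous fun x => Complex.I * e 1 x)
    have h6 : (fun x => (J x).w1 - Complex.I * e 1 x + Complex.I * e 1 x) =
        fun x => (J x).w1 := by
      funext x
      ring
    rw [← h6]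
    exact h5
  · exact Complex.continuous_re.comp h4

/-- the leaves with their reduced rotation numbers -/
private def red (n P : ℕ) : ℕ × ℕ :=
  if n = 8 ∧ P = 2 then (1, 4) else if n = 9 ∧ P = 3 then (1, 3) else (P, n)

/-- CLOSING: defects and sources `O(E)` and nine leaves give `c3 = c4 = 0` -/
theorem fin_close {ρ : ℝ} (hρ : 0 < ρ) {C : ℝ} (hC : 0 ≤ C) :
    ∃ ε0 > 0, ∀ (ε : ℝ) (J : ℝ → Jet) (θ : Par) (X Y : ℝ), ε ≤ ε0 → Near ρ ε J → θ.Small ε →
      (∀ p q : ℕ, (p, q) ∈ [(1, 7), (2, 7), (3, 7), (1, 8), (1, 4), (3, 8), (1, 9), (2, 9),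
        (1, 3)] → ∃ L τ : ℝ → ℝ, Lw J p q L τ ∧ Cls ε p q L τ) →
      XB ρ X J θ → YB ρ Y J θ → X ≤ C * θ.E → Y ≤ C * θ.E → θ.c3 = 0 ∧ θ.c4 = 0 := by
  obtain ⟨k, hk, hclo⟩ := clo
  obtain ⟨C1, hC1, r1, hr1, hsrc⟩ := src
  -- MID for the nine leaves
  have hmid : ∀ n P : ℕ, (n = 7 ∨ n = 8 ∨ n = 9) → 1 ≤ P → P ≤ 3 → ∃ ε0 > 0,
      ∀ (ε : ℝ) (J : ℝ → Jet) (θ : Par) (L τ : ℝ → ℝ) (X Y : ℝ), ε ≤ ε0 →
        Near ρ ε J → θ.Small ε → Lw J (red n P).1 (red n P).2 L τ →
        Cls ε (red n P).1 (red n P).2 L τ → XB ρ X J θ → YB ρ Y J θ →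
        ‖rc (fun x => (J x).e0 θ) n +
          (Real.tan (π * ((P:ℝ) / n)) ^ 2 : ℝ) * rc (fun x => (J x).e1 θ) n +
          (8 * Real.tan (π * ((P:ℝ) / n)) ^ 4 : ℝ) * rc (fun x => (J x).y1 θ) n -
          (4 * Real.tan (π * ((P:ℝ) / n)) ^ 4 : ℝ) * rc (fun x => (J x).y2 θ) n‖ ≤
            k / (2 * C + 1) * (X + Y) := by
    intro n P hn hP1 hP3
    have hred : 0 < (red n P).1 ∧ 2 * (red n P).1 < (red n P).2 ∧ ((red n P).2 : ℤ) ∣ n ∧
        ((red n P).1 : ℝ) / (red n P).2 = (P:ℝ) / n := by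
      have hP : P = 1 ∨ P = 2 ∨ P = 3 := by omega
      rcases hn with rfl | rfl | rfl <;> rcases hP with rfl | rfl | rfl <;>
        (simp only [red]; norm_num)
    obtain ⟨h1, h2, h3, h4⟩ := hred
    have hd : 0 < k / (2 * C + 1) := by positivity
    obtain ⟨ε0, hε0, hm⟩ := mid hρ h1 h2 hd
    refine ⟨ε0, hε0, fun ε J θ L τ X Y h5 h6 h7 h8 h9 h10 h11 => ?_⟩
    have := hm ε J θ L τ X Y h5 h6 h7 h8 h9 h10 h11 n h3
    rwa [h4] at this
  choose! em hem hmm using hmid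
  set em0 : ℝ := min (min (min (em 7 1) (em 7 2)) (em 7 3))
    (min (min (min (em 8 1) (em 8 2)) (em 8 3)) (min (min (em 9 1) (em 9 2)) (em 9 3))) with hem0
  have hem0pos : 0 < em0 := by
    have h := fun n P hn h1 h3 => hem n P hn h1 h3
    have a1 := h 7 1 (by norm_num) (by norm_num) (by norm_num)
    have a2 := h 7 2 (by norm_num) (by norm_num) (by norm_num)
    have a3 := h 7 3 (by norm_num) (by norm_num) (by norm_num)
    have b1 := h 8 1 (by norm_num) (by norm_num) (by norm_num)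
    have b2 := h 8 2 (by norm_num) (by norm_num) (by norm_num)
    have b3 := h 8 3 (by norm_num) (by norm_num) (by norm_num)
    have c1 := h 9 1 (by norm_num) (by norm_num) (by norm_num)
    have c2 := h 9 2 (by norm_num) (by norm_num) (by norm_num)
    have c3 := h 9 3 (by norm_num) (by norm_num) (by norm_num)
    simp only [hem0, lt_min_iff]
    exact ⟨⟨⟨a1, a2⟩, a3⟩, ⟨⟨b1, b2⟩, b3⟩, ⟨c1, c2⟩, c3⟩
  have hemle : ∀ n P : ℕ, (n = 7 ∨ n = 8 ∨ n = 9) → 1 ≤ P → P ≤ 3 → em0 ≤ em n P := by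
    intro n P hn hP1 hP3
    have hP : P = 1 ∨ P = 2 ∨ P = 3 := by omega
    rcases hn with rfl | rfl | rfl <;> rcases hP with rfl | rfl | rfl <;>
      simp [hem0]
  refine ⟨min em0 (min (1 / 3) (min (r1 / 3) (k / (9 * (C1 + 1) * (C + 1))))),
    by positivity, ?_⟩
  intro ε J θ X Y hε hN hθ hL hX hY hXE hYE
  have e1 : ε ≤ em0 := hε.trans (min_le_left _ _)
  have e2 : ε ≤ 1 / 3 := hε.trans ((min_le_right _ _).trans (min_le_left _ _))
  have e3 : ε ≤ r1 / 3 :=
    hε.trans ((min_le_right _ _).trans ((min_le_right _ _).trans (min_le_left _ _)))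
  have e4 : ε ≤ k / (9 * (C1 + 1) * (C + 1)) :=
    hε.trans ((min_le_right _ _).trans ((min_le_right _ _).trans (min_le_right _ _)))
  have hε0 : 0 ≤ ε := (norm_nonneg _).trans hθ.q
  have hE : 0 ≤ θ.E := by
    have : θ.E = (‖θ.c3‖ + ‖θ.c4‖) * (‖θ.c4‖ + ‖θ.q‖ * ‖θ.c3‖) +
      (‖θ.c3‖ + ‖θ.c4‖) ^ 3 := rfl
    rw [this]
    positivity
  obtain ⟨cw, cz, cw1, cz1⟩ := near_cont' hρ.le hN
  -- sup bounds
  have sw := fun x => (wb_bd' hρ.le le_rfl hN.w).sup le_rfl x
  have sz := fun x => (wb_bd' hρ.le le_rfl hN.z).sup le_rfl x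
  have sw1 := fun x => (wb_bd' hρ.le le_rfl hN.w1).sup le_rfl x
  have sz1 := fun x => (wb_bd' hρ.le le_rfl hN.z1).sup le_rfl x
  have se0 := fun x => (wb_bd' hρ.le (by norm_num : 2 ≤ 4) hX.1).sup le_rfl x
  have se1 := fun x => (wb_bd' hρ.le le_rfl hX.2).sup le_rfl x
  simp only [Complex.norm_real, Real.norm_eq_abs] at sz sz1 se0 se1
  have hθ3 : θ.Small (3 * ε) :=
    ⟨hθ.q.trans (by linarith), hθ.c3.trans (by linarith), hθ.c4.trans (by linarith)⟩
  have hs := hsrc (3 * ε) (by positivity) (by linarith) J θ (3 * X) cw cz cw1 cz1 sw sz sw1 sz1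
    hθ3 se0 se1
  -- continuity of the sources
  have cy1 : Continuous fun x => (J x).y1 θ :=
    Complex.continuous_re.comp ((wb_bd' hρ.le le_rfl hY.1).continuous le_rfl)
  have cy2 : Continuous fun x => (J x).y2 θ :=
    Complex.continuous_re.comp ((wb_bd' hρ.le le_rfl hY.2).continuous le_rfl)
  have hrc : ∀ n : ℤ, rc (fun x => 8 * (J x).y1 θ - 4 * (J x).y2 θ) n =
      8 * rc (fun x => (J x).y1 θ) n - 4 * rc (fun x => (J x).y2 θ) n := by
    intro n
    unfold rc fc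
    rw [← intervalIntegral.integral_const_mul, ← intervalIntegral.integral_const_mul,
      ← intervalIntegral.integral_sub]
    · refine intervalIntegral.integral_congr fun x _ => ?_
      simp only
      push_cast
      ring
    · exact (continuous_const.mul ((Complex.continuous_ofReal.comp cy1).mul
        (continuous_e _))).intervalIntegrable _ _
    · exact (continuous_const.mul ((Complex.continuous_ofReal.comp cy2).mul
        (continuous_e _))).intervalIntegrable _ _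
  refine hclo θ (hθ.q.trans (by linarith)) (hθ.c3.trans (by linarith))
    (hθ.c4.trans (by linarith)) fun n hn => ?_
  refine ⟨rc (fun x => (J x).e0 θ) n, rc (fun x => (J x).e1 θ) n,
    rc (fun x => 8 * (J x).y1 θ - 4 * (J x).y2 θ) n, fun P hP1 hP3 => ?_, ?_⟩
  · have hmem : ((red n P).1, (red n P).2) ∈ [(1, 7), (2, 7), (3, 7), (1, 8), (1, 4), (3, 8),
        (1, 9), (2, 9), (1, 3)] := by
      have hP : P = 1 ∨ P = 2 ∨ P = 3 := by omega
      rcases hn with rfl | rfl | rfl <;> rcases hP with rfl | rfl | rfl <;>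
        simp [red]
    obtain ⟨L, τ, hLw, hCls⟩ := hL _ _ hmem
    have hm := hmm n P hn hP1 hP3 ε J θ L τ X Y (e1.trans (hemle n P hn hP1 hP3)) hN hθ hLw hCls
      hX hY
    have h5 : k / (2 * C + 1) * (X + Y) ≤ k * θ.E := by
      rw [div_mul_eq_mul_div, div_le_iff₀ (by positivity)]
      have h6 : k * (X + Y) ≤ k * (2 * C * θ.E) :=
        mul_le_mul_of_nonneg_left (by linarith) hk.le
      have h7 : 0 ≤ k * θ.E := by positivity
      nlinarith
    refine le_trans (le_of_eq ?_) (hm.trans h5)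
    congr 1
    rw [hrc]
    push_cast
    ring
  · refine (hs n hn).trans ?_
    have h6 : C1 * (3 * ε * (θ.E + 3 * X)) ≤ C1 * (3 * ε * (3 * (C + 1) * θ.E)) := by
      refine mul_le_mul_of_nonneg_left ?_ hC1
      refine mul_le_mul_of_nonneg_left ?_ (by positivity)
      nlinarith
    refine h6.trans ?_
    have h7 : ε * (9 * (C1 + 1) * (C + 1)) ≤ k := by
      rwa [le_div_iff₀ (by positivity)] at e4
    have h8 : C1 * (3 * ε * (3 * (C + 1) * θ.E)) ≤ (ε * (9 * (C1 + 1) * (C + 1))) * θ.E := by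
      have : 0 ≤ ε * (C + 1) * θ.E := by positivity
      nlinarith
    exact h8.trans (mul_le_mul_of_nonneg_right h7 hE)

end Pool.Agent.MP_ae5b4e_an_NC
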