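import Mathlib
import Pool.Agent.Lib.MP_ae5b4e_an_NC.Tel
import Pool.Agent.Lib.MP_ae5b4e_an_NC.Geo
import Pool.Agent.Lib.MP_ae5b4e_an_NC.Sid
import Pool.Agent.Lib.MP_ae5b4e_an_NC.GPer
import Pool.Agent.Lib.MP_ae5b4e_an_RG.Desc
import Pool.Agent.Lib.MP_ae5b4e_an_RIG.GMod
import Pool.Agent.Lib.MP_ae5b4e_an_RIG.CCor

/-!
# MP_ae5b4e_an, project NC: interface between the geometry and the analysis
-/

noncomputable section

namespace Pool.Agent.MP_ae5b4e_an_NC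

open Real Set Filter Topology MeasureTheory intervalIntegral
open scoped ContDiff
open Pool.Agent.MP_ae5b4e_an_hopf
open Pool.Agent.MP_ae5b4e_an_RG
open Pool.Agent.MP_ae5b4e_an_RIG (prm hasDerivAt_prm Bnd core_unif)

private lemma pi_bd : 4 * π ^ 2 + 1 ≤ 41 := by
  have := Real.pi_lt_d4
  have := Real.pi_pos
  nlinarith

private theorem ns_bnd_ifc {ε : ℝ} (hε : ε ≤ 1) {P : ℝ → Fin 3 → ℝ} {U : ℝ → ℝ → ℝ} {r m : ℝ → ℝ}
    (h : NS ε P U r m) : Bnd 41 r m := by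
  have h0 := pi_bd
  have h1 := Real.pi_pos
  refine ⟨fun x => ?_, fun x => (h.r1 x).trans (by linarith), fun x => (h.r2 x).trans (by linarith),
    fun x => (h.r3 x).trans (by linarith), fun x => (h.m0 x).trans (by linarith),
    fun x => (h.m1 x).trans (by linarith), fun x => (h.m2 x).trans (by linarith)⟩
  have h2 := abs_le.1 (h.r0 x)
  rw [abs_le]
  constructor
  · nlinarith [sq_nonneg π]
  · linarith

/-- existence of the curves of periodic points -/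
theorem NS.pleaf {ε : ℝ} {P : ℝ → Fin 3 → ℝ} {U : ℝ → ℝ → ℝ} {r m : ℝ → ℝ}
    (h : NS ε P U r m) {p q : ℕ} (hp : 1 ≤ p) (hq : 1 ≤ q) (hpq : 7 * p ≤ 3 * q) :
    ∃ L, PLeaf 1 (nxt P 1 U) p q L := by
  obtain ⟨δ, hδ, c, hc, hs⟩ := h.step
  refine exists_pleaf h.sys.tmap hc hs hp hq ?_
  have h1 : (7:ℝ) * p ≤ 3 * q := by exact_mod_cast hpq
  have h2 : (0:ℝ) < q := by exact_mod_cast hq
  nlinarith

private lemma dec_weaken {ρ ρ' : ℝ} {N : ℕ} {A : ℝ} {R : ℝ → ℝ} (hA : 0 ≤ A) (hρ : ρ' ≤ ρ)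
    (h : Dec ρ N A R) : Dec ρ' N A R := by
  obtain ⟨a, h1, h2⟩ := h
  refine ⟨a, fun k => (h1 k).trans ?_, h2⟩
  apply div_le_div_of_nonneg_left hA (V_pos ρ' N 3 k)
  unfold V w
  apply mul_le_mul_of_nonneg_left _ (by positivity)
  apply Real.exp_le_exp.2
  exact mul_le_mul_of_nonneg_right hρ (le_min (abs_nonneg _) (Nat.cast_nonneg N))

/-- uniform constants for the leaves with small rotation numbers -/
theorem exists_big : ∃ ρc : ℝ, 0 < ρc ∧ ∀ ρ : ℝ, 0 ≤ ρ → ρ ≤ ρc → ∃ (A1 : ℝ) (q0 : ℕ), 0 < A1 ∧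
    ∀ (P : ℝ → Fin 3 → ℝ) (U : ℝ → ℝ → ℝ) (r m : ℝ → ℝ), NS 1 P U r m → ∀ (p q : ℕ) (L : ℝ → ℝ),
      PQ p q → q0 ≤ q → PLeaf 1 (nxt P 1 U) p q L → Big ρ A1 p q L (tauL P L ((p:ℝ) / q)) := by
  obtain ⟨Cs, q0, hCs, HG⟩ := geo_leaf 41 (3 / 7) (by norm_num) (by norm_num)
  obtain ⟨ρc, A, hρc, hA, HC⟩ := core_unif (2 * 41) Cs (max q0 5) (by norm_num) hCs
  refine ⟨ρc, hρc, fun ρ hρ0 hρ => ?_⟩
  have hA0 : 0 < A := by linarith
  obtain ⟨A1, ω2, hA1, hω2, HD⟩ := descent A Cs hA hCs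
  obtain ⟨C, ω1, hC, hω1, HS⟩ := sid A A1 hA0 hA1
  obtain ⟨q1, hq1⟩ := exists_nat_gt (2 / min ω1 ω2)
  refine ⟨max A1 C, max (max q0 5) (q1 + 1), lt_max_of_lt_left hA1, ?_⟩
  intro P U r m hNS p q L hpq hq hL
  obtain ⟨δ', hδ', c₀, hc₀, hs⟩ := hNS.step
  have hB := ns_bnd_ifc le_rfl hNS
  obtain ⟨i0, HL⟩ := HG P U r m hNS.sys hNS.wr hNS.sr hNS.sm hNS.pr hNS.pm hNS.ode hB
    ⟨c₀, hc₀, fun t => by linarith [hs t]⟩
  have hR1 := fun x => hasDerivAt_prm (m := m) hNS.sm x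
  have HL' := HL (prm m) (fun x => r x - prm m x) hR1 (fun _ => rfl)
  obtain ⟨d1, d2⟩ := Pool.Agent.MP_ae5b4e_an_RIG.dec hNS.sr hNS.sm hNS.pr hNS.pm i0 hB
  have HC' := HC (prm m) (fun x => r x - prm m x) d1 d2 (fun p q hpq hq => by
    have hp1 : 1 ≤ p := by rcases hpq.1 with h | h <;> omega
    have hp2 : p ≤ 2 := by rcases hpq.1 with h | h <;> omega
    have hq5 : 5 ≤ q := (le_max_right _ _).trans hq
    obtain ⟨L, hL⟩ := hNS.pleaf (p := p) (q := q) hp1 (by omega) (by omega)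
    exact ⟨_, HL' p q hpq ((le_max_left _ _).trans hq) L hL⟩)
  have hq0 : q0 ≤ q := (le_max_left _ _).trans ((le_max_left _ _).trans hq)
  have hq5 : 5 ≤ q := (le_max_right _ _).trans ((le_max_left _ _).trans hq)
  have hqq : q1 + 1 ≤ q := (le_max_right _ _).trans hq
  have hleaf := HL' p q hpq hq0 L hL
  have hqR : (0:ℝ) < q := by
    have : 0 < q := by omega
    exact_mod_cast this
  have hp1 : 1 ≤ p := by rcases hpq.1 with h | h <;> omega
  have hp2 : p ≤ 2 := by rcases hpq.1 with h | h <;> omega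
  have hpR : (0:ℝ) < p := by exact_mod_cast hp1
  have hω : 0 < (p:ℝ) / q := by positivity
  have hmin : 0 < min ω1 ω2 := lt_min hω1 hω2
  have hωs : (p:ℝ) / q ≤ min ω1 ω2 := by
    rw [div_lt_iff₀ hmin] at hq1
    have h2 : (p:ℝ) ≤ 2 := by exact_mod_cast hp2
    have h3 : (q1:ℝ) + 1 ≤ q := by exact_mod_cast hqq
    rw [div_le_iff₀ hqR]
    nlinarith
  intro N
  have e1 := dec_weaken hA0.le hρ (HC' N).1
  have e2 := dec_weaken hA0.le hρ (HC' N).2
  obtain ⟨η, h1, h2, h3, h4, h5⟩ := HD ρ N p q (prm m) (fun x => r x - prm m x)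
    (fun x => L x - x) hρ0 hpq (hωs.trans (min_le_right _ _)) e1 e2 hleaf
  refine ⟨η, h1, h2, h3, ?_, ?_⟩
  · exact h4.mono (mul_le_mul_of_nonneg_right (le_max_left _ _) (by positivity))
  -- the tau-values
  set om : ℝ := (p:ℝ) / q with homd
  have hΔ : ∀ x, L x < L (x + om) := fun x => hL.mono (by linarith)
  have hrel : ∀ x, Rel (prm m) (fun x => r x - prm m x) (x + om + (L (x + om) - (x + om)))
      (-(om + (L (x + om) - (x + om)) - (L x - x)))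
      (-(L (x + om) - L x) * L1 P (L x) (L (x + om)) - 2) := by
    intro x
    have g := (leaf_law hNS.sys hL x).2.1
    have g0 := hΔ x
    have k := rel_L1 hNS.sys.curve hNS.wr hNS.sr.continuous hNS.sm.continuous hNS.ode hR1
      (R2 := fun x => r x - prm m x) (fun _ => rfl) (a := L (x + om)) (d := -(L (x + om) - L x))
      (by linarith [hΔ x] : -(L (x + om) - L x) < (0:ℝ)).ne
      (by
        rw [abs_neg, abs_of_pos (by linarith [hΔ x])]
        linarith)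
    have e3 : L (x + om) + -(L (x + om) - L x) = L x := by ring
    have e4 : x + om + (L (x + om) - (x + om)) = L (x + om) := by ring
    have e5 : -(om + (L (x + om) - (x + om)) - (L x - x)) = -(L (x + om) - L x) := by ring
    rw [e3] at k
    rw [e4, e5]
    exact k
  obtain ⟨k1, k2⟩ := HS ρ N p q η (prm m) (fun x => r x - prm m x) (fun x => L x - x)
    (fun x => -(L (x + om) - L x) * L1 P (L x) (L (x + om)) - 2) hρ0 hpq
    (hωs.trans (min_le_left _ _)) h1 h3 e1 e2 (hL.cont.sub continuous_id) h4 h5 hrel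
  have key : ∀ x, (1 + (L (x + om) - (x + om) - (L x - x)) / om) /
      (1 + (-(L (x + om) - L x) * L1 P (L x) (L (x + om)) - 2) / 2) - 1 =
        tauL P L om x / (π * om) - 1 := by
    intro x
    have a1 := k1 x
    have a2 := hΔ x
    have a3 : 1 + (-(L (x + om) - L x) * L1 P (L x) (L (x + om)) - 2) / 2 =
        -(L (x + om) - L x) * L1 P (L x) (L (x + om)) / 2 := by ring
    have a4 : L1 P (L x) (L (x + om)) ≠ 0 := by
      intro h0
      rw [h0] at a1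
      norm_num at a1
    have a5 : L (x + om) - L x ≠ 0 := by linarith
    have a6 : 1 + (L (x + om) - (x + om) - (L x - x)) / om = (L (x + om) - L x) / om := by
      field_simp
      ring
    rw [a3, a6]
    unfold tauL
    have hπ := Real.pi_pos.ne'
    have hom' := hω.ne'
    field_simp
  have k3 : (fun x => (((1 + (L (x + om) - (x + om) - (L x - x)) / om) /
      (1 + (-(L (x + om) - L x) * L1 P (L x) (L (x + om)) - 2) / 2) - 1 : ℝ) : ℂ)) =
        fun x => ((tauL P L om x / (π * om) - 1 : ℝ) : ℂ) := by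
    funext x
    rw [key x]
  rw [k3] at k2
  exact k2.mono (mul_le_mul_of_nonneg_right (le_max_right _ _) (by positivity))

theorem NS.weaken {ε ε' : ℝ} (hε : ε ≤ ε') {P : ℝ → Fin 3 → ℝ} {U : ℝ → ℝ → ℝ} {r m : ℝ → ℝ}
    (h : NS ε P U r m) : NS ε' P U r m :=
  ⟨h.sys, h.wr, h.sr, h.sm, h.pr, h.pm, h.ode, fun x => (h.r0 x).trans hε,
    fun x => (h.r1 x).trans hε, fun x => (h.r2 x).trans hε, fun x => (h.r3 x).trans hε,
    fun x => (h.m0 x).trans hε, fun x => (h.m1 x).trans hε, fun x => (h.m2 x).trans hε, h.step⟩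

/-- lower bound for the cotangent -/
private lemma ct_ge {p q : ℕ} (hp : 1 ≤ p) (hq : 1 ≤ q) (hpq : 7 * p ≤ 3 * q) :
    1 / 2 ≤ ct ((p:ℝ) / q) ∧ 2 * π / ct ((p:ℝ) / q) = Real.tan (π * ((p:ℝ) / q)) := by
  have hqR : (0:ℝ) < q := by exact_mod_cast hq
  have hpR : (0:ℝ) < p := by exact_mod_cast hp
  have hω : 0 < (p:ℝ) / q := by positivity
  have hω1 : (p:ℝ) / q ≤ 3 / 7 := by
    rw [div_le_div_iff₀ hqR (by norm_num)]
    have : (7:ℝ) * p ≤ 3 * q := by exact_mod_cast hpq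
    linarith
  set om : ℝ := (p:ℝ) / q with hom
  have hπ := Real.pi_pos
  have hs : 0 < Real.sin (π * om) := sin_pos_of hω (by linarith)
  have hs1 : Real.sin (π * om) ≤ 1 := Real.sin_le_one _
  have hc : 1 / 7 ≤ Real.cos (π * om) := by
    have h1 : Real.cos (π * om) = Real.sin (π / 2 - π * om) := (Real.sin_pi_div_two_sub _).symm
    rw [h1]
    have h2 := Real.mul_le_sin (x := π / 2 - π * om) (by nlinarith) (by nlinarith)
    refine le_trans ?_ h2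
    have h3 : 2 / π * (π / 2 - π * om) = 1 - 2 * om := by
      field_simp
    rw [h3]
    linarith
  refine ⟨?_, ?_⟩
  · unfold ct
    have h3 : 1 / 7 ≤ Real.cos (π * om) / Real.sin (π * om) := by
      rw [le_div_iff₀ hs]
      nlinarith
    have := Real.pi_gt_three
    nlinarith
  · unfold ct
    rw [Real.tan_eq_sin_div_cos]
    have h4 : Real.cos (π * om) ≠ 0 := by linarith
    field_simp

/-- closeness of a leaf to the leaf of the circle -/
private lemma cls_of_ns {ε ε' : ℝ} (h0 : 0 ≤ ε') (hε' : ε' ≤ 1) {P : ℝ → Fin 3 → ℝ}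
    {U : ℝ → ℝ → ℝ} {r m : ℝ → ℝ} (h : NS ε' P U r m) {p q : ℕ} (hp : 1 ≤ p) (hq : 1 ≤ q)
    (hpq : 7 * p ≤ 3 * q) {L : ℝ → ℝ} (hL : PLeaf 1 (nxt P 1 U) p q L) {n : ℕ} (hqn : q ≤ n)
    (h1 : 28 * (n:ℝ) ^ 3 * ε' ≤ 1) (h2 : 500 * (n:ℝ) ^ 3 * ε' ≤ ε) :
    Cls ε p q L (tauL P L ((p:ℝ) / q)) := by
  have hqR : (1:ℝ) ≤ q := by exact_mod_cast hq
  have hqn' : (q:ℝ) ≤ n := by exact_mod_cast hqn
  have hq3 : (q:ℝ) ^ 3 ≤ (n:ℝ) ^ 3 := pow_le_pow_left₀ (by linarith) hqn' 3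
  have hq23 : (q:ℝ) ^ 2 ≤ (q:ℝ) ^ 3 := by nlinarith [sq_nonneg (q:ℝ)]
  have hm := mul_le_mul_of_nonneg_right hq3 h0
  have hm2 := mul_le_mul_of_nonneg_right hq23 h0
  obtain ⟨c1, c2⟩ := ct_ge hp hq hpq
  refine ⟨fun x => ?_, fun x => ?_⟩
  · have := leaf_near h.sys h.wr h.ode hε' h.r0 h.m0 hq hL x
    nlinarith
  · have h3 := leaf_u h.sys h.wr h.ode h.r0 h.m0 hp hq (by nlinarith) hL x
    set u := -L1 P (L x) (L (x + (p:ℝ) / q)) with hu
    have h4 : tauL P L ((p:ℝ) / q) x = 2 * π / u := by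
      unfold tauL
      rw [hu, div_neg, neg_div]
    rw [h4, ← c2]
    have h5 : 7 * (q:ℝ) ^ 3 * ε' ≤ 1 / 4 := by nlinarith
    have h6 : 1 / 4 ≤ u := by
      have := (abs_le.1 (h3.trans h5)).1
      linarith
    have hπ := Real.pi_pos
    have hu0 : 0 < u := by linarith
    have hct0 : 0 < ct ((p:ℝ) / q) := by linarith
    have h7 : 2 * π / u - 2 * π / ct ((p:ℝ) / q) =
        2 * π * (ct ((p:ℝ) / q) - u) / (u * ct ((p:ℝ) / q)) := by
      field_simp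
    rw [h7, abs_div, abs_mul, abs_of_pos (by positivity : 0 < 2 * π),
      abs_of_pos (by positivity : 0 < u * ct ((p:ℝ) / q)), div_le_iff₀ (by positivity), abs_sub_comm]
    have h8 : 1 / 8 ≤ u * ct ((p:ℝ) / q) := by nlinarith
    have h9 : ε / 8 ≤ ε * (u * ct ((p:ℝ) / q)) := by
      have hε : 0 ≤ ε := le_trans (by positivity) h2
      have := mul_le_mul_of_nonneg_left h8 hε
      linarith
    refine le_trans ?_ h9
    have hπ4 : π ≤ 4 := Real.pi_le_four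
    have h10 : 2 * π * |u - ct ((p:ℝ) / q)| ≤ 8 * (7 * (q:ℝ) ^ 3 * ε') := by
      have := abs_nonneg (u - ct ((p:ℝ) / q))
      have h11 : 2 * π * |u - ct ((p:ℝ) / q)| ≤ 8 * |u - ct ((p:ℝ) / q)| :=
        mul_le_mul_of_nonneg_right (by linarith) this
      linarith
    nlinarith

theorem exists_leaves : ∃ ρc : ℝ, 0 < ρc ∧ ∀ ρ : ℝ, 0 ≤ ρ → ρ ≤ ρc → ∃ (A1 : ℝ) (q0 : ℕ),
    0 < A1 ∧ ∀ n1 : ℕ, ∀ ε > 0, ∃ ε' > 0, ε' ≤ 1 ∧ ∀ (P : ℝ → Fin 3 → ℝ) (U : ℝ → ℝ → ℝ)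
      (r m : ℝ → ℝ), NS ε' P U r m → Leaves ρ A1 ε q0 n1 (jet P) := by
  obtain ⟨ρc, hρc, H⟩ := exists_big
  refine ⟨ρc, hρc, fun ρ h0 h1 => ?_⟩
  obtain ⟨A1, q0, hA1, HB⟩ := H ρ h0 h1
  refine ⟨A1, q0, hA1, fun n1 ε hε => ?_⟩
  set n : ℕ := max n1 8 with hn
  have hn0 : (0:ℝ) < n := by
    have : 0 < n := lt_of_lt_of_le (by norm_num) (le_max_right _ _)
    exact_mod_cast this
  have hn3 : (0:ℝ) < (n:ℝ) ^ 3 := by positivity
  have e1 : 0 < min 1 (min (1 / (28 * (n:ℝ) ^ 3)) (ε / (500 * (n:ℝ) ^ 3))) :=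
    lt_min one_pos (lt_min (by positivity) (by positivity))
  refine ⟨_, e1, min_le_left _ _, fun P U r m h => ?_⟩
  set ε' := min 1 (min (1 / (28 * (n:ℝ) ^ 3)) (ε / (500 * (n:ℝ) ^ 3))) with hε'
  have e2 : 28 * (n:ℝ) ^ 3 * ε' ≤ 1 := by
    have : ε' ≤ 1 / (28 * (n:ℝ) ^ 3) := (min_le_right _ _).trans (min_le_left _ _)
    rw [le_div_iff₀ (by positivity)] at this
    linarith
  have e3 : 500 * (n:ℝ) ^ 3 * ε' ≤ ε := by
    have : ε' ≤ ε / (500 * (n:ℝ) ^ 3) := (min_le_right _ _).trans (min_le_right _ _)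
    rw [le_div_iff₀ (by positivity)] at this
    linarith
  have e4 : ε' ≤ 1 := min_le_left _ _
  refine ⟨fun p q hpq h5 => ?_, fun q hq => ?_⟩
  · have hp1 : 1 ≤ p := by rcases hpq.1 with h | h <;> omega
    have hq1 : 1 ≤ q := by omega
    obtain ⟨L, hL⟩ := h.pleaf (p := p) (q := q) hp1 hq1 (by omega)
    refine ⟨L, tauL P L ((p:ℝ) / q), lw_of_pleaf h.sys (by omega) (by omega) hL, fun hqn => ?_,
      fun hq0 => HB P U r m (h.weaken e4) p q L hpq hq0 hL⟩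
    exact cls_of_ns e1.le e4 h hp1 hq1 (by omega) hL (hqn.trans (le_max_left _ _)) e2 e3
  · have hq1 : 1 ≤ q := by omega
    obtain ⟨L, hL⟩ := h.pleaf (p := 3) (q := q) (by norm_num) hq1 (by omega)
    refine ⟨L, tauL P L (((3:ℕ):ℝ) / q), lw_of_pleaf h.sys (by omega) (by omega) hL, ?_⟩
    exact cls_of_ns e1.le e4 h (by norm_num) hq1 (by omega) hL
      (le_trans (by omega) (le_max_right _ _)) e2 e3

end Pool.Agent.MP_ae5b4e_an_NC
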