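import Pool.Agent.Lib.MP_ae5b4e_an_NC.Def
import Pool.Agent.Lib.MP_ae5b4e_an_RG.Wt
import Pool.Agent.Lib.MP_ae5b4e_an_RG.Bda

set_option autoImplicit false

/-!
# MP_ae5b4e_an, project NC: the algebra of the weighted bounds `WB`, `WR`
-/

noncomputable section

namespace Pool.Agent.MP_ae5b4e_an_NC

open Real Set Filter Topology MeasureTheory intervalIntegral
open Pool.Agent.MP_ae5b4e_an_RG

variable {ρ ρ' : ℝ} {b b' : ℕ} {B B' : ℝ} {f g : ℝ → ℂ}

/-! ### The weights -/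

private def W (ρ : ℝ) (b : ℕ) (k : ℤ) : ℝ := (1 + |(k:ℝ)|) ^ b * Real.exp (ρ * |(k:ℝ)|)

private lemma one_le (k : ℤ) : (1:ℝ) ≤ 1 + |(k:ℝ)| := by
  have := abs_nonneg (k:ℝ)
  linarith

private lemma W_pos (ρ : ℝ) (b : ℕ) (k : ℤ) : 0 < W ρ b k := by
  unfold W
  have := one_le k
  positivity

private lemma W_zero : W ρ b 0 = 1 := by
  unfold W
  simp

private lemma W_neg (k : ℤ) : W ρ b (-k) = W ρ b k := by
  unfold W
  push_cast
  rw [abs_neg]

private lemma one_le_W (hρ : 0 ≤ ρ) (k : ℤ) : 1 ≤ W ρ b k := by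
  unfold W
  have h1 : (1:ℝ) ≤ (1 + |(k:ℝ)|) ^ b := one_le_pow₀ (one_le k)
  have h2 : (1:ℝ) ≤ Real.exp (ρ * |(k:ℝ)|) := Real.one_le_exp (by positivity)
  nlinarith

private def S (k : ℤ) : ℝ := 1 / (1 + |(k:ℝ)|) ^ 2

private lemma S_eq (k : ℤ) : 1 / V 0 0 2 k = S k := by
  unfold V w S
  simp

private lemma S_summable : Summable S := by
  have h := summable_V2 (ρ := 0) (N := 0) le_rfl
  simpa only [S_eq] using h

private lemma S_tsum : ∑' k, S k ≤ 3 := by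
  have h := tsum_V2 (ρ := 0) (N := 0) le_rfl
  simpa only [S_eq] using h

private lemma S_nn (k : ℤ) : 0 ≤ S k := by
  unfold S
  positivity

private lemma inv_pow_le (hb : 2 ≤ b) (k : ℤ) : 1 / (1 + |(k:ℝ)|) ^ b ≤ S k := by
  unfold S
  have h1 := one_le k
  exact one_div_le_one_div_of_le (by positivity) (pow_le_pow_right₀ h1 hb)

private lemma inv_W_le (hρ : 0 ≤ ρ) (hb : 2 ≤ b) (k : ℤ) : 1 / W ρ b k ≤ S k := by
  refine le_trans ?_ (inv_pow_le hb k)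
  have h1 := one_le k
  refine one_div_le_one_div_of_le (by positivity) ?_
  unfold W
  have h2 : (1:ℝ) ≤ Real.exp (ρ * |(k:ℝ)|) := Real.one_le_exp (by positivity)
  exact le_mul_of_one_le_right (by positivity) h2

private lemma inv_W_nn (k : ℤ) : 0 ≤ 1 / W ρ b k := (one_div_pos.2 (W_pos ρ b k)).le

private lemma W_summable (hρ : 0 ≤ ρ) (hb : 2 ≤ b) : Summable fun k => 1 / W ρ b k :=
  Summable.of_nonneg_of_le (fun k => inv_W_nn k) (inv_W_le hρ hb) S_summable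

private lemma W_tsum (hρ : 0 ≤ ρ) (hb : 2 ≤ b) : ∑' k, 1 / W ρ b k ≤ 3 :=
  ((W_summable hρ hb).tsum_le_tsum (inv_W_le hρ hb) S_summable).trans S_tsum

private lemma S_shift (n : ℤ) : Summable (fun k => S (n - k)) ∧ ∑' k, S (n - k) ≤ 3 := by
  have h1 : (fun k => S (n - k)) = S ∘ (Equiv.subLeft n) := by
    funext k
    simp [Equiv.subLeft]
  constructor
  · rw [h1]
    exact (Equiv.summable_iff _).2 S_summable
  · have : ∑' k, S (n - k) = ∑' k, S k := by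
      rw [show (∑' k, S (n - k)) = ∑' k, (S ∘ (Equiv.subLeft n)) k by rw [h1]]
      exact Equiv.tsum_eq (Equiv.subLeft n) S
    rw [this]
    exact S_tsum

private lemma conv_pt (hρ : 0 ≤ ρ) (hb : 2 ≤ b) (n k : ℤ) :
    1 / W ρ b k * (1 / W ρ b (n - k)) ≤ 2 ^ (b - 1) / W ρ b n * (S k + S (n - k)) := by
  have hp : (0:ℝ) < (1 + |(k:ℝ)|) ^ b := by have := one_le k; positivity
  have hr : (0:ℝ) < (1 + |((n - k : ℤ):ℝ)|) ^ b := by have := one_le (n - k); positivity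
  have hs : (0:ℝ) < (1 + |(n:ℝ)|) ^ b := by have := one_le n; positivity
  have h1 : (1 + |(n:ℝ)|) ^ b ≤
      2 ^ (b - 1) * ((1 + |(k:ℝ)|) ^ b + (1 + |((n - k : ℤ):ℝ)|) ^ b) := by
    refine le_trans ?_ (add_pow_le (by positivity) (by positivity) b)
    refine pow_le_pow_left₀ (by positivity) ?_ b
    have h2 : |(n:ℝ)| ≤ |(k:ℝ)| + |((n - k : ℤ):ℝ)| := by
      have h3 := abs_add_le (k:ℝ) ((n - k : ℤ):ℝ)
      have h4 : (k:ℝ) + ((n - k : ℤ):ℝ) = n := by push_cast; ring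
      rwa [h4] at h3
    linarith [abs_nonneg (n:ℝ)]
  have h2 : Real.exp (ρ * |(n:ℝ)|) ≤
      Real.exp (ρ * |(k:ℝ)|) * Real.exp (ρ * |((n - k : ℤ):ℝ)|) := by
    rw [← Real.exp_add]
    refine Real.exp_le_exp.2 ?_
    have h2 : |(n:ℝ)| ≤ |(k:ℝ)| + |((n - k : ℤ):ℝ)| := by
      have h3 := abs_add_le (k:ℝ) ((n - k : ℤ):ℝ)
      have h4 : (k:ℝ) + ((n - k : ℤ):ℝ) = n := by push_cast; ring
      rwa [h4] at h3
    nlinarith
  have h5 : 1 / (1 + |(k:ℝ)|) ^ b + 1 / (1 + |((n - k : ℤ):ℝ)|) ^ b ≤ S k + S (n - k) :=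
    add_le_add (inv_pow_le hb k) (inv_pow_le hb (n - k))
  have e1 := Real.exp_pos (ρ * |(k:ℝ)|)
  have e2 := Real.exp_pos (ρ * |((n - k : ℤ):ℝ)|)
  have e3 := Real.exp_pos (ρ * |(n:ℝ)|)
  have h6 : 1 / W ρ b k * (1 / W ρ b (n - k)) =
      1 / ((1 + |(k:ℝ)|) ^ b * (1 + |((n - k : ℤ):ℝ)|) ^ b) *
        (1 / (Real.exp (ρ * |(k:ℝ)|) * Real.exp (ρ * |((n - k : ℤ):ℝ)|))) := by
    unfold W
    field_simp
  have h7 : 1 / (Real.exp (ρ * |(k:ℝ)|) * Real.exp (ρ * |((n - k : ℤ):ℝ)|)) ≤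
      1 / Real.exp (ρ * |(n:ℝ)|) := one_div_le_one_div_of_le e3 h2
  have h8 : 1 / ((1 + |(k:ℝ)|) ^ b * (1 + |((n - k : ℤ):ℝ)|) ^ b) ≤
      2 ^ (b - 1) / (1 + |(n:ℝ)|) ^ b *
        (1 / (1 + |(k:ℝ)|) ^ b + 1 / (1 + |((n - k : ℤ):ℝ)|) ^ b) := by
    have h9 : 2 ^ (b - 1) / (1 + |(n:ℝ)|) ^ b *
        (1 / (1 + |(k:ℝ)|) ^ b + 1 / (1 + |((n - k : ℤ):ℝ)|) ^ b) =
        (2 ^ (b - 1) * ((1 + |(k:ℝ)|) ^ b + (1 + |((n - k : ℤ):ℝ)|) ^ b)) /
          ((1 + |(n:ℝ)|) ^ b * ((1 + |(k:ℝ)|) ^ b * (1 + |((n - k : ℤ):ℝ)|) ^ b)) := by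
      field_simp
      ring
    rw [h9, div_le_div_iff₀ (by positivity) (by positivity)]
    have := mul_le_mul_of_nonneg_right h1
      (mul_nonneg hp.le hr.le)
    linarith
  rw [h6]
  calc 1 / ((1 + |(k:ℝ)|) ^ b * (1 + |((n - k : ℤ):ℝ)|) ^ b) *
        (1 / (Real.exp (ρ * |(k:ℝ)|) * Real.exp (ρ * |((n - k : ℤ):ℝ)|)))
      ≤ (2 ^ (b - 1) / (1 + |(n:ℝ)|) ^ b *
        (1 / (1 + |(k:ℝ)|) ^ b + 1 / (1 + |((n - k : ℤ):ℝ)|) ^ b)) *
          (1 / Real.exp (ρ * |(n:ℝ)|)) :=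
        mul_le_mul h8 h7 (by positivity) (by positivity)
    _ ≤ (2 ^ (b - 1) / (1 + |(n:ℝ)|) ^ b * (S k + S (n - k))) *
          (1 / Real.exp (ρ * |(n:ℝ)|)) := by gcongr
    _ = 2 ^ (b - 1) / W ρ b n * (S k + S (n - k)) := by
        unfold W
        field_simp

private lemma conv_summable (hρ : 0 ≤ ρ) (hb : 2 ≤ b) (n : ℤ) :
    Summable fun k => 1 / W ρ b k * (1 / W ρ b (n - k)) :=
  Summable.of_nonneg_of_le (fun k => mul_nonneg (inv_W_nn k) (inv_W_nn _))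
    (conv_pt hρ hb n) ((S_summable.add (S_shift n).1).mul_left _)

private lemma conv_tsum (hρ : 0 ≤ ρ) (hb : 2 ≤ b) (n : ℤ) :
    ∑' k, 1 / W ρ b k * (1 / W ρ b (n - k)) ≤ 3 * 2 ^ b / W ρ b n := by
  refine ((conv_summable hρ hb n).tsum_le_tsum (conv_pt hρ hb n)
    ((S_summable.add (S_shift n).1).mul_left _)).trans ?_
  rw [tsum_mul_left, S_summable.tsum_add (S_shift n).1]
  have h1 := S_tsum
  have h2 := (S_shift n).2
  have h3 : (0:ℝ) ≤ 2 ^ (b - 1) / W ρ b n := div_nonneg (by positivity) (W_pos ρ b n).le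
  have h4 : 3 * 2 ^ b / W ρ b n = 2 ^ (b - 1) / W ρ b n * 6 := by
    obtain ⟨c, rfl⟩ : ∃ c, b = c + 1 := ⟨b - 1, by omega⟩
    rw [Nat.add_sub_cancel, pow_succ]
    ring
  rw [h4]
  exact mul_le_mul_of_nonneg_left (by linarith) h3

/-! ### Elementary rules -/

private lemma wb_iff : WB ρ b B f ↔
    ∃ a : ℤ → ℂ, (∀ k, ‖a k‖ ≤ B / W ρ b k) ∧ ∀ x, HasSum (fun k => a k * e k x) (f x) :=
  Iff.rfl

theorem WB.congr (h : WB ρ b B f) (he : ∀ x, f x = g x) : WB ρ b B g := by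
  have : f = g := funext he
  rwa [← this]

theorem WB.nonneg (h : WB ρ b B f) : 0 ≤ B := by
  obtain ⟨a, h1, -⟩ := wb_iff.1 h
  have h2 := (norm_nonneg _).trans (h1 0)
  rwa [W_zero, div_one] at h2

theorem WB.mono (h : WB ρ b B f) (hB : B ≤ B') : WB ρ b B' f := by
  obtain ⟨a, h1, h2⟩ := wb_iff.1 h
  exact wb_iff.2 ⟨a, fun k => (h1 k).trans
    (div_le_div_of_nonneg_right hB (W_pos ρ b k).le), h2⟩

theorem WB.b_mono (h : WB ρ b B f) (hb : b' ≤ b) : WB ρ b' B f := by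
  have hB := h.nonneg
  obtain ⟨a, h1, h2⟩ := wb_iff.1 h
  refine wb_iff.2 ⟨a, fun k => (h1 k).trans ?_, h2⟩
  refine div_le_div_of_nonneg_left hB (W_pos ρ b' k) ?_
  unfold W
  exact mul_le_mul_of_nonneg_right (pow_le_pow_right₀ (one_le k) hb) (Real.exp_pos _).le

theorem WB.rho_mono (h : WB ρ b B f) (hr : ρ' ≤ ρ) : WB ρ' b B f := by
  have hB := h.nonneg
  obtain ⟨a, h1, h2⟩ := wb_iff.1 h
  refine wb_iff.2 ⟨a, fun k => (h1 k).trans ?_, h2⟩
  refine div_le_div_of_nonneg_left hB (W_pos ρ' b k) ?_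
  unfold W
  have h3 := one_le k
  refine mul_le_mul_of_nonneg_left (Real.exp_le_exp.2 ?_) (by positivity)
  exact mul_le_mul_of_nonneg_right hr (abs_nonneg _)

theorem WB.add (h : WB ρ b B f) (h' : WB ρ b B' g) :
    WB ρ b (B + B') (fun x => f x + g x) := by
  obtain ⟨a, h1, h2⟩ := wb_iff.1 h
  obtain ⟨a', h1', h2'⟩ := wb_iff.1 h'
  refine wb_iff.2 ⟨fun k => a k + a' k, fun k => ?_, fun x => ?_⟩
  · rw [add_div]
    exact (norm_add_le _ _).trans (add_le_add (h1 k) (h1' k))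
  · have := (h2 x).add (h2' x)
    simpa only [add_mul] using this

theorem WB.const_mul (h : WB ρ b B f) (c : ℂ) : WB ρ b (‖c‖ * B) (fun x => c * f x) := by
  obtain ⟨a, h1, h2⟩ := wb_iff.1 h
  refine wb_iff.2 ⟨fun k => c * a k, fun k => ?_, fun x => ?_⟩
  · rw [norm_mul, mul_div_assoc]
    exact mul_le_mul_of_nonneg_left (h1 k) (norm_nonneg _)
  · have := (h2 x).mul_left c
    simpa only [mul_assoc] using this

theorem WB.neg (h : WB ρ b B f) : WB ρ b B (fun x => -f x) := by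
  have := h.const_mul (-1)
  rw [norm_neg, norm_one, one_mul] at this
  exact this.congr fun x => by ring

theorem WB.sub (h : WB ρ b B f) (h' : WB ρ b B' g) :
    WB ρ b (B + B') (fun x => f x - g x) :=
  (h.add h'.neg).congr fun x => by ring

private lemma conj_e (k : ℤ) (x : ℝ) : (starRingEnd ℂ) (e k x) = e (-k) x := by
  unfold e
  rw [← Complex.exp_conj]
  congr 1
  simp only [map_mul, Complex.conj_I, Complex.conj_ofReal, map_ofNat]
  push_cast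
  rw [show (starRingEnd ℂ) (k:ℂ) = (k:ℂ) by simp]
  ring

theorem WB.conj (h : WB ρ b B f) : WB ρ b B (fun x => (starRingEnd ℂ) (f x)) := by
  obtain ⟨a, h1, h2⟩ := wb_iff.1 h
  refine wb_iff.2 ⟨fun k => (starRingEnd ℂ) (a (-k)), fun k => ?_, fun x => ?_⟩
  · rw [RCLike.norm_conj, ← W_neg]
    exact h1 (-k)
  · have h3 : HasSum (fun k => (starRingEnd ℂ) (a k * e k x)) ((starRingEnd ℂ) (f x)) :=
      (Complex.hasSum_conj').2 (by simpa using h2 x)
    have h4 := (Equiv.neg ℤ).hasSum_iff.2 h3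
    have h5 : (fun k => (starRingEnd ℂ) (a (-k)) * e k x) =
        (fun k => (starRingEnd ℂ) (a k * e k x)) ∘ Equiv.neg ℤ := by
      funext k
      simp only [Function.comp_apply, Equiv.neg_apply, map_mul, conj_e, neg_neg]
    rw [h5]
    exact h4

theorem wb_e (ρ : ℝ) (b : ℕ) (n : ℤ) :
    WB ρ b ((1 + |(n:ℝ)|) ^ b * Real.exp (ρ * |(n:ℝ)|)) (e n) := by
  refine wb_iff.2 ⟨fun k => if k = n then 1 else 0, fun k => ?_, fun x => ?_⟩
  · show ‖(if k = n then 1 else 0 : ℂ)‖ ≤ W ρ b n / W ρ b k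
    by_cases hk : k = n
    · rw [if_pos hk, hk, norm_one, div_self (W_pos ρ b n).ne']
    · rw [if_neg hk, norm_zero]
      exact div_nonneg (W_pos ρ b n).le (W_pos ρ b k).le
  · have h1 := hasSum_ite_eq n (e n x)
    have h2 : (fun k => (if k = n then 1 else 0 : ℂ) * e k x) =
        fun k => if k = n then e n x else 0 := by
      funext k
      by_cases hk : k = n
      · rw [if_pos hk, if_pos hk, hk, one_mul]
      · rw [if_neg hk, if_neg hk, zero_mul]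
    rw [h2]
    exact h1

theorem WB.e1 (ρ : ℝ) (b : ℕ) : WB ρ b (2 ^ b * Real.exp ρ) (e 1) := by
  have h := wb_e ρ b 1
  norm_num at h
  exact h

theorem WB.const (ρ : ℝ) (b : ℕ) (c : ℂ) : WB ρ b ‖c‖ (fun _ => c) := by
  have h := (wb_e ρ b 0).const_mul c
  refine (h.congr fun x => ?_).mono ?_
  · rw [e_zero, mul_one]
  · simp

theorem WB.zero (ρ : ℝ) (b : ℕ) : WB ρ b 0 (fun _ => 0) := by
  have := WB.const ρ b 0
  rwa [norm_zero] at this

private lemma summ (hρ : 0 ≤ ρ) (hb : 2 ≤ b) {a : ℤ → ℂ} (ha : ∀ k, ‖a k‖ ≤ B / W ρ b k) :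
    Summable fun k => ‖a k‖ := by
  refine Summable.of_nonneg_of_le (fun k => norm_nonneg _) ha ?_
  have := (W_summable hρ hb).mul_left B
  simpa only [mul_one_div] using this

private lemma summC (hρ : 0 ≤ ρ) (hb : 2 ≤ b) {a : ℤ → ℂ} (ha : ∀ k, ‖a k‖ ≤ B / W ρ b k)
    (x : ℝ) : Summable fun k => ‖a k * e k x‖ := by
  simp only [norm_mul, norm_e, mul_one]
  exact summ hρ hb ha

/-- the coefficients are the Fourier coefficients -/
theorem WB.fc_le (hρ : 0 ≤ ρ) (hb : 2 ≤ b) (h : WB ρ b B f) (k : ℤ) :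
    ‖fc f k‖ ≤ B / ((1 + |(k:ℝ)|) ^ b * Real.exp (ρ * |(k:ℝ)|)) := by
  obtain ⟨a, h1, h2⟩ := wb_iff.1 h
  rw [fc_of_hasSum (summ hρ hb h1) h2 k]
  exact h1 k

theorem WB.hasSum_fc (hρ : 0 ≤ ρ) (hb : 2 ≤ b) (h : WB ρ b B f) (x : ℝ) :
    HasSum (fun k => fc f k * e k x) (f x) := by
  obtain ⟨a, h1, h2⟩ := wb_iff.1 h
  simp only [fc_of_hasSum (summ hρ hb h1) h2]
  exact h2 x

theorem WB.summable_fc (hρ : 0 ≤ ρ) (hb : 2 ≤ b) (h : WB ρ b B f) :
    Summable fun k => ‖fc f k‖ :=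
  summ (B := B) hρ hb (h.fc_le hρ hb)

/-- a function with an absolutely convergent Fourier series, by its coefficients -/
theorem WB.of_fc (hρ : 0 ≤ ρ) (hb : 2 ≤ b) (h : WB ρ b B f) {ρ' : ℝ} {b' : ℕ} {B' : ℝ}
    (h' : ∀ k : ℤ, ‖fc f k‖ ≤ B' / ((1 + |(k:ℝ)|) ^ b' * Real.exp (ρ' * |(k:ℝ)|))) :
    WB ρ' b' B' f :=
  ⟨fc f, h', h.hasSum_fc hρ hb⟩

/-- The set of the admissible constants is closed. -/
theorem WB.closed (hρ : 0 ≤ ρ) (hb : 2 ≤ b) (h : ∀ δ > 0, WB ρ b (B + δ) f) : WB ρ b B f := by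
  refine (h 1 one_pos).of_fc hρ hb fun k => ?_
  have hW := W_pos ρ b k
  refine le_of_forall_pos_le_add fun ε hε => ?_
  have h1 := (h (ε * W ρ b k) (by positivity)).fc_le hρ hb k
  refine h1.trans (le_of_eq ?_)
  show (B + ε * W ρ b k) / W ρ b k = B / W ρ b k + ε
  field_simp

theorem WB.continuous (hρ : 0 ≤ ρ) (hb : 2 ≤ b) (h : WB ρ b B f) : Continuous f := by
  obtain ⟨a, h1, h2⟩ := wb_iff.1 h
  have h3 : f = fun x => ∑' k, a k * e k x := by
    funext x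
    exact (h2 x).tsum_eq.symm
  rw [h3]
  refine continuous_tsum (fun k => continuous_const.mul (continuous_e k)) (summ hρ hb h1) ?_
  intro k x
  rw [norm_mul, norm_e, mul_one]

theorem WB.periodic (h : WB ρ b B f) : Function.Periodic f 1 := by
  obtain ⟨a, -, h2⟩ := wb_iff.1 h
  intro x
  refine (h2 (x + 1)).unique ?_
  have := h2 x
  simpa only [periodic_e _ x] using this

/-- the supremum -/
theorem WB.sup (hρ : 0 ≤ ρ) (hb : 2 ≤ b) (h : WB ρ b B f) (x : ℝ) : ‖f x‖ ≤ 3 * B := by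
  have hB := h.nonneg
  obtain ⟨a, h1, h2⟩ := wb_iff.1 h
  rw [← (h2 x).tsum_eq]
  refine (norm_tsum_le_tsum_norm (summC hρ hb h1 x)).trans ?_
  have h3 : ∀ k, ‖a k * e k x‖ ≤ B * (1 / W ρ b k) := by
    intro k
    rw [norm_mul, norm_e, mul_one, mul_one_div]
    exact h1 k
  refine ((summC hρ hb h1 x).tsum_le_tsum h3 ((W_summable hρ hb).mul_left B)).trans ?_
  rw [tsum_mul_left]
  have := mul_le_mul_of_nonneg_left (W_tsum (ρ := ρ) (b := b) hρ hb) hB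
  linarith

/-- the change of variables in the product -/
private def pr : ℤ × ℤ ≃ ℤ × ℤ where
  toFun p := (p.2, p.1 - p.2)
  invFun p := (p.1 + p.2, p.1)
  left_inv p := by ext <;> simp
  right_inv p := by ext <;> simp

/-- products, for every power -/
theorem WB.mul' (hρ : 0 ≤ ρ) (hb : 2 ≤ b) (h : WB ρ b B f) (h' : WB ρ b B' g) :
    WB ρ b (3 * 2 ^ b * (B * B')) (fun x => f x * g x) := by
  have hB := h.nonneg
  have hB' := h'.nonneg
  obtain ⟨a, h1, h2⟩ := wb_iff.1 h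
  obtain ⟨a', h1', h2'⟩ := wb_iff.1 h'
  have hpt : ∀ n k : ℤ, ‖a k * a' (n - k)‖ ≤
      B * B' * (1 / W ρ b k * (1 / W ρ b (n - k))) := by
    intro n k
    rw [norm_mul]
    refine (mul_le_mul (h1 k) (h1' (n - k)) (norm_nonneg _) (by
      have := W_pos ρ b k; positivity)).trans (le_of_eq ?_)
    have := W_pos ρ b k
    have := W_pos ρ b (n - k)
    field_simp
  have hsn : ∀ n : ℤ, Summable fun k => ‖a k * a' (n - k)‖ := fun n =>
    Summable.of_nonneg_of_le (fun k => norm_nonneg _) (hpt n)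
      ((conv_summable hρ hb n).mul_left _)
  refine wb_iff.2 ⟨fun n => ∑' k, a k * a' (n - k), fun n => ?_, fun x => ?_⟩
  · refine (norm_tsum_le_tsum_norm (hsn n)).trans ?_
    refine ((hsn n).tsum_le_tsum (hpt n) ((conv_summable hρ hb n).mul_left _)).trans ?_
    rw [tsum_mul_left]
    refine (mul_le_mul_of_nonneg_left (conv_tsum hρ hb n) (mul_nonneg hB hB')).trans
      (le_of_eq ?_)
    ring
  · have n1 := summC hρ hb h1 x
    have n2 := summC hρ hb h1' x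
    have n3 := summable_mul_of_summable_norm (f := fun k : ℤ => a k * e k x)
      (g := fun k : ℤ => a' k * e k x) n1 n2
    have m1 := HasSum.mul (f := fun k : ℤ => a k * e k x) (g := fun k : ℤ => a' k * e k x)
      (h2 x) (h2' x) n3
    have m2 := (Equiv.hasSum_iff pr).2 m1
    refine m2.prod_fiberwise fun n => ?_
    have m3 : (fun k : ℤ => ((fun p : ℤ × ℤ => a p.1 * e p.1 x * (a' p.2 * e p.2 x)) ∘ pr)
        (n, k)) = fun k : ℤ => a k * a' (n - k) * e n x := by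
      funext k
      change a k * e k x * (a' (n - k) * e (n - k) x) = a k * a' (n - k) * e n x
      have h4 : e n x = e k x * e (n - k) x := by
        rw [← e_add]
        congr 1
        ring
      rw [h4]
      ring
    rw [m3]
    exact (hsn n).of_norm.hasSum.mul_right _

theorem WB.mul (hρ : 0 ≤ ρ) (h : WB ρ 2 B f) (h' : WB ρ 2 B' g) :
    WB ρ 2 (12 * (B * B')) (fun x => f x * g x) := by
  have := h.mul' hρ le_rfl h'
  norm_num at this
  exact this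

/-! ### Series, inverses -/

theorem WB.tsum (hρ : 0 ≤ ρ) (hb : 2 ≤ b) {F : ℕ → ℝ → ℂ} {C : ℕ → ℝ}
    (h : ∀ j, WB ρ b (C j) (F j)) (hC : Summable C) :
    (∀ x, Summable fun j => F j x) ∧ WB ρ b (∑' j, C j) (fun x => ∑' j, F j x) := by
  choose a h1 h2 using fun j => wb_iff.1 (h j)
  have hn : ∀ j, 0 ≤ C j := fun j => (h j).nonneg
  have hk : ∀ k : ℤ, Summable fun j => C j / W ρ b k := fun k => hC.div_const _
  have hk' : ∀ k : ℤ, Summable fun j => ‖a j k‖ := fun k =>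
    Summable.of_nonneg_of_le (fun j => norm_nonneg _) (fun j => h1 j k) (hk k)
  have hT : ∀ x, Summable fun p : ℕ × ℤ => a p.1 p.2 * e p.2 x := by
    intro x
    have h3 := hC.mul_of_nonneg (W_summable (ρ := ρ) (b := b) hρ hb) hn (fun k => inv_W_nn k)
    refine Summable.of_norm (Summable.of_nonneg_of_le (fun p => norm_nonneg _) (fun p => ?_) h3)
    rw [norm_mul, norm_e, mul_one, mul_one_div]
    exact h1 p.1 p.2
  have hF : ∀ x, HasSum (fun j => F j x) (∑' p : ℕ × ℤ, a p.1 p.2 * e p.2 x) := fun x =>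
    (hT x).hasSum.prod_fiberwise fun j => h2 j x
  refine ⟨fun x => (hF x).summable, wb_iff.2 ⟨fun k => ∑' j, a j k, fun k => ?_, fun x => ?_⟩⟩
  · refine (norm_tsum_le_tsum_norm (hk' k)).trans ?_
    refine ((hk' k).tsum_le_tsum (fun j => h1 j k) (hk k)).trans (le_of_eq ?_)
    rw [tsum_div_const]
  · rw [(hF x).tsum_eq]
    have h3 := (Equiv.hasSum_iff (Equiv.prodComm ℤ ℕ)).2 (hT x).hasSum
    refine h3.prod_fiberwise fun k => ?_
    exact (hk' k).of_norm.hasSum.mul_right _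

theorem WB.pow (hρ : 0 ≤ ρ) (h : WB ρ 2 B g) (n : ℕ) :
    WB ρ 2 (B * (12 * B) ^ n) (fun x => g x ^ (n + 1)) := by
  induction n with
  | zero => simpa using h
  | succ n ih =>
    refine ((ih.mul hρ h).congr fun x => ?_).mono (le_of_eq ?_)
    · ring
    · ring

theorem WB.inv_ne (hρ : 0 ≤ ρ) (h : WB ρ 2 B g) (hB : 24 * B ≤ 1) (x : ℝ) : 1 + g x ≠ 0 := by
  have h1 := h.sup hρ le_rfl x
  intro h2
  have h3 : g x = -1 := by linear_combination h2
  rw [h3, norm_neg, norm_one] at h1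
  linarith

/-- `(1 + g)⁻¹ - 1` for small `g` -/
theorem WB.inv (hρ : 0 ≤ ρ) (h : WB ρ 2 B g) (hB : 24 * B ≤ 1) :
    WB ρ 2 (2 * B) (fun x => (1 + g x)⁻¹ - 1) := by
  have hB0 := h.nonneg
  have h12 : 12 * B < 1 := by linarith
  have hg := (hasSum_geometric_of_lt_one (by linarith : 0 ≤ 12 * B) h12)
  have hC : HasSum (fun n : ℕ => B * (12 * B) ^ n) (B * (1 - 12 * B)⁻¹) := hg.mul_left B
  have h1 := (WB.tsum hρ le_rfl (fun n => (h.neg).pow hρ n) hC.summable).2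
  rw [hC.tsum_eq] at h1
  refine (h1.congr fun x => ?_).mono ?_
  · have hx : ‖-g x‖ < 1 := by
      have := h.sup hρ le_rfl x
      rw [norm_neg]
      linarith
    have h2 := (hasSum_geometric_of_norm_lt_one hx).mul_left (-g x)
    have h3 : (fun n : ℕ => (-g x) ^ (n + 1)) = fun n : ℕ => -g x * (-g x) ^ n := by
      funext n
      ring
    rw [h3, h2.tsum_eq]
    have h4 := h.inv_ne hρ hB x
    rw [sub_neg_eq_add]
    field_simp
    ring
  · have h3 : (1 - 12 * B)⁻¹ ≤ 2 := by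
      rw [inv_le_comm₀ (by linarith) (by norm_num)]
      norm_num
      linarith
    nlinarith

/-- passing to a smaller strip: every power is free -/
theorem WB.lower {ρ ρ0 : ℝ} (h : ρ < ρ0) (b : ℕ) : ∃ C : ℝ, 0 < C ∧
    ∀ (b0 : ℕ) (B : ℝ) (f : ℝ → ℂ), WB ρ0 b0 B f → WB ρ b (C * B) f := by
  have hδ : 0 < ρ0 - ρ := sub_pos.2 h
  have hfac : (0:ℝ) < (b.factorial : ℝ) := by exact_mod_cast b.factorial_pos
  refine ⟨b.factorial / (ρ0 - ρ) ^ b * Real.exp (ρ0 - ρ), by positivity, fun b0 B f hf => ?_⟩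
  have hB := hf.nonneg
  obtain ⟨a, h1, h2⟩ := wb_iff.1 hf
  refine wb_iff.2 ⟨a, fun k => (h1 k).trans ?_, h2⟩
  have hk := one_le k
  set t : ℝ := |(k:ℝ)| with ht
  have ht0 : 0 ≤ t := abs_nonneg _
  have h3 : (1 + t) ^ b ≤ b.factorial / (ρ0 - ρ) ^ b * Real.exp (ρ0 - ρ) *
      Real.exp ((ρ0 - ρ) * t) := by
    have h4 := Real.pow_div_factorial_le_exp ((ρ0 - ρ) * (1 + t)) (by positivity) b
    rw [mul_add, mul_one, Real.exp_add, ← mul_one_add, mul_pow] at h4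
    rw [div_le_iff₀ hfac] at h4
    have h5 : (1 + t) ^ b = ((ρ0 - ρ) ^ b * (1 + t) ^ b) / (ρ0 - ρ) ^ b := by
      field_simp
    rw [h5]
    rw [div_le_iff₀ (by positivity)]
    refine h4.trans (le_of_eq ?_)
    field_simp
  have h4 : Real.exp (ρ0 * t) = Real.exp (ρ * t) * Real.exp ((ρ0 - ρ) * t) := by
    rw [← Real.exp_add]
    congr 1
    ring
  have h5 : (1:ℝ) ≤ (1 + t) ^ b0 := one_le_pow₀ hk
  have e1 := Real.exp_pos (ρ * t)
  have e2 := Real.exp_pos ((ρ0 - ρ) * t)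
  show B / ((1 + t) ^ b0 * Real.exp (ρ0 * t)) ≤
    b.factorial / (ρ0 - ρ) ^ b * Real.exp (ρ0 - ρ) * B / ((1 + t) ^ b * Real.exp (ρ * t))
  rw [div_le_div_iff₀ (by positivity) (by positivity), h4]
  calc B * ((1 + t) ^ b * Real.exp (ρ * t))
      ≤ B * ((b.factorial / (ρ0 - ρ) ^ b * Real.exp (ρ0 - ρ) *
        Real.exp ((ρ0 - ρ) * t)) * Real.exp (ρ * t)) := by gcongr
    _ = b.factorial / (ρ0 - ρ) ^ b * Real.exp (ρ0 - ρ) * B *
        (1 * (Real.exp (ρ * t) * Real.exp ((ρ0 - ρ) * t))) := by ring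
    _ ≤ b.factorial / (ρ0 - ρ) ^ b * Real.exp (ρ0 - ρ) * B *
        ((1 + t) ^ b0 * (Real.exp (ρ * t) * Real.exp ((ρ0 - ρ) * t))) := by gcongr

/-! ### Real and imaginary parts -/

theorem WB.re (h : WB ρ b B f) : WR ρ b B (fun x => (f x).re) := by
  have h1 := (h.add h.conj).const_mul (1 / 2)
  refine (WB.mono (h1.congr fun x => ?_) ?_ : WB ρ b B _)
  · rw [Complex.add_conj]
    push_cast
    ring
  · norm_num
    linarith [h.nonneg]

theorem WB.im (h : WB ρ b B f) : WR ρ b B (fun x => (f x).im) := by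
  have h1 := (h.const_mul (-Complex.I)).re
  rw [norm_neg, Complex.norm_I, one_mul] at h1
  have h2 : (fun x => (f x).im) = fun x => (-Complex.I * f x).re := by
    funext x
    simp
  rw [h2]
  exact h1

/-! ### Real functions -/

variable {u v : ℝ → ℝ}

theorem WR.congr (h : WR ρ b B u) (he : ∀ x, u x = v x) : WR ρ b B v := by
  have : u = v := funext he
  rwa [← this]

theorem WR.nonneg (h : WR ρ b B u) : 0 ≤ B := WB.nonneg h

theorem WR.mono (h : WR ρ b B u) (hB : B ≤ B') : WR ρ b B' u := WB.mono h hB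

theorem WR.b_mono (h : WR ρ b B u) (hb : b' ≤ b) : WR ρ b' B u := WB.b_mono h hb

theorem WR.rho_mono (h : WR ρ b B u) (hr : ρ' ≤ ρ) : WR ρ' b B u := WB.rho_mono h hr

theorem WR.add (h : WR ρ b B u) (h' : WR ρ b B' v) : WR ρ b (B + B') (fun x => u x + v x) :=
  (WB.add h h').congr fun x => by push_cast; rfl

theorem WR.neg (h : WR ρ b B u) : WR ρ b B (fun x => -u x) :=
  (WB.neg h).congr fun x => by push_cast; rfl

theorem WR.sub (h : WR ρ b B u) (h' : WR ρ b B' v) : WR ρ b (B + B') (fun x => u x - v x) :=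
  (WB.sub h h').congr fun x => by push_cast; rfl

theorem WR.const_mul (h : WR ρ b B u) (c : ℝ) : WR ρ b (|c| * B) (fun x => c * u x) := by
  have h1 := WB.const_mul h (c : ℂ)
  rw [Complex.norm_real, Real.norm_eq_abs] at h1
  exact h1.congr fun x => by push_cast; rfl

theorem WR.const (ρ : ℝ) (b : ℕ) (c : ℝ) : WR ρ b |c| (fun _ => c) := by
  have h1 := WB.const ρ b (c : ℂ)
  rwa [Complex.norm_real, Real.norm_eq_abs] at h1

theorem WR.mul (hρ : 0 ≤ ρ) (h : WR ρ 2 B u) (h' : WR ρ 2 B' v) :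
    WR ρ 2 (12 * (B * B')) (fun x => u x * v x) :=
  (WB.mul hρ h h').congr fun x => by push_cast; rfl

theorem WR.mul' (hρ : 0 ≤ ρ) (hb : 2 ≤ b) (h : WR ρ b B u) (h' : WR ρ b B' v) :
    WR ρ b (3 * 2 ^ b * (B * B')) (fun x => u x * v x) :=
  (WB.mul' hρ hb h h').congr fun x => by push_cast; rfl

theorem WR.inv_ne (hρ : 0 ≤ ρ) (h : WR ρ 2 B u) (hB : 24 * B ≤ 1) (x : ℝ) : 1 + u x ≠ 0 := by
  have := WB.inv_ne hρ h hB x
  intro h1
  exact this (by exact_mod_cast h1)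

theorem WR.inv (hρ : 0 ≤ ρ) (h : WR ρ 2 B u) (hB : 24 * B ≤ 1) :
    WR ρ 2 (2 * B) (fun x => (1 + u x)⁻¹ - 1) :=
  (WB.inv hρ h hB).congr fun x => by push_cast; rfl

theorem WR.sup (hρ : 0 ≤ ρ) (hb : 2 ≤ b) (h : WR ρ b B u) (x : ℝ) : |u x| ≤ 3 * B := by
  have h1 := WB.sup hρ hb h x
  rwa [Complex.norm_real, Real.norm_eq_abs] at h1

theorem WR.closed (hρ : 0 ≤ ρ) (hb : 2 ≤ b) (h : ∀ δ > 0, WR ρ b (B + δ) u) : WR ρ b B u :=
  WB.closed hρ hb h

theorem WR.rc_le (hρ : 0 ≤ ρ) (hb : 2 ≤ b) (h : WR ρ b B u) (k : ℤ) :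
    ‖rc u k‖ ≤ B / ((1 + |(k:ℝ)|) ^ b * Real.exp (ρ * |(k:ℝ)|)) :=
  WB.fc_le hρ hb h k

theorem WR.hasSum_rc (hρ : 0 ≤ ρ) (hb : 2 ≤ b) (h : WR ρ b B u) (x : ℝ) :
    HasSum (fun k => rc u k * e k x) ((u x : ℝ) : ℂ) :=
  WB.hasSum_fc hρ hb h x

theorem WR.of_rc (hρ : 0 ≤ ρ) (hb : 2 ≤ b) (h : WR ρ b B u) {ρ' : ℝ} {b' : ℕ} {B' : ℝ}
    (h' : ∀ k : ℤ, ‖rc u k‖ ≤ B' / ((1 + |(k:ℝ)|) ^ b' * Real.exp (ρ' * |(k:ℝ)|))) :
    WR ρ' b' B' u :=
  WB.of_fc hρ hb h h'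

theorem WR.continuous (hρ : 0 ≤ ρ) (hb : 2 ≤ b) (h : WR ρ b B u) : Continuous u := by
  have h1 := Complex.continuous_re.comp (WB.continuous hρ hb h)
  exact h1.congr fun _ => Complex.ofReal_re _

theorem WR.periodic (h : WR ρ b B u) : Function.Periodic u 1 := by
  intro x
  have := WB.periodic h x
  exact_mod_cast this

theorem WR.lower {ρ ρ0 : ℝ} (h : ρ < ρ0) (b : ℕ) : ∃ C : ℝ, 0 < C ∧
    ∀ (b0 : ℕ) (B : ℝ) (u : ℝ → ℝ), WR ρ0 b0 B u → WR ρ b (C * B) u := by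
  obtain ⟨C, h1, h2⟩ := WB.lower h b
  exact ⟨C, h1, fun b0 B u hu => h2 b0 B _ hu⟩

/-- a real function times a complex one -/
theorem WB.smul (hρ : 0 ≤ ρ) (h : WR ρ 2 B u) (h' : WB ρ 2 B' f) :
    WB ρ 2 (12 * (B * B')) (fun x => (u x : ℂ) * f x) := WB.mul hρ h h'

/-- `|f|²` -/
theorem WB.normSq (hρ : 0 ≤ ρ) (h : WB ρ 2 B f) :
    WR ρ 2 (12 * (B * B)) (fun x => Complex.normSq (f x)) :=
  (WB.mul hρ h h.conj).congr fun x => Complex.mul_conj _

/-- a bound of `1 + u` and of `u` from a bound of the difference to a constant -/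
theorem WR.of_sub_const {c : ℝ} (h : WR ρ b B (fun x => u x - c)) : WR ρ b (B + |c|) u :=
  (h.add (WR.const ρ b c)).congr fun x => by ring

end Pool.Agent.MP_ae5b4e_an_NC
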