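import Mathlib
import Pool.Agent.Lib.MP_ae5b4e_an_NC.Def
import Pool.Agent.Lib.MP_ae5b4e_an_NC.WB

/-!
# MP_ae5b4e_an, project NC: calculus of weighted bounds which are uniform in a family
-/

noncomputable section

namespace Pool.Agent.MP_ae5b4e_an_NC

open Real Set Filter Topology
open Pool.Agent.MP_ae5b4e_an_RG

/-- uniform weighted bounds of a family of functions -/
def WO {ι : Type*} (ρ : ℝ) (s : ι → ℝ) (f : ι → ℝ → ℂ) : Prop :=
  ∃ C : ℝ, 0 ≤ C ∧ ∀ i, WB ρ 2 (C * s i) (f i)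

/-- the same for real functions -/
def WOR {ι : Type*} (ρ : ℝ) (s : ι → ℝ) (f : ι → ℝ → ℝ) : Prop :=
  WO ρ s (fun i x => (f i x : ℂ))

variable {ι : Type*} {ρ : ℝ} {s t : ι → ℝ} {f g : ι → ℝ → ℂ} {u v : ι → ℝ → ℝ}

theorem WO.congr (h : WO ρ s f) (hfg : ∀ i x, g i x = f i x) : WO ρ s g := by
  have : g = f := by
    funext i x
    exact hfg i x
  rwa [this]

theorem WO.le (h : WO ρ s f) {K : ℝ} (hK : 0 ≤ K) (hst : ∀ i, s i ≤ K * t i) : WO ρ t f := by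
  obtain ⟨C, hC, h⟩ := h
  refine ⟨C * K, by positivity, fun i => (h i).mono ?_⟩
  calc C * s i ≤ C * (K * t i) := mul_le_mul_of_nonneg_left (hst i) hC
    _ = C * K * t i := by ring

theorem WO.le1 (h : WO ρ s f) (hst : ∀ i, s i ≤ t i) : WO ρ t f :=
  h.le (K := 1) zero_le_one fun i => by linarith [hst i]

theorem WO.sub (h : WO ρ s f) (h' : WO ρ s g) :
    WO ρ s (fun i x => f i x - g i x) := by
  obtain ⟨C, hC, h⟩ := h
  obtain ⟨C', hC', h'⟩ := h'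
  exact ⟨C + C', by positivity, fun i => ((h i).sub (h' i)).mono (by linarith)⟩

theorem WO.add (h : WO ρ s f) (h' : WO ρ s g) :
    WO ρ s (fun i x => f i x + g i x) := by
  obtain ⟨C, hC, h⟩ := h
  obtain ⟨C', hC', h'⟩ := h'
  exact ⟨C + C', by positivity, fun i => ((h i).add (h' i)).mono (by linarith)⟩

theorem WO.mul (hρ : 0 ≤ ρ) (h : WO ρ s f) (h' : WO ρ t g) :
    WO ρ (fun i => s i * t i) (fun i x => f i x * g i x) := by
  obtain ⟨C, hC, h⟩ := h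
  obtain ⟨C', hC', h'⟩ := h'
  refine ⟨12 * (C * C'), by positivity, fun i => (WB.mul hρ (h i) (h' i)).mono ?_⟩
  apply le_of_eq
  ring

theorem WO.mulr (hρ : 0 ≤ ρ) (h : WO ρ s f) (h' : WO ρ (fun _ => (1:ℝ)) g) :
    WO ρ s (fun i x => f i x * g i x) :=
  (h.mul hρ h').le1 fun i => by simp

theorem WO.mull (hρ : 0 ≤ ρ) (h : WO ρ (fun _ => (1:ℝ)) f) (h' : WO ρ s g) :
    WO ρ s (fun i x => f i x * g i x) :=
  (h.mul hρ h').le1 fun i => by simp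

theorem WO.conj (h : WO ρ s f) : WO ρ s (fun i x => (starRingEnd ℂ) (f i x)) := by
  obtain ⟨C, hC, h⟩ := h
  exact ⟨C, hC, fun i => (h i).conj⟩

theorem WO.cmul (c : ℂ) (h : WO ρ s f) : WO ρ s (fun i x => c * f i x) := by
  obtain ⟨C, hC, h⟩ := h
  refine ⟨‖c‖ * C, by positivity, fun i => ((h i).const_mul c).mono ?_⟩
  apply le_of_eq
  ring

theorem WO.par (ρ : ℝ) {c : ι → ℂ} (hc : ∀ i, ‖c i‖ ≤ s i) : WO ρ s (fun i _ => c i) :=
  ⟨1, zero_le_one, fun i => (WB.const ρ 2 (c i)).mono (by linarith [hc i])⟩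

theorem WO.one (ρ : ℝ) : WO ρ (fun _ : ι => (1:ℝ)) (fun _ _ => (1:ℂ)) :=
  WO.par ρ fun i => by simp

theorem WO.e1 (ρ : ℝ) : WO ρ (fun _ : ι => (1:ℝ)) (fun _ => e 1) :=
  ⟨2 ^ 2 * Real.exp ρ, by positivity, fun i => (WB.e1 ρ 2).mono (by linarith)⟩

theorem WO.re (h : WO ρ s f) : WOR ρ s (fun i x => (f i x).re) := by
  refine ((h.add h.conj).cmul (1 / 2)).congr fun i x => ?_
  apply Complex.ext
  · simp
    ring
  · simp

theorem WOR.le (h : WOR ρ s u) {K : ℝ} (hK : 0 ≤ K) (hst : ∀ i, s i ≤ K * t i) : WOR ρ t u :=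
  WO.le h hK hst

theorem WOR.le1 (h : WOR ρ s u) (hst : ∀ i, s i ≤ t i) : WOR ρ t u := WO.le1 h hst

theorem WOR.congr (h : WOR ρ s u) (hfg : ∀ i x, v i x = u i x) : WOR ρ s v := by
  have : v = u := by
    funext i x
    exact hfg i x
  rwa [this]

theorem WOR.add (h : WOR ρ s u) (h' : WOR ρ s v) : WOR ρ s (fun i x => u i x + v i x) :=
  (WO.add h h').congr fun i x => by push_cast; rfl

theorem WOR.sub (h : WOR ρ s u) (h' : WOR ρ s v) : WOR ρ s (fun i x => u i x - v i x) :=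
  (WO.sub h h').congr fun i x => by push_cast; rfl

theorem WOR.mul (hρ : 0 ≤ ρ) (h : WOR ρ s u) (h' : WOR ρ t v) :
    WOR ρ (fun i => s i * t i) (fun i x => u i x * v i x) :=
  (WO.mul hρ h h').congr fun i x => by push_cast; rfl

theorem WOR.mulr (hρ : 0 ≤ ρ) (h : WOR ρ s u) (h' : WOR ρ (fun _ => (1:ℝ)) v) :
    WOR ρ s (fun i x => u i x * v i x) :=
  (WO.mulr hρ h h').congr fun i x => by push_cast; rfl

theorem WOR.mull (hρ : 0 ≤ ρ) (h : WOR ρ (fun _ => (1:ℝ)) u) (h' : WOR ρ s v) :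
    WOR ρ s (fun i x => u i x * v i x) :=
  (WO.mull hρ h h').congr fun i x => by push_cast; rfl

theorem WOR.cmul (c : ℝ) (h : WOR ρ s u) : WOR ρ s (fun i x => c * u i x) :=
  (WO.cmul (c : ℂ) h).congr fun i x => by push_cast; rfl

theorem WOR.one (ρ : ℝ) : WOR ρ (fun _ : ι => (1:ℝ)) (fun _ _ => (1:ℝ)) :=
  (WO.one ρ).congr fun i x => by push_cast; rfl

/-- inverse of `1 + small` -/
theorem WOR.inv (hρ : 0 ≤ ρ) {C : ℝ} (hC : 0 ≤ C) (h : ∀ i, WR ρ 2 (C * s i) (u i))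
    (hs : ∀ i, 24 * (C * s i) ≤ 1) : WOR ρ s (fun i x => (1 + u i x)⁻¹ - 1) := by
  refine ⟨2 * C, by positivity, fun i => ?_⟩
  have h1 := (WB.inv hρ (h i) (hs i)).mono (B' := 2 * C * s i) (by linarith)
  have h2 : (fun x => (((1 + u i x)⁻¹ - 1 : ℝ) : ℂ)) = fun x => (1 + (u i x : ℂ))⁻¹ - 1 := by
    funext x
    push_cast
    rfl
  change WB ρ 2 (2 * C * s i) (fun x => (((1 + u i x)⁻¹ - 1 : ℝ) : ℂ))
  rw [h2]
  exact h1

end Pool.Agent.MP_ae5b4e_an_NC
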