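import Mathlib
import Pool.Agent.Lib.MP_ae5b4e_an_NC.WOc

/-!
# MP_ae5b4e_an, project NC: weighted bounds of the jet functions
-/

noncomputable section

namespace Pool.Agent.MP_ae5b4e_an_NC

open Real Set Filter Topology
open Pool.Agent.MP_ae5b4e_an_RG

theorem conj_e1 (x : ℝ) : (starRingEnd ℂ) (e 1 x) * e 1 x = 1 := by
  rw [mul_comm, Complex.mul_conj]
  have : ‖e 1 x‖ = 1 := by
    unfold e
    rw [show (2 * π * Complex.I * ((1:ℤ):ℂ) * x : ℂ) = ((2 * π * x : ℝ) : ℂ) * Complex.I by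
      push_cast; ring]
    exact Complex.norm_exp_ofReal_mul_I _
  rw [Complex.normSq_eq_norm_sq, this]
  simp

/-- a family of curves near the circle -/
structure Fam {ι : Type*} (ρ : ℝ) (ε : ι → ℝ) (J : ι → ℝ → Jet) (θ : ι → Par) : Prop where
  near : ∀ i, Near ρ (ε i) (J i)
  small : ∀ i, (θ i).Small (ε i)
  le : ∀ i, ε i ≤ 1

namespace Fam

variable {ι : Type*} {ρ : ℝ} {ε : ι → ℝ} {J : ι → ℝ → Jet} {θ : ι → Par}

theorem w_sub (H : Fam ρ ε J θ) : WO ρ ε (fun i x => (J i x).w - e 1 x) :=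
  ⟨1, zero_le_one, fun i => (H.near i).w.mono (by linarith)⟩

theorem z_sub (H : Fam ρ ε J θ) : WOR ρ ε (fun i x => (J i x).z - 1) :=
  ⟨1, zero_le_one, fun i => (H.near i).z.mono (by linarith)⟩

theorem w1_sub (H : Fam ρ ε J θ) : WO ρ ε (fun i x => (J i x).w1 - Complex.I * e 1 x) :=
  ⟨1, zero_le_one, fun i => (H.near i).w1.mono (by linarith)⟩

theorem z1 (H : Fam ρ ε J θ) : WOR ρ ε (fun i x => (J i x).z1) :=
  ⟨1, zero_le_one, fun i => (H.near i).z1.mono (by linarith)⟩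

theorem nonneg (H : Fam ρ ε J θ) (i : ι) : 0 ≤ ε i := (norm_nonneg _).trans (H.small i).q

theorem z1' (H : Fam ρ ε J θ) : WOR ρ (fun _ => (1:ℝ)) (fun i x => (J i x).z1) :=
  H.z1.le1 H.le

theorem w (H : Fam ρ ε J θ) : WO ρ (fun _ => (1:ℝ)) (fun i x => (J i x).w) :=
  ((H.w_sub.le1 H.le).add (WO.e1 ρ)).congr fun i x => by ring

theorem z (H : Fam ρ ε J θ) : WOR ρ (fun _ => (1:ℝ)) (fun i x => (J i x).z) :=
  ((H.z_sub.le1 H.le).add (WOR.one ρ)).congr fun i x => by ring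

theorem w1 (H : Fam ρ ε J θ) : WO ρ (fun _ => (1:ℝ)) (fun i x => (J i x).w1) :=
  ((H.w1_sub.le1 H.le).add ((WO.e1 ρ).cmul Complex.I)).congr fun i x => by ring

theorem q (_ : Fam ρ ε J θ) : WO ρ (fun i => ‖(θ i).q‖) (fun i _ => (θ i).q) :=
  WO.par ρ fun _ => le_rfl

theorem q_le (H : Fam ρ ε J θ) (i : ι) : ‖(θ i).q‖ ≤ ε i := (H.small i).q

theorem q_le1 (H : Fam ρ ε J θ) (i : ι) : ‖(θ i).q‖ ≤ 1 := (H.small i).q.trans (H.le i)

/-- `Re (q w²)` -/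
theorem qww (hρ : 0 ≤ ρ) (H : Fam ρ ε J θ) :
    WOR ρ (fun i => ‖(θ i).q‖) (fun i x => ((θ i).q * (J i x).w ^ 2).re) :=
  (((H.q.mulr hρ H.w).mulr hρ H.w).congr fun i x => by ring).re

theorem qww1 (hρ : 0 ≤ ρ) (H : Fam ρ ε J θ) :
    WOR ρ (fun i => ‖(θ i).q‖) (fun i x => ((θ i).q * ((J i x).w * (J i x).w1)).re) :=
  (((H.q.mulr hρ H.w).mulr hρ H.w1).congr fun i x => by ring).re

theorem al_sub (hρ : 0 ≤ ρ) (H : Fam ρ ε J θ) : WOR ρ ε (fun i x => (J i x).al (θ i) - 1) := by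
  have h1 : WOR ρ ε (fun i x => ((J i x).z - 1) * ((J i x).z + 1)) :=
    H.z_sub.mulr hρ (H.z.add (WOR.one ρ))
  refine (h1.add ((H.qww hρ).le1 H.q_le)).congr fun i x => ?_
  unfold Jet.al
  ring

theorem al (hρ : 0 ≤ ρ) (H : Fam ρ ε J θ) :
    WOR ρ (fun _ => (1:ℝ)) (fun i x => (J i x).al (θ i)) :=
  (((H.al_sub hρ).le1 H.le).add (WOR.one ρ)).congr fun i x => by ring

theorem al1 (hρ : 0 ≤ ρ) (H : Fam ρ ε J θ) : WOR ρ ε (fun i x => (J i x).al1 (θ i)) := by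
  have h1 : WOR ρ ε (fun i x => (J i x).z * (J i x).z1) := H.z.mull hρ H.z1
  refine ((h1.cmul 2).add (((H.qww1 hρ).le1 H.q_le).cmul 2)).congr fun i x => ?_
  unfold Jet.al1
  ring

end Fam

/-- a family of curves near the circle, with a bound of the inverse of `al` -/
structure Fam2 {ι : Type*} (ρ : ℝ) (ε : ι → ℝ) (J : ι → ℝ → Jet) (θ : ι → Par) : Prop
    extends Fam ρ ε J θ where
  rho : 0 ≤ ρ
  al0 : ∀ i x, (J i x).al (θ i) ≠ 0
  inv_sub : WOR ρ ε (fun i x => ((J i x).al (θ i))⁻¹ - 1)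

namespace Fam2

variable {ι : Type*} {ρ : ℝ} {ε : ι → ℝ} {J : ι → ℝ → Jet} {θ : ι → Par}

theorem inv (H : Fam2 ρ ε J θ) : WOR ρ (fun _ => (1:ℝ)) (fun i x => ((J i x).al (θ i))⁻¹) :=
  ((H.inv_sub.le1 H.le).add (WOR.one ρ)).congr fun i x => by ring

theorem ka (H : Fam2 ρ ε J θ) : WOR ρ ε (fun i x => (J i x).ka (θ i)) := by
  refine (((H.al1 H.rho).mulr H.rho H.inv).cmul (1 / 2)).congr fun i x => ?_
  unfold Jet.ka
  have := H.al0 i x
  field_simp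

theorem ka' (H : Fam2 ρ ε J θ) : WOR ρ (fun _ => (1:ℝ)) (fun i x => (J i x).ka (θ i)) :=
  H.ka.le1 H.le

theorem wT_sub (H : Fam2 ρ ε J θ) :
    WO ρ ε (fun i x => (J i x).wT (θ i) - Complex.I * e 1 x) := by
  have h1 : WO ρ ε (fun i x => ((J i x).ka (θ i) : ℂ) * (J i x).w) := WO.mulr H.rho H.ka H.w
  refine (H.w1_sub.sub h1).congr fun i x => ?_
  unfold Jet.wT
  ring

theorem wT (H : Fam2 ρ ε J θ) : WO ρ (fun _ => (1:ℝ)) (fun i x => (J i x).wT (θ i)) :=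
  ((H.wT_sub.le1 H.le).add ((WO.e1 ρ).cmul Complex.I)).congr fun i x => by ring

theorem zT (H : Fam2 ρ ε J θ) :
    WOR ρ (fun i => ‖(θ i).q‖) (fun i x => (J i x).zT (θ i)) := by
  have h1 := (H.qww H.rho).mulr H.rho H.z1'
  have h2 := (H.qww1 H.rho).mulr H.rho H.z
  refine ((h1.sub h2).mulr H.rho H.inv).congr fun i x => ?_
  have h3 : (J i x).z ^ 2 + ((θ i).q * (J i x).w ^ 2).re ≠ 0 := H.al0 i x
  unfold Jet.zT Jet.ka Jet.al1 Jet.al
  field_simp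
  ring

theorem zT' (H : Fam2 ρ ε J θ) : WOR ρ (fun _ => (1:ℝ)) (fun i x => (J i x).zT (θ i)) :=
  H.zT.le1 H.q_le1

theorem la (H : Fam2 ρ ε J θ) :
    WOR ρ (fun i => ‖(θ i).q‖) (fun i x => (J i x).la (θ i)) := by
  have h1 : WOR ρ (fun i => ‖(θ i).q‖) (fun i x => ((θ i).q * (J i x).wT (θ i) ^ 2).re) :=
    (((H.q.mulr H.rho H.wT).mulr H.rho H.wT).congr fun i x => by ring).re
  refine (((H.zT.mulr H.rho H.zT').add h1).mulr H.rho H.inv).congr fun i x => ?_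
  unfold Jet.la
  have := H.al0 i x
  field_simp

theorem la' (H : Fam2 ρ ε J θ) : WOR ρ (fun _ => (1:ℝ)) (fun i x => (J i x).la (θ i)) :=
  H.la.le1 H.q_le1

theorem laε (H : Fam2 ρ ε J θ) : WOR ρ ε (fun i x => (J i x).la (θ i)) :=
  H.la.le1 H.q_le

theorem b1 (H : Fam2 ρ ε J θ) : WOR ρ ε (fun i x => (J i x).b1 (θ i)) := by
  have h1 : WO ρ ε (fun i x => (starRingEnd ℂ) (J i x).w *
      ((J i x).wT (θ i) - Complex.I * e 1 x)) := H.w.conj.mull H.rho H.wT_sub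
  have h2 : WO ρ ε (fun i x => (starRingEnd ℂ) ((J i x).w - e 1 x) * (Complex.I * e 1 x)) :=
    H.w_sub.conj.mulr H.rho ((WO.e1 ρ).cmul Complex.I)
  have h3 : WOR ρ ε (fun i x => (J i x).z * (J i x).zT (θ i)) :=
    (H.z.mull H.rho H.zT).le1 H.q_le
  refine ((((h1.add h2).re).cmul 2).sub (h3.cmul 2)).congr fun i x => ?_
  have h4 := conj_e1 x
  have h5 : (starRingEnd ℂ) (J i x).w * (J i x).wT (θ i) =
      (starRingEnd ℂ) (J i x).w * ((J i x).wT (θ i) - Complex.I * e 1 x) +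
        (starRingEnd ℂ) ((J i x).w - e 1 x) * (Complex.I * e 1 x) + Complex.I := by
    rw [map_sub]
    linear_combination Complex.I * h4
  unfold Jet.b1
  rw [h5]
  simp

theorem b2_sub (H : Fam2 ρ ε J θ) : WOR ρ ε (fun i x => (J i x).b2 (θ i) - 1) := by
  have h1 : WO ρ ε (fun i x => (starRingEnd ℂ) ((J i x).wT (θ i)) *
      ((J i x).wT (θ i) - Complex.I * e 1 x)) := H.wT.conj.mull H.rho H.wT_sub
  have h2 : WO ρ ε (fun i x => (starRingEnd ℂ) ((J i x).wT (θ i) - Complex.I * e 1 x) *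
      (Complex.I * e 1 x)) := H.wT_sub.conj.mulr H.rho ((WO.e1 ρ).cmul Complex.I)
  have h3 : WOR ρ ε (fun i x => (J i x).zT (θ i) * (J i x).zT (θ i)) :=
    (H.zT'.mull H.rho H.zT).le1 H.q_le
  refine (((h1.add h2).re).sub h3).congr fun i x => ?_
  have h4 := conj_e1 x
  have h5 : (starRingEnd ℂ) ((J i x).wT (θ i)) * (J i x).wT (θ i) =
      (starRingEnd ℂ) ((J i x).wT (θ i)) * ((J i x).wT (θ i) - Complex.I * e 1 x) +
        (starRingEnd ℂ) ((J i x).wT (θ i) - Complex.I * e 1 x) * (Complex.I * e 1 x) + 1 := by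
    rw [map_sub, map_mul, Complex.conj_I]
    linear_combination h4 + (-(starRingEnd ℂ) (e 1 x) * e 1 x) * (Complex.I_sq)
  have h6 : Complex.normSq ((J i x).wT (θ i)) =
      ((starRingEnd ℂ) ((J i x).wT (θ i)) * (J i x).wT (θ i)).re := by
    rw [mul_comm, Complex.mul_conj]
    simp
  unfold Jet.b2
  rw [h6, h5, Complex.add_re, Complex.one_re]
  ring

theorem q1 (H : Fam2 ρ ε J θ) : WOR ρ ε (fun i x => Q1 (J i x).w (J i x).z) := by
  have h1 : WO ρ ε (fun i x => (starRingEnd ℂ) (J i x).w * ((J i x).w - e 1 x)) :=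
    H.w.conj.mull H.rho H.w_sub
  have h2 : WO ρ ε (fun i x => (starRingEnd ℂ) ((J i x).w - e 1 x) * (e 1 x)) :=
    H.w_sub.conj.mulr H.rho (WO.e1 ρ)
  have h3 : WOR ρ ε (fun i x => ((J i x).z - 1) * ((J i x).z + 1)) :=
    H.z_sub.mulr H.rho (H.z.add (WOR.one ρ))
  refine (((h1.add h2).re).sub h3).congr fun i x => ?_
  have h4 := conj_e1 x
  have h5 : (starRingEnd ℂ) (J i x).w * (J i x).w =
      (starRingEnd ℂ) (J i x).w * ((J i x).w - e 1 x) +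
        (starRingEnd ℂ) ((J i x).w - e 1 x) * (e 1 x) + 1 := by
    rw [map_sub]
    linear_combination h4
  have h6 : Complex.normSq (J i x).w = ((starRingEnd ℂ) (J i x).w * (J i x).w).re := by
    rw [mul_comm, Complex.mul_conj]
    simp
  unfold Q1
  rw [h6, h5, Complex.add_re, Complex.one_re]
  ring

theorem zc (H : Fam2 ρ ε J θ) : WO ρ (fun _ => (1:ℝ)) (fun i x => ((J i x).z : ℂ)) := H.z

theorem zTc (H : Fam2 ρ ε J θ) :
    WO ρ (fun i => ‖(θ i).q‖) (fun i x => ((J i x).zT (θ i) : ℂ)) := H.zT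

theorem zTc' (H : Fam2 ρ ε J θ) :
    WO ρ (fun _ => (1:ℝ)) (fun i x => ((J i x).zT (θ i) : ℂ)) := H.zT'

/-- forms of degree four -/
theorem quart (H : Fam2 ρ ε J θ) {f g : ι → ℝ → ℂ} (hf : WO ρ (fun _ => (1:ℝ)) f)
    (hg : WO ρ (fun _ => (1:ℝ)) g) :
    WOR ρ (fun i => (θ i).c) (fun i x => ((θ i).c3 * f i x + (θ i).c4 * g i x).re) := by
  have h3 : WO ρ (fun i => (θ i).c) (fun i _ => (θ i).c3) :=
    WO.par ρ fun i => by unfold Par.c; linarith [norm_nonneg (θ i).c4]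
  have h4 : WO ρ (fun i => (θ i).c) (fun i _ => (θ i).c4) :=
    WO.par ρ fun i => by unfold Par.c; linarith [norm_nonneg (θ i).c3]
  exact ((h3.mulr H.rho hf).add (h4.mulr H.rho hg)).re

theorem mul1 (H : Fam2 ρ ε J θ) {f g : ι → ℝ → ℂ} (hf : WO ρ (fun _ => (1:ℝ)) f)
    (hg : WO ρ (fun _ => (1:ℝ)) g) : WO ρ (fun _ => (1:ℝ)) (fun i x => f i x * g i x) :=
  hf.mulr H.rho hg

theorem g0 (H : Fam2 ρ ε J θ) : WOR ρ (fun i => (θ i).c) (fun i x => (J i x).g0 (θ i)) :=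
  (H.quart (H.mul1 (H.mul1 (H.mul1 H.w H.w) H.w) H.zc)
    (H.mul1 (H.mul1 (H.mul1 H.w H.w) H.w) H.w)).congr fun i x => by
      unfold Jet.g0
      congr 1
      ring

theorem g1 (H : Fam2 ρ ε J θ) : WOR ρ (fun i => (θ i).c) (fun i x => (J i x).g1 (θ i)) :=
  (H.quart (((H.mul1 (H.mul1 (H.mul1 H.w H.w) H.wT) H.zc).cmul 3).add
      (H.mul1 (H.mul1 (H.mul1 H.w H.w) H.w) H.zTc'))
    ((H.mul1 (H.mul1 (H.mul1 H.w H.w) H.w) H.wT).cmul 4)).congr fun i x => by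
      unfold Jet.g1
      congr 1
      ring

theorem g2 (H : Fam2 ρ ε J θ) : WOR ρ (fun i => (θ i).c) (fun i x => (J i x).g2 (θ i)) :=
  (H.quart (((H.mul1 (H.mul1 (H.mul1 H.w H.wT) H.wT) H.zc).cmul 3).add
      ((H.mul1 (H.mul1 (H.mul1 H.w H.w) H.wT) H.zTc').cmul 3))
    ((H.mul1 (H.mul1 (H.mul1 H.w H.w) H.wT) H.wT).cmul 6)).congr fun i x => by
      unfold Jet.g2
      congr 1
      ring

theorem g3 (H : Fam2 ρ ε J θ) : WOR ρ (fun i => (θ i).c) (fun i x => (J i x).g3 (θ i)) :=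
  (H.quart ((H.mul1 (H.mul1 (H.mul1 H.wT H.wT) H.wT) H.zc).add
      ((H.mul1 (H.mul1 (H.mul1 H.w H.wT) H.wT) H.zTc').cmul 3))
    ((H.mul1 (H.mul1 (H.mul1 H.w H.wT) H.wT) H.wT).cmul 4)).congr fun i x => by
      unfold Jet.g3
      congr 1
      ring

theorem c_nonneg (_ : Fam2 ρ ε J θ) (i : ι) : 0 ≤ (θ i).c := by
  unfold Par.c
  positivity

theorem c_le (H : Fam2 ρ ε J θ) (i : ι) : (θ i).c ≤ 2 * ε i := by
  unfold Par.c
  linarith [(H.small i).c3, (H.small i).c4]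

theorem c_le2 (H : Fam2 ρ ε J θ) (i : ι) : (θ i).c ≤ 2 * 1 := by
  linarith [H.c_le i, H.le i]

theorem toε (H : Fam2 ρ ε J θ) {u : ι → ℝ → ℝ} (h : WOR ρ (fun i => (θ i).c) u) :
    WOR ρ ε u := h.le (K := 2) (by norm_num) H.c_le

theorem to1 (H : Fam2 ρ ε J θ) {u : ι → ℝ → ℝ} (h : WOR ρ (fun i => (θ i).c) u) :
    WOR ρ (fun _ => (1:ℝ)) u := h.le (K := 2) (by norm_num) H.c_le2

theorem inv2 (H : Fam2 ρ ε J θ) :
    WOR ρ (fun _ => (1:ℝ)) (fun i x => (((J i x).al (θ i))⁻¹) * ((J i x).al (θ i))⁻¹) :=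
  H.inv.mulr H.rho H.inv

theorem e0 (H : Fam2 ρ ε J θ) : WOR ρ ε (fun i x => (J i x).e0 (θ i)) := by
  refine ((H.b1.mulr H.rho H.inv).add ((H.toε H.g1).mulr H.rho H.inv2)).congr fun i x => ?_
  unfold Jet.e0
  have := H.al0 i x
  field_simp

theorem e0' (H : Fam2 ρ ε J θ) : WOR ρ (fun _ => (1:ℝ)) (fun i x => (J i x).e0 (θ i)) :=
  H.e0.le1 H.le

theorem G3 (H : Fam2 ρ ε J θ) : WOR ρ (fun i => (θ i).c) (fun i x => (J i x).G3 (θ i)) := by
  refine ((H.g3.sub (H.la'.mull H.rho H.g1)).mulr H.rho H.inv2).congr fun i x => ?_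
  unfold Jet.G3
  have := H.al0 i x
  field_simp

theorem psi2_sub (H : Fam2 ρ ε J θ) : WOR ρ ε (fun i x => (J i x).psi2 (θ i) - 1) := by
  have h1 := H.b2_sub.mulr H.rho H.inv
  have h2 := (H.la'.mull H.rho H.q1).mulr H.rho H.inv
  have h3 := (H.toε H.g2).mulr H.rho H.inv2
  have h4 := ((H.la'.mull H.rho (H.toε H.g0)).mulr H.rho H.inv2).cmul 2
  refine ((((h1.add H.inv_sub).sub h2).add h3).sub h4).congr fun i x => ?_
  unfold Jet.psi2
  have := H.al0 i x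
  field_simp
  ring

theorem psi2 (H : Fam2 ρ ε J θ) : WOR ρ (fun _ => (1:ℝ)) (fun i x => (J i x).psi2 (θ i)) :=
  ((H.psi2_sub.le1 H.le).add (WOR.one ρ)).congr fun i x => by ring

theorem e1 (H : Fam2 ρ ε J θ) : WOR ρ ε (fun i x => (J i x).e1 (θ i)) := by
  have h1 := H.la'.mull H.rho H.e0
  have h2 := (H.ka.mulr H.rho H.psi2).cmul 2
  have h3 := (H.ka'.mulr H.rho H.ka').mull H.rho H.e0
  refine ((((H.toε H.G3).sub h1).sub h2).add h3).congr fun i x => ?_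
  unfold Jet.e1
  ring

/-- the scale of `G4` -/
def s4 (θ : Par) : ℝ := ‖θ.c4‖ + ‖θ.q‖ * ‖θ.c3‖

theorem G4 (H : Fam2 ρ ε J θ) : WOR ρ (fun i => s4 (θ i)) (fun i x => (J i x).G4 (θ i)) := by
  have hlac : WO ρ (fun i => ‖(θ i).q‖) (fun i x => ((J i x).la (θ i) : ℂ)) := H.la
  have hlac' : WO ρ (fun _ => (1:ℝ)) (fun i x => ((J i x).la (θ i) : ℂ)) := H.la'
  have h3 : WO ρ (fun i => ‖(θ i).c3‖) (fun i _ => (θ i).c3) := WO.par ρ fun i => le_rfl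
  have h4 : WO ρ (fun i => s4 (θ i)) (fun i _ => (θ i).c4) :=
    WO.par ρ fun i => by unfold s4; nlinarith [norm_nonneg (θ i).q, norm_nonneg (θ i).c3]
  -- the part of `c4`
  have p1 := H.mul1 (H.mul1 H.wT H.wT) (H.mul1 H.wT H.wT)
  have p2 := (H.mul1 hlac' (H.mul1 (H.mul1 H.w H.w) (H.mul1 H.wT H.wT))).cmul 6
  have p3 := H.mul1 (H.mul1 hlac' hlac') (H.mul1 (H.mul1 H.w H.w) (H.mul1 H.w H.w))
  have p4 := (h4.mulr H.rho ((p1.sub p2).add p3)).re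
  -- the part of `c3`
  have r1 := (H.mul1 (H.mul1 H.wT H.wT) H.wT).mull H.rho H.zTc
  have r2 := hlac.mulr H.rho (((H.mul1 (H.mul1 H.w H.wT) (H.mul1 H.wT H.zc)).cmul 3).add
    ((H.mul1 (H.mul1 H.w H.w) (H.mul1 H.wT H.zTc')).cmul 3))
  have r3 := (hlac.mulr H.rho hlac').mulr H.rho (H.mul1 (H.mul1 H.w H.w) (H.mul1 H.w H.zc))
  have r4 := ((h3.mul H.rho ((r1.sub r2).add r3)).le1 (t := fun i => s4 (θ i))
    fun i => by unfold s4; linarith [norm_nonneg (θ i).c4, mul_comm ‖(θ i).c3‖ ‖(θ i).q‖]).re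
  refine ((p4.add r4).mulr H.rho H.inv2).congr fun i x => ?_
  have h5 := H.al0 i x
  have h6 : (J i x).g4 (θ i) - (J i x).la (θ i) * (J i x).g2 (θ i) +
      (J i x).la (θ i) ^ 2 * (J i x).g0 (θ i) =
      ((θ i).c4 * ((J i x).wT (θ i) * (J i x).wT (θ i) *
        ((J i x).wT (θ i) * (J i x).wT (θ i)) - 6 * (((J i x).la (θ i) : ℂ) *
        ((J i x).w * (J i x).w * ((J i x).wT (θ i) * (J i x).wT (θ i)))) +
        ((J i x).la (θ i) : ℂ) * (J i x).la (θ i) * ((J i x).w * (J i x).w *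
        ((J i x).w * (J i x).w)))).re +
      ((θ i).c3 * ((J i x).wT (θ i) * (J i x).wT (θ i) * (J i x).wT (θ i) *
        ((J i x).zT (θ i) : ℂ) - ((J i x).la (θ i) : ℂ) * (3 * ((J i x).w * (J i x).wT (θ i) *
        ((J i x).wT (θ i) * ((J i x).z : ℂ))) + 3 * ((J i x).w * (J i x).w *
        ((J i x).wT (θ i) * ((J i x).zT (θ i) : ℂ)))) + ((J i x).la (θ i) : ℂ) *
        (J i x).la (θ i) * ((J i x).w * (J i x).w * ((J i x).w * ((J i x).z : ℂ))))).re := by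
    unfold Jet.g4 Jet.g2 Jet.g0
    have hr : ∀ (l : ℝ) (u : ℂ), l * u.re = ((l : ℂ) * u).re := fun l u =>
      (Complex.re_ofReal_mul l u).symm
    rw [hr, hr, ← Complex.sub_re, ← Complex.add_re, ← Complex.add_re]
    congr 1
    push_cast
    ring
  unfold Jet.G4
  rw [h6]
  field_simp

theorem y2 (H : Fam2 ρ ε J θ) {s : ι → ℝ} (hk : WOR ρ s (fun i x => (J i x).ka (θ i))) :
    WOR ρ (fun i => s i * s4 (θ i)) (fun i x => (J i x).y2 (θ i)) :=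
  hk.mul H.rho H.G4

theorem y1 (H : Fam2 ρ ε J θ) {s : ι → ℝ} (hk : WOR ρ s (fun i x => (J i x).ka (θ i))) :
    WOR ρ (fun i => s i * s i * s i) (fun i x => (J i x).y1 (θ i)) :=
  (((hk.mul H.rho hk).mul H.rho hk).mulr H.rho H.psi2).congr fun i x => by
    unfold Jet.y1
    ring

/-- (K) -/
theorem ka_of (H : Fam2 ρ ε J θ) {s : ι → ℝ} (hs : ∀ i, (θ i).c ≤ s i)
    (hinv : WOR ρ (fun _ => (1:ℝ)) (fun i x => ((J i x).psi2 (θ i))⁻¹))
    (hp : ∀ i x, (J i x).psi2 (θ i) ≠ 0)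
    (h0 : WOR ρ s (fun i x => (J i x).e0 (θ i))) (h1 : WOR ρ s (fun i x => (J i x).e1 (θ i))) :
    WOR ρ s (fun i x => (J i x).ka (θ i)) := by
  have h2 := ((H.ka'.mulr H.rho H.ka').sub H.la').mull H.rho h0
  refine (((((H.G3.le1 hs).sub h1).add h2).mulr H.rho hinv).cmul (1 / 2)).congr fun i x => ?_
  have h3 := hp i x
  unfold Jet.e1
  field_simp
  ring

end Fam2

end Pool.Agent.MP_ae5b4e_an_NC
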