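import Mathlib
import Pool.Agent.Lib.MP_ae5b4e_an_NC.JetW

/-!
# MP_ae5b4e_an, project NC: weighted bounds of the jet functions of one curve
-/

noncomputable section

namespace Pool.Agent.MP_ae5b4e_an_NC

open Real Set Filter Topology
open Pool.Agent.MP_ae5b4e_an_RG

/-- bounds of the jet functions -/
structure JB (ρ C ε : ℝ) (J : ℝ → Jet) (θ : Par) : Prop where
  al0 : ∀ x, (J x).al θ ≠ 0
  psi0 : ∀ x, (J x).psi2 θ ≠ 0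
  al : WR ρ 2 (C * ε) (fun x => (J x).al θ - 1)
  inv : WR ρ 2 (C * ε) (fun x => ((J x).al θ)⁻¹ - 1)
  ka : WR ρ 2 (C * ε) (fun x => (J x).ka θ)
  la : WR ρ 2 (C * ‖θ.q‖) (fun x => (J x).la θ)
  laε : WR ρ 2 (C * ε) (fun x => (J x).la θ)
  zT : WR ρ 2 (C * ‖θ.q‖) (fun x => (J x).zT θ)
  wT : WB ρ 2 (C * ε) (fun x => (J x).wT θ - Complex.I * e 1 x)
  psi : WR ρ 2 (C * ε) (fun x => (J x).psi2 θ - 1)
  psi' : WR ρ 2 (C * ε) (fun x => ((J x).psi2 θ)⁻¹ - 1)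
  G3 : WR ρ 2 (C * θ.c) (fun x => (J x).G3 θ)
  G4 : WR ρ 2 (C * (‖θ.c4‖ + ‖θ.q‖ * ‖θ.c3‖)) (fun x => (J x).G4 θ)
  e0 : WR ρ 2 (C * ε) (fun x => (J x).e0 θ)
  e1 : WR ρ 2 (C * ε) (fun x => (J x).e1 θ)

/-- the universal family -/
def UF (ρ ε1 : ℝ) : Type :=
  {p : ℝ × (ℝ → Jet) × Par // Near ρ p.1 p.2.1 ∧ p.2.2.Small p.1 ∧ p.1 ≤ ε1}

theorem UF.fam {ρ ε1 : ℝ} (h : ε1 ≤ 1) :
    Fam ρ (fun i : UF ρ ε1 => i.1.1) (fun i => i.1.2.1) (fun i => i.1.2.2) :=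
  ⟨fun i => i.2.1, fun i => i.2.2.1, fun i => i.2.2.2.trans h⟩

theorem exists_fam2 {ρ : ℝ} (hρ : 0 ≤ ρ) : ∃ ε1 > 0, ε1 ≤ 1 ∧
    ∀ {ι : Type} (ε : ι → ℝ) (J : ι → ℝ → Jet) (θ : ι → Par),
      Fam ρ ε J θ → (∀ i, ε i ≤ ε1) → Fam2 ρ ε J θ := by
  obtain ⟨C, hC, hal⟩ := (UF.fam (ρ := ρ) (ε1 := 1) le_rfl).al_sub hρ
  refine ⟨min 1 (1 / (24 * (C + 1))), by positivity, min_le_left _ _, ?_⟩
  intro ι ε J θ H hε
  have h1 : ∀ i, WR ρ 2 (C * ε i) (fun x => (J i x).al (θ i) - 1) := fun i =>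
    hal ⟨(ε i, J i, θ i), H.near i, H.small i, H.le i⟩
  have h2 : ∀ i, 24 * (C * ε i) ≤ 1 := by
    intro i
    have h3 : ε i ≤ 1 / (24 * (C + 1)) := (hε i).trans (min_le_right _ _)
    rw [le_div_iff₀ (by positivity)] at h3
    have h4 := H.nonneg i
    nlinarith
  refine ⟨H, hρ, fun i x => ?_, ?_⟩
  · have h3 := (h1 i).sup hρ le_rfl x
    have h4 := h2 i
    intro h0
    rw [h0] at h3
    norm_num at h3
    linarith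
  · refine (WOR.inv hρ hC h1 h2).congr fun i x => ?_
    congr 2
    ring

theorem exists_fam3 {ρ : ℝ} (hρ : 0 ≤ ρ) : ∃ ε2 > 0, ε2 ≤ 1 ∧
    ∀ {ι : Type} (ε : ι → ℝ) (J : ι → ℝ → Jet) (θ : ι → Par),
      Fam ρ ε J θ → (∀ i, ε i ≤ ε2) → Fam2 ρ ε J θ ∧
        (∀ i x, (J i x).psi2 (θ i) ≠ 0) ∧
        WOR ρ ε (fun i x => ((J i x).psi2 (θ i))⁻¹ - 1) := by
  obtain ⟨ε1, h0, h1, h2⟩ := exists_fam2 hρ
  obtain ⟨C, hC, hpsi⟩ := (h2 _ _ _ (UF.fam (ρ := ρ) h1) fun i => i.2.2.2).psi2_sub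
  refine ⟨min ε1 (1 / (24 * (C + 1))), by positivity, (min_le_left _ _).trans h1, ?_⟩
  intro ι ε J θ H hε
  have h3 : ∀ i, WR ρ 2 (C * ε i) (fun x => (J i x).psi2 (θ i) - 1) := fun i =>
    hpsi ⟨(ε i, J i, θ i), H.near i, H.small i, (hε i).trans (min_le_left _ _)⟩
  have h4 : ∀ i, 24 * (C * ε i) ≤ 1 := by
    intro i
    have h3 : ε i ≤ 1 / (24 * (C + 1)) := (hε i).trans (min_le_right _ _)
    rw [le_div_iff₀ (by positivity)] at h3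
    have h4 := H.nonneg i
    nlinarith
  refine ⟨h2 ε J θ H fun i => (hε i).trans (min_le_left _ _), fun i x => ?_, ?_⟩
  · have h5 := (h3 i).sup hρ le_rfl x
    have h6 := h4 i
    intro h0
    rw [h0] at h5
    norm_num at h5
    linarith
  · refine (WOR.inv hρ hC h3 h4).congr fun i x => ?_
    congr 2
    ring

theorem exists_JB {ρ : ℝ} (hρ : 0 ≤ ρ) : ∃ C > 0, ∃ ε0 > 0, ε0 ≤ 1 ∧
    ∀ (ε : ℝ) (J : ℝ → Jet) (θ : Par), ε ≤ ε0 → Near ρ ε J → θ.Small ε → JB ρ C ε J θ := by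
  obtain ⟨ε2, h0, h1, h2⟩ := exists_fam3 hρ
  obtain ⟨H, hp, hi⟩ := h2 _ _ _ (UF.fam (ρ := ρ) h1) fun i => i.2.2.2
  obtain ⟨C1, k1, a1⟩ := H.al_sub hρ
  obtain ⟨C2, k2, a2⟩ := H.inv_sub
  obtain ⟨C3, k3, a3⟩ := H.ka
  obtain ⟨C4, k4, a4⟩ := H.la
  obtain ⟨C5, k5, a5⟩ := H.laε
  obtain ⟨C6, k6, a6⟩ := H.zT
  obtain ⟨C7, k7, a7⟩ := H.wT_sub
  obtain ⟨C8, k8, a8⟩ := H.psi2_sub
  obtain ⟨C9, k9, a9⟩ := hi
  obtain ⟨D1, l1, b1⟩ := H.G3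
  obtain ⟨D2, l2, b2⟩ := H.G4
  obtain ⟨D3, l3, b3⟩ := H.e0
  obtain ⟨D4, l4, b4⟩ := H.e1
  refine ⟨C1 + C2 + C3 + C4 + C5 + C6 + C7 + C8 + C9 + D1 + D2 + D3 + D4 + 1, by positivity,
    ε2, h0, h1, ?_⟩
  intro ε J θ hε hN hS
  have hε0 : 0 ≤ ε := (norm_nonneg _).trans hS.q
  set i : UF ρ ε2 := ⟨(ε, J, θ), hN, hS, hε⟩ with hi
  refine ⟨H.al0 i, hp i, ?_, ?_, ?_, ?_, ?_, ?_, ?_, ?_, ?_, ?_, ?_, ?_, ?_⟩
  · exact (a1 i).mono (mul_le_mul_of_nonneg_right (by linarith) hε0)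
  · exact (a2 i).mono (mul_le_mul_of_nonneg_right (by linarith) hε0)
  · exact (a3 i).mono (mul_le_mul_of_nonneg_right (by linarith) hε0)
  · exact (a4 i).mono (mul_le_mul_of_nonneg_right (by linarith) (norm_nonneg _))
  · exact (a5 i).mono (mul_le_mul_of_nonneg_right (by linarith) hε0)
  · exact (a6 i).mono (mul_le_mul_of_nonneg_right (by linarith) (norm_nonneg _))
  · exact (a7 i).mono (mul_le_mul_of_nonneg_right (by linarith) hε0)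
  · exact (a8 i).mono (mul_le_mul_of_nonneg_right (by linarith) hε0)
  · exact (a9 i).mono (mul_le_mul_of_nonneg_right (by linarith) hε0)
  · exact (b1 i).mono (mul_le_mul_of_nonneg_right (by linarith) (H.c_nonneg i))
  · exact (b2 i).mono (mul_le_mul_of_nonneg_right (by linarith) (by unfold Fam2.s4; positivity))
  · exact (b3 i).mono (mul_le_mul_of_nonneg_right (by linarith) hε0)
  · exact (b4 i).mono (mul_le_mul_of_nonneg_right (by linarith) hε0)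

/-- the universal family of curves with small defects -/
def UX (ρ ε1 : ℝ) : Type :=
  {p : ℝ × ℝ × (ℝ → Jet) × Par // Near ρ p.1 p.2.2.1 ∧ p.2.2.2.Small p.1 ∧ p.1 ≤ ε1 ∧
    XB ρ p.2.1 p.2.2.1 p.2.2.2}

theorem UX.fam {ρ ε1 : ℝ} (h : ε1 ≤ 1) :
    Fam ρ (fun i : UX ρ ε1 => i.1.1) (fun i => i.1.2.2.1) (fun i => i.1.2.2.2) :=
  ⟨fun i => i.2.1, fun i => i.2.2.1, fun i => i.2.2.2.1.trans h⟩

/-- (KY): bounds of the sources by the defects -/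
theorem exists_YB {ρ : ℝ} (hρ : 0 ≤ ρ) : ∃ C > 0, ∃ ε0 > 0, ε0 ≤ 1 ∧
    ∀ (ε X : ℝ) (J : ℝ → Jet) (θ : Par), ε ≤ ε0 → Near ρ ε J → θ.Small ε → XB ρ X J θ →
      WR ρ 2 (C * (θ.c + X)) (fun x => (J x).ka θ) ∧
      WR ρ 2 (C * (θ.c + X) ^ 3) (fun x => (J x).y1 θ) ∧
      WR ρ 2 (C * ((θ.c + X) * (‖θ.c4‖ + ‖θ.q‖ * ‖θ.c3‖))) (fun x => (J x).y2 θ) ∧
      (X ≤ ε → YB ρ (C * (ε * X + θ.E)) J θ) := by
  obtain ⟨ε2, h0, h1, h2⟩ := exists_fam3 hρ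
  obtain ⟨H, hp, hi⟩ := h2 _ _ _ (UX.fam (ρ := ρ) h1) fun i => i.2.2.2.1
  have hX : ∀ i : UX ρ ε2, 0 ≤ i.1.2.1 := fun i => i.2.2.2.2.1.nonneg
  have hinv : WOR ρ (fun _ : UX ρ ε2 => (1:ℝ)) (fun i x => ((i.1.2.2.1 x).psi2 i.1.2.2.2)⁻¹) :=
    ((hi.le1 H.le).add (WOR.one ρ)).congr fun i x => by ring
  have h3 : WOR ρ (fun i : UX ρ ε2 => i.1.2.2.2.c + i.1.2.1)
      (fun i x => (i.1.2.2.1 x).e0 i.1.2.2.2) :=
    ⟨1, zero_le_one, fun i => (WB.b_mono i.2.2.2.2.1 (by norm_num)).mono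
      (by linarith [H.c_nonneg i])⟩
  have h4 : WOR ρ (fun i : UX ρ ε2 => i.1.2.2.2.c + i.1.2.1)
      (fun i x => (i.1.2.2.1 x).e1 i.1.2.2.2) :=
    ⟨1, zero_le_one, fun i => (i.2.2.2.2.2).mono (by linarith [H.c_nonneg i])⟩
  have h5 := H.ka_of (fun i => by linarith [hX i]) hinv hp h3 h4
  obtain ⟨C2, k2, a2⟩ := H.y1 h5
  obtain ⟨C3, k3, a3⟩ := H.y2 h5
  obtain ⟨C1, k1, a1⟩ := h5
  refine ⟨C1 + 8 * C2 + 2 * C3 + 1, by positivity, ε2, h0, h1, ?_⟩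
  intro ε X J θ hε hN hS hXB
  have hε0 : 0 ≤ ε := (norm_nonneg _).trans hS.q
  set i : UX ρ ε2 := ⟨(ε, X, J, θ), hN, hS, hε, hXB⟩ with hi
  have hX0 : 0 ≤ X := hX i
  have hc0 : 0 ≤ θ.c := H.c_nonneg i
  have hs0 : 0 ≤ ‖θ.c4‖ + ‖θ.q‖ * ‖θ.c3‖ := by positivity
  have b1 : WR ρ 2 (C2 * (θ.c + X) ^ 3) (fun x => (J x).y1 θ) :=
    (a2 i).mono (by
      change C2 * ((θ.c + X) * (θ.c + X) * (θ.c + X)) ≤ _
      apply le_of_eq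
      ring)
  have b2 : WR ρ 2 (C3 * ((θ.c + X) * (‖θ.c4‖ + ‖θ.q‖ * ‖θ.c3‖))) (fun x => (J x).y2 θ) := a3 i
  refine ⟨(a1 i).mono ?_, b1.mono ?_, b2.mono ?_, fun hXε => ⟨b1.mono ?_, b2.mono ?_⟩⟩
  · exact mul_le_mul_of_nonneg_right (by linarith) (by positivity)
  · exact mul_le_mul_of_nonneg_right (by linarith) (by positivity)
  · exact mul_le_mul_of_nonneg_right (by linarith) (by positivity)
  · have e1 : (θ.c + X) ^ 3 ≤ 4 * θ.c ^ 3 + 4 * X ^ 3 := by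
      nlinarith [mul_nonneg (add_nonneg hc0 hX0) (sq_nonneg (θ.c - X))]
    have e2 : X ^ 3 ≤ ε * X := by
      have : X ≤ 1 := hXε.trans (hε.trans h1)
      nlinarith [mul_nonneg hX0 hX0, mul_nonneg hX0 hε0,
        mul_nonneg (mul_nonneg hX0 hX0) (sub_nonneg.2 this), mul_nonneg hX0 (sub_nonneg.2 hXε)]
    have e3 : θ.c ^ 3 ≤ θ.E := by
      unfold Par.E
      nlinarith [mul_nonneg hc0 hs0]
    have e4 : 0 ≤ ε * X + θ.E := add_nonneg (mul_nonneg hε0 hX0) ((pow_nonneg hc0 3).trans e3)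
    calc C2 * (θ.c + X) ^ 3 ≤ C2 * (8 * (ε * X + θ.E)) := by
          apply mul_le_mul_of_nonneg_left _ k2
          nlinarith [pow_nonneg hc0 3, mul_nonneg hε0 hX0]
      _ = 8 * C2 * (ε * X + θ.E) := by ring
      _ ≤ _ := mul_le_mul_of_nonneg_right (by linarith) e4
  · have e1 : (θ.c + X) * (‖θ.c4‖ + ‖θ.q‖ * ‖θ.c3‖) ≤ 2 * (ε * X + θ.E) := by
      have q1 : ‖θ.c4‖ + ‖θ.q‖ * ‖θ.c3‖ ≤ 2 * ε := by
        have := hS.c3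
        have := hS.c4
        have := hS.q
        have q2 : ε ≤ 1 := hε.trans h1
        nlinarith [norm_nonneg θ.c3, norm_nonneg θ.q, norm_nonneg θ.c4]
      unfold Par.E
      nlinarith [mul_nonneg hX0 (sub_nonneg.2 q1), pow_nonneg hc0 3, mul_nonneg hc0 hs0,
        mul_nonneg hε0 hX0]
    have e4 : 0 ≤ ε * X + θ.E := by
      have : 0 ≤ (θ.c + X) * (‖θ.c4‖ + ‖θ.q‖ * ‖θ.c3‖) := by positivity
      linarith
    calc C3 * ((θ.c + X) * (‖θ.c4‖ + ‖θ.q‖ * ‖θ.c3‖)) ≤ C3 * (2 * (ε * X + θ.E)) :=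
          mul_le_mul_of_nonneg_left e1 k3
      _ = 2 * C3 * (ε * X + θ.E) := by ring
      _ ≤ _ := mul_le_mul_of_nonneg_right (by linarith) e4

/-- a priori bound of the defects -/
theorem exists_XB {ρ ρ0 : ℝ} (hρ : 0 ≤ ρ) (h : ρ < ρ0) : ∃ C > 0, ∃ ε0 > 0, ε0 ≤ 1 ∧
    ∀ (ε : ℝ) (J : ℝ → Jet) (θ : Par), ε ≤ ε0 → Near ρ0 ε J → θ.Small ε →
      XB ρ (C * ε) J θ := by
  obtain ⟨C, hC, ε0, h0, h1, h2⟩ := exists_JB (hρ.trans h.le)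
  obtain ⟨C4, k4, a4⟩ := WB.lower h 4
  obtain ⟨C2, k2, a2⟩ := WB.lower h 2
  refine ⟨C4 * C + C2 * C + 1, by positivity, ε0, h0, h1, fun ε J θ hε hN hS => ?_⟩
  have hε0 : 0 ≤ ε := (norm_nonneg _).trans hS.q
  have h3 := h2 ε J θ hε hN hS
  refine ⟨(a4 2 _ _ h3.e0).mono ?_, (a2 2 _ _ h3.e1).mono ?_⟩
  · nlinarith [mul_nonneg k2.le hC.le, mul_nonneg (mul_nonneg k2.le hC.le) hε0]
  · nlinarith [mul_nonneg k4.le hC.le, mul_nonneg (mul_nonneg k4.le hC.le) hε0]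

end Pool.Agent.MP_ae5b4e_an_NC
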