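import Mathlib
import Pool.Agent.Lib.MP_ae5b4e_an_RG.NBa
import Pool.Agent.Lib.MP_ae5b4e_an_RG.Wt

/-!
# MP_ae5b4e_an, project NC: products of series in mixed weights

Fourier coefficients of `∑ a_k e_k g_k`, where `|a_k| ≤ X (1 + |k|)^(-b) exp (-ρ' |k|)` and the
functions `g_k` have the norm `N_η (g_k) ≤ M (1 + |k|)` with a larger rate `ρ > ρ'`.
-/

noncomputable section

namespace Pool.Agent.MP_ae5b4e_an_NC

open Real Set Filter Topology MeasureTheory intervalIntegral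
open Pool.Agent.MP_ae5b4e_an_RG

/-- the weights `(1 + |k|)^b exp (ρ |k|)` -/
def W (ρ : ℝ) (b : ℕ) (k : ℤ) : ℝ := (1 + |(k:ℝ)|) ^ b * Real.exp (ρ * |(k:ℝ)|)

lemma W_pos (ρ : ℝ) (b : ℕ) (k : ℤ) : 0 < W ρ b k := by
  unfold W
  positivity

private lemma mix_pow_exp {c : ℝ} (hc : 0 < c) (b : ℕ) :
    ∃ K : ℝ, 0 < K ∧ ∀ x : ℝ, 0 ≤ x → (1 + x) ^ b ≤ K * Real.exp (c * x) := by
  refine ⟨(b.factorial : ℝ) * (1 / c) ^ b * Real.exp c, by positivity, fun x hx => ?_⟩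
  have h1 : (c * (1 + x)) ^ b / (b.factorial : ℝ) ≤ Real.exp (c * (1 + x)) :=
    Real.pow_div_factorial_le_exp _ (by positivity) b
  have hb : (0:ℝ) < (b.factorial : ℝ) := by exact_mod_cast b.factorial_pos
  rw [div_le_iff₀ hb, mul_pow] at h1
  have h2 : Real.exp (c * (1 + x)) = Real.exp c * Real.exp (c * x) := by
    rw [← Real.exp_add]
    congr 1
    ring
  rw [h2] at h1
  have h3 : (1 / c) ^ b * c ^ b = 1 := by
    rw [← mul_pow, one_div, inv_mul_cancel₀ hc.ne', one_pow]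
  calc (1 + x) ^ b = (1 / c) ^ b * (c ^ b * (1 + x) ^ b) := by
        rw [← mul_assoc, h3, one_mul]
    _ ≤ (1 / c) ^ b * (Real.exp c * Real.exp (c * x) * (b.factorial : ℝ)) :=
        mul_le_mul_of_nonneg_left h1 (by positivity)
    _ = _ := by ring

private lemma mix_S : Summable (fun k : ℤ => 1 / (1 + |(k:ℝ)|) ^ 2) ∧
    ∑' k : ℤ, 1 / (1 + |(k:ℝ)|) ^ 2 ≤ 3 := by
  have h1 : (fun k : ℤ => 1 / (1 + |(k:ℝ)|) ^ 2) = fun k : ℤ => 1 / V 0 0 2 k := by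
    funext k
    unfold V w
    simp
  rw [h1]
  exact ⟨summable_V2 le_rfl, tsum_V2 le_rfl⟩

/-- the exponential sums -/
private lemma mix_sum {c : ℝ} (hc : 0 < c) (b : ℕ) :
    ∃ K : ℝ, 0 < K ∧ Summable (fun k : ℤ => (1 + |(k:ℝ)|) ^ b * Real.exp (-(c * |(k:ℝ)|))) ∧
      ∑' k : ℤ, (1 + |(k:ℝ)|) ^ b * Real.exp (-(c * |(k:ℝ)|)) ≤ K := by
  obtain ⟨K, hK, h⟩ := mix_pow_exp hc (b + 2)
  obtain ⟨hs, hs3⟩ := mix_S
  have hpt : ∀ k : ℤ, (1 + |(k:ℝ)|) ^ b * Real.exp (-(c * |(k:ℝ)|)) ≤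
      K * (1 / (1 + |(k:ℝ)|) ^ 2) := by
    intro k
    have h1 := h |(k:ℝ)| (abs_nonneg _)
    have h2 : Real.exp (-(c * |(k:ℝ)|)) * Real.exp (c * |(k:ℝ)|) = 1 := by
      rw [← Real.exp_add, neg_add_cancel, Real.exp_zero]
    have h3 : 0 < (1 + |(k:ℝ)|) ^ 2 := by positivity
    rw [mul_one_div, le_div_iff₀ h3]
    calc (1 + |(k:ℝ)|) ^ b * Real.exp (-(c * |(k:ℝ)|)) * (1 + |(k:ℝ)|) ^ 2
        = (1 + |(k:ℝ)|) ^ (b + 2) * Real.exp (-(c * |(k:ℝ)|)) := by ring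
      _ ≤ K * Real.exp (c * |(k:ℝ)|) * Real.exp (-(c * |(k:ℝ)|)) :=
        mul_le_mul_of_nonneg_right h1 (Real.exp_pos _).le
      _ = K * (Real.exp (-(c * |(k:ℝ)|)) * Real.exp (c * |(k:ℝ)|)) := by ring
      _ = K := by rw [h2, mul_one]
  have hsum := Summable.of_nonneg_of_le (fun k : ℤ => by positivity) hpt (hs.mul_left K)
  refine ⟨3 * K, by positivity, hsum, (hsum.tsum_le_tsum hpt (hs.mul_left K)).trans ?_⟩
  rw [tsum_mul_left]
  nlinarith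

/-- the coefficients of the terms -/
private lemma mix_fc_e {g : ℝ → ℂ} (k n : ℤ) : fc (fun x => e k x * g x) n = fc g (n - k) := by
  unfold fc
  refine intervalIntegral.integral_congr fun x _ => ?_
  have h1 : e (-(n - k)) x = e (-n) x * e k x := by
    rw [← e_add]
    congr 1
    ring
  show e k x * g x * e (-n) x = g x * e (-(n - k)) x
  rw [h1]
  ring

private lemma mix_fc_sup {g : ℝ → ℂ} {B : ℝ} (h : ∀ x, ‖g x‖ ≤ B) (n : ℤ) : ‖fc g n‖ ≤ B := by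
  have h3 := intervalIntegral.norm_integral_le_of_norm_le_const (a := (0:ℝ)) (b := 1)
    (f := fun x => g x * e (-n) x) (C := B) (fun x _ => by
      rw [norm_mul, norm_e, mul_one]
      exact h x)
  simpa [fc] using h3

/-- the coefficient of the sum of the series -/
private lemma mix_fc_tsum {G : ℤ → ℝ → ℂ} {F : ℝ → ℂ} {B : ℤ → ℝ} (hc : ∀ k, Continuous (G k))
    (hB : ∀ k x, ‖G k x‖ ≤ B k) (hs : Summable B) (hF : ∀ x, HasSum (fun k => G k x) (F x))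
    (n : ℤ) : HasSum (fun k => fc (G k) n) (fc F n) := by
  unfold fc
  refine intervalIntegral.hasSum_integral_of_dominated_convergence (fun k _ => B k) ?_ ?_ ?_ ?_ ?_
  · intro k
    exact ((hc k).mul (continuous_e (-n))).aestronglyMeasurable
  · intro k
    refine Eventually.of_forall fun x _ => ?_
    rw [norm_mul, norm_e, mul_one]
    exact hB k x
  · exact Eventually.of_forall fun x _ => hs
  · exact intervalIntegrable_const
  · exact Eventually.of_forall fun x _ => (hF x).mul_right _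

theorem mix (ρ ρ' : ℝ) (b : ℕ) (h0 : 0 < ρ') (h1 : ρ' < ρ) (hb : 1 ≤ b) :
    ∃ C : ℝ, 0 < C ∧ ∀ (p q : ℕ) (η M X : ℝ) (a : ℤ → ℂ) (g : ℤ → ℝ → ℂ) (F : ℝ → ℂ) (n : ℤ),
      PQ p q → 0 < η → η ≤ 2 * etam ρ (3 * q ^ 2) p q → 0 ≤ M →
      (∀ k, ‖a k‖ ≤ X / W ρ' b k) →
      (∀ k : ℤ, |(k:ℝ)| ≤ (q:ℝ) ^ 2 → NB ρ (3 * q ^ 2) η (M * (1 + |(k:ℝ)|)) (g k)) →
      (∀ k : ℤ, Continuous (g k)) → (∀ (k : ℤ) x, ‖g k x‖ ≤ M * (1 + |(k:ℝ)|)) →
      (∀ x, HasSum (fun k => a k * e k x * g k x) (F x)) → |(n:ℝ)| ≤ 2 * q →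
      ‖fc F n‖ ≤ C * X * M * (1 + |(n:ℝ)|) / W ρ' b n := by
  have hh0 : 0 < ρ' / 2 := by linarith
  obtain ⟨K1, hK1, hs1, hK1'⟩ := mix_sum (sub_pos.2 h1) b
  obtain ⟨K2, hK2, hs2, hK2'⟩ := mix_sum hh0 1
  obtain ⟨K3, hK3, hpe⟩ := mix_pow_exp h0 b
  set E : ℝ := Real.exp (8 * ρ') with hE
  refine ⟨K1 + 2 * (K2 * K3 * E), by positivity, ?_⟩
  intro p q η M X a g F n hpq hη hη2 hM ha hg hgc hgs hF hn
  have hq2 : (2:ℝ) ≤ q := by exact_mod_cast hpq.2.1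
  have hX : 0 ≤ X := by
    have h2 := (norm_nonneg _).trans (ha 0)
    have h3 := W_pos ρ' b 0
    by_contra h4
    push Not at h4
    have := div_neg_of_neg_of_pos h4 h3
    linarith
  have hρ : 0 < ρ := h0.trans h1
  have habs : ∀ k : ℤ, 0 ≤ |(k:ℝ)| := fun k => abs_nonneg _
  -- crude bound for the coefficients
  have hcr : ∀ k : ℤ, X / W ρ' b k ≤ X * Real.exp (-(ρ' * |(k:ℝ)|)) := by
    intro k
    unfold W
    rw [div_le_iff₀ (by positivity)]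
    have h5 : Real.exp (-(ρ' * |(k:ℝ)|)) * Real.exp (ρ' * |(k:ℝ)|) = 1 := by
      rw [← Real.exp_add, neg_add_cancel, Real.exp_zero]
    have h6 : (1:ℝ) ≤ (1 + |(k:ℝ)|) ^ b := one_le_pow₀ (by linarith [habs k])
    calc X = X * 1 * 1 := by ring
      _ ≤ X * (1 + |(k:ℝ)|) ^ b * 1 := by gcongr
      _ = X * (1 + |(k:ℝ)|) ^ b * (Real.exp (-(ρ' * |(k:ℝ)|)) * Real.exp (ρ' * |(k:ℝ)|)) := by
        rw [h5]
      _ = _ := by ring
  have hhalf : ∀ k : ℤ, Real.exp (-(ρ' * |(k:ℝ)|)) ≤ Real.exp (-(ρ' / 2 * |(k:ℝ)|)) := by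
    intro k
    apply Real.exp_le_exp.2
    have := habs k
    nlinarith
  -- the terms
  have hbd : ∀ k x, ‖a k * e k x * g k x‖ ≤ X * M * ((1 + |(k:ℝ)|) ^ 1 *
      Real.exp (-(ρ' / 2 * |(k:ℝ)|))) := by
    intro k x
    rw [norm_mul, norm_mul, norm_e, mul_one]
    have h2 := ha k
    have h3 := hgs k x
    have h4 := habs k
    calc ‖a k‖ * ‖g k x‖ ≤ (X * Real.exp (-(ρ' / 2 * |(k:ℝ)|))) * (M * (1 + |(k:ℝ)|)) :=
          mul_le_mul (h2.trans ((hcr k).trans (mul_le_mul_of_nonneg_left (hhalf k) hX))) h3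
            (norm_nonneg _) (by positivity)
      _ = _ := by ring
  have hsb : Summable fun k : ℤ => X * M * ((1 + |(k:ℝ)|) ^ 1 *
      Real.exp (-(ρ' / 2 * |(k:ℝ)|))) := hs2.mul_left _
  have hser := mix_fc_tsum (G := fun k x => a k * e k x * g k x) (fun k =>
    (continuous_const.mul (continuous_e k)).mul (hgc k)) hbd hsb hF n
  have hterm : ∀ k, fc (fun x => a k * e k x * g k x) n = a k * fc (g k) (n - k) := by
    intro k
    rw [← mix_fc_e]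
    unfold fc
    rw [← intervalIntegral.integral_const_mul]
    refine intervalIntegral.integral_congr fun x _ => ?_
    show a k * e k x * g k x * e (-n) x = a k * (e k x * g k x * e (-n) x)
    ring
  simp only [hterm] at hser
  -- the three parts
  set Wn : ℝ := (1 + |(n:ℝ)|) / W ρ' b n with hWn
  have hWn0 : 0 < Wn := div_pos (by positivity) (W_pos _ _ _)
  have hexpq : ∀ c : ℝ, ρ' / 2 ≤ c → Real.exp (-(c * (q:ℝ) ^ 2)) ≤ K3 * E * Wn := by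
    intro c hc
    have h2 : (1 + |(n:ℝ)|) ^ b ≤ K3 * Real.exp (ρ' * |(n:ℝ)|) := hpe _ (habs n)
    have h3 : W ρ' b n ≤ K3 * Real.exp (2 * ρ' * |(n:ℝ)|) := by
      unfold W
      calc (1 + |(n:ℝ)|) ^ b * Real.exp (ρ' * |(n:ℝ)|)
          ≤ K3 * Real.exp (ρ' * |(n:ℝ)|) * Real.exp (ρ' * |(n:ℝ)|) :=
            mul_le_mul_of_nonneg_right h2 (Real.exp_pos _).le
        _ = K3 * Real.exp (2 * ρ' * |(n:ℝ)|) := by
            rw [mul_assoc, ← Real.exp_add]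
            congr 2
            ring
    have h4 : 1 ≤ (1 + |(n:ℝ)|) := by linarith [habs n]
    rw [hWn, mul_div_assoc', le_div_iff₀ (W_pos _ _ _)]
    have h5 : Real.exp (-(c * (q:ℝ) ^ 2)) * Real.exp (2 * ρ' * |(n:ℝ)|) ≤ E := by
      rw [← Real.exp_add, hE]
      apply Real.exp_le_exp.2
      have h6 : ρ' / 2 * (q:ℝ) ^ 2 ≤ c * (q:ℝ) ^ 2 := mul_le_mul_of_nonneg_right hc (by positivity)
      have h7 : 2 * ρ' * |(n:ℝ)| ≤ 2 * ρ' * (2 * q) := mul_le_mul_of_nonneg_left hn (by positivity)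
      nlinarith [mul_nonneg h0.le (sq_nonneg ((q:ℝ) - 4))]
    calc Real.exp (-(c * (q:ℝ) ^ 2)) * W ρ' b n
        ≤ Real.exp (-(c * (q:ℝ) ^ 2)) * (K3 * Real.exp (2 * ρ' * |(n:ℝ)|)) :=
          mul_le_mul_of_nonneg_left h3 (Real.exp_pos _).le
      _ = K3 * (Real.exp (-(c * (q:ℝ) ^ 2)) * Real.exp (2 * ρ' * |(n:ℝ)|)) := by ring
      _ ≤ K3 * E := mul_le_mul_of_nonneg_left h5 hK3.le
      _ ≤ K3 * E * (1 + |(n:ℝ)|) := le_mul_of_one_le_right (by positivity) h4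
  have hωle : ((p:ℝ) / q) ^ 2 ≤ 1 := by
    have hp2 : (p:ℝ) ≤ 2 := by rcases hpq.1 with h | h <;> rw [h] <;> norm_num
    have h2 : (p:ℝ) / q ≤ 1 := by
      rw [div_le_one (by linarith)]
      linarith
    have h3 : 0 ≤ (p:ℝ) / q := by positivity
    nlinarith
  have hηle : η ≤ 2 * (K3 * E * Wn) := by
    refine hη2.trans ?_
    have h2 : etam ρ (3 * q ^ 2) p q ≤ Real.exp (-(ρ * (q:ℝ) ^ 2)) := by
      unfold etam
      have h3 : min ((q:ℝ) ^ 2) ((3 * q ^ 2 : ℕ) : ℝ) = (q:ℝ) ^ 2 := by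
        apply min_eq_left
        push_cast
        nlinarith [sq_nonneg (q:ℝ)]
      rw [h3]
      exact mul_le_of_le_one_left (Real.exp_pos _).le hωle
    have h4 := hexpq ρ (by linarith)
    linarith
  have hpt : ∀ k : ℤ, ‖a k * fc (g k) (n - k)‖ ≤
      X * M * Wn * ((1 + |((n - k : ℤ) : ℝ)|) ^ b * Real.exp (-((ρ - ρ') * |((n - k : ℤ) : ℝ)|))) +
        2 * (X * M * (K3 * E * Wn)) * ((1 + |(k:ℝ)|) ^ 1 *
          Real.exp (-(ρ' / 2 * |(k:ℝ)|))) := by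
    intro k
    rw [norm_mul]
    have hak := ha k
    have hWk := W_pos ρ' b k
    have h1k : (1:ℝ) ≤ 1 + |(k:ℝ)| := by linarith [habs k]
    have h0k : (0:ℝ) ≤ 1 + |(k:ℝ)| := by linarith
    have hfirst : 0 ≤ X * M * Wn * ((1 + |((n - k : ℤ) : ℝ)|) ^ b *
        Real.exp (-((ρ - ρ') * |((n - k : ℤ) : ℝ)|))) := by positivity
    by_cases hk : |(k:ℝ)| ≤ (q:ℝ) ^ 2
    · have h2 := (hg k hk).coeff hρ.le hη (n - k)
      have hnk : |((n - k : ℤ) : ℝ)| ≤ ((3 * q ^ 2 : ℕ) : ℝ) := by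
        have h3 : |((n - k : ℤ) : ℝ)| ≤ |(n:ℝ)| + |(k:ℝ)| := by
          push_cast
          exact abs_sub _ _
        refine h3.trans ?_
        push_cast
        nlinarith
      have hV : V ρ (3 * q ^ 2) 2 (n - k) = (1 + |((n - k : ℤ) : ℝ)|) ^ 2 *
          Real.exp (ρ * |((n - k : ℤ) : ℝ)|) := by
        unfold V w
        rw [min_eq_left hnk]
      rw [hV] at h2
      have hnkj : |(n:ℝ)| ≤ |(k:ℝ)| + |((n - k : ℤ) : ℝ)| := by
        have h3 : (n:ℝ) = k + ((n - k : ℤ) : ℝ) := by push_cast; ring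
        calc |(n:ℝ)| = |(k:ℝ) + ((n - k : ℤ) : ℝ)| := by rw [← h3]
          _ ≤ _ := abs_add_le _ _
      clear_value Wn
      obtain ⟨j, hj⟩ : ∃ j, j = |((n - k : ℤ) : ℝ)| := ⟨_, rfl⟩
      rw [← hj] at h2 hnkj ⊢
      have hj0 : 0 ≤ j := by rw [hj]; exact abs_nonneg _
      have hj1 : 0 ≤ 1 + j := by linarith
      -- the weight
      have hw1 : (1 + |(k:ℝ)|) / W ρ' b k * (1 / ((1 + j) ^ 2 * Real.exp (ρ * j))) ≤
          Wn * ((1 + j) ^ b * Real.exp (-((ρ - ρ') * j))) := by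
        rw [hWn]
        unfold W
        have e1 : Real.exp (-((ρ - ρ') * j)) = Real.exp (ρ' * j) / Real.exp (ρ * j) := by
          rw [← Real.exp_sub]
          congr 1
          ring
        rw [e1]
        have e2 : (1 + |(k:ℝ)|) / ((1 + |(k:ℝ)|) ^ b * Real.exp (ρ' * |(k:ℝ)|)) *
            (1 / ((1 + j) ^ 2 * Real.exp (ρ * j))) =
            1 / ((1 + |(k:ℝ)|) ^ (b - 1) * Real.exp (ρ' * |(k:ℝ)|) * (1 + j) ^ 2 *
              Real.exp (ρ * j)) := by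
          have h5 : (1 + |(k:ℝ)|) ^ b = (1 + |(k:ℝ)|) ^ (b - 1) * (1 + |(k:ℝ)|) := by
            rw [← pow_succ]
            congr 1
            omega
          rw [h5]
          have : (1 + |(k:ℝ)|) ≠ 0 := by positivity
          field_simp
        have e3 : (1 + |(n:ℝ)|) / ((1 + |(n:ℝ)|) ^ b * Real.exp (ρ' * |(n:ℝ)|)) *
            ((1 + j) ^ b * (Real.exp (ρ' * j) / Real.exp (ρ * j))) =
            ((1 + j) ^ b * Real.exp (ρ' * j)) / ((1 + |(n:ℝ)|) ^ (b - 1) *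
              Real.exp (ρ' * |(n:ℝ)|) * Real.exp (ρ * j)) := by
          have h5 : (1 + |(n:ℝ)|) ^ b = (1 + |(n:ℝ)|) ^ (b - 1) * (1 + |(n:ℝ)|) := by
            rw [← pow_succ]
            congr 1
            omega
          rw [h5]
          have : (1 + |(n:ℝ)|) ≠ 0 := by positivity
          field_simp
        rw [e2, e3, div_le_div_iff₀ (by positivity) (by positivity), one_mul]
        have h6 : (1 + |(n:ℝ)|) ^ (b - 1) ≤ (1 + |(k:ℝ)|) ^ (b - 1) * (1 + j) ^ (b - 1) := by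
          rw [← mul_pow]
          apply pow_le_pow_left₀ (by positivity)
          nlinarith [habs k, mul_nonneg (habs k) hj0]
        have h7 : Real.exp (ρ' * |(n:ℝ)|) ≤ Real.exp (ρ' * |(k:ℝ)|) * Real.exp (ρ' * j) := by
          rw [← Real.exp_add]
          apply Real.exp_le_exp.2
          nlinarith
        have h8 : (1 + j) ^ (b - 1) ≤ (1 + j) ^ b * (1 + j) ^ 2 := by
          rw [← pow_add]
          exact pow_le_pow_right₀ (by linarith) (by omega)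
        calc (1 + |(n:ℝ)|) ^ (b - 1) * Real.exp (ρ' * |(n:ℝ)|) * Real.exp (ρ * j)
            ≤ ((1 + |(k:ℝ)|) ^ (b - 1) * (1 + j) ^ (b - 1)) *
              (Real.exp (ρ' * |(k:ℝ)|) * Real.exp (ρ' * j)) * Real.exp (ρ * j) := by gcongr
          _ ≤ ((1 + |(k:ℝ)|) ^ (b - 1) * ((1 + j) ^ b * (1 + j) ^ 2)) *
              (Real.exp (ρ' * |(k:ℝ)|) * Real.exp (ρ' * j)) * Real.exp (ρ * j) := by gcongr
          _ = _ := by ring
      have hsec : X / W ρ' b k * (M * (1 + |(k:ℝ)|) * η) ≤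
          2 * (X * M * (K3 * E * Wn)) * ((1 + |(k:ℝ)|) ^ 1 *
            Real.exp (-(ρ' / 2 * |(k:ℝ)|))) := by
        have h9 : X / W ρ' b k ≤ X * Real.exp (-(ρ' / 2 * |(k:ℝ)|)) :=
          (hcr k).trans (mul_le_mul_of_nonneg_left (hhalf k) hX)
        calc X / W ρ' b k * (M * (1 + |(k:ℝ)|) * η)
            ≤ (X * Real.exp (-(ρ' / 2 * |(k:ℝ)|))) * (M * (1 + |(k:ℝ)|) *
                (2 * (K3 * E * Wn))) :=
              mul_le_mul h9 (mul_le_mul_of_nonneg_left hηle (mul_nonneg hM h0k)) (by positivity)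
                (by positivity)
          _ = _ := by ring
      have hXW : 0 ≤ X / W ρ' b k := div_nonneg hX hWk.le
      calc ‖a k‖ * ‖fc (g k) (n - k)‖ ≤ (X / W ρ' b k) * (M * (1 + |(k:ℝ)|) *
            (1 / ((1 + j) ^ 2 * Real.exp (ρ * j)) + η)) :=
            mul_le_mul hak h2 (norm_nonneg _) hXW
        _ = X * M * ((1 + |(k:ℝ)|) / W ρ' b k * (1 / ((1 + j) ^ 2 * Real.exp (ρ * j)))) +
            X / W ρ' b k * (M * (1 + |(k:ℝ)|) * η) := by ring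
        _ ≤ X * M * (Wn * ((1 + j) ^ b * Real.exp (-((ρ - ρ') * j)))) +
            2 * (X * M * (K3 * E * Wn)) * ((1 + |(k:ℝ)|) ^ 1 *
              Real.exp (-(ρ' / 2 * |(k:ℝ)|))) :=
            add_le_add (mul_le_mul_of_nonneg_left hw1 (mul_nonneg hX hM)) hsec
        _ = _ := by ring
    · -- the tail
      push Not at hk
      have h2 := mix_fc_sup (hgs k) (n - k)
      have h3 : ‖a k‖ * ‖fc (g k) (n - k)‖ ≤ X * Real.exp (-(ρ' * |(k:ℝ)|)) *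
          (M * (1 + |(k:ℝ)|)) :=
        mul_le_mul (hak.trans (hcr k)) h2 (norm_nonneg _) (by positivity)
      have h4 : Real.exp (-(ρ' * |(k:ℝ)|)) ≤ K3 * E * Wn * Real.exp (-(ρ' / 2 * |(k:ℝ)|)) := by
        have h5 : Real.exp (-(ρ' * |(k:ℝ)|)) = Real.exp (-(ρ' / 2 * |(k:ℝ)|)) *
            Real.exp (-(ρ' / 2 * |(k:ℝ)|)) := by
          rw [← Real.exp_add]
          congr 1
          ring
        have h6 : Real.exp (-(ρ' / 2 * |(k:ℝ)|)) ≤ Real.exp (-(ρ' / 2 * (q:ℝ) ^ 2)) := by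
          apply Real.exp_le_exp.2
          nlinarith
        rw [h5]
        exact mul_le_mul_of_nonneg_right (h6.trans (hexpq _ le_rfl)) (Real.exp_pos _).le
      have h5 : X * Real.exp (-(ρ' * |(k:ℝ)|)) * (M * (1 + |(k:ℝ)|)) ≤
          X * M * (K3 * E * Wn) * ((1 + |(k:ℝ)|) ^ 1 * Real.exp (-(ρ' / 2 * |(k:ℝ)|))) := by
        calc X * Real.exp (-(ρ' * |(k:ℝ)|)) * (M * (1 + |(k:ℝ)|))
            ≤ X * (K3 * E * Wn * Real.exp (-(ρ' / 2 * |(k:ℝ)|))) * (M * (1 + |(k:ℝ)|)) := by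
              gcongr
          _ = _ := by ring
      have h6 : 0 ≤ X * M * (K3 * E * Wn) * ((1 + |(k:ℝ)|) ^ 1 *
          Real.exp (-(ρ' / 2 * |(k:ℝ)|))) := by positivity
      linarith
  have hsum1 : Summable fun k : ℤ => (1 + |((n - k : ℤ) : ℝ)|) ^ b *
      Real.exp (-((ρ - ρ') * |((n - k : ℤ) : ℝ)|)) := (Equiv.subLeft n).summable_iff.2 hs1
  have hT1 : ∑' k : ℤ, (1 + |((n - k : ℤ) : ℝ)|) ^ b *
      Real.exp (-((ρ - ρ') * |((n - k : ℤ) : ℝ)|)) =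
      ∑' k : ℤ, (1 + |(k:ℝ)|) ^ b * Real.exp (-((ρ - ρ') * |(k:ℝ)|)) :=
    (Equiv.subLeft n).tsum_eq
      (fun k : ℤ => (1 + |(k:ℝ)|) ^ b * Real.exp (-((ρ - ρ') * |(k:ℝ)|)))
  have hbs : HasSum (fun k : ℤ => X * M * Wn * ((1 + |((n - k : ℤ) : ℝ)|) ^ b *
      Real.exp (-((ρ - ρ') * |((n - k : ℤ) : ℝ)|))) +
        2 * (X * M * (K3 * E * Wn)) * ((1 + |(k:ℝ)|) ^ 1 * Real.exp (-(ρ' / 2 * |(k:ℝ)|))))
      (X * M * Wn * (∑' k : ℤ, (1 + |(k:ℝ)|) ^ b * Real.exp (-((ρ - ρ') * |(k:ℝ)|))) +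
        2 * (X * M * (K3 * E * Wn)) * (∑' k : ℤ, (1 + |(k:ℝ)|) ^ 1 *
          Real.exp (-(ρ' / 2 * |(k:ℝ)|)))) := by
    have h2 := hsum1.hasSum
    rw [hT1] at h2
    exact (h2.mul_left _).add (hs2.hasSum.mul_left _)
  rw [← hser.tsum_eq]
  refine (tsum_of_norm_bounded hbs hpt).trans ?_
  have hXM : 0 ≤ X * M := mul_nonneg hX hM
  calc X * M * Wn * (∑' k : ℤ, (1 + |(k:ℝ)|) ^ b * Real.exp (-((ρ - ρ') * |(k:ℝ)|))) +
        2 * (X * M * (K3 * E * Wn)) * (∑' k : ℤ, (1 + |(k:ℝ)|) ^ 1 *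
          Real.exp (-(ρ' / 2 * |(k:ℝ)|)))
      ≤ X * M * Wn * K1 + 2 * (X * M * (K3 * E * Wn)) * K2 :=
        add_le_add (mul_le_mul_of_nonneg_left hK1' (by positivity))
          (mul_le_mul_of_nonneg_left hK2' (by positivity))
    _ = (K1 + 2 * (K2 * K3 * E)) * X * M * (1 + |(n:ℝ)|) / W ρ' b n := by
        rw [hWn]
        ring

end Pool.Agent.MP_ae5b4e_an_NC
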