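import Mathlib
import Pool.Agent.Lib.MP_ae5b4e_an_NC.Mix
import Pool.Agent.Lib.MP_ae5b4e_an_RG.NBe

/-!
# MP_ae5b4e_an, project NC: the HI lemma

Fourier coefficients of `M x * f (x + u x)` for `f` with small weighted norm (rate `ρ'`), and `u`,
`M - m0` small in the norm `N_η` (rate `ρ > ρ'`).
-/

noncomputable section

namespace Pool.Agent.MP_ae5b4e_an_NC

open Real Set Filter Topology MeasureTheory intervalIntegral
open Pool.Agent.MP_ae5b4e_an_RG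

/-- the exponential of a small function -/
private lemma hi_exp {ρ : ℝ} {N : ℕ} (hρ : 0 ≤ ρ) {η : ℝ} (hη : 0 < η) (hη1 : η ≤ 1)
    {M K : ℝ} {v : ℝ → ℝ} (hM : 0 ≤ M) (h : NB ρ N η M (fun x => (v x : ℂ))) {k : ℤ}
    (hk : 2 * π * |(k:ℝ)| * M ≤ K) :
    NB ρ N η (2 * π * M * Real.exp K * (1 + |(k:ℝ)|)) (fun x => e k (v x) - 1) := by
  have h1 := h.const_mul hη (2 * π * Complex.I * k)
  have hn : ‖(2 * π * Complex.I * k : ℂ)‖ = 2 * π * |(k:ℝ)| := by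
    rw [norm_mul, norm_mul, norm_mul, Complex.norm_I, Complex.norm_real, Real.norm_eq_abs,
      abs_of_pos Real.pi_pos]
    simp
  rw [hn] at h1
  have h2 := NB.exp hρ hη hη1 h1
  have h3 : (fun x => e k (v x) - 1) =
      (fun x => Complex.exp (2 * π * Complex.I * k * (v x : ℂ)) - 1) := by
    funext x
    rfl
  rw [h3]
  refine h2.mono ?_
  have hpi := Real.pi_pos
  have h4 : Real.exp (2 * π * |(k:ℝ)| * M) ≤ Real.exp K := Real.exp_le_exp.2 hk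
  have h5 : 0 ≤ 2 * π * |(k:ℝ)| * M := by positivity
  calc 2 * π * |(k:ℝ)| * M * Real.exp (2 * π * |(k:ℝ)| * M)
      ≤ 2 * π * |(k:ℝ)| * M * Real.exp K := mul_le_mul_of_nonneg_left h4 h5
    _ ≤ 2 * π * |(k:ℝ)| * M * Real.exp K + 2 * π * M * Real.exp K := by
        have : 0 ≤ 2 * π * M * Real.exp K := by positivity
        linarith
    _ = 2 * π * M * Real.exp K * (1 + |(k:ℝ)|) := by ring

private lemma norm_e_sub_one (k : ℤ) (y : ℝ) : ‖e k y - 1‖ ≤ 2 * π * |(k:ℝ)| * |y| := by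
  have h1 : e k y = Complex.exp (Complex.I * ((2 * π * k * y : ℝ) : ℂ)) := by
    unfold e
    congr 1
    push_cast
    ring
  rw [h1]
  refine (Real.norm_exp_I_mul_ofReal_sub_one_le).trans (le_of_eq ?_)
  rw [Real.norm_eq_abs, abs_mul, abs_mul, abs_mul, abs_of_pos Real.pi_pos,
    abs_of_pos (by norm_num : (0:ℝ) < 2)]

/-- HI lemma -/
theorem hi (ρ ρ' : ℝ) (b : ℕ) (A1 M1 M2 : ℝ) (h0 : 0 < ρ') (h1 : ρ' < ρ) (hb : 1 ≤ b)
    (hA1 : 0 ≤ A1) (hM1 : 0 ≤ M1) (hM2 : 0 ≤ M2) :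
    ∃ C : ℝ, 0 < C ∧ ∀ (p q : ℕ) (η X : ℝ) (m0 : ℂ) (a : ℤ → ℂ) (f M : ℝ → ℂ) (u : ℝ → ℝ)
      (n : ℤ), PQ p q → 0 < η → η ≤ 2 * etam ρ (3 * q ^ 2) p q → η ≤ 1 →
      (∀ k, ‖a k‖ ≤ X / W ρ' b k) → (∀ x, HasSum (fun k => a k * e k x) (f x)) →
      NB ρ (3 * q ^ 2) η (A1 * ((p:ℝ) / q) ^ 2) (fun x => (u x : ℂ)) →
      NB ρ (3 * q ^ 2) η (M1 * ((p:ℝ) / q) ^ 2) (fun x => M x - m0) → ‖m0‖ ≤ M2 →
      |(n:ℝ)| ≤ 2 * q →
      ‖fc (fun x => M x * f (x + u x) - m0 * f x) n‖ ≤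
        C * X * ((p:ℝ) / q) ^ 2 * (1 + |(n:ℝ)|) / W ρ' b n := by
  obtain ⟨C, hC, hmix⟩ := mix ρ ρ' b h0 h1 hb
  have hpi := Real.pi_pos
  set K : ℝ := 8 * π * A1 with hK
  set B : ℝ := M1 * (2 * π * A1 * Real.exp K) + M1 + M2 * (2 * π * A1 * Real.exp K) with hB
  have hB0 : 0 ≤ B := by positivity
  refine ⟨C * (B + 1), by positivity, ?_⟩
  intro p q η X m0 a f M u n hpq hη hη2 hη1 ha hf hu hM hm0 hn
  have hρ : 0 ≤ ρ := (h0.trans h1).le
  have hq2 : (2:ℝ) ≤ q := by exact_mod_cast hpq.2.1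
  have hp0 : (0:ℝ) ≤ p := Nat.cast_nonneg p
  have hp2 : (p:ℝ) ≤ 2 := by rcases hpq.1 with h | h <;> rw [h] <;> norm_num
  set ω : ℝ := (p:ℝ) / q with hω
  have hω0 : 0 ≤ ω := by positivity
  have hω1 : ω ≤ 1 := by
    rw [hω, div_le_one (by linarith)]
    linarith
  have hω2 : ω ^ 2 ≤ 1 := pow_le_one₀ hω0 hω1
  have hqω : (q:ℝ) * ω = p := by rw [hω]; field_simp
  have hX : 0 ≤ X := by
    have h2 := (norm_nonneg _).trans (ha 0)
    have h3 := W_pos ρ' b 0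
    by_contra h4
    push Not at h4
    have := div_neg_of_neg_of_pos h4 h3
    linarith
  have hus : ∀ x, |u x| ≤ A1 * ω ^ 2 := fun x => by
    have h2 := hu.sup hρ hη hη1 x
    rwa [Complex.norm_real] at h2
  have hMs : ∀ x, ‖M x - m0‖ ≤ M1 * ω ^ 2 := fun x => hM.sup hρ hη hη1 x
  have huc : Continuous u := by
    have := Complex.continuous_re.comp hu.continuous
    simpa [Function.comp_def] using this
  have hMc : Continuous M := by
    have h3 : M = fun x => (M x - m0) + m0 := by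
      funext x
      ring
    rw [h3]
    exact hM.continuous.add continuous_const
  have hg : ∀ k : ℤ, |(k:ℝ)| ≤ (q:ℝ) ^ 2 → NB ρ (3 * q ^ 2) η (B * ω ^ 2 * (1 + |(k:ℝ)|))
      (fun x => M x * e k (u x) - m0) := by
    intro k hk
    have h2 : 2 * π * |(k:ℝ)| * (A1 * ω ^ 2) ≤ K := by
      have h3 : |(k:ℝ)| * ω ^ 2 ≤ 4 := by
        calc |(k:ℝ)| * ω ^ 2 ≤ (q:ℝ) ^ 2 * ω ^ 2 := by gcongr
          _ = ((q:ℝ) * ω) ^ 2 := by ring
          _ = (p:ℝ) ^ 2 := by rw [hqω]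
          _ ≤ 4 := by nlinarith
      calc 2 * π * |(k:ℝ)| * (A1 * ω ^ 2) = 2 * π * A1 * (|(k:ℝ)| * ω ^ 2) := by ring
        _ ≤ 2 * π * A1 * 4 := by gcongr
        _ = K := by rw [hK]; ring
    have h3 := hi_exp hρ hη hη1 (by positivity) hu h2
    have h4 := hM.mul hρ hη hη1 h3
    have h5 := (h4.add hM).add (h3.const_mul hη m0)
    have h6 : (fun x => (M x - m0) * (e k (u x) - 1) + (M x - m0) + m0 * (e k (u x) - 1)) =
        fun x => M x * e k (u x) - m0 := by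
      funext x
      ring
    rw [h6] at h5
    refine h5.mono ?_
    have hk0 : 0 ≤ |(k:ℝ)| := abs_nonneg _
    have h7 : M1 * ω ^ 2 * (2 * π * (A1 * ω ^ 2) * Real.exp K * (1 + |(k:ℝ)|)) ≤
        M1 * (2 * π * A1 * Real.exp K) * ω ^ 2 * (1 + |(k:ℝ)|) := by
      calc M1 * ω ^ 2 * (2 * π * (A1 * ω ^ 2) * Real.exp K * (1 + |(k:ℝ)|))
          = (M1 * (2 * π * A1 * Real.exp K) * ω ^ 2 * (1 + |(k:ℝ)|)) * ω ^ 2 := by ring
        _ ≤ (M1 * (2 * π * A1 * Real.exp K) * ω ^ 2 * (1 + |(k:ℝ)|)) * 1 :=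
          mul_le_mul_of_nonneg_left hω2 (by positivity)
        _ = _ := mul_one _
    have h8 : M1 * ω ^ 2 ≤ M1 * ω ^ 2 * (1 + |(k:ℝ)|) :=
      le_mul_of_one_le_right (by positivity) (by linarith)
    have h9 : ‖m0‖ * (2 * π * (A1 * ω ^ 2) * Real.exp K * (1 + |(k:ℝ)|)) ≤
        M2 * (2 * π * A1 * Real.exp K) * ω ^ 2 * (1 + |(k:ℝ)|) := by
      calc ‖m0‖ * (2 * π * (A1 * ω ^ 2) * Real.exp K * (1 + |(k:ℝ)|))
          ≤ M2 * (2 * π * (A1 * ω ^ 2) * Real.exp K * (1 + |(k:ℝ)|)) :=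
            mul_le_mul_of_nonneg_right hm0 (by positivity)
        _ = _ := by ring
    calc _ ≤ M1 * (2 * π * A1 * Real.exp K) * ω ^ 2 * (1 + |(k:ℝ)|) +
          M1 * ω ^ 2 * (1 + |(k:ℝ)|) + M2 * (2 * π * A1 * Real.exp K) * ω ^ 2 *
          (1 + |(k:ℝ)|) := add_le_add (add_le_add h7 h8) h9
      _ = B * ω ^ 2 * (1 + |(k:ℝ)|) := by rw [hB]; ring
  have hsup : ∀ (k : ℤ) x, ‖M x * e k (u x) - m0‖ ≤ B * ω ^ 2 * (1 + |(k:ℝ)|) := by
    intro k x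
    have hk0 : 0 ≤ |(k:ℝ)| := abs_nonneg _
    have h2 : M x * e k (u x) - m0 = (M x - m0) * e k (u x) + m0 * (e k (u x) - 1) := by ring
    have hE1 : 1 ≤ Real.exp K := Real.one_le_exp (by positivity)
    have h3 : ‖(M x - m0) * e k (u x)‖ ≤ M1 * ω ^ 2 := by
      rw [norm_mul, norm_e, mul_one]
      exact hMs x
    have h4 : ‖m0 * (e k (u x) - 1)‖ ≤ M2 * (2 * π * A1 * Real.exp K) * ω ^ 2 *
        (1 + |(k:ℝ)|) := by
      rw [norm_mul]
      calc ‖m0‖ * ‖e k (u x) - 1‖ ≤ M2 * (2 * π * |(k:ℝ)| * (A1 * ω ^ 2)) := by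
            refine mul_le_mul hm0 ((norm_e_sub_one k (u x)).trans ?_) (norm_nonneg _) hM2
            exact mul_le_mul_of_nonneg_left (hus x) (by positivity)
        _ = M2 * (2 * π * A1 * 1) * ω ^ 2 * |(k:ℝ)| := by ring
        _ ≤ M2 * (2 * π * A1 * Real.exp K) * ω ^ 2 * (1 + |(k:ℝ)|) := by
            gcongr
            linarith
    rw [h2]
    refine (norm_add_le _ _).trans ?_
    have h5 : M1 * ω ^ 2 ≤ M1 * ω ^ 2 * (1 + |(k:ℝ)|) :=
      le_mul_of_one_le_right (by positivity) (by linarith)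
    have h6 : 0 ≤ M1 * (2 * π * A1 * Real.exp K) * ω ^ 2 * (1 + |(k:ℝ)|) := by positivity
    calc ‖(M x - m0) * e k (u x)‖ + ‖m0 * (e k (u x) - 1)‖
        ≤ M1 * ω ^ 2 * (1 + |(k:ℝ)|) + M2 * (2 * π * A1 * Real.exp K) * ω ^ 2 *
          (1 + |(k:ℝ)|) := add_le_add (h3.trans h5) h4
      _ ≤ _ := by
          have h7 : B * ω ^ 2 * (1 + |(k:ℝ)|) = M1 * (2 * π * A1 * Real.exp K) * ω ^ 2 *
              (1 + |(k:ℝ)|) + (M1 * ω ^ 2 * (1 + |(k:ℝ)|) +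
              M2 * (2 * π * A1 * Real.exp K) * ω ^ 2 * (1 + |(k:ℝ)|)) := by
            rw [hB]
            ring
          rw [h7]
          linarith
  have hser : ∀ x, HasSum (fun k => a k * e k x * (M x * e k (u x) - m0))
      (M x * f (x + u x) - m0 * f x) := by
    intro x
    have h2 := ((hf (x + u x)).mul_left (M x)).sub ((hf x).mul_left m0)
    have h3 : (fun k : ℤ => M x * (a k * e k (x + u x)) - m0 * (a k * e k x)) =
        fun k => a k * e k x * (M x * e k (u x) - m0) := by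
      funext k
      rw [e_shift]
      ring
    rwa [h3] at h2
  have h2 := hmix p q η (B * ω ^ 2) X a (fun k x => M x * e k (u x) - m0)
    (fun x => M x * f (x + u x) - m0 * f x) n hpq hη hη2 (by positivity) ha hg
    (fun k => (hMc.mul ((continuous_e k).comp huc)).sub continuous_const) hsup hser hn
  refine h2.trans ?_
  have hWn := W_pos ρ' b n
  rw [div_le_div_iff_of_pos_right hWn]
  have h3 : 0 ≤ X * ω ^ 2 * (1 + |(n:ℝ)|) := by positivity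
  nlinarith [mul_nonneg hC.le h3]

end Pool.Agent.MP_ae5b4e_an_NC
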