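import Mathlib
import Pool.Agent.Lib.MP_ae5b4e_an_RG.Comp

/-!
# MP_ae5b4e_an, project NC: the multipliers on a leaf with small rotation number

Text: `/team-store/POR_NC_h73.md`, section 5.  Everything here is background-independent: `ka` and
`la` are arbitrary functions with decaying coefficients.

`PhiA ka la e0 e1 y1 y2 t` is the odd part of `Psi` on the tangent line, divided by `tau`, as a
function of `t = tau ^ 2`.
-/

noncomputable section

namespace Pool.Agent.MP_ae5b4e_an_NC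

open Real Set Filter Topology MeasureTheory intervalIntegral
open Pool.Agent.MP_ae5b4e_an_RG

/-- `D (τ) D (-τ)` -/
def aDD (ka la t : ℝ) : ℝ := 1 + 2 * ((la - ka ^ 2) * t) + (la + ka ^ 2) ^ 2 * t ^ 2

def an0 (ka la t : ℝ) : ℝ := 1 + (4 * la - 4 * ka ^ 2) * t +
  (5 * la ^ 2 - 2 * (ka ^ 2 * la) + ka ^ 4) * t ^ 2 +
  (2 * la ^ 3 - 2 * (ka ^ 2 * la ^ 2) - 2 * (ka ^ 4 * la) + 2 * ka ^ 6) * t ^ 3

def an1 (ka la t : ℝ) : ℝ := 1 + (2 * la + 2 * ka ^ 2) * t +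
  (la ^ 2 - 2 * (ka ^ 2 * la) - 3 * ka ^ 4) * t ^ 2

/-- the odd part of `Psi` on the tangent line, divided by `τ` -/
def PhiA (ka la e0 e1 y1 y2 t : ℝ) : ℝ := (e0 * an0 ka la t + e1 * (t * an1 ka la t) +
  8 * (y1 * (t ^ 2 * (1 - (la + ka ^ 2) * t))) - 4 * (y2 * (t ^ 2 * (1 + (la + ka ^ 2) * t)))) /
    aDD ka la t ^ 2

/-- the data of a leaf -/
structure MD where
  ρ : ℝ
  N : ℕ
  p : ℕ
  q : ℕ
  η : ℝ
  ka : ℝ → ℝ
  la : ℝ → ℝ
  u : ℝ → ℝ
  V : ℝ → ℝ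

namespace MD

/-- the rotation number -/
def om (d : MD) : ℝ := (d.p : ℝ) / d.q

/-- the hypotheses -/
structure Ok (A A1 : ℝ) (d : MD) : Prop where
  hρ : 0 ≤ d.ρ
  pq : PQ d.p d.q
  η1 : etam d.ρ d.N d.p d.q ≤ d.η
  η2 : d.η ≤ 1
  ka : Dec d.ρ d.N A d.ka
  la : Dec d.ρ d.N A d.la
  u : NB d.ρ d.N d.η (A1 * d.om ^ 2) (fun x => (d.u x : ℂ))
  V : NB d.ρ d.N d.η (A1 * d.om ^ 2) (fun x => ((d.V x - 1 : ℝ) : ℂ))

namespace Ok

variable {A A1 : ℝ} {d : MD}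

lemma om_pos (h : d.Ok A A1) : 0 < d.om := by
  have hq0 : (0:ℝ) < d.q := by
    have := h.pq.2.1
    exact_mod_cast (by omega : 0 < d.q)
  have hp1 : (1:ℝ) ≤ d.p := by
    rcases h.pq.1 with h | h <;> rw [h] <;> norm_num
  unfold om
  positivity

lemma η_pos (h : d.Ok A A1) : 0 < d.η := by
  refine lt_of_lt_of_le ?_ h.η1
  have := h.om_pos
  unfold etam
  unfold om at this
  positivity

end Ok

end MD

/-- families of functions which are `O(omega ^ k)` -/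
def Fm (A A1 : ℝ) (k : ℕ) (f : MD → ℝ → ℝ) : Prop :=
  ∃ C ω1 : ℝ, 0 < C ∧ 0 < ω1 ∧ ω1 ≤ 1 ∧ ∀ d : MD, d.Ok A A1 → d.om ≤ ω1 →
    NB d.ρ d.N d.η (C * d.om ^ k) (fun x => (f d x : ℂ))

namespace Fm

variable {A A1 : ℝ} {k l : ℕ} {f g : MD → ℝ → ℝ}

lemma congr (h : Fm A A1 k f) (hfg : ∀ d x, f d x = g d x) : Fm A A1 k g := by
  have : f = g := by
    funext d x
    exact hfg d x
  rwa [← this]

lemma add (h : Fm A A1 k f) (h' : Fm A A1 k g) : Fm A A1 k (fun d x => f d x + g d x) := by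
  obtain ⟨C, w, hC, hw, hw1, h⟩ := h
  obtain ⟨C', w', hC', hw', hw1', h'⟩ := h'
  refine ⟨C + C', min w w', by positivity, lt_min hw hw', (min_le_left _ _).trans hw1, ?_⟩
  intro d hd hdw
  have h1 := (h d hd (hdw.trans (min_le_left _ _))).add (h' d hd (hdw.trans (min_le_right _ _)))
  refine NB.mono (f := _) ?_ (le_of_eq (add_mul C C' (d.om ^ k)).symm)
  simpa only [Complex.ofReal_add] using h1

lemma mul (h : Fm A A1 k f) (h' : Fm A A1 l g) : Fm A A1 (k + l) (fun d x => f d x * g d x) := by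
  obtain ⟨C, w, hC, hw, hw1, h⟩ := h
  obtain ⟨C', w', hC', hw', hw1', h'⟩ := h'
  refine ⟨C * C', min w w', by positivity, lt_min hw hw', (min_le_left _ _).trans hw1, ?_⟩
  intro d hd hdw
  have h1 := (h d hd (hdw.trans (min_le_left _ _))).mul hd.hρ hd.η_pos hd.η2
    (h' d hd (hdw.trans (min_le_right _ _)))
  refine NB.mono (f := _) (M := C * d.om ^ k * (C' * d.om ^ l)) ?_ (le_of_eq (by ring))
  simpa only [Complex.ofReal_mul] using h1

lemma cmul (c : ℝ) (h : Fm A A1 k f) : Fm A A1 k (fun d x => c * f d x) := by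
  obtain ⟨C, w, hC, hw, hw1, h⟩ := h
  refine ⟨|c| * C + C, w, by positivity, hw, hw1, ?_⟩
  intro d hd hdw
  have h1 := (h d hd hdw).const_mul hd.η_pos (c : ℂ)
  rw [Complex.norm_real, Real.norm_eq_abs] at h1
  have h2 := hd.om_pos
  refine NB.mono (f := _) (M := |c| * (C * d.om ^ k)) ?_ ?_
  · simpa only [Complex.ofReal_mul] using h1
  · have : 0 ≤ C * d.om ^ k := by positivity
    nlinarith

lemma sub (h : Fm A A1 k f) (h' : Fm A A1 k g) : Fm A A1 k (fun d x => f d x - g d x) :=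
  (h.add (h'.cmul (-1))).congr fun d x => by ring

lemma weaken (h : Fm A A1 (k + l) f) : Fm A A1 k f := by
  obtain ⟨C, w, hC, hw, hw1, h⟩ := h
  refine ⟨C, w, hC, hw, hw1, ?_⟩
  intro d hd hdw
  refine (h d hd hdw).mono ?_
  have h2 := hd.om_pos
  have h3 : d.om ^ l ≤ 1 := pow_le_one₀ h2.le (hdw.trans hw1)
  rw [pow_add]
  calc C * (d.om ^ k * d.om ^ l) = C * d.om ^ k * d.om ^ l := by ring
    _ ≤ C * d.om ^ k * 1 := mul_le_mul_of_nonneg_left h3 (by positivity)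
    _ = C * d.om ^ k := mul_one _

lemma inv (h : Fm A A1 2 f) : Fm A A1 2 (fun d x => 1 / (1 + f d x) - 1) := by
  obtain ⟨C, w, hC, hw, hw1, h⟩ := h
  refine ⟨2 * C, min w (1 / (2 * C)), by positivity, by positivity,
    (min_le_left _ _).trans hw1, ?_⟩
  intro d hd hdw
  have h2 := hd.om_pos
  have h3 : d.om ≤ 1 := (hdw.trans (min_le_left _ _)).trans hw1
  have h4 : d.om ≤ 1 / (2 * C) := hdw.trans (min_le_right _ _)
  have h5 : C * d.om ^ 2 ≤ 1 / 2 := by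
    rw [le_div_iff₀ (by positivity)] at h4
    nlinarith
  have h6 := (NB.inv hd.hρ hd.η_pos hd.η2 (h d hd (hdw.trans (min_le_left _ _))) h5).2
  have h7 : (fun x => ((1 / (1 + f d x) - 1 : ℝ) : ℂ)) = fun x => 1 / (1 + (f d x : ℂ)) - 1 := by
    funext x
    push_cast
    rfl
  rw [h7]
  exact h6.mono (le_of_eq (by ring))

/-- factors which are close to `1` -/
lemma one_mul (h : Fm A A1 2 (fun d x => f d x - 1)) (h' : Fm A A1 2 (fun d x => g d x - 1)) :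
    Fm A A1 2 (fun d x => f d x * g d x - 1) :=
  (((h.mul h').weaken (k := 2) (l := 2)).add (h.add h')).congr fun d x => by ring

lemma one_inv (h : Fm A A1 2 (fun d x => f d x - 1)) : Fm A A1 2 (fun d x => 1 / f d x - 1) :=
  h.inv.congr fun d x => by rw [add_sub_cancel]

/-- the square of the tangent length -/
lemma t (hA1 : 0 < A1) : Fm A A1 2 (fun d x => (π * d.om * d.V x) ^ 2) := by
  have hV : Fm A A1 2 (fun d x => d.V x - 1) :=
    ⟨A1, 1, hA1, one_pos, le_rfl, fun d hd _ => hd.V⟩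
  obtain ⟨C, w, hC, hw, hw1, h⟩ := one_mul hV hV
  refine ⟨π ^ 2 * (C + 12), w, by positivity, hw, hw1, ?_⟩
  intro d hd hdw
  have h2 := hd.om_pos
  have h3 : d.om ^ 2 ≤ 1 := pow_le_one₀ h2.le (hdw.trans hw1)
  have h4 := NB.const d.ρ d.N hd.η_pos (1:ℂ)
  rw [norm_one] at h4
  have h5 := ((h d hd hdw).add h4).const_mul hd.η_pos ((π ^ 2 * d.om ^ 2 : ℝ) : ℂ)
  rw [Complex.norm_real, Real.norm_eq_abs, abs_of_nonneg (by positivity)] at h5
  have h6 : (fun x => (((π * d.om * d.V x) ^ 2 : ℝ) : ℂ)) = fun x =>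
      ((π ^ 2 * d.om ^ 2 : ℝ) : ℂ) * (((d.V x * d.V x - 1 : ℝ) : ℂ) + 1) := by
    funext x
    push_cast
    ring
  rw [h6]
  refine h5.mono ?_
  calc π ^ 2 * d.om ^ 2 * (C * d.om ^ 2 + 12 * 1)
      ≤ π ^ 2 * d.om ^ 2 * (C * 1 + 12 * 1) := by gcongr
    _ = π ^ 2 * (C + 12) * d.om ^ 2 := by ring

lemma comp (hA : 0 < A) (hA1 : 0 < A1) {R : MD → ℝ → ℝ}
    (hR : ∀ d : MD, d.Ok A A1 → Dec d.ρ d.N A (R d)) :
    Fm A A1 0 (fun d x => R d (x + d.u x)) := by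
  obtain ⟨C2, hC2, hcomp⟩ := comp_bound A A1 hA hA1
  refine ⟨12 * A + C2, 1, by positivity, one_pos, le_rfl, ?_⟩
  intro d hd hdw
  have h2 := hd.om_pos
  have h3 : d.om ^ 2 ≤ 1 := pow_le_one₀ h2.le hdw
  have h4 := hcomp d.ρ d.N d.p d.q d.η (R d) d.u 0 hd.hρ hd.pq hd.η1 hd.η2 (hR d hd) hd.u
  have h5 := (NB.of_Bd (η := d.η) hd.hρ (hR d hd).bd).add h4
  have h6 : (fun x => ((R d (x + d.u x) : ℝ) : ℂ)) = fun x => ((R d x : ℝ) : ℂ) +
      ((R d (x + 0 + d.u x) - R d (x + 0) : ℝ) : ℂ) := by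
    funext x
    simp only [add_zero]
    push_cast
    ring
  rw [h6]
  refine h5.mono ?_
  have h7 : C2 * d.om ^ 2 ≤ C2 * 1 := by gcongr
  rw [pow_zero]
  unfold MD.om at h7
  linarith

end Fm

/-- the four multipliers -/
def mul0 (d : MD) (x : ℝ) : ℝ := d.V x *
  (an0 (d.ka (x + d.u x)) (d.la (x + d.u x)) ((π * d.om * d.V x) ^ 2) /
    aDD (d.ka (x + d.u x)) (d.la (x + d.u x)) ((π * d.om * d.V x) ^ 2) ^ 2)

def mul1 (d : MD) (x : ℝ) : ℝ := d.V x ^ 3 *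
  (an1 (d.ka (x + d.u x)) (d.la (x + d.u x)) ((π * d.om * d.V x) ^ 2) /
    aDD (d.ka (x + d.u x)) (d.la (x + d.u x)) ((π * d.om * d.V x) ^ 2) ^ 2)

def mul2 (d : MD) (x : ℝ) : ℝ := d.V x ^ 5 *
  ((1 - (d.la (x + d.u x) + d.ka (x + d.u x) ^ 2) * (π * d.om * d.V x) ^ 2) /
    aDD (d.ka (x + d.u x)) (d.la (x + d.u x)) ((π * d.om * d.V x) ^ 2) ^ 2)

def mul3 (d : MD) (x : ℝ) : ℝ := d.V x ^ 5 *
  ((1 + (d.la (x + d.u x) + d.ka (x + d.u x) ^ 2) * (π * d.om * d.V x) ^ 2) /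
    aDD (d.ka (x + d.u x)) (d.la (x + d.u x)) ((π * d.om * d.V x) ^ 2) ^ 2)

private theorem mnb_all (A A1 : ℝ) (hA : 0 < A) (hA1 : 0 < A1) :
    Fm A A1 2 (fun d x => mul0 d x - 1) ∧ Fm A A1 2 (fun d x => mul1 d x - 1) ∧
    Fm A A1 2 (fun d x => mul2 d x - 1) ∧ Fm A A1 2 (fun d x => mul3 d x - 1) := by
  have hV : Fm A A1 2 (fun d x => d.V x - 1) :=
    ⟨A1, 1, hA1, one_pos, le_rfl, fun d hd _ => hd.V⟩
  have hk := Fm.comp hA hA1 (R := fun d => d.ka) fun d hd => hd.ka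
  have hl := Fm.comp hA hA1 (R := fun d => d.la) fun d hd => hd.la
  have ht := Fm.t (A := A) hA1
  have hV2 := Fm.one_mul hV hV
  have hV3 : Fm A A1 2 (fun d x => d.V x ^ 3 - 1) := (Fm.one_mul hV2 hV).congr fun d x => by ring
  have hV5 : Fm A A1 2 (fun d x => d.V x ^ 5 - 1) := (Fm.one_mul hV3 hV2).congr fun d x => by ring
  -- powers
  have hk2 : Fm A A1 0 (fun d x => d.ka (x + d.u x) ^ 2) :=
    (hk.mul hk).congr fun d x => by ring
  have hk4 : Fm A A1 0 (fun d x => d.ka (x + d.u x) ^ 4) :=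
    (hk2.mul hk2).congr fun d x => by ring
  have hk6 : Fm A A1 0 (fun d x => d.ka (x + d.u x) ^ 6) :=
    (hk2.mul hk4).congr fun d x => by ring
  have hl2 : Fm A A1 0 (fun d x => d.la (x + d.u x) ^ 2) :=
    (hl.mul hl).congr fun d x => by ring
  have hl3 : Fm A A1 0 (fun d x => d.la (x + d.u x) ^ 3) :=
    (hl2.mul hl).congr fun d x => by ring
  have ht2 : Fm A A1 2 (fun d x => ((π * d.om * d.V x) ^ 2) ^ 2) :=
    ((ht.mul ht).weaken (k := 2) (l := 2)).congr fun d x => by ring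
  have ht3 : Fm A A1 2 (fun d x => ((π * d.om * d.V x) ^ 2) ^ 3) :=
    ((ht2.mul ht).weaken (k := 2) (l := 2)).congr fun d x => by ring
  have hmu := hl.add hk2
  have hmut : Fm A A1 2 (fun d x => (d.la (x + d.u x) + d.ka (x + d.u x) ^ 2) *
      (π * d.om * d.V x) ^ 2) := by
    have := hmu.mul ht
    rwa [Nat.zero_add] at this
  have hDD : Fm A A1 2 (fun d x => aDD (d.ka (x + d.u x)) (d.la (x + d.u x))
      ((π * d.om * d.V x) ^ 2) - 1) := by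
    have a := (hl.sub hk2).mul ht
    have b := (hmu.mul hmu).mul ht2
    rw [Nat.zero_add] at a b
    exact ((a.cmul 2).add b).congr fun d x => by
      unfold aDD
      ring
  have hI := hDD.one_inv
  have hI2 := Fm.one_mul hI hI
  have h0 : Fm A A1 2 (fun d x => an0 (d.ka (x + d.u x)) (d.la (x + d.u x))
      ((π * d.om * d.V x) ^ 2) - 1) := by
    have a := ((hl.cmul 4).sub (hk2.cmul 4)).mul ht
    have b := (((hl2.cmul 5).sub ((hk2.mul hl).cmul 2)).add hk4).mul ht2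
    have c := ((((hl3.cmul 2).sub ((hk2.mul hl2).cmul 2)).sub ((hk4.mul hl).cmul 2)).add
      (hk6.cmul 2)).mul ht3
    rw [Nat.zero_add] at a b c
    exact ((a.add b).add c).congr fun d x => by
      unfold an0
      ring
  have h1 : Fm A A1 2 (fun d x => an1 (d.ka (x + d.u x)) (d.la (x + d.u x))
      ((π * d.om * d.V x) ^ 2) - 1) := by
    have a := ((hl.cmul 2).add (hk2.cmul 2)).mul ht
    have b := ((hl2.sub ((hk2.mul hl).cmul 2)).sub (hk4.cmul 3)).mul ht2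
    rw [Nat.zero_add] at a b
    exact (a.add b).congr fun d x => by
      unfold an1
      ring
  have h2 : Fm A A1 2 (fun d x => (1 - (d.la (x + d.u x) + d.ka (x + d.u x) ^ 2) *
      (π * d.om * d.V x) ^ 2) - 1) := (hmut.cmul (-1)).congr fun d x => by ring
  have h3 : Fm A A1 2 (fun d x => (1 + (d.la (x + d.u x) + d.ka (x + d.u x) ^ 2) *
      (π * d.om * d.V x) ^ 2) - 1) := hmut.congr fun d x => by ring
  refine ⟨(Fm.one_mul hV (Fm.one_mul h0 hI2)).congr fun d x => ?_,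
    (Fm.one_mul hV3 (Fm.one_mul h1 hI2)).congr fun d x => ?_,
    (Fm.one_mul hV5 (Fm.one_mul h2 hI2)).congr fun d x => ?_,
    (Fm.one_mul hV5 (Fm.one_mul h3 hI2)).congr fun d x => ?_⟩
  · unfold mul0
    ring
  · unfold mul1
    ring
  · unfold mul2
    ring
  · unfold mul3
    ring

/-- The multipliers are `1 + O(omega ^ 2)`. -/
theorem mnb (A A1 : ℝ) (hA : 0 < A) (hA1 : 0 < A1) :
    ∃ C ω1 : ℝ, 0 < C ∧ 0 < ω1 ∧ ω1 ≤ 1 ∧ ∀ d : MD, d.Ok A A1 → d.om ≤ ω1 →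
      NB d.ρ d.N d.η (C * d.om ^ 2) (fun x => ((mul0 d x - 1 : ℝ) : ℂ)) ∧
      NB d.ρ d.N d.η (C * d.om ^ 2) (fun x => ((mul1 d x - 1 : ℝ) : ℂ)) ∧
      NB d.ρ d.N d.η (C * d.om ^ 2) (fun x => ((mul2 d x - 1 : ℝ) : ℂ)) ∧
      NB d.ρ d.N d.η (C * d.om ^ 2) (fun x => ((mul3 d x - 1 : ℝ) : ℂ)) := by
  obtain ⟨⟨C0, w0, hC0, hw0, hw01, h0⟩, ⟨C1, w1, hC1, hw1, hw11, h1⟩,
    ⟨C2, w2, hC2, hw2, hw21, h2⟩, ⟨C3, w3, hC3, hw3, hw31, h3⟩⟩ := mnb_all A A1 hA hA1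
  refine ⟨C0 + C1 + C2 + C3, min (min w0 w1) (min w2 w3), by positivity,
    lt_min (lt_min hw0 hw1) (lt_min hw2 hw3), ((min_le_left _ _).trans (min_le_left _ _)).trans hw01,
    ?_⟩
  intro d hd hdw
  have h4 := hd.om_pos
  have a0 := h0 d hd (hdw.trans ((min_le_left _ _).trans (min_le_left _ _)))
  have a1 := h1 d hd (hdw.trans ((min_le_left _ _).trans (min_le_right _ _)))
  have a2 := h2 d hd (hdw.trans ((min_le_right _ _).trans (min_le_left _ _)))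
  have a3 := h3 d hd (hdw.trans ((min_le_right _ _).trans (min_le_right _ _)))
  exact ⟨a0.mono (by gcongr; linarith), a1.mono (by gcongr; linarith),
    a2.mono (by gcongr; linarith), a3.mono (by gcongr; linarith)⟩

end Pool.Agent.MP_ae5b4e_an_NC
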