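import Mathlib
import Pool.Agent.Lib.MP_ae5b4e_an_NC.Def
import Pool.Agent.Lib.MP_ae5b4e_an_NC.HI
import Pool.Agent.Lib.MP_ae5b4e_an_NC.Mnb

/-!
# MP_ae5b4e_an, project NC: the estimate of the high modes, background-independent form

Text: `/team-store/POR_NC_h73.md`, (5.3).
-/

noncomputable section

namespace Pool.Agent.MP_ae5b4e_an_NC

open Real Set Filter Topology MeasureTheory intervalIntegral
open Pool.Agent.MP_ae5b4e_an_RG

private lemma ba_int {f : ℝ → ℂ} (hf : Continuous f) (k : ℤ) :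
    IntervalIntegrable (fun x => f x * e (-k) x) volume 0 1 :=
  (hf.mul (continuous_e (-k))).intervalIntegrable _ _

private lemma ba_add {f g : ℝ → ℂ} (hf : Continuous f) (hg : Continuous g) (k : ℤ) :
    fc (fun x => f x + g x) k = fc f k + fc g k := by
  unfold fc
  simp only [add_mul]
  exact intervalIntegral.integral_add (ba_int hf k) (ba_int hg k)

private lemma ba_cmul (c : ℂ) (f : ℝ → ℂ) (k : ℤ) : fc (fun x => c * f x) k = c * fc f k := by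
  unfold fc
  simp only [mul_assoc]
  exact intervalIntegral.integral_const_mul _ _

/-- a weighted bound with a larger rate gives `Dec` -/
lemma wr_dec {ρ1 ρ A : ℝ} {f : ℝ → ℝ} (h : WR ρ1 2 A f) (hρ : ρ < ρ1) (hρ0 : 0 ≤ ρ) (N : ℕ) :
    Dec ρ N (A * (1 + 1 / (ρ1 - ρ))) f := by
  obtain ⟨a, ha, hs⟩ := h
  refine ⟨a, fun k => ?_, hs⟩
  have hA : 0 ≤ A := by
    have h1 := (norm_nonneg _).trans (ha 0)
    simpa using h1
  have hc : 0 < ρ1 - ρ := by linarith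
  refine (ha k).trans ?_
  have hk : 0 ≤ |(k:ℝ)| := abs_nonneg _
  have h1 : 1 + |(k:ℝ)| ≤ (1 + 1 / (ρ1 - ρ)) * Real.exp ((ρ1 - ρ) * |(k:ℝ)|) := by
    have h2 := Real.add_one_le_exp ((ρ1 - ρ) * |(k:ℝ)|)
    have h3 : (1 + 1 / (ρ1 - ρ)) * ((ρ1 - ρ) * |(k:ℝ)| + 1) =
        1 + |(k:ℝ)| + ((ρ1 - ρ) * |(k:ℝ)| + 1 / (ρ1 - ρ)) := by
      field_simp
      ring
    have h4 : (1 + 1 / (ρ1 - ρ)) * ((ρ1 - ρ) * |(k:ℝ)| + 1) ≤
        (1 + 1 / (ρ1 - ρ)) * Real.exp ((ρ1 - ρ) * |(k:ℝ)|) :=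
      mul_le_mul_of_nonneg_left h2 (by positivity)
    have h5 : 0 ≤ (ρ1 - ρ) * |(k:ℝ)| + 1 / (ρ1 - ρ) := by positivity
    linarith
  have h2 : w ρ N k ≤ Real.exp (ρ * |(k:ℝ)|) := by
    unfold w
    exact Real.exp_le_exp.2 (mul_le_mul_of_nonneg_left (min_le_left _ _) hρ0)
  have hV := V_pos ρ N 3 k
  rw [div_le_div_iff₀ (by positivity) hV]
  have h3 : Real.exp (ρ1 * |(k:ℝ)|) =
      Real.exp ((ρ1 - ρ) * |(k:ℝ)|) * Real.exp (ρ * |(k:ℝ)|) := by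
    rw [← Real.exp_add]
    congr 1
    ring
  unfold V
  calc A * ((1 + |(k:ℝ)|) ^ 3 * w ρ N k)
      = A * (1 + |(k:ℝ)|) ^ 2 * ((1 + |(k:ℝ)|) * w ρ N k) := by ring
    _ ≤ A * (1 + |(k:ℝ)|) ^ 2 * ((1 + 1 / (ρ1 - ρ)) * Real.exp ((ρ1 - ρ) * |(k:ℝ)|) *
        Real.exp (ρ * |(k:ℝ)|)) := by
        refine mul_le_mul_of_nonneg_left ?_ (by positivity)
        exact mul_le_mul h1 h2 (w_pos ρ N k).le (by positivity)
    _ = A * (1 + 1 / (ρ1 - ρ)) * ((1 + |(k:ℝ)|) ^ 2 * Real.exp (ρ1 * |(k:ℝ)|)) := by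
        rw [h3]
        ring

section WRl

variable {ρ B : ℝ} {b : ℕ} {f : ℝ → ℝ}

private lemma ba_nonneg (h : WR ρ b B f) : 0 ≤ B := by
  obtain ⟨a, ha, _⟩ := h
  have h1 := (norm_nonneg _).trans (ha 0)
  simpa using h1

private lemma ba_bd (hb : 2 ≤ b) (hρ : 0 ≤ ρ) (hB : 0 ≤ B) (k : ℤ) :
    B / ((1 + |(k:ℝ)|) ^ b * Real.exp (ρ * |(k:ℝ)|)) ≤ B / V ρ 0 2 k := by
  have h1 := V_pos ρ 0 2 k
  refine div_le_div_of_nonneg_left hB h1 ?_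
  unfold V w
  have hk : 0 ≤ |(k:ℝ)| := abs_nonneg _
  have h2 : (1 + |(k:ℝ)|) ^ 2 ≤ (1 + |(k:ℝ)|) ^ b := pow_le_pow_right₀ (by linarith) hb
  have h3 : Real.exp (ρ * min |(k:ℝ)| ((0:ℕ):ℝ)) ≤ Real.exp (ρ * |(k:ℝ)|) :=
    Real.exp_le_exp.2 (mul_le_mul_of_nonneg_left (min_le_left _ _) hρ)
  exact mul_le_mul h2 h3 (Real.exp_pos _).le (by positivity)

lemma wr_bd (h : WR ρ b B f) (hb : 2 ≤ b) (hρ : 0 ≤ ρ) : Bd ρ 0 B (fun x => (f x : ℂ)) := by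
  have hB := ba_nonneg h
  obtain ⟨a, ha, hs⟩ := h
  exact ⟨a, fun k => (ha k).trans (ba_bd hb hρ hB k), hs⟩

private lemma ba_rc_le (h : WR ρ b B f) (hb : 2 ≤ b) (hρ : 0 ≤ ρ) (k : ℤ) :
    ‖rc f k‖ ≤ B / ((1 + |(k:ℝ)|) ^ b * Real.exp (ρ * |(k:ℝ)|)) := by
  have hB := ba_nonneg h
  obtain ⟨a, ha, hs⟩ := h
  have h1 : Summable fun k => ‖a k‖ :=
    Bd.summable hρ hB fun k => (ha k).trans (ba_bd hb hρ hB k)
  unfold rc
  rw [fc_of_hasSum h1 hs]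
  exact ha k

private lemma ba_cont (h : WR ρ b B f) (hb : 2 ≤ b) (hρ : 0 ≤ ρ) : Continuous f := by
  have h1 := (wr_bd h hb hρ).continuous hρ
  have := Complex.continuous_re.comp h1
  simpa [Function.comp_def] using this

end WRl

private lemma ba_four {G0 G1 G2 G3 : ℝ → ℝ} (h0 : Continuous G0) (h1 : Continuous G1)
    (h2 : Continuous G2) (h3 : Continuous G3) (a b c : ℝ) (n : ℤ) :
    fc (fun x => ((G0 x + a * G1 x + b * G2 x + c * G3 x : ℝ) : ℂ)) n =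
      fc (fun x => (G0 x : ℂ)) n + (a : ℂ) * fc (fun x => (G1 x : ℂ)) n +
      (b : ℂ) * fc (fun x => (G2 x : ℂ)) n + (c : ℂ) * fc (fun x => (G3 x : ℂ)) n := by
  have g0 : Continuous fun x => (G0 x : ℂ) := Complex.continuous_ofReal.comp h0
  have g1 : Continuous fun x => (a : ℂ) * (G1 x : ℂ) :=
    continuous_const.mul (Complex.continuous_ofReal.comp h1)
  have g2 : Continuous fun x => (b : ℂ) * (G2 x : ℂ) :=
    continuous_const.mul (Complex.continuous_ofReal.comp h2)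
  have g3 : Continuous fun x => (c : ℂ) * (G3 x : ℂ) :=
    continuous_const.mul (Complex.continuous_ofReal.comp h3)
  have e1 := ba_add (f := fun x => (G0 x : ℂ)) (g := fun x => (a : ℂ) * (G1 x : ℂ)) g0 g1 n
  have e2 := ba_add (f := fun x => (G0 x : ℂ) + (a : ℂ) * (G1 x : ℂ))
    (g := fun x => (b : ℂ) * (G2 x : ℂ)) (g0.add g1) g2 n
  have e3 := ba_add (f := fun x => (G0 x : ℂ) + (a : ℂ) * (G1 x : ℂ) + (b : ℂ) * (G2 x : ℂ))
    (g := fun x => (c : ℂ) * (G3 x : ℂ)) ((g0.add g1).add g2) g3 n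
  have d1 := ba_cmul (a : ℂ) (fun x => (G1 x : ℂ)) n
  have d2 := ba_cmul (b : ℂ) (fun x => (G2 x : ℂ)) n
  have d3 := ba_cmul (c : ℂ) (fun x => (G3 x : ℂ)) n
  rw [← d1, ← d2, ← d3, ← e1, ← e2, ← e3]
  congr 1
  funext x
  push_cast
  ring

/-- one term -/
private lemma ba_term {M : ℝ → ℝ} {u f : ℝ → ℝ} (hM : Continuous M) (hu : Continuous u)
    (hf : Continuous f) (n : ℤ) :
    fc (fun x => ((M x * f (x + u x) : ℝ) : ℂ)) n = rc f n +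
      fc (fun x => (M x : ℂ) * (f (x + u x) : ℂ) - 1 * (f x : ℂ)) n := by
  unfold rc
  have c1 : Continuous fun x => (f x : ℂ) := Complex.continuous_ofReal.comp hf
  have c2 : Continuous fun x => (M x : ℂ) := Complex.continuous_ofReal.comp hM
  have c3 : Continuous fun x => (f (x + u x) : ℂ) :=
    Complex.continuous_ofReal.comp (hf.comp (continuous_id.add hu))
  have h1 := ba_add (f := fun x => (f x : ℂ))
    (g := fun x => (M x : ℂ) * (f (x + u x) : ℂ) - 1 * (f x : ℂ)) c1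
    ((c2.mul c3).sub (continuous_const.mul c1)) n
  rw [← h1]
  congr 1
  funext x
  push_cast
  ring

set_option linter.unusedVariables false in
/-- THE HIGH MODES, background-independent form.  The hypothesis `hlaw` is the coefficient `n` of
the law (for a leaf with `q ∣ n`). -/
theorem big_abs (ρ1 ρ ρ' A0 A1 : ℝ) (h0 : 0 < ρ') (h1 : ρ' < ρ) (h2 : ρ < ρ1)
    (hA0 : 0 < A0) (hA1 : 0 < A1) :
    ∃ (C : ℝ) (n0 : ℕ), 0 < C ∧ ∀ (ka la e0 e1 y1 y2 : ℝ → ℝ) (X Y : ℝ),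
      WR ρ1 2 A0 ka → WR ρ1 2 A0 la → WR ρ' 4 X e0 → WR ρ' 2 X e1 → WR ρ' 2 Y y1 →
      WR ρ' 2 Y y2 → ∀ (p q n P : ℕ) (L τ : ℝ → ℝ), PQ p q → n0 ≤ n → P = 1 ∨ P = 2 →
        n * p = P * q → Big ρ A1 p q L τ →
        fc (fun x => ((τ x * PhiA (ka (L x)) (la (L x)) (e0 (L x)) (e1 (L x)) (y1 (L x))
          (y2 (L x)) (τ x ^ 2) : ℝ) : ℂ)) (n:ℤ) = 0 →
        ‖rc e0 n + (((π * P / n) ^ 2 : ℝ) : ℂ) * rc e1 n‖ ≤
          (C / n * X + C / (n:ℝ) ^ 2 * Y) / ((1 + n) ^ 4 * Real.exp (ρ' * n)) := by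
  have hρ : 0 < ρ := h0.trans h1
  have hpi := Real.pi_pos
  set A : ℝ := A0 * (1 + 1 / (ρ1 - ρ)) with hAdef
  have hA : 0 < A := by
    have : 0 < ρ1 - ρ := by linarith
    positivity
  obtain ⟨Cm, ω1, hCm, hω1, hω11, hmnb⟩ := mnb A A1 hA hA1
  obtain ⟨C4, hC4, hi4⟩ := hi ρ ρ' 4 A1 Cm 1 h0 h1 (by norm_num) hA1.le hCm.le zero_le_one
  obtain ⟨C2, hC2, hi2⟩ := hi ρ ρ' 2 A1 Cm 1 h0 h1 (by norm_num) hA1.le hCm.le zero_le_one
  set C : ℝ := 8 * C4 + 128 * π ^ 2 * C2 + 12 * π ^ 4 * (64 + 512 * C2) with hC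
  refine ⟨C, max 4 (⌈2 / ω1⌉₊), by positivity, ?_⟩
  intro ka la e0 e1 y1 y2 X Y hka hla he0 he1 hy1 hy2 p q n P L τ hpq hn hP hnp hBig hlaw
  have hn4 : 4 ≤ n := (le_max_left _ _).trans hn
  have hnω : 2 / ω1 ≤ (n:ℝ) :=
    (Nat.le_ceil _).trans (by exact_mod_cast (le_max_right _ _).trans hn)
  have hn0 : (4:ℝ) ≤ n := by exact_mod_cast hn4
  have hq0 : 0 < q := by
    have := hpq.2.1
    omega
  have hqr : (0:ℝ) < q := by exact_mod_cast hq0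
  have hpqn : (p:ℝ) / q = P / n := by
    have h3 : (n:ℝ) * p = P * q := by exact_mod_cast hnp
    rw [div_eq_div_iff hqr.ne' (by linarith)]
    linarith
  have hn2 : n ≤ 2 * q := by
    have hp1 : 1 ≤ p := by rcases hpq.1 with h | h <;> omega
    calc n = n * 1 := (mul_one n).symm
      _ ≤ n * p := Nat.mul_le_mul_left n hp1
      _ = P * q := hnp
      _ ≤ 2 * q := Nat.mul_le_mul_right q (by rcases hP with h | h <;> omega)
  obtain ⟨η, hη1, hη2, hη3, hNu, hNV⟩ := hBig (3 * q ^ 2)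
  have hX : 0 ≤ X := ba_nonneg he0
  have hY : 0 ≤ Y := ba_nonneg hy1
  have hP1 : (1:ℝ) ≤ P := by rcases hP with h | h <;> rw [h] <;> norm_num
  have hP2 : (P:ℝ) ≤ 2 := by rcases hP with h | h <;> rw [h] <;> norm_num
  set ω : ℝ := (p:ℝ) / q with hω
  have hω0 : 0 < ω := by
    rw [hpqn]
    positivity
  have hωn : ω ≤ 2 / n := by
    rw [hpqn]
    gcongr
  have hωω1 : ω ≤ ω1 := by
    refine hωn.trans ?_
    rw [div_le_iff₀ (by linarith)]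
    rw [div_le_iff₀ hω1] at hnω
    linarith
  set u : ℝ → ℝ := fun x => L x - x with hu
  set Vf : ℝ → ℝ := fun x => τ x / (π * ω) with hVf
  set d : MD := ⟨ρ, 3 * q ^ 2, p, q, η, ka, la, u, Vf⟩ with hd
  have hok : d.Ok A A1 :=
    { hρ := hρ.le
      pq := hpq
      η1 := hη1
      η2 := hη3
      ka := wr_dec hka h2 hρ.le _
      la := wr_dec hla h2 hρ.le _
      u := hNu
      V := hNV }
  have hη : 0 < η := hok.η_pos
  have hdom : d.om = ω := rfl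
  obtain ⟨m0, m1, m2, m3⟩ := hmnb d hok (by rw [hdom]; exact hωω1)
  rw [hdom] at m0 m1 m2 m3
  have mcont : ∀ {M : ℝ → ℝ}, NB ρ (3 * q ^ 2) η (Cm * ω ^ 2) (fun x => ((M x - 1 : ℝ) : ℂ)) →
      Continuous M := by
    intro M hM
    have h3 := Complex.continuous_re.comp hM.continuous
    have h4 : M = fun x => (M x - 1) + 1 := by
      funext x
      ring
    rw [h4]
    refine Continuous.add ?_ continuous_const
    simpa [Function.comp_def] using h3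
  have huc : Continuous u := by
    have := Complex.continuous_re.comp hNu.continuous
    simpa [Function.comp_def] using this
  have c0 := mcont m0
  have c1 := mcont m1
  have c2 := mcont m2
  have c3 := mcont m3
  have f0 : Continuous e0 := ba_cont he0 (by norm_num) h0.le
  have f1 : Continuous e1 := ba_cont he1 (by norm_num) h0.le
  have f2 : Continuous y1 := ba_cont hy1 (by norm_num) h0.le
  have f3 : Continuous y2 := ba_cont hy2 (by norm_num) h0.le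
  have compc : ∀ {f : ℝ → ℝ}, Continuous f → Continuous fun x => f (x + u x) := fun hf =>
    hf.comp (continuous_id.add huc)
  -- the function whose orbit sums vanish
  set F : ℝ → ℝ := fun x => mul0 d x * e0 (x + u x) + (π * ω) ^ 2 * (mul1 d x * e1 (x + u x)) +
    8 * (π * ω) ^ 4 * (mul2 d x * y1 (x + u x)) -
    4 * (π * ω) ^ 4 * (mul3 d x * y2 (x + u x)) with hF
  have hFτ : ∀ x, F x = (1 / (π * ω)) * (τ x * PhiA (ka (L x)) (la (L x)) (e0 (L x)) (e1 (L x))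
      (y1 (L x)) (y2 (L x)) (τ x ^ 2)) := by
    intro x
    have hLx : x + u x = L x := by
      simp only [hu]
      ring
    have hVx : τ x = π * ω * Vf x := by
      simp only [hVf]
      field_simp
    simp only [hF, mul0, mul1, mul2, mul3, hdom]
    have hdV : d.V x = Vf x := rfl
    have hdu : d.u x = u x := rfl
    have hdk : d.ka = ka := rfl
    have hdl : d.la = la := rfl
    rw [hdV, hdu, hdk, hdl, hLx, hVx]
    unfold PhiA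
    field_simp
  have hzero : fc (fun x => (F x : ℂ)) (n:ℤ) = 0 := by
    have h3 := ba_cmul ((1 / (π * ω) : ℝ) : ℂ) (fun x => ((τ x * PhiA (ka (L x)) (la (L x))
      (e0 (L x)) (e1 (L x)) (y1 (L x)) (y2 (L x)) (τ x ^ 2) : ℝ) : ℂ)) (n:ℤ)
    rw [hlaw, mul_zero] at h3
    rw [← h3]
    congr 1
    funext x
    rw [hFτ x]
    push_cast
    ring
  have t0 := ba_term c0 huc f0 (n:ℤ)
  have t1 := ba_term c1 huc f1 (n:ℤ)
  have t2 := ba_term c2 huc f2 (n:ℤ)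
  have t3 := ba_term c3 huc f3 (n:ℤ)
  have hsplit : fc (fun x => (F x : ℂ)) (n:ℤ) =
      fc (fun x => ((mul0 d x * e0 (x + u x) : ℝ) : ℂ)) n +
      (((π * ω) ^ 2 : ℝ) : ℂ) * fc (fun x => ((mul1 d x * e1 (x + u x) : ℝ) : ℂ)) n +
      ((8 * (π * ω) ^ 4 : ℝ) : ℂ) * fc (fun x => ((mul2 d x * y1 (x + u x) : ℝ) : ℂ)) n +
      ((-(4 * (π * ω) ^ 4) : ℝ) : ℂ) * fc (fun x => ((mul3 d x * y2 (x + u x) : ℝ) : ℂ)) n := by
    have h3 := ba_four (G0 := fun x => mul0 d x * e0 (x + u x))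
      (G1 := fun x => mul1 d x * e1 (x + u x)) (G2 := fun x => mul2 d x * y1 (x + u x))
      (G3 := fun x => mul3 d x * y2 (x + u x)) (c0.mul (compc f0)) (c1.mul (compc f1))
      (c2.mul (compc f2)) (c3.mul (compc f3)) ((π * ω) ^ 2) (8 * (π * ω) ^ 4)
      (-(4 * (π * ω) ^ 4)) (n:ℤ)
    rw [← h3]
    congr 1
    funext x
    simp only [hF]
    congr 1
    ring
  rw [hzero, t0, t1, t2, t3] at hsplit
  -- the bounds of the four remainders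
  have hpq' : PQ p q := hpq
  have hnq : |((n:ℤ):ℝ)| ≤ 2 * q := by
    rw [Int.cast_natCast, abs_of_nonneg (by positivity)]
    exact_mod_cast hn2
  have rem : ∀ {M f : ℝ → ℝ} {b : ℕ} {Cb Z : ℝ},
      (∀ (p q : ℕ) (η X : ℝ) (m0 : ℂ) (a : ℤ → ℂ) (f M : ℝ → ℂ) (u : ℝ → ℝ)
        (n : ℤ), PQ p q → 0 < η → η ≤ 2 * etam ρ (3 * q ^ 2) p q → η ≤ 1 →
        (∀ k, ‖a k‖ ≤ X / W ρ' b k) → (∀ x, HasSum (fun k => a k * e k x) (f x)) →
        NB ρ (3 * q ^ 2) η (A1 * ((p:ℝ) / q) ^ 2) (fun x => (u x : ℂ)) →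
        NB ρ (3 * q ^ 2) η (Cm * ((p:ℝ) / q) ^ 2) (fun x => M x - m0) → ‖m0‖ ≤ 1 →
        |(n:ℝ)| ≤ 2 * q →
        ‖fc (fun x => M x * f (x + u x) - m0 * f x) n‖ ≤
          Cb * X * ((p:ℝ) / q) ^ 2 * (1 + |(n:ℝ)|) / W ρ' b n) →
      NB ρ (3 * q ^ 2) η (Cm * ω ^ 2) (fun x => ((M x - 1 : ℝ) : ℂ)) → WR ρ' b Z f →
      ‖fc (fun x => (M x : ℂ) * (f (x + u x) : ℂ) - 1 * (f x : ℂ)) n‖ ≤
        Cb * Z * ω ^ 2 * (1 + n) / ((1 + n) ^ b * Real.exp (ρ' * n)) := by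
    intro M f b Cb Z hh hM hf
    obtain ⟨a, ha, hs⟩ := hf
    have h3 := hh p q η Z 1 a (fun x => (f x : ℂ)) (fun x => (M x : ℂ)) u n hpq' hη hη2 hη3
      ha hs hNu (by simpa using hM) (by simp) hnq
    have h4 : W ρ' b (n:ℤ) = (1 + (n:ℝ)) ^ b * Real.exp (ρ' * n) := by
      unfold W
      rw [Int.cast_natCast, abs_of_nonneg (by positivity : (0:ℝ) ≤ n)]
    rw [h4, Int.cast_natCast, abs_of_nonneg (by positivity : (0:ℝ) ≤ n)] at h3
    exact h3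
  have r0 := rem hi4 m0 he0
  have r1 := rem hi2 m1 he1
  have r2 := rem hi2 m2 hy1
  have r3 := rem hi2 m3 hy2
  have s2 := ba_rc_le hy1 (by norm_num) h0.le (n:ℤ)
  have s3 := ba_rc_le hy2 (by norm_num) h0.le (n:ℤ)
  rw [Int.cast_natCast, abs_of_nonneg (by positivity : (0:ℝ) ≤ n)] at s2 s3
  have hPω : π * P / n = π * ω := by
    rw [hpqn]
    ring
  rw [hPω]
  set E : ℝ := Real.exp (ρ' * n) with hE
  have hE0 : 0 < E := Real.exp_pos _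
  set R0 := fc (fun x => (mul0 d x : ℂ) * (e0 (x + u x) : ℂ) - 1 * (e0 x : ℂ)) n
  set R1 := fc (fun x => (mul1 d x : ℂ) * (e1 (x + u x) : ℂ) - 1 * (e1 x : ℂ)) n
  set R2 := fc (fun x => (mul2 d x : ℂ) * (y1 (x + u x) : ℂ) - 1 * (y1 x : ℂ)) n
  set R3 := fc (fun x => (mul3 d x : ℂ) * (y2 (x + u x) : ℂ) - 1 * (y2 x : ℂ)) n
  have hmain : rc e0 n + (((π * ω) ^ 2 : ℝ) : ℂ) * rc e1 n =
      -(R0 + (((π * ω) ^ 2 : ℝ) : ℂ) * R1 + ((8 * (π * ω) ^ 4 : ℝ) : ℂ) * (rc y1 n + R2) +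
      ((-(4 * (π * ω) ^ 4) : ℝ) : ℂ) * (rc y2 n + R3)) := by
    linear_combination -hsplit
  rw [hmain, norm_neg]
  have hn' : (1:ℝ) + n ≤ 2 * n := by linarith
  have hnpos : (0:ℝ) < n := by linarith
  have hω2 : ω ^ 2 ≤ 4 / (n:ℝ) ^ 2 := by
    calc ω ^ 2 ≤ (2 / n) ^ 2 := by gcongr
      _ = 4 / (n:ℝ) ^ 2 := by ring
  have hω4 : ω ^ 4 ≤ 16 / (n:ℝ) ^ 4 := by
    calc ω ^ 4 ≤ (2 / n) ^ 4 := by gcongr
      _ = 16 / (n:ℝ) ^ 4 := by ring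
  have hω2n : ω ^ 2 * (1 + (n:ℝ)) ≤ 8 / (n:ℝ) := by
    calc ω ^ 2 * (1 + (n:ℝ)) ≤ 4 / (n:ℝ) ^ 2 * (2 * n) := by gcongr
      _ = 8 / (n:ℝ) := by field_simp; ring
  have hω4n : ω ^ 4 * (1 + (n:ℝ)) ^ 2 ≤ 64 / (n:ℝ) ^ 2 := by
    calc ω ^ 4 * (1 + (n:ℝ)) ^ 2 ≤ 16 / (n:ℝ) ^ 4 * (2 * n) ^ 2 := by gcongr
      _ = 64 / (n:ℝ) ^ 2 := by field_simp; ring
  have hnn : 8 / (n:ℝ) ≤ 8 := by
    rw [div_le_iff₀ hnpos]
    linarith
  have hW : 0 < (1 + (n:ℝ)) ^ 4 * E := by positivity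
  have b0 : ‖R0‖ ≤ 8 * C4 * X / n / ((1 + n) ^ 4 * E) := by
    refine r0.trans ?_
    gcongr
    calc C4 * X * ω ^ 2 * (1 + n) = C4 * X * (ω ^ 2 * (1 + n)) := by ring
      _ ≤ C4 * X * (8 / n) := by gcongr
      _ = 8 * C4 * X / n := by ring
  have b1 : ‖(((π * ω) ^ 2 : ℝ) : ℂ) * R1‖ ≤ 128 * π ^ 2 * C2 * X / n / ((1 + n) ^ 4 * E) := by
    rw [norm_mul, Complex.norm_real, Real.norm_eq_abs, abs_of_nonneg (by positivity)]
    calc (π * ω) ^ 2 * ‖R1‖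
        ≤ (π * ω) ^ 2 * (C2 * X * ω ^ 2 * (1 + n) / ((1 + n) ^ 2 * E)) := by gcongr
      _ = π ^ 2 * C2 * X * (ω ^ 4 * (1 + n) ^ 2 * (1 + n)) / ((1 + n) ^ 4 * E) := by
          field_simp
      _ ≤ π ^ 2 * C2 * X * (64 / (n:ℝ) ^ 2 * (2 * n)) / ((1 + n) ^ 4 * E) := by gcongr
      _ = 128 * π ^ 2 * C2 * X / n / ((1 + n) ^ 4 * E) := by
          field_simp
          ring
  have b23 : ∀ (z R : ℂ) (c : ℝ), |c| ≤ 8 → ‖z‖ ≤ Y / ((1 + (n:ℝ)) ^ 2 * E) →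
      ‖R‖ ≤ C2 * Y * ω ^ 2 * (1 + n) / ((1 + n) ^ 2 * E) →
      ‖((c * (π * ω) ^ 4 : ℝ) : ℂ) * (z + R)‖ ≤
        |c| * π ^ 4 * (64 + 512 * C2) * Y / (n:ℝ) ^ 2 / ((1 + n) ^ 4 * E) := by
    intro z R c hc hz hR
    rw [norm_mul, Complex.norm_real, Real.norm_eq_abs, abs_mul,
      abs_of_nonneg (by positivity : 0 ≤ (π * ω) ^ 4)]
    have h3 : ‖z + R‖ ≤ (1 + 8 * C2) * Y / ((1 + (n:ℝ)) ^ 2 * E) := by
      refine (norm_add_le _ _).trans ((add_le_add hz hR).trans ?_)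
      rw [← add_div]
      gcongr
      have : C2 * Y * ω ^ 2 * (1 + n) ≤ C2 * Y * 8 := by
        calc C2 * Y * ω ^ 2 * (1 + n) = C2 * Y * (ω ^ 2 * (1 + n)) := by ring
          _ ≤ C2 * Y * 8 := by
            gcongr
            exact hω2n.trans hnn
      linarith
    calc |c| * (π * ω) ^ 4 * ‖z + R‖
        ≤ |c| * (π * ω) ^ 4 * ((1 + 8 * C2) * Y / ((1 + (n:ℝ)) ^ 2 * E)) := by gcongr
      _ = |c| * π ^ 4 * (1 + 8 * C2) * Y * (ω ^ 4 * (1 + (n:ℝ)) ^ 2) / ((1 + n) ^ 4 * E) := by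
          field_simp
      _ ≤ |c| * π ^ 4 * (1 + 8 * C2) * Y * (64 / (n:ℝ) ^ 2) / ((1 + n) ^ 4 * E) := by gcongr
      _ = _ := by ring
  have b2 := b23 (rc y1 n) R2 8 (by norm_num) s2 r2
  have b3 := b23 (rc y2 n) R3 (-4) (by norm_num) s3 r3
  have e3 : -4 * (π * ω) ^ 4 = -(4 * (π * ω) ^ 4) := by ring
  rw [e3] at b3
  rw [abs_of_pos (by norm_num : (0:ℝ) < 8)] at b2
  rw [abs_of_neg (by norm_num : (-4:ℝ) < 0)] at b3
  refine (norm_add_le _ _).trans ((add_le_add ((norm_add_le _ _).trans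
    (add_le_add ((norm_add_le _ _).trans (add_le_add b0 b1)) b2)) b3).trans ?_)
  rw [← add_div, ← add_div, ← add_div]
  have h5 : 0 ≤ X / n := by positivity
  have h6 : 0 ≤ Y / (n:ℝ) ^ 2 := by positivity
  have h7 : 8 * C4 + 128 * π ^ 2 * C2 ≤ C := by
    rw [hC]
    have : 0 ≤ 12 * π ^ 4 * (64 + 512 * C2) := by positivity
    linarith
  have h8 : 12 * π ^ 4 * (64 + 512 * C2) ≤ C := by
    rw [hC]
    have : 0 ≤ 8 * C4 + 128 * π ^ 2 * C2 := by positivity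
    linarith
  refine div_le_div_of_nonneg_right ?_ hW.le
  calc 8 * C4 * X / n + 128 * π ^ 2 * C2 * X / n + 8 * π ^ 4 * (64 + 512 * C2) * Y / (n:ℝ) ^ 2 +
        - -4 * π ^ 4 * (64 + 512 * C2) * Y / (n:ℝ) ^ 2
      = (8 * C4 + 128 * π ^ 2 * C2) * (X / n) +
        12 * π ^ 4 * (64 + 512 * C2) * (Y / (n:ℝ) ^ 2) := by ring
    _ ≤ C * (X / n) + C * (Y / (n:ℝ) ^ 2) :=
        add_le_add (mul_le_mul_of_nonneg_right h7 h5) (mul_le_mul_of_nonneg_right h8 h6)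
    _ = C / n * X + C / (n:ℝ) ^ 2 * Y := by ring

end Pool.Agent.MP_ae5b4e_an_NC
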