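import Mathlib
import Pool.Agent.Lib.MP_ae5b4e_an_NC.BigA
import Pool.Agent.Lib.MP_ae5b4e_an_NC.Tel

/-!
# MP_ae5b4e_an, project NC: the estimate of the high modes, for jets

Text: `/team-store/POR_NC_h73.md`, (5.3).
-/

noncomputable section

namespace Pool.Agent.MP_ae5b4e_an_NC

open Real Set Filter Topology MeasureTheory intervalIntegral
open Pool.Agent.MP_ae5b4e_an_RG

lemma aDD_ne {ka la t S : ℝ} (hk : |ka| ≤ S) (hl : |la| ≤ S) (ht : 0 ≤ t)
    (h : (S + S ^ 2) * t ≤ 1 / 8) : 0 < aDD ka la t := by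
  unfold aDD
  have hS : 0 ≤ S := (abs_nonneg _).trans hk
  have h1 : ka ^ 2 ≤ S ^ 2 := by
    rw [← sq_abs]
    gcongr
  have h2 := abs_le.1 hl
  have h3 : -(1 / 8) ≤ (la - ka ^ 2) * t := by
    have : -(S + S ^ 2) * t ≤ (la - ka ^ 2) * t :=
      mul_le_mul_of_nonneg_right (by linarith) ht
    linarith
  have h4 : 0 ≤ (la + ka ^ 2) ^ 2 * t ^ 2 := by positivity
  linarith

private lemma near_cont' {ρ ε : ℝ} (hρ : 0 ≤ ρ) {J : ℝ → Jet} (h : Near ρ ε J) :
    (Continuous fun x => (J x).w) ∧ (Continuous fun x => (J x).z) ∧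
      (Continuous fun x => (J x).w1) ∧ (Continuous fun x => (J x).z1) := by
  have wb : ∀ {B : ℝ} {f : ℝ → ℂ}, WB ρ 2 B f → Continuous f := by
    intro B f hf
    obtain ⟨a, ha, hs⟩ := hf
    have hB : 0 ≤ B := by
      have h1 := (norm_nonneg _).trans (ha 0)
      simpa using h1
    have h1 : Bd ρ 0 B f := by
      refine ⟨a, fun k => (ha k).trans (div_le_div_of_nonneg_left hB (V_pos ρ 0 2 k) ?_), hs⟩
      unfold V MP_ae5b4e_an_RG.w
      exact mul_le_mul_of_nonneg_left (Real.exp_le_exp.2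
        (mul_le_mul_of_nonneg_left (min_le_left _ _) hρ)) (by positivity)
    exact h1.continuous hρ
  refine ⟨?_, ?_, ?_, ?_⟩
  · have h1 := (wb h.w).add (continuous_e 1)
    have h2 : (fun x => (J x).w) = fun x => ((J x).w - e 1 x) + e 1 x := by
      funext x
      ring
    rw [h2]
    exact h1
  · have h1 := (Complex.continuous_re.comp (wb h.z)).add (continuous_const (y := (1:ℝ)))
    have h2 : (fun x => (J x).z) = fun x => (((J x).z - 1 : ℝ) : ℂ).re + 1 := by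
      funext x
      rw [Complex.ofReal_re]
      ring
    rw [h2]
    exact h1
  · have h1 := (wb h.w1).add (continuous_const.mul (continuous_e 1) :
      Continuous fun x => Complex.I * e 1 x)
    have h2 : (fun x => (J x).w1) = fun x => ((J x).w1 - Complex.I * e 1 x) + Complex.I * e 1 x := by
      funext x
      ring
    rw [h2]
    exact h1
  · have h1 := Complex.continuous_re.comp (wb h.z1)
    have h2 : (fun x => (J x).z1) = fun x => (((J x).z1 : ℝ) : ℂ).re := by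
      funext x
      rw [Complex.ofReal_re]
    rw [h2]
    exact h1

private lemma near_perd' {ρ ε : ℝ} (hρ : 0 ≤ ρ) {J : ℝ → Jet} (h : Near ρ ε J) (x : ℝ) :
    J (x + 1) = J x := by
  have wb : ∀ {B : ℝ} {f : ℝ → ℂ}, WB ρ 2 B f → f (x + 1) = f x := by
    intro B f hf
    obtain ⟨a, ha, hs⟩ := hf
    have hB : 0 ≤ B := by
      have h1 := (norm_nonneg _).trans (ha 0)
      simpa using h1
    have h1 : Bd ρ 0 B f := by
      refine ⟨a, fun k => (ha k).trans (div_le_div_of_nonneg_left hB (V_pos ρ 0 2 k) ?_), hs⟩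
      unfold V MP_ae5b4e_an_RG.w
      exact mul_le_mul_of_nonneg_left (Real.exp_le_exp.2
        (mul_le_mul_of_nonneg_left (min_le_left _ _) hρ)) (by positivity)
    exact h1.periodic x
  have h1 := wb h.w
  have h2 := wb h.z
  have h3 := wb h.w1
  have h4 := wb h.z1
  have h5 : e 1 (x + 1) = e 1 x := periodic_e 1 x
  simp only [h5, Complex.ofReal_inj] at h1 h2 h3 h4
  refine Jet.ext ?_ ?_ ?_ ?_
  · exact sub_left_injective h1
  · exact sub_left_injective h2
  · exact sub_left_injective h3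
  · exact h4

set_option linter.unusedVariables false in
/-- THE HIGH MODES, for jets with bounded `ka`, `la`. -/
theorem big_jet {ρ' ρ ρ1 : ℝ} (h0 : 0 < ρ') (h1 : ρ' < ρ) (h2 : ρ < ρ1) {A0 A1 : ℝ}
    (hA0 : 0 < A0) (hA1 : 0 < A1) :
    ∃ (C : ℝ) (n0 : ℕ), 0 < C ∧ ∀ (p q n P : ℕ) (J : ℝ → Jet) (θ : Par) (L τ : ℝ → ℝ)
      (ε X Y : ℝ), PQ p q → n0 ≤ n → P = 1 ∨ P = 2 → n * p = P * q → Near ρ1 ε J →
      (∀ x, (J x).al θ ≠ 0) → WR ρ1 2 A0 (fun x => (J x).ka θ) →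
      WR ρ1 2 A0 (fun x => (J x).la θ) → Lw J p q L τ → Big ρ A1 p q L τ →
      XB ρ' X J θ → YB ρ' Y J θ →
      ‖rc (fun x => (J x).e0 θ) n + (((π * P / n) ^ 2 : ℝ) : ℂ) * rc (fun x => (J x).e1 θ) n‖ ≤
        (C / n * X + C / (n:ℝ) ^ 2 * Y) / ((1 + n) ^ 4 * Real.exp (ρ' * n)) := by
  obtain ⟨C, n0, hC, hbig⟩ := big_abs ρ1 ρ ρ' A0 A1 h0 h1 h2 hA0 hA1
  have hρ : 0 < ρ := h0.trans h1
  have hρ1 : 0 < ρ1 := hρ.trans h2
  have hpi := Real.pi_pos
  set S : ℝ := 3 * A0 with hS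
  refine ⟨C, max n0 (max 4 (max (⌈4 * A1⌉₊) (⌈128 * π ^ 2 * (S + S ^ 2)⌉₊))), hC, ?_⟩
  intro p q n P J θ L τ ε X Y hpq hn hP hnp hJ hal hka hla hLw hBig hX hY
  have hn0 : n0 ≤ n := (le_max_left _ _).trans hn
  have hn' := (le_max_right _ _).trans hn
  have hn4 : 4 ≤ n := (le_max_left _ _).trans hn'
  have hn4r : (4:ℝ) ≤ n := by exact_mod_cast hn4
  have hnpos : (0:ℝ) < n := by linarith
  have hnA : 4 * A1 ≤ (n:ℝ) := (Nat.le_ceil _).trans (by
    exact_mod_cast ((le_max_left _ _).trans (le_max_right _ _)).trans hn')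
  have hnS : 128 * π ^ 2 * (S + S ^ 2) ≤ (n:ℝ) := (Nat.le_ceil _).trans (by
    exact_mod_cast ((le_max_right _ _).trans (le_max_right _ _)).trans hn')
  have hq0 : 0 < q := by
    have := hpq.2.1
    omega
  have hqr : (0:ℝ) < q := by exact_mod_cast hq0
  have hp0 : 0 < p := by rcases hpq.1 with h | h <;> omega
  have hpr : (0:ℝ) < p := by exact_mod_cast hp0
  have hpqn : (p:ℝ) / q = P / n := by
    have h3 : (n:ℝ) * p = P * q := by exact_mod_cast hnp
    rw [div_eq_div_iff hqr.ne' hnpos.ne']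
    linarith
  have hqn : (q:ℤ) ∣ (n:ℤ) := by
    have h3 : q ∣ n * p := ⟨P, by rw [hnp, mul_comm]⟩
    have h4 : q ∣ n := (Nat.Coprime.dvd_mul_right (Nat.Coprime.symm hpq.2.2)).1 h3
    exact_mod_cast h4
  have hP1 : (1:ℝ) ≤ P := by rcases hP with h | h <;> rw [h] <;> norm_num
  have hP2 : (P:ℝ) ≤ 2 := by rcases hP with h | h <;> rw [h] <;> norm_num
  have hω0 : 0 < (p:ℝ) / q := by positivity
  have hωn : (p:ℝ) / q ≤ 2 / n := by
    rw [hpqn]
    gcongr
  obtain ⟨c1, c2, c3, c4⟩ := near_cont' hρ1.le hJ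
  -- the sizes
  have supk : ∀ x, |(J x).ka θ| ≤ S := fun x => by
    have h3 := (wr_bd hka le_rfl hρ1.le).sup hρ1.le x
    rwa [Complex.norm_real, Real.norm_eq_abs] at h3
  have supl : ∀ x, |(J x).la θ| ≤ S := fun x => by
    have h3 := (wr_bd hla le_rfl hρ1.le).sup hρ1.le x
    rwa [Complex.norm_real, Real.norm_eq_abs] at h3
  obtain ⟨η, hη1, hη2, hη3, hNu, hNV⟩ := hBig 0
  have hη : 0 < η := by
    refine lt_of_lt_of_le ?_ hη1
    unfold etam
    positivity
  have ht : ∀ x, τ x ^ 2 ≤ 16 * π ^ 2 / n := by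
    intro x
    have h3 := hNV.sup hρ.le hη hη3 x
    rw [Complex.norm_real, Real.norm_eq_abs] at h3
    have h4 : A1 * ((p:ℝ) / q) ^ 2 ≤ 1 := by
      calc A1 * ((p:ℝ) / q) ^ 2 ≤ A1 * (2 / n) ^ 2 := by gcongr
        _ = (4 * A1) / n / n := by ring
        _ ≤ 1 / 1 := by
          refine div_le_div₀ zero_le_one ?_ one_pos (by linarith)
          rw [div_le_iff₀ hnpos]
          linarith
        _ = 1 := by norm_num
    have h5 : |τ x / (π * ((p:ℝ) / q))| ≤ 2 := by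
      have h6 := abs_le.1 (h3.trans h4)
      rw [abs_le]
      constructor <;> linarith [h6.1, h6.2]
    have h6 : |τ x| ≤ 2 * (π * ((p:ℝ) / q)) := by
      rw [abs_div, abs_of_pos (by positivity : 0 < π * ((p:ℝ) / q)),
        div_le_iff₀ (by positivity)] at h5
      exact h5
    have h7 : |τ x| ≤ 4 * π / n := by
      refine h6.trans ?_
      calc 2 * (π * ((p:ℝ) / q)) ≤ 2 * (π * (2 / n)) := by gcongr
        _ = 4 * π / n := by ring
    calc τ x ^ 2 = |τ x| ^ 2 := (sq_abs _).symm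
      _ ≤ (4 * π / n) ^ 2 := by gcongr
      _ = 16 * π ^ 2 / n / n := by ring
      _ ≤ 16 * π ^ 2 / n := div_le_self (by positivity) (by linarith)
  have hDD : ∀ x, (J (L x)).DD θ (τ x ^ 2) ≠ 0 := by
    intro x
    have h3 : (J (L x)).DD θ (τ x ^ 2) =
        aDD ((J (L x)).ka θ) ((J (L x)).la θ) (τ x ^ 2) := by
      unfold Jet.DD aDD Jet.mu
      rfl
    rw [h3]
    refine (aDD_ne (supk _) (supl _) (sq_nonneg _) ?_).ne'
    have hS0 : 0 < S := by positivity
    calc (S + S ^ 2) * τ x ^ 2 ≤ (S + S ^ 2) * (16 * π ^ 2 / n) := by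
          gcongr
          exact ht x
      _ = (128 * π ^ 2 * (S + S ^ 2)) / n / 8 := by ring
      _ ≤ 1 / 8 := by
          gcongr
          rw [div_le_iff₀ hnpos]
          linarith
  have hlaw := hLw.fc_zero hq0 (near_perd' hρ1.le hJ) c1 c2 c3 c4 hal hDD hqn
  exact hbig (fun x => (J x).ka θ) (fun x => (J x).la θ) (fun x => (J x).e0 θ)
    (fun x => (J x).e1 θ) (fun x => (J x).y1 θ) (fun x => (J x).y2 θ) X Y hka hla hX.1 hX.2 hY.1
    hY.2 p q n P L τ hpq hn0 hP hnp hBig hlaw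

end Pool.Agent.MP_ae5b4e_an_NC
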