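import Mathlib
import Pool.Agent.Lib.MP_ae5b4e_an_RG.Bda
import Pool.Agent.Lib.MP_ae5b4e_an_NC.Def

/-!
# MP_ae5b4e_an, project NC: `e0` is the derivative of `Psi` along the curve

Text: `/team-store/POR_NC_h73.md`, (E).
-/

noncomputable section

namespace Pool.Agent.MP_ae5b4e_an_NC

open Real Set Filter Topology MeasureTheory intervalIntegral
open Pool.Agent.MP_ae5b4e_an_hopf
open Pool.Agent.MP_ae5b4e_an_RG

private lemma hre {f : ℝ → ℂ} {f' : ℂ} {x : ℝ} (h : HasDerivAt f f' x) :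
    HasDerivAt (fun x => (f x).re) f'.re x :=
  Complex.reCLM.hasFDerivAt.comp_hasDerivAt x h

private lemma hconj {f : ℝ → ℂ} {f' : ℂ} {x : ℝ} (h : HasDerivAt f f' x) :
    HasDerivAt (fun x => (starRingEnd ℂ) (f x)) ((starRingEnd ℂ) f') x :=
  Complex.conjCLE.toContinuousLinearMap.hasFDerivAt.comp_hasDerivAt x h

/-- (E) of the text. -/
theorem hasDerivAt_Psi {θ : Par} {J : ℝ → Jet} {x : ℝ} (hal : (J x).al θ ≠ 0)
    (dw : HasDerivAt (fun x => (J x).w) (2 * π * (J x).w1) x)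
    (dz : HasDerivAt (fun x => (J x).z) (2 * π * (J x).z1) x) :
    HasDerivAt (fun x => Psi θ (J x).w (J x).z) (2 * π * (J x).e0 θ) x := by
  have dzc : HasDerivAt (fun x => ((J x).z : ℂ)) ((2 * π * (J x).z1 : ℝ) : ℂ) x := dz.ofReal_comp
  -- the three forms
  have h1 : HasDerivAt (fun x => Q1 (J x).w (J x).z)
      (2 * π * (2 * ((starRingEnd ℂ) (J x).w * (J x).w1).re - 2 * ((J x).z * (J x).z1))) x := by
    have k1 := hre ((hconj dw).mul dw)
    have k2 := dz.mul dz
    have k3 := k1.sub k2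
    have e1 : (fun x => Q1 (J x).w (J x).z) =
        (fun x => ((starRingEnd ℂ) (J x).w * (J x).w).re) - fun x => (J x).z * (J x).z := by
      funext y
      unfold Q1
      simp only [Pi.sub_apply, Complex.normSq_apply, Complex.mul_re, Complex.conj_re,
        Complex.conj_im]
      ring
    rw [e1]
    refine k3.congr_deriv ?_
    simp only [map_mul, Complex.conj_ofReal, map_ofNat, Complex.add_re, Complex.mul_re,
      Complex.mul_im, Complex.conj_re, Complex.conj_im, Complex.ofReal_re, Complex.ofReal_im,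
      Complex.re_ofNat, Complex.im_ofNat]
    ring
  have h2 : HasDerivAt (fun x => Q2 θ (J x).w (J x).z) (2 * π * (J x).al1 θ) x := by
    have k1 := hre (((dw.pow 2)).const_mul θ.q)
    have k2 := dz.pow 2
    have k3 := k2.add k1
    refine k3.congr_deriv ?_
    unfold Jet.al1
    have e1 : θ.q * (((2:ℕ) : ℂ) * (J x).w ^ (2 - 1) * (2 * π * (J x).w1)) =
        ((4 * π : ℝ) : ℂ) * (θ.q * ((J x).w * (J x).w1)) := by
      push_cast
      ring
    rw [e1, Complex.re_ofReal_mul]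
    push_cast
    ring
  have h3 : HasDerivAt (fun x => G θ (J x).w (J x).z)
      (2 * π * ((J x).g1 θ + 4 * (J x).ka θ * (J x).g0 θ)) x := by
    have k1 := (((dw.pow 3).mul dzc).const_mul θ.c3).add ((dw.pow 4).const_mul θ.c4)
    have k2 := hre k1
    refine k2.congr_deriv ?_
    have e1 : θ.c3 * (((3:ℕ) : ℂ) * (J x).w ^ (3 - 1) * (2 * π * (J x).w1) * ((J x).z : ℂ) +
        (J x).w ^ 3 * ((2 * π * (J x).z1 : ℝ) : ℂ)) +
        θ.c4 * (((4:ℕ) : ℂ) * (J x).w ^ (4 - 1) * (2 * π * (J x).w1)) =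
        ((2 * π : ℝ) : ℂ) * ((θ.c3 * (3 * ((J x).w ^ 2 * (J x).wT θ * (J x).z) +
          (J x).w ^ 3 * (J x).zT θ) + θ.c4 * (4 * ((J x).w ^ 3 * (J x).wT θ))) +
          ((4 * (J x).ka θ : ℝ) : ℂ) *
            (θ.c3 * ((J x).w ^ 3 * (J x).z) + θ.c4 * (J x).w ^ 4)) := by
      unfold Jet.wT Jet.zT
      push_cast
      ring
    refine (congrArg Complex.re e1).trans ?_
    rw [Complex.re_ofReal_mul, Complex.add_re, Complex.re_ofReal_mul]
    rfl
  have hal' : Q2 θ (J x).w (J x).z ≠ 0 := hal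
  have hal2 : Q2 θ (J x).w (J x).z ^ 2 ≠ 0 := pow_ne_zero 2 hal'
  have k := (h1.div h2 hal').add (h3.div (h2.pow 2) hal2)
  have e1 : (fun x => Psi θ (J x).w (J x).z) =
      ((fun x => Q1 (J x).w (J x).z) / fun x => Q2 θ (J x).w (J x).z) +
      ((fun x => G θ (J x).w (J x).z) / (fun x => Q2 θ (J x).w (J x).z) ^ 2) := by
    funext y
    rfl
  rw [e1]
  refine k.congr_deriv ?_
  have hb : (J x).b1 θ = 2 * ((starRingEnd ℂ) (J x).w * (J x).w1).re - 2 * ((J x).z * (J x).z1) -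
      2 * (J x).ka θ * Q1 (J x).w (J x).z := by
    unfold Jet.b1 Jet.wT Jet.zT Q1
    rw [mul_sub, Complex.sub_re]
    have e2 : (starRingEnd ℂ) (J x).w * (((J x).ka θ : ℂ) * (J x).w) =
        (((J x).ka θ * Complex.normSq (J x).w : ℝ) : ℂ) := by
      push_cast
      rw [Complex.normSq_eq_conj_mul_self]
      ring
    rw [e2, Complex.ofReal_re]
    ring
  have hka : (J x).al1 θ = 2 * (J x).al θ * (J x).ka θ := by
    unfold Jet.ka
    field_simp
  have e3 : Q2 θ (J x).w (J x).z = (J x).al θ := rfl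
  have e4 : G θ (J x).w (J x).z = (J x).g0 θ := rfl
  unfold Jet.e0
  simp only [Pi.pow_apply]
  rw [hb, hka, e3, e4]
  field_simp
  push_cast
  ring

/-- the zeroth Fourier coefficient of `e0` -/
theorem rc_e0_zero {θ : Par} {J : ℝ → Jet} (hper : Function.Periodic J 1)
    (hal : ∀ x, (J x).al θ ≠ 0)
    (dw : ∀ x, HasDerivAt (fun x => (J x).w) (2 * π * (J x).w1) x)
    (dz : ∀ x, HasDerivAt (fun x => (J x).z) (2 * π * (J x).z1) x)
    (hc : Continuous fun x => (J x).e0 θ) :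
    rc (fun x => (J x).e0 θ) 0 = 0 := by
  have h1 : ∫ x in (0:ℝ)..1, 2 * π * (J x).e0 θ = 0 := by
    rw [intervalIntegral.integral_eq_sub_of_hasDerivAt
      (fun x _ => hasDerivAt_Psi (hal x) (dw x) (dz x))
      ((continuous_const.mul hc).intervalIntegrable 0 1)]
    have h2 : J 1 = J 0 := by
      have := hper 0
      rwa [zero_add] at this
    rw [h2, sub_self]
  rw [intervalIntegral.integral_const_mul] at h1
  have h3 := (mul_eq_zero.1 h1).resolve_left (by positivity)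
  unfold rc fc
  have h4 : ∀ x : ℝ, (((J x).e0 θ : ℝ) : ℂ) * e (-0) x = (((J x).e0 θ : ℝ) : ℂ) := by
    intro x
    rw [neg_zero, e_zero, mul_one]
  simp only [h4]
  rw [intervalIntegral.integral_ofReal, h3, Complex.ofReal_zero]

end Pool.Agent.MP_ae5b4e_an_NC
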