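import Mathlib
import Pool.Agent.Lib.MP_ae5b4e_an_NC.Mid
import Pool.Agent.Lib.MP_ae5b4e_an_NC.Mix

/-!
# MP_ae5b4e_an, project NC: finitely many modes of the defects, and the closing of the estimate

Text: `/team-store/POR_NC_h73.md`, (5.4), (5.5).
-/

noncomputable section

namespace Pool.Agent.MP_ae5b4e_an_NC

open Real Set Filter Topology MeasureTheory intervalIntegral
open Pool.Agent.MP_ae5b4e_an_hopf
open Pool.Agent.MP_ae5b4e_an_RG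

lemma W_neg (ρ : ℝ) (b : ℕ) (k : ℤ) : W ρ b (-k) = W ρ b k := by
  unfold W
  push_cast
  rw [abs_neg]

private lemma wb_nonneg {ρ : ℝ} {b : ℕ} {B : ℝ} {f : ℝ → ℂ} (h : WB ρ b B f) : 0 ≤ B := by
  obtain ⟨a, ha, -⟩ := h
  have h1 := (norm_nonneg (a 0)).trans (ha 0)
  by_contra hM
  rw [not_le] at hM
  have := div_neg_of_neg_of_pos hM (W_pos ρ b 0)
  unfold W at this
  linarith

private lemma wb_bd {ρ : ℝ} (hρ : 0 ≤ ρ) {b : ℕ} (hb : 2 ≤ b) {B : ℝ} {f : ℝ → ℂ}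
    (h : WB ρ b B f) : Bd 0 0 B f := by
  have hB := wb_nonneg h
  obtain ⟨a, ha, hs⟩ := h
  refine ⟨a, fun k => (ha k).trans ?_, hs⟩
  apply div_le_div_of_nonneg_left hB (V_pos 0 0 2 k)
  unfold V w
  have h1 : (1:ℝ) ≤ 1 + |(k:ℝ)| := by linarith [abs_nonneg (k:ℝ)]
  apply mul_le_mul (pow_le_pow_right₀ h1 hb) _ (by positivity) (by positivity)
  apply Real.exp_le_exp.mpr
  rw [zero_mul]
  positivity

/-- the bound of the coefficients -/
lemma wb_coeff {ρ : ℝ} (hρ : 0 ≤ ρ) {b : ℕ} (hb : 2 ≤ b) {B : ℝ} {f : ℝ → ℂ}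
    (h : WB ρ b B f) (k : ℤ) : ‖fc f k‖ ≤ B / W ρ b k := by
  have hbd := wb_bd hρ hb h
  obtain ⟨a, ha, hs⟩ := h
  have h1 : fc f k = a k := by
    have h2 : Summable fun k => ‖a k‖ := by
      have hB := hbd.nonneg
      refine Bd.summable (ρ := 0) (N := 0) le_rfl hB fun k => (ha k).trans ?_
      apply div_le_div_of_nonneg_left hB (V_pos 0 0 2 k)
      unfold V w
      have h1 : (1:ℝ) ≤ 1 + |(k:ℝ)| := by linarith [abs_nonneg (k:ℝ)]
      apply mul_le_mul (pow_le_pow_right₀ h1 hb) _ (by positivity) (by positivity)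
      apply Real.exp_le_exp.mpr
      rw [zero_mul]
      positivity
    exact fc_of_hasSum h2 hs k
  rw [h1]
  exact ha k

/-- better bounds of the coefficients -/
lemma wb_of_coeff {ρ ρ' : ℝ} (hρ : 0 ≤ ρ) {b b' : ℕ} (hb : 2 ≤ b) {B B' : ℝ} {f : ℝ → ℂ}
    (h : WB ρ b B f) (hc : ∀ k, ‖fc f k‖ ≤ B' / W ρ' b' k) : WB ρ' b' B' f :=
  ⟨fc f, hc, fun x => (wb_bd hρ hb h).hasSum_fc le_rfl x⟩

lemma rc_neg_norm (f : ℝ → ℝ) (k : ℤ) : ‖rc f (-k)‖ = ‖rc f k‖ := by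
  have h1 : rc f (-k) = (starRingEnd ℂ) (rc f k) := by
    unfold rc fc
    rw [← intervalIntegral_conj]
    congr 1
    funext x
    rw [map_mul, Complex.conj_ofReal]
    congr 1
    unfold e
    rw [← Complex.exp_conj]
    congr 1
    simp only [map_mul, Complex.conj_I, Complex.conj_ofReal, map_intCast, map_ofNat]
    push_cast
    ring
  rw [h1, Complex.norm_conj]

/-- two equations for two unknowns -/
private lemma two_eq {a b : ℂ} {t1 t2 R : ℝ} (h12 : t1 < t2) (h1 : 0 ≤ t1)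
    (k1 : ‖a + t1 * b‖ ≤ R) (k2 : ‖a + t2 * b‖ ≤ R) :
    ‖b‖ ≤ 2 * R / (t2 - t1) ∧ ‖a‖ ≤ (1 + 2 * t1 / (t2 - t1)) * R := by
  have hd : 0 < t2 - t1 := by linarith
  have e1 : ((t2 - t1 : ℝ) : ℂ) * b = (a + t2 * b) - (a + t1 * b) := by
    push_cast
    ring
  have h2 : (t2 - t1) * ‖b‖ ≤ 2 * R := by
    calc (t2 - t1) * ‖b‖ = ‖((t2 - t1 : ℝ) : ℂ) * b‖ := by
          rw [norm_mul, Complex.norm_real, Real.norm_eq_abs, abs_of_pos hd]
      _ ≤ ‖a + t2 * b‖ + ‖a + t1 * b‖ := by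
          rw [e1]
          exact norm_sub_le _ _
      _ ≤ 2 * R := by linarith
  have h3 : ‖b‖ ≤ 2 * R / (t2 - t1) := by
    rw [le_div_iff₀ hd]
    linarith
  refine ⟨h3, ?_⟩
  have e2 : a = (a + t1 * b) - (t1:ℂ) * b := by ring
  calc ‖a‖ ≤ ‖a + t1 * b‖ + ‖(t1:ℂ) * b‖ := by
        conv_lhs => rw [e2]
        exact norm_sub_le _ _
    _ ≤ R + t1 * (2 * R / (t2 - t1)) := by
        apply add_le_add k1
        rw [norm_mul, Complex.norm_real, Real.norm_eq_abs, abs_of_nonneg h1]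
        exact mul_le_mul_of_nonneg_left h3 h1
    _ = _ := by ring

/-- one leaf, without the sources -/
private lemma mid' {ρ : ℝ} (hρ : 0 < ρ) {p q : ℕ} (hp : 0 < p) (hpq : 2 * p < q) {d : ℝ}
    (hd : 0 < d) :
    ∃ ε0 > 0, ∀ (ε : ℝ) (J : ℝ → Jet) (θ : Par) (L τ : ℝ → ℝ) (X Y : ℝ), ε ≤ ε0 →
      Near ρ ε J → θ.Small ε → Lw J p q L τ → Cls ε p q L τ → XB ρ X J θ → YB ρ Y J θ →
      ∀ n : ℤ, (q:ℤ) ∣ n →
        ‖rc (fun x => (J x).e0 θ) n +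
          (Real.tan (π * ((p:ℝ) / q)) ^ 2 : ℝ) * rc (fun x => (J x).e1 θ) n‖ ≤
            d * X + (d + 12 * Real.tan (π * ((p:ℝ) / q)) ^ 4) * Y := by
  obtain ⟨ε0, h0, h⟩ := mid hρ hp hpq hd
  refine ⟨ε0, h0, ?_⟩
  intro ε J θ L τ X Y h1 h2 h3 h4 h5 h6 h7 n hn
  have k := h ε J θ L τ X Y h1 h2 h3 h4 h5 h6 h7 n hn
  set T := Real.tan (π * ((p:ℝ) / q))
  set r0 := rc (fun x => (J x).e0 θ) n
  set r1 := rc (fun x => (J x).e1 θ) n
  set r2 := rc (fun x => (J x).y1 θ) n with hr2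
  set r3 := rc (fun x => (J x).y2 θ) n with hr3
  have hY := wb_nonneg h7.1
  have hW : (1:ℝ) ≤ W ρ 2 n := by
    unfold W
    have h1 : (1:ℝ) ≤ (1 + |(n:ℝ)|) ^ 2 := one_le_pow₀ (by linarith [abs_nonneg (n:ℝ)])
    have h2 : (1:ℝ) ≤ Real.exp (ρ * |(n:ℝ)|) := Real.one_le_exp (by positivity)
    nlinarith
  have l2 : ‖r2‖ ≤ Y := by
    refine (wb_coeff hρ.le le_rfl h7.1 n).trans ?_
    rw [div_le_iff₀ (W_pos ρ 2 n)]
    nlinarith
  have l3 : ‖r3‖ ≤ Y := by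
    refine (wb_coeff hρ.le le_rfl h7.2 n).trans ?_
    rw [div_le_iff₀ (W_pos ρ 2 n)]
    nlinarith
  have e1 : r0 + (T ^ 2 : ℝ) * r1 = (r0 + (T ^ 2 : ℝ) * r1 + (8 * T ^ 4 : ℝ) * r2 -
      (4 * T ^ 4 : ℝ) * r3) - (8 * T ^ 4 : ℝ) * r2 + (4 * T ^ 4 : ℝ) * r3 := by ring
  have hT : 0 ≤ T ^ 4 := by positivity
  calc ‖r0 + (T ^ 2 : ℝ) * r1‖ ≤ ‖r0 + (T ^ 2 : ℝ) * r1 + (8 * T ^ 4 : ℝ) * r2 -
      (4 * T ^ 4 : ℝ) * r3‖ + ‖((8 * T ^ 4 : ℝ) : ℂ) * r2‖ + ‖((4 * T ^ 4 : ℝ) : ℂ) * r3‖ := by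
        conv_lhs => rw [e1]
        refine (norm_add_le _ _).trans (add_le_add_left ?_ _)
        exact norm_sub_le _ _
    _ ≤ d * (X + Y) + 8 * T ^ 4 * Y + 4 * T ^ 4 * Y := by
        apply add_le_add (add_le_add k _) _
        · rw [norm_mul, Complex.norm_real, Real.norm_eq_abs, abs_of_nonneg (by positivity)]
          exact mul_le_mul_of_nonneg_left l2 (by positivity)
        · rw [norm_mul, Complex.norm_real, Real.norm_eq_abs, abs_of_nonneg (by positivity)]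
          exact mul_le_mul_of_nonneg_left l3 (by positivity)
    _ = _ := by ring

/-- everything which is assumed about the curve in this part -/
structure Hyp (ρ ε : ℝ) (n1 : ℕ) (J : ℝ → Jet) (θ : Par) : Prop where
  near : Near ρ ε J
  small : θ.Small ε
  cond : Cond J θ
  zero : rc (fun x => (J x).e0 θ) 0 = 0
  leaf : ∀ p q : ℕ, PQ p q → 5 * p ≤ 2 * q → q ≤ n1 → ∃ L τ : ℝ → ℝ, Lw J p q L τ ∧ Cls ε p q L τ

/-- one mode -/
private def Md (ρ δ C : ℝ) (n1 : ℕ) (k : ℕ) : Prop :=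
  ∃ ε0 > 0, ∀ (ε : ℝ) (J : ℝ → Jet) (θ : Par) (X Y : ℝ), ε ≤ ε0 → Hyp ρ ε n1 J θ →
    XB ρ X J θ → YB ρ Y J θ →
    ‖rc (fun x => (J x).e0 θ) k‖ ≤ δ * X + C * Y ∧ ‖rc (fun x => (J x).e1 θ) k‖ ≤ δ * X + C * Y

private lemma tan_lt {p q : ℕ} (hp : 0 < p) (hpq : 2 * p < q) :
    0 < Real.tan (π * ((p:ℝ) / q)) := by
  have hq : 0 < q := by omega
  have hq0 : (0:ℝ) < q := by exact_mod_cast hq
  have hp0 : (0:ℝ) < p := by exact_mod_cast hp
  apply Real.tan_pos_of_pos_of_lt_pi_div_two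
  · positivity
  · have h1 : (p:ℝ) / q < 1 / 2 := by
      rw [div_lt_div_iff₀ hq0 two_pos]
      have : ((2 * p : ℕ) : ℝ) < q := by exact_mod_cast hpq
      push_cast at this
      linarith
    nlinarith [Real.pi_pos]

private lemma md_zero {ρ : ℝ} (hρ : 0 < ρ) {δ : ℝ} (hδ : 0 < δ) {n1 : ℕ} (hn1 : 3 ≤ n1) :
    ∃ C, 0 ≤ C ∧ Md ρ δ C n1 0 := by
  set T := Real.tan (π * (((1:ℕ):ℝ) / (3:ℕ))) with hT
  have hT0 : 0 < T := tan_lt (by norm_num) (by norm_num)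
  obtain ⟨ε0, h0, h⟩ := mid' hρ (p := 1) (q := 3) (by norm_num) (by norm_num)
    (d := δ * T ^ 2) (by positivity)
  refine ⟨(δ * T ^ 2 + 12 * T ^ 4) / T ^ 2, by positivity, ε0, h0, ?_⟩
  intro ε J θ X Y h1 hH hX hY
  have hX0 := wb_nonneg hX.1
  have hY0 := wb_nonneg hY.1
  obtain ⟨L, τ, hL, hc⟩ := hH.leaf 1 3 ⟨Or.inl rfl, by norm_num, by norm_num⟩ (by norm_num) hn1
  have k := h ε J θ L τ X Y h1 hH.near hH.small hL hc hX hY 0 (dvd_zero _)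
  rw [← hT] at k
  have hz := hH.zero
  constructor
  · rw [Nat.cast_zero, hz, norm_zero]
    positivity
  · rw [Nat.cast_zero]
    rw [hz, zero_add, norm_mul, Complex.norm_real, Real.norm_eq_abs,
      abs_of_pos (by positivity)] at k
    have h2 : (δ * X + (δ * T ^ 2 + 12 * T ^ 4) / T ^ 2 * Y) * T ^ 2 =
        δ * T ^ 2 * X + (δ * T ^ 2 + 12 * T ^ 4) * Y := by
      field_simp
    have h3 : 0 < T ^ 2 := by positivity
    nlinarith

private lemma md_low {ρ : ℝ} {δ : ℝ} (hδ : 0 < δ) {n1 : ℕ} {k : ℕ}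
    (hk : k = 1 ∨ k = 2) : ∃ C, 0 ≤ C ∧ Md ρ δ C n1 k := by
  refine ⟨0, le_rfl, 1, one_pos, ?_⟩
  intro ε J θ X Y h1 hH hX hY
  have hX0 := wb_nonneg hX.1
  have hY0 := wb_nonneg hY.1
  rcases hk with rfl | rfl
  · have e1 := hH.cond.a1
    have e2 := hH.cond.b1
    have e3 : (((1:ℕ):ℤ)) = 1 := rfl
    rw [e3, e1, e2, norm_zero]
    constructor <;> positivity
  · have e1 := hH.cond.a2
    have e2 := hH.cond.b2
    have e3 : (((2:ℕ):ℤ)) = 2 := rfl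
    rw [e3, e1, e2, norm_zero]
    constructor <;> positivity

private lemma md_mid {ρ : ℝ} (hρ : 0 < ρ) {δ : ℝ} (hδ : 0 < δ) {n1 : ℕ} {k : ℕ}
    (hk : k = 3 ∨ k = 4) (hn1 : k ≤ n1) : ∃ C, 0 ≤ C ∧ Md ρ δ C n1 k := by
  have hk3 : 3 ≤ k := by omega
  set T := Real.tan (π * (((1:ℕ):ℝ) / (k:ℕ))) with hT
  have hT0 : 0 < T := tan_lt (by norm_num) (by omega)
  obtain ⟨ε0, h0, h⟩ := mid' hρ (p := 1) (q := k) (by norm_num) (by omega) (d := δ) hδ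
  refine ⟨δ + 12 * T ^ 4, by positivity, ε0, h0, ?_⟩
  intro ε J θ X Y h1 hH hX hY
  have hX0 := wb_nonneg hX.1
  have hY0 := wb_nonneg hY.1
  obtain ⟨L, τ, hL, hc⟩ := hH.leaf 1 k ⟨Or.inl rfl, by omega, by norm_num⟩ (by omega) hn1
  have j := h ε J θ L τ X Y h1 hH.near hH.small hL hc hX hY k (dvd_refl _)
  rw [← hT] at j
  have hz : rc (fun x => (J x).e1 θ) k = 0 := by
    rcases hk with rfl | rfl
    · exact hH.cond.b3
    · exact hH.cond.b4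
  rw [hz, mul_zero, add_zero] at j
  rw [hz, norm_zero]
  exact ⟨j, by positivity⟩

private lemma tan_mono {p q p' q' : ℕ} (hp : 0 < p) (hp' : 0 < p') (hpq' : 2 * p' < q')
    (hq : 0 < q) (hlt : p * q' < p' * q) :
    Real.tan (π * ((p:ℝ) / q)) < Real.tan (π * ((p':ℝ) / q')) := by
  have hq' : 0 < q' := by omega
  have hq0 : (0:ℝ) < q := by exact_mod_cast hq
  have hq0' : (0:ℝ) < q' := by exact_mod_cast hq'
  have h1 : (p:ℝ) / q < (p':ℝ) / q' := by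
    rw [div_lt_div_iff₀ hq0 hq0']
    exact_mod_cast hlt
  have h2 : (p':ℝ) / q' < 1 / 2 := by
    rw [div_lt_div_iff₀ hq0' two_pos]
    have : ((2 * p' : ℕ) : ℝ) < q' := by exact_mod_cast hpq'
    push_cast at this
    linarith
  have h3 : 0 < (p:ℝ) / q := by positivity
  have hpi := Real.pi_pos
  apply Real.tan_lt_tan_of_lt_of_lt_pi_div_two
  · nlinarith
  · nlinarith
  · nlinarith

private lemma md_high {ρ : ℝ} (hρ : 0 < ρ) {δ : ℝ} (hδ : 0 < δ) {n1 : ℕ} {k : ℕ}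
    (hk : 5 ≤ k) (hn1 : k ≤ n1) : ∃ C, 0 ≤ C ∧ Md ρ δ C n1 k := by
  -- the second leaf
  obtain ⟨p', q', hPQ', h5', hq1', hdvd, hval⟩ : ∃ p' q' : ℕ, PQ p' q' ∧ 5 * p' ≤ 2 * q' ∧
      q' ≤ n1 ∧ q' ∣ k ∧ p' * k = 2 * q' := by
    rcases Nat.even_or_odd k with he | ho
    · obtain ⟨m, hm⟩ := he
      refine ⟨1, m, ⟨Or.inl rfl, by omega, by norm_num⟩, by omega, by omega, ⟨2, by omega⟩,
        by omega⟩
    · refine ⟨2, k, ⟨Or.inr rfl, by omega, ?_⟩, by omega, hn1, dvd_refl _, rfl⟩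
      exact (Nat.coprime_two_left).2 ho
  have hp' : 0 < p' := by
    rcases hPQ'.1 with h | h <;> omega
  have hq' : 2 ≤ q' := hPQ'.2.1
  set T1 := Real.tan (π * (((1:ℕ):ℝ) / (k:ℕ))) with hT1
  set T2 := Real.tan (π * ((p':ℝ) / q')) with hT2
  have hT10 : 0 < T1 := tan_lt (by norm_num) (by omega)
  have hT12 : T1 < T2 := by
    apply tan_mono (by norm_num) hp' (by omega) (by omega)
    rw [one_mul, hval]
    omega
  have hsq : T1 ^ 2 < T2 ^ 2 := by nlinarith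
  set M := 2 / (T2 ^ 2 - T1 ^ 2) + (1 + 2 * T1 ^ 2 / (T2 ^ 2 - T1 ^ 2)) with hM
  have hd0 : 0 < T2 ^ 2 - T1 ^ 2 := by linarith
  have hM0 : 0 < M := by positivity
  obtain ⟨ε1, h1, k1⟩ := mid' hρ (p := 1) (q := k) (by norm_num) (by omega) (d := δ / M)
    (by positivity)
  obtain ⟨ε2, h2, k2⟩ := mid' hρ (p := p') (q := q') hp' (by omega) (d := δ / M) (by positivity)
  refine ⟨δ + 12 * M * (T1 ^ 4 + T2 ^ 4), by positivity, min ε1 ε2, lt_min h1 h2, ?_⟩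
  intro ε J θ X Y hε hH hX hY
  have hX0 := wb_nonneg hX.1
  have hY0 := wb_nonneg hY.1
  obtain ⟨L, τ, hL, hc⟩ := hH.leaf 1 k ⟨Or.inl rfl, by omega, by norm_num⟩ (by omega) hn1
  obtain ⟨L', τ', hL', hc'⟩ := hH.leaf p' q' hPQ' h5' hq1'
  have j1 := k1 ε J θ L τ X Y (hε.trans (min_le_left _ _)) hH.near hH.small hL hc hX hY k
    (dvd_refl _)
  have j2 := k2 ε J θ L' τ' X Y (hε.trans (min_le_right _ _)) hH.near hH.small hL' hc' hX hY k
    (by exact_mod_cast hdvd)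
  rw [← hT1] at j1
  rw [← hT2] at j2
  set R := δ / M * X + (δ / M + 12 * (T1 ^ 4 + T2 ^ 4)) * Y with hR
  have i1 : δ / M * X + (δ / M + 12 * T1 ^ 4) * Y ≤ R := by
    have : 0 ≤ 12 * T2 ^ 4 * Y := by positivity
    rw [hR]
    nlinarith
  have i2 : δ / M * X + (δ / M + 12 * T2 ^ 4) * Y ≤ R := by
    have : 0 ≤ 12 * T1 ^ 4 * Y := by positivity
    rw [hR]
    nlinarith
  obtain ⟨l1, l2⟩ := two_eq hsq (by positivity) (j1.trans i1) (j2.trans i2)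
  have hRM : M * R = δ * X + (δ + 12 * M * (T1 ^ 4 + T2 ^ 4)) * Y := by
    rw [hR]
    field_simp
  have hR0 : 0 ≤ R := (norm_nonneg _).trans (j1.trans i1)
  have hM1 : 2 / (T2 ^ 2 - T1 ^ 2) ≤ M := by
    have : 0 ≤ 1 + 2 * T1 ^ 2 / (T2 ^ 2 - T1 ^ 2) := by positivity
    linarith
  have hM2 : 1 + 2 * T1 ^ 2 / (T2 ^ 2 - T1 ^ 2) ≤ M := by
    have : 0 ≤ 2 / (T2 ^ 2 - T1 ^ 2) := by positivity
    linarith
  rw [← hRM]
  constructor
  · exact l2.trans (mul_le_mul_of_nonneg_right hM2 hR0)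
  · refine l1.trans ?_
    rw [mul_div_right_comm]
    exact mul_le_mul_of_nonneg_right hM1 hR0

/-- FIN: finitely many modes -/
theorem fin_modes {ρ : ℝ} (hρ : 0 < ρ) {δ : ℝ} (hδ : 0 < δ) (n1 : ℕ) (hn1 : 5 ≤ n1) :
    ∃ C > 0, ∃ ε0 > 0, ∀ (ε : ℝ) (J : ℝ → Jet) (θ : Par) (X Y : ℝ), ε ≤ ε0 →
      Hyp ρ ε n1 J θ → XB ρ X J θ → YB ρ Y J θ → ∀ k : ℤ, |k| ≤ n1 →
      ‖rc (fun x => (J x).e0 θ) k‖ ≤ δ * X + C * Y ∧
        ‖rc (fun x => (J x).e1 θ) k‖ ≤ δ * X + C * Y := by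
  have h1 : ∀ k : ℕ, k ≤ n1 → ∃ C, 0 ≤ C ∧ Md ρ δ C n1 k := by
    intro k hk
    rcases Nat.lt_or_ge k 5 with h | h
    · interval_cases k
      · exact md_zero hρ hδ (by omega)
      · exact md_low hδ (Or.inl rfl)
      · exact md_low hδ (Or.inr rfl)
      · exact md_mid hρ hδ (Or.inl rfl) hk
      · exact md_mid hρ hδ (Or.inr rfl) hk
    · exact md_high hρ hδ h hk
  choose! C hC hMd using h1
  choose! ε0 hε0 hMd using hMd
  set CC := 1 + ∑ k ∈ Finset.range (n1 + 1), C k with hCC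
  have hsum : ∀ k ≤ n1, C k ≤ CC := by
    intro k hk
    have h2 : C k ≤ ∑ k ∈ Finset.range (n1 + 1), C k :=
      Finset.single_le_sum (f := C) (fun i hi => hC i (by
        rw [Finset.mem_range] at hi
        omega)) (Finset.mem_range.2 (by omega))
    linarith
  have hCC0 : 0 < CC := by
    have : 0 ≤ ∑ k ∈ Finset.range (n1 + 1), C k := Finset.sum_nonneg fun i hi => hC i (by
      rw [Finset.mem_range] at hi
      omega)
    linarith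
  obtain ⟨e, he, hek⟩ : ∃ e > 0, ∀ k ≤ n1, e ≤ ε0 k := by
    have hne : (Finset.range (n1 + 1)).Nonempty := ⟨0, Finset.mem_range.2 (by omega)⟩
    refine ⟨(Finset.range (n1 + 1)).inf' hne ε0, ?_, ?_⟩
    · rw [gt_iff_lt, Finset.lt_inf'_iff]
      intro i hi
      rw [Finset.mem_range] at hi
      exact hε0 i (by omega)
    · intro k hk
      exact Finset.inf'_le _ (Finset.mem_range.2 (by omega))
  refine ⟨CC, hCC0, e, he, ?_⟩
  intro ε J θ X Y hε hH hX hY k hk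
  have hY0 := wb_nonneg hY.1
  have h2 : k.natAbs ≤ n1 := by
    rw [Int.abs_eq_natAbs] at hk
    omega
  have h3 := hMd k.natAbs h2 ε J θ X Y (hε.trans (hek _ h2)) hH hX hY
  have h4 : C k.natAbs * Y ≤ CC * Y := mul_le_mul_of_nonneg_right (hsum _ h2) hY0
  have h5 : ∀ f : ℝ → ℝ, ‖rc f k‖ = ‖rc f (k.natAbs : ℤ)‖ := by
    intro f
    rcases Int.natAbs_eq k with h | h
    · rw [← h]
    · conv_lhs => rw [h]
      exact rc_neg_norm f _
  rw [h5, h5]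
  exact ⟨h3.1.trans (by linarith), h3.2.trans (by linarith)⟩

end Pool.Agent.MP_ae5b4e_an_NC
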