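import Mathlib
import Pool.Agent.Lib.MP_ae5b4e_an_NC.XesA

/-!
# MP_ae5b4e_an, project NC: the closing of the estimate of the defects

Text: `/team-store/POR_NC_h73.md`, (5.3), (5.5).
-/

noncomputable section

namespace Pool.Agent.MP_ae5b4e_an_NC

open Real Set Filter Topology MeasureTheory intervalIntegral
open Pool.Agent.MP_ae5b4e_an_hopf
open Pool.Agent.MP_ae5b4e_an_RG

private lemma xb_nonneg {ρ X : ℝ} {J : ℝ → Jet} {θ : Par} (h : XB ρ X J θ) : 0 ≤ X := by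
  obtain ⟨a, ha, -⟩ := h.1
  have h1 := (norm_nonneg (a 0)).trans (ha 0)
  by_contra hM
  rw [not_le] at hM
  have := div_neg_of_neg_of_pos hM (W_pos ρ 4 0)
  unfold W at this
  linarith

private lemma xb_of_coeff {ρ X X' : ℝ} (hρ : 0 ≤ ρ) {J : ℝ → Jet} {θ : Par} (h : XB ρ X J θ)
    (hc : ∀ k : ℤ, ‖rc (fun x => (J x).e0 θ) k‖ * W ρ 4 k ≤ X' ∧
      ‖rc (fun x => (J x).e1 θ) k‖ * W ρ 2 k ≤ X') : XB ρ X' J θ := by
  constructor
  · refine wb_of_coeff hρ (by norm_num) h.1 fun k => ?_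
    rw [le_div_iff₀ (W_pos ρ 4 k)]
    exact (hc k).1
  · refine wb_of_coeff hρ le_rfl h.2 fun k => ?_
    rw [le_div_iff₀ (W_pos ρ 2 k)]
    exact (hc k).2

private lemma xb_coeff {ρ X : ℝ} (hρ : 0 ≤ ρ) {J : ℝ → Jet} {θ : Par} (h : XB ρ X J θ) (k : ℤ) :
    ‖rc (fun x => (J x).e0 θ) k‖ * W ρ 4 k ≤ X ∧
      ‖rc (fun x => (J x).e1 θ) k‖ * W ρ 2 k ≤ X := by
  constructor
  · have := wb_coeff hρ (by norm_num) h.1 k
    rwa [le_div_iff₀ (W_pos ρ 4 k)] at this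
  · have := wb_coeff hρ le_rfl h.2 k
    rwa [le_div_iff₀ (W_pos ρ 2 k)] at this

private lemma xb_mono {ρ X X' : ℝ} (hρ : 0 ≤ ρ) {J : ℝ → Jet} {θ : Par} (h : XB ρ X J θ)
    (hX : X ≤ X') : XB ρ X' J θ :=
  xb_of_coeff hρ h fun k => ⟨((xb_coeff hρ h k).1).trans hX, ((xb_coeff hρ h k).2).trans hX⟩

/-- iteration of a contraction of the bounds -/
private lemma xb_iterate {ρ K X0 e : ℝ} (hρ : 0 ≤ ρ) {J : ℝ → Jet} {θ : Par} (hK : 0 ≤ K)
    (h : XB ρ X0 J θ) (he : X0 + 2 * K ≤ e)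
    (step : ∀ X, X ≤ e → XB ρ X J θ → XB ρ (X / 4 + K) J θ) : XB ρ (2 * K) J θ := by
  have hX0 := xb_nonneg h
  have h1 : ∀ n : ℕ, XB ρ (X0 / 2 ^ n + 2 * K) J θ := by
    intro n
    induction n with
    | zero =>
      refine xb_mono hρ h ?_
      rw [pow_zero, div_one]
      linarith
    | succ n ih =>
      have h2 : X0 / 2 ^ n ≤ X0 := div_le_self hX0 (one_le_pow₀ (by norm_num))
      refine xb_mono hρ (step _ (by linarith) ih) ?_
      have h3 : 0 ≤ X0 / 2 ^ n := by positivity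
      rw [pow_succ, ← div_div]
      linarith
  have h2 : ∀ d > 0, ∃ n : ℕ, X0 / 2 ^ n ≤ d := by
    intro d hd
    obtain ⟨n, hn⟩ := exists_nat_ge (X0 / d)
    refine ⟨n, ?_⟩
    rw [div_le_iff₀ (by positivity)]
    rw [div_le_iff₀ hd] at hn
    have h3 : (n:ℝ) ≤ 2 ^ n := by exact_mod_cast Nat.lt_two_pow_self.le
    nlinarith
  refine xb_of_coeff hρ h fun k => ⟨?_, ?_⟩
  · refine le_of_forall_pos_le_add fun d hd => ?_
    obtain ⟨n, hn⟩ := h2 d hd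
    have := (xb_coeff hρ (h1 n) k).1
    linarith
  · refine le_of_forall_pos_le_add fun d hd => ?_
    obtain ⟨n, hn⟩ := h2 d hd
    have := (xb_coeff hρ (h1 n) k).2
    linarith

/-- two equations for two unknowns -/
private lemma two_eq {a b : ℂ} {t1 t2 R : ℝ} (h12 : t1 < t2) (h1 : 0 ≤ t1)
    (k1 : ‖a + t1 * b‖ ≤ R) (k2 : ‖a + t2 * b‖ ≤ R) :
    ‖b‖ ≤ 2 * R / (t2 - t1) ∧ ‖a‖ ≤ (1 + 2 * t1 / (t2 - t1)) * R := by
  have hd : 0 < t2 - t1 := by linarith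
  have e1 : ((t2 - t1 : ℝ) : ℂ) * b = (a + t2 * b) - (a + t1 * b) := by
    push_cast
    ring
  have h2 : (t2 - t1) * ‖b‖ ≤ 2 * R := by
    calc (t2 - t1) * ‖b‖ = ‖((t2 - t1 : ℝ) : ℂ) * b‖ := by
          rw [norm_mul, Complex.norm_real, Real.norm_eq_abs, abs_of_pos hd]
      _ ≤ ‖a + t2 * b‖ + ‖a + t1 * b‖ := by
          rw [e1]
          exact norm_sub_le _ _
      _ ≤ 2 * R := by linarith
  have h3 : ‖b‖ ≤ 2 * R / (t2 - t1) := by
    rw [le_div_iff₀ hd]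
    linarith
  refine ⟨h3, ?_⟩
  have e2 : a = (a + t1 * b) - (t1:ℂ) * b := by ring
  calc ‖a‖ ≤ ‖a + t1 * b‖ + ‖(t1:ℂ) * b‖ := by
        conv_lhs => rw [e2]
        exact norm_sub_le _ _
    _ ≤ R + t1 * (2 * R / (t2 - t1)) := by
        apply add_le_add k1
        rw [norm_mul, Complex.norm_real, Real.norm_eq_abs, abs_of_nonneg h1]
        exact mul_le_mul_of_nonneg_left h3 h1
    _ = _ := by ring

/-- the two laws for a large mode -/
private lemma large {ρ C1 X Y : ℝ} (hC1 : 0 ≤ C1) (hX : 0 ≤ X) (hY : 0 ≤ Y) {a b : ℂ}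
    {n : ℕ} (hn : 1 ≤ n)
    (h1 : ‖a + ((π / n) ^ 2 : ℝ) * b‖ ≤ (C1 / n * X + C1 * Y) / W ρ 4 n)
    (h2 : ‖a + ((2 * π / n) ^ 2 : ℝ) * b‖ ≤ (C1 / n * X + C1 * Y) / W ρ 4 n) :
    ‖a‖ * W ρ 4 n ≤ 2 * C1 / n * X + 2 * C1 * Y ∧ ‖b‖ * W ρ 2 n ≤ 2 * C1 / n * X + 2 * C1 * Y := by
  have hn0 : (0:ℝ) < n := by exact_mod_cast hn
  have hn1 : (1:ℝ) ≤ n := by exact_mod_cast hn
  have hpi := Real.pi_pos
  have hpi3 := Real.pi_gt_three
  set R := (C1 / n * X + C1 * Y) / W ρ 4 n with hR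
  have hW4 := W_pos ρ 4 n
  have hW2 := W_pos ρ 2 n
  have hWW : W ρ 4 n = (1 + n) ^ 2 * W ρ 2 n := by
    unfold W
    rw [Int.cast_natCast, abs_of_pos hn0]
    ring
  have hRW : R * W ρ 4 n = C1 / n * X + C1 * Y := by
    rw [hR]
    field_simp
  have hR0 : 0 ≤ R := by positivity
  have ht : (π / n) ^ 2 < (2 * π / n) ^ 2 := by
    apply pow_lt_pow_left₀ _ (by positivity) (by norm_num)
    apply div_lt_div_of_pos_right _ hn0
    linarith
  obtain ⟨k1, k2⟩ := two_eq ht (by positivity) h1 h2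
  have hd : (2 * π / n) ^ 2 - (π / n) ^ 2 = 3 * π ^ 2 / n ^ 2 := by
    field_simp
    ring
  rw [hd] at k1 k2
  have e2 : 1 + 2 * (π / n) ^ 2 / (3 * π ^ 2 / n ^ 2) = 5 / 3 := by
    field_simp
    ring
  rw [e2] at k2
  have hXn : 0 ≤ C1 / n * X := by positivity
  have hYC : 0 ≤ C1 * Y := by positivity
  have h2C : 2 * C1 / n * X = 2 * (C1 / n * X) := by ring
  constructor
  · calc ‖a‖ * W ρ 4 n ≤ 5 / 3 * R * W ρ 4 n := mul_le_mul_of_nonneg_right k2 hW4.le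
      _ = 5 / 3 * (C1 / n * X + C1 * Y) := by rw [mul_assoc, hRW]
      _ ≤ 2 * C1 / n * X + 2 * C1 * Y := by
        rw [h2C]
        nlinarith
  · have h3 : ‖b‖ ≤ R * n ^ 2 := by
      refine k1.trans ?_
      rw [div_div_eq_mul_div, div_le_iff₀ (by positivity)]
      have h5 : 0 ≤ R * n ^ 2 := by positivity
      have h6 : 2 ≤ 3 * π ^ 2 := by nlinarith
      calc 2 * R * n ^ 2 = R * n ^ 2 * 2 := by ring
        _ ≤ R * n ^ 2 * (3 * π ^ 2) := mul_le_mul_of_nonneg_left h6 h5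
    have h4 : R * n ^ 2 * W ρ 2 n ≤ R * W ρ 4 n := by
      rw [hWW]
      have h5 : (n:ℝ) ^ 2 ≤ (1 + n) ^ 2 := by nlinarith
      calc R * n ^ 2 * W ρ 2 n = (R * W ρ 2 n) * n ^ 2 := by ring
        _ ≤ (R * W ρ 2 n) * (1 + n) ^ 2 := mul_le_mul_of_nonneg_left h5 (by positivity)
        _ = _ := by ring
    calc ‖b‖ * W ρ 2 n ≤ R * n ^ 2 * W ρ 2 n := mul_le_mul_of_nonneg_right h3 hW2.le
      _ ≤ C1 / n * X + C1 * Y := h4.trans_eq hRW
      _ ≤ 2 * C1 / n * X + 2 * C1 * Y := by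
        rw [h2C]
        linarith

private lemma W_le {ρ : ℝ} (hρ : 0 ≤ ρ) (b : ℕ) {k : ℤ} {n : ℕ} (h : |k| ≤ n) :
    W ρ b k ≤ W ρ b n := by
  have h1 : |(k:ℝ)| ≤ |((n:ℤ):ℝ)| := by
    have h2 : |((n:ℤ):ℝ)| = n := by
      rw [Int.cast_natCast]
      exact abs_of_nonneg (Nat.cast_nonneg n)
    rw [h2]
    exact_mod_cast h
  unfold W
  apply mul_le_mul _ _ (Real.exp_pos _).le (by positivity)
  · exact pow_le_pow_left₀ (by positivity) (by linarith) _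
  · exact Real.exp_le_exp.2 (mul_le_mul_of_nonneg_left h1 hρ)

private lemma W_mono {ρ : ℝ} (k : ℤ) : W ρ 2 k ≤ W ρ 4 k := by
  unfold W
  apply mul_le_mul_of_nonneg_right _ (Real.exp_pos _).le
  exact pow_le_pow_right₀ (by linarith [abs_nonneg (k:ℝ)]) (by norm_num)

/-- `E` is small -/
lemma Par.E_le {θ : Par} {ε : ℝ} (hε : ε ≤ 1 / 4) (h : θ.Small ε) : 0 ≤ θ.E ∧ θ.E ≤ 4 * ε := by
  have h1 := norm_nonneg θ.c3
  have h2 := norm_nonneg θ.c4
  have h3 := norm_nonneg θ.q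
  have k1 := h.c3
  have k2 := h.c4
  have k3 := h.q
  have hε0 : 0 ≤ ε := h1.trans k1
  unfold Par.E Par.c
  refine ⟨by positivity, ?_⟩
  have e1 : ‖θ.c3‖ + ‖θ.c4‖ ≤ 2 * ε := by linarith
  have e2 : ‖θ.c4‖ + ‖θ.q‖ * ‖θ.c3‖ ≤ 2 * ε := by
    have : ‖θ.q‖ * ‖θ.c3‖ ≤ ε * ε := mul_le_mul k3 k1 h1 hε0
    nlinarith
  have e3 : (‖θ.c3‖ + ‖θ.c4‖) * (‖θ.c4‖ + ‖θ.q‖ * ‖θ.c3‖) ≤ 2 * ε * (2 * ε) :=
    mul_le_mul e1 e2 (by positivity) (by positivity)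
  have e4 : (‖θ.c3‖ + ‖θ.c4‖) ^ 3 ≤ (2 * ε) ^ 3 := pow_le_pow_left₀ (by positivity) e1 3
  have e5 : ε ^ 2 ≤ ε / 4 := by nlinarith
  have e6 : ε ^ 3 ≤ ε / 16 := by
    have : ε ^ 3 = ε * ε ^ 2 := by ring
    nlinarith
  nlinarith

/-- XES, abstract form: `H n1 ε J θ` are the hypotheses on the curve. -/
theorem xes_abs {ρ : ℝ} (hρ : 0 < ρ) (H : ℕ → ℝ → (ℝ → Jet) → Par → Prop)
    (h1 : ∀ n1 ε J θ, H n1 ε J θ → Hyp ρ ε n1 J θ) {C0 e0 : ℝ} (hC0 : 0 < C0) (he0 : 0 < e0)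
    (apr : ∀ n1 ε J θ, ε ≤ e0 → H n1 ε J θ → XB ρ (C0 * ε) J θ)
    (src : ∀ n1 ε J θ X e, ε ≤ e → e ≤ e0 → H n1 ε J θ → X ≤ e → XB ρ X J θ →
      YB ρ (C0 * (e * X + θ.E)) J θ)
    {n0 : ℕ} {C1 : ℝ} (hC1 : 0 ≤ C1)
    (big : ∀ n1 ε J θ X Y, ε ≤ e0 → H n1 ε J θ → X ≤ e0 → XB ρ X J θ → YB ρ Y J θ →
      ∀ n : ℕ, n0 ≤ n → ∀ P : ℕ, P = 1 ∨ P = 2 →
        ‖rc (fun x => (J x).e0 θ) n + ((P * π / n) ^ 2 : ℝ) * rc (fun x => (J x).e1 θ) n‖ ≤
          (C1 / n * X + C1 * Y) / W ρ 4 n) :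
    ∃ n1 : ℕ, 9 ≤ n1 ∧ ∃ C > 0, ∃ ε0 > 0, ∀ (ε : ℝ) (J : ℝ → Jet) (θ : Par), ε ≤ ε0 →
      H n1 ε J θ → XB ρ (C * θ.E) J θ := by
  obtain ⟨n1, hn9, hn1b, hn1c⟩ : ∃ n1 : ℕ, 9 ≤ n1 ∧ n0 ≤ n1 ∧ 16 * C1 ≤ n1 := by
    obtain ⟨m, hm⟩ := exists_nat_ge (16 * C1)
    refine ⟨max 9 (max n0 m), le_max_left _ _, (le_max_left _ _).trans (le_max_right _ _), ?_⟩
    refine hm.trans ?_
    exact_mod_cast (le_max_right n0 m).trans (le_max_right _ _)
  have hn1a : 5 ≤ n1 := by omega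
  have hW := W_pos ρ 4 n1
  obtain ⟨C, hC, ε1, hε1, hfin⟩ := fin_modes hρ (δ := 1 / (8 * W ρ 4 n1)) (by positivity) n1 hn1a
  set C2 := 2 * C1 + C * W ρ 4 n1 with hC2
  have hC20 : 0 < C2 := by positivity
  set K0 := C2 * C0 with hK0
  have hK00 : 0 < K0 := by positivity
  obtain ⟨e, he, hee0, heK⟩ : ∃ e > 0, e ≤ e0 ∧ e * (8 * K0) ≤ 1 := by
    refine ⟨min e0 (1 / (8 * K0)), by positivity, min_le_left _ _, ?_⟩
    have : min e0 (1 / (8 * K0)) ≤ 1 / (8 * K0) := min_le_right _ _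
    rwa [le_div_iff₀ (by positivity)] at this
  refine ⟨n1, hn9, 2 * K0, by positivity, min (min ε1 e) (min (1 / 4) (e / (C0 + 8 * K0))),
    by positivity, ?_⟩
  intro ε J θ hε hH
  have b1 : ε ≤ ε1 := hε.trans ((min_le_left _ _).trans (min_le_left _ _))
  have b2' : ε ≤ e := hε.trans ((min_le_left _ _).trans (min_le_right _ _))
  have b2 : ε ≤ e0 := b2'.trans hee0
  have b3 : ε ≤ 1 / 4 := hε.trans ((min_le_right _ _).trans (min_le_left _ _))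
  have b5 : ε ≤ e / (C0 + 8 * K0) := hε.trans ((min_le_right _ _).trans (min_le_right _ _))
  have hHyp := h1 n1 ε J θ hH
  have hε0 : 0 ≤ ε := (norm_nonneg _).trans hHyp.small.q
  obtain ⟨hE0, hE1⟩ := Par.E_le b3 hHyp.small
  rw [le_div_iff₀ (by positivity)] at b5
  have hstep : ∀ X, X ≤ e → XB ρ X J θ → XB ρ (X / 4 + K0 * θ.E) J θ := by
    intro X hXe' hX
    have hXe : X ≤ e0 := hXe'.trans hee0
    have hX0 := xb_nonneg hX
    have hY := src n1 ε J θ X e b2' hee0 hH hXe' hX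
    set Y := C0 * (e * X + θ.E) with hYd
    have hY0 : 0 ≤ Y := by positivity
    have hgoal : X / 8 + C2 * Y ≤ X / 4 + K0 * θ.E := by
      have : C2 * Y = K0 * e * X + K0 * θ.E := by
        rw [hYd, hK0]
        ring
      rw [this]
      have h2 : K0 * e * X ≤ X / 8 := by
        have : e * (8 * K0) * X ≤ 1 * X := mul_le_mul_of_nonneg_right heK hX0
        nlinarith
      linarith
    refine xb_of_coeff hρ.le hX fun k => ?_
    rcases le_or_gt |k| (n1:ℤ) with hk | hk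
    · obtain ⟨g1, g2⟩ := hfin ε J θ X Y b1 hHyp hX hY k hk
      have w4 := W_le hρ.le 4 hk
      have w2 := (W_mono (ρ := ρ) k).trans w4
      have hS0 : 0 ≤ 1 / (8 * W ρ 4 n1) * X + C * Y := by positivity
      have hS : (1 / (8 * W ρ 4 n1) * X + C * Y) * W ρ 4 n1 ≤ X / 8 + C2 * Y := by
        have e1 : (1 / (8 * W ρ 4 n1) * X + C * Y) * W ρ 4 n1 = X / 8 + C * W ρ 4 n1 * Y := by
          field_simp
        rw [e1, hC2]
        have : 0 ≤ 2 * C1 * Y := by positivity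
        nlinarith
      constructor
      · refine le_trans ?_ hgoal
        refine le_trans ?_ hS
        exact mul_le_mul g1 w4 (W_pos _ _ _).le hS0
      · refine le_trans ?_ hgoal
        refine le_trans ?_ hS
        exact mul_le_mul g2 w2 (W_pos _ _ _).le hS0
    · have hk2 : n1 < k.natAbs := by
        rw [Int.abs_eq_natAbs] at hk
        omega
      have hkn : ((k.natAbs : ℤ) : ℤ) = |k| := (Int.abs_eq_natAbs k).symm
      have hrc : ∀ f : ℝ → ℝ, ‖rc f k‖ = ‖rc f (k.natAbs : ℤ)‖ := by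
        intro f
        rcases Int.natAbs_eq k with h | h
        · rw [← h]
        · conv_lhs => rw [h]
          exact rc_neg_norm f _
      have hWk : ∀ b, W ρ b k = W ρ b (k.natAbs : ℤ) := by
        intro b
        rcases Int.natAbs_eq k with h | h
        · rw [← h]
        · conv_lhs => rw [h]
          exact W_neg ρ b _
      have hP1 := big n1 ε J θ X Y b2 hH hXe hX hY k.natAbs (by omega) 1 (Or.inl rfl)
      have hP2 := big n1 ε J θ X Y b2 hH hXe hX hY k.natAbs (by omega) 2 (Or.inr rfl)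
      rw [Nat.cast_one, one_mul] at hP1
      rw [Nat.cast_ofNat] at hP2
      obtain ⟨g1, g2⟩ := large hC1 hX0 hY0 (by omega) hP1 hP2
      have hkr : (n1:ℝ) ≤ k.natAbs := by exact_mod_cast hk2.le
      have hk0 : (0:ℝ) < k.natAbs := by
        have : 0 < k.natAbs := by omega
        exact_mod_cast this
      have hsm : 2 * C1 / k.natAbs * X ≤ X / 8 := by
        have : 2 * C1 / k.natAbs ≤ 1 / 8 := by
          rw [div_le_iff₀ hk0]
          linarith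
        calc 2 * C1 / k.natAbs * X ≤ 1 / 8 * X := mul_le_mul_of_nonneg_right this hX0
          _ = X / 8 := by ring
      have hY2 : 2 * C1 * Y ≤ C2 * Y := by
        apply mul_le_mul_of_nonneg_right _ hY0
        rw [hC2]
        have : 0 < C * W ρ 4 n1 := by positivity
        linarith
      rw [hrc, hrc, hWk, hWk]
      constructor <;> linarith
  have hX0 := apr n1 ε J θ b2 hH
  have hfinal := xb_iterate hρ.le (K := K0 * θ.E) (e := e) (by positivity) hX0 (by nlinarith)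
    hstep
  rwa [← mul_assoc] at hfinal

end Pool.Agent.MP_ae5b4e_an_NC
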