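import Mathlib
import Pool.Agent.Lib.MP_ae5b4e_an_NC.XesB
import Pool.Agent.Lib.MP_ae5b4e_an_NC.DPsi
import Pool.Agent.Lib.MP_ae5b4e_an_NC.BigB
import Pool.Agent.Lib.MP_ae5b4e_an_NC.JetB

/-!
# MP_ae5b4e_an, project NC: the defects are bounded by `E`

Text: `/team-store/POR_NC_h73.md`, (5.5).
-/

noncomputable section

namespace Pool.Agent.MP_ae5b4e_an_NC

open Real Set Filter Topology MeasureTheory intervalIntegral
open Pool.Agent.MP_ae5b4e_an_hopf
open Pool.Agent.MP_ae5b4e_an_RG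

private lemma near_rho {ρ ρ' ε : ℝ} (h : ρ' ≤ ρ) {J : ℝ → Jet} (hN : Near ρ ε J) :
    Near ρ' ε J :=
  ⟨hN.w.rho_mono h, hN.z.rho_mono h, hN.w1.rho_mono h, hN.z1.rho_mono h, hN.dw, hN.dz⟩

private lemma near_eps {ρ ε ε' : ℝ} (h : ε ≤ ε') {J : ℝ → Jet} (hN : Near ρ ε J) :
    Near ρ ε' J :=
  ⟨hN.w.mono h, hN.z.mono h, hN.w1.mono h, hN.z1.mono h, hN.dw, hN.dz⟩

private lemma near_per {ρ ε : ℝ} {J : ℝ → Jet} (h : Near ρ ε J) : Function.Periodic J 1 := by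
  intro x
  have h1 := h.w.periodic x
  have h2 := h.z.periodic x
  have h3 := h.w1.periodic x
  have h4 := h.z1.periodic x
  simp only [periodic_e 1 x] at h1 h2 h3 h4
  ext1
  · linear_combination h1
  · linarith
  · linear_combination h3
  · exact h4

private lemma small_eps {ε ε' : ℝ} (h : ε ≤ ε') {θ : Par} (hN : θ.Small ε) : θ.Small ε' :=
  ⟨hN.q.trans h, hN.c3.trans h, hN.c4.trans h⟩

/-- THE ESTIMATE: with the twelve conditions the defects are bounded by `C E`. -/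
theorem X_le {ρ' ρ ρ1 : ℝ} (h0 : 0 < ρ') (h1 : ρ' < ρ) (h2 : ρ < ρ1) {A1 : ℝ} (hA1 : 0 < A1)
    (q0 : ℕ) : ∃ (C ε0 : ℝ) (n1 : ℕ), 0 < C ∧ 0 < ε0 ∧ 9 ≤ n1 ∧
      ∀ (ε : ℝ) (J : ℝ → Jet) (θ : Par), ε ≤ ε0 → Near ρ1 ε J → Leaves ρ A1 ε q0 n1 J →
        θ.Small ε → Cond J θ → XB ρ' (C * θ.E) J θ := by
  have h3 : ρ' < ρ1 := h1.trans h2
  have hρ1 : 0 ≤ ρ1 := h0.le.trans h3.le
  obtain ⟨CJ, hCJ, eJ, heJ, -, hJB⟩ := exists_JB hρ1
  obtain ⟨CY, hCY, eY, heY, -, hYB⟩ := exists_YB h0.le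
  obtain ⟨CX, hCX, eX, heX, -, hXB⟩ := exists_XB h0.le h3
  obtain ⟨CB, n0, hCB, hbig⟩ := big_jet h0 h1 h2 (A0 := CJ * eJ) (by positivity) hA1
  set e0 := min eJ (min eY eX) with he0
  have he00 : 0 < e0 := lt_min heJ (lt_min heY heX)
  have hJ : e0 ≤ eJ := min_le_left _ _
  have hY : e0 ≤ eY := (min_le_right _ _).trans (min_le_left _ _)
  have hX : e0 ≤ eX := (min_le_right _ _).trans (min_le_right _ _)
  obtain ⟨n1, hn9, C, hC, ε0, hε0, hfin⟩ := xes_abs (ρ := ρ') h0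
    (fun n1 ε J θ => ε ≤ e0 ∧ Near ρ1 ε J ∧ Leaves ρ A1 ε q0 n1 J ∧ θ.Small ε ∧ Cond J θ)
    (C0 := max CY CX) (e0 := e0) (n0 := max n0 (max (2 * q0) 5)) (C1 := CB)
    (by
      rintro n1 ε J θ ⟨hε, hN, hL, hS, hc⟩
      have hN' := near_rho h3.le hN
      have hB := hJB ε J θ (hε.trans hJ) hN hS
      refine ⟨hN', hS, hc, ?_, ?_⟩
      · exact rc_e0_zero (near_per hN) hB.al0 hN.dw hN.dz (hB.e0.continuous hρ1 le_rfl)
      · intro p q hpq h5 hq
        obtain ⟨L, τ, hl, hcl, -⟩ := hL.two p q hpq h5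
        exact ⟨L, τ, hl, hcl hq⟩)
    (lt_max_of_lt_left hCY) he00
    (by
      rintro n1 ε J θ hε ⟨-, hN, hL, hS, hc⟩
      have hε0 : 0 ≤ ε := (norm_nonneg _).trans hS.q
      have h4 := hXB ε J θ (hε.trans hX) hN hS
      have h5 : CX * ε ≤ max CY CX * ε := mul_le_mul_of_nonneg_right (le_max_right _ _) hε0
      exact ⟨h4.1.mono h5, h4.2.mono h5⟩)
    (by
      rintro n1 ε J θ X e hεe hee ⟨-, hN, hL, hS, hc⟩ hXe hXB'
      have hε0 : 0 ≤ ε := (norm_nonneg _).trans hS.q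
      have h4 := (hYB e X J θ (hee.trans hY) (near_eps hεe (near_rho h3.le hN))
        (small_eps hεe hS) hXB').2.2.2 hXe
      have hX0 : 0 ≤ X := hXB'.1.nonneg
      have hE0 : 0 ≤ θ.E := by
        unfold Par.E Par.c
        positivity
      have h5 : CY * (e * X + θ.E) ≤ max CY CX * (e * X + θ.E) := by
        apply mul_le_mul_of_nonneg_right (le_max_left _ _)
        have : 0 ≤ e := hε0.trans hεe
        positivity
      exact ⟨h4.1.mono h5, h4.2.mono h5⟩)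
    hCB.le
    (by
      rintro n1 ε J θ X Y hε ⟨-, hN, hL, hS, hc⟩ hXe hXB' hYB' n hn P hP
      have hn0 : n0 ≤ n := (le_max_left _ _).trans hn
      have hnq : 2 * q0 ≤ n := ((le_max_left _ _).trans (le_max_right _ _)).trans hn
      have hn5 : 5 ≤ n := ((le_max_right _ _).trans (le_max_right _ _)).trans hn
      have hX0 : 0 ≤ X := hXB'.1.nonneg
      have hY0 : 0 ≤ Y := hYB'.1.nonneg
      -- the leaf
      obtain ⟨p, q, hPQ, h5, hq0, hval⟩ : ∃ p q : ℕ, PQ p q ∧ 5 * p ≤ 2 * q ∧ q0 ≤ q ∧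
          n * p = P * q := by
        rcases hP with rfl | rfl
        · exact ⟨1, n, ⟨Or.inl rfl, by omega, by norm_num⟩, by omega, by omega, by ring⟩
        · rcases Nat.even_or_odd n with he | ho
          · obtain ⟨m, hm⟩ := he
            exact ⟨1, m, ⟨Or.inl rfl, by omega, by norm_num⟩, by omega, by omega, by omega⟩
          · exact ⟨2, n, ⟨Or.inr rfl, by omega, (Nat.coprime_two_left).2 ho⟩, by omega,
              by omega, by ring⟩
      obtain ⟨L, τ, hl, -, hbg⟩ := hL.two p q hPQ h5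
      have hB := hJB ε J θ (hε.trans hJ) hN hS
      have hCe : CJ * ε ≤ CJ * eJ := mul_le_mul_of_nonneg_left (hε.trans hJ) hCJ.le
      have k := hbig p q n P J θ L τ ε X Y hPQ hn0 hP hval hN hB.al0 (hB.ka.mono hCe)
        (hB.laε.mono hCe) hl (hbg hq0) hXB' hYB'
      have hnr : (1:ℝ) ≤ n := by
        have : 1 ≤ n := by omega
        exact_mod_cast this
      have e1 : ((P:ℝ) * π / n) ^ 2 = (π * P / n) ^ 2 := by rw [mul_comm (P:ℝ) π]
      rw [e1]
      refine k.trans ?_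
      have e2 : W ρ' 4 (n:ℤ) = (1 + n) ^ 4 * Real.exp (ρ' * n) := by
        have : |((n:ℤ):ℝ)| = n := by
          rw [Int.cast_natCast]
          exact abs_of_nonneg (Nat.cast_nonneg n)
        unfold W
        rw [this]
      rw [e2]
      apply div_le_div_of_nonneg_right _ (by positivity)
      have e3 : CB / (n:ℝ) ^ 2 * Y ≤ CB * Y := by
        apply mul_le_mul_of_nonneg_right _ hY0
        exact div_le_self hCB.le (one_le_pow₀ hnr)
      linarith)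
  refine ⟨C, min ε0 e0, n1, hC, lt_min hε0 he00, hn9, ?_⟩
  intro ε J θ hε hN hL hS hc
  exact hfin ε J θ (hε.trans (min_le_left _ _)) ⟨hε.trans (min_le_right _ _), hN, hL, hS, hc⟩

end Pool.Agent.MP_ae5b4e_an_NC
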