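import Mathlib
import Pool.Agent.Lib.MP_ae5b4e_an_NC.Ifc
import Pool.Agent.Lib.MP_ae5b4e_an_NC.Ana
import Pool.Agent.Lib.MP_ae5b4e_an_NC.Cnd
import Pool.Agent.Lib.MP_ae5b4e_an_NC.Xle
import Pool.Agent.Lib.MP_ae5b4e_an_NC.FinC
import Pool.Agent.Lib.MP_ae5b4e_an_NC.End
import Pool.Agent.Lib.MP_ae5b4e_an_NC.JetB

/-!
# MP_ae5b4e_an, project NC: a normalized solution near the circle lies on a conic
-/

noncomputable section

namespace Pool.Agent.MP_ae5b4e_an_NC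

open Real Set Filter Topology MeasureTheory intervalIntegral
open scoped ContDiff
open Pool.Agent.MP_ae5b4e_an_hopf
open Pool.Agent.MP_ae5b4e_an_RG

theorem Near.weaken {ρ ε ε' : ℝ} {J : ℝ → Jet} (h : Near ρ ε J) (hε : ε ≤ ε') : Near ρ ε' J :=
  ⟨h.w.mono hε, h.z.mono hε, h.w1.mono hε, h.z1.mono hε, h.dw, h.dz⟩

theorem Par.Small.weaken {ε ε' : ℝ} {θ : Par} (h : θ.Small ε) (hε : ε ≤ ε') : θ.Small ε' :=
  ⟨h.q.trans hε, h.c3.trans hε, h.c4.trans hε⟩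

theorem Leaves.act' {ρ A1 ε : ℝ} {q0 n1 : ℕ} {J : ℝ → Jet} (h : Leaves ρ A1 ε q0 n1 J) (g : Frm) :
    Leaves ρ A1 ε q0 n1 (fun x => g.act (J x)) := by
  refine ⟨fun p q hpq h5 => ?_, fun q hq => ?_⟩
  · obtain ⟨L, τ, h1, h2, h3⟩ := h.two p q hpq h5
    exact ⟨L, τ, h1.act g, h2, h3⟩
  · obtain ⟨L, τ, h1, h2⟩ := h.three q hq
    exact ⟨L, τ, h1.act g, h2⟩

/-- small changes of the frame -/
theorem near_act {ρ : ℝ} (hρ : 0 ≤ ρ) : ∃ C : ℝ, 0 < C ∧ ∀ (ε δ : ℝ) (J : ℝ → Jet) (g : Frm),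
    0 ≤ ε → ε ≤ 1 → 0 ≤ δ → δ ≤ 1 → Near ρ ε J → ‖g.s‖ ≤ δ → ‖g.x‖ ≤ δ → ‖g.y‖ ≤ δ →
      Near ρ (ε + C * δ) (fun x => g.act (J x)) := by
  set K : ℝ := 2 ^ 2 * Real.exp ρ with hK
  have hK0 : 0 < K := by positivity
  refine ⟨K + 3, by positivity, fun ε δ J g hε0 hε1 hδ0 hδ1 h gs gx gy => ?_⟩
  have e1 : WB ρ 2 K (e 1) := WB.e1 ρ 2
  have ie1 : WB ρ 2 K (fun x => Complex.I * e 1 x) := by
    have := e1.const_mul Complex.I
    rwa [Complex.norm_I, one_mul] at this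
  have hw : WB ρ 2 (K + 1) (fun x => (J x).w) :=
    ((h.w.add e1).congr fun x => by ring).mono (by linarith)
  have hw1 : WB ρ 2 (K + 1) (fun x => (J x).w1) :=
    ((h.w1.add ie1).congr fun x => by ring).mono (by linarith)
  have hz : WB ρ 2 2 (fun x => ((J x).z : ℂ)) := by
    have h1 := WB.add h.z (WB.const ρ 2 1)
    refine (h1.congr fun x => ?_).mono ?_
    · push_cast
      ring
    · rw [norm_one]
      linarith
  have hz1 : WB ρ 2 1 (fun x => ((J x).z1 : ℂ)) := WB.mono h.z1 hε1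
  have bd : ∀ {c : ℂ} {B : ℝ}, ‖c‖ ≤ δ → 0 ≤ B → ‖c‖ * B ≤ δ * B := fun hc hB =>
    mul_le_mul_of_nonneg_right hc hB
  refine ⟨?_, ?_, ?_, ?_, fun x => g.act_dw (h.dw x) (h.dz x), fun x => g.act_dz (h.dw x) (h.dz x)⟩
  · have k := (h.w.add (hw.conj.const_mul g.s)).add (hz.const_mul g.x)
    refine (k.congr fun x => ?_).mono ?_
    · simp only [Frm.act]
      ring
    · have a1 := bd gs (by positivity : (0:ℝ) ≤ K + 1)
      have a2 := bd gx (by norm_num : (0:ℝ) ≤ 2)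
      nlinarith
  · have k := WR.add h.z (hw.const_mul ((starRingEnd ℂ) g.y)).re
    refine (k.congr fun x => ?_).mono ?_
    · simp only [Frm.act]
      ring
    · have a1 := bd (c := (starRingEnd ℂ) g.y) (by rw [Complex.norm_conj]; exact gy)
        (by positivity : (0:ℝ) ≤ K + 1)
      nlinarith
  · have k := (h.w1.add (hw1.conj.const_mul g.s)).add (hz1.const_mul g.x)
    refine (k.congr fun x => ?_).mono ?_
    · simp only [Frm.act]
      ring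
    · have a1 := bd gs (by positivity : (0:ℝ) ≤ K + 1)
      have a2 := bd gx (by norm_num : (0:ℝ) ≤ 1)
      nlinarith
  · have k := WR.add h.z1 (hw1.const_mul ((starRingEnd ℂ) g.y)).re
    refine (k.congr fun x => ?_).mono ?_
    · simp only [Frm.act]
    · have a1 := bd (c := (starRingEnd ℂ) g.y) (by rw [Complex.norm_conj]; exact gy)
        (by positivity : (0:ℝ) ≤ K + 1)
      nlinarith

private lemma near_weight {ρ ρ' ε : ℝ} (hρ : ρ' ≤ ρ) {J : ℝ → Jet} (h : Near ρ ε J) :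
    Near ρ' ε J :=
  ⟨h.w.rho_mono hρ, h.z.rho_mono hρ, h.w1.rho_mono hρ, h.z1.rho_mono hρ, h.dw, h.dz⟩

/-- the sources and positivity -/
theorem yb_pos {ρ' ρ1 : ℝ} (hρ' : 0 < ρ') (hρ1 : ρ' ≤ ρ1) : ∃ C > 0, ∃ ε0 > 0, ∀ (ε X : ℝ)
    (J : ℝ → Jet) (θ : Par), ε ≤ ε0 → Near ρ1 ε J → θ.Small ε → XB ρ' X J θ → X ≤ ε0 →
      (∀ x, (J x).al θ ≠ 0) ∧ (∀ x, (J x).psi2 θ ≠ 0) ∧ YB ρ' (C * (X + θ.E)) J θ := by
  obtain ⟨C1, hC1, ε1, h1, h1', H1⟩ := exists_JB hρ'.le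
  obtain ⟨C2, hC2, ε2, h2, h2', H2⟩ := exists_YB hρ'.le
  refine ⟨C2, hC2, min ε1 ε2, lt_min h1 h2, fun ε X J θ hε hN hS hX hXε => ?_⟩
  have hN1 := (near_weight hρ1 hN).weaken (hε.trans (min_le_left _ _))
  have hN2 := (near_weight hρ1 hN).weaken (hε.trans (min_le_right _ _))
  have k1 := H1 ε1 J θ le_rfl hN1 (hS.weaken (hε.trans (min_le_left _ _)))
  obtain ⟨-, -, -, k2⟩ := H2 ε2 X J θ le_rfl hN2 (hS.weaken (hε.trans (min_le_right _ _))) hX
  have k3 := k2 (hXε.trans (min_le_right _ _))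
  have hX0 : 0 ≤ X := hX.1.nonneg
  have hle : C2 * (ε2 * X + θ.E) ≤ C2 * (X + θ.E) := by
    apply mul_le_mul_of_nonneg_left _ hC2.le
    nlinarith
  exact ⟨k1.al0, k1.psi0, ⟨k3.1.mono hle, k3.2.mono hle⟩⟩

private lemma jet_cont {P : ℝ → Fin 3 → ℝ} (hP : ContDiff ℝ ∞ P) :
    (Continuous fun x => (jet P x).w) ∧ (Continuous fun x => (jet P x).z) ∧
      (Continuous fun x => (jet P x).w1) ∧ Continuous fun x => (jet P x).z1 := by
  have h0 : ∀ i, Continuous fun x => P x i := fun i => (continuous_apply i).comp hP.continuous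
  have h1 : ∀ i, Continuous fun x => deriv P x i := fun i =>
    (continuous_apply i).comp (contDiff_infty_iff_deriv.1 hP).2.continuous
  refine ⟨?_, ?_, ?_, ?_⟩
  · simp only [jet]
    exact continuous_const.mul ((Complex.continuous_ofReal.comp (h0 0)).add
      ((Complex.continuous_ofReal.comp (h0 1)).mul continuous_const))
  · simp only [jet]
    exact continuous_const.mul (h0 2)
  · simp only [jet]
    exact (Complex.continuous_ofReal.comp (h1 0)).add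
      ((Complex.continuous_ofReal.comp (h1 1)).mul continuous_const)
  · exact h1 2

private lemma zero_of_wb {ρ : ℝ} {b : ℕ} {f : ℝ → ℂ} (h : WB ρ b 0 f) (x : ℝ) : f x = 0 := by
  obtain ⟨a, h1, h2⟩ := h
  have h3 : a = fun _ => 0 := by
    funext k
    have := h1 k
    rw [zero_div] at this
    exact norm_le_zero_iff.1 this
  have h4 := h2 x
  rw [h3] at h4
  simp only [zero_mul] at h4
  exact h4.unique hasSum_zero

theorem ns_conic : ∃ ε : ℝ, 0 < ε ∧ ∀ (P : ℝ → Fin 3 → ℝ) (U : ℝ → ℝ → ℝ) (r m : ℝ → ℝ),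
    NS ε P U r m → ∃ C : QuadraticForm ℝ (Fin 3 → ℝ), C ≠ 0 ∧ ∀ x, C (P x) = 0 := by
  obtain ⟨ρ1, hρ1, Ca, hCa, HA⟩ := ana
  obtain ⟨ρc, hρc, HL⟩ := exists_leaves
  obtain ⟨ρ, hρ, hρρ1, hρc'⟩ : ∃ ρ : ℝ, 0 < ρ ∧ ρ < ρ1 ∧ ρ ≤ ρc :=
    ⟨min (ρ1 / 2) ρc, lt_min (by positivity) hρc,
      lt_of_le_of_lt (min_le_left _ _) (by linarith), min_le_right _ _⟩
  obtain ⟨ρ', hρ', hρ'ρ⟩ : ∃ ρ' : ℝ, 0 < ρ' ∧ ρ' < ρ := ⟨ρ / 2, by positivity, by linarith⟩
  obtain ⟨A1, q0, hA1, HL⟩ := HL ρ hρ.le hρc'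
  obtain ⟨CX, εX, n1, hCX, hεX, hn1, HX⟩ := X_le hρ' hρ'ρ hρρ1 hA1 q0
  obtain ⟨Cc, hCc, εc, hεc, HC⟩ := con
  obtain ⟨Cn, hCn, HN⟩ := near_act hρ1.le
  obtain ⟨CY, hCY, εY, hεY, HY⟩ := yb_pos hρ' (hρ'ρ.trans hρρ1).le
  obtain ⟨εF, hεF, HF⟩ := fin_close hρ' (C := max CX (CY * (CX + 1))) (le_max_of_le_left hCX.le)
  -- the final closeness
  obtain ⟨εJ, hεJ, j1, j2, j3, j4, j5⟩ : ∃ εJ : ℝ, 0 < εJ ∧ εJ ≤ εX ∧ εJ ≤ εY ∧ εJ ≤ εF ∧
      εJ ≤ 1 / 4 ∧ CX * (4 * εJ) ≤ εY := by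
    refine ⟨min (min εX εY) (min (min εF (1 / 4)) (εY / (4 * CX))), by positivity,
      (min_le_left _ _).trans (min_le_left _ _), (min_le_left _ _).trans (min_le_right _ _),
      (min_le_right _ _).trans ((min_le_left _ _).trans (min_le_left _ _)),
      (min_le_right _ _).trans ((min_le_left _ _).trans (min_le_right _ _)), ?_⟩
    have h1 : min (min εX εY) (min (min εF (1 / 4)) (εY / (4 * CX))) ≤ εY / (4 * CX) :=
      (min_le_right _ _).trans (min_le_right _ _)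
    rw [le_div_iff₀ (by positivity)] at h1
    linarith
  obtain ⟨ε', hε', hε'1, HL⟩ := HL n1 εJ hεJ
  -- closeness δ in the analytic norm
  obtain ⟨δ, hδ, d1, d2, d3, d4⟩ : ∃ δ : ℝ, 0 < δ ∧ δ ≤ 1 / 3 ∧ 3 * δ ≤ εc ∧
      Cc * (3 * δ) ≤ min 1 εJ ∧ δ + Cn * (Cc * (3 * δ)) ≤ εJ := by
    have e0 : 0 < min 1 εJ := lt_min one_pos hεJ
    refine ⟨min (min (1 / 3) (εc / 3)) (min (min 1 εJ / (3 * Cc)) (εJ / (1 + 3 * (Cn * Cc)))),
      by positivity, (min_le_left _ _).trans (min_le_left _ _), ?_, ?_, ?_⟩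
    · have := (min_le_left (min (1 / 3) (εc / 3))
        (min (min 1 εJ / (3 * Cc)) (εJ / (1 + 3 * (Cn * Cc))))).trans (min_le_right _ _)
      linarith
    · have := (min_le_right (min (1 / 3) (εc / 3))
        (min (min 1 εJ / (3 * Cc)) (εJ / (1 + 3 * (Cn * Cc))))).trans (min_le_left _ _)
      rw [le_div_iff₀ (by positivity)] at this
      linarith
    · have := (min_le_right (min (1 / 3) (εc / 3))
        (min (min 1 εJ / (3 * Cc)) (εJ / (1 + 3 * (Cn * Cc))))).trans (min_le_right _ _)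
      rw [le_div_iff₀ (by positivity)] at this
      linarith
  have hs : 0 < min (min 1 ε') ((δ / Ca) ^ 2) := lt_min (lt_min one_pos hε') (by positivity)
  refine ⟨_, hs, fun P U r m hNS => ?_⟩
  set ε := min (min 1 ε') ((δ / Ca) ^ 2) with hεd
  obtain ⟨M, hM, hNS', hN⟩ := HA ε hs.le ((min_le_left _ _).trans (min_le_left _ _)) P U r m hNS
  have hsq : Ca * √ε ≤ δ := by
    have h1 : √ε ≤ δ / Ca := by
      rw [← Real.sqrt_sq (by positivity : 0 ≤ δ / Ca)]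
      exact Real.sqrt_le_sqrt (min_le_right _ _)
    rw [le_div_iff₀ hCa] at h1
    linarith
  have hN1 := hN.weaken hsq
  set P' : ℝ → Fin 3 → ℝ := fun x => M.mulVec (P x) with hP'
  have hjc := jet_cont hNS'.sys.curve.smooth
  obtain ⟨g, θ, g1, g2, g3, hθ, hcond⟩ := HC (3 * δ) (by positivity) d2 (jet P') hjc.1 hjc.2.1
    hjc.2.2.1 hjc.2.2.2
    (fun x _ => hN1.w.sup hρ1.le le_rfl x) (fun x _ => hN1.z.sup hρ1.le le_rfl x)
    (fun x _ => hN1.w1.sup hρ1.le le_rfl x) (fun x _ => hN1.z1.sup hρ1.le le_rfl x)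
  have hNg : Near ρ1 εJ (fun x => g.act (jet P' x)) :=
    (HN δ (Cc * (3 * δ)) (jet P') g hδ.le (by linarith) (by positivity)
      (d3.trans (min_le_left _ _)) hN1 g1 g2 g3).weaken d4
  have hLg : Leaves ρ A1 εJ q0 n1 (fun x => g.act (jet P' x)) :=
    (HL P' U r m (hNS'.weaken ((min_le_left _ _).trans (min_le_right _ _)))).act' g
  have hθJ : θ.Small εJ := hθ.weaken (d3.trans (min_le_right _ _))
  have hX := HX εJ (fun x => g.act (jet P' x)) θ j1 hNg hLg hθJ hcond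
  obtain ⟨E0, E1⟩ := Par.E_le j4 hθJ
  have hXs : CX * θ.E ≤ εY := (mul_le_mul_of_nonneg_left E1 hCX.le).trans j5
  obtain ⟨hal, hps, hY⟩ := HY εJ (CX * θ.E) (fun x => g.act (jet P' x)) θ j2 hNg hθJ hX hXs
  have hNg' := near_weight (ρ' := ρ') (hρ'ρ.trans hρρ1).le hNg
  obtain ⟨c3, c4⟩ := HF εJ (fun x => g.act (jet P' x)) θ (CX * θ.E) (CY * (CX * θ.E + θ.E)) j3
    hNg' hθJ (fun p q hpq => by
      have hbig : 8 ≤ n1 := by omega
      have htwo : ∀ p q : ℕ, PQ p q → 5 * p ≤ 2 * q → q ≤ 9 → ∃ L τ : ℝ → ℝ,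
          Lw (fun x => g.act (jet P' x)) p q L τ ∧ Cls εJ p q L τ := by
        intro p q hpq h5 h9
        obtain ⟨L, τ, k1, k2, -⟩ := hLg.two p q hpq h5
        exact ⟨L, τ, k1, k2 (h9.trans hn1)⟩
      simp only [List.mem_cons, Prod.mk.injEq, List.not_mem_nil, or_false] at hpq
      rcases hpq with h | h | h | h | h | h | h | h | h <;> obtain ⟨rfl, rfl⟩ := h
      · exact htwo 1 7 ⟨Or.inl rfl, by norm_num, by norm_num⟩ (by norm_num) (by norm_num)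
      · exact htwo 2 7 ⟨Or.inr rfl, by norm_num, by norm_num⟩ (by norm_num) (by norm_num)
      · exact hLg.three 7 (Or.inl rfl)
      · exact htwo 1 8 ⟨Or.inl rfl, by norm_num, by norm_num⟩ (by norm_num) (by norm_num)
      · exact htwo 1 4 ⟨Or.inl rfl, by norm_num, by norm_num⟩ (by norm_num) (by norm_num)
      · exact hLg.three 8 (Or.inr rfl)
      · exact htwo 1 9 ⟨Or.inl rfl, by norm_num, by norm_num⟩ (by norm_num) (by norm_num)
      · exact htwo 2 9 ⟨Or.inr rfl, by norm_num, by norm_num⟩ (by norm_num) (by norm_num)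
      · exact htwo 1 3 ⟨Or.inl rfl, by norm_num, by norm_num⟩ (by norm_num) (by norm_num))
    hX hY (mul_le_mul_of_nonneg_right (le_max_left _ _) E0)
    (by
      have h1 : CY * (CX * θ.E + θ.E) = CY * (CX + 1) * θ.E := by ring
      rw [h1]
      exact mul_le_mul_of_nonneg_right (le_max_right _ _) E0)
  have hE : θ.E = 0 := by
    unfold Par.E Par.c
    rw [c3, c4]
    simp
  rw [hE, mul_zero] at hX
  obtain ⟨x0, x1⟩ := hX
  have hsm : ‖g.s‖ + ‖g.x‖ * ‖g.y‖ < 1 := by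
    have h1 : Cc * (3 * δ) ≤ 1 / 4 := (d3.trans (min_le_right _ _)).trans j4
    have h2 := norm_nonneg g.x
    have h3 := norm_nonneg g.y
    nlinarith
  obtain ⟨C, hC, hCP⟩ := cone_of_flat hsm (P := P') c3 c4 hal hps
    (fun x => by exact_mod_cast zero_of_wb x0 x) (fun x => by exact_mod_cast zero_of_wb x1 x)
    hNg.dw hNg.dz
  refine ⟨C.comp M.mulVecLin, fun h0 => hC ?_, fun x => ?_⟩
  · ext v
    have h1 : M.mulVecLin ((M⁻¹).mulVec v) = v := by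
      have hu : IsUnit M.det := by rw [hM]; exact isUnit_one
      rw [Matrix.mulVecLin_apply, Matrix.mulVec_mulVec, Matrix.mul_nonsing_inv _ hu,
        Matrix.one_mulVec]
    have h2 := congrArg (fun q : QuadraticForm ℝ (Fin 3 → ℝ) => q ((M⁻¹).mulVec v)) h0
    simp only [QuadraticMap.comp_apply, h1] at h2
    simpa using h2
  · exact hCP x

end Pool.Agent.MP_ae5b4e_an_NC
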