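import Mathlib
import Pool.Agent.Lib.MP_ae5b4e_an_NC.Main
import Pool.Agent.Lib.MP_ae5b4e_an_NC.Top
import Pool.Agent.Lib.MP_ae5b4e_an_RIG.GEx
import Pool.Agent.Lib.MP_ae5b4e_an_FA.Fin

/-!
# MP_ae5b4e_an, project NC: the theorem

A solution of the problem whose normal form is close to that of the circle, and whose leaves reach
beyond the rotation number `3 / 7`, is a pencil of conics.
-/

noncomputable section

namespace Pool.Agent.MP_ae5b4e_an_NC

open Real Set Filter Topology MeasureTheory intervalIntegral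
open scoped ContDiff
open Pool.Agent.MP_ae5b4e_an_hopf
open Pool.Agent.MP_ae5b4e_an_RG
open Pool.Agent.MP_ae5b4e_an_RIG

/-- **Theorem** (curves near the circle) -/
theorem near_circle_pencil : ∃ ε : ℝ, 0 < ε ∧ ∀ (γ : ConvexCurve) (U : ℝ → ℝ → ℝ)
    (κ σ lam r m : ℝ → ℝ) (δ : ℝ), Sol γ U κ → Normal γ κ σ lam r m → 3 / 7 < δ →
      Reach γ U σ δ → NearCoef ε r m → Pencil γ U := by
  obtain ⟨ε, hε, H⟩ := ns_conic
  refine ⟨ε, hε, fun γ U κ σ lam r m δ h hN hδ hR hc => ?_⟩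
  obtain ⟨C, hC, hC'⟩ := H _ _ r m (ns_of_sol h hN hδ hR hc)
  exact Pool.Agent.MP_ae5b4e_an_FA.conic_all γ
    ⟨h.cont, h.per, h.simple, fun c hc c' hc' hcc t => h.anti t hc hc' hcc, h.lim, h.proj⟩
    h.reg hC (t₀ := 0) (Eventually.of_forall (cone_curve hN hC'))

end Pool.Agent.MP_ae5b4e_an_NC
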