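import Mathlib
import Pool.Agent.Lib.MP_ae5b4e_an_NC.CirA
import Pool.Agent.Lib.MP_ae5b4e_an_NC.CirB
import Pool.Agent.Lib.MP_ae5b4e_an_NC.Fin

/-!
# MP_ae5b4e_an, project NC: neighbourhoods of the circular pencils in the sup norm
-/

noncomputable section

namespace Pool.Agent.MP_ae5b4e_an_NC

open Real Set Filter Topology MeasureTheory intervalIntegral
open scoped ContDiff
open Pool.Agent.MP_ae5b4e_an_hopf
open Pool.Agent.MP_ae5b4e_an_RG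
open Pool.Agent.MP_ae5b4e_an_RIG

/-- **Theorem** (curves near the circle, sup norm, with a bound for the derivatives) -/
theorem near_circle_K {K δ : ℝ} (hδ : 3 / 7 < δ) : ∃ ε : ℝ, 0 < ε ∧
    ∀ (γ : ConvexCurve) (U : ℝ → ℝ → ℝ) (κ σ lam r m : ℝ → ℝ), Sol γ U κ →
      Normal γ κ σ lam r m → Bnd K r m → Reach γ U σ δ → (∀ x, |r x - 4 * π ^ 2| ≤ ε) →
      (∀ x, |m x| ≤ ε) → Pencil γ U := by
  obtain ⟨ε1, hε1, H1⟩ := near_circle_pencil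
  obtain ⟨ε, hε, H⟩ := nearCoef_of_close (K := K) (δ := δ) (by linarith) hε1
  exact ⟨ε, hε, fun γ U κ σ lam r m h hN hB hR hr hm =>
    H1 γ U κ σ lam r m δ h hN hδ hR (H γ U κ σ lam r m h hN hB hR hr hm)⟩

/-- the neighbourhood of a pencil whose first normal coefficient is constant -/
theorem near_circular {γ0 : ConvexCurve} {U0 : ℝ → ℝ → ℝ} {κ0 σ0 lam0 r0 m0 : ℝ → ℝ}
    (h0 : Sol γ0 U0 κ0) (hN0 : Normal γ0 κ0 σ0 lam0 r0 m0) (hP0 : Pencil γ0 U0)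
    (hc : ∀ x, r0 x = r0 0) {K δ : ℝ} (hδ : 3 / 7 < δ) : ∃ ε : ℝ, 0 < ε ∧
    ∀ (γ : ConvexCurve) (U : ℝ → ℝ → ℝ) (κ σ lam r m : ℝ → ℝ), Sol γ U κ →
      Normal γ κ σ lam r m → Bnd K r m → Reach γ U σ δ → (∀ x, |r x - r0 x| ≤ ε) →
      (∀ x, |m x - m0 x| ≤ ε) → Pencil γ U := by
  obtain ⟨hr, hm⟩ := const_pencil h0 hN0 hP0 hc
  obtain ⟨ε, hε, H⟩ := near_circle_K (K := K) hδ
  refine ⟨ε, hε, fun γ U κ σ lam r m h hN hB hR h1 h2 => H γ U κ σ lam r m h hN hB hR ?_ ?_⟩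
  · intro x
    rw [← hr x]
    exact h1 x
  · intro x
    have := h2 x
    rwa [hm x, sub_zero] at this

end Pool.Agent.MP_ae5b4e_an_NC
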