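import Mathlib
import Pool.Agent.Lib.MP_ae5b4e_an_RIG.CCor
import Pool.Agent.Lib.MP_ae5b4e_an_RIG.GMod
import Pool.Agent.Lib.MP_ae5b4e_an_RG.Desc
import Pool.Agent.Lib.MP_ae5b4e_an_NC.Geo
import Pool.Agent.Lib.MP_ae5b4e_an_NC.Tel
import Pool.Agent.Lib.MP_ae5b4e_an_NC.Sid

/-!
# MP_ae5b4e_an, project NC: all the leaves of a normalized solution near the circle

`ns_data`: uniform analyticity of the coefficients and `PLeaf → Leaf`; `leaves_of_NS`: the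
structure `Leaves` for `J = jet P`; `Leaves.act`: change of the frame.
-/

noncomputable section

namespace Pool.Agent.MP_ae5b4e_an_NC

open Real Set Filter Topology MeasureTheory intervalIntegral
open scoped ContDiff
open Pool.Agent.MP_ae5b4e_an_hopf
open Pool.Agent.MP_ae5b4e_an_RG
open Pool.Agent.MP_ae5b4e_an_RIG (Bnd prm core_unif dec hasDerivAt_prm)

variable {P : ℝ → Fin 3 → ℝ} {U : ℝ → ℝ → ℝ} {r m : ℝ → ℝ} {ε : ℝ}

lemma pi_sq_lt : π ^ 2 < 10 := by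
  have := Real.pi_lt_d2
  have := Real.pi_pos
  nlinarith

lemma NS.bnd (h : NS ε P U r m) (hε : ε ≤ 1) : Bnd 41 r m := by
  have hp := pi_sq_lt
  have hp0 : 0 ≤ π ^ 2 := by positivity
  refine ⟨fun x => ?_, fun x => (h.r1 x).trans (by linarith), fun x => (h.r2 x).trans (by linarith),
    fun x => (h.r3 x).trans (by linarith), fun x => (h.m0 x).trans (by linarith),
    fun x => (h.m1 x).trans (by linarith), fun x => (h.m2 x).trans (by linarith)⟩
  have := abs_le.1 (h.r0 x)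
  rw [abs_le]
  constructor <;> linarith

lemma NS.step' (h : NS ε P U r m) : ∃ c ∈ Ioo (0:ℝ) 1, ∀ t, t + 3 / 7 ≤ nxt P 1 U c t := by
  obtain ⟨δ, hδ, c, hc, hs⟩ := h.step
  exact ⟨c, hc, fun t => le_trans (by linarith) (hs t)⟩

/-- existence of the curves of periodic points -/
lemma NS.exists_pleaf (h : NS ε P U r m) {p q : ℕ} (hp : 1 ≤ p) (hpq : 7 * p ≤ 3 * q) :
    ∃ L, PLeaf 1 (nxt P 1 U) p q L := by
  obtain ⟨δ, hδ, c, hc, hs⟩ := h.step
  have hq : 1 ≤ q := by omega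
  refine Pool.Agent.MP_ae5b4e_an_NC.exists_pleaf h.sys.tmap hc hs hp hq ?_
  have h1 : (7:ℝ) * p ≤ 3 * q := by exact_mod_cast hpq
  have h2 : (1:ℝ) ≤ q := by exact_mod_cast hq
  rw [mul_one]
  nlinarith

/-- Uniform data of the solutions near the circle. -/
theorem ns_data : ∃ (ρ A Cs : ℝ) (q0 : ℕ), 0 < ρ ∧ 1 ≤ A ∧ 0 ≤ Cs ∧
    ∀ (ε : ℝ) (P : ℝ → Fin 3 → ℝ) (U : ℝ → ℝ → ℝ) (r m : ℝ → ℝ), ε ≤ 1 → NS ε P U r m →
      (∫ x in (0:ℝ)..1, m x = 0) ∧
      (∀ N, Dec ρ N A (prm m) ∧ Dec ρ N A (fun x => r x - prm m x)) ∧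
      ∀ p q : ℕ, PQ p q → q0 ≤ q → ∀ L : ℝ → ℝ, PLeaf 1 (nxt P 1 U) p q L →
        Leaf (prm m) (fun x => r x - prm m x) p q Cs (fun x => L x - x) := by
  obtain ⟨Cs, q0, hCs, H⟩ := geo_leaf 41 (3 / 7) (by norm_num) (by norm_num)
  obtain ⟨ρ, A, hρ, hA, hcore⟩ := core_unif (2 * 41) Cs (max q0 5) (by norm_num) hCs
  refine ⟨ρ, A, Cs, max q0 5, hρ, hA, hCs, ?_⟩
  intro ε P U r m hε h
  obtain ⟨h0, hL⟩ := H P U r m h.sys h.wr h.sr h.sm h.pr h.pm h.ode (h.bnd hε) h.step'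
  have hd := dec h.sr h.sm h.pr h.pm h0 (h.bnd hε)
  have hL' : ∀ p q : ℕ, PQ p q → max q0 5 ≤ q → ∀ L : ℝ → ℝ, PLeaf 1 (nxt P 1 U) p q L →
      Leaf (prm m) (fun x => r x - prm m x) p q Cs (fun x => L x - x) := fun p q hpq hq L hPL =>
    hL _ _ (hasDerivAt_prm h.sm) (fun _ => rfl) p q hpq ((le_max_left _ _).trans hq) L hPL
  refine ⟨h0, hcore _ _ hd.1 hd.2 ?_, hL'⟩
  intro p q hpq hq
  have hq5 : 5 ≤ q := (le_max_right _ _).trans hq
  obtain ⟨L, hPL⟩ := h.exists_pleaf (p := p) (q := q)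
    (by rcases hpq.1 with h1 | h1 <;> omega) (by rcases hpq.1 with h1 | h1 <;> omega)
  exact ⟨_, hL' p q hpq hq L hPL⟩

/-- the relation at the chord from `x + omega` to `x` -/
lemma tau_rel (h : NS ε P U r m) {p q : ℕ} {L : ℝ → ℝ}
    (hL : PLeaf 1 (nxt P 1 U) p q L) (x : ℝ) :
    Rel (prm m) (fun x => r x - prm m x) (x + (p:ℝ) / q + (L (x + (p:ℝ) / q) - (x + (p:ℝ) / q)))
      (-((p:ℝ) / q + (L (x + (p:ℝ) / q) - (x + (p:ℝ) / q)) - (L x - x)))
      (-(L (x + (p:ℝ) / q) - L x) * L1 P (L x) (L (x + (p:ℝ) / q)) - 2) := by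
  obtain ⟨a1, a2, -, -⟩ := leaf_law h.sys hL x
  have hr := rel_L1 h.sys.curve h.wr h.sr.continuous h.sm.continuous h.ode
    (hasDerivAt_prm h.sm) (R2 := fun x => r x - prm m x) (fun _ => rfl)
    (a := L (x + (p:ℝ) / q)) (d := -(L (x + (p:ℝ) / q) - L x)) (by linarith : _ < (0:ℝ)).ne
    (by rw [abs_neg, abs_of_pos (by linarith)]; linarith)
  rw [show L (x + (p:ℝ) / q) + -(L (x + (p:ℝ) / q) - L x) = L x by ring] at hr
  have e1 : x + (p:ℝ) / q + (L (x + (p:ℝ) / q) - (x + (p:ℝ) / q)) = L (x + (p:ℝ) / q) := by ring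
  have e2 : -((p:ℝ) / q + (L (x + (p:ℝ) / q) - (x + (p:ℝ) / q)) - (L x - x)) =
      -(L (x + (p:ℝ) / q) - L x) := by ring
  rw [e1, e2]
  exact hr

/-- the leaves with small rotation number -/
theorem ns_big {ρ A Cs : ℝ} {q0 : ℕ} (hρ : 0 < ρ) (hA : 1 ≤ A) (hCs : 0 ≤ Cs) :
    ∃ (A1 : ℝ) (q1 : ℕ), 0 < A1 ∧
    ∀ (ε : ℝ) (P : ℝ → Fin 3 → ℝ) (U : ℝ → ℝ → ℝ) (r m : ℝ → ℝ), NS ε P U r m →
      (∀ N, Dec ρ N A (prm m) ∧ Dec ρ N A (fun x => r x - prm m x)) →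
      (∀ p q : ℕ, PQ p q → q0 ≤ q → ∀ L : ℝ → ℝ, PLeaf 1 (nxt P 1 U) p q L →
        Leaf (prm m) (fun x => r x - prm m x) p q Cs (fun x => L x - x)) →
      ∀ p q : ℕ, PQ p q → q1 ≤ q → ∀ L : ℝ → ℝ, PLeaf 1 (nxt P 1 U) p q L →
        Big ρ A1 p q L (tauL P L ((p:ℝ) / q)) := by
  obtain ⟨A1, w2, hA1, hw2, hdesc⟩ := descent A Cs hA hCs
  obtain ⟨C, w1, hC, hw1, hsid⟩ := sid A A1 (by linarith) hA1
  obtain ⟨n, hn⟩ := exists_nat_gt (2 / min w1 w2)
  have hmin : 0 < min w1 w2 := lt_min hw1 hw2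
  refine ⟨max A1 C, max (max q0 n) 1, lt_max_of_lt_left hA1, ?_⟩
  intro ε P U r m h hD hL p q hpq hq L hPL N
  have hq1 : 1 ≤ q := (le_max_right _ _).trans hq
  have hqn : n ≤ q := (le_max_right _ _).trans ((le_max_left _ _).trans hq)
  have hqq : q0 ≤ q := (le_max_left _ _).trans ((le_max_left _ _).trans hq)
  have hp1 : 1 ≤ p := by rcases hpq.1 with h1 | h1 <;> omega
  have hp2 : p ≤ 2 := by rcases hpq.1 with h1 | h1 <;> omega
  have hq0 : (0:ℝ) < q := by exact_mod_cast hq1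
  have hp0 : (0:ℝ) < p := by exact_mod_cast hp1
  have hom : 0 < (p:ℝ) / q := by positivity
  have hle : (p:ℝ) / q ≤ min w1 w2 := by
    rw [div_le_iff₀ hq0]
    rw [div_lt_iff₀ hmin] at hn
    have h1 : (n:ℝ) ≤ q := by exact_mod_cast hqn
    have h2 : (p:ℝ) ≤ 2 := by exact_mod_cast hp2
    nlinarith
  obtain ⟨η, e1, e2, e3, k1, k2⟩ := hdesc ρ N p q (prm m) (fun x => r x - prm m x)
    (fun x => L x - x) hρ.le hpq (hle.trans (min_le_right _ _)) (hD N).1 (hD N).2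
    (hL p q hpq hqq L hPL)
  obtain ⟨k3, k4⟩ := hsid ρ N p q η (prm m) (fun x => r x - prm m x) (fun x => L x - x)
    (fun x => -(L (x + (p:ℝ) / q) - L x) * L1 P (L x) (L (x + (p:ℝ) / q)) - 2) hρ.le hpq
    (hle.trans (min_le_left _ _)) e1 e3 (hD N).1 (hD N).2 (hPL.cont.sub continuous_id) k1 k2
    (fun x => tau_rel h hPL x)
  refine ⟨η, e1, e2, e3, k1.mono ?_, ?_⟩
  · exact mul_le_mul_of_nonneg_right (le_max_left _ _) (by positivity)
  have hfun : (fun x => ((tauL P L ((p:ℝ) / q) x / (π * ((p:ℝ) / q)) - 1 : ℝ) : ℂ)) =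
      (fun x => (((1 + (L (x + (p:ℝ) / q) - (x + (p:ℝ) / q) - (L x - x)) / ((p:ℝ) / q)) /
        (1 + (-(L (x + (p:ℝ) / q) - L x) * L1 P (L x) (L (x + (p:ℝ) / q)) - 2) / 2) - 1 : ℝ)
          : ℂ)) := by
    funext x
    congr 2
    have k5 := k3 x
    obtain ⟨a1, a2, -, -⟩ := leaf_law h.sys hPL x
    have hd : 0 < L (x + (p:ℝ) / q) - L x := by linarith
    set d := L (x + (p:ℝ) / q) - L x with hdd
    set l := L1 P (L x) (L (x + (p:ℝ) / q)) with hl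
    have k6 : 1 + (-d * l - 2) / 2 = -(d * l) / 2 := by ring
    rw [k6] at k5 ⊢
    have hl0 : l ≠ 0 := by
      intro hl0
      rw [hl0] at k5
      simp at k5
    have k7 : 1 + (L (x + (p:ℝ) / q) - (x + (p:ℝ) / q) - (L x - x)) / ((p:ℝ) / q) =
        d / ((p:ℝ) / q) := by
      rw [hdd]
      field_simp
      ring
    rw [k7]
    unfold tauL
    rw [← hl]
    have hπ := Real.pi_pos
    field_simp
  rw [hfun]
  exact k4.mono (mul_le_mul_of_nonneg_right (le_max_right _ _) (by positivity))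

/-- the leaves with bounded denominator -/
theorem ns_cls (n1 : ℕ) : ∃ C > 0, ∃ ε0 > 0, ∀ (ε : ℝ) (P : ℝ → Fin 3 → ℝ) (U : ℝ → ℝ → ℝ)
    (r m : ℝ → ℝ), ε ≤ ε0 → NS ε P U r m → ∀ p q : ℕ, 1 ≤ p → 7 * p ≤ 3 * q → q ≤ n1 →
      ∀ L : ℝ → ℝ, PLeaf 1 (nxt P 1 U) p q L → Cls (C * ε) p q L (tauL P L ((p:ℝ) / q)) := by
  set T0 : ℝ := Real.tan (3 * π / 7) with hT0
  have hπ := Real.pi_pos
  have hT0pos : 0 < T0 := Real.tan_pos_of_pos_of_lt_pi_div_two (by positivity) (by linarith)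
  set n : ℝ := max (n1:ℝ) 1 with hn
  have hn1 : 1 ≤ n := le_max_right _ _
  set C : ℝ := n ^ 2 + 7 * n ^ 3 * T0 ^ 2 with hC
  have hC0 : 0 < C := by positivity
  refine ⟨C, hC0, min (1 / n ^ 2) (π / (7 * n ^ 3 * T0)), by positivity, ?_⟩
  intro ε P U r m hε h p q hp hpq hqn L hL
  have hε0 : 0 ≤ ε := (abs_nonneg _).trans (h.m0 0)
  have hq : 1 ≤ q := by omega
  have hq1 : (1:ℝ) ≤ q := by exact_mod_cast hq
  have hqn' : (q:ℝ) ≤ n := le_trans (by exact_mod_cast hqn) (le_max_left _ _)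
  have hε1 : ε * n ^ 2 ≤ 1 := by
    have := hε.trans (min_le_left _ _)
    rwa [le_div_iff₀ (by positivity)] at this
  have hε2 : ε * (7 * n ^ 3 * T0) ≤ π := by
    have := hε.trans (min_le_right _ _)
    rwa [le_div_iff₀ (by positivity)] at this
  have hq2 : (q:ℝ) ^ 2 ≤ n ^ 2 := pow_le_pow_left₀ (by positivity) hqn' 2
  have hq3 : (q:ℝ) ^ 3 ≤ n ^ 3 := pow_le_pow_left₀ (by positivity) hqn' 3
  have hqε : (q:ℝ) ^ 2 * ε ≤ 1 := by nlinarith
  have hεle : ε ≤ 1 := by nlinarith [sq_nonneg (n - 1)]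
  constructor
  · intro x
    have k1 := leaf_near h.sys h.wr h.ode hεle h.r0 h.m0 hq hL x
    refine k1.trans ?_
    have h1 : (q:ℝ) ^ 2 * ε ≤ n ^ 2 * ε := mul_le_mul_of_nonneg_right hq2 hε0
    have h2 : 0 ≤ n ^ 2 * ε := by positivity
    have h3 : 0 ≤ 7 * n ^ 3 * T0 ^ 2 * ε := by positivity
    rw [hC]
    linarith
  · intro x
    have k1 := leaf_u h.sys h.wr h.ode h.r0 h.m0 hp hq hqε hL x
    set om : ℝ := (p:ℝ) / q with hom
    have hom0 : 0 < om := by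
      have : (0:ℝ) < p := by exact_mod_cast hp
      positivity
    have hom1 : om ≤ 3 / 7 := by
      rw [hom, div_le_div_iff₀ (by positivity) (by norm_num)]
      have : (7:ℝ) * p ≤ 3 * q := by exact_mod_cast hpq
      linarith
    have hlt : π * om < π / 2 := by nlinarith
    have hT : 0 < Real.tan (π * om) := Real.tan_pos_of_pos_of_lt_pi_div_two (by positivity) hlt
    have hTT : Real.tan (π * om) ≤ T0 := by
      refine Real.strictMonoOn_tan.monotoneOn ⟨by nlinarith, hlt⟩ ⟨by linarith, by linarith⟩ ?_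
      nlinarith
    have hct : ct om = 2 * π / Real.tan (π * om) := by
      unfold ct
      rw [Real.tan_eq_sin_div_cos]
      field_simp
    set u : ℝ := -L1 P (L x) (L (x + om)) with hu
    have hτ : tauL P L om x = 2 * π / u := by
      unfold tauL
      rw [hu, neg_div, div_neg]
    have hct0 : 2 * π / T0 ≤ ct om := by
      rw [hct]
      exact div_le_div_of_nonneg_left (by positivity) hT hTT
    have hη : 7 * (q:ℝ) ^ 3 * ε ≤ π / T0 := by
      rw [le_div_iff₀ hT0pos]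
      have : 7 * (q:ℝ) ^ 3 * ε * T0 ≤ 7 * n ^ 3 * ε * T0 := by
        have := mul_le_mul_of_nonneg_right hq3 (by positivity : 0 ≤ 7 * ε * T0)
        linarith
      linarith
    have hu0 : π / T0 ≤ u := by
      have := (abs_le.1 k1).1
      have e1 : 2 * π / T0 = π / T0 + π / T0 := by ring
      linarith
    have hPT : 0 < π / T0 := by positivity
    have hupos : 0 < u := hPT.trans_le hu0
    have hcpos : 0 < ct om := lt_of_lt_of_le (by positivity) hct0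
    have hid : tauL P L om x - Real.tan (π * om) = -(2 * π * (u - ct om)) / (u * ct om) := by
      have : Real.tan (π * om) = 2 * π / ct om := by
        rw [hct]
        field_simp
      rw [hτ, this]
      field_simp
      ring
    rw [hid, abs_div, abs_neg, abs_mul, abs_of_pos (by positivity : 0 < 2 * π),
      abs_of_pos (by positivity : 0 < u * ct om), div_le_iff₀ (by positivity)]
    have h1 : π / T0 * (2 * π / T0) ≤ u * ct om := mul_le_mul hu0 hct0 (by positivity) hupos.le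
    have h2 : 2 * π * |u - ct om| ≤ 2 * π * (7 * n ^ 3 * ε) := by
      refine mul_le_mul_of_nonneg_left (k1.trans ?_) (by positivity)
      have := mul_le_mul_of_nonneg_right hq3 (by positivity : 0 ≤ 7 * ε)
      linarith
    have h3 : 7 * n ^ 3 * T0 ^ 2 * ε * (π / T0 * (2 * π / T0)) ≤ C * ε * (u * ct om) := by
      refine mul_le_mul ?_ h1 (by positivity) (by positivity)
      rw [hC]
      have : 0 ≤ n ^ 2 * ε := by positivity
      linarith
    have h4 : 7 * n ^ 3 * T0 ^ 2 * ε * (π / T0 * (2 * π / T0)) = 2 * π * (7 * n ^ 3 * ε) * π := by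
      field_simp
    have h5 : 2 * π * (7 * n ^ 3 * ε) ≤ 2 * π * (7 * n ^ 3 * ε) * π :=
      le_mul_of_one_le_right (by positivity) (by linarith [Real.pi_gt_three])
    linarith

/-- ALL THE LEAVES of a normalized solution near the circle, and the uniform analyticity of the
coefficients. -/
theorem leaves_of_NS : ∃ (ρ A A1 : ℝ) (q0 : ℕ), 0 < ρ ∧ 1 ≤ A ∧ 0 < A1 ∧
    ∀ n1 : ℕ, ∃ C > 0, ∃ ε0 > 0, ∀ (ε : ℝ) (P : ℝ → Fin 3 → ℝ) (U : ℝ → ℝ → ℝ) (r m : ℝ → ℝ),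
      ε ≤ ε0 → NS ε P U r m →
      (∫ x in (0:ℝ)..1, m x = 0) ∧
      (∀ N, Dec ρ N A (prm m) ∧ Dec ρ N A (fun x => r x - prm m x)) ∧
      Leaves ρ A1 (C * ε) q0 n1 (jet P) := by
  obtain ⟨ρ, A, Cs, q0, hρ, hA, hCs, H⟩ := ns_data
  obtain ⟨A1, q1, hA1, hbig⟩ := ns_big (q0 := q0) hρ hA hCs
  refine ⟨ρ, A, A1, q1, hρ, hA, hA1, fun n1 => ?_⟩
  obtain ⟨C, hC, ε0, hε0, hcls⟩ := ns_cls (max n1 8)
  refine ⟨C, hC, min ε0 1, lt_min hε0 one_pos, ?_⟩
  intro ε P U r m hε h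
  obtain ⟨h0, hD, hL⟩ := H ε P U r m (hε.trans (min_le_right _ _)) h
  have hε' := hε.trans (min_le_left _ _)
  refine ⟨h0, hD, ⟨?_, ?_⟩⟩
  · intro p q hpq h5
    have hp1 : 1 ≤ p := by rcases hpq.1 with h1 | h1 <;> omega
    obtain ⟨L, hPL⟩ := h.exists_pleaf hp1 (q := q) (by omega)
    refine ⟨L, tauL P L ((p:ℝ) / q), lw_of_pleaf h.sys (by omega) (by omega) hPL,
      fun hq => hcls ε P U r m hε' h p q hp1 (by omega) (hq.trans (le_max_left _ _)) L hPL,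
      fun hq => hbig ε P U r m h hD hL p q hpq hq L hPL⟩
  · intro q hq
    obtain ⟨L, hPL⟩ := h.exists_pleaf (p := 3) (by norm_num) (q := q) (by omega)
    exact ⟨L, tauL P L (((3:ℕ):ℝ) / q), lw_of_pleaf h.sys (by omega) (by omega) hPL,
      hcls ε P U r m hε' h 3 q (by norm_num) (by omega) ((by omega : q ≤ 8).trans
        (le_max_right _ _)) L hPL⟩

/-- change of the frame -/
lemma Leaves.act {ρ A1 ε : ℝ} {q0 n1 : ℕ} {J : ℝ → Jet} (h : Leaves ρ A1 ε q0 n1 J) (g : Frm) :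
    Leaves ρ A1 ε q0 n1 (fun x => g.act (J x)) := by
  refine ⟨fun p q hpq h5 => ?_, fun q hq => ?_⟩
  · obtain ⟨L, τ, h1, h2, h3⟩ := h.two p q hpq h5
    exact ⟨L, τ, h1.act g, h2, h3⟩
  · obtain ⟨L, τ, h1, h2⟩ := h.three q hq
    exact ⟨L, τ, h1.act g, h2⟩

end Pool.Agent.MP_ae5b4e_an_NC
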